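import Mathlib

set_option autoImplicit false

open Filter MeasureTheory Topology
open scoped Real

namespace Pool.Agent.MP_67227b_nt

/-- The sine-kernel matrix `A(u)`: the entries are `sinc(pi (u_i - u_j))`, where `sinc x` is
`sin x / x` for `x ≠ 0` and `sinc 0 = 1`. In particular the diagonal entries are `1`. -/
noncomputable def sineMatrix {k : ℕ} (u : Fin k → ℝ) : Matrix (Fin k) (Fin k) ℝ :=
  Matrix.of fun i j => Real.sinc (π * (u i - u j))

/-- `det A(u_1, ..., u_m, 0)`, a function on `ℝ^m`. -/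
noncomputable def sineDet (m : ℕ) (u : Fin m → ℝ) : ℝ :=
  (sineMatrix (Fin.snoc u (0 : ℝ) : Fin (m + 1) → ℝ)).det

/-- The integral of `det A(u_1, ..., u_m, 0)` over the box `∏ [a_i, b_i]`. -/
noncomputable def boxIntegral (m : ℕ) (a b : Fin m → ℝ) : ℝ :=
  ∫ u in Set.Icc a b, sineDet m u

/-- For a family of ordinates `γ`, the number of `(m+1)`-tuples of pairwise distinct indices with
all ordinates at most `T` and with normalised differences to the last one in the box
`∏ [a_i, b_i] ⊆ ℝ^m`. -/
noncomputable def tupleCount {J : Type*} (γ : J → ℝ) (m : ℕ) (T : ℝ) (a b : Fin m → ℝ) : ℕ :=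
  Set.ncard {j : Fin (m + 1) → J | Function.Injective j ∧ (∀ i, γ (j i) ≤ T) ∧
    ∀ i : Fin m, (γ (j i.castSucc) - γ (j (Fin.last m))) * (Real.log T / (2 * π)) ∈
      Set.Icc (a i) (b i)}

/-- The normalising factor `(T / 2π) log T`. -/
noncomputable def zeroScale (T : ℝ) : ℝ := T / (2 * π) * Real.log T

/-- The `(m+1)`-level correlation conjecture for the family of ordinates `γ`, for all boxes. -/
def CorrelationConj {J : Type*} (γ : J → ℝ) (m : ℕ) : Prop :=
  ∀ a b : Fin m → ℝ, a ≤ b →
    Tendsto (fun T : ℝ => (tupleCount γ m T a b : ℝ) / zeroScale T) atTop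
      (𝓝 (boxIntegral m a b))

/-- The upper-bound half of the `(m+1)`-level correlation conjecture, for all boxes. -/
def CorrelationUpper {J : Type*} (γ : J → ℝ) (m : ℕ) : Prop :=
  ∀ a b : Fin m → ℝ, a ≤ b → ∀ ε : ℝ, 0 < ε →
    ∀ᶠ T : ℝ in atTop, (tupleCount γ m T a b : ℝ) / zeroScale T ≤ boxIntegral m a b + ε

/-- Indices for the zeros of the Riemann zeta function with positive imaginary part, counted with
multiplicity: pairs `(ρ, i)` with `ζ(ρ) = 0`, `Im ρ > 0` and `i` less than the order of the zero. -/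
def ZetaZeroIdx : Type :=
  {p : ℂ × ℕ // riemannZeta p.1 = 0 ∧ 0 < p.1.im ∧ p.2 < analyticOrderNatAt riemannZeta p.1}

/-- The ordinate of a zero. -/
def zetaOrdinate (j : ZetaZeroIdx) : ℝ := j.1.1.im

end Pool.Agent.MP_67227b_nt
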