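import Mathlib

set_option autoImplicit false

open Filter Topology

namespace Pool.Agent.MP_67227b_nt

/-- `limsup f ≤ c` at infinity, in elementary terms. -/
def UB (f : ℝ → ℝ) (c : ℝ) : Prop := ∀ ε : ℝ, 0 < ε → ∀ᶠ T : ℝ in atTop, f T ≤ c + ε

/-- `liminf f ≥ c` at infinity, in elementary terms. -/
def LB (f : ℝ → ℝ) (c : ℝ) : Prop := ∀ ε : ℝ, 0 < ε → ∀ᶠ T : ℝ in atTop, c - ε ≤ f T

lemma UB.neg {f : ℝ → ℝ} {c : ℝ} (h : UB f c) : LB (fun T => - f T) (-c) := by
  intro ε hε
  filter_upwards [h ε hε] with T hT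
  linarith

lemma LB.neg {f : ℝ → ℝ} {c : ℝ} (h : LB f c) : UB (fun T => - f T) (-c) := by
  intro ε hε
  filter_upwards [h ε hε] with T hT
  linarith

lemma UB.add {f g : ℝ → ℝ} {c d : ℝ} (hf : UB f c) (hg : UB g d) :
    UB (fun T => f T + g T) (c + d) := by
  intro ε hε
  filter_upwards [hf (ε / 2) (by linarith), hg (ε / 2) (by linarith)] with T h1 h2
  linarith

lemma LB.add {f g : ℝ → ℝ} {c d : ℝ} (hf : LB f c) (hg : LB g d) :
    LB (fun T => f T + g T) (c + d) := by
  intro ε hε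
  filter_upwards [hf (ε / 2) (by linarith), hg (ε / 2) (by linarith)] with T h1 h2
  linarith

lemma UB.sub {f g : ℝ → ℝ} {c d : ℝ} (hf : UB f c) (hg : LB g d) :
    UB (fun T => f T - g T) (c - d) := by
  simpa [sub_eq_add_neg] using hf.add hg.neg

lemma LB.sub {f g : ℝ → ℝ} {c d : ℝ} (hf : LB f c) (hg : UB g d) :
    LB (fun T => f T - g T) (c - d) := by
  simpa [sub_eq_add_neg] using hf.add hg.neg

lemma UB.mono {f g : ℝ → ℝ} {c d : ℝ} (hf : UB f c) (hfg : ∀ᶠ T in atTop, g T ≤ f T)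
    (hcd : c ≤ d) : UB g d := by
  intro ε hε
  filter_upwards [hf ε hε, hfg] with T h1 h2
  linarith

lemma LB.mono {f g : ℝ → ℝ} {c d : ℝ} (hf : LB f c) (hfg : ∀ᶠ T in atTop, f T ≤ g T)
    (hcd : d ≤ c) : LB g d := by
  intro ε hε
  filter_upwards [hf ε hε, hfg] with T h1 h2
  linarith

lemma UB.const_mul {f : ℝ → ℝ} {c : ℝ} (hf : UB f c) {a : ℝ} (ha : 0 ≤ a) :
    UB (fun T => a * f T) (a * c) := by
  intro ε hε
  rcases ha.eq_or_lt with h | h
  · filter_upwards with T
    simp [← h, hε.le]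
  · filter_upwards [hf (ε / a) (by positivity)] with T hT
    calc a * f T ≤ a * (c + ε / a) := by gcongr
      _ = a * c + ε := by field_simp

lemma LB.const_mul {f : ℝ → ℝ} {c : ℝ} (hf : LB f c) {a : ℝ} (ha : 0 ≤ a) :
    LB (fun T => a * f T) (a * c) := by
  have := (hf.neg.const_mul ha).neg
  simpa using this

lemma UB_const (c : ℝ) : UB (fun _ => c) c := by
  intro ε hε
  filter_upwards with T
  linarith

lemma LB_const (c : ℝ) : LB (fun _ => c) c := by
  intro ε hε
  filter_upwards with T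
  linarith

lemma UB.sum {ι : Type*} (s : Finset ι) {f : ι → ℝ → ℝ} {c : ι → ℝ}
    (h : ∀ i ∈ s, UB (f i) (c i)) : UB (fun T => ∑ i ∈ s, f i T) (∑ i ∈ s, c i) := by
  classical
  induction s using Finset.induction_on with
  | empty => simpa using UB_const 0
  | insert a s ha ih =>
    have h1 := h a (Finset.mem_insert_self a s)
    have h2 := ih (fun i hi => h i (Finset.mem_insert_of_mem hi))
    simpa [Finset.sum_insert ha] using h1.add h2

lemma LB.sum {ι : Type*} (s : Finset ι) {f : ι → ℝ → ℝ} {c : ι → ℝ}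
    (h : ∀ i ∈ s, LB (f i) (c i)) : LB (fun T => ∑ i ∈ s, f i T) (∑ i ∈ s, c i) := by
  classical
  induction s using Finset.induction_on with
  | empty => simpa using LB_const 0
  | insert a s ha ih =>
    have h1 := h a (Finset.mem_insert_self a s)
    have h2 := ih (fun i hi => h i (Finset.mem_insert_of_mem hi))
    simpa [Finset.sum_insert ha] using h1.add h2

lemma UB_of_tendsto {f : ℝ → ℝ} {c : ℝ} (h : Tendsto f atTop (𝓝 c)) : UB f c := by
  intro ε hε
  filter_upwards [h.eventually (ge_mem_nhds (show c < c + ε by linarith))] with T hT using hT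

lemma LB_of_tendsto {f : ℝ → ℝ} {c : ℝ} (h : Tendsto f atTop (𝓝 c)) : LB f c := by
  intro ε hε
  filter_upwards [h.eventually (le_mem_nhds (show c - ε < c by linarith))] with T hT using hT

lemma tendsto_of_UB_LB {f : ℝ → ℝ} {c : ℝ} (h1 : UB f c) (h2 : LB f c) :
    Tendsto f atTop (𝓝 c) := by
  rw [Metric.tendsto_nhds]
  intro ε hε
  filter_upwards [h1 (ε / 2) (by linarith), h2 (ε / 2) (by linarith)] with T a b
  rw [Real.dist_eq, abs_lt]
  constructor <;> linarith

/-- It suffices to prove an upper bound up to arbitrarily small errors. -/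
lemma UB_of_forall {f : ℝ → ℝ} {c : ℝ} (h : ∀ ε : ℝ, 0 < ε → UB f (c + ε)) : UB f c := by
  intro ε hε
  filter_upwards [h (ε / 2) (by linarith) (ε / 2) (by linarith)] with T hT
  linarith

lemma LB_of_forall {f : ℝ → ℝ} {c : ℝ} (h : ∀ ε : ℝ, 0 < ε → LB f (c - ε)) : LB f c := by
  intro ε hε
  filter_upwards [h (ε / 2) (by linarith) (ε / 2) (by linarith)] with T hT
  linarith

end Pool.Agent.MP_67227b_nt
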