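import Pool.Agent.MP_67227b_nt.PSD35

set_option autoImplicit false

open Filter MeasureTheory Topology Set
open scoped Real Nat

namespace Pool.Agent.MP_67227b_nt

section Bordered

variable {m : ℕ}

/-- The determinant with an extra row for `v` and an extra column for `v'`. -/
noncomputable def Hk (w : Fin (m + 1) → ℝ) (v v' : ℝ) : ℝ :=
  (sineMatrix w).det * K (v - v') -
    ∑ i, ∑ l, (sineMatrix w).adjugate i l * (K (v - w i) * K (v' - w l))

/-- The correction term. -/
noncomputable def Bk (w : Fin (m + 1) → ℝ) (v v' : ℝ) : ℝ :=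
  ∑ i, ∑ l, (sineMatrix w).adjugate i l * (K (v - w i) * K (v' - w l))

lemma Hk_eq (w : Fin (m + 1) → ℝ) (v v' : ℝ) :
    Hk w v v' = (sineMatrix w).det * K (v - v') - Bk w v v' := rfl

lemma adj_symm (w : Fin (m + 1) → ℝ) (i l : Fin (m + 1)) :
    (sineMatrix w).adjugate i l = (sineMatrix w).adjugate l i := by
  have h := Matrix.adjugate_transpose (sineMatrix w)
  rw [sineMatrix_eq_gm, gm_symm] at h
  have := congrFun (congrFun h l) i
  rw [Matrix.transpose_apply] at this
  exact this

lemma Bk_symm (w : Fin (m + 1) → ℝ) (v v' : ℝ) : Bk w v v' = Bk w v' v := by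
  rw [Bk, Bk, Finset.sum_comm]
  apply Finset.sum_congr rfl
  intro i _
  apply Finset.sum_congr rfl
  intro l _
  rw [adj_symm]
  ring

lemma Hk_symm (w : Fin (m + 1) → ℝ) (v v' : ℝ) : Hk w v v' = Hk w v' v := by
  rw [Hk_eq, Hk_eq, Bk_symm, ← K_neg, neg_sub]

lemma Bk_self (w : Fin (m + 1) → ℝ) (v : ℝ) : Bk w v v = defect m w v := by
  rw [defect_eq, Bk]

lemma Hk_self (w : Fin (m + 1) → ℝ) (v : ℝ) :
    Hk w v v = (sineMatrix (Fin.cons v w : Fin (m + 2) → ℝ)).det := by
  rw [Hk_eq, Bk_self, defect, sub_self, K_zero]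
  ring

lemma det_nonneg' {k : ℕ} (w : Fin k → ℝ) : 0 ≤ (sineMatrix w).det := by
  rw [sineMatrix_eq_gm]
  exact (gm_posSemidef w).det_nonneg

lemma continuous_defect (w : Fin (m + 1) → ℝ) : Continuous (defect m w) := by
  have : defect m w = fun v => ∑ i, ∑ l,
      (sineMatrix w).adjugate i l * (K (v - w i) * K (v - w l)) := by
    ext v
    exact defect_eq m w v
  rw [this]
  apply continuous_finsetSum
  intro i _
  apply continuous_finsetSum
  intro l _
  exact continuous_const.mul ((continuous_K.comp (by fun_prop)).mul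
    (continuous_K.comp (by fun_prop)))

/-- A singular configuration stays singular. -/
lemma det_cons_zero (w : Fin (m + 1) → ℝ) (h : (sineMatrix w).det = 0) (v : ℝ) :
    (sineMatrix (Fin.cons v w : Fin (m + 2) → ℝ)).det = 0 := by
  have h1 : ∀ v, 0 ≤ -defect m w v := by
    intro v
    have := det_nonneg' (Fin.cons v w : Fin (m + 2) → ℝ)
    rw [defect, h]
    linarith
  have h2 : ∫ v, -defect m w v = 0 := by
    rw [integral_neg, integral_defect, h]
    simp
  rw [integral_eq_zero_iff_of_nonneg h1 (integrable_defect m w).neg] at h2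
  have h3 : (fun v => -defect m w v) = fun _ => 0 :=
    (continuous_defect w).neg.ae_eq_iff_eq volume continuous_const |>.1 h2
  have h4 := congrFun h3 v
  simp only [defect, h] at h4
  linarith

lemma adj_posSemidef (w : Fin (m + 1) → ℝ) (h : 0 < (sineMatrix w).det) :
    (sineMatrix w).adjugate.PosSemidef := by
  have h1 : (sineMatrix w)⁻¹.PosSemidef := (gm_posSemidef w).inv
  have h2 : (sineMatrix w).adjugate = (sineMatrix w).det • (sineMatrix w)⁻¹ := by
    rw [Matrix.inv_def, smul_smul, Ring.inverse_eq_inv', mul_inv_cancel₀ h.ne', one_smul]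
  rw [h2]
  exact h1.smul h.le

lemma defect_nonneg (w : Fin (m + 1) → ℝ) (v : ℝ) : 0 ≤ defect m w v := by
  rcases (det_nonneg' w).eq_or_lt with h | h
  · rw [defect, det_cons_zero w h.symm, ← h]
    simp
  · have h1 := (adj_posSemidef w h).dotProduct_mulVec_nonneg (fun i => K (v - w i))
    rw [defect_eq]
    refine h1.trans (le_of_eq ?_)
    simp only [star_trivial, dotProduct, Matrix.mulVec, Finset.mul_sum]
    apply Finset.sum_congr rfl
    intro i _
    apply Finset.sum_congr rfl
    intro l _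
    ring

lemma Bk_sq_le (w : Fin (m + 1) → ℝ) (h : 0 < (sineMatrix w).det) (v v' : ℝ) :
    Bk w v v' ^ 2 ≤ defect m w v * defect m w v' := by
  rw [← Bk_self, ← Bk_self]
  exact psd_cs _ (adj_posSemidef w h) (fun i => K (v - w i)) (fun i => K (v' - w i))

/-- Sylvester's identity for two extra points. -/
lemma two_point (w : Fin (m + 1) → ℝ) (h : 0 < (sineMatrix w).det) (v v' : ℝ) :
    (sineMatrix w).det * (sineMatrix (Fin.cons v (Fin.cons v' w : Fin (m + 2) → ℝ) :
      Fin (m + 3) → ℝ)).det = Hk w v v * Hk w v' v' - Hk w v v' ^ 2 := by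
  set S := (sineMatrix w).det with hS
  set e : Fin 2 ⊕ Fin (m + 1) ≃ Fin (m + 3) :=
    finSumFinEquiv.trans (finCongr (by omega)) with he
  set x : Fin 2 → ℝ := ![v, v'] with hx
  have hel : ∀ i : Fin 2, (Fin.cons v (Fin.cons v' w : Fin (m + 2) → ℝ) : Fin (m + 3) → ℝ)
      (e (Sum.inl i)) = x i := by
    intro i
    fin_cases i
    · rfl
    · rfl
  have her : ∀ i : Fin (m + 1), (Fin.cons v (Fin.cons v' w : Fin (m + 2) → ℝ) :
      Fin (m + 3) → ℝ) (e (Sum.inr i)) = w i := by
    intro i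
    have : e (Sum.inr i) = i.succ.succ := by
      ext
      simp [he]
    rw [this, Fin.cons_succ, Fin.cons_succ]
  set B : Matrix (Fin 2) (Fin (m + 1)) ℝ := Matrix.of fun i l => K (x i - w l) with hB
  have h1 : (sineMatrix (Fin.cons v (Fin.cons v' w : Fin (m + 2) → ℝ) :
      Fin (m + 3) → ℝ)).submatrix e e = Matrix.fromBlocks (gm x) B B.transpose (sineMatrix w) := by
    ext (i | i) (j | j)
    · rw [Matrix.submatrix_apply, sineMatrix_apply, hel, hel]
      rfl
    · rw [Matrix.submatrix_apply, sineMatrix_apply, hel, her]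
      rfl
    · rw [Matrix.submatrix_apply, sineMatrix_apply, hel, her, ← K_neg, neg_sub]
      rfl
    · rw [Matrix.submatrix_apply, sineMatrix_apply, her, her]
      rfl
  have hu : IsUnit (sineMatrix w).det := h.ne'.isUnit
  have : Invertible (sineMatrix w) := Matrix.invertibleOfIsUnitDet _ hu
  rw [← Matrix.det_submatrix_equiv_self e, h1, Matrix.det_fromBlocks₂₂, ← hS]
  have hent : ∀ i j : Fin 2, (gm x - B * ⅟(sineMatrix w) * B.transpose) i j =
      S⁻¹ * Hk w (x i) (x j) := by
    intro i j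
    rw [Matrix.invOf_eq_nonsing_inv, Matrix.inv_def, Ring.inverse_eq_inv', ← hS,
      Matrix.sub_apply, Matrix.mul_smul, Matrix.smul_mul, Matrix.smul_apply, Hk_eq, gm_apply,
      ← hS, mul_sub, ← mul_assoc, inv_mul_cancel₀ h.ne', one_mul, smul_eq_mul]
    congr 2
    rw [Matrix.mul_assoc, Matrix.mul_apply, Bk]
    apply Finset.sum_congr rfl
    intro k _
    rw [Matrix.mul_apply, Finset.mul_sum]
    apply Finset.sum_congr rfl
    intro l _
    simp only [hB, Matrix.transpose_apply, Matrix.of_apply]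
    ring
  rw [Matrix.det_fin_two, hent, hent, hent, hent]
  simp only [hx, Matrix.cons_val_zero, Matrix.cons_val_one]
  rw [Hk_symm w v' v]
  field_simp

/-- The coefficients of the second argument. -/
lemma Hk_lin (w : Fin (m + 1) → ℝ) (v v' : ℝ) : Hk w v v' =
    ∑ i, (Fin.cons (sineMatrix w).det (fun l => -∑ i, (sineMatrix w).adjugate i l * K (v - w i)) :
      Fin (m + 2) → ℝ) i * K (v' - (Fin.cons v w : Fin (m + 2) → ℝ) i) := by
  rw [Fin.sum_univ_succ]
  simp only [Fin.cons_zero, Fin.cons_succ]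
  rw [Hk_eq, ← K_neg (v - v'), neg_sub, sub_eq_add_neg, Bk, Finset.sum_comm,
    ← Finset.sum_neg_distrib]
  congr 1
  apply Finset.sum_congr rfl
  intro l _
  rw [neg_mul, Finset.sum_mul]
  congr 1
  apply Finset.sum_congr rfl
  intro i _
  ring

lemma integrable_Hk_sq (w : Fin (m + 1) → ℝ) (v : ℝ) : Integrable (fun v' => Hk w v v' ^ 2) := by
  simp_rw [Hk_lin, sq]
  exact integrable_lin_K_mul _ _ _

lemma gram_cons (S : ℝ) (b : Fin (m + 1) → ℝ) (v : ℝ) (w : Fin (m + 1) → ℝ) :
    ∑ i, ∑ j, (Fin.cons S (fun l => -b l) : Fin (m + 2) → ℝ) i *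
      (Fin.cons S (fun l => -b l) : Fin (m + 2) → ℝ) j *
      K ((Fin.cons v w : Fin (m + 2) → ℝ) i - (Fin.cons v w : Fin (m + 2) → ℝ) j) =
    S ^ 2 - 2 * S * ∑ l, b l * K (v - w l) + ∑ i, b i * ∑ j, b j * K (w i - w j) := by
  rw [Fin.sum_univ_succ]
  have h0 : ∀ i : Fin (m + 2), ∑ j, (Fin.cons S (fun l => -b l) : Fin (m + 2) → ℝ) i *
      (Fin.cons S (fun l => -b l) : Fin (m + 2) → ℝ) j *
      K ((Fin.cons v w : Fin (m + 2) → ℝ) i - (Fin.cons v w : Fin (m + 2) → ℝ) j) =
      (Fin.cons S (fun l => -b l) : Fin (m + 2) → ℝ) i *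
        (S * K ((Fin.cons v w : Fin (m + 2) → ℝ) i - v) -
          ∑ l, b l * K ((Fin.cons v w : Fin (m + 2) → ℝ) i - w l)) := by
    intro i
    rw [Fin.sum_univ_succ, mul_sub, Finset.mul_sum]
    simp only [Fin.cons_zero, Fin.cons_succ]
    have e0 : ∑ l : Fin (m + 1), (Fin.cons S (fun l => -b l) : Fin (m + 2) → ℝ) i * -b l *
        K ((Fin.cons v w : Fin (m + 2) → ℝ) i - w l) =
        -∑ l : Fin (m + 1), (Fin.cons S (fun l => -b l) : Fin (m + 2) → ℝ) i * (b l *
        K ((Fin.cons v w : Fin (m + 2) → ℝ) i - w l)) := by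
      rw [← Finset.sum_neg_distrib]
      apply Finset.sum_congr rfl
      intro l _
      ring
    rw [e0]
    ring
  simp_rw [h0]
  simp only [Fin.cons_zero, Fin.cons_succ, sub_self, K_zero]
  have e1 : ∑ i : Fin (m + 1), -b i * (S * K (w i - v) - ∑ l, b l * K (w i - w l)) =
      -S * ∑ l, b l * K (v - w l) + ∑ i, b i * ∑ j, b j * K (w i - w j) := by
    rw [Finset.mul_sum, ← Finset.sum_add_distrib]
    apply Finset.sum_congr rfl
    intro i _
    rw [← K_neg (w i - v), neg_sub]
    ring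
  rw [e1]
  ring

/-- The projection property. -/
lemma integral_Hk_sq (w : Fin (m + 1) → ℝ) (v : ℝ) :
    ∫ v', Hk w v v' ^ 2 = (sineMatrix w).det * Hk w v v := by
  have h0 : ∫ v', Hk w v v' ^ 2 = ∑ i, ∑ j,
      (Fin.cons (sineMatrix w).det (fun l => -∑ i, (sineMatrix w).adjugate i l * K (v - w i)) :
        Fin (m + 2) → ℝ) i *
      (Fin.cons (sineMatrix w).det (fun l => -∑ i, (sineMatrix w).adjugate i l * K (v - w i)) :
        Fin (m + 2) → ℝ) j *
      K ((Fin.cons v w : Fin (m + 2) → ℝ) i - (Fin.cons v w : Fin (m + 2) → ℝ) j) := by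
    simp_rw [Hk_lin, sq]
    rw [integral_lin_K_mul]
  rw [h0, gram_cons]
  set S := (sineMatrix w).det with hS
  set b : Fin (m + 1) → ℝ := fun l => ∑ i, (sineMatrix w).adjugate i l * K (v - w i) with hb
  have hbk : ∑ l, b l * K (v - w l) = Bk w v v := by
    rw [Bk, Finset.sum_comm]
    apply Finset.sum_congr rfl
    intro l _
    rw [hb, Finset.sum_mul]
    apply Finset.sum_congr rfl
    intro i _
    ring
  have hA : ∀ l, ∑ l', b l' * K (w l - w l') = S * K (v - w l) := by
    intro l
    have h1 : ∑ l', b l' * K (w l - w l') =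
        ∑ i, (∑ l', sineMatrix w l l' * (sineMatrix w).adjugate l' i) * K (v - w i) := by
      simp only [hb, Finset.sum_mul]
      rw [Finset.sum_comm]
      apply Finset.sum_congr rfl
      intro i _
      apply Finset.sum_congr rfl
      intro l' _
      rw [sineMatrix_apply, adj_symm w i l']
      ring
    rw [h1]
    have h2 : ∀ i, ∑ l', sineMatrix w l l' * (sineMatrix w).adjugate l' i =
        if l = i then S else 0 := by
      intro i
      have h3 := congrFun (congrFun (Matrix.mul_adjugate (sineMatrix w)) l) i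
      rw [Matrix.mul_apply] at h3
      rw [h3, Matrix.smul_apply, Matrix.one_apply, smul_eq_mul, mul_ite, mul_one, mul_zero]
    simp_rw [h2]
    simp
  have hself : Hk w v v = S - Bk w v v := by
    rw [Hk_eq, sub_self, K_zero, mul_one]
  have e2 : ∑ i : Fin (m + 1), b i * ∑ j, b j * K (w i - w j) = S * Bk w v v := by
    rw [← hbk, Finset.mul_sum]
    apply Finset.sum_congr rfl
    intro i _
    rw [hA]
    ring
  change S ^ 2 - 2 * S * ∑ l, b l * K (v - w l) + ∑ i, b i * ∑ j, b j * K (w i - w j) =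
    S * Hk w v v
  rw [hself, hbk, e2]
  ring

end Bordered

end Pool.Agent.MP_67227b_nt
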