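import Mathlib

set_option autoImplicit false

/-!
Functions on `ℝ^m` with smooth compactly supported Fourier transform: closure properties and
nonnegative examples which tend to `1`.
-/

open Filter MeasureTheory Topology Set
open scoped Real Pointwise ContDiff Convolution

namespace Pool.Agent.MP_67227b_nt

variable {m : ℕ}

/-- The character `exp(2 pi i <xi, u>)` of `ℝ^m`. -/
noncomputable def ee (ξ u : Fin m → ℝ) : ℂ :=
  Complex.exp (2 * π * Complex.I * ((∑ i, ξ i * u i : ℝ) : ℂ))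

/-- The function on `ℝ^m` with the Fourier transform `φ`. -/
noncomputable def synth (φ : (Fin m → ℝ) → ℂ) (u : Fin m → ℝ) : ℂ := ∫ ξ, φ ξ * ee ξ u

/-- `φ` is a smooth function with compact support contained in `Ω`. -/
def IsBand (Ω : Set (Fin m → ℝ)) (φ : (Fin m → ℝ) → ℂ) : Prop :=
  ContDiff ℝ ∞ φ ∧ HasCompactSupport φ ∧ tsupport φ ⊆ Ω

lemma ee_add_left (ξ ξ' u : Fin m → ℝ) : ee (ξ + ξ') u = ee ξ u * ee ξ' u := by
  unfold ee
  rw [← Complex.exp_add]
  congr 1
  simp only [Pi.add_apply, add_mul, Finset.sum_add_distrib, Complex.ofReal_add]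
  ring

lemma ee_zero_left (u : Fin m → ℝ) : ee 0 u = 1 := by simp [ee]

lemma ee_zero_right (ξ : Fin m → ℝ) : ee ξ 0 = 1 := by simp [ee]

lemma norm_ee (ξ u : Fin m → ℝ) : ‖ee ξ u‖ = 1 := by
  unfold ee
  rw [show (2 * (π : ℂ) * Complex.I * ((∑ i, ξ i * u i : ℝ) : ℂ)) =
    ((2 * π * ∑ i, ξ i * u i : ℝ) : ℂ) * Complex.I by push_cast; ring]
  exact Complex.norm_exp_ofReal_mul_I _

lemma ee_neg_left (ξ u : Fin m → ℝ) : ee (-ξ) u = (starRingEnd ℂ) (ee ξ u) := by
  unfold ee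
  rw [← Complex.exp_conj]
  congr 1
  rw [show (2 * (π : ℂ) * Complex.I * ((∑ i, ξ i * u i : ℝ) : ℂ)) =
    ((2 * π * ∑ i, ξ i * u i : ℝ) : ℂ) * Complex.I by push_cast; ring, map_mul,
    Complex.conj_ofReal, Complex.conj_I]
  have h : ∑ i, (-ξ) i * u i = - ∑ i, ξ i * u i := by
    rw [← Finset.sum_neg_distrib]
    apply Finset.sum_congr rfl
    intro i _
    simp
  rw [h]
  push_cast
  ring

lemma ee_eq_cos_sin (ξ u : Fin m → ℝ) : ee ξ u =
    (Real.cos (2 * π * ∑ i, ξ i * u i) : ℂ) + (Real.sin (2 * π * ∑ i, ξ i * u i) : ℂ) * Complex.I := by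
  unfold ee
  rw [show (2 * (π : ℂ) * Complex.I * ((∑ i, ξ i * u i : ℝ) : ℂ)) =
    ((2 * π * ∑ i, ξ i * u i : ℝ) : ℂ) * Complex.I by push_cast; ring,
    Complex.exp_mul_I]
  push_cast
  rfl

lemma continuous_ee_left (u : Fin m → ℝ) : Continuous fun ξ : Fin m → ℝ => ee ξ u := by
  unfold ee
  fun_prop

lemma continuous_ee_right (ξ : Fin m → ℝ) : Continuous fun u : Fin m → ℝ => ee ξ u := by
  unfold ee
  fun_prop

lemma continuous_ee : Continuous fun p : (Fin m → ℝ) × (Fin m → ℝ) => ee p.1 p.2 := by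
  unfold ee
  fun_prop

lemma abs_pair_le (ξ u : Fin m → ℝ) : |∑ i, ξ i * u i| ≤ m * (‖ξ‖ * ‖u‖) := by
  calc |∑ i, ξ i * u i| ≤ ∑ i, |ξ i * u i| := Finset.abs_sum_le_sum_abs _ _
    _ ≤ ∑ _i : Fin m, ‖ξ‖ * ‖u‖ := by
        apply Finset.sum_le_sum
        intro i _
        rw [abs_mul]
        exact mul_le_mul (norm_le_pi_norm ξ i) (norm_le_pi_norm u i) (abs_nonneg _) (norm_nonneg _)
    _ = m * (‖ξ‖ * ‖u‖) := by simp

lemma norm_ee_sub_one_le (ξ u : Fin m → ℝ) : ‖ee ξ u - 1‖ ≤ 2 * π * m * (‖ξ‖ * ‖u‖) := by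
  unfold ee
  rw [show (2 * (π : ℂ) * Complex.I * ((∑ i, ξ i * u i : ℝ) : ℂ)) =
    Complex.I * ((2 * π * ∑ i, ξ i * u i : ℝ) : ℂ) by push_cast; ring]
  refine (Real.norm_exp_I_mul_ofReal_sub_one_le).trans ?_
  rw [norm_mul, Real.norm_of_nonneg (by positivity : (0 : ℝ) ≤ 2 * π), Real.norm_eq_abs]
  have := abs_pair_le ξ u
  have h2 : (0 : ℝ) ≤ 2 * π := by positivity
  calc 2 * π * |∑ i, ξ i * u i| ≤ 2 * π * (m * (‖ξ‖ * ‖u‖)) := by gcongr
    _ = 2 * π * m * (‖ξ‖ * ‖u‖) := by ring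

lemma integrable_mul_ee {φ : (Fin m → ℝ) → ℂ} (h : Integrable φ) (u : Fin m → ℝ) :
    Integrable fun ξ => φ ξ * ee ξ u := by
  refine h.mul_bdd (c := 1) (continuous_ee_left u).aestronglyMeasurable ?_
  filter_upwards with ξ
  exact (norm_ee ξ u).le

lemma norm_synth_le {φ : (Fin m → ℝ) → ℂ} (u : Fin m → ℝ) :
    ‖synth φ u‖ ≤ ∫ ξ, ‖φ ξ‖ := by
  unfold synth
  refine (norm_integral_le_integral_norm _).trans (le_of_eq ?_)
  congr 1
  ext ξ
  rw [norm_mul, norm_ee, mul_one]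

lemma continuous_synth {φ : (Fin m → ℝ) → ℂ} (h : Integrable φ) : Continuous (synth φ) := by
  unfold synth
  refine continuous_of_dominated (bound := fun ξ => ‖φ ξ‖) ?_ ?_ h.norm ?_
  · intro u
    exact (integrable_mul_ee h u).aestronglyMeasurable
  · intro u
    filter_upwards with ξ
    rw [norm_mul, norm_ee, mul_one]
  · filter_upwards with ξ
    exact continuous_const.mul (continuous_ee_right ξ)

lemma synth_sub (φ : (Fin m → ℝ) → ℂ) (ξ₀ u : Fin m → ℝ) :
    synth (fun ξ => φ (ξ - ξ₀)) u = ee ξ₀ u * synth φ u := by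
  unfold synth
  rw [← integral_add_right_eq_self (fun ξ => φ (ξ - ξ₀) * ee ξ u) ξ₀, ← integral_const_mul]
  congr 1
  ext ξ
  rw [add_sub_cancel_right, ee_add_left]
  ring

/-- The convolution of two functions. -/
noncomputable def conv (φ ψ : (Fin m → ℝ) → ℂ) : (Fin m → ℝ) → ℂ :=
  φ ⋆[ContinuousLinearMap.mul ℝ ℂ, volume] ψ

lemma synth_conv {φ ψ : (Fin m → ℝ) → ℂ} (hφ : Integrable φ) (hψ : Integrable ψ)
    (u : Fin m → ℝ) : synth (conv φ ψ) u = synth φ u * synth ψ u := by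
  unfold synth
  have h := integral_convolution (ContinuousLinearMap.mul ℝ ℂ) (μ := volume) (ν := volume)
    (integrable_mul_ee hφ u) (integrable_mul_ee hψ u)
  rw [ContinuousLinearMap.mul_apply'] at h
  rw [← h]
  congr 1
  ext ξ
  unfold conv convolution
  rw [← integral_mul_const]
  congr 1
  ext t
  simp only [ContinuousLinearMap.mul_apply']
  have : ee ξ u = ee t u * ee (ξ - t) u := by
    rw [← ee_add_left, add_sub_cancel]
  rw [this]
  ring

lemma IsBand.integrable {Ω : Set (Fin m → ℝ)} {φ : (Fin m → ℝ) → ℂ} (h : IsBand Ω φ) :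
    Integrable φ := h.1.continuous.integrable_of_hasCompactSupport h.2.1

lemma IsBand.mono {Ω Ω' : Set (Fin m → ℝ)} {φ : (Fin m → ℝ) → ℂ} (h : IsBand Ω φ)
    (hΩ : Ω ⊆ Ω') : IsBand Ω' φ := ⟨h.1, h.2.1, h.2.2.trans hΩ⟩

lemma IsBand.conv {r s : ℝ} {φ ψ : (Fin m → ℝ) → ℂ}
    (hφ : IsBand (Metric.closedBall 0 r) φ) (hψ : IsBand (Metric.closedBall 0 s) ψ) :
    IsBand (Metric.closedBall 0 (r + s)) (conv φ ψ) := by
  refine ⟨?_, ?_, ?_⟩
  · exact hψ.2.1.contDiff_convolution_right (n := ⊤) _ hφ.integrable.locallyIntegrable hψ.1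
  · exact hφ.2.1.convolution _ hψ.2.1
  · refine closure_minimal ?_ Metric.isClosed_closedBall
    refine (support_convolution_subset (L := ContinuousLinearMap.mul ℝ ℂ)).trans ?_
    rintro _ ⟨a, ha, b, hb, rfl⟩
    have h1 := hφ.2.2 (subset_tsupport _ ha)
    have h2 := hψ.2.2 (subset_tsupport _ hb)
    rw [mem_closedBall_zero_iff] at *
    exact (norm_add_le _ _).trans (add_le_add h1 h2)

lemma IsBand.shift {r : ℝ} {φ : (Fin m → ℝ) → ℂ}
    (hφ : IsBand (Metric.closedBall 0 r) φ) (ξ₀ : Fin m → ℝ) :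
    IsBand (Metric.closedBall ξ₀ r) (fun ξ => φ (ξ - ξ₀)) := by
  refine ⟨?_, ?_, ?_⟩
  · exact hφ.1.comp (contDiff_id.sub contDiff_const)
  · have := hφ.2.1.comp_homeomorph (Homeomorph.subRight ξ₀)
    exact this
  · refine closure_minimal ?_ Metric.isClosed_closedBall
    intro ξ hξ
    have h1 := hφ.2.2 (subset_tsupport _ (show ξ - ξ₀ ∈ Function.support φ from hξ))
    rw [mem_closedBall_zero_iff] at h1
    rwa [Metric.mem_closedBall, dist_eq_norm]

/-- The bump function used for the construction of test functions. -/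
noncomputable def bump67 (m : ℕ) (ρ : ℝ) (hρ : 0 < ρ) : ContDiffBump (0 : Fin m → ℝ) where
  rIn := ρ / 2
  rOut := ρ
  rIn_pos := by positivity
  rIn_lt_rOut := by linarith

/-- A normalised even nonnegative bump, as a complex function. -/
noncomputable def eta (m : ℕ) (ρ : ℝ) (hρ : 0 < ρ) (ξ : Fin m → ℝ) : ℂ :=
  (((bump67 m ρ hρ).normed volume ξ : ℝ) : ℂ)

lemma isBand_eta (ρ : ℝ) (hρ : 0 < ρ) :
    IsBand (Metric.closedBall (0 : Fin m → ℝ) ρ) (eta m ρ hρ) := by
  have hcs : HasCompactSupport (eta m ρ hρ) :=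
    (bump67 m ρ hρ).hasCompactSupport_normed.comp_left (g := fun x : ℝ => (x : ℂ)) (by simp)
  refine ⟨?_, hcs, ?_⟩
  · have h1 : ContDiff ℝ ∞ ((bump67 m ρ hρ).normed volume) := (bump67 m ρ hρ).contDiff_normed
    exact Complex.ofRealCLM.contDiff.comp h1
  · refine closure_minimal ?_ Metric.isClosed_closedBall
    intro ξ hξ
    have h1 : ξ ∈ Function.support ((bump67 m ρ hρ).normed (volume : Measure (Fin m → ℝ))) := by
      intro h0
      apply hξ
      simp [eta, h0]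
    rw [(bump67 m ρ hρ).support_normed_eq] at h1
    exact Metric.ball_subset_closedBall h1

/-- The Fourier transform of the normalised bump. -/
noncomputable def kap0 (m : ℕ) (ρ : ℝ) (hρ : 0 < ρ) (u : Fin m → ℝ) : ℝ :=
  ∫ ξ, (bump67 m ρ hρ).normed volume ξ * Real.cos (2 * π * ∑ i, ξ i * u i)

lemma synth_eta (ρ : ℝ) (hρ : 0 < ρ) (u : Fin m → ℝ) :
    synth (eta m ρ hρ) u = (kap0 m ρ hρ u : ℂ) := by
  set b := bump67 m ρ hρ with hb
  have hint : Integrable fun ξ => eta m ρ hρ ξ * ee ξ u :=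
    integrable_mul_ee (isBand_eta ρ hρ).integrable u
  have hconj : (starRingEnd ℂ) (synth (eta m ρ hρ) u) = synth (eta m ρ hρ) u := by
    unfold synth
    rw [← integral_conj]
    rw [← integral_neg_eq_self]
    congr 1
    ext ξ
    rw [map_mul, ← ee_neg_left, neg_neg]
    congr 1
    unfold eta
    rw [Complex.conj_ofReal, ContDiffBump.normed_neg]
  have hre : synth (eta m ρ hρ) u = ((synth (eta m ρ hρ) u).re : ℂ) :=
    (Complex.conj_eq_iff_re.mp hconj).symm
  rw [hre]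
  congr 1
  unfold synth kap0
  have h := (Complex.reCLM.integral_comp_comm hint).symm
  simp only [Complex.reCLM_apply] at h
  rw [h]
  congr 1
  ext ξ
  rw [ee_eq_cos_sin]
  unfold eta
  rw [Complex.re_ofReal_mul, Complex.add_re, Complex.ofReal_re, Complex.re_ofReal_mul,
    Complex.I_re, mul_zero, add_zero]

lemma continuous_kap0 (ρ : ℝ) (hρ : 0 < ρ) : Continuous (kap0 m ρ hρ) := by
  have h := continuous_synth (isBand_eta (m := m) ρ hρ).integrable
  have h2 : kap0 m ρ hρ = fun u => (synth (eta m ρ hρ) u).re := by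
    ext u
    rw [synth_eta, Complex.ofReal_re]
  rw [h2]
  exact Complex.continuous_re.comp h

lemma integral_norm_eta (ρ : ℝ) (hρ : 0 < ρ) : ∫ ξ, ‖eta m ρ hρ ξ‖ = 1 := by
  have h1 : ∀ ξ, ‖eta m ρ hρ ξ‖ = (bump67 m ρ hρ).normed volume ξ := by
    intro ξ
    unfold eta
    rw [Complex.norm_real, Real.norm_of_nonneg ((bump67 m ρ hρ).nonneg_normed ξ)]
  simp_rw [h1]
  exact (bump67 m ρ hρ).integral_normed

lemma abs_kap0_le_one (ρ : ℝ) (hρ : 0 < ρ) (u : Fin m → ℝ) : |kap0 m ρ hρ u| ≤ 1 := by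
  have h := norm_synth_le (φ := eta m ρ hρ) u
  rw [integral_norm_eta, synth_eta, Complex.norm_real] at h
  exact h

lemma abs_kap0_sub_one_le (ρ : ℝ) (hρ : 0 < ρ) (u : Fin m → ℝ) :
    |kap0 m ρ hρ u - 1| ≤ 2 * π * m * (ρ * ‖u‖) := by
  have hB := isBand_eta (m := m) ρ hρ
  have h1 : synth (eta m ρ hρ) u - 1 = ∫ ξ, eta m ρ hρ ξ * (ee ξ u - 1) := by
    have h2 : ∫ ξ, eta m ρ hρ ξ = 1 := by
      unfold eta
      rw [integral_complex_ofReal, (bump67 m ρ hρ).integral_normed]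
      simp
    calc synth (eta m ρ hρ) u - 1 = (∫ ξ, eta m ρ hρ ξ * ee ξ u) - ∫ ξ, eta m ρ hρ ξ := by
          rw [h2]
          rfl
      _ = ∫ ξ, eta m ρ hρ ξ * (ee ξ u - 1) := by
          rw [← integral_sub (integrable_mul_ee hB.integrable u) hB.integrable]
          congr 1
          ext ξ
          ring
  have h3 : ‖synth (eta m ρ hρ) u - 1‖ ≤ 2 * π * m * (ρ * ‖u‖) := by
    rw [h1]
    calc ‖∫ ξ, eta m ρ hρ ξ * (ee ξ u - 1)‖ ≤ ∫ ξ, ‖eta m ρ hρ ξ‖ * (2 * π * m * (ρ * ‖u‖)) := by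
          refine norm_integral_le_of_norm_le (hB.integrable.norm.mul_const _) ?_
          filter_upwards with ξ
          rw [norm_mul]
          by_cases h0 : eta m ρ hρ ξ = 0
          · simp [h0]
          · have h4 : ‖ξ‖ ≤ ρ := by
              have := hB.2.2 (subset_tsupport _ (show ξ ∈ Function.support _ from h0))
              rwa [mem_closedBall_zero_iff] at this
            apply mul_le_mul_of_nonneg_left _ (norm_nonneg _)
            refine (norm_ee_sub_one_le ξ u).trans ?_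
            gcongr
      _ = 2 * π * m * (ρ * ‖u‖) := by
          rw [integral_mul_const, integral_norm_eta, one_mul]
  rw [synth_eta] at h3
  rw [← Complex.ofReal_one, ← Complex.ofReal_sub, Complex.norm_real] at h3
  exact h3

end Pool.Agent.MP_67227b_nt
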