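import Pool.Agent.MP_67227b_nt.Defs
import Pool.Agent.MP_67227b_nt.Band67

set_option autoImplicit false

open Filter MeasureTheory Topology Set
open scoped Real

namespace Pool.Agent.MP_67227b_nt

/-- The real trigonometric polynomial `∑ c_k cos (2 pi <θ_k, u> + b_k)` on `ℝ^m`. -/
noncomputable def cosPoly {m n : ℕ} (c b : Fin n → ℝ) (θ : Fin n → Fin m → ℝ)
    (u : Fin m → ℝ) : ℝ :=
  ∑ k, c k * Real.cos (2 * π * (∑ i, θ k i * u i) + b k)

/-- The points of `ℝ^m` at distance less than `ε` from the origin, from one of the points `θ_k` or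
from one of the points `-θ_k` (maximum norm). -/
def freqSet {m n : ℕ} (θ : Fin n → Fin m → ℝ) (ε : ℝ) : Set (Fin m → ℝ) :=
  {ξ | (∀ i, |ξ i| < ε) ∨ ∃ k, (∀ i, |ξ i - θ k i| < ε) ∨ ∀ i, |ξ i + θ k i| < ε}

/-- The sum of `f` over the normalised differences of the `(m+1)`-tuples of pairwise distinct
indices with all ordinates at most `T`. -/
noncomputable def tupleSum {J : Type*} (γ : J → ℝ) (m : ℕ) (T : ℝ) (f : (Fin m → ℝ) → ℂ) : ℂ :=
  ∑ᶠ j ∈ {j : Fin (m + 1) → J | Function.Injective j ∧ ∀ i, γ (j i) ≤ T},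
    f (fun i : Fin m => (γ (j i.castSucc) - γ (j (Fin.last m))) * (Real.log T / (2 * π)))

/-- The smoothed `(m+1)`-level correlations: the conjectured limit for all test functions whose
Fourier transform is smooth with compact support in `Ω`. -/
def SmoothedCorrelation {J : Type*} (γ : J → ℝ) (m : ℕ) (Ω : Set (Fin m → ℝ)) : Prop :=
  ∀ φ : (Fin m → ℝ) → ℂ, IsBand Ω φ →
    Tendsto (fun T : ℝ => tupleSum γ m T (synth φ) / (zeroScale T : ℂ)) atTop
      (𝓝 (∫ u, synth φ u * (sineDet m u : ℂ)))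

/-- The upper-bound half of the `(m+1)`-level conjecture, for the boxes which lie in a half-space
`u_i ≥ A` or `u_i ≤ -A` and on which the function `P` is positive. -/
def FarUpper {J : Type*} (γ : J → ℝ) (m : ℕ) (P : (Fin m → ℝ) → ℝ) (A : ℝ) : Prop :=
  ∀ a b : Fin m → ℝ, a ≤ b → (∃ i, A ≤ a i ∨ b i ≤ -A) → (∀ u ∈ Icc a b, 0 < P u) →
    ∀ δ : ℝ, 0 < δ → ∀ᶠ T : ℝ in atTop,
      (tupleCount γ m T a b : ℝ) / zeroScale T ≤ boxIntegral m a b + δ

/-- The lower-bound half of the `(m+1)`-level conjecture, for the boxes which lie in a half-space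
`u_i ≥ A` or `u_i ≤ -A` and on which the function `P` is negative. -/
def FarLower {J : Type*} (γ : J → ℝ) (m : ℕ) (P : (Fin m → ℝ) → ℝ) (A : ℝ) : Prop :=
  ∀ a b : Fin m → ℝ, a ≤ b → (∃ i, A ≤ a i ∨ b i ≤ -A) → (∀ u ∈ Icc a b, P u < 0) →
    ∀ δ : ℝ, 0 < δ → ∀ᶠ T : ℝ in atTop,
      boxIntegral m a b - δ ≤ (tupleCount γ m T a b : ℝ) / zeroScale T

end Pool.Agent.MP_67227b_nt
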