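import Pool.Agent.MP_67227b_nt.Descent
import Pool.Agent.Lib.ZetaCount_helper33.Count

set_option autoImplicit false

open Filter MeasureTheory Topology Set
open scoped Real

namespace Pool.Agent.MP_67227b_nt

open Pool.Agent.Lib.ZetaCount_helper33

/-- The zero indices up to height `T` as a finite set of pairs. -/
noncomputable def idxFinset (T : ℝ) : Finset (ℂ × ℕ) :=
  ((Zp T).sigma (fun s => Finset.range (analyticOrderNatAt riemannZeta s))).map
    ⟨fun x => (x.1, x.2), by
      rintro ⟨a, b⟩ ⟨c, d⟩ h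
      simp only [Prod.mk.injEq] at h
      obtain ⟨rfl, rfl⟩ := h
      rfl⟩

lemma mem_idxFinset (T : ℝ) (p : ℂ × ℕ) : p ∈ idxFinset T ↔
    (riemannZeta p.1 = 0 ∧ 0 < p.1.im ∧ p.1.im ≤ T) ∧
      p.2 < analyticOrderNatAt riemannZeta p.1 := by
  rw [idxFinset, Finset.mem_map]
  constructor
  · rintro ⟨⟨a, b⟩, h1, rfl⟩
    rw [Finset.mem_sigma, Finset.mem_range, mem_Zp] at h1
    exact h1
  · intro h
    refine ⟨⟨p.1, p.2⟩, ?_, rfl⟩
    rw [Finset.mem_sigma, Finset.mem_range, mem_Zp]
    exact h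

lemma card_idxFinset (T : ℝ) : (idxFinset T).card = Np T := by
  rw [idxFinset, Finset.card_map, Finset.card_sigma, Np_eq]
  simp

lemma image_val_zeros (T : ℝ) :
    (fun j : ZetaZeroIdx => j.1) '' {j | zetaOrdinate j ≤ T} = (idxFinset T : Set (ℂ × ℕ)) := by
  ext p
  simp only [mem_image, Finset.mem_coe, mem_idxFinset]
  constructor
  · rintro ⟨⟨q, h1, h2, h3⟩, h4, rfl⟩
    exact ⟨⟨h1, h2, h4⟩, h3⟩
  · rintro ⟨⟨h1, h2, h4⟩, h3⟩
    exact ⟨⟨p, h1, h2, h3⟩, h4, rfl⟩

lemma val_injective : Function.Injective (fun j : ZetaZeroIdx => j.1) := Subtype.val_injective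

theorem goodFamily_zeta : GoodFamily zetaOrdinate where
  fin := fun T => by
    have h := (idxFinset T).finite_toSet
    rw [← image_val_zeros] at h
    exact h.of_finite_image val_injective.injOn
  pos := fun j => j.2.2.1
  count := by
    refine tendsto_Np.congr (fun T => ?_)
    rw [← card_idxFinset, ← Set.ncard_coe_finset, ← image_val_zeros,
      Set.ncard_image_of_injective _ val_injective]

end Pool.Agent.MP_67227b_nt
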