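import Pool.Agent.MP_67227b_nt.Null67
import Pool.Agent.MP_67227b_nt.FarDefs67
import Pool.Agent.MP_67227b_nt.Zeta
import Pool.Agent.MP_67227b_nt.Bordered35

set_option autoImplicit false

open Filter MeasureTheory Topology Set
open scoped Real

namespace Pool.Agent.MP_67227b_nt

variable {J : Type*} {γ : J → ℝ} {m : ℕ}

/-- The set of the tuples up to height `T`. -/
def tupSet (γ : J → ℝ) (m : ℕ) (T : ℝ) : Set (Fin (m + 1) → J) :=
  {j | Function.Injective j ∧ ∀ i, γ (j i) ≤ T}

/-- The normalised differences of a tuple. -/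
noncomputable def pt (γ : J → ℝ) (m : ℕ) (T : ℝ) (j : Fin (m + 1) → J) : Fin m → ℝ :=
  fun i => (γ (j i.castSucc) - γ (j (Fin.last m))) * (Real.log T / (2 * π))

lemma tupSet_finite (h : GoodFamily γ) (m : ℕ) (T : ℝ) : (tupSet γ m T).Finite := by
  have h1 : (Set.pi univ (fun _ : Fin (m + 1) => {j | γ j ≤ T})).Finite :=
    Set.Finite.pi' (fun _ => h.fin T) |>.subset (fun j hj i => hj i (mem_univ i))
  exact h1.subset (fun j hj i _ => hj.2 i)

/-- The tuples up to height `T`. -/
noncomputable def tup (h : GoodFamily γ) (m : ℕ) (T : ℝ) : Finset (Fin (m + 1) → J) :=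
  (tupSet_finite h m T).toFinset

/-- The normalised empirical measure of the tuples. -/
noncomputable def nuT (h : GoodFamily γ) (m : ℕ) (T : ℝ) : Measure (Fin m → ℝ) :=
  ENNReal.ofReal (1 / zeroScale T) • ∑ j ∈ tup h m T, Measure.dirac (pt γ m T j)

instance (h : GoodFamily γ) (m : ℕ) (T : ℝ) : IsFiniteMeasure (nuT h m T) := by
  unfold nuT
  apply Measure.smul_finite
  exact ENNReal.ofReal_ne_top

lemma integral_nuT_complex (h : GoodFamily γ) {T : ℝ} (hT : 1 < T) (f : (Fin m → ℝ) → ℂ) :
    ∫ u, f u ∂(nuT h m T) = tupleSum γ m T f / (zeroScale T : ℂ) := by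
  have hz := zeroScale_pos hT
  unfold nuT
  rw [integral_smul_measure, integral_finsetSum_measure, ENNReal.toReal_ofReal (by positivity)]
  · have h1 : tupleSum γ m T f = ∑ j ∈ tup h m T, f (pt γ m T j) := by
      exact finsum_mem_eq_finite_toFinset_sum (fun j => f (pt γ m T j)) (tupSet_finite h m T)
    rw [h1]
    simp only [integral_dirac]
    rw [Complex.real_smul]
    push_cast
    ring
  · intro j _
    exact integrable_dirac (by simp)

lemma real_nuT (h : GoodFamily γ) {T : ℝ} (hT : 1 < T) (a b : Fin m → ℝ) :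
    (nuT h m T).real (Icc a b) = (tupleCount γ m T a b : ℝ) / zeroScale T := by
  classical
  have hz := zeroScale_pos hT
  have h1 : (nuT h m T).real (Icc a b) =
      ∫ u, (Icc a b).indicator (fun _ => (1 : ℝ)) u ∂(nuT h m T) := by
    rw [integral_indicator_const _ measurableSet_Icc, smul_eq_mul, mul_one]
  rw [h1]
  unfold nuT
  rw [integral_smul_measure, integral_finsetSum_measure, ENNReal.toReal_ofReal (by positivity)]
  · simp only [integral_dirac, smul_eq_mul]
    have h2 : ∑ j ∈ tup h m T, (Icc a b).indicator (fun _ => (1 : ℝ)) (pt γ m T j) =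
        (tupleCount γ m T a b : ℝ) := by
      have h3 : {j : Fin (m + 1) → J | Function.Injective j ∧ (∀ i, γ (j i) ≤ T) ∧
          ∀ i : Fin m, (γ (j i.castSucc) - γ (j (Fin.last m))) * (Real.log T / (2 * π)) ∈
          Set.Icc (a i) (b i)} =
          (((tup h m T).filter (fun j => pt γ m T j ∈ Icc a b) :
            Finset (Fin (m + 1) → J)) : Set (Fin (m + 1) → J)) := by
        ext j
        simp only [Finset.coe_filter, tup, Set.Finite.mem_toFinset, tupSet, pt, mem_Icc,
          Pi.le_def]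
        constructor
        · rintro ⟨h4, h5, h6⟩
          exact ⟨⟨h4, h5⟩, fun i => (h6 i).1, fun i => (h6 i).2⟩
        · rintro ⟨⟨h4, h5⟩, h6, h7⟩
          exact ⟨h4, h5, fun i => ⟨h6 i, h7 i⟩⟩
      unfold tupleCount
      rw [h3, Set.ncard_coe_finset, Finset.card_filter]
      push_cast
      apply Finset.sum_congr rfl
      intro j _
      by_cases h4 : pt γ m T j ∈ Icc a b
      · rw [indicator_of_mem h4, if_pos h4]
      · rw [indicator_of_notMem h4, if_neg h4]
    rw [h2]
    ring
  · intro j _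
    exact integrable_dirac (by simp)

lemma sineDet_nonneg (m : ℕ) (u : Fin m → ℝ) : 0 ≤ sineDet m u := det_nonneg' _

lemma cosPoly_mem {n : ℕ} (c b : Fin n → ℝ) (θ : Fin n → Fin m → ℝ) :
    (fun u => ((cosPoly c b θ u : ℝ) : ℂ)) ∈ trigSpan (range θ ∪ range (fun k => - θ k)) := by
  have h1 : (fun u => ((cosPoly c b θ u : ℝ) : ℂ)) =
      ∑ k, ((c k / 2 * Complex.exp (Complex.I * b k)) • ee (θ k) +
        (c k / 2 * Complex.exp (-(Complex.I * b k))) • ee (- θ k)) := by
    ext u
    unfold cosPoly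
    rw [Complex.ofReal_sum, Finset.sum_apply]
    apply Finset.sum_congr rfl
    intro k _
    simp only [Pi.add_apply, Pi.smul_apply, smul_eq_mul]
    have h2 : ∑ i, (- θ k) i * u i = - ∑ i, θ k i * u i := by
      rw [← Finset.sum_neg_distrib]
      apply Finset.sum_congr rfl
      intro i _
      simp
    unfold ee
    rw [h2, mul_assoc (((c k : ℝ) : ℂ) / 2), mul_assoc (((c k : ℝ) : ℂ) / 2), ← Complex.exp_add,
      ← Complex.exp_add]
    push_cast
    rw [Complex.cos]
    have e1 : (2 * (π : ℂ) * (∑ i, (θ k i : ℂ) * (u i : ℂ)) + (b k : ℂ)) * Complex.I =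
        Complex.I * b k + 2 * π * Complex.I * ∑ i, (θ k i : ℂ) * (u i : ℂ) := by ring
    have e2 : -(2 * (π : ℂ) * (∑ i, (θ k i : ℂ) * (u i : ℂ)) + (b k : ℂ)) * Complex.I =
        -(Complex.I * b k) + 2 * π * Complex.I * -∑ i, (θ k i : ℂ) * (u i : ℂ) := by ring
    rw [e1, e2]
    ring
  rw [h1]
  apply Submodule.sum_mem
  intro k _
  apply Submodule.add_mem
  · exact Submodule.smul_mem _ _ (ee_mem_trigSpan (Or.inl ⟨k, rfl⟩))
  · exact Submodule.smul_mem _ _ (ee_mem_trigSpan (Or.inr ⟨k, rfl⟩))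

lemma nearFreq_eq {n : ℕ} (θ : Fin n → Fin m → ℝ) (ε : ℝ) :
    nearFreq (range θ ∪ range (fun k => - θ k)) ε = freqSet θ ε := by
  ext ξ
  simp only [nearFreq, freqSet]
  constructor
  · rintro (h | ⟨_, ⟨k, rfl⟩ | ⟨k, rfl⟩, h2⟩)
    · exact Or.inl h
    · exact Or.inr ⟨k, Or.inl h2⟩
    · refine Or.inr ⟨k, Or.inr fun i => ?_⟩
      have := h2 i
      simpa using this
  · rintro (h | ⟨k, h | h⟩)
    · exact Or.inl h
    · exact Or.inr ⟨θ k, Or.inl ⟨k, rfl⟩, h⟩
    · refine Or.inr ⟨- θ k, Or.inr ⟨k, rfl⟩, fun i => ?_⟩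
      simpa using h i

/-- The theorem on far boxes for a good family of ordinates. -/
theorem conj_of_far (h : GoodFamily γ) (m n : ℕ) (c b : Fin n → ℝ) (θ : Fin n → Fin m → ℝ)
    (hP : ∃ u, cosPoly c b θ u ≠ 0) {ε : ℝ} (hε : 0 < ε) (A : ℝ)
    (hs : SmoothedCorrelation γ m (freqSet θ ε))
    (hu : FarUpper γ m (cosPoly c b θ) A) (hl : FarLower γ m (cosPoly c b θ) A) :
    CorrelationConj γ m := by
  have hwb : ∀ u, |sineDet m u| ≤ ((Nat.factorial (m + 1) : ℕ) : ℝ) := fun u => by
    exact abs_sineDet_le m u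
  have hband : BandLim (fun T => nuT h m T) (sineDet m)
      (nearFreq (range θ ∪ range (fun k => - θ k)) ε) atTop := by
    intro φ hφ
    rw [nearFreq_eq] at hφ
    refine (hs φ hφ).congr' ?_
    filter_upwards [eventually_gt_atTop 1] with T hT
    exact (integral_nuT_complex h hT _).symm
  have hfar : FarHyp (fun T => nuT h m T) (sineDet m) (cosPoly c b θ) A := by
    refine ⟨?_, ?_⟩
    · intro a b' hA hpos δ hδ
      by_cases hab : a ≤ b'
      · filter_upwards [hu a b' hab hA hpos δ hδ, eventually_gt_atTop 1] with T hT hT1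
        rw [real_nuT h hT1]
        exact hT
      · rw [Icc_eq_empty hab]
        filter_upwards with T
        simp [hδ.le]
    · intro a b' hA hneg δ hδ
      by_cases hab : a ≤ b'
      · filter_upwards [hl a b' hab hA hneg δ hδ, eventually_gt_atTop 1] with T hT hT1
        rw [real_nuT h hT1]
        unfold boxIntegral at hT
        linarith
      · rw [Icc_eq_empty hab]
        filter_upwards with T
        simp [hδ.le]
  have hnull : volume {u : Fin m → ℝ | cosPoly c b θ u = 0} = 0 := by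
    have h1 := null_zero (cosPoly_mem c b θ) (by
      obtain ⟨u, hu⟩ := hP
      exact ⟨u, by exact_mod_cast hu⟩)
    have h2 : {u : Fin m → ℝ | cosPoly c b θ u = 0} =
        {u : Fin m → ℝ | ((cosPoly c b θ u : ℝ) : ℂ) = 0} := by
      ext u
      constructor
      · intro h3
        exact_mod_cast h3
      · intro h3
        exact_mod_cast h3
    rw [h2]
    exact h1
  intro a b' _
  have h1 := far_boxes (continuous_sineDet m) (sineDet_nonneg m) hwb (cosPoly_mem c b θ) hnull hε
    hband hfar a b'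
  refine h1.congr' ?_
  filter_upwards [eventually_gt_atTop 1] with T hT
  exact real_nuT h hT a b'

end Pool.Agent.MP_67227b_nt
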