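import Pool.Agent.MP_67227b_nt.PairDefs67
import Pool.Agent.MP_67227b_nt.FarZeta67
import Pool.Agent.MP_67227b_nt.Mo.Montgomery

set_option autoImplicit false

open Filter MeasureTheory Topology Set
open scoped Real

namespace Pool.Agent.MP_67227b_nt

lemma pairCount_eq (T α β : ℝ) :
    pairCount T α β = tupleCount zetaOrdinate 1 T (fun _ => α) (fun _ => β) := by
  unfold pairCount tupleCount
  rw [← Set.ncard_image_of_injective (f := fun p : ZetaZeroIdx × ZetaZeroIdx =>
    (![p.1, p.2] : Fin 2 → ZetaZeroIdx))]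
  · congr 1
    ext j
    simp only [mem_image, mem_ofPred_eq]
    constructor
    · rintro ⟨p, ⟨h1, h2, h3, h4⟩, rfl⟩
      refine ⟨?_, ?_, ?_⟩
      · intro a b hab
        fin_cases a <;> fin_cases b <;> simp_all
      · intro i
        fin_cases i
        · exact h2
        · exact h3
      · intro i
        rw [Subsingleton.elim i 0]
        exact h4
    · rintro ⟨h1, h2, h3⟩
      refine ⟨(j 0, j 1), ⟨fun h => absurd (h1 h) (by decide), h2 0, h2 1, h3 0⟩, ?_⟩
      ext i
      fin_cases i <;> rfl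
  · intro p q hpq
    have h0 := congrFun hpq 0
    have h1 := congrFun hpq 1
    simp only [Matrix.cons_val_zero, Matrix.cons_val_one] at h0 h1
    exact Prod.ext h0 h1

lemma pairCount_symm (T α β : ℝ) : pairCount T (-β) (-α) = pairCount T α β := by
  unfold pairCount
  rw [← Set.ncard_image_of_injective _ Prod.swap_injective]
  congr 1
  ext p
  simp only [mem_image, mem_ofPred_eq, Prod.exists, Prod.swap_prod_mk, mem_Icc]
  constructor
  · rintro ⟨a, b, ⟨h1, h2, h3, h4, h5⟩, rfl⟩
    refine ⟨h1.symm, h3, h2, ?_, ?_⟩ <;> nlinarith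
  · rintro ⟨h1, h2, h3, h4, h5⟩
    refine ⟨p.2, p.1, ⟨h1.symm, h3, h2, ?_, ?_⟩, rfl⟩ <;> nlinarith

lemma pairIntegral_symm (α β : ℝ) : pairIntegral (-β) (-α) = pairIntegral α β := by
  unfold pairIntegral
  rw [← intervalIntegral.integral_comp_neg]
  simp only [mul_neg, Real.sinc_neg]

lemma pairIntegral_eq {α β : ℝ} (h : α ≤ β) :
    pairIntegral α β = boxIntegral 1 (fun _ => α) (fun _ => β) := by
  unfold pairIntegral boxIntegral
  rw [intervalIntegral.integral_of_le h, ← integral_Icc_eq_integral_Ioc]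
  have e := (volume_preserving_funUnique (Fin 1) ℝ)
  rw [← e.setIntegral_preimage_emb (MeasurableEquiv.measurableEmbedding _)
    (fun u : ℝ => 1 - Real.sinc (π * u) ^ 2) (Icc α β)]
  have hset : (MeasurableEquiv.funUnique (Fin 1) ℝ) ⁻¹' (Icc α β) =
      Icc (fun _ => α) (fun _ => β) := by
    ext u
    simp only [mem_preimage, mem_Icc, Pi.le_def]
    constructor
    · rintro ⟨h1, h2⟩
      refine ⟨fun i => ?_, fun i => ?_⟩
      · rw [Subsingleton.elim i default]
        exact h1
      · rw [Subsingleton.elim i default]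
        exact h2
    · rintro ⟨h1, h2⟩
      exact ⟨h1 default, h2 default⟩
  rw [hset]
  apply setIntegral_congr_fun measurableSet_Icc
  intro u _
  simp only
  rw [Mo.sineDet_one]
  rfl

lemma const_fin_one (a : Fin 1 → ℝ) : a = fun _ => a 0 := by
  ext i
  rw [Subsingleton.elim i 0]

lemma pairCorrelation_iff : PairCorrelation ↔ CorrelationConj zetaOrdinate 1 := by
  constructor
  · intro h a b hab
    have h1 := h (a 0) (b 0) (hab 0)
    rw [pairIntegral_eq (hab 0)] at h1
    simp only [pairCount_eq] at h1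
    rw [← const_fin_one a, ← const_fin_one b] at h1
    exact h1
  · intro h α β hαβ
    have h1 := h (fun _ => α) (fun _ => β) (fun _ => hαβ)
    rw [← pairIntegral_eq hαβ] at h1
    simp only [pairCount_eq]
    exact h1

lemma cosPoly_one {n : ℕ} (c θ : Fin n → ℝ) (u : Fin 1 → ℝ) :
    cosPoly c 0 (fun k _ => θ k) u = cosSum c θ (u 0) := by
  unfold cosPoly cosSum
  apply Finset.sum_congr rfl
  intro k _
  simp only [Finset.univ_unique, Fin.default_eq_zero, Finset.sum_singleton, Pi.zero_apply,
    add_zero]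
  congr 2
  ring

/-- The pair correlation conjecture from one-sided bounds for far intervals, under RH. -/
theorem pair_of_far (hRH : RiemannHypothesis) (n : ℕ) (c θ : Fin n → ℝ) (hθ : ∀ k, |θ k| < 1)
    (hP : ∃ u : ℝ, cosSum c θ u ≠ 0) (A : ℝ) (hu : PairUpper (cosSum c θ) A)
    (hl : PairLower (cosSum c θ) A) : PairCorrelation := by
  obtain ⟨ε, hε1, hε2⟩ : ∃ ε : ℝ, (∀ k, |θ k| + ε ≤ 1) ∧ (0 < ε ∧ ε ≤ 1) := by
    have h1 : ∀ᶠ ε : ℝ in 𝓝[>] 0, ∀ k, |θ k| + ε ≤ 1 := by
      rw [eventually_all]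
      intro k
      have h2 : ∀ᶠ ε : ℝ in 𝓝[>] 0, ε < 1 - |θ k| :=
        eventually_nhdsWithin_of_eventually_nhds (gt_mem_nhds (by linarith [hθ k]))
      filter_upwards [h2] with ε hε
      linarith
    have h3 : ∀ᶠ ε : ℝ in 𝓝[>] 0, 0 < ε := self_mem_nhdsWithin
    have h4 : ∀ᶠ ε : ℝ in 𝓝[>] 0, ε < 1 :=
      eventually_nhdsWithin_of_eventually_nhds (gt_mem_nhds one_pos)
    obtain ⟨ε, h5, h6, h7⟩ := (h1.and (h3.and h4)).exists
    exact ⟨ε, h5, h6, h7.le⟩
  obtain ⟨hε, hεle⟩ := hε2
  rw [pairCorrelation_iff]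
  have hsub : freqSet (fun k (_ : Fin 1) => θ k) ε ⊆ {ξ : Fin 1 → ℝ | |ξ 0| < 1} := by
    rintro ξ (h | ⟨k, h | h⟩)
    · exact (h 0).trans_le hεle
    · have h1 := h 0
      have h2 := hε1 k
      rw [mem_ofPred_eq, abs_lt]
      rw [abs_lt] at h1
      have h3 := neg_abs_le (θ k)
      have h4 := le_abs_self (θ k)
      constructor <;> linarith
    · have h1 := h 0
      have h2 := hε1 k
      rw [mem_ofPred_eq, abs_lt]
      rw [abs_lt] at h1
      have h3 := neg_abs_le (θ k)
      have h4 := le_abs_self (θ k)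
      constructor <;> linarith
  have hs : SmoothedCorrelation zetaOrdinate 1 (freqSet (fun k (_ : Fin 1) => θ k) ε) := by
    intro φ hφ
    exact Mo.montgomery hRH φ ⟨hφ.1, hφ.2.1, hφ.2.2.trans hsub⟩
  have hP' : ∃ u : Fin 1 → ℝ, cosPoly c 0 (fun k _ => θ k) u ≠ 0 := by
    obtain ⟨u, hu⟩ := hP
    exact ⟨fun _ => u, by rwa [cosPoly_one]⟩
  have heven : ∀ u : ℝ, cosSum c θ (-u) = cosSum c θ u := by
    intro u
    unfold cosSum
    apply Finset.sum_congr rfl
    intro k _
    rw [mul_neg, Real.cos_neg]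
  have hmem : ∀ {α β u : ℝ}, u ∈ Icc α β → (fun _ : Fin 1 => u) ∈
      Icc (fun _ : Fin 1 => α) (fun _ : Fin 1 => β) := fun h => ⟨fun _ => h.1, fun _ => h.2⟩
  refine conj_of_far goodFamily_zeta 1 n c 0 (fun k _ => θ k) hP' hε A hs ?_ ?_
  · intro a b hab hA hpos δ hδ
    have ea := const_fin_one a
    have eb := const_fin_one b
    generalize a 0 = α at ea
    generalize b 0 = β at eb
    subst ea eb
    have hαβ : α ≤ β := hab 0
    rw [← pairIntegral_eq hαβ]
    simp only [← pairCount_eq]
    rcases hA with ⟨_, hA | hA⟩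
    · exact hu α β hA hαβ (fun u hu => by
        have := hpos _ (hmem hu)
        rwa [cosPoly_one] at this) δ hδ
    · have h1 := hu (-β) (-α) (by linarith) (by linarith) (fun u hu => by
        have h2 : -u ∈ Icc α β := ⟨by linarith [hu.2], by linarith [hu.1]⟩
        have := hpos _ (hmem h2)
        rw [cosPoly_one] at this
        rwa [heven] at this) δ hδ
      rw [pairIntegral_symm] at h1
      simp only [pairCount_symm] at h1
      exact h1
  · intro a b hab hA hneg δ hδ
    have ea := const_fin_one a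
    have eb := const_fin_one b
    generalize a 0 = α at ea
    generalize b 0 = β at eb
    subst ea eb
    have hαβ : α ≤ β := hab 0
    rw [← pairIntegral_eq hαβ]
    simp only [← pairCount_eq]
    rcases hA with ⟨_, hA | hA⟩
    · exact hl α β hA hαβ (fun u hu => by
        have := hneg _ (hmem hu)
        rwa [cosPoly_one] at this) δ hδ
    · have h1 := hl (-β) (-α) (by linarith) (by linarith) (fun u hu => by
        have h2 : -u ∈ Icc α β := ⟨by linarith [hu.2], by linarith [hu.1]⟩
        have := hneg _ (hmem h2)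
        rw [cosPoly_one] at this
        rwa [heven] at this) δ hδ
      rw [pairIntegral_symm] at h1
      simp only [pairCount_symm] at h1
      exact h1

end Pool.Agent.MP_67227b_nt
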