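import Pool.Agent.MP_67227b_nt.RegDefs67

set_option autoImplicit false

open Filter MeasureTheory Topology Set
open scoped Real Nat

namespace Pool.Agent.MP_67227b_nt

namespace RegPalm

section Count

variable {J : Type*}

/-- The number of the points in the cell `k`. -/
noncomputable def cnt (P : Finset J) (f : J → ℤ) (k : ℤ) : ℝ :=
  open Classical in ((P.filter (fun i => f i = k)).card : ℝ)

lemma cnt_nonneg (P : Finset J) (f : J → ℤ) (k : ℤ) : 0 ≤ cnt P f k := Nat.cast_nonneg _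

lemma cnt_eq_sum (P : Finset J) (f : J → ℤ) (k : ℤ) :
    cnt P f k = ∑ i ∈ P, if f i = k then (1 : ℝ) else 0 := by
  classical
  unfold cnt
  rw [Finset.sum_ite, Finset.sum_const_zero, add_zero, Finset.sum_const, nsmul_eq_mul, mul_one]

/-- The sum over the points, cell by cell. -/
lemma sum_comp (P : Finset J) (f : J → ℤ) (g : ℤ → ℝ) :
    ∑ j ∈ P, g (f j) = ∑ k ∈ P.image f, cnt P f k * g k := by
  classical
  rw [Finset.sum_comp]
  apply Finset.sum_congr rfl
  intro k _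
  rw [nsmul_eq_mul]
  unfold cnt
  congr

/-- The sums of the powers of the cell counts. -/
noncomputable def MM (P : Finset J) (f : J → ℤ) (q : ℕ) : ℝ :=
  ∑ k ∈ P.image f, cnt P f k ^ q

lemma MM_nonneg (P : Finset J) (f : J → ℤ) (q : ℕ) : 0 ≤ MM P f q :=
  Finset.sum_nonneg fun k _ => pow_nonneg (cnt_nonneg P f k) q

lemma cnt_eq_zero (P : Finset J) (f : J → ℤ) (k : ℤ) (hk : k ∉ P.image f) : cnt P f k = 0 := by
  classical
  unfold cnt
  rw [Nat.cast_eq_zero, Finset.card_eq_zero, Finset.filter_eq_empty_iff]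
  intro i hi h
  exact hk (Finset.mem_image.2 ⟨i, hi, h⟩)

lemma sum_shift_le (P : Finset J) (f : J → ℤ) (q : ℕ) (hq : q ≠ 0) (A : Finset ℤ) (b : ℤ) :
    ∑ k ∈ A, cnt P f (k + b) ^ q ≤ MM P f q := by
  classical
  have h1 : ∑ k ∈ A, cnt P f (k + b) ^ q = ∑ k ∈ A.image (· + b), cnt P f k ^ q := by
    rw [Finset.sum_image]
    intro x _ y _ h
    simpa using h
  rw [h1, MM]
  have h2 : ∑ k ∈ A.image (· + b), cnt P f k ^ q =
      ∑ k ∈ (A.image (· + b)).filter (· ∈ P.image f), cnt P f k ^ q := by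
    rw [Finset.sum_filter]
    apply Finset.sum_congr rfl
    intro k _
    by_cases hk : k ∈ P.image f
    · rw [if_pos hk]
    · rw [if_neg hk, cnt_eq_zero P f k hk, zero_pow hq]
  rw [h2]
  apply Finset.sum_le_sum_of_subset_of_nonneg
  · intro k hk
    exact (Finset.mem_filter.1 hk).2
  · intro k _ _
    exact pow_nonneg (cnt_nonneg P f k) q

lemma MM_one (P : Finset J) (f : J → ℤ) : MM P f 1 = (P.card : ℝ) := by
  have := sum_comp P f (fun _ => 1)
  rw [Finset.sum_const, nsmul_eq_mul, mul_one] at this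
  rw [this, MM]
  simp

lemma mul_pow_le_add {u v : ℝ} (hu : 0 ≤ u) (hv : 0 ≤ v) (p : ℕ) :
    u * v ^ p ≤ u ^ (p + 1) + v ^ (p + 1) := by
  rcases le_total u v with h | h
  · have : u * v ^ p ≤ v * v ^ p := by gcongr
    have h2 : v * v ^ p = v ^ (p + 1) := by ring
    have h3 : 0 ≤ u ^ (p + 1) := by positivity
    linarith
  · have : u * v ^ p ≤ u * u ^ p := by gcongr
    have h2 : u * u ^ p = u ^ (p + 1) := by ring
    have h3 : 0 ≤ v ^ (p + 1) := by positivity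
    linarith

/-- Powers of the counts of a shifted cell, summed over the points. -/
lemma sum_cnt_shift (P : Finset J) (f : J → ℤ) (p : ℕ) (b : ℤ) :
    ∑ j ∈ P, cnt P f (f j + b) ^ p ≤ 2 * MM P f (p + 1) := by
  rw [sum_comp P f (fun k => cnt P f (k + b) ^ p)]
  calc ∑ k ∈ P.image f, cnt P f k * cnt P f (k + b) ^ p ≤
      ∑ k ∈ P.image f, (cnt P f k ^ (p + 1) + cnt P f (k + b) ^ (p + 1)) := by
        apply Finset.sum_le_sum
        intro k _
        exact mul_pow_le_add (cnt_nonneg P f k) (cnt_nonneg P f _) p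
    _ = MM P f (p + 1) + ∑ k ∈ P.image f, cnt P f (k + b) ^ (p + 1) := by
        rw [Finset.sum_add_distrib]
        rfl
    _ ≤ MM P f (p + 1) + MM P f (p + 1) := by
        gcongr
        exact sum_shift_le P f (p + 1) (Nat.succ_ne_zero p) _ b
    _ = _ := by ring

lemma sum_pow_le_card {ι : Type*} (s : Finset ι) (y : ι → ℝ) (hy : ∀ i ∈ s, 0 ≤ y i)
    (hs : s.Nonempty) (p : ℕ) :
    (∑ i ∈ s, y i) ^ p ≤ (s.card : ℝ) ^ p * ∑ i ∈ s, y i ^ p := by
  obtain ⟨m, hm, hmax⟩ := s.exists_max_image y hs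
  have h1 : ∑ i ∈ s, y i ≤ s.card * y m := by
    have := Finset.sum_le_card_nsmul s y (y m) (fun i hi => hmax i hi)
    rwa [nsmul_eq_mul] at this
  have h0 : 0 ≤ ∑ i ∈ s, y i := Finset.sum_nonneg hy
  calc (∑ i ∈ s, y i) ^ p ≤ (s.card * y m) ^ p := by gcongr
    _ = (s.card : ℝ) ^ p * y m ^ p := by rw [mul_pow]
    _ ≤ (s.card : ℝ) ^ p * ∑ i ∈ s, y i ^ p := by
        gcongr
        exact Finset.single_le_sum (f := fun i => y i ^ p)
          (fun i hi => pow_nonneg (hy i hi) p) hm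

/-- The counts in windows, in terms of the cell counts. -/
lemma Z_le (P : Finset J) (x : J → ℝ) (j : J) (s t : ℝ) (E : ℕ) (hE : t - s + 3 ≤ E) :
    (Z P x j s t : ℝ) ≤
      ∑ e ∈ Finset.range E, cnt P (fun i => ⌊x i⌋) (⌊x j⌋ + (⌊s⌋ + e)) := by
  classical
  have h1 : near P x j s t ⊆ (Finset.range E).biUnion (fun e =>
      P.filter (fun i => ⌊x i⌋ = ⌊x j⌋ + (⌊s⌋ + (e : ℤ)))) := by
    intro i hi
    rw [mem_near] at hi
    obtain ⟨hiP, -, hs, ht⟩ := hi
    rw [Finset.mem_biUnion]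
    have a1 : ⌊x j⌋ + ⌊s⌋ ≤ ⌊x i⌋ := by
      rw [Int.le_floor]
      push_cast
      have := Int.floor_le (x j)
      have := Int.floor_le s
      linarith
    refine ⟨(⌊x i⌋ - ⌊x j⌋ - ⌊s⌋).toNat, ?_, ?_⟩
    · rw [Finset.mem_range]
      have a2 : ((⌊x i⌋ - ⌊x j⌋ - ⌊s⌋ : ℤ) : ℝ) < E := by
        push_cast
        have := Int.floor_le (x i)
        have := Int.lt_floor_add_one (x j)
        have := Int.lt_floor_add_one s
        linarith
      have a3 : ⌊x i⌋ - ⌊x j⌋ - ⌊s⌋ < (E : ℤ) := by exact_mod_cast a2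
      omega
    · rw [Finset.mem_filter]
      refine ⟨hiP, ?_⟩
      rw [Int.toNat_of_nonneg (by omega)]
      ring
  have h2 := (Finset.card_le_card h1).trans Finset.card_biUnion_le
  have h3 : ((near P x j s t).card : ℝ) ≤ ((∑ e ∈ Finset.range E,
      (P.filter (fun i => ⌊x i⌋ = ⌊x j⌋ + (⌊s⌋ + (e : ℤ)))).card : ℕ) : ℝ) := by
    exact_mod_cast h2
  rw [Z]
  refine h3.trans (le_of_eq ?_)
  push_cast
  apply Finset.sum_congr rfl
  intro e _
  unfold cnt
  congr

/-- The moments seen from the points, for a finite family. -/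
lemma sum_Z_pow_le (P : Finset J) (x : J → ℝ) (s t : ℝ) (E : ℕ) (hE : t - s + 3 ≤ E) (p : ℕ) :
    ∑ j ∈ P, ((Z P x j s t : ℝ) + 1) ^ p ≤
      ((E + 1 : ℕ) : ℝ) ^ p * (MM P (fun i => ⌊x i⌋) 1 +
        E * (2 * MM P (fun i => ⌊x i⌋) (p + 1))) := by
  classical
  set f : J → ℤ := fun i => ⌊x i⌋ with hf
  have h1 : ∀ j ∈ P, ((Z P x j s t : ℝ) + 1) ^ p ≤ ((E + 1 : ℕ) : ℝ) ^ p *
      (1 + ∑ e ∈ Finset.range E, cnt P f (f j + (⌊s⌋ + e)) ^ p) := by
    intro j _
    have h2 := Z_le P x j s t E hE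
    have h3 := sum_pow_le_card (Finset.range (E + 1))
      (fun e : ℕ => if e < E then cnt P f (f j + (⌊s⌋ + e)) else 1) (by
        intro i _
        split_ifs
        · exact cnt_nonneg _ _ _
        · exact zero_le_one) ⟨0, by simp⟩ p
    rw [Finset.card_range] at h3
    rw [Finset.sum_range_succ, Finset.sum_range_succ] at h3
    have e1 : ∑ e ∈ Finset.range E, (if e < E then cnt P f (f j + (⌊s⌋ + e)) else 1) =
        ∑ e ∈ Finset.range E, cnt P f (f j + (⌊s⌋ + e)) := by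
      apply Finset.sum_congr rfl
      intro e he
      rw [if_pos (Finset.mem_range.1 he)]
    have e2 : ∑ e ∈ Finset.range E, (if e < E then cnt P f (f j + (⌊s⌋ + e)) else 1) ^ p =
        ∑ e ∈ Finset.range E, cnt P f (f j + (⌊s⌋ + e)) ^ p := by
      apply Finset.sum_congr rfl
      intro e he
      rw [if_pos (Finset.mem_range.1 he)]
    rw [e1, e2, if_neg (lt_irrefl E), one_pow] at h3
    refine le_trans ?_ (h3.trans (le_of_eq ?_))
    · have : (0 : ℝ) ≤ Z P x j s t := Nat.cast_nonneg _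
      gcongr
    · ring
  refine (Finset.sum_le_sum h1).trans ?_
  rw [← Finset.mul_sum, Finset.sum_add_distrib, Finset.sum_comm]
  have h4 : ∑ _j ∈ P, (1 : ℝ) = MM P f 1 := by
    rw [MM_one, Finset.sum_const, nsmul_eq_mul, mul_one]
  rw [h4]
  gcongr
  calc ∑ e ∈ Finset.range E, ∑ j ∈ P, cnt P f (f j + (⌊s⌋ + e)) ^ p ≤
      ∑ e ∈ Finset.range E, 2 * MM P f (p + 1) := by
        apply Finset.sum_le_sum
        intro e _
        exact sum_cnt_shift P f p _
    _ = E * (2 * MM P f (p + 1)) := by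
        rw [Finset.sum_const, Finset.card_range, nsmul_eq_mul]

end Count

variable {J : Type*} {γ : J → ℝ}

lemma xT_pos (h : GoodFamily γ) {T : ℝ} (hT : 1 < T) (j : J) : 0 < xT γ T j := by
  have := h.pos j
  have := Real.log_pos hT
  unfold xT
  positivity

lemma xT_le (h : GoodFamily γ) {T : ℝ} (hT : 1 < T) {j : J} (hj : j ∈ PT h T) :
    xT γ T j ≤ zeroScale T := by
  have h1 := (mem_PT h T j).1 hj
  have h2 := Real.log_pos hT
  have e : zeroScale T = T * (Real.log T / (2 * π)) := by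
    unfold zeroScale
    ring
  rw [e]
  unfold xT
  gcongr

/-- The integer part of the rescaled points. -/
noncomputable def fl (γ : J → ℝ) (T : ℝ) (j : J) : ℤ := ⌊xT γ T j⌋

lemma fl_eq (h : GoodFamily γ) {T : ℝ} (hT : 1 < T) (j : J) :
    fl γ T j = (⌊xT γ T j⌋₊ : ℤ) := by
  have := xT_pos h hT j
  exact (Int.natCast_floor_eq_floor this.le).symm

lemma cell_eq (h : GoodFamily γ) {T : ℝ} (hT : 1 < T) (i : ℕ) :
    (cell h T i : ℝ) = cnt (PT h T) (fl γ T) i := by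
  classical
  unfold cell cnt
  congr 2
  ext j
  simp only [Finset.mem_filter, fl_eq h hT]
  norm_cast

lemma MM_le (h : GoodFamily γ) {T : ℝ} (hT : 1 < T) (q : ℕ) :
    MM (PT h T) (fl γ T) q ≤
      ∑ i ∈ Finset.range (⌊zeroScale T⌋₊ + 1), (cell h T i : ℝ) ^ q := by
  classical
  have h1 : ∑ i ∈ Finset.range (⌊zeroScale T⌋₊ + 1), (cell h T i : ℝ) ^ q =
      ∑ k ∈ (Finset.range (⌊zeroScale T⌋₊ + 1)).image (fun i : ℕ => (i : ℤ)),
        cnt (PT h T) (fl γ T) k ^ q := by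
    rw [Finset.sum_image (by intro x _ y _ hxy; simpa using hxy)]
    apply Finset.sum_congr rfl
    intro i _
    rw [cell_eq h hT]
  rw [h1, MM]
  apply Finset.sum_le_sum_of_subset_of_nonneg
  · intro k hk
    rw [Finset.mem_image] at hk
    obtain ⟨j, hj, rfl⟩ := hk
    rw [Finset.mem_image]
    refine ⟨⌊xT γ T j⌋₊, ?_, (fl_eq h hT j).symm⟩
    rw [Finset.mem_range, Nat.lt_succ_iff]
    exact Nat.floor_le_floor (xT_le h hT hj)
  · intro k _ _
    exact pow_nonneg (cnt_nonneg _ _ k) q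

/-- The power sums of the cell counts are bounded. -/
lemma MM_bound (h : GoodFamily γ) (hc : CellMom h) (q : ℕ) :
    ∃ C : ℝ, 0 ≤ C ∧ ∀ᶠ T : ℝ in atTop, MM (PT h T) (fl γ T) q ≤ C * zeroScale T := by
  obtain ⟨C, hC, hb⟩ := hc q
  refine ⟨C, hC, ?_⟩
  filter_upwards [hb, eventually_gt_atTop (1 : ℝ)] with T h1 hT
  exact (MM_le h hT q).trans h1

end RegPalm

open RegPalm in
variable {J : Type*} {γ : J → ℝ} in
/-- Moments seen from the points. -/
theorem mom_of_cellMom (h : GoodFamily γ) (hc : CellMom h) (p : ℕ) (w : ℝ) :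
    ∃ C : ℝ, 0 ≤ C ∧ ∀ s t : ℝ, s ≤ t → t - s ≤ w →
      UB (Av h (fun T j => (Zst h s t T j + 1) ^ p)) C := by
  obtain ⟨C1, hC1, h1⟩ := MM_bound h hc 1
  obtain ⟨C2, hC2, h2⟩ := MM_bound h hc (p + 1)
  obtain ⟨E, hE⟩ := exists_nat_ge (w + 3)
  refine ⟨((E + 1 : ℕ) : ℝ) ^ p * (C1 + E * (2 * C2)), by positivity, fun s t hst hw => ?_⟩
  intro ε hε
  filter_upwards [h1, h2, eventually_gt_atTop (1 : ℝ)] with T a1 a2 hT
  have hZ := zeroScale_pos hT
  have h3 := sum_Z_pow_le (PT h T) (xT γ T) s t E (by linarith) p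
  unfold Av
  rw [div_le_iff₀ hZ]
  have h4 : ((E + 1 : ℕ) : ℝ) ^ p * (MM (PT h T) (fun i => ⌊xT γ T i⌋) 1 +
        E * (2 * MM (PT h T) (fun i => ⌊xT γ T i⌋) (p + 1))) ≤
      ((E + 1 : ℕ) : ℝ) ^ p * (C1 * zeroScale T + E * (2 * (C2 * zeroScale T))) := by
    gcongr
    · exact a1
    · exact a2
  have h5 : ((E + 1 : ℕ) : ℝ) ^ p * (C1 * zeroScale T + E * (2 * (C2 * zeroScale T))) =
      ((E + 1 : ℕ) : ℝ) ^ p * (C1 + E * (2 * C2)) * zeroScale T := by ring
  have h6 : 0 ≤ ε * zeroScale T := by positivity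
  have h7 : ∑ j ∈ PT h T, (Zst h s t T j + 1) ^ p =
      ∑ j ∈ PT h T, ((Z (PT h T) (xT γ T) j s t : ℝ) + 1) ^ p := rfl
  rw [h7, add_mul]
  linarith

end Pool.Agent.MP_67227b_nt
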