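import Pool.Agent.MP_67227b_nt.Defs

set_option autoImplicit false

open Filter MeasureTheory Topology
open scoped Real

namespace Pool.Agent.MP_67227b_nt

/-- The number of pairs of distinct indices of zeta zeros with ordinates at most `T` whose
normalised difference `(γ - γ') log T / 2π` lies in `[α, β]`. -/
noncomputable def pairCount (T α β : ℝ) : ℕ :=
  Set.ncard {p : ZetaZeroIdx × ZetaZeroIdx | p.1 ≠ p.2 ∧ zetaOrdinate p.1 ≤ T ∧
    zetaOrdinate p.2 ≤ T ∧
    (zetaOrdinate p.1 - zetaOrdinate p.2) * (Real.log T / (2 * π)) ∈ Set.Icc α β}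

/-- The integral of `1 - (sin πu / πu)^2` over `[α, β]`. -/
noncomputable def pairIntegral (α β : ℝ) : ℝ := ∫ u in α..β, (1 - Real.sinc (π * u) ^ 2)

/-- The pair correlation conjecture: the case `k = 2` of the problem, for all intervals. -/
def PairCorrelation : Prop :=
  ∀ α β : ℝ, α ≤ β → Tendsto (fun T : ℝ => (pairCount T α β : ℝ) / zeroScale T) atTop
    (𝓝 (pairIntegral α β))

/-- The real trigonometric polynomial `∑ c_k cos (2 pi θ_k u)` on the line. -/
noncomputable def cosSum {n : ℕ} (c θ : Fin n → ℝ) (u : ℝ) : ℝ :=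
  ∑ k, c k * Real.cos (2 * π * θ k * u)

/-- The upper-bound half of the pair correlation conjecture, for the intervals in `[A, ∞)` on
which `P` is positive. -/
def PairUpper (P : ℝ → ℝ) (A : ℝ) : Prop :=
  ∀ α β : ℝ, A ≤ α → α ≤ β → (∀ u ∈ Set.Icc α β, 0 < P u) → ∀ ε : ℝ, 0 < ε →
    ∀ᶠ T : ℝ in atTop, (pairCount T α β : ℝ) / zeroScale T ≤ pairIntegral α β + ε

/-- The lower-bound half of the pair correlation conjecture, for the intervals in `[A, ∞)` on
which `P` is negative. -/
def PairLower (P : ℝ → ℝ) (A : ℝ) : Prop :=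
  ∀ α β : ℝ, A ≤ α → α ≤ β → (∀ u ∈ Set.Icc α β, P u < 0) → ∀ ε : ℝ, 0 < ε →
    ∀ᶠ T : ℝ in atTop, pairIntegral α β - ε ≤ (pairCount T α β : ℝ) / zeroScale T

end Pool.Agent.MP_67227b_nt
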