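import Pool.Agent.MP_67227b_nt.Comb

set_option autoImplicit false

open Filter MeasureTheory Topology Finset
open scoped Real

namespace Pool.Agent.MP_67227b_nt

variable {J : Type*}

open Classical in
/-- The count of tuples is the sum of the local counts. -/
lemma tupleCount_eq (γ : J → ℝ) (m : ℕ) (T : ℝ) (a b : Fin m → ℝ)
    (P : Finset J) (hP : ∀ j, j ∈ P ↔ γ j ≤ T) :
    tupleCount γ m T a b =
      ∑ j ∈ P, R P (fun i => γ i * (Real.log T / (2 * π))) m j a b := by
  classical
  set x : J → ℝ := fun i => γ i * (Real.log T / (2 * π)) with hx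
  have hset : {j : Fin (m + 1) → J | Function.Injective j ∧ (∀ i, γ (j i) ≤ T) ∧
      ∀ i : Fin m, (γ (j i.castSucc) - γ (j (Fin.last m))) * (Real.log T / (2 * π)) ∈
      Set.Icc (a i) (b i)} = ((Fintype.piFinset fun _ : Fin (m + 1) => P).filter
        (fun j => Function.Injective j ∧ ∀ i : Fin m, x (j i.castSucc) - x (j (Fin.last m)) ∈
          Set.Icc (a i) (b i)) : Finset (Fin (m + 1) → J)) := by
    ext j
    simp only [Set.mem_setOf_eq, coe_filter, Fintype.mem_piFinset, hP, hx, sub_mul]
    tauto
  rw [tupleCount, hset, Set.ncard_coe_finset,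
    card_eq_sum_card_fiberwise (f := fun j : Fin (m + 1) → J => j (Fin.last m)) (t := P)]
  · apply sum_congr rfl
    intro j hj
    rw [R]
    apply card_bij (fun (f : Fin (m + 1) → J) _ => (Fin.init f : Fin m → J))
    · intro f hf
      rw [mem_filter, mem_filter, Fintype.mem_piFinset] at hf
      obtain ⟨⟨h1, h2, h3⟩, h4⟩ := hf
      rw [mem_localTuples]
      refine ⟨fun l => h1 _, ?_, ?_, ?_⟩
      · intro l l' h
        exact Fin.castSucc_injective _ (h2 h)
      · intro l h
        rw [← h4] at h
        have := h2 h
        exact absurd this (Fin.castSucc_lt_last l).ne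
      · intro l
        have := h3 l
        rw [h4] at this
        exact this
    · intro f hf g hg h
      rw [mem_filter] at hf hg
      rw [← Fin.snoc_init_self f, ← Fin.snoc_init_self g, h, hf.2, hg.2]
    · intro i hi
      rw [mem_localTuples] at hi
      refine ⟨(Fin.snoc i j : Fin (m + 1) → J), ?_, by simp⟩
      rw [mem_filter, mem_filter, Fintype.mem_piFinset]
      refine ⟨⟨?_, ?_, ?_⟩, by simp⟩
      · intro l
        refine Fin.lastCases ?_ (fun l => ?_) l
        · simpa using hj
        · simpa using hi.1 l
      · intro l l'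
        refine Fin.lastCases ?_ (fun l => ?_) l
        · refine Fin.lastCases ?_ (fun l' => ?_) l'
          · simp
          · intro h
            simp only [Fin.snoc_last, Fin.snoc_castSucc] at h
            exact absurd h.symm (hi.2.2.1 l')
        · refine Fin.lastCases ?_ (fun l' => ?_) l'
          · intro h
            simp only [Fin.snoc_last, Fin.snoc_castSucc] at h
            exact absurd h (hi.2.2.1 l)
          · intro h
            simp only [Fin.snoc_castSucc] at h
            rw [hi.2.1 h]
      · intro l
        simpa using hi.2.2.2 l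
  · intro f hf
    simp only [coe_filter, Fintype.mem_piFinset, Set.mem_setOf_eq] at hf
    exact hf.1 _

end Pool.Agent.MP_67227b_nt
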