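import Pool.Agent.MP_67227b_nt.Defs

set_option autoImplicit false

open Filter MeasureTheory Topology Set
open scoped Real Nat

namespace Pool.Agent.MP_67227b_nt

/-- The sine kernel. -/
noncomputable def K (x : ℝ) : ℝ := Real.sinc (π * x)

lemma continuous_K : Continuous K := by
  unfold K
  exact Real.continuous_sinc.comp (by fun_prop)

lemma abs_K_le_one (x : ℝ) : |K x| ≤ 1 := Real.abs_sinc_le_one _

lemma K_zero : K 0 = 1 := by simp [K]

lemma K_neg (x : ℝ) : K (-x) = K x := by
  rw [K, K, mul_neg, Real.sinc_neg]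

lemma sineMatrix_apply {k : ℕ} (u : Fin k → ℝ) (i j : Fin k) :
    sineMatrix u i j = K (u i - u j) := rfl

lemma K_sq_le_one (x : ℝ) : K x ^ 2 ≤ 1 := by
  rw [← sq_abs]
  have := abs_K_le_one x
  have := abs_nonneg (K x)
  nlinarith

lemma K_sq_le_inv {x : ℝ} (hx : x ≠ 0) : K x ^ 2 ≤ 1 / (π ^ 2 * x ^ 2) := by
  have hpx : π * x ≠ 0 := mul_ne_zero Real.pi_ne_zero hx
  rw [K, Real.sinc_of_ne_zero hpx, div_pow, mul_pow]
  have : Real.sin (π * x) ^ 2 ≤ 1 := by
    have := Real.sin_sq_le_one (π * x)
    exact this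
  gcongr

lemma K_sq_le (x : ℝ) : K x ^ 2 ≤ 2 * (1 + x ^ 2)⁻¹ := by
  rcases le_or_gt (x ^ 2) 1 with h | h
  · have h1 := K_sq_le_one x
    have h2 : (1 : ℝ) ≤ 2 * (1 + x ^ 2)⁻¹ := by
      rw [← div_eq_mul_inv, le_div_iff₀ (by positivity)]
      linarith
    linarith
  · have hx : x ≠ 0 := by
      rintro rfl
      norm_num at h
    refine (K_sq_le_inv hx).trans ?_
    rw [← div_eq_mul_inv, div_le_div_iff₀ (by positivity) (by positivity)]
    have hpi := Real.pi_gt_three
    have : (1 : ℝ) ≤ π ^ 2 := by nlinarith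
    nlinarith

lemma integrable_K_sq (w : ℝ) : Integrable (fun v => K (v - w) ^ 2) := by
  have h1 : Integrable (fun v : ℝ => 2 * (1 + v ^ 2)⁻¹) := integrable_inv_one_add_sq.const_mul 2
  have h2 : Integrable (fun v : ℝ => K v ^ 2) := by
    refine h1.mono' ((continuous_K.pow 2).aestronglyMeasurable) ?_
    filter_upwards with v
    rw [Real.norm_eq_abs, abs_of_nonneg (sq_nonneg _)]
    exact K_sq_le v
  exact h2.comp_sub_right w

lemma setIntegral_K_sq_le (s : Set ℝ) (w : ℝ) :
    ∫ v in s, K (v - w) ^ 2 ≤ 2 * π := by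
  calc ∫ v in s, K (v - w) ^ 2 ≤ ∫ v, K (v - w) ^ 2 :=
        setIntegral_le_integral (integrable_K_sq w) (Filter.Eventually.of_forall fun v => sq_nonneg _)
    _ = ∫ v, K v ^ 2 := integral_sub_right_eq_self (fun v => K v ^ 2) w
    _ ≤ ∫ v : ℝ, 2 * (1 + v ^ 2)⁻¹ := by
        apply integral_mono
        · simpa using integrable_K_sq 0
        · exact integrable_inv_one_add_sq.const_mul 2
        · exact fun v => K_sq_le v
    _ = 2 * π := by rw [integral_const_mul, integral_univ_inv_one_add_sq]

lemma continuous_sineDet (m : ℕ) : Continuous (sineDet m) := by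
  unfold sineDet
  apply Continuous.matrix_det
  apply continuous_matrix
  intro i j
  simp only [sineMatrix_apply]
  apply continuous_K.comp
  have h : ∀ l : Fin (m + 1), Continuous fun u : Fin m → ℝ =>
      (Fin.snoc u (0 : ℝ) : Fin (m + 1) → ℝ) l := by
    intro l
    refine Fin.lastCases ?_ (fun l => ?_) l
    · simpa using continuous_const
    · simpa using continuous_apply l
  exact (h i).sub (h j)

/-- Adding one point changes the determinant by little, if the point is far from the others. -/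
lemma abs_det_cons_sub_le (m : ℕ) (w : Fin (m + 1) → ℝ) (v : ℝ) :
    |(sineMatrix (Fin.cons v w : Fin (m + 2) → ℝ)).det - (sineMatrix w).det| ≤
      (m ! * (m + 1)) * ∑ i, K (v - w i) ^ 2 := by
  set M := sineMatrix (Fin.cons v w : Fin (m + 2) → ℝ) with hM
  have hentry : ∀ i j, |M i j| ≤ 1 := fun i j => abs_K_le_one _
  rw [Matrix.det_succ_row_zero, Fin.sum_univ_succ]
  have h0 : (-1 : ℝ) ^ ((0 : Fin (m + 2)) : ℕ) * M 0 0 *
      (M.submatrix Fin.succ (Fin.succAbove 0)).det = (sineMatrix w).det := by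
    have h1 : M 0 0 = 1 := by
      rw [hM, sineMatrix_apply, sub_self, K_zero]
    have h2 : M.submatrix Fin.succ (Fin.succAbove 0) = sineMatrix w := by
      ext i j
      simp [hM, sineMatrix_apply]
    rw [h1, h2]
    simp
  rw [h0, add_sub_cancel_left]
  have hrow : ∀ i : Fin (m + 1), M 0 i.succ = K (v - w i) := by
    intro i
    rw [hM, sineMatrix_apply]
    simp
  have hcol : ∀ i : Fin (m + 1), M i.succ 0 = K (v - w i) := by
    intro i
    rw [hM, sineMatrix_apply, ← K_neg]
    simp
  have hminor : ∀ i : Fin (m + 1), |(M.submatrix Fin.succ (Fin.succAbove i.succ)).det| ≤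
      m ! * ∑ l, |K (v - w l)| := by
    intro i
    rw [Matrix.det_succ_column_zero]
    refine (Finset.abs_sum_le_sum_abs _ _).trans ?_
    rw [Finset.mul_sum]
    apply Finset.sum_le_sum
    intro l _
    rw [abs_mul, abs_mul, abs_pow, abs_neg, abs_one, one_pow, one_mul]
    have h3 : (M.submatrix Fin.succ (Fin.succAbove i.succ)) l 0 = K (v - w l) := by
      simp only [Matrix.submatrix_apply]
      rw [Fin.succAbove_of_castSucc_lt i.succ 0 (by simp)]
      exact hcol l
    rw [h3, mul_comm]
    gcongr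
    have h4 := Matrix.det_le (A := (M.submatrix Fin.succ (Fin.succAbove i.succ)).submatrix
      l.succAbove Fin.succ) (abv := AbsoluteValue.abs) (x := 1) (fun i j => by
        simp only [Matrix.submatrix_apply, AbsoluteValue.abs_apply]
        exact hentry _ _)
    simpa using h4
  refine (Finset.abs_sum_le_sum_abs _ _).trans ?_
  calc ∑ i : Fin (m + 1), |(-1) ^ ((i.succ : Fin (m + 2)) : ℕ) * M 0 i.succ *
        (M.submatrix Fin.succ (Fin.succAbove i.succ)).det| ≤
      ∑ i : Fin (m + 1), |K (v - w i)| * (m ! * ∑ l, |K (v - w l)|) := by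
        apply Finset.sum_le_sum
        intro i _
        rw [abs_mul, abs_mul, abs_pow, abs_neg, abs_one, one_pow, one_mul, hrow]
        gcongr
        exact hminor i
    _ = m ! * (∑ i : Fin (m + 1), |K (v - w i)|) ^ 2 := by
        rw [← Finset.sum_mul]
        ring
    _ ≤ m ! * ((m + 1) * ∑ i : Fin (m + 1), K (v - w i) ^ 2) := by
        gcongr
        have := sq_sum_le_card_mul_sum_sq (s := (Finset.univ : Finset (Fin (m + 1))))
          (f := fun i => |K (v - w i)|)
        simpa using this
    _ = _ := by ring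

lemma sineDet_cons (m : ℕ) (v : ℝ) (u : Fin m → ℝ) :
    sineDet (m + 1) (Fin.cons v u : Fin (m + 1) → ℝ) =
      (sineMatrix (Fin.cons v (Fin.snoc u (0 : ℝ) : Fin (m + 1) → ℝ) : Fin (m + 2) → ℝ)).det := by
  rw [sineDet, Fin.cons_snoc_eq_snoc_cons]

lemma abs_sineDet_cons_sub_le (m : ℕ) (u : Fin m → ℝ) (v : ℝ) :
    |sineDet (m + 1) (Fin.cons v u : Fin (m + 1) → ℝ) - sineDet m u| ≤
      (m ! * (m + 1)) * ∑ i, K (v - (Fin.snoc u (0 : ℝ) : Fin (m + 1) → ℝ) i) ^ 2 := by
  rw [sineDet_cons]
  exact abs_det_cons_sub_le m _ v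

/-- Fubini for the box integrals. -/
lemma boxIntegral_cons (m : ℕ) (a b : Fin m → ℝ) (s t : ℝ) :
    boxIntegral (m + 1) (Fin.cons s a : Fin (m + 1) → ℝ) (Fin.cons t b : Fin (m + 1) → ℝ) =
      ∫ v in Icc s t, ∫ u in Icc a b, sineDet (m + 1) (Fin.cons v u : Fin (m + 1) → ℝ) := by
  set e := MeasurableEquiv.piFinSuccAbove (fun _ : Fin (m + 1) => ℝ) 0 with he
  have hem : MeasurePreserving e.symm :=
    (volume_preserving_piFinSuccAbove (fun _ : Fin (m + 1) => ℝ) 0).symm _
  have hsymm : ∀ p : ℝ × (Fin m → ℝ), e.symm p = (Fin.cons p.1 p.2 : Fin (m + 1) → ℝ) := by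
    intro p
    simp [he, MeasurableEquiv.piFinSuccAbove, Fin.insertNthEquiv]
  have hpre : e.symm ⁻¹' (Icc (Fin.cons s a : Fin (m + 1) → ℝ) (Fin.cons t b : Fin (m + 1) → ℝ)) =
      Icc s t ×ˢ Icc a b := by
    ext p
    simp only [mem_preimage, hsymm, mem_Icc, Fin.cons_le_cons, mem_prod]
    tauto
  rw [boxIntegral, ← hem.map_eq, setIntegral_map_equiv, hpre, Measure.volume_eq_prod,
    setIntegral_prod]
  · simp_rw [hsymm]
  · have hc : Continuous (fun p : ℝ × (Fin m → ℝ) => sineDet (m + 1) (e.symm p)) := by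
      simp_rw [hsymm]
      apply (continuous_sineDet (m + 1)).comp
      rw [continuous_pi_iff]
      intro i
      refine Fin.cases ?_ (fun i => ?_) i
      · simpa using continuous_fst
      · simpa [Function.comp_def] using (continuous_apply i).comp continuous_snd
    rw [← Measure.volume_eq_prod]
    exact hc.continuousOn.integrableOn_compact (isCompact_Icc.prod isCompact_Icc)

/-- The volume of a box. -/
noncomputable def boxVol {m : ℕ} (a b : Fin m → ℝ) : ℝ := (volume (Icc a b)).toReal

lemma boxVol_nonneg {m : ℕ} (a b : Fin m → ℝ) : 0 ≤ boxVol a b := ENNReal.toReal_nonneg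

/-- Comparison of the box integral on a product with the product of integrals. -/
lemma abs_boxIntegral_cons_sub_le (m : ℕ) (a b : Fin m → ℝ) {s t : ℝ} (hst : s ≤ t) :
    |boxIntegral (m + 1) (Fin.cons s a : Fin (m + 1) → ℝ) (Fin.cons t b : Fin (m + 1) → ℝ) -
      (t - s) * boxIntegral m a b| ≤ (m ! * (m + 1)) * ((m + 1) * (2 * π)) * boxVol a b := by
  have hcons : Continuous (fun p : ℝ × (Fin m → ℝ) =>
      (Fin.cons p.1 p.2 : Fin (m + 1) → ℝ)) := by
    rw [continuous_pi_iff]
    intro i
    refine Fin.cases ?_ (fun i => ?_) i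
    · simpa using continuous_fst
    · simpa [Function.comp_def] using (continuous_apply i).comp continuous_snd
  have hsnoc : ∀ i : Fin (m + 1), Continuous (fun u : Fin m → ℝ =>
      (Fin.snoc u (0 : ℝ) : Fin (m + 1) → ℝ) i) := by
    intro l
    refine Fin.lastCases ?_ (fun l => ?_) l
    · simpa using continuous_const
    · simpa using continuous_apply l
  have hcompact : IsCompact (Icc s t ×ˢ Icc a b) := isCompact_Icc.prod isCompact_Icc
  have e1 : boxIntegral (m + 1) (Fin.cons s a : Fin (m + 1) → ℝ) (Fin.cons t b : Fin (m + 1) → ℝ) =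
      ∫ p in Icc s t ×ˢ Icc a b, sineDet (m + 1) (Fin.cons p.1 p.2 : Fin (m + 1) → ℝ) := by
    rw [boxIntegral_cons, Measure.volume_eq_prod, setIntegral_prod]
    rw [← Measure.volume_eq_prod]
    exact ((continuous_sineDet (m + 1)).comp hcons).continuousOn.integrableOn_compact hcompact
  have e2 : (t - s) * boxIntegral m a b = ∫ p in Icc s t ×ˢ Icc a b, sineDet m p.2 := by
    rw [Measure.volume_eq_prod, setIntegral_prod]
    · simp only [integral_const, smul_eq_mul]
      simp [boxIntegral, Measure.real, hst]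
    · rw [← Measure.volume_eq_prod]
      exact ((continuous_sineDet m).comp continuous_snd).continuousOn.integrableOn_compact hcompact
  rw [e1, e2, ← integral_sub]
  · have hint : IntegrableOn (fun p : ℝ × (Fin m → ℝ) => (m ! * (m + 1) : ℝ) *
        ∑ i, K (p.1 - (Fin.snoc p.2 (0 : ℝ) : Fin (m + 1) → ℝ) i) ^ 2)
        (Icc s t ×ˢ Icc a b) := by
      apply Continuous.continuousOn _ |>.integrableOn_compact hcompact
      apply continuous_const.mul
      apply continuous_finsetSum
      intro i _
      exact (continuous_K.comp (continuous_fst.sub ((hsnoc i).comp continuous_snd))).pow 2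
    have hint' : Integrable (fun p : ℝ × (Fin m → ℝ) => (m ! * (m + 1) : ℝ) *
        ∑ i, K (p.1 - (Fin.snoc p.2 (0 : ℝ) : Fin (m + 1) → ℝ) i) ^ 2)
        ((volume.restrict (Icc s t)).prod (volume.restrict (Icc a b))) := by
      rw [Measure.prod_restrict, ← Measure.volume_eq_prod]
      exact hint
    calc |∫ p in Icc s t ×ˢ Icc a b, (sineDet (m + 1) (Fin.cons p.1 p.2 : Fin (m + 1) → ℝ) -
          sineDet m p.2)| ≤ ∫ p in Icc s t ×ˢ Icc a b, (m ! * (m + 1) : ℝ) *
        ∑ i, K (p.1 - (Fin.snoc p.2 (0 : ℝ) : Fin (m + 1) → ℝ) i) ^ 2 := by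
          rw [← Real.norm_eq_abs]
          apply norm_integral_le_of_norm_le hint
          filter_upwards with p
          rw [Real.norm_eq_abs]
          exact abs_sineDet_cons_sub_le m p.2 p.1
      _ = ∫ u in Icc a b, ∫ v in Icc s t, (m ! * (m + 1) : ℝ) *
        ∑ i, K (v - (Fin.snoc u (0 : ℝ) : Fin (m + 1) → ℝ) i) ^ 2 := by
          rw [Measure.volume_eq_prod, ← Measure.prod_restrict, integral_prod_symm _ hint']
      _ ≤ ∫ u in Icc a b, (m ! * (m + 1) : ℝ) * ((m + 1) * (2 * π)) := by
          apply integral_mono_of_nonneg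
          · filter_upwards with u
            apply integral_nonneg
            intro v
            simp only [Pi.zero_apply]
            positivity
          · exact integrable_const_iff.2 (Or.inr ⟨by
              simpa using isCompact_Icc.measure_lt_top⟩)
          filter_upwards with u
          rw [integral_const_mul]
          gcongr
          rw [integral_finsetSum]
          · calc ∑ i : Fin (m + 1), ∫ v in Icc s t,
                K (v - (Fin.snoc u (0 : ℝ) : Fin (m + 1) → ℝ) i) ^ 2 ≤
                ∑ i : Fin (m + 1), 2 * π := Finset.sum_le_sum fun i _ => setIntegral_K_sq_le _ _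
              _ = (m + 1) * (2 * π) := by simp
          · intro i _
            exact (integrable_K_sq _).integrableOn
      _ = _ := by
          rw [setIntegral_const, smul_eq_mul, mul_comm]
          rfl
  · exact ((continuous_sineDet (m + 1)).comp hcons).continuousOn.integrableOn_compact hcompact
  · exact ((continuous_sineDet m).comp continuous_snd).continuousOn.integrableOn_compact hcompact

lemma const_eq_cons (m : ℕ) (t : ℝ) :
    (fun _ => t : Fin (m + 1) → ℝ) = (Fin.cons t (fun _ => t : Fin m → ℝ) : Fin (m + 1) → ℝ) := by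
  ext i
  refine Fin.cases ?_ (fun i => ?_) i
  · simp
  · simp

lemma boxVol_const (m : ℕ) {s t : ℝ} (hst : s ≤ t) :
    boxVol (fun _ => s : Fin m → ℝ) (fun _ => t) = (t - s) ^ m := by
  rw [boxVol, Real.volume_Icc_pi_toReal (fun _ => hst)]
  simp

lemma sineDet_zero (u : Fin 0 → ℝ) : sineDet 0 u = 1 := by
  rw [sineDet, Matrix.det_fin_one, sineMatrix_apply, sub_self, K_zero]

lemma boxIntegral_zero (a b : Fin 0 → ℝ) : boxIntegral 0 a b = 1 := by
  have h1 : boxIntegral 0 a b = ∫ u in Icc a b, (1 : ℝ) := by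
    apply setIntegral_congr_fun measurableSet_Icc
    intro u _
    exact sineDet_zero u
  rw [h1, setIntegral_const]
  have h2 : volume.real (Icc a b) = 1 := by
    have : a ≤ b := fun i => i.elim0
    rw [Measure.real, Real.volume_Icc_pi_toReal this]
    simp
  rw [h2]
  simp

/-- The integral over a cube is at most the volume up to a lower order term. -/
lemma exists_cube_bound (m : ℕ) : ∃ C : ℝ, 0 ≤ C ∧ ∀ t : ℝ, 1 ≤ t →
    boxIntegral (m + 1) (fun _ => 0) (fun _ => t) ≤ t ^ (m + 1) + C * t ^ m := by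
  induction m with
  | zero =>
    refine ⟨(0 ! * (0 + 1)) * ((0 + 1) * (2 * π)), by positivity, fun t ht => ?_⟩
    have h := (abs_le.1 (abs_boxIntegral_cons_sub_le 0 (fun _ => 0 : Fin 0 → ℝ) (fun _ => t)
      (show (0 : ℝ) ≤ t by linarith))).2
    rw [← const_eq_cons, ← const_eq_cons, boxIntegral_zero, boxVol_const 0 (by linarith)] at h
    simp only [pow_zero, sub_zero, mul_one] at h ⊢
    push_cast at h ⊢
    linarith
  | succ m ih =>
    obtain ⟨C, hC, h⟩ := ih
    refine ⟨C + ((m + 1) ! * ((m + 1 : ℕ) + 1)) * (((m + 1 : ℕ) + 1) * (2 * π)), by positivity,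
      fun t ht => ?_⟩
    have h1 := (abs_le.1 (abs_boxIntegral_cons_sub_le (m + 1) (fun _ => 0 : Fin (m + 1) → ℝ)
      (fun _ => t) (show (0 : ℝ) ≤ t by linarith))).2
    rw [← const_eq_cons, ← const_eq_cons, boxVol_const (m + 1) (by linarith)] at h1
    have h2 := h t ht
    have h3 : t * boxIntegral (m + 1) (fun _ => 0) (fun _ => t) ≤
      t * (t ^ (m + 1) + C * t ^ m) := by gcongr
    simp only [sub_zero] at h1
    have e : t * (t ^ (m + 1) + C * t ^ m) = t ^ (m + 1 + 1) + C * t ^ (m + 1) := by ring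
    rw [e] at h3
    rw [add_mul]
    linarith

end Pool.Agent.MP_67227b_nt
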