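import Pool.Agent.MP_67227b_nt.Comb

set_option autoImplicit false

open Filter MeasureTheory Topology Set
open scoped Real

namespace Pool.Agent.MP_67227b_nt

variable {J : Type*}

/-- The overlap of two windows of length `h`. -/
lemma volume_window_inter (u v h : ℝ) :
    (volume (Icc (u - h) u ∩ Icc (v - h) v)).toReal = max 0 (h - |u - v|) := by
  rw [Icc_inter_Icc, Real.volume_Icc]
  have e : min u v - max (u - h) (v - h) = h - |u - v| := by
    rcases le_total u v with huv | huv
    · rw [min_eq_left huv, max_eq_right (by linarith), abs_of_nonpos (by linarith)]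
      ring
    · rw [min_eq_right huv, max_eq_left (by linarith), abs_of_nonneg (by linarith)]
      ring
  rw [show u ⊓ v = min u v from rfl, show (u - h) ⊔ (v - h) = max (u - h) (v - h) from rfl, e]
  rw [ENNReal.toReal_ofReal', max_comm]

/-- Cauchy-Schwarz for the number of points in windows of length `h`. -/
lemma window_cs (P : Finset J) (γ : J → ℝ) {T h : ℝ} (hT : 0 < T) (hh : 0 < h)
    (hγ : ∀ j ∈ P, 0 < γ j ∧ γ j ≤ T) :
    ((P.card : ℝ) * h) ^ 2 / (T + h) ≤
      ∑ i ∈ P, ∑ j ∈ P, max 0 (h - |γ i - γ j|) := by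
  set I : J → Set ℝ := fun j => Icc (γ j - h) (γ j) with hI
  set W : Set ℝ := Icc (-h) T with hW
  set c : ℝ := (P.card : ℝ) * h / (T + h) with hc
  have hTh : 0 < T + h := by linarith
  have hIm : ∀ j, MeasurableSet (I j) := fun j => measurableSet_Icc
  have hIfin : ∀ j, volume (I j) ≠ ⊤ := fun j => isCompact_Icc.measure_lt_top.ne
  have hIW : ∀ j ∈ P, I j ⊆ W := by
    intro j hj y hy
    have := hγ j hj
    exact ⟨by linarith [hy.1], hy.2.trans this.2⟩
  have hint : ∀ s : Set ℝ, MeasurableSet s → volume s ≠ ⊤ →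
      Integrable (s.indicator (fun _ => (1 : ℝ))) := by
    intro s hs hs'
    rw [integrable_indicator_iff hs]
    exact integrableOn_const hs'
  have hfun : ∀ y, (∑ j ∈ P, (I j).indicator (fun _ => (1 : ℝ)) y -
      c * W.indicator (fun _ => (1 : ℝ)) y) ^ 2 =
      ∑ i ∈ P, ∑ j ∈ P, (I i ∩ I j).indicator (fun _ => (1 : ℝ)) y -
        2 * c * ∑ j ∈ P, (I j).indicator (fun _ => (1 : ℝ)) y +
        c ^ 2 * W.indicator (fun _ => (1 : ℝ)) y := by
    intro y
    have e1 : (∑ j ∈ P, (I j).indicator (fun _ => (1 : ℝ)) y) ^ 2 =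
        ∑ i ∈ P, ∑ j ∈ P, (I i ∩ I j).indicator (fun _ => (1 : ℝ)) y := by
      rw [sq, Finset.sum_mul_sum]
      apply Finset.sum_congr rfl
      intro i _
      apply Finset.sum_congr rfl
      intro j _
      by_cases h1 : y ∈ I i <;> by_cases h2 : y ∈ I j <;> simp [h1, h2]
    have e2 : (∑ j ∈ P, (I j).indicator (fun _ => (1 : ℝ)) y) * W.indicator (fun _ => (1 : ℝ)) y =
        ∑ j ∈ P, (I j).indicator (fun _ => (1 : ℝ)) y := by
      rw [Finset.sum_mul]
      apply Finset.sum_congr rfl
      intro j hj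
      by_cases h1 : y ∈ I j
      · have := hIW j hj h1
        simp [h1, this]
      · simp [h1]
    have e3 : W.indicator (fun _ => (1 : ℝ)) y ^ 2 = W.indicator (fun _ => (1 : ℝ)) y := by
      by_cases h1 : y ∈ W <;> simp [h1]
    rw [sub_sq, e1, mul_pow, e3]
    linear_combination (-2 * c) * e2
  have hnn : 0 ≤ ∫ y, (∑ j ∈ P, (I j).indicator (fun _ => (1 : ℝ)) y -
      c * W.indicator (fun _ => (1 : ℝ)) y) ^ 2 := integral_nonneg fun y => sq_nonneg _
  have hi1 : Integrable (fun y => ∑ i ∈ P, ∑ j ∈ P,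
      (I i ∩ I j).indicator (fun _ => (1 : ℝ)) y) := by
    apply integrable_finsetSum
    intro i _
    apply integrable_finsetSum
    intro j _
    exact hint _ ((hIm i).inter (hIm j))
      ((measure_mono inter_subset_left).trans_lt (hIfin i).lt_top).ne
  have hi2 : Integrable (fun y => ∑ j ∈ P, (I j).indicator (fun _ => (1 : ℝ)) y) := by
    apply integrable_finsetSum
    intro j _
    exact hint _ (hIm j) (hIfin j)
  have hi3 : Integrable (W.indicator (fun _ => (1 : ℝ))) :=
    hint _ measurableSet_Icc isCompact_Icc.measure_lt_top.ne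
  have hone : ∀ s : Set ℝ, MeasurableSet s →
      ∫ y, s.indicator (fun _ => (1 : ℝ)) y = (volume s).toReal := by
    intro s hs
    rw [integral_indicator hs, setIntegral_const, smul_eq_mul, mul_one]
    rfl
  have hcomp : ∫ y, (∑ j ∈ P, (I j).indicator (fun _ => (1 : ℝ)) y -
      c * W.indicator (fun _ => (1 : ℝ)) y) ^ 2 =
      ∑ i ∈ P, ∑ j ∈ P, max 0 (h - |γ i - γ j|) - 2 * c * ((P.card : ℝ) * h) +
        c ^ 2 * (T + h) := by
    simp_rw [hfun]
    have hi12 : Integrable (fun y => ∑ i ∈ P, ∑ j ∈ P,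
        (I i ∩ I j).indicator (fun _ => (1 : ℝ)) y -
        2 * c * ∑ j ∈ P, (I j).indicator (fun _ => (1 : ℝ)) y) := hi1.sub (hi2.const_mul (2 * c))
    rw [integral_add hi12 (hi3.const_mul _),
      integral_sub hi1 (hi2.const_mul _), integral_const_mul, integral_const_mul,
      integral_finsetSum, integral_finsetSum]
    · congr 1
      · congr 1
        · apply Finset.sum_congr rfl
          intro i _
          rw [integral_finsetSum]
          · apply Finset.sum_congr rfl
            intro j _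
            rw [hone _ ((hIm i).inter (hIm j))]
            exact volume_window_inter _ _ _
          · intro j _
            exact hint _ ((hIm i).inter (hIm j))
              ((measure_mono inter_subset_left).trans_lt (hIfin i).lt_top).ne
        · congr 1
          rw [Finset.sum_congr rfl (g := fun _ => h)]
          · simp
          · intro j _
            rw [hone _ (hIm j), Real.volume_Icc, ENNReal.toReal_ofReal (by linarith)]
            ring
      · rw [hone _ measurableSet_Icc, Real.volume_Icc, ENNReal.toReal_ofReal (by linarith)]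
        ring
    · intro j _
      exact hint _ (hIm j) (hIfin j)
    · intro i _
      apply integrable_finsetSum
      intro j _
      exact hint _ ((hIm i).inter (hIm j))
        ((measure_mono inter_subset_left).trans_lt (hIfin i).lt_top).ne
  rw [hcomp] at hnn
  have e4 : 2 * c * ((P.card : ℝ) * h) - c ^ 2 * (T + h) =
      ((P.card : ℝ) * h) ^ 2 / (T + h) := by
    rw [hc]
    field_simp
    ring
  linarith

/-- The triangle function is below its staircase. -/
lemma triangle_le_staircase {V : ℝ} (hV : 0 < V) {n : ℕ} (hn : 0 < n) (d : ℝ) :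
    max 0 (1 - |d| / V) ≤ (1 / (n : ℝ)) *
      ∑ l ∈ Finset.range n, (if |d| ≤ (l + 1) * V / n then (1 : ℝ) else 0) := by
  have hn' : (0 : ℝ) < n := by exact_mod_cast hn
  have hsum0 : 0 ≤ ∑ l ∈ Finset.range n, (if |d| ≤ (l + 1) * V / n then (1 : ℝ) else 0) :=
    Finset.sum_nonneg fun l _ => by split_ifs <;> norm_num
  rcases le_or_gt V |d| with h | h
  · have : 1 - |d| / V ≤ 0 := by
      rw [sub_nonpos, le_div_iff₀ hV]
      linarith
    rw [max_eq_left this]
    positivity
  · have hx0 : 0 ≤ n * |d| / V := by positivity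
    have hxn : n * |d| / V < n := by
      rw [div_lt_iff₀ hV]
      gcongr
    set k := ⌊n * |d| / V⌋₊ with hk
    have hk1 : (k : ℝ) ≤ n * |d| / V := Nat.floor_le hx0
    have hk2 : n * |d| / V < k + 1 := Nat.lt_floor_add_one _
    have hkn : k ≤ n := by
      have : (k : ℝ) < n := hk1.trans_lt hxn
      exact_mod_cast this.le
    -- all `l ≥ k` satisfy the condition
    have hcount : ((n : ℝ) - k) ≤
        ∑ l ∈ Finset.range n, (if |d| ≤ (l + 1) * V / n then (1 : ℝ) else 0) := by
      have hsub : Finset.Ico k n ⊆ Finset.range n := by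
        intro l hl
        rw [Finset.mem_Ico] at hl
        exact Finset.mem_range.2 hl.2
      calc ((n : ℝ) - k) = ∑ l ∈ Finset.Ico k n, (1 : ℝ) := by
            rw [Finset.sum_const, Nat.card_Ico, nsmul_eq_mul, mul_one, Nat.cast_sub hkn]
        _ ≤ ∑ l ∈ Finset.Ico k n, (if |d| ≤ (l + 1) * V / n then (1 : ℝ) else 0) := by
            apply Finset.sum_le_sum
            intro l hl
            rw [Finset.mem_Ico] at hl
            rw [if_pos]
            have hl' : (k : ℝ) ≤ l := by exact_mod_cast hl.1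
            rw [le_div_iff₀ hn']
            have h3 : n * |d| / V * V < (k + 1) * V := by gcongr
            rw [div_mul_cancel₀ _ hV.ne'] at h3
            have h4 : ((k : ℝ) + 1) * V ≤ (l + 1) * V := by gcongr
            linarith
        _ ≤ _ := by
            apply Finset.sum_le_sum_of_subset_of_nonneg hsub
            intro l _ _
            split_ifs <;> norm_num
    have h5 : 1 - |d| / V ≤ (1 / (n : ℝ)) * ((n : ℝ) - k) := by
      have e : (1 / (n : ℝ)) * ((n : ℝ) - k) = 1 - k / n := by field_simp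
      rw [e]
      have : (k : ℝ) / n ≤ |d| / V := by
        rw [div_le_div_iff₀ hn' hV]
        rw [le_div_iff₀ hV] at hk1
        linarith
      linarith
    apply max_le (by positivity)
    refine h5.trans ?_
    gcongr

/-- The windows inequality in terms of the local counts. -/
lemma window_Z (P : Finset J) (γ : J → ℝ) {T L V : ℝ} (hT : 0 < T) (hL : 0 < L) (hV : 0 < V)
    (hγ : ∀ j ∈ P, 0 < γ j ∧ γ j ≤ T) {n : ℕ} (hn : 0 < n) :
    (P.card : ℝ) ^ 2 * (V / L) / (T + V / L) - P.card ≤
      (1 / (n : ℝ)) * ∑ l ∈ Finset.range n, ∑ j ∈ P,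
        (Z P (fun i => γ i * L) j (-((l + 1) * V / n)) ((l + 1) * V / n) : ℝ) := by
  classical
  set h := V / L with hh
  have hh0 : 0 < h := by positivity
  have h1 := window_cs P γ hT hh0 hγ
  have hn' : (0 : ℝ) < n := by exact_mod_cast hn
  -- divide by h
  have h2 : (P.card : ℝ) ^ 2 * h / (T + h) ≤
      ∑ j ∈ P, ∑ i ∈ P, max 0 (1 - |γ i * L - γ j * L| / V) := by
    have e1 : ∑ i ∈ P, ∑ j ∈ P, max 0 (h - |γ i - γ j|) =
        h * ∑ j ∈ P, ∑ i ∈ P, max 0 (1 - |γ i * L - γ j * L| / V) := by
      rw [Finset.sum_comm, Finset.mul_sum]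
      apply Finset.sum_congr rfl
      intro j _
      rw [Finset.mul_sum]
      apply Finset.sum_congr rfl
      intro i _
      rw [mul_max_of_nonneg _ _ hh0.le, mul_zero]
      congr 1
      rw [← sub_mul, abs_mul, abs_of_pos hL, hh]
      field_simp
    rw [e1] at h1
    have e2 : ((P.card : ℝ) * h) ^ 2 / (T + h) = h * ((P.card : ℝ) ^ 2 * h / (T + h)) := by
      ring
    rw [e2] at h1
    exact le_of_mul_le_mul_left h1 hh0
  have h3 : ∀ j ∈ P, ∑ i ∈ P, max 0 (1 - |γ i * L - γ j * L| / V) ≤
      1 + (1 / (n : ℝ)) * ∑ l ∈ Finset.range n,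
        (Z P (fun i => γ i * L) j (-((l + 1) * V / n)) ((l + 1) * V / n) : ℝ) := by
    intro j hj
    rw [← Finset.add_sum_erase P _ hj]
    apply add_le_add
    · simp
    · calc ∑ i ∈ P.erase j, max 0 (1 - |γ i * L - γ j * L| / V) ≤
          ∑ i ∈ P.erase j, (1 / (n : ℝ)) * ∑ l ∈ Finset.range n,
            (if |γ i * L - γ j * L| ≤ (l + 1) * V / n then (1 : ℝ) else 0) :=
            Finset.sum_le_sum fun i _ => triangle_le_staircase hV hn _
        _ = (1 / (n : ℝ)) * ∑ l ∈ Finset.range n, ∑ i ∈ P.erase j,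
            (if |γ i * L - γ j * L| ≤ (l + 1) * V / n then (1 : ℝ) else 0) := by
            rw [← Finset.mul_sum, Finset.sum_comm]
        _ = _ := by
            congr 1
            apply Finset.sum_congr rfl
            intro l _
            rw [Z, near, Finset.sum_ite, Finset.sum_const_zero, add_zero, Finset.sum_const,
              nsmul_eq_mul, mul_one]
            congr 2
            ext i
            simp only [Finset.mem_filter, Finset.mem_erase, mem_Icc, abs_le]
            tauto
  calc (P.card : ℝ) ^ 2 * h / (T + h) - P.card ≤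
      ∑ j ∈ P, ∑ i ∈ P, max 0 (1 - |γ i * L - γ j * L| / V) - P.card := by linarith
    _ ≤ ∑ j ∈ P, (1 + (1 / (n : ℝ)) * ∑ l ∈ Finset.range n,
        (Z P (fun i => γ i * L) j (-((l + 1) * V / n)) ((l + 1) * V / n) : ℝ)) - P.card := by
        have := Finset.sum_le_sum h3
        linarith
    _ = _ := by
        rw [Finset.sum_add_distrib, ← Finset.mul_sum, Finset.sum_comm]
        simp

open Classical in
/-- Pairs with negative differences are as many as pairs with positive differences. -/
lemma sum_Z_neg (P : Finset J) (x : J → ℝ) (t : ℝ) :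
    ∑ j ∈ P, Z P x j (-t) 0 = ∑ j ∈ P, Z P x j 0 t := by
  classical
  have h1 : ∀ s t : ℝ, ∑ j ∈ P, Z P x j s t =
      ∑ j ∈ P, ∑ i ∈ P, if (i ≠ j ∧ x i - x j ∈ Icc s t) then 1 else 0 := by
    intro s t
    apply Finset.sum_congr rfl
    intro j _
    rw [Z, near, Finset.card_filter]
  rw [h1, h1, Finset.sum_comm]
  apply Finset.sum_congr rfl
  intro i _
  apply Finset.sum_congr rfl
  intro j _
  congr 1
  simp only [mem_Icc, eq_iff_iff]
  constructor
  · rintro ⟨h1, h2, h3⟩
    exact ⟨h1.symm, by linarith, by linarith⟩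
  · rintro ⟨h1, h2, h3⟩
    exact ⟨h1.symm, by linarith, by linarith⟩

lemma Z_le_add (P : Finset J) (x : J → ℝ) (j : J) (t : ℝ) :
    Z P x j (-t) t ≤ Z P x j (-t) 0 + Z P x j 0 t := by
  classical
  rw [Z, Z, Z]
  refine (Finset.card_le_card ?_).trans (Finset.card_union_le _ _)
  intro i hi
  rw [Finset.mem_union, mem_near, mem_near]
  rw [mem_near] at hi
  rcases le_total (x i - x j) 0 with h | h
  · exact Or.inl ⟨hi.1, hi.2.1, hi.2.2.1, h⟩
  · exact Or.inr ⟨hi.1, hi.2.1, h, hi.2.2.2⟩

lemma sum_Z_sym_le (P : Finset J) (x : J → ℝ) (t : ℝ) :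
    (∑ j ∈ P, (Z P x j (-t) t : ℝ)) ≤ 2 * ∑ j ∈ P, (Z P x j 0 t : ℝ) := by
  have h1 : ∑ j ∈ P, Z P x j (-t) t ≤ ∑ j ∈ P, Z P x j (-t) 0 + ∑ j ∈ P, Z P x j 0 t := by
    rw [← Finset.sum_add_distrib]
    exact Finset.sum_le_sum fun j _ => Z_le_add P x j t
  rw [sum_Z_neg] at h1
  have h2 : ((∑ j ∈ P, Z P x j (-t) t : ℕ) : ℝ) ≤
    ((∑ j ∈ P, Z P x j 0 t + ∑ j ∈ P, Z P x j 0 t : ℕ) : ℝ) := by exact_mod_cast h1
  push_cast at h2
  linarith

end Pool.Agent.MP_67227b_nt
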