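import Pool.Agent.MP_67227b_nt.Asymp
import Pool.Agent.MP_67227b_nt.Link
import Pool.Agent.MP_67227b_nt.Window
import Pool.Agent.MP_67227b_nt.Sine

set_option autoImplicit false

open Filter MeasureTheory Topology Set
open scoped Real

namespace Pool.Agent.MP_67227b_nt

/-- A family of positive ordinates with the counting function of the zeta zeros. -/
structure GoodFamily {J : Type*} (γ : J → ℝ) : Prop where
  fin : ∀ T : ℝ, {j | γ j ≤ T}.Finite
  pos : ∀ j, 0 < γ j
  count : Tendsto (fun T : ℝ => ({j | γ j ≤ T}.ncard : ℝ) / zeroScale T) atTop (𝓝 1)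

variable {J : Type*} {γ : J → ℝ}

/-- The points up to `T`. -/
noncomputable def PT (h : GoodFamily γ) (T : ℝ) : Finset J := (h.fin T).toFinset

/-- The rescaled points. -/
noncomputable def xT (γ : J → ℝ) (T : ℝ) : J → ℝ := fun i => γ i * (Real.log T / (2 * π))

/-- The average over the points up to `T`, with the normalisation of the problem. -/
noncomputable def Av (h : GoodFamily γ) (g : ℝ → J → ℝ) (T : ℝ) : ℝ :=
  (∑ j ∈ PT h T, g T j) / zeroScale T

lemma mem_PT (h : GoodFamily γ) (T : ℝ) (j : J) : j ∈ PT h T ↔ γ j ≤ T := by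
  simp [PT]

lemma zeroScale_pos {T : ℝ} (hT : 1 < T) : 0 < zeroScale T := by
  have : 0 < Real.log T := Real.log_pos hT
  have : 0 < T := by linarith
  unfold zeroScale
  positivity

lemma tendsto_zeroScale : Tendsto zeroScale atTop atTop := by
  have h1 : Tendsto (fun T : ℝ => T / (2 * π)) atTop atTop :=
    tendsto_id.atTop_div_const (by positivity)
  exact h1.atTop_mul_atTop₀ Real.tendsto_log_atTop

lemma Av_add (h : GoodFamily γ) (g g' : ℝ → J → ℝ) (T : ℝ) :
    Av h (fun T j => g T j + g' T j) T = Av h g T + Av h g' T := by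
  simp only [Av, Finset.sum_add_distrib, add_div]

lemma Av_const_mul (h : GoodFamily γ) (c : ℝ) (g : ℝ → J → ℝ) (T : ℝ) :
    Av h (fun T j => c * g T j) T = c * Av h g T := by
  simp only [Av, ← Finset.mul_sum, mul_div_assoc]

lemma Av_mono (h : GoodFamily γ) {g g' : ℝ → J → ℝ} {T : ℝ} (hT : 1 < T)
    (hg : ∀ j ∈ PT h T, g T j ≤ g' T j) : Av h g T ≤ Av h g' T := by
  have := zeroScale_pos hT
  unfold Av
  gcongr with j hj
  exact hg j hj

lemma Av_nonneg (h : GoodFamily γ) {g : ℝ → J → ℝ} {T : ℝ} (hT : 1 < T)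
    (hg : ∀ j ∈ PT h T, 0 ≤ g T j) : 0 ≤ Av h g T := by
  have := zeroScale_pos hT
  unfold Av
  exact div_nonneg (Finset.sum_nonneg hg) this.le

lemma card_PT (h : GoodFamily γ) (T : ℝ) : (PT h T).card = {j | γ j ≤ T}.ncard := by
  rw [PT, Set.ncard_eq_toFinset_card _ (h.fin T)]

lemma Av_one_eq (h : GoodFamily γ) (T : ℝ) : Av h (fun _ _ => 1) T =
    ({j | γ j ≤ T}.ncard : ℝ) / zeroScale T := by
  rw [Av, Finset.sum_const, nsmul_eq_mul, mul_one, card_PT]

lemma tendsto_Av_one (h : GoodFamily γ) : Tendsto (Av h (fun _ _ => 1)) atTop (𝓝 1) := by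
  have := h.count
  refine this.congr (fun T => ?_)
  rw [Av_one_eq]

lemma tendsto_Av_const (h : GoodFamily γ) (c : ℝ) :
    Tendsto (Av h (fun _ _ => c)) atTop (𝓝 c) := by
  have := (tendsto_Av_one h).const_mul c
  rw [mul_one] at this
  refine this.congr (fun T => ?_)
  rw [← Av_const_mul]
  simp

lemma tupleCount_div (h : GoodFamily γ) (m : ℕ) (T : ℝ) (a b : Fin m → ℝ) :
    (tupleCount γ m T a b : ℝ) / zeroScale T =
      Av h (fun T j => (R (PT h T) (xT γ T) m j a b : ℝ)) T := by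
  rw [tupleCount_eq γ m T a b (PT h T) (fun j => mem_PT h T j), Av]
  push_cast
  rfl

lemma Av_R_UB (h : GoodFamily γ) {m : ℕ} (hU : CorrelationUpper γ m) {a b : Fin m → ℝ}
    (hab : a ≤ b) :
    UB (Av h (fun T j => (R (PT h T) (xT γ T) m j a b : ℝ))) (boxIntegral m a b) := by
  intro ε hε
  filter_upwards [hU a b hab ε hε] with T hT
  rwa [tupleCount_div h] at hT

/-- The window inequality in the limit. -/
lemma window_LB (h : GoodFamily γ) {V : ℝ} (hV : 0 < V) {n : ℕ} (hn : 0 < n) :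
    LB (fun T => (1 / (n : ℝ)) * ∑ l ∈ Finset.range n,
      Av h (fun T j => (Z (PT h T) (xT γ T) j (-((l + 1) * V / n)) ((l + 1) * V / n) : ℝ)) T)
      (V - 1) := by
  have hlim : Tendsto (fun T : ℝ => (Av h (fun _ _ => 1) T) ^ 2 * (V / (1 + V / zeroScale T)) -
      Av h (fun _ _ => 1) T) atTop (𝓝 (1 ^ 2 * (V / (1 + 0)) - 1)) := by
    have h1 := tendsto_Av_one h
    have h2 : Tendsto (fun T : ℝ => V / (1 + V / zeroScale T)) atTop (𝓝 (V / (1 + 0))) := by
      apply Tendsto.div tendsto_const_nhds _ (by norm_num)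
      exact (tendsto_zeroScale.const_div_atTop V).const_add 1
    exact ((h1.pow 2).mul h2).sub h1
  have e0 : (1 : ℝ) ^ 2 * (V / (1 + 0)) - 1 = V - 1 := by ring
  rw [e0] at hlim
  refine (LB_of_tendsto hlim).mono ?_ le_rfl
  filter_upwards [eventually_gt_atTop (1 : ℝ)] with T hT
  have hT0 : 0 < T := by linarith
  have hL : 0 < Real.log T / (2 * π) := div_pos (Real.log_pos hT) (by positivity)
  have hM := zeroScale_pos hT
  have hML : zeroScale T = T * (Real.log T / (2 * π)) := by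
    unfold zeroScale; ring
  have h1 := window_Z (PT h T) γ hT0 hL hV (fun j hj => ⟨h.pos j, (mem_PT h T j).1 hj⟩) hn
  set L := Real.log T / (2 * π) with hLdef
  have e1 : (1 / (n : ℝ)) * ∑ l ∈ Finset.range n,
      Av h (fun T j => (Z (PT h T) (xT γ T) j (-((l + 1) * V / n)) ((l + 1) * V / n) : ℝ)) T =
      ((1 / (n : ℝ)) * ∑ l ∈ Finset.range n, ∑ j ∈ PT h T,
        (Z (PT h T) (fun i => γ i * L) j (-((l + 1) * V / n)) ((l + 1) * V / n) : ℝ)) /
        zeroScale T := by
    rw [mul_div_assoc, Finset.sum_div]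
    rfl
  rw [e1, le_div_iff₀ hM]
  refine le_trans (le_of_eq ?_) h1
  rw [Av, Finset.sum_const, nsmul_eq_mul, mul_one]
  have hz : T * L ≠ 0 := by positivity
  rw [hML]
  have hd : 1 + V / (T * L) = (T + V / L) / T := by
    field_simp
  rw [hd]
  have hTV : T + V / L ≠ 0 := by positivity
  field_simp

lemma window_LB' (h : GoodFamily γ) {V : ℝ} (hV : 0 < V) {n : ℕ} (hn : 0 < n) :
    LB (fun T => (2 / (n : ℝ)) * ∑ l ∈ Finset.range n,
      Av h (fun T j => (Z (PT h T) (xT γ T) j 0 ((l + 1) * V / n) : ℝ)) T)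
      (V - 1) := by
  refine (window_LB h hV hn).mono ?_ le_rfl
  filter_upwards [eventually_gt_atTop (1 : ℝ)] with T hT
  have hM := zeroScale_pos hT
  have e : ∀ S : ℝ, 2 / (n : ℝ) * S = 1 / (n : ℝ) * (2 * S) := fun S => by ring
  rw [e, Finset.mul_sum (a := (2 : ℝ))]
  gcongr with l hl
  unfold Av
  rw [← mul_div_assoc]
  gcongr
  exact sum_Z_sym_le _ _ _

end Pool.Agent.MP_67227b_nt
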