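import Pool.Agent.MP_67227b_nt.Repro

set_option autoImplicit false

open Filter MeasureTheory Topology Set
open scoped Real Nat

namespace Pool.Agent.MP_67227b_nt

section Block

variable {α β : Type*} [Fintype α] [DecidableEq α] [Fintype β] [DecidableEq β]

lemma abs_prod_le_two {ι : Type*} [Fintype ι] [DecidableEq ι] (f : ι → ℝ) (hf : ∀ i, |f i| ≤ 1)
    {x y : ι} (hxy : x ≠ y) : |∏ i, f i| ≤ |f x| * |f y| := by
  rw [Finset.abs_prod, ← Finset.mul_prod_erase _ _ (Finset.mem_univ x),
    ← Finset.mul_prod_erase (Finset.univ.erase x) _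
      (Finset.mem_erase.2 ⟨hxy.symm, Finset.mem_univ y⟩), ← mul_assoc]
  refine mul_le_of_le_one_right (by positivity) ?_
  exact Finset.prod_le_one (fun i _ => abs_nonneg _) (fun i _ => hf i)

/-- A block matrix with small off-diagonal blocks. -/
lemma abs_det_fromBlocks_sub_le (A : Matrix α α ℝ) (B : Matrix α β ℝ) (C : Matrix β α ℝ)
    (D : Matrix β β ℝ) (hA : ∀ i j, |A i j| ≤ 1) (hB : ∀ i j, |B i j| ≤ 1)
    (hC : ∀ i j, C j i = B i j) (hD : ∀ i j, |D i j| ≤ 1) :
    |(Matrix.fromBlocks A B C D).det - A.det * D.det| ≤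
      ((Fintype.card (α ⊕ β))! : ℝ) * ∑ i, ∑ j, B i j ^ 2 := by
  set S : ℝ := ∑ i, ∑ j, B i j ^ 2 with hS
  have hS0 : 0 ≤ S := by positivity
  have hle : ∀ i j, B i j ^ 2 ≤ S := by
    intro i j
    calc B i j ^ 2 ≤ ∑ j, B i j ^ 2 :=
          Finset.single_le_sum (f := fun j => B i j ^ 2) (fun j _ => sq_nonneg _)
            (Finset.mem_univ j)
      _ ≤ S := Finset.single_le_sum (f := fun i => ∑ j, B i j ^ 2)
            (fun i _ => Finset.sum_nonneg fun j _ => sq_nonneg _) (Finset.mem_univ i)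
  have hM1 : ∀ x y, |Matrix.fromBlocks A B C D x y| ≤ 1 := by
    rintro (i | i) (j | j)
    · simpa using hA i j
    · simpa using hB i j
    · simpa [hC] using hB j i
    · simpa using hD i j
  have e0 : A.det * D.det = (Matrix.fromBlocks A 0 0 D).det := by
    rw [Matrix.det_fromBlocks_zero₂₁]
  rw [e0, Matrix.det_apply', Matrix.det_apply', ← Finset.sum_sub_distrib]
  refine (Finset.abs_sum_le_sum_abs _ _).trans ?_
  have hterm : ∀ σ : Equiv.Perm (α ⊕ β),
      |((Equiv.Perm.sign σ : ℤ) : ℝ) * ∏ x, Matrix.fromBlocks A B C D (σ x) x -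
        ((Equiv.Perm.sign σ : ℤ) : ℝ) * ∏ x, Matrix.fromBlocks A 0 0 D (σ x) x| ≤ S := by
    intro σ
    rw [← mul_sub, abs_mul]
    have hsgn : |((Equiv.Perm.sign σ : ℤ) : ℝ)| = 1 := by
      rcases Int.units_eq_one_or (Equiv.Perm.sign σ) with h | h <;> simp [h]
    rw [hsgn, one_mul]
    by_cases hσ : Set.MapsTo σ (Set.range Sum.inl) (Set.range Sum.inl)
    · have hσ' := (Equiv.Perm.perm_mapsTo_inl_iff_mapsTo_inr σ).1 hσ
      have : ∏ x, Matrix.fromBlocks A B C D (σ x) x = ∏ x, Matrix.fromBlocks A 0 0 D (σ x) x := by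
        apply Finset.prod_congr rfl
        rintro (i | i) _
        · obtain ⟨k, hk⟩ := hσ ⟨i, rfl⟩
          rw [← hk]
          simp
        · obtain ⟨k, hk⟩ := hσ' ⟨i, rfl⟩
          rw [← hk]
          simp
      rw [this, sub_self, abs_zero]
      exact hS0
    · have hσ' : ¬ Set.MapsTo σ (Set.range Sum.inr) (Set.range Sum.inr) := fun h =>
        hσ ((Equiv.Perm.perm_mapsTo_inl_iff_mapsTo_inr σ).2 h)
      obtain ⟨a, b, hab⟩ : ∃ a b, σ (Sum.inl a) = Sum.inr b := by
        by_contra hcon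
        push Not at hcon
        apply hσ
        rintro _ ⟨a, rfl⟩
        rcases h : σ (Sum.inl a) with k | k
        · exact ⟨k, rfl⟩
        · exact absurd h (hcon a k)
      obtain ⟨b', a', hab'⟩ : ∃ b' a', σ (Sum.inr b') = Sum.inl a' := by
        by_contra hcon
        push Not at hcon
        apply hσ'
        rintro _ ⟨b, rfl⟩
        rcases h : σ (Sum.inr b) with k | k
        · exact absurd h (hcon b k)
        · exact ⟨k, rfl⟩
      have hz : ∏ x, Matrix.fromBlocks A (0 : Matrix α β ℝ) (0 : Matrix β α ℝ) D (σ x) x = 0 := by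
        apply Finset.prod_eq_zero (Finset.mem_univ (Sum.inl a))
        rw [hab]
        simp
      rw [hz, sub_zero]
      have h1 := abs_prod_le_two (fun x => Matrix.fromBlocks A B C D (σ x) x)
        (fun x => hM1 _ _) (x := Sum.inl a) (y := Sum.inr b') (by simp)
      simp only [hab, hab', Matrix.fromBlocks_apply₂₁, Matrix.fromBlocks_apply₁₂, hC] at h1
      have h2 := hle a b
      have h3 := hle a' b'
      have h4 : |B a b| * |B a' b'| ≤ (B a b ^ 2 + B a' b' ^ 2) / 2 := by
        nlinarith [sq_nonneg (|B a b| - |B a' b'|), sq_abs (B a b), sq_abs (B a' b')]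
      linarith
  calc ∑ σ : Equiv.Perm (α ⊕ β),
      |((Equiv.Perm.sign σ : ℤ) : ℝ) * ∏ x, Matrix.fromBlocks A B C D (σ x) x -
        ((Equiv.Perm.sign σ : ℤ) : ℝ) * ∏ x, Matrix.fromBlocks A 0 0 D (σ x) x| ≤
        ∑ σ : Equiv.Perm (α ⊕ β), S := Finset.sum_le_sum fun σ _ => hterm σ
    _ = _ := by
      rw [Finset.sum_const, Finset.card_univ, Fintype.card_perm, nsmul_eq_mul]

end Block

/-- The sine matrix only depends on the differences. -/
lemma sineMatrix_add {k : ℕ} (u : Fin k → ℝ) (c : ℝ) :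
    sineMatrix (fun i => u i + c) = sineMatrix u := by
  ext i j
  simp only [sineMatrix_apply]
  congr 1
  ring

lemma abs_sineMatrix_det_le {k : ℕ} (u : Fin k → ℝ) : |(sineMatrix u).det| ≤ k ! := by
  have h := Matrix.det_le (A := sineMatrix u) (abv := AbsoluteValue.abs) (x := 1) (fun i j => by
    simp only [AbsoluteValue.abs_apply]
    exact abs_K_le_one _)
  simpa using h

lemma abs_sineDet_le (m : ℕ) (u : Fin m → ℝ) : |sineDet m u| ≤ (m + 1) ! :=
  abs_sineMatrix_det_le _

/-- The bordered determinant. -/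
lemma det_cons_eq (m : ℕ) (w : Fin (m + 1) → ℝ) (v : ℝ) :
    (sineMatrix (Fin.cons v w : Fin (m + 2) → ℝ)).det = (sineMatrix w).det -
      ∑ i, ∑ l, (sineMatrix w).adjugate i l * (K (v - w i) * K (v - w l)) := by
  set M := sineMatrix (Fin.cons v w : Fin (m + 2) → ℝ) with hM
  rw [Matrix.det_succ_row_zero, Fin.sum_univ_succ]
  have h0 : (-1 : ℝ) ^ ((0 : Fin (m + 2)) : ℕ) * M 0 0 *
      (M.submatrix Fin.succ (Fin.succAbove 0)).det = (sineMatrix w).det := by
    have h1 : M 0 0 = 1 := by
      rw [hM, sineMatrix_apply, sub_self, K_zero]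
    have h2 : M.submatrix Fin.succ (Fin.succAbove 0) = sineMatrix w := by
      ext i j
      simp [hM, sineMatrix_apply]
    rw [h1, h2]
    simp
  rw [h0]
  have hrow : ∀ i : Fin (m + 1), M 0 i.succ = K (v - w i) := by
    intro i
    rw [hM, sineMatrix_apply]
    simp
  have hcol : ∀ i : Fin (m + 1), M i.succ 0 = K (v - w i) := by
    intro i
    rw [hM, sineMatrix_apply, ← K_neg]
    simp
  have hminor : ∀ i : Fin (m + 1), (M.submatrix Fin.succ (Fin.succAbove i.succ)).det =
      ∑ l : Fin (m + 1), (-1) ^ (l : ℕ) * K (v - w l) *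
        ((sineMatrix w).submatrix l.succAbove i.succAbove).det := by
    intro i
    rw [Matrix.det_succ_column_zero]
    apply Finset.sum_congr rfl
    intro l _
    have h3 : (M.submatrix Fin.succ (Fin.succAbove i.succ)) l 0 = K (v - w l) := by
      simp only [Matrix.submatrix_apply]
      rw [Fin.succAbove_of_castSucc_lt i.succ 0 (by simp)]
      exact hcol l
    rw [h3]
    congr 2
    ext a b
    simp only [Matrix.submatrix_apply, hM, sineMatrix_apply, Fin.cons_succ]
    rw [Fin.succ_succAbove_succ]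
    simp
  rw [sub_eq_add_neg, ← Finset.sum_neg_distrib]
  congr 1
  apply Finset.sum_congr rfl
  intro i _
  rw [hrow, hminor, Finset.mul_sum, ← Finset.sum_neg_distrib]
  apply Finset.sum_congr rfl
  intro l _
  rw [Matrix.adjugate_fin_succ_eq_det_submatrix, pow_add]
  have e : (-1 : ℝ) ^ ((i.succ : Fin (m + 2)) : ℕ) = - (-1) ^ (i : ℕ) := by
    rw [Fin.val_succ, pow_succ]
    ring
  rw [e]
  ring

/-- The deficit created by one more point. -/
noncomputable def defect (m : ℕ) (w : Fin (m + 1) → ℝ) (v : ℝ) : ℝ :=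
  (sineMatrix w).det - (sineMatrix (Fin.cons v w : Fin (m + 2) → ℝ)).det

lemma defect_eq (m : ℕ) (w : Fin (m + 1) → ℝ) (v : ℝ) : defect m w v =
    ∑ i, ∑ l, (sineMatrix w).adjugate i l * (K (v - w i) * K (v - w l)) := by
  rw [defect, det_cons_eq]
  ring

lemma integrable_defect (m : ℕ) (w : Fin (m + 1) → ℝ) : Integrable (defect m w) := by
  have : defect m w = fun v => ∑ i, ∑ l,
      (sineMatrix w).adjugate i l * (K (v - w i) * K (v - w l)) := by
    ext v
    exact defect_eq m w v
  rw [this]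
  exact integrable_finsetSum _ fun i _ => integrable_finsetSum _ fun l _ =>
    (integrable_K_mul_K _ _).const_mul _

/-- The total deficit is the number of points. -/
theorem integral_defect (m : ℕ) (w : Fin (m + 1) → ℝ) :
    ∫ v, defect m w v = (m + 1) * (sineMatrix w).det := by
  simp_rw [defect_eq]
  have hint : ∀ i l : Fin (m + 1), Integrable (fun v => (sineMatrix w).adjugate i l *
      (K (v - w i) * K (v - w l))) := fun i l => (integrable_K_mul_K _ _).const_mul _
  rw [integral_finsetSum]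
  swap
  · intro i _
    exact integrable_finsetSum _ fun l _ => hint i l
  have h1 : ∀ i : Fin (m + 1), ∫ v, ∑ l, (sineMatrix w).adjugate i l *
      (K (v - w i) * K (v - w l)) = (sineMatrix w).det := by
    intro i
    rw [integral_finsetSum _ fun l _ => hint i l]
    have h2 : ∀ l, ∫ v, (sineMatrix w).adjugate i l * (K (v - w i) * K (v - w l)) =
        (sineMatrix w).adjugate i l * sineMatrix w l i := by
      intro l
      rw [integral_const_mul, integral_K_mul_K, sineMatrix_apply, ← K_neg]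
      congr 2
      ring
    simp_rw [h2]
    have h3 := congrFun (congrFun (Matrix.adjugate_mul (sineMatrix w)) i) i
    rw [Matrix.mul_apply] at h3
    rw [h3]
    simp
  simp_rw [h1]
  simp

end Pool.Agent.MP_67227b_nt
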