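import Pool.Agent.MP_67227b_nt.Defs

set_option autoImplicit false

open Filter MeasureTheory Topology Finset
open scoped Real

namespace Pool.Agent.MP_67227b_nt

variable {J : Type*}

open Classical in
/-- Injective `m`-tuples of points of `P`, different from `j`, with `x`-differences to `j` in the
box. -/
noncomputable def localTuples (P : Finset J) (x : J → ℝ) (m : ℕ) (j : J) (a b : Fin m → ℝ) :
    Finset (Fin m → J) :=
  (Fintype.piFinset fun _ => P).filter (fun i => Function.Injective i ∧ (∀ l, i l ≠ j) ∧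
    ∀ l, x (i l) - x j ∈ Set.Icc (a l) (b l))

/-- The number of local tuples. -/
noncomputable def R (P : Finset J) (x : J → ℝ) (m : ℕ) (j : J) (a b : Fin m → ℝ) : ℕ :=
  (localTuples P x m j a b).card

open Classical in
/-- points of `P` different from `j` with difference in `[s,t]` -/
noncomputable def near (P : Finset J) (x : J → ℝ) (j : J) (s t : ℝ) : Finset J :=
  P.filter (fun i => i ≠ j ∧ x i - x j ∈ Set.Icc s t)

/-- The number of points near `j`. -/
noncomputable def Z (P : Finset J) (x : J → ℝ) (j : J) (s t : ℝ) : ℕ := (near P x j s t).card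

lemma mem_localTuples {P : Finset J} {x : J → ℝ} {m : ℕ} {j : J} {a b : Fin m → ℝ}
    {i : Fin m → J} : i ∈ localTuples P x m j a b ↔
      (∀ l, i l ∈ P) ∧ Function.Injective i ∧ (∀ l, i l ≠ j) ∧
        ∀ l, x (i l) - x j ∈ Set.Icc (a l) (b l) := by
  simp [localTuples, Fintype.mem_piFinset]

lemma mem_near {P : Finset J} {x : J → ℝ} {j i : J} {s t : ℝ} :
    i ∈ near P x j s t ↔ i ∈ P ∧ i ≠ j ∧ x i - x j ∈ Set.Icc s t := by
  simp [near]

lemma R_mono {P : Finset J} {x : J → ℝ} {m : ℕ} {j : J} {a b a' b' : Fin m → ℝ}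
    (ha : a' ≤ a) (hb : b ≤ b') : R P x m j a b ≤ R P x m j a' b' := by
  apply card_le_card
  intro i hi
  rw [mem_localTuples] at hi ⊢
  exact ⟨hi.1, hi.2.1, hi.2.2.1, fun l => ⟨(ha l).trans (hi.2.2.2 l).1, (hi.2.2.2 l).2.trans (hb l)⟩⟩

lemma Z_mono {P : Finset J} {x : J → ℝ} {j : J} {s t s' t' : ℝ}
    (hs : s' ≤ s) (ht : t ≤ t') : Z P x j s t ≤ Z P x j s' t' := by
  apply card_le_card
  intro i hi
  rw [mem_near] at hi ⊢
  exact ⟨hi.1, hi.2.1, hs.trans hi.2.2.1, hi.2.2.2.trans ht⟩

/-- For a constant box the number of local tuples is a falling factorial. -/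
lemma R_const (P : Finset J) (x : J → ℝ) (m : ℕ) (j : J) (s t : ℝ) :
    R P x m j (fun _ => s) (fun _ => t) = (Z P x j s t).descFactorial m := by
  classical
  have h1 : Fintype.card (Fin m ↪ (near P x j s t : Set J)) = (Z P x j s t).descFactorial m := by
    rw [Fintype.card_embedding_eq]
    simp [Z]
  rw [← h1, R]
  symm
  rw [← Fintype.card_coe]
  apply Fintype.card_congr
  refine ⟨fun f => ⟨fun l => (f l : J), ?_⟩, fun g => ⟨fun l => ⟨g.1 l, ?_⟩, ?_⟩, ?_, ?_⟩
  · rw [mem_localTuples]
    have h2 : ∀ l, (f l : J) ∈ near P x j s t := fun l => by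
      have := (f l).2
      simp
    refine ⟨fun l => (mem_near.1 (h2 l)).1, ?_, fun l => (mem_near.1 (h2 l)).2.1,
      fun l => (mem_near.1 (h2 l)).2.2⟩
    intro l l' h
    exact f.injective (Subtype.ext h)
  · have := mem_localTuples.1 g.2
    simp only [SetLike.mem_coe]
    exact mem_near.2 ⟨this.1 l, this.2.2.1 l, this.2.2.2 l⟩
  · intro l l' h
    have := mem_localTuples.1 g.2
    apply this.2.1
    simpa using h
  · intro f
    ext l
    rfl
  · intro g
    rfl

lemma R_one (P : Finset J) (x : J → ℝ) (j : J) (a b : Fin 1 → ℝ) :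
    R P x 1 j a b = Z P x j (a 0) (b 0) := by
  have ha : a = fun _ => a 0 := by ext i; rw [Subsingleton.elim i 0]
  have hb : b = fun _ => b 0 := by ext i; rw [Subsingleton.elim i 0]
  rw [ha, hb, R_const]
  simp

open Classical in
/-- Adding one variable in front. -/
lemma R_cons (P : Finset J) (x : J → ℝ) (m : ℕ) (j : J) (a b : Fin m → ℝ) (s t : ℝ) :
    R P x (m + 1) j (Fin.cons s a : Fin (m + 1) → ℝ) (Fin.cons t b : Fin (m + 1) → ℝ) =
      ∑ i ∈ localTuples P x m j a b,
        ((near P x j s t).filter (fun i0 => ∀ l, i0 ≠ i l)).card := by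
  classical
  rw [R, card_eq_sum_card_fiberwise (f := fun i : Fin (m + 1) → J => Fin.tail i)
    (t := localTuples P x m j a b)]
  · apply sum_congr rfl
    intro i hi
    rw [mem_localTuples] at hi
    apply card_bij (fun (f : Fin (m + 1) → J) _ => f 0)
    · intro f hf
      rw [mem_filter, mem_localTuples] at hf
      obtain ⟨⟨h1, h2, h3, h4⟩, h5⟩ := hf
      rw [mem_filter, mem_near]
      refine ⟨⟨h1 0, h3 0, by simpa using h4 0⟩, ?_⟩
      intro l h
      have h6 : i l = f l.succ := by
        rw [← h5]; rfl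
      rw [h6] at h
      exact absurd (h2 h) (Fin.succ_ne_zero l).symm
    · intro f hf g hg h
      rw [mem_filter] at hf hg
      have h5 : Fin.tail f = Fin.tail g := hf.2.trans hg.2.symm
      rw [← Fin.cons_self_tail f, ← Fin.cons_self_tail g, h5, h]
    · intro i0 hi0
      rw [mem_filter, mem_near] at hi0
      refine ⟨(Fin.cons i0 i : Fin (m + 1) → J), ?_, by simp⟩
      rw [mem_filter, mem_localTuples]
      refine ⟨⟨?_, ?_, ?_, ?_⟩, by simp⟩
      · intro l
        refine Fin.cases ?_ (fun l => ?_) l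
        · simpa using hi0.1.1
        · simpa using hi.1 l
      · rw [Fin.cons_injective_iff]
        refine ⟨?_, hi.2.1⟩
        rintro ⟨l, hl⟩
        exact hi0.2 l hl.symm
      · intro l
        refine Fin.cases ?_ (fun l => ?_) l
        · simpa using hi0.1.2.1
        · simpa using hi.2.2.1 l
      · intro l
        refine Fin.cases ?_ (fun l => ?_) l
        · simpa using hi0.1.2.2
        · simpa using hi.2.2.2 l
  · intro f hf
    simp only [SetLike.mem_coe] at hf ⊢
    rw [mem_localTuples] at hf ⊢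
    obtain ⟨h1, h2, h3, h4⟩ := hf
    refine ⟨fun l => h1 l.succ, ?_, fun l => h3 l.succ, fun l => ?_⟩
    · intro l l' h
      exact Fin.succ_injective _ (h2 h)
    · simpa [Fin.tail] using h4 l.succ

/-- Comparison of `R` on a product box with `R * Z`. -/
lemma R_cons_le (P : Finset J) (x : J → ℝ) (m : ℕ) (j : J) (a b : Fin m → ℝ) (s t : ℝ) :
    R P x (m + 1) j (Fin.cons s a : Fin (m + 1) → ℝ) (Fin.cons t b : Fin (m + 1) → ℝ) ≤
      R P x m j a b * Z P x j s t := by
  classical
  rw [R_cons]
  calc _ ≤ ∑ i ∈ localTuples P x m j a b, Z P x j s t :=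
        sum_le_sum fun i _ => card_le_card (filter_subset _ _)
    _ = _ := by rw [sum_const, smul_eq_mul, R]

lemma le_R_cons (P : Finset J) (x : J → ℝ) (m : ℕ) (j : J) (a b : Fin m → ℝ) (s t : ℝ) :
    R P x m j a b * Z P x j s t ≤
    R P x (m + 1) j (Fin.cons s a : Fin (m + 1) → ℝ) (Fin.cons t b : Fin (m + 1) → ℝ) +
      R P x m j a b * m := by
  classical
  rw [R_cons]
  have h1 : ∀ i ∈ localTuples P x m j a b, Z P x j s t ≤
      ((near P x j s t).filter (fun i0 => ∀ l, i0 ≠ i l)).card + m := by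
    intro i _
    have h2 : (near P x j s t) ⊆ ((near P x j s t).filter (fun i0 => ∀ l, i0 ≠ i l)) ∪
        (univ.image i) := by
      intro i0 hi0
      rw [mem_union, mem_filter]
      by_cases h : ∀ l, i0 ≠ i l
      · exact Or.inl ⟨hi0, h⟩
      · push Not at h
        obtain ⟨l, hl⟩ := h
        exact Or.inr (mem_image.2 ⟨l, mem_univ _, hl.symm⟩)
    calc Z P x j s t ≤ _ := card_le_card h2
      _ ≤ _ := card_union_le _ _
      _ ≤ _ := by
        gcongr
        exact card_image_le.trans (by simp)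
  calc R P x m j a b * Z P x j s t = ∑ i ∈ localTuples P x m j a b, Z P x j s t := by
        rw [sum_const, smul_eq_mul, R]
    _ ≤ ∑ i ∈ localTuples P x m j a b,
        (((near P x j s t).filter (fun i0 => ∀ l, i0 ≠ i l)).card + m) := sum_le_sum h1
    _ = _ := by rw [sum_add_distrib, sum_const, smul_eq_mul, R]

/-- If the interval contains all the other intervals, the comparison is exact. -/
lemma R_cons_eq (P : Finset J) (x : J → ℝ) (m : ℕ) (j : J) (a b : Fin m → ℝ) (s t : ℝ)
    (hs : ∀ l, s ≤ a l) (ht : ∀ l, b l ≤ t) :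
    R P x (m + 1) j (Fin.cons s a : Fin (m + 1) → ℝ) (Fin.cons t b : Fin (m + 1) → ℝ) +
      R P x m j a b * m = R P x m j a b * Z P x j s t := by
  classical
  rw [R_cons]
  have h1 : ∀ i ∈ localTuples P x m j a b, Z P x j s t =
      ((near P x j s t).filter (fun i0 => ∀ l, i0 ≠ i l)).card + m := by
    intro i hi
    rw [mem_localTuples] at hi
    have h3 : (univ.image i) ⊆ near P x j s t := by
      intro i0 hi0
      obtain ⟨l, _, rfl⟩ := mem_image.1 hi0
      exact mem_near.2 ⟨hi.1 l, hi.2.2.1 l, (hs l).trans (hi.2.2.2 l).1,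
        (hi.2.2.2 l).2.trans (ht l)⟩
    have h2 : ((near P x j s t).filter (fun i0 => ∀ l, i0 ≠ i l)) =
        (near P x j s t) \ (univ.image i) := by
      ext i0
      rw [Finset.mem_sdiff, Finset.mem_filter]
      constructor
      · rintro ⟨h, h'⟩
        refine ⟨h, fun hl => ?_⟩
        obtain ⟨l, _, hl⟩ := Finset.mem_image.1 hl
        exact h' l hl.symm
      · rintro ⟨h, h'⟩
        exact ⟨h, fun l hl => h' (Finset.mem_image.2 ⟨l, Finset.mem_univ _, hl.symm⟩)⟩
    have h4 : (univ.image i).card = m := by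
      rw [card_image_of_injective _ hi.2.1]
      simp
    rw [h2, card_sdiff_of_subset h3, h4, Z]
    have := card_le_card h3
    omega
  calc _ = ∑ i ∈ localTuples P x m j a b,
        (((near P x j s t).filter (fun i0 => ∀ l, i0 ≠ i l)).card + m) := by
        rw [sum_add_distrib, sum_const, smul_eq_mul, R]
    _ = ∑ i ∈ localTuples P x m j a b, Z P x j s t := by
        apply sum_congr rfl
        intro i hi
        rw [← h1 i hi]
    _ = _ := by rw [sum_const, smul_eq_mul, R]

end Pool.Agent.MP_67227b_nt
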