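import Pool.Agent.MP_67227b_nt.Cap35
import Pool.Agent.MP_67227b_nt.Comb

set_option autoImplicit false

open Filter MeasureTheory Topology Set
open scoped Real Nat

namespace Pool.Agent.MP_67227b_nt

lemma continuous_cons {n : ℕ} : Continuous (fun p : ℝ × (Fin n → ℝ) =>
    (Fin.cons p.1 p.2 : Fin (n + 1) → ℝ)) := by
  rw [continuous_pi_iff]
  intro i
  refine Fin.cases ?_ (fun i => ?_) i
  · simpa using continuous_fst
  · simpa [Function.comp_def] using (continuous_apply i).comp continuous_snd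

/-- Fubini on a box. -/
lemma integral_box_cons (n : ℕ) (a b : Fin n → ℝ) (s t : ℝ) (f : (Fin (n + 1) → ℝ) → ℝ)
    (hf : Continuous f) :
    ∫ u in Icc (Fin.cons s a : Fin (n + 1) → ℝ) (Fin.cons t b), f u =
      ∫ v in Icc s t, ∫ u in Icc a b, f (Fin.cons v u) := by
  set e := MeasurableEquiv.piFinSuccAbove (fun _ : Fin (n + 1) => ℝ) 0 with he
  have hem : MeasurePreserving e.symm :=
    (volume_preserving_piFinSuccAbove (fun _ : Fin (n + 1) => ℝ) 0).symm _
  have hsymm : ∀ p : ℝ × (Fin n → ℝ), e.symm p = (Fin.cons p.1 p.2 : Fin (n + 1) → ℝ) := by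
    intro p
    simp [he, MeasurableEquiv.piFinSuccAbove, Fin.insertNthEquiv]
  have hpre : e.symm ⁻¹' (Icc (Fin.cons s a : Fin (n + 1) → ℝ) (Fin.cons t b : Fin (n + 1) → ℝ)) =
      Icc s t ×ˢ Icc a b := by
    ext p
    simp only [mem_preimage, hsymm, mem_Icc, Fin.cons_le_cons, mem_prod]
    tauto
  rw [← hem.map_eq, setIntegral_map_equiv, hpre, Measure.volume_eq_prod, setIntegral_prod]
  · simp_rw [hsymm]
  · have hc : Continuous (fun p : ℝ × (Fin n → ℝ) => f (e.symm p)) := by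
      simp_rw [hsymm]
      exact hf.comp continuous_cons
    rw [← Measure.volume_eq_prod]
    exact hc.continuousOn.integrableOn_compact (isCompact_Icc.prod isCompact_Icc)

/-- Exchange of integrals over compact sets. -/
lemma swap_RE {n : ℕ} {A : Set ℝ} {B : Set (Fin n → ℝ)} (hA : IsCompact A) (hB : IsCompact B)
    (f : ℝ × (Fin n → ℝ) → ℝ) (hf : Continuous f) :
    ∫ x in A, ∫ y in B, f (x, y) = ∫ y in B, ∫ x in A, f (x, y) := by
  apply integral_integral_swap (f := fun x y => f (x, y))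
  rw [Measure.prod_restrict]
  have : IntegrableOn f (A ×ˢ B) volume := hf.continuousOn.integrableOn_compact (hA.prod hB)
  exact this

lemma swap_RR {A B : Set ℝ} (hA : IsCompact A) (hB : IsCompact B)
    (f : ℝ × ℝ → ℝ) (hf : Continuous f) :
    ∫ x in A, ∫ y in B, f (x, y) = ∫ y in B, ∫ x in A, f (x, y) := by
  apply integral_integral_swap (f := fun x y => f (x, y))
  rw [Measure.prod_restrict]
  have : IntegrableOn f (A ×ˢ B) volume := hf.continuousOn.integrableOn_compact (hA.prod hB)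
  exact this

lemma continuous_param {X : Type*} [TopologicalSpace X] [FirstCountableTopology X]
    [LocallyCompactSpace X] (f : X × ℝ → ℝ) (hf : Continuous f) {A : Set ℝ} (hA : IsCompact A) :
    Continuous fun x => ∫ v in A, f (x, v) :=
  continuous_parametric_integral_of_continuous (f := fun x v => f (x, v)) hf hA

lemma continuous_param_box {n : ℕ} (f : ℝ × (Fin n → ℝ) → ℝ) (hf : Continuous f)
    {B : Set (Fin n → ℝ)} (hB : IsCompact B) :
    Continuous fun x => ∫ u in B, f (x, u) :=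
  continuous_parametric_integral_of_continuous (f := fun x v => f (x, v)) hf hB

lemma box_cons_swap (n : ℕ) (a b : Fin n → ℝ) (s t : ℝ) (f : (Fin (n + 1) → ℝ) → ℝ)
    (hf : Continuous f) :
    ∫ u in Icc (Fin.cons s a : Fin (n + 1) → ℝ) (Fin.cons t b), f u =
      ∫ u in Icc a b, ∫ v in Icc s t, f (Fin.cons v u) := by
  rw [integral_box_cons n a b s t f hf]
  exact swap_RE isCompact_Icc isCompact_Icc (fun p => f (Fin.cons p.1 p.2))
    (hf.comp continuous_cons)

lemma continuous_cons_snd {n : ℕ} (v : ℝ) : Continuous fun u : Fin n → ℝ =>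
    (Fin.cons v u : Fin (n + 1) → ℝ) :=
  continuous_cons.comp (by fun_prop : Continuous fun u : Fin n → ℝ => (v, u))

lemma continuous_cons_fst {n : ℕ} (u : Fin n → ℝ) : Continuous fun v : ℝ =>
    (Fin.cons v u : Fin (n + 1) → ℝ) :=
  continuous_cons.comp (by fun_prop : Continuous fun v : ℝ => (v, u))

lemma continuous_cons2 {n : ℕ} : Continuous fun p : (ℝ × (Fin n → ℝ)) × ℝ =>
    (Fin.cons p.1.1 (Fin.cons p.2 p.1.2 : Fin (n + 1) → ℝ) : Fin (n + 2) → ℝ) := by
  have h1 : Continuous fun p : (ℝ × (Fin n → ℝ)) × ℝ => (Fin.cons p.2 p.1.2 : Fin (n + 1) → ℝ) :=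
    continuous_cons.comp (by fun_prop : Continuous fun p : (ℝ × (Fin n → ℝ)) × ℝ => (p.2, p.1.2))
  exact continuous_cons.comp (by fun_prop : Continuous fun p : (ℝ × (Fin n → ℝ)) × ℝ =>
    (p.1.1, (Fin.cons p.2 p.1.2 : Fin (n + 1) → ℝ)))

lemma box_cons2 (n : ℕ) (a b : Fin n → ℝ) (s t s' t' : ℝ) (f : (Fin (n + 2) → ℝ) → ℝ)
    (hf : Continuous f) :
    ∫ u in Icc (Fin.cons s (Fin.cons s' a : Fin (n + 1) → ℝ) : Fin (n + 2) → ℝ)
      (Fin.cons t (Fin.cons t' b : Fin (n + 1) → ℝ)), f u =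
      ∫ u in Icc a b, ∫ v' in Icc s' t', ∫ v in Icc s t,
        f (Fin.cons v (Fin.cons v' u : Fin (n + 1) → ℝ)) := by
  rw [integral_box_cons (n + 1) _ _ s t f hf]
  have h1 : ∀ v : ℝ, ∫ u in Icc (Fin.cons s' a : Fin (n + 1) → ℝ) (Fin.cons t' b),
      f (Fin.cons v u) = ∫ u in Icc a b, ∫ v' in Icc s' t',
        f (Fin.cons v (Fin.cons v' u : Fin (n + 1) → ℝ)) := fun v =>
    box_cons_swap n a b s' t' (fun u => f (Fin.cons v u)) (hf.comp (continuous_cons_snd v))
  simp_rw [h1]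
  have hc : Continuous fun p : (ℝ × (Fin n → ℝ)) × ℝ =>
      f (Fin.cons p.1.1 (Fin.cons p.2 p.1.2 : Fin (n + 1) → ℝ)) := hf.comp continuous_cons2
  have h2 : Continuous fun p : ℝ × (Fin n → ℝ) => ∫ v' in Icc s' t',
      f (Fin.cons p.1 (Fin.cons v' p.2 : Fin (n + 1) → ℝ)) :=
    continuous_param (fun p : (ℝ × (Fin n → ℝ)) × ℝ =>
      f (Fin.cons p.1.1 (Fin.cons p.2 p.1.2 : Fin (n + 1) → ℝ))) hc isCompact_Icc
  have h3 := swap_RE (A := Icc s t) (B := Icc a b) isCompact_Icc isCompact_Icc _ h2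
  simp only at h3
  rw [h3]
  congr 1
  ext u
  exact swap_RR isCompact_Icc isCompact_Icc
    (fun p : ℝ × ℝ => f (Fin.cons p.1 (Fin.cons p.2 u : Fin (n + 1) → ℝ)))
    (hc.comp (by fun_prop : Continuous fun p : ℝ × ℝ => (((p.1, u), p.2) :
      (ℝ × (Fin n → ℝ)) × ℝ)))

/-- Splitting the first interval. -/
lemma box_split (n : ℕ) (a b : Fin n → ℝ) {s c t : ℝ} (hsc : s ≤ c) (hct : c ≤ t)
    (f : (Fin (n + 1) → ℝ) → ℝ) (hf : Continuous f) :
    ∫ u in Icc (Fin.cons s a : Fin (n + 1) → ℝ) (Fin.cons t b), f u =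
      (∫ u in Icc (Fin.cons s a : Fin (n + 1) → ℝ) (Fin.cons c b), f u) +
      ∫ u in Icc (Fin.cons c a : Fin (n + 1) → ℝ) (Fin.cons t b), f u := by
  rw [integral_box_cons n a b _ _ f hf, integral_box_cons n a b _ _ f hf,
    integral_box_cons n a b _ _ f hf]
  have hc : Continuous fun v => ∫ u in Icc a b, f (Fin.cons v u) :=
    continuous_param_box (fun p => f (Fin.cons p.1 p.2)) (hf.comp continuous_cons) isCompact_Icc
  rw [integral_Icc_eq_integral_Ioc, integral_Icc_eq_integral_Ioc, integral_Icc_eq_integral_Ioc,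
    ← intervalIntegral.integral_of_le hsc, ← intervalIntegral.integral_of_le hct,
    ← intervalIntegral.integral_of_le (hsc.trans hct)]
  exact (intervalIntegral.integral_add_adjacent_intervals (hc.intervalIntegrable _ _)
    (hc.intervalIntegrable _ _)).symm

/-- Splitting the second interval. -/
lemma box_split2 (n : ℕ) (a b : Fin n → ℝ) (s' t' : ℝ) {s c t : ℝ} (hsc : s ≤ c) (hct : c ≤ t)
    (f : (Fin (n + 2) → ℝ) → ℝ) (hf : Continuous f) :
    ∫ u in Icc (Fin.cons s' (Fin.cons s a : Fin (n + 1) → ℝ) : Fin (n + 2) → ℝ)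
        (Fin.cons t' (Fin.cons t b : Fin (n + 1) → ℝ)), f u =
      (∫ u in Icc (Fin.cons s' (Fin.cons s a : Fin (n + 1) → ℝ) : Fin (n + 2) → ℝ)
        (Fin.cons t' (Fin.cons c b : Fin (n + 1) → ℝ)), f u) +
      ∫ u in Icc (Fin.cons s' (Fin.cons c a : Fin (n + 1) → ℝ) : Fin (n + 2) → ℝ)
        (Fin.cons t' (Fin.cons t b : Fin (n + 1) → ℝ)), f u := by
  rw [integral_box_cons (n + 1) _ _ _ _ f hf, integral_box_cons (n + 1) _ _ _ _ f hf,
    integral_box_cons (n + 1) _ _ _ _ f hf]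
  have hc : ∀ A B : Fin (n + 1) → ℝ, Continuous fun v => ∫ u in Icc A B, f (Fin.cons v u) :=
    fun A B => continuous_param_box (fun p => f (Fin.cons p.1 p.2)) (hf.comp continuous_cons)
      isCompact_Icc
  rw [← integral_add ((hc _ _).continuousOn.integrableOn_compact isCompact_Icc)
    ((hc _ _).continuousOn.integrableOn_compact isCompact_Icc)]
  congr 1
  ext v
  exact box_split n a b hsc hct (fun u => f (Fin.cons v u)) (hf.comp (continuous_cons_snd v))

section Comb

variable {J : Type*}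

open Classical in
/-- Splitting one coordinate of the local tuples. -/
lemma R_split_update (P : Finset J) (x : J → ℝ) (m : ℕ) (j : J) (a b : Fin m → ℝ) (i : Fin m)
    (c : ℝ) : R P x m j a b ≤ R P x m j a (Function.update b i c) +
      R P x m j (Function.update a i c) b := by
  rw [R, R, R]
  refine (Finset.card_le_card ?_).trans (Finset.card_union_le _ _)
  intro f hf
  rw [mem_localTuples] at hf
  rw [Finset.mem_union, mem_localTuples, mem_localTuples]
  rcases le_total (x (f i) - x j) c with h | h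
  · left
    refine ⟨hf.1, hf.2.1, hf.2.2.1, fun l => ⟨(hf.2.2.2 l).1, ?_⟩⟩
    by_cases hl : l = i
    · subst hl
      rw [Function.update_self]
      exact h
    · rw [Function.update_of_ne hl]
      exact (hf.2.2.2 l).2
  · right
    refine ⟨hf.1, hf.2.1, hf.2.2.1, fun l => ⟨?_, (hf.2.2.2 l).2⟩⟩
    by_cases hl : l = i
    · subst hl
      rw [Function.update_self]
      exact h
    · rw [Function.update_of_ne hl]
      exact (hf.2.2.2 l).1

lemma R_split (P : Finset J) (x : J → ℝ) (m : ℕ) (j : J) (a b : Fin m → ℝ) (s c t : ℝ) :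
    R P x (m + 1) j (Fin.cons s a) (Fin.cons t b) ≤
      R P x (m + 1) j (Fin.cons s a) (Fin.cons c b) +
        R P x (m + 1) j (Fin.cons c a) (Fin.cons t b) := by
  have h := R_split_update P x (m + 1) j (Fin.cons s a) (Fin.cons t b) 0 c
  rwa [Fin.update_cons_zero, Fin.update_cons_zero] at h

lemma R_split2 (P : Finset J) (x : J → ℝ) (m : ℕ) (j : J) (a b : Fin m → ℝ) (s' t' s c t : ℝ) :
    R P x (m + 2) j (Fin.cons s' (Fin.cons s a : Fin (m + 1) → ℝ))
        (Fin.cons t' (Fin.cons t b : Fin (m + 1) → ℝ)) ≤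
      R P x (m + 2) j (Fin.cons s' (Fin.cons s a : Fin (m + 1) → ℝ))
        (Fin.cons t' (Fin.cons c b : Fin (m + 1) → ℝ)) +
      R P x (m + 2) j (Fin.cons s' (Fin.cons c a : Fin (m + 1) → ℝ))
        (Fin.cons t' (Fin.cons t b : Fin (m + 1) → ℝ)) := by
  have h := R_split_update P x (m + 2) j (Fin.cons s' (Fin.cons s a : Fin (m + 1) → ℝ))
    (Fin.cons t' (Fin.cons t b : Fin (m + 1) → ℝ)) (Fin.succ 0) c
  rwa [← Fin.cons_update, ← Fin.cons_update, Fin.update_cons_zero, Fin.update_cons_zero] at h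

end Comb

end Pool.Agent.MP_67227b_nt
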