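import Pool.Agent.MP_67227b_nt.Energy35

set_option autoImplicit false

open Filter MeasureTheory Topology Set
open scoped Real Nat

namespace Pool.Agent.MP_67227b_nt

/-- The tail of the square of the kernel. -/
noncomputable def kt (g : ℝ) : ℝ := ∫ u in (Ir g)ᶜ, K u ^ 2

lemma integrable_K_sq0 : Integrable fun u : ℝ => K u ^ 2 := by
  simpa using integrable_K_sq 0

lemma kt_nonneg (g : ℝ) : 0 ≤ kt g := integral_nonneg fun _ => sq_nonneg _

lemma kt_le_one (g : ℝ) : kt g ≤ 1 := by
  have h := integral_K_sq 0
  simp only [sub_zero] at h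
  rw [← h]
  exact setIntegral_le_integral integrable_K_sq0 (Eventually.of_forall fun _ => sq_nonneg _)

lemma kt_anti : Antitone kt := by
  intro g g' h
  apply setIntegral_mono_set
  · exact integrable_K_sq0.integrableOn
  · exact Eventually.of_forall fun v => sq_nonneg _
  · exact (compl_subset_compl.2 (Ir_mono h)).eventuallyLE

lemma kt_le {g : ℝ} (hg : 0 < g) : kt g ≤ 1 / (2 * g) := by
  have hset : (Ir g)ᶜ = Iio (-g) ∪ Ioi g := by
    ext x
    simp only [Ir, mem_compl_iff, mem_Icc, not_and_or, not_le, mem_union, mem_Iio, mem_Ioi]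
  have hd : Disjoint (Iio (-g)) (Ioi g) := by
    rw [Set.disjoint_left]
    intro x hx hx'
    simp only [mem_Iio, mem_Ioi] at hx hx'
    linarith
  have h1 : kt g = (∫ u in Iio (-g), K u ^ 2) + ∫ u in Ioi g, K u ^ 2 := by
    rw [kt, hset, setIntegral_union hd measurableSet_Ioi integrable_K_sq0.integrableOn
      integrable_K_sq0.integrableOn]
  have h2 : ∫ u in Iio (-g), K u ^ 2 = ∫ u in Ioi g, K u ^ 2 := by
    rw [← integral_Iic_eq_integral_Iio]
    rw [← integral_comp_neg_Ioi]
    congr 1
    ext u
    rw [K_neg]
  have h3 : ∫ u in Ioi g, K u ^ 2 ≤ ∫ u in Ioi g, (1 / π ^ 2) * u ^ (-2 : ℝ) := by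
    apply setIntegral_mono_on integrable_K_sq0.integrableOn _ measurableSet_Ioi
    · intro u hu
      have hu0 : 0 < u := hg.trans hu
      have h4 := K_sq_le_inv hu0.ne'
      have e : (1 / π ^ 2) * u ^ (-2 : ℝ) = 1 / (π ^ 2 * u ^ 2) := by
        rw [Real.rpow_neg hu0.le]
        norm_num
        ring
      rw [e]
      exact h4
    · exact (integrableOn_Ioi_rpow_of_lt (by norm_num) hg).const_mul _
  have h5 : ∫ u in Ioi g, (1 / π ^ 2) * u ^ (-2 : ℝ) = (1 / π ^ 2) * (1 / g) := by
    rw [integral_const_mul, integral_Ioi_rpow_of_lt (by norm_num) hg]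
    congr 1
    norm_num
    rw [Real.rpow_neg hg.le]
    simp
  rw [h1, h2]
  have h6 : 1 / π ^ 2 ≤ 1 / 4 := by
    apply one_div_le_one_div_of_le (by norm_num)
    nlinarith [Real.pi_gt_three]
  have h7 : (1 / π ^ 2) * (1 / g) ≤ (1 / 4) * (1 / g) := by
    gcongr
  have e : 1 / (2 * g) = 2 * ((1 / 4) * (1 / g)) := by
    field_simp
    norm_num
  rw [e]
  linarith

/-- The inner integral. -/
lemma inner_le (v' : ℝ) (r : ℝ) : ∫ v in (Ir r)ᶜ, K (v' - v) ^ 2 ≤ kt (r - |v'|) := by
  have h1 : ∫ v in (Ir r)ᶜ, K (v' - v) ^ 2 =
      ∫ u, ((Ir r)ᶜ).indicator (fun v => K (v' - v) ^ 2) (u + v') := by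
    rw [integral_add_right_eq_self (fun u => ((Ir r)ᶜ).indicator (fun v => K (v' - v) ^ 2) u) v',
      integral_indicator (Ir_compact r).measurableSet.compl]
  rw [h1, kt, ← integral_indicator (Ir_compact _).measurableSet.compl]
  apply integral_mono_of_nonneg
  · refine Eventually.of_forall fun u => ?_
    exact indicator_nonneg (fun _ _ => sq_nonneg _) _
  · exact integrable_K_sq0.indicator (Ir_compact _).measurableSet.compl
  · refine Eventually.of_forall fun u => ?_
    simp only
    by_cases hu : u + v' ∈ (Ir r)ᶜ
    · rw [indicator_of_mem hu, indicator_of_mem]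
      · rw [← K_neg]
        ring_nf
        exact le_rfl
      · intro h
        apply hu
        rw [Ir, mem_Icc] at h ⊢
        have h2 := abs_nonneg v'
        have h3 := le_abs_self v'
        have h4 := neg_abs_le v'
        constructor
        · linarith
        · linarith
    · rw [indicator_of_notMem hu]
      exact indicator_nonneg (fun _ _ => sq_nonneg _) _

lemma Ck_off {r r' : ℝ} (hr : 0 ≤ r) (h : r < r') : Ck (Ir r) (Ir r') ≤ r / (r' - r) := by
  have h1 : Ck (Ir r) (Ir r') ≤ ∫ v' in Ir r, 1 / (2 * (r' - r)) := by
    apply setIntegral_mono_on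
    · exact (continuous_int_K_compl _ (Ir_compact r')).continuousOn.integrableOn_compact
        (Ir_compact r)
    · exact continuous_const.continuousOn.integrableOn_compact (Ir_compact r)
    · exact (Ir_compact r).measurableSet
    · intro v' hv'
      refine (inner_le v' r').trans (le_trans (kt_anti ?_) (kt_le (by linarith)))
      have : |v'| ≤ r := abs_le.2 hv'
      linarith
  refine h1.trans (le_of_eq ?_)
  rw [setIntegral_const, smul_eq_mul]
  have h2 : volume.real (Ir r) = 2 * r := by
    rw [Ir, Measure.real, Real.volume_Icc, ENNReal.toReal_ofReal (by linarith)]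
    ring
  rw [h2]
  have : r' - r ≠ 0 := by
    have : 0 < r' - r := by linarith
    exact this.ne'
  field_simp

lemma Ck_diag {r : ℝ} (hr : 1 ≤ r) : Ck (Ir r) (Ir r) ≤ 2 + Real.log (2 * r) := by
  have hii : ∀ a b : ℝ, IntervalIntegrable kt volume a b := fun a b =>
    kt_anti.intervalIntegrable
  have h1 : Ck (Ir r) (Ir r) ≤ ∫ v' in Ir r, (kt (r - v') + kt (r + v')) := by
    apply setIntegral_mono_on
    · exact (continuous_int_K_compl _ (Ir_compact r)).continuousOn.integrableOn_compact
        (Ir_compact r)
    · rw [Ir, integrableOn_Icc_iff_integrableOn_Ioc,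
        ← intervalIntegrable_iff_integrableOn_Ioc_of_le (by linarith)]
      apply IntervalIntegrable.add
      · have := (hii (r - (-r)) (r - r)).comp_sub_left r
        simpa using this
      · have := (hii (r + (-r)) (r + r)).comp_add_left r
        simpa using this
    · exact (Ir_compact r).measurableSet
    · intro v' hv'
      refine (inner_le v' r).trans ?_
      rcases abs_choice v' with h | h
      · rw [h]
        have := kt_nonneg (r + v')
        linarith
      · rw [h]
        have := kt_nonneg (r - v')
        have e : r - -v' = r + v' := by ring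
        rw [e]
        linarith
  have h2 : ∫ v' in Ir r, (kt (r - v') + kt (r + v')) = 2 * ∫ s in (0 : ℝ)..(2 * r), kt s := by
    rw [Ir, integral_Icc_eq_integral_Ioc, ← intervalIntegral.integral_of_le (by linarith),
      intervalIntegral.integral_add]
    · rw [intervalIntegral.integral_comp_sub_left (fun s => kt s),
        intervalIntegral.integral_comp_add_left (fun s => kt s)]
      have e1 : r - r = 0 := by ring
      have e2 : r - -r = 2 * r := by ring
      have e3 : r + -r = 0 := by ring
      have e4 : r + r = 2 * r := by ring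
      rw [e1, e2, e3, e4]
      ring
    · have := (hii (r - (-r)) (r - r)).comp_sub_left r
      simpa using this
    · have := (hii (r + (-r)) (r + r)).comp_add_left r
      simpa using this
  have h3 : ∫ s in (0 : ℝ)..(2 * r), kt s = (∫ s in (0 : ℝ)..1, kt s) +
      ∫ s in (1 : ℝ)..(2 * r), kt s :=
    (intervalIntegral.integral_add_adjacent_intervals (hii _ _) (hii _ _)).symm
  have h4 : ∫ s in (0 : ℝ)..1, kt s ≤ 1 := by
    calc ∫ s in (0 : ℝ)..1, kt s ≤ ∫ s in (0 : ℝ)..1, (1 : ℝ) := by
          apply intervalIntegral.integral_mono_on (by norm_num) (hii _ _) (by simp)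
          intro s _
          exact kt_le_one s
      _ = 1 := by simp
  have h5 : ∫ s in (1 : ℝ)..(2 * r), kt s ≤ Real.log (2 * r) / 2 := by
    calc ∫ s in (1 : ℝ)..(2 * r), kt s ≤ ∫ s in (1 : ℝ)..(2 * r), (1 / 2) * s⁻¹ := by
          apply intervalIntegral.integral_mono_on (by linarith) (hii _ _)
          · apply IntervalIntegrable.const_mul
            apply intervalIntegral.intervalIntegrable_inv
            · intro s hs
              rw [uIcc_of_le (by linarith)] at hs
              have : 0 < s := by linarith [hs.1]
              exact this.ne'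
            · fun_prop
          · intro s hs
            have hs0 : 0 < s := by linarith [hs.1]
            refine (kt_le hs0).trans (le_of_eq ?_)
            field_simp
      _ = Real.log (2 * r) / 2 := by
          rw [intervalIntegral.integral_const_mul, integral_inv_of_pos (by norm_num) (by linarith),
            div_one]
          ring
  rw [h2, h3] at h1
  linarith

/-- Geometric sums around a point. -/
lemma sum_geom_abs {x : ℝ} (hx0 : 0 < x) (hx1 : x < 1) (N k : ℕ) :
    ∑ l ∈ Finset.range N, x ^ (max k l - min k l) ≤ 2 / (1 - x) := by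
  have hg : ∀ n : ℕ, ∑ i ∈ Finset.range n, x ^ i ≤ 1 / (1 - x) := by
    intro n
    rw [le_div_iff₀ (by linarith)]
    have h1 := geom_sum_mul x n
    have : 0 < x ^ n := by positivity
    linarith
  have h1 : ∀ l ∈ Finset.range N, x ^ (max k l - min k l) ≤
      (if l ≤ k then x ^ (k - l) else 0) + (if k ≤ l then x ^ (l - k) else 0) := by
    intro l _
    rcases le_total l k with h | h
    · rw [max_eq_left h, min_eq_right h, if_pos h]
      have : 0 ≤ (if k ≤ l then x ^ (l - k) else 0) := by
        split_ifs
        · positivity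
        · exact le_rfl
      linarith
    · rw [max_eq_right h, min_eq_left h, if_pos h]
      have : 0 ≤ (if l ≤ k then x ^ (k - l) else 0) := by
        split_ifs
        · positivity
        · exact le_rfl
      linarith
  refine (Finset.sum_le_sum h1).trans ?_
  rw [Finset.sum_add_distrib]
  have h2 : ∑ l ∈ Finset.range N, (if l ≤ k then x ^ (k - l) else 0) ≤ 1 / (1 - x) := by
    rw [← Finset.sum_filter]
    calc ∑ l ∈ (Finset.range N).filter (fun l => l ≤ k), x ^ (k - l) ≤
        ∑ l ∈ Finset.range (k + 1), x ^ (k - l) := by
          apply Finset.sum_le_sum_of_subset_of_nonneg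
          · intro l hl
            rw [Finset.mem_filter] at hl
            exact Finset.mem_range.2 (by omega)
          · intro l _ _
            positivity
      _ = ∑ i ∈ Finset.range (k + 1), x ^ i := by
          rw [← Finset.sum_range_reflect]
          apply Finset.sum_congr rfl
          intro l hl
          rw [Finset.mem_range] at hl
          congr 1
          omega
      _ ≤ _ := hg _
  have h3 : ∑ l ∈ Finset.range N, (if k ≤ l then x ^ (l - k) else 0) ≤ 1 / (1 - x) := by
    rw [← Finset.sum_filter]
    calc ∑ l ∈ (Finset.range N).filter (fun l => k ≤ l), x ^ (l - k) ≤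
        ∑ i ∈ Finset.range N, x ^ i := by
          rw [← Finset.sum_image (f := fun i => x ^ i) (g := fun l => l - k)]
          · apply Finset.sum_le_sum_of_subset_of_nonneg
            · intro i hi
              rw [Finset.mem_image] at hi
              obtain ⟨l, hl, rfl⟩ := hi
              rw [Finset.mem_filter, Finset.mem_range] at hl
              exact Finset.mem_range.2 (by omega)
            · intro l _ _
              positivity
          · intro a ha b hb hab
            simp only [Finset.coe_filter, Finset.mem_range, mem_ofPred_eq] at ha hb hab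
            omega
      _ ≤ _ := hg _
  have e : 2 / (1 - x) = 1 / (1 - x) + 1 / (1 - x) := by ring
  rw [e]
  exact add_le_add h2 h3

/-- Scales with small averaged energy. -/
lemma exists_scales (r₀ ε : ℝ) (hε : 0 < ε) : ∃ (r : ℕ → ℝ) (N : ℕ), 0 < N ∧ Monotone r ∧
    r₀ ≤ r 0 ∧ 1 ≤ r 0 ∧ Vr r N ≤ ε := by
  set ρ : ℝ := max r₀ 1 with hρ
  have hρ1 : 1 ≤ ρ := le_max_right _ _
  have hρ0 : 0 < ρ := by linarith
  set q : ℝ := 1 + ε with hq
  have hq1 : 1 < q := by linarith
  have hq0 : 0 < q := by linarith
  set x : ℝ := q⁻¹ with hx
  have hx0 : 0 < x := inv_pos.2 hq0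
  have hx1 : x < 1 := inv_lt_one_of_one_lt₀ hq1
  set D : ℝ := (q / (q - 1)) * (2 / (1 - x)) with hD
  have hD0 : 0 < D := by
    have h1 : 0 < q - 1 := by linarith
    have h2 : 0 < 1 - x := by linarith
    positivity
  have hlogρ : 0 ≤ Real.log (2 * ρ) := Real.log_nonneg (by linarith)
  obtain ⟨N, hN⟩ := exists_nat_gt (2 * (2 + Real.log (2 * ρ) + D) / ε)
  have hN0 : (0 : ℝ) < N := lt_of_le_of_lt (by positivity) hN
  have hNpos : 0 < N := by exact_mod_cast hN0
  refine ⟨fun k => ρ * q ^ k, N, hNpos, ?_, ?_, ?_, ?_⟩
  · intro k l hkl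
    simp only
    gcongr
    exact hq1.le
  · simp [hρ]
  · simpa using hρ1
  · have hterm : ∀ k l : ℕ, Ck (Ir (ρ * q ^ (min k l))) (Ir (ρ * q ^ (max k l))) ≤
        (if k = l then 2 + Real.log (2 * ρ) + k * ε else 0) +
          (q / (q - 1)) * x ^ (max k l - min k l) := by
      intro k l
      have hpos : 0 ≤ (q / (q - 1)) * x ^ (max k l - min k l) := by
        have h1 : 0 < q - 1 := by linarith
        positivity
      by_cases hkl : k = l
      · subst hkl
        rw [min_self, max_self, if_pos rfl]
        have h1 : 1 ≤ ρ * q ^ k := by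
          have : 1 ≤ q ^ k := one_le_pow₀ hq1.le
          nlinarith
        have h2 := Ck_diag h1
        have h3 : Real.log (2 * (ρ * q ^ k)) = Real.log (2 * ρ) + k * Real.log q := by
          rw [← mul_assoc, Real.log_mul (by positivity) (by positivity), Real.log_pow]
        have h4 : Real.log q ≤ ε := by
          have := Real.log_le_sub_one_of_pos hq0
          linarith
        have h5 : (k : ℝ) * Real.log q ≤ k * ε := by gcongr
        rw [max_self, min_self] at hpos
        linarith
      · rw [if_neg hkl, zero_add]
        set a := min k l with ha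
        set b := max k l with hb
        have hab : a < b := by
          rcases lt_or_gt_of_ne hkl with h | h
          · rw [ha, hb, min_eq_left h.le, max_eq_right h.le]; exact h
          · rw [ha, hb, min_eq_right h.le, max_eq_left h.le]; exact h
        have h1 : ρ * q ^ a < ρ * q ^ b := by
          gcongr
        have h2 := Ck_off (r := ρ * q ^ a) (by positivity) h1
        refine h2.trans ?_
        obtain ⟨d, hd⟩ : ∃ d, b = a + (d + 1) := ⟨b - a - 1, by omega⟩
        have e1 : b - a = d + 1 := by omega
        rw [e1, hd, pow_add]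
        have hqa : 0 < q ^ a := by positivity
        have hqd : q ^ (d + 1) - 1 ≥ (q - 1) * q ^ d := by
          have : 1 ≤ q ^ d := one_le_pow₀ hq1.le
          have e : q ^ (d + 1) = q * q ^ d := by ring
          rw [e]
          nlinarith
        have hqd0 : 0 < (q - 1) * q ^ d := by
          have : 0 < q - 1 := by linarith
          positivity
        have e2 : ρ * q ^ a / (ρ * (q ^ a * q ^ (d + 1)) - ρ * q ^ a) = 1 / (q ^ (d + 1) - 1) := by
          have h3 : q ^ (d + 1) - 1 ≠ 0 := by linarith
          rw [show ρ * (q ^ a * q ^ (d + 1)) - ρ * q ^ a = (ρ * q ^ a) * (q ^ (d + 1) - 1) by ring]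
          field_simp
        have e3 : q / (q - 1) * x ^ (d + 1) = 1 / ((q - 1) * q ^ d) := by
          rw [hx, inv_pow]
          have : q - 1 ≠ 0 := by linarith
          field_simp
          ring
        rw [e2, e3]
        exact one_div_le_one_div_of_le hqd0 hqd
    have hsum : ∑ k ∈ Finset.range N, ∑ l ∈ Finset.range N,
        Ck (Ir (ρ * q ^ (min k l))) (Ir (ρ * q ^ (max k l))) ≤
        N * (2 + Real.log (2 * ρ) + D) + ε * ((N : ℝ) ^ 2 / 2) := by
      calc ∑ k ∈ Finset.range N, ∑ l ∈ Finset.range N,
          Ck (Ir (ρ * q ^ (min k l))) (Ir (ρ * q ^ (max k l))) ≤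
          ∑ k ∈ Finset.range N, ((2 + Real.log (2 * ρ) + k * ε) + D) := by
            apply Finset.sum_le_sum
            intro k hk
            calc ∑ l ∈ Finset.range N, Ck (Ir (ρ * q ^ (min k l))) (Ir (ρ * q ^ (max k l))) ≤
                ∑ l ∈ Finset.range N, ((if k = l then 2 + Real.log (2 * ρ) + k * ε else 0) +
                  (q / (q - 1)) * x ^ (max k l - min k l)) :=
                  Finset.sum_le_sum fun l _ => hterm k l
              _ = (2 + Real.log (2 * ρ) + k * ε) + (q / (q - 1)) *
                  ∑ l ∈ Finset.range N, x ^ (max k l - min k l) := by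
                  rw [Finset.sum_add_distrib, Finset.mul_sum, Finset.sum_ite_eq, if_pos hk]
              _ ≤ _ := by
                  have h1 : 0 ≤ q / (q - 1) := by
                    have : 0 < q - 1 := by linarith
                    positivity
                  have := mul_le_mul_of_nonneg_left (sum_geom_abs hx0 hx1 N k) h1
                  linarith
        _ ≤ _ := by
            have h1 : ∑ k ∈ Finset.range N, ((2 + Real.log (2 * ρ) + (k : ℝ) * ε) + D) =
                N * (2 + Real.log (2 * ρ) + D) + ε * ∑ k ∈ Finset.range N, (k : ℝ) := by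
              rw [Finset.mul_sum, Finset.sum_add_distrib, Finset.sum_add_distrib, Finset.sum_const,
                Finset.sum_const, Finset.card_range, nsmul_eq_mul, nsmul_eq_mul]
              have : ∑ k ∈ Finset.range N, (k : ℝ) * ε = ∑ k ∈ Finset.range N, ε * (k : ℝ) :=
                Finset.sum_congr rfl fun k _ => mul_comm _ _
              rw [this]
              ring
            rw [h1]
            have h2 : ∑ k ∈ Finset.range N, (k : ℝ) ≤ (N : ℝ) ^ 2 / 2 := by
              have : ∀ n : ℕ, ∑ k ∈ Finset.range n, (k : ℝ) ≤ (n : ℝ) ^ 2 / 2 := by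
                intro n
                induction n with
                | zero => simp
                | succ n ih =>
                  rw [Finset.sum_range_succ]
                  push_cast
                  nlinarith
              exact this N
            gcongr
    unfold Vr
    rw [one_div_mul_eq_div, div_le_iff₀ (by positivity)]
    refine hsum.trans ?_
    rw [div_lt_iff₀ hε] at hN
    nlinarith

end Pool.Agent.MP_67227b_nt
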