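import Pool.Agent.MP_67227b_nt.Span67

set_option autoImplicit false
open Filter MeasureTheory Topology Set
open scoped Real CompactlySupported Pointwise

namespace Pool.Agent.MP_67227b_nt

variable {m : ℕ}

lemma measure_le_of_balls {ρ ν : Measure (Fin m → ℝ)} [IsLocallyFiniteMeasure ρ]
    [IsLocallyFiniteMeasure ν] (s : Set (Fin m → ℝ))
    (hs : ∀ x ∈ s, ∃ r₀ : ℝ, 0 < r₀ ∧ ∀ r : ℝ, 0 < r → r < r₀ →
      ρ (Metric.closedBall x r) ≤ ν (Metric.closedBall x r)) : ρ s ≤ ν s := by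
  apply (Besicovitch.vitaliFamily ρ).measure_le_of_frequently_le ν
    Measure.AbsolutelyContinuous.rfl s
  intro x hx
  obtain ⟨r₀, hr₀, h⟩ := hs x hx
  apply (Besicovitch.tendsto_filterAt ρ x).frequently
  apply Eventually.frequently
  filter_upwards [Ioo_mem_nhdsGT hr₀] with r hr
  exact h r hr.1 hr.2

lemma real_le_real_iff' {ρ ν : Measure (Fin m → ℝ)} [IsLocallyFiniteMeasure ρ]
    [IsLocallyFiniteMeasure ν] {K : Set (Fin m → ℝ)} (hK : IsCompact K)
    (h : ρ.real K ≤ ν.real K) : ρ K ≤ ν K := by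
  unfold Measure.real at h
  exact (ENNReal.toReal_le_toReal hK.measure_lt_top.ne hK.measure_lt_top.ne).mp h

/-- Comparison from above. -/
lemma compare_upper {ν : ℝ → Measure (Fin m → ℝ)} [∀ T, IsFiniteMeasure (ν T)] {F : Filter ℝ}
    [NeBot F] {μ lam : Measure (Fin m → ℝ)} [IsLocallyFiniteMeasure μ]
    [IsLocallyFiniteMeasure lam] (hμ : VagueLim ν F μ) (s : Set (Fin m → ℝ))
    (hs : ∀ x ∈ s, ∃ r₀ : ℝ, 0 < r₀ ∧ ∀ r : ℝ, 0 < r → r < r₀ → ∀ δ : ℝ, 0 < δ →
      ∀ᶠ T in F, (ν T).real (Metric.closedBall x r) ≤ lam.real (Metric.closedBall x r) + δ) :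
    μ s ≤ lam s := by
  apply measure_le_of_balls
  intro x hx
  obtain ⟨r₀, hr₀, h⟩ := hs x hx
  refine ⟨r₀, hr₀, fun r hr hr' => ?_⟩
  have hK : IsCompact (Metric.closedBall x r) := isCompact_closedBall x r
  apply real_le_real_iff' hK
  apply le_of_forall_pos_le_add
  intro δ hδ
  obtain ⟨V, hKV, hV, hlV⟩ := (Metric.closedBall x r).exists_isOpen_lt_add
    (hK.measure_lt_top (μ := lam)).ne
    (μ := lam) (show ENNReal.ofReal (δ / 3) ≠ 0 by simpa using (by positivity : 0 < δ / 3))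
  obtain ⟨t, ht, htV⟩ := hK.exists_cthickening_subset_open hV hKV
  rw [cthickening_closedBall ht.le hr.le] at htV
  set r' : ℝ := min (t + r) ((r + r₀) / 2) with hr'def
  have hrr' : r < r' := lt_min (by linarith) (by linarith)
  have hr'r₀ : r' < r₀ := (min_le_right _ _).trans_lt (by linarith)
  have h1 := h r' (hr.trans hrr') hr'r₀ (δ / 3) (by positivity)
  have h2 := vague_lower hμ hK (Metric.isOpen_ball (x := x) (ε := r'))
    (Metric.closedBall_subset_ball hrr') (show 0 < δ / 3 by positivity)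
  obtain ⟨T, hT1, hT2⟩ := (h1.and h2).exists
  have h3 : (ν T).real (Metric.ball x r') ≤ (ν T).real (Metric.closedBall x r') :=
    measureReal_mono Metric.ball_subset_closedBall
  have h4 : lam.real (Metric.closedBall x r') ≤ lam.real (Metric.closedBall x r) + δ / 3 := by
    have h5 : lam (Metric.closedBall x r') ≤ lam (Metric.closedBall x r) +
        ENNReal.ofReal (δ / 3) := by
      refine le_trans (measure_mono ?_) hlV.le
      exact (Metric.closedBall_subset_closedBall (min_le_left _ _)).trans htV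
    unfold Measure.real
    have h6 := ENNReal.toReal_mono (ENNReal.add_ne_top.mpr
      ⟨hK.measure_lt_top.ne, ENNReal.ofReal_ne_top⟩) h5
    rwa [ENNReal.toReal_add hK.measure_lt_top.ne ENNReal.ofReal_ne_top,
      ENNReal.toReal_ofReal (by positivity)] at h6
  linarith

/-- Comparison from below. -/
lemma compare_lower {ν : ℝ → Measure (Fin m → ℝ)} [∀ T, IsFiniteMeasure (ν T)] {F : Filter ℝ}
    [NeBot F] {μ lam : Measure (Fin m → ℝ)} [IsLocallyFiniteMeasure μ]
    [IsLocallyFiniteMeasure lam] (hμ : VagueLim ν F μ) (s : Set (Fin m → ℝ))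
    (hs : ∀ x ∈ s, ∃ r₀ : ℝ, 0 < r₀ ∧ ∀ r : ℝ, 0 < r → r < r₀ → ∀ δ : ℝ, 0 < δ →
      ∀ᶠ T in F, lam.real (Metric.closedBall x r) ≤ (ν T).real (Metric.closedBall x r) + δ) :
    lam s ≤ μ s := by
  apply measure_le_of_balls
  intro x hx
  obtain ⟨r₀, hr₀, h⟩ := hs x hx
  refine ⟨r₀, hr₀, fun r hr hr' => ?_⟩
  have hK : IsCompact (Metric.closedBall x r) := isCompact_closedBall x r
  apply real_le_real_iff' hK
  apply le_of_forall_pos_le_add
  intro δ hδ
  have h1 := h r hr hr' (δ / 2) (by positivity)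
  have h2 := vague_upper hμ hK (show 0 < δ / 2 by positivity)
  obtain ⟨T, hT1, hT2⟩ := (h1.and h2).exists
  linarith

end Pool.Agent.MP_67227b_nt
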