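import Pool.Agent.MP_67227b_nt.Iso44

set_option autoImplicit false

open MeasureTheory Set Filter Topology
open scoped ENNReal

namespace Pool.Agent.MP_67227b_nt

/-- The `L^1` distance between `f` and its translate. -/
noncomputable def vari (f : ℝ → ℝ) (h : ℝ) : ℝ≥0∞ := ∫⁻ s, ‖f (s + h) - f s‖ₑ

lemma vari_eq {f : ℝ → ℝ} (hf : Integrable f) (h : ℝ) :
    vari f h = ENNReal.ofReal (∫ s, |f (s + h) - f s|) := by
  unfold vari
  rw [← ofReal_integral_norm_eq_lintegral_enorm (integrable_shift_sub hf h)]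
  rfl

lemma liminf_ge {f : ℝ → ℝ} (hf : Integrable f) {h : ℕ → ℝ} (hpos : ∀ k, 0 < h k)
    {B : ℕ → ℝ} {β : ℝ} (hB : Tendsto (fun k => B k / h k) atTop (𝓝 β))
    (hle : ∀ k, B k ≤ ∫ s, |f (s + h k) - f s|) :
    ENNReal.ofReal β ≤ liminf (fun k => vari f (h k) / ENNReal.ofReal (h k)) atTop := by
  have h1 : Tendsto (fun k => ENNReal.ofReal (B k / h k)) atTop (𝓝 (ENNReal.ofReal β)) :=
    (ENNReal.continuous_ofReal.tendsto β).comp hB
  rw [← h1.liminf_eq]
  refine liminf_le_liminf (Eventually.of_forall fun k => ?_)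
  rw [vari_eq hf, ← ENNReal.ofReal_div_of_pos (hpos k)]
  apply ENNReal.ofReal_le_ofReal
  have := hpos k
  have h2 := hle k
  gcongr

lemma liminf_ge_one {f : ℝ → ℝ} (hf : Integrable f) {h : ℕ → ℝ} (hpos : ∀ k, 0 < h k) {t : ℝ}
    (ht : Tendsto (fun k => win f (h k) t / h k) atTop (𝓝 (f t))) :
    ENNReal.ofReal (2 * f t) ≤ liminf (fun k => vari f (h k) / ENNReal.ofReal (h k)) atTop := by
  refine liminf_ge hf hpos (B := fun k => 2 * win f (h k) t) ?_ (fun k => win_one hf (h k) t)
  refine (ht.const_mul 2).congr (fun k => ?_)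
  ring

lemma liminf_ge_three {f : ℝ → ℝ} (hf : Integrable f) {h : ℕ → ℝ} (hpos : ∀ k, 0 < h k)
    {a b c : ℝ} (hab : a ≤ b) (hbc : b ≤ c)
    (ha : Tendsto (fun k => win f (h k) a / h k) atTop (𝓝 (f a)))
    (hb : Tendsto (fun k => win f (h k) b / h k) atTop (𝓝 (f b)))
    (hc : Tendsto (fun k => win f (h k) c / h k) atTop (𝓝 (f c))) :
    ENNReal.ofReal (2 * (f a - f b + f c)) ≤
      liminf (fun k => vari f (h k) / ENNReal.ofReal (h k)) atTop := by
  refine liminf_ge hf hpos (B := fun k => 2 * (win f (h k) a - win f (h k) b + win f (h k) c)) ?_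
    (fun k => win_three hf (h k) hab hbc)
  refine (((ha.sub hb).add hc).const_mul 2).congr (fun k => ?_)
  ring

/-- A zero-one valued function which does not vanish has variation at least two. -/
lemma two_le_liminf {f : ℝ → ℝ} (hf : Integrable f) (h01 : ∀ᵐ t, f t = 0 ∨ f t = 1)
    (hne : ∫ t, f t ≠ 0) {h : ℕ → ℝ} (hpos : ∀ k, 0 < h k) (hlim : Tendsto h atTop (𝓝 0)) :
    2 ≤ liminf (fun k => vari f (h k) / ENNReal.ofReal (h k)) atTop := by
  obtain ⟨t, ht1, ht2⟩ : ∃ t, (∀ h : ℕ → ℝ, (∀ k, 0 < h k) → Tendsto h atTop (𝓝 0) →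
      Tendsto (fun k => win f (h k) t / h k) atTop (𝓝 (f t))) ∧ f t = 1 := by
    by_contra hcon
    push Not at hcon
    apply hne
    have h0 : f =ᵐ[volume] 0 := by
      filter_upwards [ae_tendsto_win hf, h01] with t h1 h2
      rcases h2 with h2 | h2
      · exact h2
      · exact absurd h2 (hcon t h1)
    rw [integral_congr_ae h0]
    simp
  have h1 := liminf_ge_one hf hpos (ht1 h hpos hlim)
  rw [ht2, mul_one] at h1
  simpa using h1

/-- A zero-one valued function with the smallest possible variation is the indicator function of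
an interval. -/
theorem interval_of_liminf {f : ℝ → ℝ} (hf : Integrable f) (h01 : ∀ᵐ t, f t = 0 ∨ f t = 1)
    (hone : ∫ t, f t = 1) {h : ℕ → ℝ} (hpos : ∀ k, 0 < h k) (hlim : Tendsto h atTop (𝓝 0))
    (hL : liminf (fun k => vari f (h k) / ENNReal.ofReal (h k)) atTop ≤ 2) :
    ∃ s : ℝ, f =ᵐ[volume] (Icc s (s + 1)).indicator fun _ => 1 := by
  set G : Set ℝ := {t | (∀ h : ℕ → ℝ, (∀ k, 0 < h k) → Tendsto h atTop (𝓝 0) →
      Tendsto (fun k => win f (h k) t / h k) atTop (𝓝 (f t))) ∧ (f t = 0 ∨ f t = 1)} with hG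
  have hGae : ∀ᵐ t, t ∈ G := by
    filter_upwards [ae_tendsto_win hf, h01] with t h1 h2
    exact ⟨h1, h2⟩
  set S : Set ℝ := {t | t ∈ G ∧ f t = 1} with hS
  have hne : S.Nonempty := by
    by_contra hcon
    rw [not_nonempty_iff_eq_empty] at hcon
    have h0 : f =ᵐ[volume] 0 := by
      filter_upwards [hGae] with t ht
      rcases ht.2 with h2 | h2
      · exact h2
      · exact absurd (show t ∈ S from ⟨ht, h2⟩) (by rw [hcon]; exact notMem_empty t)
    rw [integral_congr_ae h0] at hone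
    simp at hone
  have hconv : ∀ a ∈ S, ∀ c ∈ S, ∀ b ∈ G, a < b → b < c → f b = 1 := by
    intro a ha c hc b hb hab hbc
    rcases hb.2 with h2 | h2
    · exfalso
      have h3 := liminf_ge_three hf hpos hab.le hbc.le (ha.1.1 h hpos hlim) (hb.1 h hpos hlim)
        (hc.1.1 h hpos hlim)
      rw [ha.2, hc.2, h2] at h3
      have h4 := h3.trans hL
      norm_num at h4
    · exact h2
  have hIoi : ∀ a : ℝ, ¬ (∀ᵐ t, t ∈ Ioi a → f t = 1) := by
    intro a hcon
    have h1 : IntegrableOn (fun _ : ℝ => (1 : ℝ)) (Ioi a) := by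
      refine hf.integrableOn.congr_fun_ae ?_
      rw [EventuallyEq, ae_restrict_iff' measurableSet_Ioi]
      exact hcon
    rw [integrableOn_const_iff] at h1
    simp at h1
  have hIio : ∀ a : ℝ, ¬ (∀ᵐ t, t ∈ Iio a → f t = 1) := by
    intro a hcon
    have h1 : IntegrableOn (fun _ : ℝ => (1 : ℝ)) (Iio a) := by
      refine hf.integrableOn.congr_fun_ae ?_
      rw [EventuallyEq, ae_restrict_iff' measurableSet_Iio]
      exact hcon
    rw [integrableOn_const_iff] at h1
    simp at h1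
  obtain ⟨a, ha⟩ := hne
  have hba : BddAbove S := by
    by_contra hcon
    apply hIoi a
    filter_upwards [hGae] with t ht hta
    rw [not_bddAbove_iff] at hcon
    obtain ⟨c, hc, hct⟩ := hcon t
    exact hconv a ha c hc t ht hta hct
  have hbb : BddBelow S := by
    by_contra hcon
    apply hIio a
    filter_upwards [hGae] with t ht hta
    rw [not_bddBelow_iff] at hcon
    obtain ⟨c, hc, hct⟩ := hcon t
    exact hconv c hc a ha t ht hct hta
  have hae : f =ᵐ[volume] (Icc (sInf S) (sSup S)).indicator fun _ => 1 := by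
    filter_upwards [hGae, compl_mem_ae_iff.mpr (measure_singleton (sInf S)),
      compl_mem_ae_iff.mpr (measure_singleton (sSup S))] with t ht h1 h2
    rw [mem_compl_iff, mem_singleton_iff] at h1 h2
    by_cases hts : t ∈ Icc (sInf S) (sSup S)
    · rw [indicator_of_mem hts]
      have h3 : sInf S < t := lt_of_le_of_ne hts.1 (Ne.symm h1)
      have h4 : t < sSup S := lt_of_le_of_ne hts.2 h2
      obtain ⟨b, hb, hbt⟩ := exists_lt_of_csInf_lt ⟨a, ha⟩ h3
      obtain ⟨c, hc, hct⟩ := exists_lt_of_lt_csSup ⟨a, ha⟩ h4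
      exact hconv b hb c hc t ht hbt hct
    · rw [indicator_of_notMem hts]
      rcases ht.2 with h5 | h5
      · exact h5
      · exact absurd ⟨csInf_le hbb ⟨ht, h5⟩, le_csSup hba ⟨ht, h5⟩⟩ hts
  have hle : sInf S ≤ sSup S := (csInf_le hbb ha).trans (le_csSup hba ha)
  have hlen : sSup S = sInf S + 1 := by
    have h1 := hone
    rw [integral_congr_ae hae, integral_indicator_const _ measurableSet_Icc, smul_eq_mul,
      mul_one, Measure.real, Real.volume_Icc, ENNReal.toReal_ofReal (by linarith)] at h1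
    linarith
  exact ⟨sInf S, by rw [← hlen]; exact hae⟩

end Pool.Agent.MP_67227b_nt
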