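import Mathlib

set_option autoImplicit false

/-!
Inequalities for traces of products of positive semidefinite matrices which are at most one.
-/

open Matrix
open scoped ComplexOrder MatrixOrder

namespace Pool.Agent.MP_67227b_nt

variable {n : ℕ}

lemma psd_factor {A : Matrix (Fin n) (Fin n) ℂ} (hA : A.PosSemidef) :
    ∃ X : Matrix (Fin n) (Fin n) ℂ, A = Xᴴ * X := by
  obtain ⟨X, hX⟩ := CStarAlgebra.nonneg_iff_eq_star_mul_self.mp hA.nonneg
  exact ⟨X, hX⟩

lemma psd_trace_re_nonneg {A : Matrix (Fin n) (Fin n) ℂ} (hA : A.PosSemidef) :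
    0 ≤ A.trace.re := (Complex.nonneg_iff.mp hA.trace_nonneg).1

lemma psd_trace_im {A : Matrix (Fin n) (Fin n) ℂ} (hA : A.PosSemidef) :
    A.trace.im = 0 := (Complex.nonneg_iff.mp hA.trace_nonneg).2.symm

lemma trace_factor (X Y : Matrix (Fin n) (Fin n) ℂ) :
    ((Xᴴ * X) * (Yᴴ * Y)).trace = ((X * Yᴴ)ᴴ * (X * Yᴴ)).trace := by
  rw [conjTranspose_mul, conjTranspose_conjTranspose, ← Matrix.mul_assoc, Matrix.trace_mul_comm]
  simp only [Matrix.mul_assoc]

lemma trace_mul_re_nonneg {A B : Matrix (Fin n) (Fin n) ℂ} (hA : A.PosSemidef)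
    (hB : B.PosSemidef) : 0 ≤ (A * B).trace.re := by
  obtain ⟨X, rfl⟩ := psd_factor hA
  obtain ⟨Y, rfl⟩ := psd_factor hB
  rw [trace_factor]
  exact psd_trace_re_nonneg (posSemidef_conjTranspose_mul_self _)

lemma trace_mul_im {A B : Matrix (Fin n) (Fin n) ℂ} (hA : A.PosSemidef)
    (hB : B.PosSemidef) : (A * B).trace.im = 0 := by
  obtain ⟨X, rfl⟩ := psd_factor hA
  obtain ⟨Y, rfl⟩ := psd_factor hB
  rw [trace_factor]
  exact psd_trace_im (posSemidef_conjTranspose_mul_self _)

lemma mul_eq_zero_of_trace {A B : Matrix (Fin n) (Fin n) ℂ} (hA : A.PosSemidef)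
    (hB : B.PosSemidef) (h : (A * B).trace.re = 0) : A * B = 0 := by
  have him := trace_mul_im hA hB
  obtain ⟨X, rfl⟩ := psd_factor hA
  obtain ⟨Y, rfl⟩ := psd_factor hB
  rw [trace_factor] at h him
  have h1 : ((X * Yᴴ)ᴴ * (X * Yᴴ)).trace = 0 := Complex.ext h him
  rw [trace_conjTranspose_mul_self_eq_zero_iff] at h1
  rw [Matrix.mul_assoc, ← Matrix.mul_assoc X, h1]
  simp

/-- A matrix between zero and one. -/
def IsEffect (A : Matrix (Fin n) (Fin n) ℂ) : Prop := A.PosSemidef ∧ (1 - A).PosSemidef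

lemma IsEffect.trace_mul_le {A B : Matrix (Fin n) (Fin n) ℂ} (hA : IsEffect A)
    (hB : IsEffect B) : (A * B).trace.re ≤ A.trace.re := by
  have h := trace_mul_re_nonneg hA.1 hB.2
  rw [Matrix.mul_sub, Matrix.mul_one, trace_sub, Complex.sub_re] at h
  linarith

lemma IsEffect.trace_mul_le' {A B : Matrix (Fin n) (Fin n) ℂ} (hA : IsEffect A)
    (hB : IsEffect B) : (A * B).trace.re ≤ B.trace.re := by
  rw [trace_mul_comm]
  exact hB.trace_mul_le hA

/-- The distance of the traces is at most the defect. -/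
lemma IsEffect.abs_trace_sub_le {A B : Matrix (Fin n) (Fin n) ℂ} (hA : IsEffect A)
    (hB : IsEffect B) : |B.trace.re - A.trace.re| ≤
      A.trace.re + B.trace.re - 2 * (A * B).trace.re := by
  have h1 := hA.trace_mul_le hB
  have h2 := hA.trace_mul_le' hB
  rw [abs_le]
  constructor <;> linarith

lemma IsEffect.idem {A : Matrix (Fin n) (Fin n) ℂ} (hA : IsEffect A)
    (h : (A * A).trace.re = A.trace.re) : A * A = A := by
  have h1 : (A * (1 - A)).trace.re = 0 := by
    rw [Matrix.mul_sub, Matrix.mul_one, trace_sub, Complex.sub_re]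
    linarith
  have h2 := mul_eq_zero_of_trace hA.1 hA.2 h1
  rw [Matrix.mul_sub, Matrix.mul_one] at h2
  exact (sub_eq_zero.mp h2).symm

lemma trace_conjTranspose_mul_self_re (D : Matrix (Fin n) (Fin n) ℂ) :
    (Dᴴ * D).trace.re = ∑ c, ∑ d, ‖D d c‖ ^ 2 := by
  rw [Matrix.trace, Complex.re_sum]
  apply Finset.sum_congr rfl
  intro c _
  rw [Matrix.diag_apply, Matrix.mul_apply, Complex.re_sum]
  apply Finset.sum_congr rfl
  intro d _
  rw [conjTranspose_apply, Complex.star_def, mul_comm, Complex.mul_conj, Complex.ofReal_re,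
    Complex.normSq_eq_norm_sq]

/-- The sum of the squared moduli of the entries of the difference of two Hermitian matrices. -/
lemma trace_sub_sq {A B : Matrix (Fin n) (Fin n) ℂ} (hA : A.IsHermitian) (hB : B.IsHermitian) :
    ((A - B)ᴴ * (A - B)).trace.re =
      (A * A).trace.re + (B * B).trace.re - 2 * (A * B).trace.re := by
  rw [conjTranspose_sub, hA.eq, hB.eq, Matrix.sub_mul, Matrix.mul_sub, Matrix.mul_sub]
  simp only [trace_sub, Complex.sub_re]
  rw [trace_mul_comm B A]
  ring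

/-- Two projections of the same trace with vanishing defect agree. -/
lemma eq_of_defect {A B : Matrix (Fin n) (Fin n) ℂ} (hA : IsEffect A) (hB : IsEffect B)
    (hA2 : A * A = A) (hB2 : B * B = B)
    (h : A.trace.re + B.trace.re - 2 * (A * B).trace.re = 0) : A = B := by
  have h1 := trace_sub_sq hA.1.isHermitian hB.1.isHermitian
  rw [hA2, hB2, h] at h1
  have h2 := psd_trace_im (posSemidef_conjTranspose_mul_self (A - B))
  have h3 : ((A - B)ᴴ * (A - B)).trace = 0 := Complex.ext h1 h2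
  rw [trace_conjTranspose_mul_self_eq_zero_iff] at h3
  exact sub_eq_zero.mp h3

lemma diag_re_nonneg {A : Matrix (Fin n) (Fin n) ℂ} (hA : A.PosSemidef) (c : Fin n) :
    0 ≤ (A c c).re := (Complex.nonneg_iff.mp hA.diag_nonneg).1

lemma diag_re_le {A : Matrix (Fin n) (Fin n) ℂ} (hA : A.PosSemidef) (c : Fin n) :
    (A c c).re ≤ A.trace.re := by
  rw [Matrix.trace, Complex.re_sum]
  exact Finset.single_le_sum (f := fun c => (A.diag c).re)
    (fun d _ => diag_re_nonneg hA d) (Finset.mem_univ c)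

/-- The entries of a positive semidefinite matrix are bounded by the trace. -/
lemma norm_entry_le {A : Matrix (Fin n) (Fin n) ℂ} (hA : A.PosSemidef) (c d : Fin n) :
    ‖A c d‖ ≤ A.trace.re := by
  have hcc := diag_re_le hA c
  have hdd := diag_re_le hA d
  obtain ⟨X, rfl⟩ := psd_factor hA
  have h1 : ∀ c : Fin n, ((Xᴴ * X) c c).re = ∑ e, ‖X e c‖ ^ 2 := by
    intro c
    rw [Matrix.mul_apply, Complex.re_sum]
    apply Finset.sum_congr rfl
    intro e _
    rw [conjTranspose_apply, Complex.star_def, mul_comm, Complex.mul_conj, Complex.ofReal_re,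
      Complex.normSq_eq_norm_sq]
  have h2 : ‖(Xᴴ * X) c d‖ ≤ ∑ e, (‖X e c‖ ^ 2 + ‖X e d‖ ^ 2) / 2 := by
    rw [Matrix.mul_apply]
    refine (norm_sum_le _ _).trans (Finset.sum_le_sum fun e _ => ?_)
    rw [norm_mul, conjTranspose_apply, norm_star]
    nlinarith [sq_nonneg (‖X e c‖ - ‖X e d‖)]
  rw [← Finset.sum_div, Finset.sum_add_distrib, ← h1, ← h1] at h2
  linarith

/-- The trace of a projection is a natural number. -/
lemma trace_nat_of_idem {A : Matrix (Fin n) (Fin n) ℂ} (hA : A.IsHermitian) (h : A * A = A) :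
    ∃ k : ℕ, A.trace.re = k := by
  have h1 : ∀ i, hA.eigenvalues i = 0 ∨ hA.eigenvalues i = 1 := by
    intro i
    have h2 := hA.mulVec_eigenvectorBasis i
    have h3 : A *ᵥ (A *ᵥ (hA.eigenvectorBasis i)) = A *ᵥ (hA.eigenvectorBasis i) := by
      rw [Matrix.mulVec_mulVec, h]
    rw [h2, Matrix.mulVec_smul, h2, smul_smul] at h3
    have h4 : (hA.eigenvalues i * hA.eigenvalues i - hA.eigenvalues i) •
        (hA.eigenvectorBasis i).ofLp = 0 := by
      rw [sub_smul, h3, sub_self]
    rcases smul_eq_zero.mp h4 with h5 | h5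
    · have h6 : hA.eigenvalues i * (hA.eigenvalues i - 1) = 0 := by linarith
      rcases mul_eq_zero.mp h6 with h7 | h7
      · exact Or.inl h7
      · exact Or.inr (by linarith)
    · exfalso
      apply (hA.eigenvectorBasis.orthonormal.ne_zero i)
      ext j
      exact congrFun h5 j
  have h2 : A.trace = ∑ i, (hA.eigenvalues i : ℂ) := hA.trace_eq_sum_eigenvalues
  classical
  refine ⟨(Finset.univ.filter fun i => hA.eigenvalues i = 1).card, ?_⟩
  rw [h2, Complex.re_sum, Finset.card_filter]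
  push_cast
  apply Finset.sum_congr rfl
  intro i _
  rw [Complex.ofReal_re]
  rcases h1 i with h3 | h3
  · rw [h3]
    simp
  · rw [h3]
    simp

/-- A projection of trace one has rank one. -/
lemma rank_one_of_idem {C : Matrix (Fin n) (Fin n) ℂ} (hC : C.IsHermitian) (h : C * C = C)
    (htr : C.trace.re = 1) : ∃ v : Fin n → ℂ, (∀ c d, C c d = v c * (starRingEnd ℂ) (v d)) ∧
      ∑ c, ‖v c‖ ^ 2 = 1 := by
  -- a nonzero diagonal entry
  have hdiag : ∀ c, C c c = ((∑ e, ‖C e c‖ ^ 2 : ℝ) : ℂ) := by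
    intro c
    have h1 : C c c = (Cᴴ * C) c c := by rw [hC.eq, h]
    rw [h1, Matrix.mul_apply]
    push_cast
    apply Finset.sum_congr rfl
    intro e _
    rw [conjTranspose_apply, Complex.star_def, mul_comm, Complex.mul_conj,
      Complex.normSq_eq_norm_sq]
    push_cast
    rfl
  obtain ⟨o, ho⟩ : ∃ o, C o o ≠ 0 := by
    by_contra hcon
    push Not at hcon
    rw [Matrix.trace, Complex.re_sum] at htr
    simp [hcon] at htr
  set a : ℝ := ∑ e, ‖C e o‖ ^ 2 with ha
  have hCo : C o o = (a : ℂ) := hdiag o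
  have ha0 : 0 ≤ a := Finset.sum_nonneg fun e _ => sq_nonneg _
  have hapos : 0 < a := by
    rcases ha0.lt_or_eq with h1 | h1
    · exact h1
    · exfalso
      apply ho
      rw [hCo, ← h1]
      simp
  have hac : (a : ℂ) ≠ 0 := by exact_mod_cast hapos.ne'
  have hsymm : ∀ c d, C d c = (starRingEnd ℂ) (C c d) := by
    intro c d
    have := congrFun (congrFun hC.eq d) c
    rw [conjTranspose_apply, Complex.star_def] at this
    exact this.symm
  -- the complementary projection
  set Q : Matrix (Fin n) (Fin n) ℂ := Matrix.of fun c d => C c o * C o d / (a : ℂ) with hQ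
  have hCQ : C * Q = Q := by
    ext c d
    rw [Matrix.mul_apply]
    simp only [hQ, Matrix.of_apply]
    have h1 : ∑ e, C c e * (C e o * C o d / (a : ℂ)) = (∑ e, C c e * C e o) * C o d / (a : ℂ) := by
      rw [Finset.sum_mul, Finset.sum_div]
      apply Finset.sum_congr rfl
      intro e _
      ring
    rw [h1, ← Matrix.mul_apply, h]
  have hQC : Q * C = Q := by
    ext c d
    rw [Matrix.mul_apply]
    simp only [hQ, Matrix.of_apply]
    have h1 : ∑ e, C c o * C o e / (a : ℂ) * C e d = C c o * (∑ e, C o e * C e d) / (a : ℂ) := by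
      rw [Finset.mul_sum, Finset.sum_div]
      apply Finset.sum_congr rfl
      intro e _
      ring
    rw [h1, ← Matrix.mul_apply, h]
  have hQQ : Q * Q = Q := by
    ext c d
    rw [Matrix.mul_apply]
    simp only [hQ, Matrix.of_apply]
    have h1 : ∑ e, C c o * C o e / (a : ℂ) * (C e o * C o d / (a : ℂ)) =
        C c o * (∑ e, C o e * C e o) * C o d / (a : ℂ) / (a : ℂ) := by
      rw [Finset.mul_sum, Finset.sum_mul, Finset.sum_div, Finset.sum_div]
      apply Finset.sum_congr rfl
      intro e _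
      ring
    rw [h1, ← Matrix.mul_apply, h, hCo]
    field_simp
  have hQH : Qᴴ = Q := by
    ext c d
    rw [conjTranspose_apply]
    simp only [hQ, Matrix.of_apply, Complex.star_def, map_div₀, map_mul, Complex.conj_ofReal]
    rw [← hsymm, ← hsymm]
    ring
  have hQtr : Q.trace = 1 := by
    rw [Matrix.trace]
    simp only [Matrix.diag_apply, hQ, Matrix.of_apply]
    rw [← Finset.sum_div]
    have h1 : ∑ c, C c o * C o c = (C * C) o o := by
      rw [Matrix.mul_apply]
      apply Finset.sum_congr rfl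
      intro c _
      ring
    rw [h1, h, hCo, div_self hac]
  have hD : (C - Q)ᴴ * (C - Q) = C - Q := by
    rw [conjTranspose_sub, hC.eq, hQH, Matrix.sub_mul, Matrix.mul_sub, Matrix.mul_sub, h, hCQ,
      hQC, hQQ]
    simp
  have hDre : ((C - Q)ᴴ * (C - Q)).trace.re = 0 := by
    rw [hD, trace_sub, Complex.sub_re, htr, hQtr]
    simp
  have hDim := psd_trace_im (posSemidef_conjTranspose_mul_self (C - Q))
  have hD0 : ((C - Q)ᴴ * (C - Q)).trace = 0 := Complex.ext hDre hDim
  rw [trace_conjTranspose_mul_self_eq_zero_iff] at hD0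
  have hCeq : C = Q := sub_eq_zero.mp hD0
  have hsq : ((Real.sqrt a : ℝ) : ℂ) * ((Real.sqrt a : ℝ) : ℂ) = (a : ℂ) := by
    rw [← Complex.ofReal_mul, Real.mul_self_sqrt ha0]
  have hsq0 : ((Real.sqrt a : ℝ) : ℂ) ≠ 0 := by
    exact_mod_cast (Real.sqrt_pos.mpr hapos).ne'
  have hv : ∀ c d, C c d = (C c o / ((Real.sqrt a : ℝ) : ℂ)) *
      (starRingEnd ℂ) (C d o / ((Real.sqrt a : ℝ) : ℂ)) := by
    intro c d
    rw [map_div₀, Complex.conj_ofReal, ← hsymm]
    conv_lhs => rw [hCeq]
    simp only [hQ, Matrix.of_apply]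
    rw [← hsq]
    field_simp
  refine ⟨fun c => C c o / ((Real.sqrt a : ℝ) : ℂ), hv, ?_⟩
  have h5 : C.trace.re = ∑ c, ‖C c o / ((Real.sqrt a : ℝ) : ℂ)‖ ^ 2 := by
    rw [Matrix.trace, Complex.re_sum]
    apply Finset.sum_congr rfl
    intro c _
    rw [Matrix.diag_apply, hv c c, Complex.mul_conj, Complex.ofReal_re,
      Complex.normSq_eq_norm_sq]
  rw [← h5, htr]

end Pool.Agent.MP_67227b_nt
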