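import Pool.Agent.MP_67227b_nt.FermiDefs44
import Pool.Agent.MP_67227b_nt.MMat44

set_option autoImplicit false

open Filter MeasureTheory Topology Set
open scoped Real ComplexOrder Matrix

namespace Pool.Agent.MP_67227b_nt

/-- The kernel with a scalar symbol. -/
noncomputable def kerE (f : ℝ → ℂ) (v : ℝ) : ℂ :=
  ∫ ξ, f ξ * Complex.exp (2 * π * Complex.I * ((ξ * v : ℝ) : ℂ))

lemma norm_phase (ξ v : ℝ) :
    ‖Complex.exp (2 * π * Complex.I * ((ξ * v : ℝ) : ℂ))‖ = 1 := by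
  rw [show (2 * (π : ℂ) * Complex.I * ((ξ * v : ℝ) : ℂ)) = ((2 * π * (ξ * v) : ℝ) : ℂ) * Complex.I
    by push_cast; ring, Complex.norm_exp_ofReal_mul_I]

lemma integrable_kerE {f : ℝ → ℂ} (hf : Integrable f) (v : ℝ) :
    Integrable fun ξ : ℝ => f ξ * Complex.exp (2 * π * Complex.I * ((ξ * v : ℝ) : ℂ)) := by
  refine hf.mul_bdd (c := 1) (by fun_prop) ?_
  filter_upwards with ξ
  exact (norm_phase ξ v).le

lemma kerE_zero (f : ℝ → ℂ) : kerE f 0 = ∫ ξ, f ξ := by
  unfold kerE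
  simp only [mul_zero, Complex.ofReal_zero, Complex.exp_zero, mul_one]

lemma kerE_conj_neg (f : ℝ → ℂ) (v : ℝ) :
    kerE (fun ξ => (starRingEnd ℂ) (f ξ)) (-v) = (starRingEnd ℂ) (kerE f v) := by
  unfold kerE
  rw [← integral_conj]
  congr 1
  ext ξ
  rw [map_mul, ← Complex.exp_conj]
  congr 2
  simp only [map_mul, Complex.conj_I, Complex.conj_ofReal, map_ofNat]
  push_cast
  ring

lemma continuous_kerE {f : ℝ → ℂ} (hf : Integrable f) : Continuous (kerE f) := by
  unfold kerE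
  refine continuous_of_dominated (bound := fun ξ => ‖f ξ‖) ?_ ?_ hf.norm ?_
  · intro v
    exact (integrable_kerE hf v).aestronglyMeasurable
  · intro v
    filter_upwards with ξ
    rw [norm_mul, norm_phase, mul_one]
  · filter_upwards with ξ
    fun_prop

lemma kerE_congr {f g : ℝ → ℂ} (h : f =ᵐ[volume] g) (v : ℝ) : kerE f v = kerE g v := by
  unfold kerE
  apply integral_congr_ae
  filter_upwards [h] with ξ hξ
  rw [hξ]

/-- The kernel of a multiple of the indicator function of an interval of length one is a multiple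
of the sine kernel up to a phase. -/
lemma kerE_indicator (s : ℝ) (z : ℂ) (v : ℝ) : kerE ((Icc s (s + 1)).indicator fun _ => z) v =
    z * (Complex.exp (2 * π * Complex.I * (((s + 1 / 2) * v : ℝ) : ℂ)) *
      (Real.sinc (π * v) : ℂ)) := by
  have h1 : kerE ((Icc s (s + 1)).indicator fun _ => z) v =
      z * ∫ ξ in s..(s + 1), Complex.exp ((2 * π * Complex.I * v) * (ξ : ℂ)) := by
    unfold kerE
    rw [intervalIntegral.integral_of_le (by linarith), ← integral_Icc_eq_integral_Ioc,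
      ← integral_indicator measurableSet_Icc, ← integral_const_mul]
    congr 1
    ext ξ
    by_cases hξ : ξ ∈ Icc s (s + 1)
    · rw [indicator_of_mem hξ, indicator_of_mem hξ]
      push_cast
      congr 2
      ring
    · rw [indicator_of_notMem hξ, indicator_of_notMem hξ]
      simp
  rw [h1]
  congr 1
  by_cases hv : v = 0
  · subst hv
    simp
  · have hc : (2 * π * Complex.I * v : ℂ) ≠ 0 := by
      simp [hv, Real.pi_ne_zero]
    rw [integral_exp_mul_complex hc]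
    have hpv : (π * v : ℝ) ≠ 0 := by
      simp [hv, Real.pi_ne_zero]
    rw [Real.sinc_of_ne_zero hpv]
    have e1 : Complex.exp (2 * π * Complex.I * v * ((s + 1 : ℝ) : ℂ)) =
        Complex.exp (2 * π * Complex.I * (((s + 1 / 2) * v : ℝ) : ℂ)) *
          Complex.exp (((π * v : ℝ) : ℂ) * Complex.I) := by
      rw [← Complex.exp_add]
      congr 1
      push_cast
      ring
    have e2 : Complex.exp (2 * π * Complex.I * v * (s : ℂ)) =
        Complex.exp (2 * π * Complex.I * (((s + 1 / 2) * v : ℝ) : ℂ)) *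
          Complex.exp (-((π * v : ℝ) : ℂ) * Complex.I) := by
      rw [← Complex.exp_add]
      congr 1
      push_cast
      ring
    rw [e1, e2]
    have h3 : ((Real.sin (π * v) / (π * v) : ℝ) : ℂ) =
        (Complex.exp (-((π * v : ℝ) : ℂ) * Complex.I) - Complex.exp (((π * v : ℝ) : ℂ) * Complex.I)) *
          Complex.I / 2 / ((π * v : ℝ) : ℂ) := by
      rw [Complex.ofReal_div, Complex.ofReal_sin]
      rfl
    rw [h3]
    have hpi : (π : ℂ) ≠ 0 := by exact_mod_cast Real.pi_ne_zero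
    have hvc : (v : ℂ) ≠ 0 := by exact_mod_cast hv
    push_cast
    field_simp
    ring_nf
    rw [Complex.I_sq]
    ring

variable {n : ℕ}

/-- A symbol of a determinantal process with `n` types. -/
structure IsSymbol (Φ : ℝ → Matrix (Fin n) (Fin n) ℂ) : Prop where
  meas : ∀ c d, Measurable (fun ξ => Φ ξ c d)
  eff : ∀ ξ, IsEffect (Φ ξ)
  integrable : Integrable (fun ξ => (Φ ξ).trace.re)

lemma kerOf_apply (Φ : ℝ → Matrix (Fin n) (Fin n) ℂ) (v : ℝ) (c d : Fin n) :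
    kerOf Φ v c d = kerE (fun ξ => Φ ξ c d) v := rfl

lemma IsSymbol.integrable_entry {Φ : ℝ → Matrix (Fin n) (Fin n) ℂ} (h : IsSymbol Φ)
    (c d : Fin n) : Integrable (fun ξ => Φ ξ c d) := by
  refine h.integrable.mono' (h.meas c d).aestronglyMeasurable (Eventually.of_forall fun ξ => ?_)
  exact norm_entry_le (h.eff ξ).1 c d

lemma IsSymbol.conj_entry {Φ : ℝ → Matrix (Fin n) (Fin n) ℂ} (h : IsSymbol Φ) (ξ : ℝ)
    (c d : Fin n) : Φ ξ d c = (starRingEnd ℂ) (Φ ξ c d) := by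
  have := congrFun (congrFun (h.eff ξ).1.isHermitian.eq d) c
  rw [Matrix.conjTranspose_apply, Complex.star_def] at this
  exact this.symm

lemma IsSymbol.kerOf_neg {Φ : ℝ → Matrix (Fin n) (Fin n) ℂ} (h : IsSymbol Φ) (v : ℝ)
    (c d : Fin n) : kerOf Φ (-v) d c = (starRingEnd ℂ) (kerOf Φ v c d) := by
  rw [kerOf_apply, kerOf_apply, ← kerE_conj_neg]
  congr 1
  ext ξ
  exact h.conj_entry ξ c d

/-- The intensity of the points of type `c`. -/
noncomputable def dens1 (Φ : ℝ → Matrix (Fin n) (Fin n) ℂ) (c : Fin n) : ℝ :=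
  ∫ ξ, (Φ ξ c c).re

lemma IsSymbol.kerOf_zero {Φ : ℝ → Matrix (Fin n) (Fin n) ℂ} (h : IsSymbol Φ) (c : Fin n) :
    kerOf Φ 0 c c = (dens1 Φ c : ℂ) := by
  rw [kerOf_apply, kerE_zero, dens1, ← integral_complex_ofReal]
  congr 1
  ext ξ
  have h1 := h.conj_entry ξ c c
  exact (Complex.conj_eq_iff_re.mp h1.symm).symm

lemma IsSymbol.sum_dens {Φ : ℝ → Matrix (Fin n) (Fin n) ℂ} (h : IsSymbol Φ) :
    ∑ c, dens1 Φ c = ∫ ξ, (Φ ξ).trace.re := by
  have h1 : ∫ ξ, (Φ ξ).trace.re = ∫ ξ, ∑ c, (Φ ξ c c).re := by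
    congr 1
    ext ξ
    rw [Matrix.trace, Complex.re_sum]
    rfl
  have h2 : ∀ c, Integrable (fun ξ => (Φ ξ c c).re) := fun c => (h.integrable_entry c c).re
  rw [h1, integral_finsetSum _ fun c _ => h2 c]
  rfl

lemma frob_le {A : Matrix (Fin n) (Fin n) ℂ} (hA : A.PosSemidef) :
    ∑ c, ∑ d, ‖A c d‖ ^ 2 ≤ A.trace.re ^ 2 := by
  obtain ⟨X, rfl⟩ := psd_factor hA
  have h1 : ∀ c : Fin n, ((Xᴴ * X) c c).re = ∑ e, ‖X e c‖ ^ 2 := by
    intro c
    rw [Matrix.mul_apply, Complex.re_sum]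
    apply Finset.sum_congr rfl
    intro e _
    rw [Matrix.conjTranspose_apply, Complex.star_def, mul_comm, Complex.mul_conj,
      Complex.ofReal_re, Complex.normSq_eq_norm_sq]
  have h2 : ∀ c d : Fin n, ‖(Xᴴ * X) c d‖ ^ 2 ≤ (∑ e, ‖X e c‖ ^ 2) * ∑ e, ‖X e d‖ ^ 2 := by
    intro c d
    have h3 : ‖(Xᴴ * X) c d‖ ≤ ∑ e, ‖X e c‖ * ‖X e d‖ := by
      rw [Matrix.mul_apply]
      refine (norm_sum_le _ _).trans (Finset.sum_le_sum fun e _ => ?_)
      rw [norm_mul, Matrix.conjTranspose_apply, norm_star]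
    calc ‖(Xᴴ * X) c d‖ ^ 2 ≤ (∑ e, ‖X e c‖ * ‖X e d‖) ^ 2 := by gcongr
      _ ≤ _ := Finset.sum_mul_sq_le_sq_mul_sq _ _ _
  have h4 : (Xᴴ * X).trace.re = ∑ c, ∑ e, ‖X e c‖ ^ 2 := by
    rw [Matrix.trace, Complex.re_sum]
    exact Finset.sum_congr rfl fun c _ => h1 c
  rw [h4, sq, Finset.sum_mul_sum]
  exact Finset.sum_le_sum fun c _ => Finset.sum_le_sum fun d _ => h2 c d

/-- The sum of the squared moduli of the entries of the kernel is at most the square of the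
intensity. -/
lemma IsSymbol.sum_norm_sq_le {Φ : ℝ → Matrix (Fin n) (Fin n) ℂ} (h : IsSymbol Φ) (v : ℝ) :
    ∑ c, ∑ d, ‖kerOf Φ v c d‖ ^ 2 ≤ (∫ ξ, (Φ ξ).trace.re) ^ 2 := by
  set F : ℝ → EuclideanSpace ℂ (Fin n × Fin n) := fun ξ =>
    WithLp.toLp 2 fun p => Φ ξ p.1 p.2 *
      Complex.exp (2 * π * Complex.I * ((ξ * v : ℝ) : ℂ)) with hF
  have hent : ∀ p : Fin n × Fin n, Integrable fun ξ => Φ ξ p.1 p.2 *
      Complex.exp (2 * π * Complex.I * ((ξ * v : ℝ) : ℂ)) := fun p =>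
    integrable_kerE (h.integrable_entry p.1 p.2) v
  have hFi : Integrable F := by
    have h1 : Integrable (fun ξ => (fun p : Fin n × Fin n => Φ ξ p.1 p.2 *
        Complex.exp (2 * π * Complex.I * ((ξ * v : ℝ) : ℂ)))) := Integrable.of_eval hent
    exact (PiLp.continuousLinearEquiv 2 ℂ (fun _ : Fin n × Fin n => ℂ)).symm.toContinuousLinearMap.integrable_comp h1
  have hnorm : ∀ ξ, ‖F ξ‖ ≤ (Φ ξ).trace.re := by
    intro ξ
    have h0 := psd_trace_re_nonneg (h.eff ξ).1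
    rw [EuclideanSpace.norm_eq]
    apply Real.sqrt_le_iff.mpr
    refine ⟨h0, ?_⟩
    have h1 := frob_le (h.eff ξ).1
    rw [Fintype.sum_prod_type]
    refine le_trans (le_of_eq ?_) h1
    apply Finset.sum_congr rfl
    intro c _
    apply Finset.sum_congr rfl
    intro d _
    simp only [hF]
    rw [norm_mul, norm_phase, mul_one]
  have h1 : ‖∫ ξ, F ξ‖ ≤ ∫ ξ, (Φ ξ).trace.re :=
    norm_integral_le_of_norm_le h.integrable (Eventually.of_forall hnorm)
  have h2 : ∀ p : Fin n × Fin n, (∫ ξ, F ξ) p = kerOf Φ v p.1 p.2 := by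
    intro p
    exact (ContinuousLinearMap.integral_comp_comm (EuclideanSpace.proj p :
      EuclideanSpace ℂ (Fin n × Fin n) →L[ℂ] ℂ) hFi).symm
  have h3 : ‖∫ ξ, F ξ‖ ^ 2 = ∑ c, ∑ d, ‖kerOf Φ v c d‖ ^ 2 := by
    rw [EuclideanSpace.norm_sq_eq, Fintype.sum_prod_type]
    exact Finset.sum_congr rfl fun c _ => Finset.sum_congr rfl fun d _ => by rw [h2 (c, d)]
  rw [← h3]
  gcongr

lemma typeDet_zero {Φ : ℝ → Matrix (Fin n) (Fin n) ℂ} (h : IsSymbol Φ) (u : Fin 0 → ℝ) :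
    typeDet Φ 0 u = ∫ ξ, (Φ ξ).trace.re := by
  unfold typeDet
  rw [← h.sum_dens, ← (Equiv.funUnique (Fin 1) (Fin n)).symm.sum_comp]
  apply Finset.sum_congr rfl
  intro j _
  have h1 : ∀ M : Matrix (Fin (0 + 1)) (Fin (0 + 1)) ℂ, M.det = M 0 0 :=
    fun M => Matrix.det_fin_one M
  rw [h1, Matrix.of_apply, sub_self]
  change (kerOf Φ 0 j j).re = _
  rw [h.kerOf_zero, Complex.ofReal_re]

lemma typeDet_one {Φ : ℝ → Matrix (Fin n) (Fin n) ℂ} (h : IsSymbol Φ) (u : Fin 1 → ℝ) :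
    typeDet Φ 1 u = (∫ ξ, (Φ ξ).trace.re) ^ 2 - ∑ c, ∑ d, ‖kerOf Φ (u 0) c d‖ ^ 2 := by
  have h0 : (Fin.snoc u (0 : ℝ) : Fin 2 → ℝ) 0 = u 0 := rfl
  have h1 : (Fin.snoc u (0 : ℝ) : Fin 2 → ℝ) 1 = 0 := rfl
  have key : ∀ c : Fin 2 → Fin n, (Matrix.det (Matrix.of fun i k : Fin 2 =>
      kerOf Φ ((Fin.snoc u (0 : ℝ) : Fin 2 → ℝ) i -
        (Fin.snoc u (0 : ℝ) : Fin 2 → ℝ) k) (c i) (c k))).re =
      dens1 Φ (c 0) * dens1 Φ (c 1) - ‖kerOf Φ (u 0) (c 0) (c 1)‖ ^ 2 := by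
    intro c
    rw [Matrix.det_fin_two]
    simp only [Matrix.of_apply, h0, h1, sub_self, sub_zero, zero_sub, h.kerOf_zero]
    rw [h.kerOf_neg, Complex.mul_conj, Complex.sub_re, ← Complex.ofReal_mul, Complex.ofReal_re,
      Complex.ofReal_re, Complex.normSq_eq_norm_sq]
  unfold typeDet
  rw [Finset.sum_congr rfl (fun c _ => key c),
    ← (finTwoArrowEquiv (Fin n)).symm.sum_comp, Fintype.sum_prod_type]
  simp only [finTwoArrowEquiv_symm_apply, Matrix.cons_val_zero, Matrix.cons_val_one]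
  simp only [Finset.sum_sub_distrib]
  rw [← Finset.sum_mul_sum, h.sum_dens, sq]

/-- If the symbol is a fixed projection of rank one on an interval of length one and vanishes
elsewhere, the process has the correlations of the sine kernel. -/
lemma typeDet_eq_sineDet {Φ : ℝ → Matrix (Fin n) (Fin n) ℂ} {s : ℝ}
    {C : Matrix (Fin n) (Fin n) ℂ} (hC : C.IsHermitian) (hCC : C * C = C) (htr : C.trace.re = 1)
    (hΦ : Φ =ᵐ[volume] (Icc s (s + 1)).indicator fun _ => C) (m : ℕ) (u : Fin m → ℝ) :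
    typeDet Φ m u = sineDet m u := by
  obtain ⟨v, hv, hv1⟩ := rank_one_of_idem hC hCC htr
  set x : Fin (m + 1) → ℝ := Fin.snoc u (0 : ℝ) with hx
  have hker : ∀ (t : ℝ) (c d : Fin n), kerOf Φ t c d = C c d *
      (Complex.exp (2 * π * Complex.I * (((s + 1 / 2) * t : ℝ) : ℂ)) *
        (Real.sinc (π * t) : ℂ)) := by
    intro t c d
    rw [kerOf_apply, ← kerE_indicator]
    apply kerE_congr
    filter_upwards [hΦ] with ξ hξ
    rw [hξ]
    by_cases h1 : ξ ∈ Icc s (s + 1)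
    · rw [indicator_of_mem h1, indicator_of_mem h1]
    · rw [indicator_of_notMem h1, indicator_of_notMem h1]
      rfl
  have key : ∀ c : Fin (m + 1) → Fin n, (Matrix.det (Matrix.of fun i k : Fin (m + 1) =>
      kerOf Φ (x i - x k) (c i) (c k))).re = (∏ i, ‖v (c i)‖ ^ 2) * sineDet m u := by
    intro c
    have e : (Matrix.of fun i k : Fin (m + 1) => kerOf Φ (x i - x k) (c i) (c k)) =
        Matrix.diagonal (fun i => v (c i) *
          Complex.exp (2 * π * Complex.I * (((s + 1 / 2) * x i : ℝ) : ℂ))) *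
        ((sineMatrix x).map (fun t : ℝ => (t : ℂ))) *
        Matrix.diagonal (fun i => (starRingEnd ℂ) (v (c i)) * Complex.exp
          (-(2 * π * Complex.I * (((s + 1 / 2) * x i : ℝ) : ℂ)))) := by
      ext i k
      rw [Matrix.mul_diagonal, Matrix.diagonal_mul, Matrix.of_apply, Matrix.map_apply,
        hker, hv, sineMatrix, Matrix.of_apply]
      have e2 : Complex.exp (2 * π * Complex.I * (((s + 1 / 2) * (x i - x k) : ℝ) : ℂ)) =
          Complex.exp (2 * π * Complex.I * (((s + 1 / 2) * x i : ℝ) : ℂ)) *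
            Complex.exp (-(2 * π * Complex.I * (((s + 1 / 2) * x k : ℝ) : ℂ))) := by
        rw [← Complex.exp_add]
        congr 1
        push_cast
        ring
      rw [e2]
      ring
    rw [e, Matrix.det_mul, Matrix.det_mul, Matrix.det_diagonal, Matrix.det_diagonal]
    have e3 : ((sineMatrix x).map (fun t : ℝ => (t : ℂ))).det = (((sineMatrix x).det : ℝ) : ℂ) :=
      (RingHom.map_det (Complex.ofRealHom) (sineMatrix x)).symm
    have e4 : (∏ i, (v (c i) *
        Complex.exp (2 * π * Complex.I * (((s + 1 / 2) * x i : ℝ) : ℂ)))) *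
        ∏ i, ((starRingEnd ℂ) (v (c i)) *
          Complex.exp (-(2 * π * Complex.I * (((s + 1 / 2) * x i : ℝ) : ℂ)))) =
        ((∏ i, ‖v (c i)‖ ^ 2 : ℝ) : ℂ) := by
      rw [← Finset.prod_mul_distrib, Complex.ofReal_prod]
      apply Finset.prod_congr rfl
      intro i _
      rw [mul_mul_mul_comm, ← Complex.exp_add, add_neg_cancel, Complex.exp_zero, mul_one,
        Complex.mul_conj, Complex.normSq_eq_norm_sq]
    rw [e3, mul_right_comm, e4, ← Complex.ofReal_mul, Complex.ofReal_re]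
    rfl
  unfold typeDet
  rw [Finset.sum_congr rfl (fun c _ => key c), ← Finset.sum_mul]
  have h5 : ∑ c : Fin (m + 1) → Fin n, ∏ i, ‖v (c i)‖ ^ 2 = 1 := by
    have h6 := Finset.prod_univ_sum (fun _ : Fin (m + 1) => (Finset.univ : Finset (Fin n)))
      (fun _ d => ‖v d‖ ^ 2)
    rw [Fintype.piFinset_univ] at h6
    rw [← h6, hv1]
    simp
  rw [h5, one_mul]

end Pool.Agent.MP_67227b_nt
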