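import Pool.Agent.MP_67227b_nt.Four44
import Pool.Agent.MP_67227b_nt.Intv44
import Pool.Agent.MP_67227b_nt.Ker44

set_option autoImplicit false

open Filter MeasureTheory Topology Set
open scoped Real ContDiff Convolution ComplexOrder

namespace Pool.Agent.MP_67227b_nt

lemma integral_fin_one {E : Type*} [NormedAddCommGroup E] [NormedSpace ℝ E] (F : ℝ → E) :
    ∫ x : Fin 1 → ℝ, F (x 0) = ∫ t, F t :=
  (volume_preserving_funUnique (Fin 1) ℝ).integral_comp
    (MeasurableEquiv.funUnique (Fin 1) ℝ).measurableEmbedding F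

lemma integrable_fin_one {E : Type*} [NormedAddCommGroup E] {F : ℝ → E} :
    Integrable (fun x : Fin 1 → ℝ => F (x 0)) ↔ Integrable F :=
  (volume_preserving_funUnique (Fin 1) ℝ).integrable_comp_emb
    (MeasurableEquiv.funUnique (Fin 1) ℝ).measurableEmbedding (g := F)

lemma fin_one_eta (x : Fin 1 → ℝ) : (fun _ : Fin 1 => x 0) = x := by
  ext i
  rw [Subsingleton.elim i 0]

lemma synth_fin_one (f : ℝ → ℂ) (u : Fin 1 → ℝ) :
    synth (fun x : Fin 1 → ℝ => f (x 0)) u = kerE f (u 0) := by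
  unfold synth kerE
  rw [← integral_fin_one]
  congr 1
  ext x
  unfold ee
  simp

lemma kerE_reflect (f : ℝ → ℂ) (v : ℝ) : kerE (fun ξ => f (-ξ)) v = kerE f (-v) := by
  unfold kerE
  rw [← integral_neg_eq_self (fun ξ : ℝ => f ξ *
    Complex.exp (2 * π * Complex.I * ((ξ * -v : ℝ) : ℂ)))]
  congr 1
  ext ξ
  rw [neg_mul_neg]

/-- The squared modulus of a kernel is the Fourier transform of the autocorrelation. -/
lemma pair_parseval {Ω : Set (Fin 1 → ℝ)} {ψ : (Fin 1 → ℝ) → ℂ} (h : IsBand Ω ψ)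
    {f : ℝ → ℂ} (hf : Integrable f) :
    ∫ u : Fin 1 → ℝ, synth ψ u * ((‖kerE f (u 0)‖ ^ 2 : ℝ) : ℂ) =
      ∫ ξ : ℝ, ψ (fun _ => ξ) * ∫ η : ℝ, f η * (starRingEnd ℂ) (f (η + ξ)) := by
  set Φ : (Fin 1 → ℝ) → ℂ := fun x => f (x 0) with hΦ
  set Φ' : (Fin 1 → ℝ) → ℂ := fun x => (starRingEnd ℂ) (f (-(x 0))) with hΦ'
  have hfc : Integrable (fun t => (starRingEnd ℂ) (f t)) :=
    (LinearIsometryEquiv.integrable_comp_iff Complex.conjLIE).mpr hf
  have i1 : Integrable Φ := (integrable_fin_one (F := f)).mpr hf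
  have i2 : Integrable Φ' :=
    (integrable_fin_one (F := fun t => (starRingEnd ℂ) (f (-t)))).mpr hfc.comp_neg
  have h1 : ∀ u : Fin 1 → ℝ, ((‖kerE f (u 0)‖ ^ 2 : ℝ) : ℂ) = synth (conv Φ Φ') u := by
    intro u
    rw [synth_conv i1 i2, hΦ, hΦ', synth_fin_one, synth_fin_one
      (fun ξ => (starRingEnd ℂ) (f (-ξ))), kerE_reflect (fun ξ => (starRingEnd ℂ) (f ξ)),
      kerE_conj_neg, Complex.mul_conj, Complex.normSq_eq_norm_sq]
  have hconv : Integrable (conv Φ Φ') := i1.integrable_convolution _ i2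
  simp only [h1]
  rw [parseval_synth h hconv,
    ← integral_neg_eq_self (fun ξ => ψ (-ξ) * conv Φ Φ' ξ), ← integral_fin_one]
  congr 1
  ext ξ
  rw [neg_neg, fin_one_eta]
  congr 1
  unfold conv convolution
  simp only [ContinuousLinearMap.mul_apply']
  have e : ∀ t : Fin 1 → ℝ, Φ t * Φ' (-ξ - t) =
      ((fun s : ℝ => f s * (starRingEnd ℂ) (f (s + ξ 0))) (t 0)) := by
    intro t
    simp only [hΦ, hΦ', Pi.sub_apply, Pi.neg_apply]
    congr 3
    ring
  simp only [e]
  exact integral_fin_one (fun s : ℝ => f s * (starRingEnd ℂ) (f (s + ξ 0)))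

variable {n : ℕ}

/-- The autocorrelation of a symbol. -/
noncomputable def mcorr (Φ : ℝ → Matrix (Fin n) (Fin n) ℂ) (ξ : ℝ) : ℝ :=
  ∫ η, (Φ η * Φ (η + ξ)).trace.re

/-- The trace of a symbol. -/
noncomputable def tr (Φ : ℝ → Matrix (Fin n) (Fin n) ℂ) (ξ : ℝ) : ℝ := (Φ ξ).trace.re

lemma IsSymbol.tr_nonneg {Φ : ℝ → Matrix (Fin n) (Fin n) ℂ} (h : IsSymbol Φ) (ξ : ℝ) :
    0 ≤ tr Φ ξ := psd_trace_re_nonneg (h.eff ξ).1

lemma IsSymbol.integrable_tr {Φ : ℝ → Matrix (Fin n) (Fin n) ℂ} (h : IsSymbol Φ) :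
    Integrable (tr Φ) := h.integrable

lemma IsSymbol.measurable_mul {Φ : ℝ → Matrix (Fin n) (Fin n) ℂ} (h : IsSymbol Φ) :
    Measurable fun p : ℝ × ℝ => (Φ p.1 * Φ (p.1 + p.2)).trace.re := by
  have e : (fun p : ℝ × ℝ => (Φ p.1 * Φ (p.1 + p.2)).trace.re) = fun p : ℝ × ℝ =>
      (∑ c, ∑ d, Φ p.1 c d * Φ (p.1 + p.2) d c).re := by
    ext p
    rw [Matrix.trace]
    simp only [Matrix.diag_apply, Matrix.mul_apply]
  rw [e]
  apply Complex.measurable_re.comp
  apply Finset.measurable_sum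
  intro c _
  apply Finset.measurable_sum
  intro d _
  exact ((h.meas c d).comp measurable_fst).mul
    ((h.meas d c).comp (measurable_fst.add measurable_snd))

lemma IsSymbol.abs_mul_le {Φ : ℝ → Matrix (Fin n) (Fin n) ℂ} (h : IsSymbol Φ) (η ζ : ℝ) :
    |(Φ η * Φ ζ).trace.re| ≤ tr Φ η := by
  rw [abs_of_nonneg (trace_mul_re_nonneg (h.eff η).1 (h.eff ζ).1)]
  exact (h.eff η).trace_mul_le (h.eff ζ)

lemma IsSymbol.integrable_mul {Φ : ℝ → Matrix (Fin n) (Fin n) ℂ} (h : IsSymbol Φ) (ξ : ℝ) :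
    Integrable fun η => (Φ η * Φ (η + ξ)).trace.re := by
  refine h.integrable.mono' ?_ (Eventually.of_forall fun η => h.abs_mul_le η _)
  exact (h.measurable_mul.comp (measurable_id.prodMk measurable_const)).aestronglyMeasurable

lemma IsSymbol.mcorr_nonneg {Φ : ℝ → Matrix (Fin n) (Fin n) ℂ} (h : IsSymbol Φ) (ξ : ℝ) :
    0 ≤ mcorr Φ ξ :=
  integral_nonneg fun _ => trace_mul_re_nonneg (h.eff _).1 (h.eff _).1

lemma norm_sum_le_traces {A B : Matrix (Fin n) (Fin n) ℂ} (hA : A.PosSemidef)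
    (hB : B.PosSemidef) : (A * B).trace.re ≤ n * (n * (A.trace.re * B.trace.re)) := by
  have e : (A * B).trace = ∑ c, ∑ d, A c d * B d c := by
    rw [Matrix.trace]
    simp only [Matrix.diag_apply, Matrix.mul_apply]
  refine (Complex.re_le_norm _).trans ?_
  rw [e]
  calc ‖∑ c, ∑ d, A c d * B d c‖ ≤ ∑ c, ∑ d, ‖A c d * B d c‖ :=
        (norm_sum_le _ _).trans (Finset.sum_le_sum fun c _ => norm_sum_le _ _)
    _ ≤ ∑ _c : Fin n, ∑ _d : Fin n, A.trace.re * B.trace.re := by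
        refine Finset.sum_le_sum fun c _ => Finset.sum_le_sum fun d _ => ?_
        rw [norm_mul]
        exact mul_le_mul (norm_entry_le hA c d) (norm_entry_le hB d c) (norm_nonneg _)
          (psd_trace_re_nonneg hA)
    _ = n * (n * (A.trace.re * B.trace.re)) := by simp

lemma IsSymbol.integrable_mul_prod {Φ : ℝ → Matrix (Fin n) (Fin n) ℂ} (h : IsSymbol Φ) :
    Integrable (fun p : ℝ × ℝ => (Φ p.1 * Φ (p.1 + p.2)).trace.re) (volume.prod volume) := by
  have h1 : Integrable (fun p : ℝ × ℝ => tr Φ p.1 * tr Φ p.2) (volume.prod volume) :=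
    h.integrable.mul_prod h.integrable
  have hmp : MeasurePreserving (fun p : ℝ × ℝ => (p.1, p.1 + p.2)) (volume.prod volume)
      (volume.prod volume) := measurePreserving_prod_add volume volume
  have h2 : Integrable (fun p : ℝ × ℝ => n * (n * (tr Φ p.1 * tr Φ (p.1 + p.2))))
      (volume.prod volume) := ((hmp.integrable_comp_of_integrable h1).const_mul _).const_mul _
  refine h2.mono' h.measurable_mul.aestronglyMeasurable (Eventually.of_forall fun p => ?_)
  rw [Real.norm_of_nonneg (trace_mul_re_nonneg (h.eff _).1 (h.eff _).1)]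
  exact norm_sum_le_traces (h.eff _).1 (h.eff _).1

lemma IsSymbol.integrable_mcorr {Φ : ℝ → Matrix (Fin n) (Fin n) ℂ} (h : IsSymbol Φ) :
    Integrable (mcorr Φ) := h.integrable_mul_prod.integral_prod_right

lemma IsSymbol.integral_mcorr_le {Φ : ℝ → Matrix (Fin n) (Fin n) ℂ} (h : IsSymbol Φ) :
    ∫ ξ, mcorr Φ ξ ≤ n * (n * (∫ ξ, tr Φ ξ) ^ 2) := by
  have h1 : ∫ ξ, mcorr Φ ξ = ∫ p : ℝ × ℝ, (Φ p.1 * Φ (p.1 + p.2)).trace.re := by
    rw [Measure.volume_eq_prod, integral_prod_symm _ h.integrable_mul_prod]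
    rfl
  have h2 : Integrable (fun p : ℝ × ℝ => tr Φ p.1 * tr Φ p.2) (volume.prod volume) :=
    h.integrable.mul_prod h.integrable
  have hmp : MeasurePreserving (fun p : ℝ × ℝ => (p.1, p.1 + p.2)) (volume.prod volume)
      (volume.prod volume) := measurePreserving_prod_add volume volume
  have h3 : Integrable (fun p : ℝ × ℝ => tr Φ p.1 * tr Φ (p.1 + p.2)) (volume.prod volume) :=
    hmp.integrable_comp_of_integrable h2
  have h4 : ∫ p : ℝ × ℝ, tr Φ p.1 * tr Φ (p.1 + p.2) = (∫ ξ, tr Φ ξ) ^ 2 := by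
    rw [Measure.volume_eq_prod, integral_prod _ h3]
    have h5 : ∀ x : ℝ, ∫ y, tr Φ x * tr Φ (x + y) = tr Φ x * ∫ y, tr Φ y := by
      intro x
      rw [integral_const_mul, integral_add_left_eq_self (tr Φ) x]
    simp only [h5]
    rw [integral_mul_const, sq]
  rw [h1, ← h4, ← integral_const_mul, ← integral_const_mul]
  apply integral_mono
  · rw [Measure.volume_eq_prod]
    exact h.integrable_mul_prod
  · rw [Measure.volume_eq_prod]
    exact (h3.const_mul _).const_mul _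
  · intro p
    exact norm_sum_le_traces (h.eff _).1 (h.eff _).1

/-- The sum of the autocorrelations of the entries. -/
lemma IsSymbol.sum_corr {Φ : ℝ → Matrix (Fin n) (Fin n) ℂ} (h : IsSymbol Φ) (ξ : ℝ) :
    ∑ c, ∑ d, ∫ η : ℝ, Φ η c d * (starRingEnd ℂ) (Φ (η + ξ) c d) = (mcorr Φ ξ : ℂ) := by
  have hi : ∀ c d, Integrable fun η : ℝ => Φ η c d * (starRingEnd ℂ) (Φ (η + ξ) c d) := by
    intro c d
    refine (h.integrable_entry c d).mul_bdd (c := n) ?_ (Eventually.of_forall fun η => ?_)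
    · exact (Complex.continuous_conj.measurable.comp
        ((h.meas c d).comp (measurable_id.add_const ξ))).aestronglyMeasurable
    · rw [RCLike.norm_conj]
      refine (norm_entry_le (h.eff _).1 c d).trans ?_
      have h1 := psd_trace_re_nonneg (h.eff (η + ξ)).2
      rw [Matrix.trace_sub, Matrix.trace_one, Complex.sub_re, Fintype.card_fin,
        Complex.natCast_re] at h1
      linarith
  unfold mcorr
  rw [← integral_complex_ofReal]
  have h1 : ∀ η : ℝ, (((Φ η * Φ (η + ξ)).trace.re : ℝ) : ℂ) =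
      ∑ c, ∑ d, Φ η c d * (starRingEnd ℂ) (Φ (η + ξ) c d) := by
    intro η
    have h2 : (((Φ η * Φ (η + ξ)).trace.re : ℝ) : ℂ) = (Φ η * Φ (η + ξ)).trace := by
      apply Complex.ext
      · rw [Complex.ofReal_re]
      · rw [Complex.ofReal_im, trace_mul_im (h.eff η).1 (h.eff _).1]
    rw [h2, Matrix.trace]
    simp only [Matrix.diag_apply, Matrix.mul_apply]
    refine Finset.sum_congr rfl fun c _ => Finset.sum_congr rfl fun d _ => ?_
    rw [h.conj_entry (η + ξ) c d]
  simp only [h1]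
  rw [integral_finsetSum _ fun c _ => integrable_finsetSum _ fun d _ => hi c d]
  refine Finset.sum_congr rfl fun c _ => ?_
  rw [integral_finsetSum _ fun d _ => hi c d]

/-- Parseval's formula for a symbol. -/
lemma IsSymbol.parseval {Φ : ℝ → Matrix (Fin n) (Fin n) ℂ} (h : IsSymbol Φ)
    {Ω : Set (Fin 1 → ℝ)} {ψ : (Fin 1 → ℝ) → ℂ} (hψ : IsBand Ω ψ) :
    ∫ u : Fin 1 → ℝ, synth ψ u * ((∑ c, ∑ d, ‖kerOf Φ (u 0) c d‖ ^ 2 : ℝ) : ℂ) =
      ∫ ξ : ℝ, ψ (fun _ => ξ) * (mcorr Φ ξ : ℂ) := by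
  have hs := hψ.integrable_synth
  have e1 : ∀ u : Fin 1 → ℝ, synth ψ u * ((∑ c, ∑ d, ‖kerOf Φ (u 0) c d‖ ^ 2 : ℝ) : ℂ) =
      ∑ c, ∑ d, synth ψ u * ((‖kerE (fun ξ => Φ ξ c d) (u 0)‖ ^ 2 : ℝ) : ℂ) := by
    intro u
    rw [Complex.ofReal_sum, Finset.mul_sum]
    refine Finset.sum_congr rfl fun c _ => ?_
    rw [Complex.ofReal_sum, Finset.mul_sum]
    rfl
  have hi : ∀ c d, Integrable fun u : Fin 1 → ℝ =>
      synth ψ u * ((‖kerE (fun ξ => Φ ξ c d) (u 0)‖ ^ 2 : ℝ) : ℂ) := by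
    intro c d
    refine hs.mul_bdd (c := (∫ ξ, (Φ ξ).trace.re) ^ 2) ?_ (Eventually.of_forall fun u => ?_)
    · exact (Complex.continuous_ofReal.comp (((continuous_kerE (h.integrable_entry c d)).comp
        (continuous_apply 0)).norm.pow 2)).aestronglyMeasurable
    · rw [Complex.norm_real, Real.norm_of_nonneg (sq_nonneg _)]
      refine le_trans ?_ (h.sum_norm_sq_le (u 0))
      refine le_trans ?_ (Finset.single_le_sum (f := fun c => ∑ d, ‖kerOf Φ (u 0) c d‖ ^ 2)
        (fun c _ => Finset.sum_nonneg fun d _ => sq_nonneg _) (Finset.mem_univ c))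
      exact Finset.single_le_sum (f := fun d => ‖kerOf Φ (u 0) c d‖ ^ 2)
        (fun d _ => sq_nonneg _) (Finset.mem_univ d)
  have hcd : ∀ c d, Integrable fun ξ : ℝ => ψ (fun _ => ξ) *
      ∫ η : ℝ, Φ η c d * (starRingEnd ℂ) (Φ (η + ξ) c d) := by
    intro c d
    obtain ⟨C, hC⟩ := hψ.1.continuous.bounded_above_of_compact_support hψ.2.1
    have hψc : Continuous fun ξ : ℝ => ψ (fun _ => ξ) :=
      hψ.1.continuous.comp (continuous_pi fun _ => continuous_id)
    refine Integrable.bdd_mul (c := C) ?_ hψc.aestronglyMeasurable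
      (Eventually.of_forall fun ξ => hC _)
    have h1 : Integrable (fun p : ℝ × ℝ => Φ p.1 c d * (starRingEnd ℂ) (Φ (p.1 + p.2) c d))
        (volume.prod volume) := by
      have hf := h.integrable_entry c d
      have hfc : Integrable (fun t => (starRingEnd ℂ) (Φ t c d)) :=
        (LinearIsometryEquiv.integrable_comp_iff Complex.conjLIE).mpr hf
      have h2 : Integrable (fun p : ℝ × ℝ => Φ p.1 c d * (starRingEnd ℂ) (Φ p.2 c d))
          (volume.prod volume) := hf.mul_prod hfc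
      have hmp : MeasurePreserving (fun p : ℝ × ℝ => (p.1, p.1 + p.2)) (volume.prod volume)
          (volume.prod volume) := measurePreserving_prod_add volume volume
      exact hmp.integrable_comp_of_integrable h2
    exact h1.integral_prod_right
  simp only [e1]
  rw [integral_finsetSum _ fun c _ => integrable_finsetSum _ fun d _ => hi c d]
  have e2 : ∀ ξ : ℝ, ψ (fun _ => ξ) * (mcorr Φ ξ : ℂ) =
      ∑ c, ∑ d, ψ (fun _ => ξ) * ∫ η : ℝ, Φ η c d * (starRingEnd ℂ) (Φ (η + ξ) c d) := by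
    intro ξ
    rw [← h.sum_corr, Finset.mul_sum]
    refine Finset.sum_congr rfl fun c _ => ?_
    rw [Finset.mul_sum]
  simp only [e2]
  rw [integral_finsetSum _ fun c _ => integrable_finsetSum _ fun d _ => hcd c d]
  refine Finset.sum_congr rfl fun c _ => ?_
  rw [integral_finsetSum _ fun d _ => hi c d, integral_finsetSum _ fun d _ => hcd c d]
  exact Finset.sum_congr rfl fun d _ => pair_parseval hψ (h.integrable_entry c d)

/-- The variation of the trace is bounded by the defect of the autocorrelation. -/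
lemma IsSymbol.vari_le {Φ : ℝ → Matrix (Fin n) (Fin n) ℂ} (h : IsSymbol Φ) (ξ : ℝ) :
    ∫ η, |tr Φ (η + ξ) - tr Φ η| ≤ 2 * (∫ η, tr Φ η) - 2 * mcorr Φ ξ := by
  have hs : Integrable (fun η => tr Φ η + tr Φ (η + ξ)) :=
    h.integrable.add (h.integrable.comp_add_right ξ)
  have h2 : (∫ η, (tr Φ η + tr Φ (η + ξ) - 2 * (Φ η * Φ (η + ξ)).trace.re)) =
      2 * (∫ η, tr Φ η) - 2 * mcorr Φ ξ := by
    rw [integral_sub hs ((h.integrable_mul ξ).const_mul 2),
      integral_add h.integrable_tr (h.integrable_tr.comp_add_right ξ),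
      integral_add_right_eq_self (tr Φ) ξ, integral_const_mul]
    unfold mcorr
    ring
  rw [← h2]
  apply integral_mono (integrable_shift_sub h.integrable_tr ξ).abs
  · exact hs.sub ((h.integrable_mul ξ).const_mul 2)
  · intro η
    exact (h.eff η).abs_trace_sub_le (h.eff (η + ξ))

lemma IsSymbol.measurable_sq {Φ : ℝ → Matrix (Fin n) (Fin n) ℂ} (h : IsSymbol Φ) :
    Measurable fun η => (Φ η * Φ η).trace.re := by
  have h1 := h.measurable_mul.comp (measurable_id.prodMk (measurable_const (a := (0 : ℝ))))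
  have e : (fun η => (Φ η * Φ η).trace.re) = (fun p : ℝ × ℝ =>
      (Φ p.1 * Φ (p.1 + p.2)).trace.re) ∘ (fun x : ℝ => (id x, (0 : ℝ))) := by
    ext η
    simp
  rw [e]
  exact h1

lemma IsSymbol.integrable_sq {Φ : ℝ → Matrix (Fin n) (Fin n) ℂ} (h : IsSymbol Φ) :
    Integrable fun η => (Φ η * Φ η).trace.re :=
  h.integrable.mono' h.measurable_sq.aestronglyMeasurable
    (Eventually.of_forall fun η => h.abs_mul_le η η)

/-- The autocorrelation is largest at the origin. -/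
lemma IsSymbol.mcorr_le {Φ : ℝ → Matrix (Fin n) (Fin n) ℂ} (h : IsSymbol Φ) (ξ : ℝ) :
    mcorr Φ ξ ≤ ∫ η, (Φ η * Φ η).trace.re := by
  have hs := h.integrable_sq
  have hsh := hs.comp_add_right ξ
  have h2 : (∫ η, ((Φ η * Φ η).trace.re + (Φ (η + ξ) * Φ (η + ξ)).trace.re) / 2) =
      ∫ η, (Φ η * Φ η).trace.re := by
    rw [integral_div, integral_add hs hsh,
      integral_add_right_eq_self (fun η => (Φ η * Φ η).trace.re) ξ]
    ring
  rw [← h2]
  apply integral_mono (h.integrable_mul ξ)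
  · exact (hs.add hsh).div_const 2
  · intro η
    dsimp only
    have h3 := trace_sub_sq (h.eff η).1.isHermitian (h.eff (η + ξ)).1.isHermitian
    have h4 := psd_trace_re_nonneg
      (Matrix.posSemidef_conjTranspose_mul_self (Φ η - Φ (η + ξ)))
    linarith

end Pool.Agent.MP_67227b_nt
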