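import Pool.Agent.MP_67227b_nt.Kap67

set_option autoImplicit false
open Filter MeasureTheory Topology Set
open scoped Real Pointwise ContDiff Convolution FourierTransform RealInnerProductSpace

namespace Pool.Agent.MP_67227b_nt

variable {m : ℕ}

/-- The inverse Fourier transform of a band function is integrable. -/
lemma IsBand.integrable_synth {Ω : Set (Fin m → ℝ)} {φ : (Fin m → ℝ) → ℂ} (h : IsBand Ω φ) :
    Integrable (synth φ) := by
  set e := (EuclideanSpace.equiv (Fin m) ℝ) with he
  set ψ : EuclideanSpace ℝ (Fin m) → ℂ := φ ∘ e with hψ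
  have hψc : HasCompactSupport ψ := h.2.1.comp_homeomorph e.toHomeomorph
  have hψs : ContDiff ℝ ∞ ψ := h.1.comp e.contDiff
  set F := hψc.toSchwartzMap hψs with hF
  set G : SchwartzMap (EuclideanSpace ℝ (Fin m)) ℂ := 𝓕⁻ F with hG
  have h1 : Integrable (fun v => G v) := G.integrable
  have h2 : ∀ v : EuclideanSpace ℝ (Fin m), G v = synth φ (WithLp.ofLp v) := by
    intro v
    rw [hG, SchwartzMap.fourierInv_coe, Real.fourierInv_eq', synth,
      ← (PiLp.volume_preserving_ofLp (Fin m)).integral_comp
        (EuclideanSpace.equiv (Fin m) ℝ).toHomeomorph.measurableEmbedding]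
    congr 1
    ext w
    rw [smul_eq_mul, mul_comm]
    congr 1
    unfold ee
    congr 1
    rw [PiLp.inner_apply]
    push_cast
    simp only [RCLike.inner_apply, conj_trivial]
    push_cast
    have : ∑ i, ((WithLp.ofLp v i : ℝ) : ℂ) * ((WithLp.ofLp w i : ℝ) : ℂ) =
      ∑ i, ((WithLp.ofLp w i : ℝ) : ℂ) * ((WithLp.ofLp v i : ℝ) : ℂ) := by
      apply Finset.sum_congr rfl
      intro i _
      ring
    rw [this]
    ring
  rw [← (PiLp.volume_preserving_ofLp (Fin m)).integrable_comp_emb
    (EuclideanSpace.equiv (Fin m) ℝ).toHomeomorph.measurableEmbedding]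
  refine h1.congr ?_
  filter_upwards with v
  exact h2 v

lemma integrable_kap (ρ : ℝ) (hρ : 0 < ρ) : Integrable (kap m ρ hρ) := by
  obtain ⟨φ, hφ, h2⟩ := exists_band_kap (m := m) ρ hρ
  have h3 := hφ.integrable_synth.re
  refine h3.congr ?_
  filter_upwards with u
  rw [h2]
  simp

end Pool.Agent.MP_67227b_nt
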