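import Pool.Agent.MP_67227b_nt.LLN

set_option autoImplicit false

open Filter MeasureTheory Topology Set
open scoped Real

namespace Pool.Agent.MP_67227b_nt

variable {J : Type*} {γ : J → ℝ}

/-- The radius of a box. -/
noncomputable def boxRad {m : ℕ} (a b : Fin m → ℝ) : ℝ := ∑ i, (|a i| + |b i|)

lemma boxRad_nonneg {m : ℕ} (a b : Fin m → ℝ) : 0 ≤ boxRad a b :=
  Finset.sum_nonneg fun i _ => by positivity

lemma neg_boxRad_le {m : ℕ} (a b : Fin m → ℝ) (i : Fin m) : -boxRad a b ≤ a i := by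
  have h : |a i| + |b i| ≤ boxRad a b :=
    Finset.single_le_sum (f := fun i => |a i| + |b i|) (fun i _ => by positivity)
      (Finset.mem_univ i)
  have := neg_abs_le (a i)
  have := abs_nonneg (b i)
  linarith

lemma le_boxRad {m : ℕ} (a b : Fin m → ℝ) (i : Fin m) : b i ≤ boxRad a b := by
  have h : |a i| + |b i| ≤ boxRad a b :=
    Finset.single_le_sum (f := fun i => |a i| + |b i|) (fun i _ => by positivity)
      (Finset.mem_univ i)
  have := le_abs_self (b i)
  have := abs_nonneg (a i)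
  linarith

/-- Two-sided local counts. -/
noncomputable def YT (h : GoodFamily γ) (r : ℝ) (T : ℝ) (j : J) : ℝ :=
  (Z (PT h T) (xT γ T) j (-r) r : ℝ)

lemma YT_nonneg (h : GoodFamily γ) (r : ℝ) (T : ℝ) (j : J) : 0 ≤ YT h r T j := Nat.cast_nonneg _

lemma R_le_YT (h : GoodFamily γ) {m : ℕ} (a b : Fin m → ℝ) {r : ℝ} (hr : boxRad a b ≤ r)
    (T : ℝ) (j : J) :
    (R (PT h T) (xT γ T) m j a b : ℝ) ≤ YT h r T j ^ m := by
  have h1 : R (PT h T) (xT γ T) m j a b ≤
      R (PT h T) (xT γ T) m j (fun _ => -r) (fun _ => r) :=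
    R_mono (fun i => by have := neg_boxRad_le a b i; simp only; linarith)
      (fun i => (le_boxRad a b i).trans hr)
  rw [R_const] at h1
  have h2 := h1.trans (Nat.descFactorial_le_pow _ _)
  rw [YT]
  exact_mod_cast h2

/-- Moments of the local counts are bounded. -/
lemma UB_YT_pow (h : GoodFamily γ) {k : ℕ} (hU : CorrelationUpper γ (k + 1)) {r : ℝ}
    (hr : 0 ≤ r) : ∃ C : ℝ, 0 ≤ C ∧ UB (Av h (fun T j => YT h r T j ^ (k + 1))) C := by
  have hle : (fun _ => -r : Fin (k + 1) → ℝ) ≤ fun _ => r := fun _ => by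
    simp only
    linarith
  have h1 := (Av_R_UB h hU hle).const_mul (a := 2 ^ k) (by positivity)
  have h2 := UB_of_tendsto (tendsto_Av_const h ((2 : ℝ) ^ k * (k : ℝ) ^ (k + 1)))
  refine ⟨max 0 (2 ^ k * boxIntegral (k + 1) (fun _ => -r) (fun _ => r) +
    2 ^ k * (k : ℝ) ^ (k + 1)), le_max_left _ _, ?_⟩
  refine (h1.add h2).mono ?_ (le_max_right _ _)
  filter_upwards [eventually_gt_atTop (1 : ℝ)] with T hT
  rw [← Av_const_mul, ← Av_add]
  apply Av_mono h hT
  intro j _
  rw [R_const, YT]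
  set z := Z (PT h T) (xT γ T) j (-r) r
  have h3 : (z : ℝ) ≤ ((z + 1 - (k + 1) : ℕ) : ℝ) + k := by
    have : z ≤ (z + 1 - (k + 1)) + k := by omega
    exact_mod_cast this
  have h4 : (((z + 1 - (k + 1) : ℕ) : ℝ)) ^ (k + 1) ≤ (z.descFactorial (k + 1) : ℝ) := by
    exact_mod_cast Nat.pow_sub_le_descFactorial z (k + 1)
  have h5 := add_pow_le (a := ((z + 1 - (k + 1) : ℕ) : ℝ)) (b := (k : ℝ)) (by positivity)
    (by positivity) (k + 1)
  simp only [Nat.add_sub_cancel] at h5
  have h6 : (z : ℝ) ^ (k + 1) ≤ (((z + 1 - (k + 1) : ℕ) : ℝ) + k) ^ (k + 1) := by gcongr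
  have h7 : (2 : ℝ) ^ k * ((((z + 1 - (k + 1) : ℕ) : ℝ)) ^ (k + 1) + (k : ℝ) ^ (k + 1)) ≤
      2 ^ k * ((z.descFactorial (k + 1) : ℝ) + (k : ℝ) ^ (k + 1)) := by gcongr
  linarith

/-- Weighted Young inequality. -/
lemma young {k : ℕ} {y w κ : ℝ} (hy : 0 ≤ y) (hw : 0 ≤ w) (hκ : 0 < κ) :
    y ^ k * w ≤ κ * y ^ (k + 1) + (1 / κ) ^ k * w ^ (k + 1) := by
  rcases le_total w (κ * y) with h | h
  · have h1 : y ^ k * w ≤ y ^ k * (κ * y) := by gcongr
    have h2 : 0 ≤ (1 / κ) ^ k * w ^ (k + 1) := by positivity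
    have e : y ^ k * (κ * y) = κ * y ^ (k + 1) := by ring
    linarith
  · have h1 : y ≤ 1 / κ * w := by
      rw [one_div_mul_eq_div, le_div_iff₀ hκ]
      linarith
    have h2 : y ^ k * w ≤ (1 / κ * w) ^ k * w := by gcongr
    have h3 : 0 ≤ κ * y ^ (k + 1) := by positivity
    have e : (1 / κ * w) ^ k * w = (1 / κ) ^ k * w ^ (k + 1) := by ring
    linarith

/-- The key comparison of level `k+2` with level `k+1`. -/
lemma descent_key (h : GoodFamily γ) {k : ℕ} (hU : CorrelationUpper γ (k + 2))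
    {a b : Fin (k + 1) → ℝ} :
    ∀ ε : ℝ, 0 < ε → ∃ V₀ : ℝ, 0 < V₀ ∧ ∀ V : ℝ, V₀ ≤ V →
      UB (fun T => |Av h (fun T j => (R (PT h T) (xT γ T) (k + 1) j a b : ℝ)) T -
        (1 / V) * Av h (fun T j => (R (PT h T) (xT γ T) (k + 2) j
          (Fin.cons 0 a : Fin (k + 2) → ℝ) (Fin.cons V b : Fin (k + 2) → ℝ) : ℝ)) T|) ε := by
  intro ε hε
  obtain ⟨CY, hCY, hY⟩ := UB_YT_pow h (k := k + 1) hU (boxRad_nonneg a b)
  -- choose kappa
  set κ : ℝ := ε / (4 * (CY + 1)) with hκ
  have hκ0 : 0 < κ := by positivity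
  set δ : ℝ := ε / 4 / (1 / κ) ^ (k + 1) with hδ
  have hδ0 : 0 < δ := by positivity
  obtain ⟨V1, hV1, hL⟩ := lln h hU δ hδ0
  set D : ℝ := 2 * (k + 1) * (1 + CY) with hD
  have hD0 : 0 < D := by positivity
  refine ⟨max V1 (4 * D / ε), lt_max_of_lt_left hV1, fun V hV => ?_⟩
  have hV1' : V1 ≤ V := (le_max_left _ _).trans hV
  have hV2 : 4 * D / ε ≤ V := (le_max_right _ _).trans hV
  have hV0 : 0 < V := by linarith
  have hDV : D / V ≤ ε / 4 := by
    rw [div_le_iff₀ hε] at hV2
    rw [div_le_div_iff₀ hV0 (by norm_num)]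
    linarith
  -- the three terms
  have t1 := hY.const_mul (a := κ) hκ0.le
  have t2 := (hL V hV1').const_mul (a := (1 / κ) ^ (k + 1)) (by positivity)
  have t3 := ((UB_of_tendsto (tendsto_Av_one h)).add hY).const_mul
    (a := 2 * (k + 1) / V) (by positivity)
  refine ((t1.add t2).add t3).mono ?_ ?_
  · filter_upwards [eventually_gt_atTop (1 : ℝ)] with T hT
    -- pointwise inequality
    set r := boxRad a b with hr
    have hpt : ∀ j, |(R (PT h T) (xT γ T) (k + 1) j a b : ℝ) - (1 / V) *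
        (R (PT h T) (xT γ T) (k + 2) j
          (Fin.cons 0 a : Fin (k + 2) → ℝ) (Fin.cons V b : Fin (k + 2) → ℝ) : ℝ)| ≤
        κ * YT h r T j ^ (k + 2) +
        (1 / κ) ^ (k + 1) * |XT h (k + 2) V T j / V - 1| ^ (k + 2) +
        2 * (k + 1) / V * (1 + YT h r T j ^ (k + 2)) := by
      intro j
      set Rj : ℝ := (R (PT h T) (xT γ T) (k + 1) j a b : ℝ) with hRj
      set Sj : ℝ := (R (PT h T) (xT γ T) (k + 2) j
          (Fin.cons 0 a : Fin (k + 2) → ℝ) (Fin.cons V b : Fin (k + 2) → ℝ) : ℝ) with hSj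
      have hR0 : 0 ≤ Rj := Nat.cast_nonneg _
      have hRY : Rj ≤ YT h r T j ^ (k + 1) := R_le_YT h a b le_rfl T j
      have hY0 : 0 ≤ YT h r T j := YT_nonneg h r T j
      have c1 : Sj ≤ Rj * ZT h V T j := by
        have := R_cons_le (PT h T) (xT γ T) (k + 1) j a b 0 V
        rw [hSj, hRj, ZT]
        exact_mod_cast this
      have c2 : Rj * ZT h V T j ≤ Sj + Rj * (k + 1) := by
        have := le_R_cons (PT h T) (xT γ T) (k + 1) j a b 0 V
        rw [hSj, hRj, ZT]
        exact_mod_cast this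
      have c3 := ZT_le_XT h (k + 1) V T j
      have c4 := XT_le_ZT h (k + 1) V T j
      push_cast at c3
      set w := |XT h (k + 2) V T j / V - 1| with hw
      have hXw : |XT h (k + 2) V T j - V| = V * w := by
        rw [hw, ← abs_of_pos hV0, ← abs_mul, abs_of_pos hV0]
        congr 1
        field_simp
      have hw1 := abs_le.1 hXw.le
      have hmain : |Rj - 1 / V * Sj| ≤ Rj * w + 2 * (k + 1) / V * Rj := by
        have e : Rj * w + 2 * (k + 1) / V * Rj = (1 / V) * (Rj * (V * w + 2 * (k + 1))) := by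
          field_simp
        have e2 : Rj - 1 / V * Sj = (1 / V) * (V * Rj - Sj) := by
          field_simp
        rw [e, e2, abs_mul, abs_of_pos (show 0 < 1 / V by positivity)]
        gcongr
        rw [abs_le]
        constructor
        · have : Rj * ZT h V T j ≤ Rj * (V + V * w + (k + 1)) := by
            gcongr
            linarith [hw1.2]
          have hk : 0 ≤ Rj * (k + 1) := by positivity
          nlinarith
        · have : Rj * (V - V * w) ≤ Rj * ZT h V T j := by
            gcongr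
            linarith [hw1.1]
          have hk : 0 ≤ Rj * (k + 1) := by positivity
          nlinarith
      have hw0 : 0 ≤ w := abs_nonneg _
      have h5 : Rj * w ≤ κ * YT h r T j ^ (k + 2) + (1 / κ) ^ (k + 1) * w ^ (k + 2) := by
        have h6 : Rj * w ≤ YT h r T j ^ (k + 1) * w := by gcongr
        exact h6.trans (young (k := k + 1) hY0 hw0 hκ0)
      have h7 : Rj ≤ 1 + YT h r T j ^ (k + 2) := by
        refine hRY.trans ?_
        rcases le_total (YT h r T j) 1 with hy | hy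
        · have : YT h r T j ^ (k + 1) ≤ 1 := pow_le_one₀ hY0 hy
          have : 0 ≤ YT h r T j ^ (k + 2) := by positivity
          linarith
        · have : YT h r T j ^ (k + 1) ≤ YT h r T j ^ (k + 2) := pow_le_pow_right₀ hy (by omega)
          linarith
      have h8 : 2 * (k + 1) / V * Rj ≤ 2 * (k + 1) / V * (1 + YT h r T j ^ (k + 2)) := by gcongr
      linarith
    have habs : |Av h (fun T j => (R (PT h T) (xT γ T) (k + 1) j a b : ℝ)) T -
        (1 / V) * Av h (fun T j => (R (PT h T) (xT γ T) (k + 2) j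
          (Fin.cons 0 a : Fin (k + 2) → ℝ) (Fin.cons V b : Fin (k + 2) → ℝ) : ℝ)) T| ≤
        Av h (fun T j => |(R (PT h T) (xT γ T) (k + 1) j a b : ℝ) - (1 / V) *
        (R (PT h T) (xT γ T) (k + 2) j
          (Fin.cons 0 a : Fin (k + 2) → ℝ) (Fin.cons V b : Fin (k + 2) → ℝ) : ℝ)|) T := by
      rw [← Av_const_mul]
      unfold Av
      rw [← sub_div, ← Finset.sum_sub_distrib, abs_div, abs_of_pos (zeroScale_pos hT)]
      have := zeroScale_pos hT
      gcongr
      exact Finset.abs_sum_le_sum_abs _ _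
    refine habs.trans ?_
    rw [← Av_const_mul, ← Av_const_mul, ← Av_add, ← Av_add, ← Av_const_mul, ← Av_add]
    apply Av_mono h hT
    intro j _
    exact hpt j
  · have e1 : κ * CY ≤ ε / 4 := by
      rw [hκ, div_mul_eq_mul_div, div_le_div_iff₀ (by positivity) (by norm_num)]
      nlinarith
    have e2 : (1 / κ) ^ (k + 1) * δ = ε / 4 := by
      rw [hδ]
      field_simp
    have e3 : 2 * (k + 1) / V * (1 + CY) = D / V := by
      rw [hD]; ring
    rw [e2, e3]
    linarith

/-- The box integrals are compatible. -/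
lemma integral_key (m : ℕ) (a b : Fin m → ℝ) : ∀ ε : ℝ, 0 < ε → ∃ V₀ : ℝ, 0 < V₀ ∧
    ∀ V : ℝ, V₀ ≤ V → |boxIntegral m a b - (1 / V) * boxIntegral (m + 1)
      (Fin.cons 0 a : Fin (m + 1) → ℝ) (Fin.cons V b : Fin (m + 1) → ℝ)| ≤ ε := by
  intro ε hε
  set D : ℝ := (m.factorial * (m + 1)) * ((m + 1) * (2 * π)) * boxVol a b with hD
  have hD0 : 0 ≤ D := by
    have := boxVol_nonneg a b
    positivity
  refine ⟨D / ε + 1, by positivity, fun V hV => ?_⟩
  have hV0 : 0 < V := by
    have : 0 ≤ D / ε := by positivity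
    linarith
  have h1 := abs_boxIntegral_cons_sub_le m a b hV0.le
  rw [sub_zero] at h1
  have e : boxIntegral m a b - (1 / V) * boxIntegral (m + 1)
      (Fin.cons 0 a : Fin (m + 1) → ℝ) (Fin.cons V b : Fin (m + 1) → ℝ) =
      -(1 / V) * (boxIntegral (m + 1)
      (Fin.cons 0 a : Fin (m + 1) → ℝ) (Fin.cons V b : Fin (m + 1) → ℝ) -
        V * boxIntegral m a b) := by
    field_simp
    ring
  rw [e, abs_mul, abs_neg, abs_of_pos (show 0 < 1 / V by positivity), one_div_mul_eq_div,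
    div_le_iff₀ hV0]
  refine h1.trans ?_
  rw [← hD]
  have : D / ε ≤ V := by linarith
  rw [div_le_iff₀ hε] at this
  linarith

lemma cons_le_cons' {m : ℕ} {a b : Fin m → ℝ} (hab : a ≤ b) {s t : ℝ} (hst : s ≤ t) :
    (Fin.cons s a : Fin (m + 1) → ℝ) ≤ Fin.cons t b := by
  rw [Fin.cons_le_cons]
  exact ⟨hst, hab⟩

/-- Upper bounds descend. -/
theorem descent_upper (h : GoodFamily γ) {k : ℕ} (hU : CorrelationUpper γ (k + 2)) :
    CorrelationUpper γ (k + 1) := by
  intro a b hab ε hε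
  obtain ⟨V1, hV1, h1⟩ := descent_key h hU (a := a) (b := b) (ε / 4) (by linarith)
  obtain ⟨V2, hV2, h2⟩ := integral_key (k + 1) a b (ε / 4) (by linarith)
  set V := max V1 V2 with hV
  have hV0 : 0 < V := lt_max_of_lt_left hV1
  have h3 := h1 V (le_max_left _ _) (ε / 4) (by linarith)
  have h4 := h2 V (le_max_right _ _)
  have h5 := (Av_R_UB h hU (cons_le_cons' hab hV0.le)).const_mul (a := 1 / V) (by positivity)
    (ε / 4) (by linarith)
  filter_upwards [h3, h5] with T h3 h5
  rw [tupleCount_div h]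
  have h6 := (abs_le.1 h3).2
  have h7 := (abs_le.1 h4).1
  linarith

/-- The correlation conjecture descends. -/
theorem descent (h : GoodFamily γ) {k : ℕ} (hC : CorrelationConj γ (k + 2)) :
    CorrelationConj γ (k + 1) := by
  have hU : CorrelationUpper γ (k + 2) := fun a b hab => UB_of_tendsto (hC a b hab)
  intro a b hab
  apply tendsto_of_UB_LB
  · exact descent_upper h hU a b hab
  · intro ε hε
    obtain ⟨V1, hV1, h1⟩ := descent_key h hU (a := a) (b := b) (ε / 4) (by linarith)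
    obtain ⟨V2, hV2, h2⟩ := integral_key (k + 1) a b (ε / 4) (by linarith)
    set V := max V1 V2 with hV
    have hV0 : 0 < V := lt_max_of_lt_left hV1
    have h3 := h1 V (le_max_left _ _) (ε / 4) (by linarith)
    have h4 := h2 V (le_max_right _ _)
    have h5 := (LB_of_tendsto (hC _ _ (cons_le_cons' hab hV0.le))).const_mul (a := 1 / V)
      (by positivity) (ε / 4) (by linarith)
    filter_upwards [h3, h5] with T h3 h5
    rw [tupleCount_div h] at h5 ⊢
    have h6 := (abs_le.1 h3).1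
    have h7 := (abs_le.1 h4).2
    linarith

end Pool.Agent.MP_67227b_nt
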