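import Pool.Agent.MP_67227b_nt.Var35

set_option autoImplicit false

open Filter MeasureTheory Topology Set
open scoped Real Nat

namespace Pool.Agent.MP_67227b_nt

/-- The symmetric interval. -/
def Ir (r : ℝ) : Set ℝ := Icc (-r) r

lemma Ir_compact (r : ℝ) : IsCompact (Ir r) := isCompact_Icc

lemma Ir_mono {r r' : ℝ} (h : r ≤ r') : Ir r ⊆ Ir r' := Icc_subset_Icc (by linarith) h

/-- The kernel energy between a set and the complement of another one. -/
noncomputable def Ck (A B : Set ℝ) : ℝ := ∫ v' in A, ∫ v in Bᶜ, K (v' - v) ^ 2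

/-- The averaged energy of a sequence of symmetric intervals. -/
noncomputable def Vr (r : ℕ → ℝ) (N : ℕ) : ℝ :=
  (1 / (N : ℝ) ^ 2) * ∑ k ∈ Finset.range N, ∑ l ∈ Finset.range N,
    Ck (Ir (r (min k l))) (Ir (r (max k l)))

section Alg

variable {m : ℕ}

/-- The part of the total defect outside an interval. -/
noncomputable def tl (w : Fin (m + 1) → ℝ) (r : ℝ) : ℝ := ∫ v in (Ir r)ᶜ, defect m w v

lemma tl_nonneg (w : Fin (m + 1) → ℝ) (r : ℝ) : 0 ≤ tl w r :=
  integral_nonneg fun v => defect_nonneg w v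

lemma tl_anti (w : Fin (m + 1) → ℝ) {r r' : ℝ} (h : r ≤ r') : tl w r' ≤ tl w r := by
  apply setIntegral_mono_set
  · exact (integrable_defect m w).integrableOn
  · exact Eventually.of_forall fun v => defect_nonneg w v
  · exact (compl_subset_compl.2 (Ir_mono h)).eventuallyLE

lemma tl_add (w : Fin (m + 1) → ℝ) (r : ℝ) :
    (∫ v in Ir r, defect m w v) + tl w r = (m + 1) * (sineMatrix w).det := by
  rw [tl, integral_add_compl (Ir_compact r).measurableSet (integrable_defect m w),
    integral_defect]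

lemma int_defect_nonneg (w : Fin (m + 1) → ℝ) (r : ℝ) : 0 ≤ ∫ v in Ir r, defect m w v :=
  integral_nonneg fun v => defect_nonneg w v

lemma tl_le (w : Fin (m + 1) → ℝ) (r : ℝ) : tl w r ≤ (m + 1) * (sineMatrix w).det := by
  have := tl_add w r
  have := int_defect_nonneg w r
  linarith

lemma int_defect_le (w : Fin (m + 1) → ℝ) (r : ℝ) :
    ∫ v in Ir r, defect m w v ≤ (m + 1) * (sineMatrix w).det := by
  have := tl_add w r
  have := tl_nonneg w r
  linarith

lemma int_Hk_self (w : Fin (m + 1) → ℝ) {r : ℝ} (hr : 0 ≤ r) :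
    ∫ v in Ir r, Hk w v v = (2 * r - (m + 1)) * (sineMatrix w).det + tl w r := by
  simp_rw [Hk_self_eq]
  rw [integral_sub]
  · rw [setIntegral_const, smul_eq_mul]
    have h1 : volume.real (Ir r) = 2 * r := by
      rw [Ir, Measure.real, Real.volume_Icc, ENNReal.toReal_ofReal (by linarith)]
      ring
    have h2 := tl_add w r
    rw [h1]
    linarith
  · exact continuous_const.continuousOn.integrableOn_compact (Ir_compact r)
  · exact (integrable_defect m w).integrableOn

lemma Ck_nonneg (A B : Set ℝ) : 0 ≤ Ck A B :=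
  integral_nonneg fun _ => integral_nonneg fun _ => sq_nonneg _

lemma min_max_apply {β : Type*} [AddCommMonoid β] (s : ℕ → β) (k l : ℕ) :
    s (min k l) + s (max k l) = s k + s l := by
  rcases le_total k l with h | h
  · rw [min_eq_left h, max_eq_right h]
  · rw [min_eq_right h, max_eq_left h, add_comm]

lemma min_max_mul (s : ℕ → ℝ) (k l : ℕ) :
    s (max k l) * s (min k l) = s k * s l := by
  rcases le_total k l with h | h
  · rw [min_eq_left h, max_eq_right h, mul_comm]
  · rw [min_eq_right h, max_eq_left h]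

/-- The two-point integral for the intervals `k`, `l`. -/
noncomputable def Tkl (w : Fin (m + 1) → ℝ) (r : ℕ → ℝ) (k l : ℕ) : ℝ :=
  ∫ v' in Ir (r (min k l)), ∫ v in Ir (r (max k l)),
    (sineMatrix (Fin.cons v (Fin.cons v' w : Fin (m + 2) → ℝ) : Fin (m + 3) → ℝ)).det

/-- The one-point integral for the interval `k`. -/
noncomputable def sk (w : Fin (m + 1) → ℝ) (r : ℕ → ℝ) (k : ℕ) : ℝ :=
  ∫ v in Ir (r k), Hk w v v

/-- The variance-type quantity. -/
noncomputable def Qw (w : Fin (m + 1) → ℝ) (r : ℕ → ℝ) (N : ℕ) : ℝ :=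
  (1 / (N : ℝ) ^ 2) * ∑ k ∈ Finset.range N, ∑ l ∈ Finset.range N,
    (Tkl w r k l + (m + 1) * sk w r (min k l) + m * sk w r (max k l) +
      (m : ℝ) ^ 2 * (sineMatrix w).det) -
  2 * ((1 / (N : ℝ)) * ∑ k ∈ Finset.range N, 2 * r k - 1) *
    ((1 / (N : ℝ)) * ∑ k ∈ Finset.range N, (sk w r k + m * (sineMatrix w).det)) +
  ((1 / (N : ℝ)) * ∑ k ∈ Finset.range N, 2 * r k - 1) ^ 2 * (sineMatrix w).det

lemma Qw_le (w : Fin (m + 1) → ℝ) (r : ℕ → ℝ) (hr0 : 0 ≤ r 0) (hr : Monotone r) {N : ℕ}
    (hN : 0 < N) : Qw w r N ≤ 3 * (m + 1) * tl w (r 0) + 2 * (sineMatrix w).det * Vr r N := by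
  have hN' : (0 : ℝ) < N := by exact_mod_cast hN
  have hrk : ∀ k, 0 ≤ r k := fun k => hr0.trans (hr (Nat.zero_le k))
  have htl : ∀ k, tl w (r k) ≤ tl w (r 0) := fun k => tl_anti w (hr (Nat.zero_le k))
  have hV0 : 0 ≤ Vr r N := by
    unfold Vr
    apply mul_nonneg (by positivity)
    exact Finset.sum_nonneg fun k _ => Finset.sum_nonneg fun l _ => Ck_nonneg _ _
  have ht0 := tl_nonneg w (r 0)
  rcases (det_nonneg' w).eq_or_lt with hS | hS
  · -- the singular case
    have hz : ∀ v, Hk w v v = 0 := fun v => by rw [Hk_self, det_cons_zero w hS.symm]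
    have hz2 : ∀ v v', (sineMatrix (Fin.cons v (Fin.cons v' w : Fin (m + 2) → ℝ) :
        Fin (m + 3) → ℝ)).det = 0 := fun v v' =>
      det_cons_zero _ (det_cons_zero w hS.symm v') v
    have hQ : Qw w r N = 0 := by
      unfold Qw Tkl sk
      simp [hz, hz2, ← hS]
    rw [hQ, ← hS]
    have : 0 ≤ 3 * ((m : ℝ) + 1) * tl w (r 0) := by positivity
    linarith
  · set S := (sineMatrix w).det with hSdef
    set s := sk w r with hs
    set L := (1 / (N : ℝ)) * ∑ k ∈ Finset.range N, 2 * r k - 1 with hL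
    set h : ℕ → ℕ → ℝ := fun k l => ∫ v' in Ir (r (min k l)), ∫ v in Ir (r (max k l)),
      Hk w v v' ^ 2 with hh
    set E : ℕ → ℕ → ℝ := fun k l => S * s (min k l) - h k l with hE
    have hT : ∀ k l, S * Tkl w r k l = s k * s l - S * s (min k l) + E k l := by
      intro k l
      have h1 := T_eq w hS (Ir_compact (r (min k l))) (Ir_compact (r (max k l)))
      have h2 : S * Tkl w r k l = s (max k l) * s (min k l) - h k l := h1
      rw [h2, min_max_mul, hE]
      ring
    have hsum : S * ∑ k ∈ Finset.range N, ∑ l ∈ Finset.range N,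
        (Tkl w r k l + (m + 1) * s (min k l) + m * s (max k l) + (m : ℝ) ^ 2 * S) =
        (∑ k ∈ Finset.range N, s k) ^ 2 + ∑ k ∈ Finset.range N, ∑ l ∈ Finset.range N, E k l +
          2 * N * m * S * ∑ k ∈ Finset.range N, s k + (N : ℝ) ^ 2 * m ^ 2 * S ^ 2 := by
      have e1 : ∀ k l, S * (Tkl w r k l + (m + 1) * s (min k l) + m * s (max k l) +
          (m : ℝ) ^ 2 * S) = s k * s l + E k l + m * S * s k + m * S * s l +
            (m : ℝ) ^ 2 * S ^ 2 := by
        intro k l
        have h1 := hT k l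
        have h2 := min_max_apply s k l
        linear_combination h1 + m * S * h2
      have e0 : S * ∑ k ∈ Finset.range N, ∑ l ∈ Finset.range N,
          (Tkl w r k l + (m + 1) * s (min k l) + m * s (max k l) + (m : ℝ) ^ 2 * S) =
          ∑ k ∈ Finset.range N, ∑ l ∈ Finset.range N, (s k * s l + E k l + m * S * s k +
            m * S * s l + (m : ℝ) ^ 2 * S ^ 2) := by
        rw [Finset.mul_sum]
        apply Finset.sum_congr rfl
        intro k _
        rw [Finset.mul_sum]
        apply Finset.sum_congr rfl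
        intro l _
        exact e1 k l
      rw [e0]
      simp only [Finset.sum_add_distrib, ← Finset.mul_sum, ← Finset.sum_mul, Finset.sum_const,
        Finset.card_range, nsmul_eq_mul]
      ring
    have hSQ : S * Qw w r N = ((1 / (N : ℝ)) * (∑ k ∈ Finset.range N, s k) + (m - L) * S) ^ 2 +
        (1 / (N : ℝ) ^ 2) * ∑ k ∈ Finset.range N, ∑ l ∈ Finset.range N, E k l := by
      have e2 : ∑ k ∈ Finset.range N, (s k + m * S) =
          (∑ k ∈ Finset.range N, s k) + N * (m * S) := by
        rw [Finset.sum_add_distrib, Finset.sum_const, Finset.card_range, nsmul_eq_mul]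
      have e3 : S * Qw w r N = (1 / (N : ℝ) ^ 2) * (S * ∑ k ∈ Finset.range N,
          ∑ l ∈ Finset.range N,
          (Tkl w r k l + (m + 1) * s (min k l) + m * s (max k l) + (m : ℝ) ^ 2 * S)) -
          2 * L * S * ((1 / (N : ℝ)) * ∑ k ∈ Finset.range N, (s k + m * S)) + L ^ 2 * S ^ 2 := by
        unfold Qw
        ring
      rw [e3, hsum, e2]
      field_simp
      ring
    have hδ : (1 / (N : ℝ)) * (∑ k ∈ Finset.range N, s k) + (m - L) * S =
        (1 / (N : ℝ)) * ∑ k ∈ Finset.range N, tl w (r k) := by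
      have e4 : ∀ k, s k = 2 * r k * S - (m + 1) * S + tl w (r k) := by
        intro k
        have := int_Hk_self w (hrk k)
        rw [← hSdef] at this
        simp only [hs, sk]
        rw [this]
        ring
      simp_rw [e4]
      rw [Finset.sum_add_distrib, Finset.sum_sub_distrib, Finset.sum_const, Finset.card_range,
        nsmul_eq_mul, ← Finset.sum_mul, hL]
      field_simp
      ring
    have hδ0 : 0 ≤ (1 / (N : ℝ)) * ∑ k ∈ Finset.range N, tl w (r k) := by
      apply mul_nonneg (by positivity)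
      exact Finset.sum_nonneg fun k _ => tl_nonneg w _
    have hδ1 : (1 / (N : ℝ)) * ∑ k ∈ Finset.range N, tl w (r k) ≤ tl w (r 0) := by
      rw [one_div_mul_eq_div, div_le_iff₀ hN']
      calc ∑ k ∈ Finset.range N, tl w (r k) ≤ ∑ k ∈ Finset.range N, tl w (r 0) :=
            Finset.sum_le_sum fun k _ => htl k
        _ = _ := by rw [Finset.sum_const, Finset.card_range, nsmul_eq_mul, mul_comm]
    have hEle : ∀ k l, E k l ≤ 2 * S ^ 2 * Ck (Ir (r (min k l))) (Ir (r (max k l))) +
        2 * ((m + 1) * S * tl w (r 0)) := by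
      intro k l
      have h1 := E_bound w hS (Ir_compact (r (min k l))) (Ir_compact (r (max k l)))
      have h2 : E k l ≤ 2 * S ^ 2 * Ck (Ir (r (min k l))) (Ir (r (max k l))) +
          2 * ((∫ v in Ir (r (min k l)), defect m w v) * tl w (r (max k l))) := h1
      refine h2.trans ?_
      have h3 := int_defect_le w (r (min k l))
      have h4 := int_defect_nonneg w (r (min k l))
      have h5 := htl (max k l)
      have h6 := tl_nonneg w (r (max k l))
      have h7 : (∫ v in Ir (r (min k l)), defect m w v) * tl w (r (max k l)) ≤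
          ((m + 1) * S) * tl w (r 0) := by gcongr
      linarith
    have hEsum : (1 / (N : ℝ) ^ 2) * ∑ k ∈ Finset.range N, ∑ l ∈ Finset.range N, E k l ≤
        2 * S ^ 2 * Vr r N + 2 * ((m + 1) * S * tl w (r 0)) := by
      calc (1 / (N : ℝ) ^ 2) * ∑ k ∈ Finset.range N, ∑ l ∈ Finset.range N, E k l ≤
          (1 / (N : ℝ) ^ 2) * ∑ k ∈ Finset.range N, ∑ l ∈ Finset.range N,
            (2 * S ^ 2 * Ck (Ir (r (min k l))) (Ir (r (max k l))) +
              2 * ((m + 1) * S * tl w (r 0))) := by
            gcongr with k _ l _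
            exact hEle k l
        _ = _ := by
            simp only [Finset.sum_add_distrib, ← Finset.mul_sum, Finset.sum_const,
              Finset.card_range, nsmul_eq_mul]
            unfold Vr
            field_simp
    have hfin : S * Qw w r N ≤ S * (3 * (m + 1) * tl w (r 0) + 2 * S * Vr r N) := by
      rw [hSQ, hδ]
      set δ := (1 / (N : ℝ)) * ∑ k ∈ Finset.range N, tl w (r k) with hδdef
      have h8 : δ ^ 2 ≤ tl w (r 0) * ((m + 1) * S) := by
        have h9 := tl_le w (r 0)
        rw [← hSdef] at h9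
        have : δ ^ 2 = δ * δ := sq δ
        rw [this]
        have h10 : δ ≤ (m + 1) * S := hδ1.trans h9
        gcongr
      have e5 : S * (3 * (m + 1) * tl w (r 0) + 2 * S * Vr r N) = tl w (r 0) * ((m + 1) * S) +
          (2 * S ^ 2 * Vr r N + 2 * ((m + 1) * S * tl w (r 0))) := by ring
      rw [e5]
      linarith
    exact le_of_mul_le_mul_left hfin hS

end Alg

end Pool.Agent.MP_67227b_nt
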