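import Pool.Agent.MP_67227b_nt.Final67

set_option autoImplicit false
open Filter MeasureTheory Topology Set
open scoped Real Pointwise

namespace Pool.Agent.MP_67227b_nt

variable {m : ℕ}

/-- The neighbourhoods of the origin and of the frequencies in `Θ`. -/
def nearFreq (Θ : Set (Fin m → ℝ)) (ε : ℝ) : Set (Fin m → ℝ) :=
  {ξ | (∀ i, |ξ i| < ε) ∨ ∃ θ ∈ Θ, ∀ i, |ξ i - θ i| < ε}

lemma ball_subset_nearFreq (Θ : Set (Fin m → ℝ)) {ε : ℝ} (hε : 0 < ε) :
    Metric.ball 0 ε ⊆ nearFreq Θ ε := by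
  intro ξ hξ
  left
  rw [mem_ball_zero_iff, pi_norm_lt_iff hε] at hξ
  exact hξ

lemma ball_subset_nearFreq' {Θ : Set (Fin m → ℝ)} {ε : ℝ} (hε : 0 < ε) {θ : Fin m → ℝ}
    (hθ : θ ∈ Θ) : Metric.ball θ ε ⊆ nearFreq Θ ε := by
  intro ξ hξ
  right
  refine ⟨θ, hθ, ?_⟩
  rw [Metric.mem_ball, dist_eq_norm, pi_norm_lt_iff hε] at hξ
  exact hξ

/-- The measure with density `w`. -/
noncomputable def dens (w : (Fin m → ℝ) → ℝ) : Measure (Fin m → ℝ) :=
  volume.withDensity (fun u => ENNReal.ofReal (w u))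

lemma dens_locallyFinite {w : (Fin m → ℝ) → ℝ} (hw : Continuous w) :
    IsLocallyFiniteMeasure (dens w) := by
  unfold dens
  exact IsLocallyFiniteMeasure.withDensity_ofReal hw

lemma integral_dens {w : (Fin m → ℝ) → ℝ} (hw : Continuous w) (hw0 : ∀ u, 0 ≤ w u)
    (f : (Fin m → ℝ) → ℝ) : ∫ u, f u ∂(dens w) = ∫ u, f u * w u := by
  unfold dens
  rw [integral_withDensity_eq_integral_toReal_smul (hw.measurable.ennreal_ofReal)
    (Eventually.of_forall fun u => ENNReal.ofReal_lt_top)]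
  congr 1
  ext u
  rw [ENNReal.toReal_ofReal (hw0 u), smul_eq_mul, mul_comm]

lemma integral_dens_complex {w : (Fin m → ℝ) → ℝ} (hw : Continuous w) (hw0 : ∀ u, 0 ≤ w u)
    (f : (Fin m → ℝ) → ℂ) : ∫ u, f u ∂(dens w) = ∫ u, f u * (w u : ℂ) := by
  unfold dens
  rw [integral_withDensity_eq_integral_toReal_smul (hw.measurable.ennreal_ofReal)
    (Eventually.of_forall fun u => ENNReal.ofReal_lt_top)]
  congr 1
  ext u
  rw [ENNReal.toReal_ofReal (hw0 u), Complex.real_smul, mul_comm]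

lemma dens_real {w : (Fin m → ℝ) → ℝ} (hw : Continuous w) (hw0 : ∀ u, 0 ≤ w u)
    {s : Set (Fin m → ℝ)} (hs : MeasurableSet s) : (dens w).real s = ∫ u in s, w u := by
  have h1 : (dens w).real s = ∫ u, s.indicator (fun _ => (1 : ℝ)) u ∂(dens w) := by
    rw [integral_indicator_const _ hs, smul_eq_mul, mul_one]
  rw [h1, integral_dens hw hw0, ← integral_indicator hs]
  congr 1
  ext u
  by_cases hu : u ∈ s
  · rw [indicator_of_mem hu, indicator_of_mem hu, one_mul]
  · rw [indicator_of_notMem hu, indicator_of_notMem hu, zero_mul]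

lemma dens_null {w : (Fin m → ℝ) → ℝ} {s : Set (Fin m → ℝ)} (hs : volume s = 0) :
    dens w s = 0 := withDensity_absolutelyContinuous _ _ hs

lemma integrable_dens {w : (Fin m → ℝ) → ℝ} (hw : Continuous w) (hw0 : ∀ u, 0 ≤ w u)
    {Cw : ℝ} (hwb : ∀ u, |w u| ≤ Cw) {f : (Fin m → ℝ) → ℝ} (hf : Integrable f) :
    Integrable f (dens w) := by
  unfold dens
  rw [integrable_withDensity_iff_integrable_smul' (hw.measurable.ennreal_ofReal)
    (Eventually.of_forall fun u => ENNReal.ofReal_lt_top)]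
  have h1 : Integrable (fun u => f u * w u) :=
    hf.mul_bdd (c := Cw) hw.aestronglyMeasurable (Eventually.of_forall hwb)
  refine h1.congr ?_
  filter_upwards with u
  rw [ENNReal.toReal_ofReal (hw0 u), smul_eq_mul, mul_comm]

lemma closedBall_eq_Icc' (x : Fin m → ℝ) {r : ℝ} (hr : 0 ≤ r) :
    Metric.closedBall x r = Icc (fun i => x i - r) (fun i => x i + r) := by
  rw [closedBall_pi x hr, ← Set.pi_univ_Icc]
  congr 1
  ext i : 1
  exact Real.closedBall_eq_Icc

/-- The hypotheses on far boxes. -/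
structure FarHyp (ν : ℝ → Measure (Fin m → ℝ)) (w P : (Fin m → ℝ) → ℝ) (A : ℝ) : Prop where
  up : ∀ a b : Fin m → ℝ, (∃ i, A ≤ a i ∨ b i ≤ -A) → (∀ u ∈ Icc a b, 0 < P u) →
    ∀ δ : ℝ, 0 < δ → ∀ᶠ T in atTop, (ν T).real (Icc a b) ≤ (∫ u in Icc a b, w u) + δ
  lo : ∀ a b : Fin m → ℝ, (∃ i, A ≤ a i ∨ b i ≤ -A) → (∀ u ∈ Icc a b, P u < 0) →
    ∀ δ : ℝ, 0 < δ → ∀ᶠ T in atTop, (∫ u in Icc a b, w u) ≤ (ν T).real (Icc a b) + δ

lemma far_ball {A : ℝ} {x : Fin m → ℝ} (hx : |A| < ‖x‖) {V : Set (Fin m → ℝ)} (hV : IsOpen V)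
    (hxV : x ∈ V) : ∃ r₀ : ℝ, 0 < r₀ ∧ ∀ r : ℝ, 0 < r → r < r₀ →
      (∃ i, A ≤ x i - r ∨ x i + r ≤ -A) ∧ Metric.closedBall x r ⊆ V := by
  obtain ⟨t, ht, htV⟩ := Metric.isOpen_iff.mp hV x hxV
  obtain ⟨i, hi⟩ : ∃ i, |A| < |x i| := by
    by_contra hcon
    push Not at hcon
    have : ‖x‖ ≤ |A| := by
      rw [pi_norm_le_iff_of_nonneg (abs_nonneg _)]
      exact hcon
    linarith
  refine ⟨min t (|x i| - |A|), lt_min ht (by linarith), fun r hr hr' => ⟨⟨i, ?_⟩, ?_⟩⟩
  · have h1 : r < |x i| - |A| := hr'.trans_le (min_le_right _ _)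
    have h2 := le_abs_self A
    rcases abs_cases (x i) with ⟨h3, _⟩ | ⟨h3, _⟩
    · left
      rw [h3] at h1
      linarith
    · right
      rw [h3] at h1
      linarith
  · exact (Metric.closedBall_subset_ball (hr'.trans_le (min_le_left _ _))).trans htV

/-- The limit along an ultrafilter is determined. -/
lemma limit_unique {ν : ℝ → Measure (Fin m → ℝ)} [∀ T, IsFiniteMeasure (ν T)]
    {w : (Fin m → ℝ) → ℝ} (hwc : Continuous w) (hw0 : ∀ u, 0 ≤ w u) {Cw : ℝ}
    (hwb : ∀ u, |w u| ≤ Cw) {Θ : Set (Fin m → ℝ)} {P : (Fin m → ℝ) → ℝ}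
    (hP : (fun u => ((P u : ℝ) : ℂ)) ∈ trigSpan Θ) (hnull : volume {u | P u = 0} = 0)
    {ε : ℝ} (hε : 0 < ε) {F : Filter ℝ} [NeBot F] (hF : F ≤ atTop)
    (hband : BandLim ν w (nearFreq Θ ε) F) {A : ℝ} (hfar : FarHyp ν w P A)
    {μ : Measure (Fin m → ℝ)} [IsLocallyFiniteMeasure μ] (hμ : VagueLim ν F μ)
    {f : (Fin m → ℝ) → ℝ} (hf : Continuous f) (hc : HasCompactSupport f) :
    ∫ u, f u ∂μ = ∫ u, f u * w u := by
  have := dens_locallyFinite hwc
  -- the support of `f`
  obtain ⟨C, hC0, R, hR⟩ := bounded_Cc hf hc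
  obtain ⟨ρ, hρ, hρε, hρk⟩ := exists_small m R (show 0 < ε / 16 by positivity)
  set q : (Fin m → ℝ) → ℝ := fun u => kap m ρ hρ u ^ 2 with hq
  have hkc := continuous_kap (m := m) ρ hρ
  have hΩ0 : Metric.closedBall 0 (2 * ρ) ⊆ nearFreq Θ ε :=
    (Metric.closedBall_subset_ball (by linarith)).trans (ball_subset_nearFreq Θ hε)
  obtain ⟨hki, _⟩ := kap_limit hband hμ hρ hΩ0
  have hk2 : ∀ (κ : Measure (Fin m → ℝ)), Integrable (kap m ρ hρ) κ → Integrable q κ := by
    intro κ hκ
    apply hκ.mono' (hkc.pow 2).aestronglyMeasurable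
    filter_upwards with u
    have h0 := kap_nonneg (m := m) ρ hρ u
    have h1 := kap_le_one (m := m) ρ hρ u
    rw [Pi.pow_apply, Real.norm_of_nonneg (sq_nonneg _)]
    nlinarith
  have hPc : Continuous P := by
    have h3 : P = fun u => (((P u : ℝ) : ℂ)).re := by
      ext u
      simp
    rw [h3]
    exact Complex.continuous_re.comp (trigSpan_cont hP).1
  have hPb : ∃ C : ℝ, 0 ≤ C ∧ ∀ u, |P u| ≤ C := by
    obtain ⟨C, hC0, hC⟩ := (trigSpan_cont hP).2
    refine ⟨C, hC0, fun u => ?_⟩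
    have := hC u
    rwa [Complex.norm_real] at this
  have H : Pinch μ (dens w) P q |A| (ε / 4) := by
    refine ⟨hPc, hPb, hkc.pow 2, fun u => sq_nonneg _, hk2 μ hki,
      hk2 _ (integrable_dens hwc hw0 hwb (integrable_kap ρ hρ)), by positivity, ?_, ?_, ?_⟩
    · intro s hs
      apply compare_upper hμ s
      intro x hx
      obtain ⟨h1, h2⟩ := hs hx
      obtain ⟨r₀, hr₀, h3⟩ := far_ball h1 (isOpen_lt continuous_const hPc) h2
      refine ⟨r₀, hr₀, fun r hr hr' δ hδ => ?_⟩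
      obtain ⟨h4, h5⟩ := h3 r hr hr'
      have h6 := hfar.up (fun i => x i - r) (fun i => x i + r) h4 (by
        rw [← closedBall_eq_Icc' x hr.le]
        exact h5) δ hδ
      rw [← closedBall_eq_Icc' x hr.le, ← dens_real hwc hw0
        Metric.isClosed_closedBall.measurableSet] at h6
      exact hF h6
    · intro s hs
      apply compare_lower hμ s
      intro x hx
      obtain ⟨h1, h2⟩ := hs hx
      obtain ⟨r₀, hr₀, h3⟩ := far_ball h1 (isOpen_lt hPc continuous_const) h2
      refine ⟨r₀, hr₀, fun r hr hr' δ hδ => ?_⟩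
      obtain ⟨h4, h5⟩ := h3 r hr hr'
      have h6 := hfar.lo (fun i => x i - r) (fun i => x i + r) h4 (by
        rw [← closedBall_eq_Icc' x hr.le]
        exact h5) δ hδ
      rw [← closedBall_eq_Icc' x hr.le, ← dens_real hwc hw0
        Metric.isClosed_closedBall.measurableSet] at h6
      exact hF h6
    · intro G hG
      have h1 := trigSpan_mul hG hP
      have h2 := trig_identity hwc hwb hband hμ hρ hΩ0 (S := Metric.closedBall 0 (ε / 4) + Θ)
        (by
          rintro _ ⟨a, ha, θ, hθ, rfl⟩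
          rw [mem_closedBall_zero_iff] at ha
          refine Set.Subset.trans ?_ (ball_subset_nearFreq' hε hθ)
          intro ξ hξ
          rw [Metric.mem_closedBall, dist_eq_norm] at hξ
          rw [Metric.mem_ball, dist_eq_norm]
          have h3 : ξ - θ = (ξ - (a + θ)) + a := by abel
          rw [h3]
          refine (norm_add_le _ _).trans_lt ?_
          linarith) h1
      have e1 : ∀ u, G u * ((q u * P u : ℝ) : ℂ) = (G * fun u => ((P u : ℝ) : ℂ)) u *
          ((kap m ρ hρ u ^ 2 : ℝ) : ℂ) := by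
        intro u
        simp only [Pi.mul_apply, hq]
        push_cast
        ring
      rw [integral_dens_complex hwc hw0]
      simp only [e1]
      exact h2
  have hone : ∫ u, q u ∂μ = ∫ u, q u ∂(dens w) := by
    have h1 : (1 : (Fin m → ℝ) → ℂ) ∈ trigSpan (Metric.closedBall (0 : Fin m → ℝ) 0) :=
      one_mem_trig le_rfl
    have h2 := trig_identity hwc hwb hband hμ hρ hΩ0 (S := Metric.closedBall 0 0)
        (by
          intro a ha
          rw [Metric.closedBall_zero, mem_singleton_iff] at ha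
          rw [ha]
          exact (Metric.closedBall_subset_ball (by linarith)).trans (ball_subset_nearFreq Θ hε)) h1
    simp only [Pi.one_apply, one_mul] at h2
    rw [integral_complex_ofReal] at h2
    have e2 : ∫ u, ((kap m ρ hρ u ^ 2 : ℝ) : ℂ) * (w u : ℂ) =
        ((∫ u, kap m ρ hρ u ^ 2 * w u : ℝ) : ℂ) := by
      rw [← integral_complex_ofReal]
      congr 1
      ext u
      push_cast
      rfl
    rw [e2] at h2
    rw [integral_dens hwc hw0]
    exact Complex.ofReal_injective h2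
  have hg : ∀ u, f u = (f u / max (q u) (1 / 4)) * q u := by
    intro u
    by_cases hu : ‖u‖ ≤ R
    · have h1 := hρk u hu
      have h2 : 1 / 4 ≤ q u := by
        simp only [hq]
        nlinarith
      rw [max_eq_left h2]
      have : q u ≠ 0 := by linarith
      field_simp
    · have h1 := hR u
      rw [indicator_of_notMem (by rwa [mem_closedBall_zero_iff])] at h1
      have h2 : f u = 0 := abs_eq_zero.mp (le_antisymm h1 (abs_nonneg _))
      rw [h2]
      simp
  have hmax : ∀ u : Fin m → ℝ, 0 < max (q u) (1 / 4) := fun u =>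
    lt_of_lt_of_le (by norm_num) (le_max_right _ _)
  have h1 := agree H (dens_null hnull) hone (f := fun u => f u / max (q u) (1 / 4))
    (hf.div ((hkc.pow 2).max continuous_const) (fun u => (hmax u).ne')) (by
      refine ⟨C / (1 / 4), fun u => ?_⟩
      rw [abs_div, abs_of_pos (hmax u)]
      have h2 : |f u| ≤ C := by
        refine (hR u).trans ?_
        by_cases hu : u ∈ Metric.closedBall (0 : Fin m → ℝ) R
        · rw [indicator_of_mem hu]
        · rw [indicator_of_notMem hu]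
          exact hC0
      gcongr
      exact le_max_right _ _)
  simp only [← hg] at h1
  rw [h1, integral_dens hwc hw0]

/-- The abstract form of the theorem on far boxes, for test functions. -/
theorem far_vague {ν : ℝ → Measure (Fin m → ℝ)} [∀ T, IsFiniteMeasure (ν T)]
    {w : (Fin m → ℝ) → ℝ} (hwc : Continuous w) (hw0 : ∀ u, 0 ≤ w u) {Cw : ℝ}
    (hwb : ∀ u, |w u| ≤ Cw) {Θ : Set (Fin m → ℝ)} {P : (Fin m → ℝ) → ℝ}
    (hP : (fun u => ((P u : ℝ) : ℂ)) ∈ trigSpan Θ) (hnull : volume {u | P u = 0} = 0)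
    {ε : ℝ} (hε : 0 < ε)
    (hband : BandLim ν w (nearFreq Θ ε) atTop) {A : ℝ} (hfar : FarHyp ν w P A)
    {f : (Fin m → ℝ) → ℝ} (hf : Continuous f) (hc : HasCompactSupport f) :
    Tendsto (fun T => ∫ u, f u ∂(ν T)) atTop (𝓝 (∫ u, f u * w u)) := by
  rw [tendsto_iff_ultrafilter]
  intro U hU
  have hbandU := hband.mono hU
  obtain ⟨μ, hμ1, hμ2⟩ := exists_limit_measure ν U
    (fun R => hbandU.ball_bounded hε (ball_subset_nearFreq Θ hε) R)
  have := hμ1
  have h1 := limit_unique hwc hw0 hwb hP hnull hε hU hbandU hfar hμ2 hf hc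
  rw [← h1]
  exact hμ2 f hf hc

/-- The abstract form of the theorem on far boxes, for boxes. -/
theorem far_boxes {ν : ℝ → Measure (Fin m → ℝ)} [∀ T, IsFiniteMeasure (ν T)]
    {w : (Fin m → ℝ) → ℝ} (hwc : Continuous w) (hw0 : ∀ u, 0 ≤ w u) {Cw : ℝ}
    (hwb : ∀ u, |w u| ≤ Cw) {Θ : Set (Fin m → ℝ)} {P : (Fin m → ℝ) → ℝ}
    (hP : (fun u => ((P u : ℝ) : ℂ)) ∈ trigSpan Θ) (hnull : volume {u | P u = 0} = 0)
    {ε : ℝ} (hε : 0 < ε)
    (hband : BandLim ν w (nearFreq Θ ε) atTop) {A : ℝ} (hfar : FarHyp ν w P A)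
    (a b : Fin m → ℝ) :
    Tendsto (fun T => (ν T).real (Icc a b)) atTop (𝓝 (∫ u in Icc a b, w u)) := by
  have := dens_locallyFinite hwc
  have hV : VagueLim ν atTop (dens w) := by
    intro f hf hc
    rw [integral_dens hwc hw0]
    exact far_vague hwc hw0 hwb hP hnull hε hband hfar hf hc
  have hK : IsCompact (Icc a b) := isCompact_Icc
  have hbd : dens w (frontier (Icc a b)) = 0 :=
    dens_null ((convex_Icc a b).addHaar_frontier volume)
  have hint : dens w (interior (Icc a b)) = dens w (Icc a b) :=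
    measure_interior_of_null_frontier hbd
  rw [← dens_real hwc hw0 measurableSet_Icc, Metric.tendsto_nhds]
  intro δ hδ
  have h1 := vague_upper hV hK (show 0 < δ / 2 by positivity)
  -- an inner compact set
  have hfin : dens w (interior (Icc a b)) ≠ ⊤ := by
    rw [hint]
    exact hK.measure_lt_top.ne
  obtain ⟨K', hK'V, hK', hK'μ⟩ : ∃ K' ⊆ interior (Icc a b), IsCompact K' ∧
      dens w (interior (Icc a b)) < dens w K' + ENNReal.ofReal (δ / 4) :=
    isOpen_interior.measurableSet.exists_isCompact_lt_add hfin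
      (show ENNReal.ofReal (δ / 4) ≠ 0 by simpa using (by positivity : 0 < δ / 4))
  have h2 := vague_lower hV hK' isOpen_interior hK'V (show 0 < δ / 4 by positivity)
  have h3 : (dens w).real (Icc a b) ≤ (dens w).real K' + δ / 4 := by
    unfold Measure.real
    rw [hint] at hK'μ
    have h6 := ENNReal.toReal_mono (ENNReal.add_ne_top.mpr
      ⟨hK'.measure_lt_top.ne, ENNReal.ofReal_ne_top⟩) hK'μ.le
    rwa [ENNReal.toReal_add hK'.measure_lt_top.ne ENNReal.ofReal_ne_top,
      ENNReal.toReal_ofReal (by positivity)] at h6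
  filter_upwards [h1, h2] with T hT1 hT2
  have h4 : (ν T).real (interior (Icc a b)) ≤ (ν T).real (Icc a b) :=
    measureReal_mono interior_subset
  rw [Real.dist_eq, abs_lt]
  constructor <;> linarith

end Pool.Agent.MP_67227b_nt
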