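import Pool.Agent.MP_67227b_nt.FarZeta67

set_option autoImplicit false

open Filter Topology Pool.Agent.MP_67227b_nt

/-!
For every `m`, the full `(m+1)`-level correlation conjecture for the zeros of the Riemann zeta
function is equivalent to one-sided bounds for far boxes, given the smoothed correlations for test
functions with small Fourier support. In detail, the conjecture follows from two things. First,
the smoothed correlations for test functions whose Fourier transform is supported near the origin
and near finitely many frequencies `θ_k`, `-θ_k` (for small frequencies this is the theorem of
Rudnick and Sarnak, under RH; it is a hypothesis here). Second, one-sided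
bounds for the boxes outside an arbitrarily large compact set: the upper-bound half where a fixed
real trigonometric polynomial `P` with the frequencies `θ_k` is positive and the lower-bound half
where it is negative. For `P = 1` this is the upper-bound half for far boxes only, for `P = -1` the
lower-bound half for far boxes only.

The proof takes limits of the empirical measures of the tuples along ultrafilters, tests them
against `P` times powers of a band-limited approximation of `|u| ^ 2`, which shows that there is no
defect far away, and removes a defect in a compact set by the Stone-Weierstrass theorem.
-/

theorem Pool.Agent.MP_67227b_nt.farRange (m n : ℕ) (c b : Fin n → ℝ)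
    (θ : Fin n → Fin m → ℝ) (hP : ∃ u, cosPoly c b θ u ≠ 0) (ε : ℝ) (hε : 0 < ε) (A : ℝ)
    (hs : SmoothedCorrelation zetaOrdinate m (freqSet θ ε)) :
    CorrelationConj zetaOrdinate m ↔
      FarUpper zetaOrdinate m (cosPoly c b θ) A ∧ FarLower zetaOrdinate m (cosPoly c b θ) A := by
  constructor
  · intro h
    constructor
    · intro a b' hab _ _ δ hδ
      filter_upwards [(h a b' hab).eventually (gt_mem_nhds (lt_add_of_pos_right _ hδ))] with T hT
      exact hT.le
    · intro a b' hab _ _ δ hδ
      filter_upwards [(h a b' hab).eventually (lt_mem_nhds (sub_lt_self _ hδ))] with T hT
      exact hT.le
  · rintro ⟨hu, hl⟩
    exact conj_of_far goodFamily_zeta m n c b θ hP hε A hs hu hl
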