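import Pool.Agent.MP_67227b_nt.FarDefs67

set_option autoImplicit false

open Filter MeasureTheory Topology Set
open scoped Real ComplexOrder

namespace Pool.Agent.MP_67227b_nt

/-- The matrix kernel with the symbol `Φ`, that is `K(v) = ∫ Φ(ξ) exp(2 pi i ξ v) dξ`, entry by
entry. -/
noncomputable def kerOf {n : ℕ} (Φ : ℝ → Matrix (Fin n) (Fin n) ℂ) (v : ℝ) :
    Matrix (Fin n) (Fin n) ℂ :=
  Matrix.of fun c d => ∫ ξ, Φ ξ c d * Complex.exp (2 * π * Complex.I * ((ξ * v : ℝ) : ℂ))

/-- The correlation density, at the points `u_1, ..., u_m, 0`, of the translation invariant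
determinantal process of points of `n` types on the line whose kernel, between a point `x` of type
`c` and a point `y` of type `d`, is `K(x - y)_{c d}`, where `K` is the matrix kernel with the
symbol `Φ`; the types are forgotten, so the sum runs over all choices of the types. For diagonal
`Φ` this is the superposition of `n` independent translation invariant determinantal
processes. -/
noncomputable def typeDet {n : ℕ} (Φ : ℝ → Matrix (Fin n) (Fin n) ℂ) (m : ℕ)
    (u : Fin m → ℝ) : ℝ :=
  ∑ c : Fin (m + 1) → Fin n, (Matrix.det (Matrix.of fun i k : Fin (m + 1) =>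
    kerOf Φ ((Fin.snoc u (0 : ℝ) : Fin (m + 1) → ℝ) i -
      (Fin.snoc u (0 : ℝ) : Fin (m + 1) → ℝ) k) (c i) (c k))).re

/-- A random symbol: Hermitian matrices `Φ(ω, ξ)` with `0 ≤ Φ ≤ 1` which depend measurably on the
random parameter `ω` and on the frequency `ξ`, such that the intensity, the integral of the trace
over `ξ`, is finite for each `ω` and has a finite second moment. -/
structure SymbolMixture {Ω : Type} [MeasurableSpace Ω] (P : Measure Ω) {n : ℕ}
    (Φ : Ω → ℝ → Matrix (Fin n) (Fin n) ℂ) : Prop where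
  meas : ∀ c d, Measurable (fun p : Ω × ℝ => Φ p.1 p.2 c d)
  pos : ∀ ω ξ, (Φ ω ξ).PosSemidef
  le_one : ∀ ω ξ, (1 - Φ ω ξ).PosSemidef
  integrable : ∀ ω, Integrable (fun ξ => (Φ ω ξ).trace.re)
  second : Integrable (fun ω => (∫ ξ, (Φ ω ξ).trace.re) ^ 2) P

/-- The correlation density, at the points `u_1, ..., u_m, 0`, of the mixture over `ω` of the
determinantal processes with the symbols `Φ(ω)`, types forgotten. -/
noncomputable def mixDet {Ω : Type} [MeasurableSpace Ω] (P : Measure Ω) {n : ℕ}
    (Φ : Ω → ℝ → Matrix (Fin n) (Fin n) ℂ) (m : ℕ) (u : Fin m → ℝ) : ℝ :=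
  ∫ ω, typeDet (Φ ω) m u ∂P

/-- Along the sequence of heights `T`, the `(m+1)`-level correlations of the family of ordinates
`γ` have, for all boxes, the limit with the density `D`. -/
def LimitAlong {J : Type*} (γ : J → ℝ) (m : ℕ) (D : (Fin m → ℝ) → ℝ) (T : ℕ → ℝ) : Prop :=
  ∀ a b : Fin m → ℝ, a ≤ b →
    Tendsto (fun k : ℕ => (tupleCount γ m (T k) a b : ℝ) / zeroScale (T k)) atTop
      (𝓝 (∫ u in Set.Icc a b, D u))

end Pool.Agent.MP_67227b_nt
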