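import Pool.Agent.MP_67227b_nt.Weier67

set_option autoImplicit false
open Filter MeasureTheory Topology Set
open scoped Real Pointwise

namespace Pool.Agent.MP_67227b_nt

variable {m : ℕ} {μ lam : Measure (Fin m → ℝ)} {P q : (Fin m → ℝ) → ℝ} {A ε : ℝ}

lemma outside_zero (H : Pinch μ lam P q A ε) : ∃ R₁ : ℝ, ∀ h : (Fin m → ℝ) → ℝ, BM h →
    DD μ lam P q {u | R₁ < ‖u‖} h = 0 := by
  obtain ⟨R₁, hR₁⟩ := shell_zero H
  refine ⟨R₁, fun h hh => ?_⟩
  have hU : {u : Fin m → ℝ | R₁ < ‖u‖} = ⋃ n : ℕ, {u : Fin m → ℝ | R₁ < ‖u‖ ∧ ‖u‖ ≤ n} := by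
    ext u
    simp only [mem_iUnion]
    constructor
    · intro hu
      obtain ⟨n, hn⟩ := exists_nat_ge ‖u‖
      exact ⟨n, hu, hn⟩
    · rintro ⟨n, hu, _⟩
      exact hu
  have key : ∀ κ : Measure (Fin m → ℝ), Integrable q κ →
      Tendsto (fun n : ℕ => ∫ u in {u : Fin m → ℝ | R₁ < ‖u‖ ∧ ‖u‖ ≤ n}, h u * q u * P u ∂κ)
        atTop (𝓝 (∫ u in {u : Fin m → ℝ | R₁ < ‖u‖}, h u * q u * P u ∂κ)) := by
    intro κ hκ
    rw [hU]
    apply tendsto_setIntegral_of_monotone
    · intro n
      exact (isOpen_lt continuous_const continuous_norm).measurableSet.inter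
        (isClosed_le continuous_norm continuous_const).measurableSet
    · intro n n' hn u hu
      exact ⟨hu.1, hu.2.trans (Nat.cast_le.mpr hn)⟩
    · exact (intPinch H.hP H.hPb hκ hh).integrableOn
  have h1 := (key lam H.ql).sub (key μ H.qμ)
  have h2 : Tendsto (fun n : ℕ => DD μ lam P q {u | R₁ < ‖u‖ ∧ ‖u‖ ≤ n} h) atTop
      (𝓝 (DD μ lam P q {u | R₁ < ‖u‖} h)) := h1
  refine tendsto_nhds_unique h2 ?_
  simp only [hR₁ _ h hh]
  exact tendsto_const_nhds

/-- The difference vanishes for all bounded continuous functions. -/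
lemma DD_univ_zero (H : Pinch μ lam P q A ε) {F : (Fin m → ℝ) → ℝ} (hF : Continuous F)
    (hFb : ∃ C : ℝ, ∀ u, |F u| ≤ C) : DD μ lam P q univ F = 0 := by
  obtain ⟨R₁, hR₁⟩ := outside_zero H
  obtain ⟨C, hC0, hC⟩ := H.hPb
  have hFB : BM F := ⟨hF.measurable, hFb⟩
  set B : Set (Fin m → ℝ) := {u | ‖u‖ ≤ R₁} with hB
  have mB : MeasurableSet B := (isClosed_le continuous_norm continuous_const).measurableSet
  have hBc : Bᶜ = {u | R₁ < ‖u‖} := by
    ext u
    simp [hB]
  have hsplit : ∀ h : (Fin m → ℝ) → ℝ, BM h → DD μ lam P q univ h = DD μ lam P q B h := by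
    intro h hh
    rw [← union_compl_self B, DD_union H disjoint_compl_right mB.compl hh, hBc, hR₁ h hh, add_zero]
  rw [hsplit F hFB]
  set C₀ : ℝ := C * ((∫ u, q u ∂lam) + ∫ u, q u ∂μ) with hC₀
  have hC₀0 : 0 ≤ C₀ := mul_nonneg hC0 (add_nonneg (integral_nonneg H.hq0)
    (integral_nonneg H.hq0))
  have key : ∀ δ : ℝ, 0 < δ → |DD μ lam P q B F| ≤ δ * C₀ := by
    intro δ hδ
    obtain ⟨G, hG, hG2⟩ := approx_trig R₁ H.hε (F := fun u => ((F u : ℝ) : ℂ))
      (Complex.continuous_ofReal.comp hF) hδ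
    set g : (Fin m → ℝ) → ℝ := fun u => (G u).re with hg
    have hgt : (fun u => ((g u : ℝ) : ℂ)) ∈ trigSpan (Metric.closedBall (0 : Fin m → ℝ) ε) := by
      have h1 : (fun u => ((g u : ℝ) : ℂ)) =
          (1 / 2 : ℂ) • (G + fun u => (starRingEnd ℂ) (G u)) := by
        ext u
        simp only [hg, Pi.smul_apply, Pi.add_apply, smul_eq_mul]
        rw [Complex.add_conj]
        push_cast
        ring
      rw [h1]
      exact Submodule.smul_mem _ _ (Submodule.add_mem _ hG (trigSpan_conj hG))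
    have hgB : BM g := trig_BM hgt
    have h0 : DD μ lam P q B g = 0 := by
      rw [← hsplit g hgB, DD_trig H hgt]
    have h1 : DD μ lam P q B (fun u => F u + - g u) = DD μ lam P q B F := by
      have h2 := DD_smul (μ := μ) (lam := lam) (P := P) (q := q) (-1) B g
      simp only [neg_mul, one_mul] at h2
      rw [DD_add H B hFB hgB.neg, h2, h0, neg_zero, add_zero]
    rw [← h1]
    apply DD_bound H hC mB (hFB.add hgB.neg) _ hδ.le
    intro u hu
    have h3 := hG2 u hu
    have h4 : F u + - g u = (((F u : ℝ) : ℂ) - G u).re := by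
      simp [hg]
      ring
    rw [h4]
    exact (Complex.abs_re_le_norm _).trans h3
  have h2 : |DD μ lam P q B F| ≤ 0 := by
    apply le_of_forall_pos_le_add
    intro δ hδ
    have h3 := key (δ / (C₀ + 1)) (by positivity)
    refine h3.trans ?_
    rw [zero_add, div_mul_eq_mul_div, div_le_iff₀ (by positivity)]
    nlinarith
  exact abs_eq_zero.mp (le_antisymm h2 (abs_nonneg _))

/-- The two measures agree. -/
lemma agree (H : Pinch μ lam P q A ε) (hnull : lam {u | P u = 0} = 0)
    (hone : ∫ u, q u ∂μ = ∫ u, q u ∂lam) {f : (Fin m → ℝ) → ℝ} (hf : Continuous f)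
    (hfb : ∃ C : ℝ, ∀ u, |f u| ≤ C) : ∫ u, f u * q u ∂μ = ∫ u, f u * q u ∂lam := by
  set N : Set (Fin m → ℝ) := {u | P u = 0} with hN
  have mN : MeasurableSet N := (isClosed_eq H.hP continuous_const).measurableSet
  have hint : ∀ (κ : Measure (Fin m → ℝ)), Integrable q κ → ∀ f : (Fin m → ℝ) → ℝ, Continuous f →
      (∃ C : ℝ, ∀ u, |f u| ≤ C) → Integrable (fun u => f u * q u) κ := by
    intro κ hκ f hf hfb
    obtain ⟨C, hC⟩ := hfb
    exact hκ.bdd_mul (c := C) hf.aestronglyMeasurable (Eventually.of_forall hC)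
  -- the identity off the zero set
  have hoff : ∀ f : (Fin m → ℝ) → ℝ, Continuous f → (∃ C : ℝ, ∀ u, |f u| ≤ C) →
      ∫ u in Nᶜ, f u * q u ∂μ = ∫ u in Nᶜ, f u * q u ∂lam := by
    intro f hf hfb
    obtain ⟨C, hC⟩ := hfb
    have hC0 : 0 ≤ C := (abs_nonneg _).trans (hC 0)
    obtain ⟨CP, hCP0, hCP⟩ := H.hPb
    -- approximations
    set Fn : ℕ → (Fin m → ℝ) → ℝ := fun n u => f u * P u / (P u ^ 2 + 1 / ((n : ℝ) + 1)) with hFn
    have hden : ∀ (n : ℕ) (u : Fin m → ℝ), 0 < P u ^ 2 + 1 / ((n : ℝ) + 1) := fun n u => by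
      positivity
    have hFnc : ∀ n, Continuous (Fn n) := by
      intro n
      exact (hf.mul H.hP).div ((H.hP.pow 2).add continuous_const) (fun u => (hden n u).ne')
    have hFnb : ∀ n, ∃ D : ℝ, ∀ u, |Fn n u| ≤ D := by
      intro n
      refine ⟨C * CP * ((n : ℝ) + 1), fun u => ?_⟩
      rw [hFn]
      dsimp only
      rw [abs_div, abs_of_pos (hden n u), div_le_iff₀ (hden n u), abs_mul]
      calc |f u| * |P u| ≤ C * CP := by
            gcongr
            · exact hC u
            · exact hCP u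
        _ = C * CP * ((n : ℝ) + 1) * (1 / ((n : ℝ) + 1)) := by
            field_simp
        _ ≤ C * CP * ((n : ℝ) + 1) * (P u ^ 2 + 1 / ((n : ℝ) + 1)) := by
            gcongr
            linarith [sq_nonneg (P u)]
    have hz : ∀ n, ∫ u, Fn n u * q u * P u ∂μ = ∫ u, Fn n u * q u * P u ∂lam := by
      intro n
      have h1 := DD_univ_zero H (hFnc n) (hFnb n)
      unfold DD at h1
      rw [Measure.restrict_univ, Measure.restrict_univ] at h1
      linarith
    have hlim : ∀ κ : Measure (Fin m → ℝ), Integrable q κ →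
        Tendsto (fun n : ℕ => ∫ u, Fn n u * q u * P u ∂κ) atTop
          (𝓝 (∫ u in Nᶜ, f u * q u ∂κ)) := by
      intro κ hκ
      rw [← integral_indicator mN.compl]
      apply tendsto_integral_of_dominated_convergence (fun u => C * q u)
      · intro n
        exact (((hFnc n).mul H.hq).mul H.hP).aestronglyMeasurable
      · exact hκ.const_mul C
      · intro n
        filter_upwards with u
        rw [Real.norm_eq_abs]
        have e : Fn n u * q u * P u = f u * q u * (P u ^ 2 / (P u ^ 2 + 1 / ((n : ℝ) + 1))) := by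
          rw [hFn]
          ring
        rw [e, abs_mul, abs_mul, abs_of_nonneg (H.hq0 u)]
        have h3 : |P u ^ 2 / (P u ^ 2 + 1 / ((n : ℝ) + 1))| ≤ 1 := by
          rw [abs_of_nonneg (by positivity), div_le_one (hden n u)]
          have : 0 < 1 / ((n : ℝ) + 1) := by positivity
          linarith
        calc |f u| * q u * |P u ^ 2 / (P u ^ 2 + 1 / ((n : ℝ) + 1))| ≤ |f u| * q u * 1 := by
              have := mul_nonneg (abs_nonneg (f u)) (H.hq0 u)
              gcongr
          _ ≤ C * q u := by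
              rw [mul_one]
              have := H.hq0 u
              gcongr
              exact hC u
      · filter_upwards with u
        by_cases hu : P u = 0
        · have : u ∉ Nᶜ := by simp [hN, hu]
          rw [indicator_of_notMem this]
          simp only [hu, mul_zero]
          exact tendsto_const_nhds
        · have : u ∈ Nᶜ := by simp [hN, hu]
          rw [indicator_of_mem this]
          have h4 : Tendsto (fun n : ℕ => P u ^ 2 + 1 / ((n : ℝ) + 1)) atTop (𝓝 (P u ^ 2 + 0)) :=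
            tendsto_const_nhds.add tendsto_one_div_add_atTop_nhds_zero_nat
          rw [add_zero] at h4
          have h5 := (((tendsto_const_nhds (x := f u * P u)).div h4
            (pow_ne_zero 2 hu)).mul_const (q u)).mul_const (P u)
          have e : f u * P u / P u ^ 2 * q u * P u = f u * q u := by
            field_simp
          rw [e] at h5
          exact h5
    have h6 := hlim μ H.qμ
    have h7 := hlim lam H.ql
    simp only [hz] at h6
    exact tendsto_nhds_unique h6 h7
  have hlamN : ∀ f : (Fin m → ℝ) → ℝ, ∫ u in N, f u * q u ∂lam = 0 := by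
    intro f
    rw [Measure.restrict_eq_zero.mpr hnull, integral_zero_measure]
  have hsplit : ∀ (κ : Measure (Fin m → ℝ)), Integrable q κ → ∀ f : (Fin m → ℝ) → ℝ,
      Continuous f → (∃ C : ℝ, ∀ u, |f u| ≤ C) →
      ∫ u, f u * q u ∂κ = (∫ u in N, f u * q u ∂κ) + ∫ u in Nᶜ, f u * q u ∂κ := by
    intro κ hκ f hf hfb
    exact (integral_add_compl mN (hint κ hκ f hf hfb)).symm
  have hqN : ∫ u in N, q u ∂μ = 0 := by
    have h1 := hsplit μ H.qμ (fun _ => 1) continuous_const ⟨1, fun _ => by simp⟩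
    have h2 := hsplit lam H.ql (fun _ => 1) continuous_const ⟨1, fun _ => by simp⟩
    have h3 := hoff (fun _ => 1) continuous_const ⟨1, fun _ => by simp⟩
    have h4 := hlamN (fun _ => 1)
    simp only [one_mul] at h1 h2 h3 h4
    linarith
  have hae : ∀ᵐ u ∂(μ.restrict N), q u = 0 := by
    have := (integral_eq_zero_iff_of_nonneg_ae (Eventually.of_forall H.hq0)
      H.qμ.integrableOn).mp hqN
    exact this
  have hfN : ∫ u in N, f u * q u ∂μ = 0 := by
    rw [integral_eq_zero_of_ae]
    filter_upwards [hae] with u hu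
    rw [hu, mul_zero]
    rfl
  rw [hsplit μ H.qμ f hf hfb, hsplit lam H.ql f hf hfb, hfN, hlamN, hoff f hf hfb]

end Pool.Agent.MP_67227b_nt
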