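import Pool.Agent.MP_67227b_nt.PSD35
import Pool.Agent.MP_67227b_nt.Bordered35

set_option autoImplicit false

open Filter MeasureTheory Topology Set
open scoped Real Nat Matrix MatrixOrder

namespace Pool.Agent.MP_67227b_nt

section Fischer

variable {α β : Type*} [Fintype α] [DecidableEq α] [Fintype β] [DecidableEq β]

lemma one_le_det_one_add {Y : Matrix α α ℝ} (hY : Y.PosSemidef) : 1 ≤ (1 + Y).det := by
  have hH : (1 + Y).IsHermitian := (Matrix.PosSemidef.one.add hY).isHermitian
  rw [hH.det_eq_prod_eigenvalues]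
  have h1 : ∀ i, 1 ≤ hH.eigenvalues i := by
    intro i
    rw [hH.eigenvalues_eq]
    set v := hH.eigenvectorBasis i with hv
    have h2 : (star ⇑v) ⬝ᵥ ((1 + Y) *ᵥ ⇑v) = 1 + (star ⇑v) ⬝ᵥ (Y *ᵥ ⇑v) := by
      rw [Matrix.add_mulVec, Matrix.one_mulVec, dotProduct_add]
      congr 1
      have h3 : ‖v‖ = 1 := hH.eigenvectorBasis.orthonormal.1 i
      have h4 := EuclideanSpace.real_norm_sq_eq v
      rw [h3] at h4
      simp only [one_pow] at h4
      rw [h4]
      simp [dotProduct, sq]
    rw [h2]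
    have h5 := hY.dotProduct_mulVec_nonneg ⇑v
    simpa using h5
  have h2 : (1 : ℝ) ≤ ∏ i, hH.eigenvalues i := by
    calc (1 : ℝ) = ∏ i : α, (1 : ℝ) := by simp
      _ ≤ _ := Finset.prod_le_prod (fun _ _ => zero_le_one) fun i _ => h1 i
  simpa using h2

lemma exists_sq {P : Matrix α α ℝ} (hP : P.PosSemidef) : ∃ B : Matrix α α ℝ, P = Bᴴ * B := by
  obtain ⟨B, h⟩ := CStarAlgebra.nonneg_iff_eq_star_mul_self.mp hP.nonneg
  exact ⟨B, h⟩

lemma det_le_det_add {P X : Matrix α α ℝ} (hP : P.PosSemidef) (hX : X.PosSemidef) :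
    P.det ≤ (P + X).det := by
  by_cases h0 : P.det = 0
  · rw [h0]
    exact (hP.add hX).det_nonneg
  · obtain ⟨B, hB⟩ := exists_sq hP
    have hdet : P.det = B.det * B.det := by
      rw [hB, Matrix.det_mul, Matrix.det_conjTranspose]
      simp
    have hB0 : IsUnit B.det := by
      rw [isUnit_iff_ne_zero]
      intro h
      rw [hdet, h, mul_zero] at h0
      exact h0 rfl
    have hY := hX.conjTranspose_mul_mul_same B⁻¹
    have h1 := one_le_det_one_add hY
    have h2 : P + X = Bᴴ * (1 + (B⁻¹)ᴴ * X * B⁻¹) * B := by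
      rw [Matrix.mul_add, Matrix.add_mul, Matrix.mul_one, ← hB]
      congr 1
      have h3 : Bᴴ * (B⁻¹)ᴴ = 1 := by
        rw [← Matrix.conjTranspose_mul, Matrix.nonsing_inv_mul _ hB0, Matrix.conjTranspose_one]
      calc X = (Bᴴ * (B⁻¹)ᴴ) * X * (B⁻¹ * B) := by
            rw [h3, Matrix.nonsing_inv_mul _ hB0, Matrix.one_mul, Matrix.mul_one]
        _ = _ := by simp only [Matrix.mul_assoc]
    rw [h2, Matrix.det_mul, Matrix.det_mul, Matrix.det_conjTranspose, hdet]
    have h4 : 0 ≤ B.det * B.det := mul_self_nonneg _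
    have e : star B.det * (1 + (B⁻¹)ᴴ * X * B⁻¹).det * B.det =
        B.det * B.det * (1 + (B⁻¹)ᴴ * X * B⁻¹).det := by
      simp only [star_trivial]
      ring
    rw [e]
    nlinarith

/-- Fischer's inequality. -/
lemma fischer (A : Matrix α α ℝ) (B : Matrix α β ℝ) (D : Matrix β β ℝ)
    (h : (Matrix.fromBlocks A B Bᴴ D).PosSemidef) :
    (Matrix.fromBlocks A B Bᴴ D).det ≤ A.det * D.det := by
  have hA : A.PosSemidef := by
    have h1 := h.submatrix (Sum.inl : α → α ⊕ β)
    have h2 : (Matrix.fromBlocks A B Bᴴ D).submatrix Sum.inl Sum.inl = A := by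
      ext i j
      rfl
    rwa [h2] at h1
  have hD : D.PosSemidef := by
    have h1 := h.submatrix (Sum.inr : β → α ⊕ β)
    have h2 : (Matrix.fromBlocks A B Bᴴ D).submatrix Sum.inr Sum.inr = D := by
      ext i j
      rfl
    rwa [h2] at h1
  by_cases h0 : A.det = 0
  · obtain ⟨v, hv0, hv⟩ := Matrix.exists_mulVec_eq_zero_iff.2 h0
    have h1 : (Matrix.fromBlocks A B Bᴴ D).det = 0 := by
      apply Matrix.exists_mulVec_eq_zero_iff.1
      refine ⟨Sum.elim v 0, ?_, ?_⟩
      · intro h2
        apply hv0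
        ext i
        have := congrFun h2 (Sum.inl i)
        simpa using this
      · rw [← h.dotProduct_mulVec_zero_iff]
        rw [Matrix.fromBlocks_mulVec]
        simp [hv, dotProduct]
    rw [h1, h0, zero_mul]
  · have hAp : A.PosDef := hA.posDef_iff_det_ne_zero.2 h0
    let _ : Invertible A := Matrix.invertibleOfIsUnitDet A (isUnit_iff_ne_zero.2 h0)
    have h1 := (Matrix.PosDef.fromBlocks₁₁ B D hAp).1 h
    rw [Matrix.det_fromBlocks₁₁]
    have h2 : (Bᴴ * A⁻¹ * B).PosSemidef := hAp.inv.posSemidef.conjTranspose_mul_mul_same B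
    have h3 := det_le_det_add h1 h2
    rw [sub_add_cancel] at h3
    rw [Matrix.invOf_eq_nonsing_inv]
    exact mul_le_mul_of_nonneg_left h3 hA.det_nonneg

end Fischer

section Gram

lemma gm_comp {α β : Type*} (g : α → ℝ) (e : β → α) : gm (g ∘ e) = (gm g).submatrix e e := rfl

lemma det_gm_comp_equiv {α β : Type*} [Fintype α] [DecidableEq α] [Fintype β] [DecidableEq β]
    (g : α → ℝ) (e : β ≃ α) : (gm (g ∘ e)).det = (gm g).det := by
  rw [gm_comp, Matrix.det_submatrix_equiv_self]

lemma det_gm_nonneg {α : Type*} [Fintype α] [DecidableEq α] (g : α → ℝ) : 0 ≤ (gm g).det :=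
  (gm_posSemidef g).det_nonneg

lemma det_gm_sum_le {α β : Type*} [Fintype α] [DecidableEq α] [Fintype β] [DecidableEq β]
    (g : α ⊕ β → ℝ) :
    (gm g).det ≤ (gm (g ∘ Sum.inl)).det * (gm (g ∘ Sum.inr)).det := by
  have h1 : gm g = Matrix.fromBlocks (gm (g ∘ Sum.inl))
      (Matrix.of fun i j => K (g (Sum.inl i) - g (Sum.inr j)))
      (Matrix.of fun i j => K (g (Sum.inl i) - g (Sum.inr j)))ᴴ (gm (g ∘ Sum.inr)) := by
    ext i j
    rcases i with i | i <;> rcases j with j | j
    · simp [gm_apply]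
    · simp [gm_apply]
    · simp only [gm_apply, Matrix.fromBlocks_apply₂₁, Matrix.conjTranspose_apply, Matrix.of_apply,
        star_trivial]
      rw [← K_neg]
      congr 1
      ring
    · simp [gm_apply]
  have h2 := gm_posSemidef g
  rw [h1] at h2
  have h3 := fischer _ _ _ h2
  rw [← h1] at h3
  exact h3

lemma det_gm_unique {α : Type*} [Unique α] [Fintype α] [DecidableEq α] (g : α → ℝ) :
    (gm g).det = 1 := by
  rw [Matrix.det_unique, gm_apply, sub_self, K_zero]

lemma det_gm_snoc_le {m : ℕ} (u : Fin m → ℝ) (v : ℝ) :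
    (sineMatrix (Fin.snoc u v : Fin (m + 1) → ℝ)).det ≤ (gm u).det := by
  have h1 : (Fin.snoc u v : Fin (m + 1) → ℝ) ∘ finSumFinEquiv =
      Sum.elim u (fun _ : Fin 1 => v) := by
    ext i
    rcases i with i | i
    · simp only [Function.comp_apply, finSumFinEquiv_apply_left, Sum.elim_inl]
      exact Fin.snoc_castSucc (α := fun _ => ℝ) v u i
    · have : i = 0 := Subsingleton.elim _ _
      subst this
      simp only [Function.comp_apply, finSumFinEquiv_apply_right, Sum.elim_inr]
      exact Fin.snoc_last (α := fun _ => ℝ) v u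
  rw [sineMatrix_eq_gm, ← det_gm_comp_equiv _ finSumFinEquiv, h1]
  refine (det_gm_sum_le _).trans ?_
  rw [det_gm_unique (Sum.elim u (fun _ : Fin 1 => v) ∘ Sum.inr), mul_one]
  exact le_of_eq rfl

lemma det_gm_le_one {m : ℕ} (u : Fin m → ℝ) : (gm u).det ≤ 1 := by
  induction m with
  | zero => simp
  | succ m ih =>
    have h := det_gm_snoc_le (Fin.init u) (u (Fin.last m))
    rw [Fin.snoc_init_self] at h
    exact h.trans (ih _)

lemma sineDet_le_gm {m : ℕ} (u : Fin m → ℝ) : sineDet m u ≤ (gm u).det := det_gm_snoc_le u 0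

lemma sineDet_le_one {m : ℕ} (u : Fin m → ℝ) : sineDet m u ≤ 1 :=
  (sineDet_le_gm u).trans (det_gm_le_one u)

lemma sineDet_nonneg {m : ℕ} (u : Fin m → ℝ) : 0 ≤ sineDet m u := det_gm_nonneg _

/-- Fischer's inequality for several blocks. -/
lemma det_gm_prod_le {G : Type*} [Fintype G] [DecidableEq G] (k : ℕ) (g : Fin k × G → ℝ) :
    (gm g).det ≤ ∏ q, (gm fun t => g (q, t)).det := by
  induction k with
  | zero => simp
  | succ k ih =>
    let e : G ⊕ (Fin k × G) ≃ Fin (k + 1) × G :=
      { toFun := Sum.elim (fun t => (0, t)) (fun p => (p.1.succ, p.2))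
        invFun := fun p => Fin.cases (motive := fun _ => G ⊕ (Fin k × G)) (Sum.inl p.2)
          (fun q => Sum.inr (q, p.2)) p.1
        left_inv := by
          rintro (t | p)
          · simp
          · simp
        right_inv := by
          rintro ⟨q, t⟩
          refine Fin.cases ?_ (fun q => ?_) q
          · simp
          · simp }
    rw [← det_gm_comp_equiv g e, Fin.prod_univ_succ]
    refine (det_gm_sum_le _).trans ?_
    have h1 : (g ∘ e) ∘ Sum.inl = fun t => g (0, t) := rfl
    have h2 : (g ∘ e) ∘ Sum.inr = fun p : Fin k × G => g (p.1.succ, p.2) := rfl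
    rw [h1, h2]
    exact mul_le_mul_of_nonneg_left (ih fun p => g (p.1.succ, p.2)) (det_gm_nonneg _)

end Gram

end Pool.Agent.MP_67227b_nt
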