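import Pool.Agent.MP_67227b_nt.Band67
import Pool.Agent.MP_67227b_nt.Decay67

set_option autoImplicit false

open Filter MeasureTheory Topology Set
open scoped Real ContDiff FourierTransform RealInnerProductSpace

namespace Pool.Agent.MP_67227b_nt

variable {m : ℕ}

/-- Fourier inversion for band functions. -/
lemma inv_synth {Ω : Set (Fin m → ℝ)} {φ : (Fin m → ℝ) → ℂ} (h : IsBand Ω φ)
    (ξ : Fin m → ℝ) : ∫ u, synth φ u * ee (-ξ) u = φ ξ := by
  set e := (EuclideanSpace.equiv (Fin m) ℝ) with he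
  set ψ : EuclideanSpace ℝ (Fin m) → ℂ := φ ∘ e with hψ
  have hψc : HasCompactSupport ψ := h.2.1.comp_homeomorph e.toHomeomorph
  have hψs : ContDiff ℝ ∞ ψ := h.1.comp e.contDiff
  set F := hψc.toSchwartzMap hψs with hF
  set G : SchwartzMap (EuclideanSpace ℝ (Fin m)) ℂ := 𝓕⁻ F with hG
  have h2 : ∀ v : EuclideanSpace ℝ (Fin m), G v = synth φ (WithLp.ofLp v) := by
    intro v
    rw [hG, SchwartzMap.fourierInv_coe, Real.fourierInv_eq', synth,
      ← (PiLp.volume_preserving_ofLp (Fin m)).integral_comp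
        (EuclideanSpace.equiv (Fin m) ℝ).toHomeomorph.measurableEmbedding]
    congr 1
    ext w
    rw [smul_eq_mul, mul_comm]
    congr 1
    unfold ee
    congr 1
    rw [PiLp.inner_apply]
    push_cast
    simp only [RCLike.inner_apply, conj_trivial]
    push_cast
    have : ∑ i, ((WithLp.ofLp v i : ℝ) : ℂ) * ((WithLp.ofLp w i : ℝ) : ℂ) =
      ∑ i, ((WithLp.ofLp w i : ℝ) : ℂ) * ((WithLp.ofLp v i : ℝ) : ℂ) := by
      apply Finset.sum_congr rfl
      intro i _
      ring
    rw [this]
    ring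
  have h3 : 𝓕 G = F := FourierTransform.fourier_fourierInv_eq F
  have h4 : (𝓕 G) (WithLp.toLp 2 ξ) = F (WithLp.toLp 2 ξ) := by rw [h3]
  have h5 : F (WithLp.toLp 2 ξ) = φ ξ := rfl
  rw [h5, SchwartzMap.fourier_coe, Real.fourier_eq'] at h4
  rw [← h4, ← (PiLp.volume_preserving_ofLp (Fin m)).integral_comp
        (EuclideanSpace.equiv (Fin m) ℝ).toHomeomorph.measurableEmbedding]
  congr 1
  ext v
  rw [smul_eq_mul, h2, mul_comm]
  congr 1
  unfold ee
  congr 1
  rw [PiLp.inner_apply]
  push_cast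
  simp only [RCLike.inner_apply, conj_trivial]
  push_cast
  have : ∑ i, ((-(ξ i : ℝ) : ℝ) : ℂ) * ((WithLp.ofLp v i : ℝ) : ℂ) =
    - ∑ i, ((ξ i : ℝ) : ℂ) * ((WithLp.ofLp v i : ℝ) : ℂ) := by
    rw [← Finset.sum_neg_distrib]
    apply Finset.sum_congr rfl
    intro i _
    push_cast
    ring
  simp only [Pi.neg_apply]
  rw [this]
  ring

lemma ee_comm (ξ u : Fin m → ℝ) : ee ξ u = ee u ξ := by
  unfold ee
  congr 3
  apply Finset.sum_congr rfl
  intro i _
  ring

/-- Parseval's formula for a band function and an integrable function. -/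
lemma parseval_synth {Ω : Set (Fin m → ℝ)} {φ : (Fin m → ℝ) → ℂ} (h : IsBand Ω φ)
    {G : (Fin m → ℝ) → ℂ} (hG : Integrable G) :
    ∫ u, synth φ u * synth G u = ∫ ξ, φ (-ξ) * G ξ := by
  have hs := h.integrable_synth
  have h1 : ∀ u, synth φ u * synth G u = ∫ ξ, synth φ u * (G ξ * ee ξ u) := by
    intro u
    rw [integral_const_mul]
    rfl
  simp only [h1]
  rw [integral_integral_swap]
  · congr 1
    ext ξ
    have h2 := inv_synth h (-ξ)
    rw [neg_neg] at h2
    rw [← h2, ← integral_mul_const]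
    congr 1
    ext u
    ring
  · have h3 : Integrable (fun p : (Fin m → ℝ) × (Fin m → ℝ) => synth φ p.1 * G p.2)
        (volume.prod volume) := hs.mul_prod hG
    have h4 : Integrable (fun p : (Fin m → ℝ) × (Fin m → ℝ) =>
        (synth φ p.1 * G p.2) * ee p.2 p.1) (volume.prod volume) := by
      refine h3.mul_bdd (c := 1) ?_ ?_
      · exact (continuous_ee.comp continuous_swap).aestronglyMeasurable
      · filter_upwards with p
        exact (norm_ee _ _).le
    refine h4.congr ?_
    filter_upwards with p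
    simp only [Function.uncurry]
    ring

/-- The integral of a band function over the space. -/
lemma integral_synth {Ω : Set (Fin m → ℝ)} {φ : (Fin m → ℝ) → ℂ} (h : IsBand Ω φ) :
    ∫ u, synth φ u = φ 0 := by
  have h1 := inv_synth h 0
  rw [← h1]
  congr 1
  ext u
  rw [neg_zero, ee_zero_left, mul_one]

end Pool.Agent.MP_67227b_nt
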