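import Pool.Agent.MP_67227b_nt.Induct35

set_option autoImplicit false

open Filter MeasureTheory Topology Set
open scoped Real Nat

namespace Pool.Agent.MP_67227b_nt

/-- The integral of the pair density. -/
noncomputable def D1 (s t : ℝ) : ℝ := ∫ v in Icc s t, (1 - K v ^ 2)

lemma sineDet_one (v : ℝ) (u : Fin 0 → ℝ) :
    sineDet 1 (Fin.cons v u : Fin 1 → ℝ) = 1 - K v ^ 2 := by
  rw [sineDet, Matrix.det_fin_two]
  simp only [sineMatrix_apply]
  have h0 : (Fin.snoc (Fin.cons v u : Fin 1 → ℝ) (0 : ℝ) : Fin 2 → ℝ) 0 = v := by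
    have : (0 : Fin 2) = Fin.castSucc (0 : Fin 1) := rfl
    rw [this, Fin.snoc_castSucc]
    simp
  have h1 : (Fin.snoc (Fin.cons v u : Fin 1 → ℝ) (0 : ℝ) : Fin 2 → ℝ) 1 = 0 := by
    have : (1 : Fin 2) = Fin.last 1 := rfl
    rw [this, Fin.snoc_last]
  rw [h0, h1, sub_self, sub_self, K_zero, sub_zero, zero_sub, K_neg]
  ring

lemma boxIntegral_one (a b : Fin 1 → ℝ) : boxIntegral 1 a b = D1 (a 0) (b 0) := by
  have ha : a = Fin.cons (a 0) (fun i : Fin 0 => i.elim0) := by
    ext i
    rw [Subsingleton.elim i 0, Fin.cons_zero]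
  have hb : b = Fin.cons (b 0) (fun i : Fin 0 => i.elim0) := by
    ext i
    rw [Subsingleton.elim i 0, Fin.cons_zero]
  rw [ha, hb, boxIntegral, integral_box_cons 0 _ _ _ _ _ (continuous_sineDet 1)]
  simp only [Fin.cons_zero]
  rw [D1]
  congr 1
  ext v
  simp_rw [sineDet_one]
  rw [setIntegral_const]
  have h2 : volume.real (Icc (fun i : Fin 0 => (i.elim0 : ℝ)) fun i : Fin 0 => (i.elim0 : ℝ)) = 1 := by
    rw [Measure.real, Real.volume_Icc_pi_toReal le_rfl]
    simp
  rw [h2, one_smul]

lemma continuous_S1 : Continuous fun v : ℝ => 1 - K v ^ 2 :=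
  continuous_const.sub (continuous_K.pow 2)

lemma D1_add {s c t : ℝ} (hsc : s ≤ c) (hct : c ≤ t) : D1 s t = D1 s c + D1 c t := by
  unfold D1
  rw [integral_Icc_eq_integral_Ioc, integral_Icc_eq_integral_Ioc, integral_Icc_eq_integral_Ioc,
    ← intervalIntegral.integral_of_le hsc, ← intervalIntegral.integral_of_le hct,
    ← intervalIntegral.integral_of_le (hsc.trans hct)]
  exact (intervalIntegral.integral_add_adjacent_intervals
    (continuous_S1.intervalIntegrable _ _) (continuous_S1.intervalIntegrable _ _)).symm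

lemma D1_sym {x : ℝ} (hx : 0 ≤ x) : D1 (-x) x = 2 * x - 1 + kt x := by
  have h1 := integral_add_compl (Ir_compact x).measurableSet integrable_K_sq0
  have h2 := integral_K_sq 0
  simp only [sub_zero] at h2
  rw [h2] at h1
  unfold D1
  rw [integral_sub]
  · rw [setIntegral_const, smul_eq_mul]
    have h3 : volume.real (Icc (-x) x) = 2 * x := by
      rw [Measure.real, Real.volume_Icc, ENNReal.toReal_ofReal (by linarith)]
      ring
    rw [h3]
    have h4 : ∫ v in Icc (-x) x, K v ^ 2 = 1 - kt x := by
      have : (∫ v in Ir x, K v ^ 2) + kt x = 1 := h1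
      unfold Ir at this
      linarith
    rw [h4]
    ring
  · exact continuous_const.continuousOn.integrableOn_compact isCompact_Icc
  · exact (continuous_K.pow 2).continuousOn.integrableOn_compact isCompact_Icc

section

variable {J : Type*}

/-- Splitting the counts. -/
lemma Z_split (P : Finset J) (x : J → ℝ) (j : J) (s c t : ℝ) :
    Z P x j s t ≤ Z P x j s c + Z P x j c t := by
  classical
  rw [Z, Z, Z]
  refine (Finset.card_le_card ?_).trans (Finset.card_union_le _ _)
  intro i hi
  rw [Finset.mem_union, mem_near, mem_near]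
  rw [mem_near] at hi
  rcases le_total (x i - x j) c with h | h
  · exact Or.inl ⟨hi.1, hi.2.1, hi.2.2.1, h⟩
  · exact Or.inr ⟨hi.1, hi.2.1, h, hi.2.2.2⟩

variable {γ : J → ℝ}

/-- The two-sided pair counts. -/
noncomputable def Zst (h : GoodFamily γ) (s t : ℝ) (T : ℝ) (j : J) : ℝ :=
  (Z (PT h T) (xT γ T) j s t : ℝ)

lemma UB_Zst (h : GoodFamily γ) (hU : CorrelationUpper γ 1) {s t : ℝ} (hst : s ≤ t) :
    UB (Av h (Zst h s t)) (D1 s t) := by
  have h1 := Av_R_UB h hU (a := fun _ => s) (b := fun _ => t) (fun _ => hst)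
  rw [boxIntegral_one] at h1
  refine h1.mono (Eventually.of_forall fun T => le_of_eq ?_) le_rfl
  unfold Av Zst
  simp_rw [R_one]

lemma LB_Zst (h : GoodFamily γ) (hU : CorrelationUpper γ 1) {s t : ℝ} (hst : s ≤ t) :
    LB (Av h (Zst h s t)) (D1 s t) := by
  apply LB_of_forall
  intro η hη
  -- the parameters
  obtain ⟨p', hp'⟩ := exists_nat_gt (max (5 / η) (|s| + |t| + 1))
  set p : ℕ := 2 * p' with hp
  have hp'1 : 5 / η < p' := (le_max_left _ _).trans_lt hp'
  have hp'2 : |s| + |t| + 1 < p' := (le_max_right _ _).trans_lt hp'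
  have hs0 := abs_nonneg s
  have ht0 := abs_nonneg t
  have hp'0 : (0 : ℝ) < p' := by linarith
  have hp'3 : (1 : ℝ) ≤ p' := by linarith
  have hp0 : (0 : ℝ) < p := by rw [hp]; push_cast; linarith
  have hpp : (p : ℝ) = 2 * p' := by rw [hp]; push_cast; ring
  have hp1 : (1 : ℝ) ≤ p := by linarith
  have hpn : 0 < p := by exact_mod_cast hp0
  set q : ℕ := p' * p ^ 2 with hq
  set n : ℕ := p ^ 3 with hn
  have hnq : n = q + q := by rw [hn, hq, hp]; ring
  have hqpos : 0 < q := by
    have : 0 < p' := by exact_mod_cast hp'0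
    positivity
  have hnpos : 0 < n := by positivity
  have hn' : (0 : ℝ) < n := by exact_mod_cast hnpos
  have hq' : (0 : ℝ) < q := by exact_mod_cast hqpos
  have hnr : (n : ℝ) = (p : ℝ) ^ 3 := by rw [hn]; push_cast; ring
  have hqr : (q : ℝ) = n / 2 := by
    have : (n : ℝ) = q + q := by rw [hnq]; push_cast; ring
    linarith
  set V : ℝ := (p : ℝ) ^ 2 with hV
  have hV0 : 0 < V := by positivity
  set X : ℕ → ℝ := fun l => ((l : ℝ) + 1) * V / n with hX
  have hX0 : ∀ l, 0 ≤ X l := fun l => by positivity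
  have hXe : ∀ l, X l = ((l : ℝ) + 1) / p := by
    intro l
    simp only [hX]
    rw [hnr, hV]
    field_simp
  have hXq : ∀ l, q ≤ l → |s| + |t| ≤ X l := by
    intro l hl
    rw [hXe, le_div_iff₀ hp0]
    have h1 : (q : ℝ) ≤ l := by exact_mod_cast hl
    have h2 : (q : ℝ) = p' * (p : ℝ) ^ 2 := by rw [hq]; push_cast; ring
    have h3 : (|s| + |t|) * p ≤ p' * p := by
      gcongr
      linarith
    have h4 : (p' : ℝ) * p ≤ p' * (p : ℝ) ^ 2 := by
      gcongr
      nlinarith
    linarith
  have hwin := window_LB h hV0 hnpos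
  have hwin2 : LB (fun T => ∑ l ∈ Finset.range n, Av h (Zst h (-(X l)) (X l)) T)
      (n * (V - 1)) := by
    have h1 := hwin.const_mul (a := (n : ℝ)) hn'.le
    refine h1.mono (Eventually.of_forall fun T => le_of_eq ?_) le_rfl
    rw [← mul_assoc, mul_one_div_cancel hn'.ne', one_mul]
    rfl
  -- upper bounds for the other boxes
  have hu1 : UB (fun T => ∑ l ∈ Finset.range q, Av h (Zst h (-(X l)) (X l)) T)
      (∑ l ∈ Finset.range q, D1 (-(X l)) (X l)) :=
    UB.sum _ fun l _ => UB_Zst h hU (by have := hX0 l; linarith)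
  have hu2 : UB (fun T => ∑ l ∈ Finset.Ico q n, (Av h (Zst h (-(X l)) s) T +
      Av h (Zst h t (X l)) T))
      (∑ l ∈ Finset.Ico q n, (D1 (-(X l)) s + D1 t (X l))) := by
    apply UB.sum
    intro l hl
    rw [Finset.mem_Ico] at hl
    have h1 := hXq l hl.1
    have h2 := neg_abs_le s
    have h3 := le_abs_self t
    exact (UB_Zst h hU (by linarith)).add (UB_Zst h hU (by linarith))
  have hcard : (Finset.Ico q n).card = q := by
    rw [Nat.card_Ico, hnq]
    omega
  have hfin := ((hwin2.sub (hu1.add hu2))).const_mul (a := 1 / (q : ℝ)) (by positivity)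
  refine hfin.mono ?_ ?_
  · filter_upwards [eventually_gt_atTop (1 : ℝ)] with T hT
    have h1 : ∀ l ∈ Finset.Ico q n, Av h (Zst h (-(X l)) (X l)) T ≤
        (Av h (Zst h (-(X l)) s) T + Av h (Zst h t (X l)) T) + Av h (Zst h s t) T := by
      intro l _
      rw [← Av_add, ← Av_add]
      apply Av_mono h hT
      intro j _
      have h2 : Zst h (-(X l)) (X l) T j ≤ Zst h (-(X l)) s T j + Zst h s (X l) T j := by
        unfold Zst
        exact_mod_cast Z_split _ _ _ _ _ _
      have h3 : Zst h s (X l) T j ≤ Zst h s t T j + Zst h t (X l) T j := by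
        unfold Zst
        exact_mod_cast Z_split _ _ _ _ _ _
      linarith
    have h2 : ∑ l ∈ Finset.Ico q n, Av h (Zst h (-(X l)) (X l)) T ≤
        ∑ l ∈ Finset.Ico q n, (Av h (Zst h (-(X l)) s) T + Av h (Zst h t (X l)) T) +
          q * Av h (Zst h s t) T := by
      calc _ ≤ ∑ l ∈ Finset.Ico q n, ((Av h (Zst h (-(X l)) s) T + Av h (Zst h t (X l)) T) +
            Av h (Zst h s t) T) := Finset.sum_le_sum h1
        _ = _ := by
            rw [Finset.sum_add_distrib (s := Finset.Ico q n)
              (f := fun l => Av h (Zst h (-(X l)) s) T + Av h (Zst h t (X l)) T),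
              Finset.sum_const, hcard, nsmul_eq_mul]
    have h3 : ∑ l ∈ Finset.range n, Av h (Zst h (-(X l)) (X l)) T =
        ∑ l ∈ Finset.range q, Av h (Zst h (-(X l)) (X l)) T +
        ∑ l ∈ Finset.Ico q n, Av h (Zst h (-(X l)) (X l)) T :=
      (Finset.sum_range_add_sum_Ico _ (by omega)).symm
    rw [one_div_mul_eq_div, div_le_iff₀ hq', h3]
    linarith
  · have hsum : ∑ l ∈ Finset.range q, D1 (-(X l)) (X l) +
        ∑ l ∈ Finset.Ico q n, (D1 (-(X l)) s + D1 t (X l)) =
        ∑ l ∈ Finset.range n, D1 (-(X l)) (X l) - q * D1 s t := by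
      have h1 : ∑ l ∈ Finset.Ico q n, (D1 (-(X l)) s + D1 t (X l)) =
          ∑ l ∈ Finset.Ico q n, (D1 (-(X l)) (X l) - D1 s t) := by
        apply Finset.sum_congr rfl
        intro l hl
        rw [Finset.mem_Ico] at hl
        have h1 := hXq l hl.1
        have h2 := neg_abs_le s
        have h3 := le_abs_self t
        have h4 := D1_add (s := -(X l)) (c := s) (t := X l) (by linarith) (by linarith)
        have h5 := D1_add (s := s) (c := t) (t := X l) hst (by linarith)
        linarith
      rw [h1, Finset.sum_sub_distrib, Finset.sum_const, hcard, nsmul_eq_mul,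
        ← Finset.sum_range_add_sum_Ico _ (show q ≤ n by omega)]
      ring
    rw [hsum]
    have hD : ∑ l ∈ Finset.range n, D1 (-(X l)) (X l) ≤ n * (V - 1) + n * (5 / (2 * p)) := by
      have h1 : ∑ l ∈ Finset.range n, D1 (-(X l)) (X l) =
          ∑ l ∈ Finset.range n, (2 * X l - 1) + ∑ l ∈ Finset.range n, kt (X l) := by
        rw [← Finset.sum_add_distrib]
        apply Finset.sum_congr rfl
        intro l _
        exact D1_sym (hX0 l)
      have h2 : ∀ N : ℕ, ∑ l ∈ Finset.range N, (2 * X l - 1) = (N : ℝ) * (N + 1) / p - N := by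
        intro N
        induction N with
        | zero => simp
        | succ N ih =>
          rw [Finset.sum_range_succ, ih, hXe]
          push_cast
          field_simp
          ring
      have h3 : ∑ l ∈ Finset.range n, kt (X l) ≤ (p : ℝ) ^ 2 + n * (1 / (2 * p)) := by
        have hpn2 : p ^ 2 ≤ n := by
          rw [hn]
          exact Nat.pow_le_pow_right hpn (by norm_num)
        rw [← Finset.sum_range_add_sum_Ico _ hpn2]
        have h4 : ∑ l ∈ Finset.range (p ^ 2), kt (X l) ≤ (p : ℝ) ^ 2 := by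
          calc ∑ l ∈ Finset.range (p ^ 2), kt (X l) ≤ ∑ l ∈ Finset.range (p ^ 2), (1 : ℝ) :=
                Finset.sum_le_sum fun l _ => kt_le_one _
            _ = (p : ℝ) ^ 2 := by simp
        have h5 : ∑ l ∈ Finset.Ico (p ^ 2) n, kt (X l) ≤ n * (1 / (2 * p)) := by
          calc ∑ l ∈ Finset.Ico (p ^ 2) n, kt (X l) ≤
              ∑ l ∈ Finset.Ico (p ^ 2) n, (1 / (2 * (p : ℝ))) := by
                apply Finset.sum_le_sum
                intro l hl
                rw [Finset.mem_Ico] at hl
                refine (kt_anti ?_).trans (kt_le hp0)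
                rw [hXe, le_div_iff₀ hp0]
                have : ((p ^ 2 : ℕ) : ℝ) ≤ l := by exact_mod_cast hl.1
                push_cast at this
                nlinarith
            _ = ((n - p ^ 2 : ℕ) : ℝ) * (1 / (2 * p)) := by
                rw [Finset.sum_const, Nat.card_Ico, nsmul_eq_mul]
            _ ≤ _ := by
                gcongr
                exact Nat.sub_le _ _
        linarith
      rw [h1, h2]
      have e1 : (n : ℝ) * (n + 1) / p - n = n * (V - 1) + n * (1 / p) := by
        rw [hnr, hV]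
        field_simp
        ring
      have e2 : (n : ℝ) * (5 / (2 * p)) = n * (1 / p) + (p : ℝ) ^ 2 + n * (1 / (2 * p)) := by
        rw [hnr]
        field_simp
        ring
      rw [e1, e2]
      linarith
    have h6 : 1 / (q : ℝ) * (n * (5 / (2 * p))) ≤ η := by
      rw [hqr]
      have e : 1 / ((n : ℝ) / 2) * (n * (5 / (2 * p))) = 5 / p := by
        field_simp
      rw [e, div_le_iff₀ hp0]
      rw [div_lt_iff₀ hη] at hp'1
      rw [hpp]
      nlinarith
    have h7 : 1 / (q : ℝ) * (n * (V - 1) - (∑ l ∈ Finset.range n, D1 (-(X l)) (X l) -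
        q * D1 s t)) ≥ 1 / (q : ℝ) * (q * D1 s t - n * (5 / (2 * p))) := by
      have : 0 ≤ 1 / (q : ℝ) := by positivity
      apply mul_le_mul_of_nonneg_left _ this
      linarith
    have h8 : 1 / (q : ℝ) * (q * D1 s t - n * (5 / (2 * p))) =
        D1 s t - 1 / (q : ℝ) * (n * (5 / (2 * p))) := by
      field_simp
    linarith

/-- The pair level. -/
theorem conj_one (h : GoodFamily γ) (hU : CorrelationUpper γ 1) : CorrelationConj γ 1 := by
  intro a b hab
  apply tendsto_of_UB_LB
  · exact hU a b hab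
  · have h1 := LB_Zst h hU (hab 0)
    rw [boxIntegral_one]
    refine h1.mono (Eventually.of_forall fun T => le_of_eq ?_) le_rfl
    rw [tupleCount_div h]
    unfold Av Zst
    simp_rw [R_one]

/-- The level zero. -/
theorem conj_zero (h : GoodFamily γ) : CorrelationConj γ 0 := by
  intro a b hab
  rw [boxIntegral_zero]
  refine (tendsto_Av_one h).congr (fun T => ?_)
  rw [tupleCount_div h]
  congr 1
  ext T j
  have h1 : R (PT h T) (xT γ T) 0 j a b = 1 := by
    have ha : a = fun _ => (0 : ℝ) := by ext i; exact i.elim0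
    have hb : b = fun _ => (0 : ℝ) := by ext i; exact i.elim0
    rw [ha, hb, R_const]
    simp
  rw [h1]
  simp

/-- The upper bound half at one level gives everything below. -/
theorem conj_of_upper (h : GoodFamily γ) (m : ℕ) (hU : CorrelationUpper γ m) :
    ∀ l ≤ m, CorrelationConj γ l := by
  induction m with
  | zero =>
    intro l hl
    rw [Nat.le_zero.1 hl]
    exact conj_zero h
  | succ m ih =>
    rcases Nat.eq_zero_or_pos m with hm | hm
    · subst hm
      intro l hl
      rcases Nat.eq_zero_or_pos l with hl0 | hl0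
      · rw [hl0]
        exact conj_zero h
      · have : l = 1 := by omega
        rw [this]
        exact conj_one h hU
    · obtain ⟨k, rfl⟩ : ∃ k, m = k + 1 := ⟨m - 1, by omega⟩
      have h1 := ih (descent_upper h hU)
      intro l hl
      rcases Nat.lt_or_ge l (k + 2) with hl2 | hl2
      · exact h1 l (by omega)
      · have : l = k + 2 := by omega
        rw [this]
        exact conj_step h hU (h1 (k + 1) le_rfl) (h1 k (by omega))

end

end Pool.Agent.MP_67227b_nt
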