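import Pool.Agent.MP_67227b_nt.Far67

set_option autoImplicit false

/-!
If the empirical measures converge on all boxes to a bounded continuous density `D` and their
band-limited averages converge to those of `w`, then the band-limited averages of `D` and `w`
agree.
-/

open Filter MeasureTheory Topology Set
open scoped Real ContDiff

namespace Pool.Agent.MP_67227b_nt

variable {m : ℕ}

lemma limit_eq_dens {ν : ℝ → Measure (Fin m → ℝ)} [∀ T, IsFiniteMeasure (ν T)]
    {D : (Fin m → ℝ) → ℝ} (hDc : Continuous D) (hD0 : ∀ u, 0 ≤ D u) {G : Filter ℝ}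
    (hbox : ∀ a b : Fin m → ℝ, a ≤ b → Tendsto (fun T => (ν T).real (Icc a b)) G
      (𝓝 (∫ u in Icc a b, D u)))
    {F : Filter ℝ} [NeBot F] (hF : F ≤ G) {μ : Measure (Fin m → ℝ)}
    [IsLocallyFiniteMeasure μ] (hμ : VagueLim ν F μ) : μ = dens D := by
  have := dens_locallyFinite hDc
  have hball : ∀ (x : Fin m → ℝ) (r : ℝ), 0 < r →
      Tendsto (fun T => (ν T).real (Metric.closedBall x r)) F
        (𝓝 ((dens D).real (Metric.closedBall x r))) := by
    intro x r hr
    rw [dens_real hDc hD0 Metric.isClosed_closedBall.measurableSet, closedBall_eq_Icc' x hr.le]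
    refine (hbox _ _ ?_).mono_left hF
    intro i
    dsimp only
    linarith
  ext s _
  apply le_antisymm
  · apply compare_upper hμ s
    intro x _
    refine ⟨1, one_pos, fun r hr _ δ hδ => ?_⟩
    filter_upwards [(hball x r hr).eventually (gt_mem_nhds (lt_add_of_pos_right _ hδ))] with T hT
    exact hT.le
  · apply compare_lower hμ s
    intro x _
    refine ⟨1, one_pos, fun r hr _ δ hδ => ?_⟩
    filter_upwards [(hball x r hr).eventually (lt_mem_nhds (sub_lt_self _ hδ))] with T hT
    linarith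

theorem dens_agree {ν : ℝ → Measure (Fin m → ℝ)} [∀ T, IsFiniteMeasure (ν T)]
    {w D : (Fin m → ℝ) → ℝ} (hwc : Continuous w) {Cw : ℝ} (hwb : ∀ u, |w u| ≤ Cw)
    (hDc : Continuous D) (hD0 : ∀ u, 0 ≤ D u) {CD : ℝ} (hDb : ∀ u, |D u| ≤ CD)
    {ε : ℝ} (hε : 0 < ε) {G : Filter ℝ} [NeBot G] (hband : BandLim ν w (Metric.ball 0 ε) G)
    (hbox : ∀ a b : Fin m → ℝ, a ≤ b → Tendsto (fun T => (ν T).real (Icc a b)) G
      (𝓝 (∫ u in Icc a b, D u)))
    {ψ : (Fin m → ℝ) → ℂ} (hψ : IsBand (Metric.closedBall 0 (ε / 2)) ψ) :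
    ∫ u, synth ψ u * (D u : ℂ) = ∫ u, synth ψ u * (w u : ℂ) := by
  have hFle : ((Ultrafilter.of G : Ultrafilter ℝ) : Filter ℝ) ≤ G := Ultrafilter.of_le _
  have hbandU := hband.mono hFle
  obtain ⟨μ, hμ1, hμ2⟩ := exists_limit_measure ν (Ultrafilter.of G)
    (fun R => hbandU.ball_bounded hε subset_rfl R)
  have hμeq := limit_eq_dens hDc hD0 hbox hFle hμ2
  -- the identity with the factor `kap ^ 2`
  have hkey : ∀ (ρ : ℝ) (hρ : 0 < ρ), 8 * ρ < ε →
      ∫ u, synth ψ u * (((kap m ρ hρ u ^ 2 : ℝ) : ℂ) * ((D u - w u : ℝ) : ℂ)) = 0 := by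
    intro ρ hρ hρε
    have hki := integrable_kap (m := m) ρ hρ
    have hkc := continuous_kap (m := m) ρ hρ
    have hk2 : Integrable (fun u : Fin m → ℝ => kap m ρ hρ u ^ 2) := by
      apply hki.mono' (hkc.pow 2).aestronglyMeasurable
      filter_upwards with u
      have h0 := kap_nonneg (m := m) ρ hρ u
      have h1 := kap_le_one (m := m) ρ hρ u
      rw [Pi.pow_apply, Real.norm_of_nonneg (sq_nonneg _)]
      nlinarith
    have hkD : ∀ (E : (Fin m → ℝ) → ℝ) (C : ℝ), Continuous E → (∀ u, |E u| ≤ C) →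
        Integrable (fun u => ((kap m ρ hρ u ^ 2 : ℝ) : ℂ) * (E u : ℂ)) := by
      intro E C hE hC
      refine hk2.ofReal.mul_bdd (c := C) (Complex.continuous_ofReal.comp hE).aestronglyMeasurable
        (Eventually.of_forall fun u => ?_)
      rw [Complex.norm_real]
      exact hC u
    have hkd : Integrable (fun u => ((kap m ρ hρ u ^ 2 : ℝ) : ℂ) * ((D u - w u : ℝ) : ℂ)) := by
      refine ((hkD D CD hDc hDb).sub (hkD w Cw hwc hwb)).congr (Eventually.of_forall fun u => ?_)
      simp only [Pi.sub_apply]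
      push_cast
      ring
    have hee : ∀ ξ ∈ Metric.closedBall (0 : Fin m → ℝ) (ε / 2),
        ∫ u, ee ξ u * (((kap m ρ hρ u ^ 2 : ℝ) : ℂ) * ((D u - w u : ℝ) : ℂ)) = 0 := by
      intro ξ hξ
      rw [mem_closedBall_zero_iff] at hξ
      have h1 := trig_identity hwc hwb hbandU hμ2 hρ
        ((Metric.closedBall_subset_ball (by linarith))) (S := {ξ})
        (by
          intro ξ' hξ'
          rw [mem_singleton_iff] at hξ'
          rw [hξ']
          apply Metric.closedBall_subset_ball'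
          rw [dist_zero_right]
          linarith) (ee_mem_trigSpan (mem_singleton ξ))
      rw [hμeq, integral_dens_complex hDc hD0] at h1
      have i1 : ∀ (E : (Fin m → ℝ) → ℝ) (C : ℝ), Continuous E → (∀ u, |E u| ≤ C) →
          Integrable (fun u => ee ξ u * ((kap m ρ hρ u ^ 2 : ℝ) : ℂ) * (E u : ℂ)) := by
        intro E C hE hC
        refine ((hkD E C hE hC).bdd_mul (c := 1)
          (continuous_ee_right ξ).aestronglyMeasurable
          (Eventually.of_forall fun u => (norm_ee ξ u).le)).congr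
          (Eventually.of_forall fun u => ?_)
        simp only
        ring
      have h2 : ∫ u, ee ξ u * (((kap m ρ hρ u ^ 2 : ℝ) : ℂ) * ((D u - w u : ℝ) : ℂ)) =
          (∫ u, ee ξ u * ((kap m ρ hρ u ^ 2 : ℝ) : ℂ) * (D u : ℂ)) -
            ∫ u, ee ξ u * ((kap m ρ hρ u ^ 2 : ℝ) : ℂ) * (w u : ℂ) := by
        rw [← integral_sub (i1 D CD hDc hDb) (i1 w Cw hwc hwb)]
        congr 1
        ext u
        push_cast
        ring
      rw [h2, h1, sub_self]
    have h3 : ∀ u, synth ψ u * (((kap m ρ hρ u ^ 2 : ℝ) : ℂ) * ((D u - w u : ℝ) : ℂ)) =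
        ∫ ξ, ψ ξ * ee ξ u * (((kap m ρ hρ u ^ 2 : ℝ) : ℂ) * ((D u - w u : ℝ) : ℂ)) := by
      intro u
      rw [integral_mul_const]
      rfl
    simp only [h3]
    rw [integral_integral_swap]
    · have h4 : ∀ ξ, ∫ u, ψ ξ * ee ξ u *
          (((kap m ρ hρ u ^ 2 : ℝ) : ℂ) * ((D u - w u : ℝ) : ℂ)) = 0 := by
        intro ξ
        simp only [mul_assoc (ψ ξ)]
        rw [integral_const_mul]
        by_cases hξ : ξ ∈ Metric.closedBall (0 : Fin m → ℝ) (ε / 2)
        · rw [hee ξ hξ, mul_zero]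
        · have : ψ ξ = 0 := by
            by_contra h0
            exact hξ (hψ.2.2 (subset_tsupport _ h0))
          rw [this, zero_mul]
      simp only [h4, integral_zero]
    · have h5 : Integrable (fun p : (Fin m → ℝ) × (Fin m → ℝ) =>
          (((kap m ρ hρ p.1 ^ 2 : ℝ) : ℂ) * ((D p.1 - w p.1 : ℝ) : ℂ)) * ψ p.2)
          (volume.prod volume) := hkd.mul_prod hψ.integrable
      have h6 := h5.mul_bdd (c := 1) (g := fun p : (Fin m → ℝ) × (Fin m → ℝ) => ee p.2 p.1)
        (continuous_ee.comp continuous_swap).aestronglyMeasurable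
        (Eventually.of_forall fun p => (norm_ee _ _).le)
      refine h6.congr (Eventually.of_forall fun p => ?_)
      simp only [Function.uncurry]
      ring
  -- the limit
  set ρ : ℕ → ℝ := fun k => ε / (16 * ((k : ℝ) + 1)) with hρdef
  have hρ : ∀ k, 0 < ρ k := fun k => by
    simp only [hρdef]
    positivity
  have hρε : ∀ k, 8 * ρ k < ε := by
    intro k
    have h1 : ρ k ≤ ε / 16 := by
      simp only [hρdef]
      apply div_le_div_of_nonneg_left hε.le (by norm_num)
      have : (0 : ℝ) ≤ k := Nat.cast_nonneg k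
      linarith
    linarith
  have hρlim : Tendsto ρ atTop (𝓝 0) := by
    have h1 := (tendsto_one_div_add_atTop_nhds_zero_nat (𝕜 := ℝ)).const_mul (ε / 16)
    rw [mul_zero] at h1
    refine h1.congr (fun k => ?_)
    simp only [hρdef]
    field_simp
  have hklim : ∀ u : Fin m → ℝ, Tendsto (fun k => kap m (ρ k) (hρ k) u) atTop (𝓝 1) := by
    intro u
    have h1 : Tendsto (fun k => 1 - 4 * π * m * (ρ k * ‖u‖)) atTop (𝓝 1) := by
      have h2 := ((hρlim.mul_const ‖u‖).const_mul (4 * π * m)).const_sub 1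
      simpa using h2
    exact tendsto_of_tendsto_of_tendsto_of_le_of_le h1 tendsto_const_nhds
      (fun k => kap_ge (ρ k) (hρ k) u) (fun k => kap_le_one (ρ k) (hρ k) u)
  have hs := hψ.integrable_synth
  have hlim : Tendsto (fun k => ∫ u, synth ψ u *
      (((kap m (ρ k) (hρ k) u ^ 2 : ℝ) : ℂ) * ((D u - w u : ℝ) : ℂ))) atTop
      (𝓝 (∫ u, synth ψ u * ((D u - w u : ℝ) : ℂ))) := by
    apply tendsto_integral_of_dominated_convergence (fun u => ‖synth ψ u‖ * (CD + Cw))
    · intro k
      exact hs.aestronglyMeasurable.mul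
        (Continuous.aestronglyMeasurable ((Complex.continuous_ofReal.comp
          ((continuous_kap (ρ k) (hρ k)).pow 2)).mul
          (Complex.continuous_ofReal.comp (hDc.sub hwc))))
    · exact hs.norm.mul_const _
    · intro k
      filter_upwards with u
      rw [norm_mul, norm_mul, Complex.norm_real, Complex.norm_real,
        Real.norm_of_nonneg (sq_nonneg _)]
      have h0 := kap_nonneg (m := m) (ρ k) (hρ k) u
      have h1 := kap_le_one (m := m) (ρ k) (hρ k) u
      have h2 : kap m (ρ k) (hρ k) u ^ 2 ≤ 1 := by nlinarith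
      have h3 : ‖D u - w u‖ ≤ CD + Cw := by
        rw [Real.norm_eq_abs]
        have h4 := hDb u
        have h5 := hwb u
        rw [abs_le] at *
        constructor <;> linarith [h4.1, h4.2, h5.1, h5.2]
      have h4 : kap m (ρ k) (hρ k) u ^ 2 * ‖D u - w u‖ ≤ 1 * (CD + Cw) :=
        mul_le_mul h2 h3 (norm_nonneg _) zero_le_one
      rw [one_mul] at h4
      gcongr
    · filter_upwards with u
      have h1 : Tendsto (fun k => ((kap m (ρ k) (hρ k) u ^ 2 : ℝ) : ℂ)) atTop (𝓝 1) := by
        have h2 := (Complex.continuous_ofReal.tendsto _).comp ((hklim u).pow 2)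
        rw [one_pow, Complex.ofReal_one] at h2
        exact h2
      have h2 := (h1.mul_const ((D u - w u : ℝ) : ℂ)).const_mul (synth ψ u)
      rwa [one_mul] at h2
  have hzero : ∫ u, synth ψ u * ((D u - w u : ℝ) : ℂ) = 0 := by
    refine tendsto_nhds_unique hlim ?_
    refine tendsto_const_nhds.congr (fun k => ?_)
    exact (hkey (ρ k) (hρ k) (hρε k)).symm
  have iE : ∀ (E : (Fin m → ℝ) → ℝ) (C : ℝ), Continuous E → (∀ u, |E u| ≤ C) →
      Integrable (fun u => synth ψ u * (E u : ℂ)) := by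
    intro E C hE hC
    refine hs.mul_bdd (c := C) (Complex.continuous_ofReal.comp hE).aestronglyMeasurable
      (Eventually.of_forall fun u => ?_)
    rw [Complex.norm_real]
    exact hC u
  have h9 : ∫ u, synth ψ u * ((D u - w u : ℝ) : ℂ) =
      (∫ u, synth ψ u * (D u : ℂ)) - ∫ u, synth ψ u * (w u : ℂ) := by
    rw [← integral_sub (iE D CD hDc hDb) (iE w Cw hwc hwb)]
    congr 1
    ext u
    push_cast
    ring
  rw [hzero] at h9
  exact (sub_eq_zero.mp h9.symm)

end Pool.Agent.MP_67227b_nt
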