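import Pool.Agent.MP_67227b_nt.Rig44
import Pool.Agent.MP_67227b_nt.Vag44
import Pool.Agent.MP_67227b_nt.FarZeta67
import Pool.Agent.MP_67227b_nt.Pair35

set_option autoImplicit false

open Filter MeasureTheory Topology Set
open scoped Real ComplexOrder

namespace Pool.Agent.MP_67227b_nt

/-- The symbol of the sine process. -/
noncomputable def sineSym : Unit → ℝ → Matrix (Fin 1) (Fin 1) ℂ :=
  fun _ => (Icc (-(1 / 2) : ℝ) (-(1 / 2) + 1)).indicator fun _ => 1

lemma sineSym_apply (x : Unit) (ξ : ℝ) (c d : Fin 1) : sineSym x ξ c d =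
    (Icc (-(1 / 2) : ℝ) (-(1 / 2) + 1)).indicator (fun _ => (1 : ℂ)) ξ := by
  unfold sineSym
  rw [Subsingleton.elim c 0, Subsingleton.elim d 0]
  by_cases h : ξ ∈ Icc (-(1 / 2) : ℝ) (-(1 / 2) + 1)
  · rw [indicator_of_mem h, indicator_of_mem h]
    simp
  · rw [indicator_of_notMem h, indicator_of_notMem h]
    simp

lemma tr_sineSym (x : Unit) (ξ : ℝ) : (sineSym x ξ).trace.re =
    (Icc (-(1 / 2) : ℝ) (-(1 / 2) + 1)).indicator (fun _ => (1 : ℝ)) ξ := by
  rw [Matrix.trace]
  simp only [Finset.univ_unique, Finset.sum_singleton, Matrix.diag_apply, sineSym_apply]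
  by_cases h : ξ ∈ Icc (-(1 / 2) : ℝ) (-(1 / 2) + 1)
  · rw [indicator_of_mem h, indicator_of_mem h]
    simp
  · rw [indicator_of_notMem h, indicator_of_notMem h]
    simp

lemma symbolMixture_sineSym : SymbolMixture (Measure.dirac ()) sineSym where
  meas := fun c d => by
    have e : (fun p : Unit × ℝ => sineSym p.1 p.2 c d) = fun p : Unit × ℝ =>
        (Icc (-(1 / 2) : ℝ) (-(1 / 2) + 1)).indicator (fun _ => (1 : ℂ)) p.2 := by
      ext p
      exact sineSym_apply p.1 p.2 c d
    rw [e]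
    exact (measurable_const.indicator measurableSet_Icc).comp measurable_snd
  pos := fun _ ξ => by
    unfold sineSym
    by_cases h : ξ ∈ Icc (-(1 / 2) : ℝ) (-(1 / 2) + 1)
    · rw [indicator_of_mem h]
      exact Matrix.PosSemidef.one
    · rw [indicator_of_notMem h]
      exact Matrix.PosSemidef.zero
  le_one := fun _ ξ => by
    unfold sineSym
    by_cases h : ξ ∈ Icc (-(1 / 2) : ℝ) (-(1 / 2) + 1)
    · rw [indicator_of_mem h, sub_self]
      exact Matrix.PosSemidef.zero
    · rw [indicator_of_notMem h, sub_zero]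
      exact Matrix.PosSemidef.one
  integrable := fun _ => by
    simp only [tr_sineSym]
    rw [integrable_indicator_iff measurableSet_Icc]
    exact integrableOn_const (by simp)
  second := Integrable.of_finite

lemma mixDet_sineSym (l : ℕ) (u : Fin l → ℝ) :
    mixDet (Measure.dirac ()) sineSym l u = sineDet l u := by
  unfold mixDet
  rw [integral_dirac]
  exact typeDet_eq_sineDet (C := 1) Matrix.isHermitian_one (by simp) (by simp)
    (ae_eq_refl _) l u

lemma inten_sineSym (x : Unit) : inten sineSym x = 1 := by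
  unfold inten tr
  simp only [tr_sineSym]
  rw [integral_indicator_const _ measurableSet_Icc, smul_eq_mul, mul_one, Measure.real,
    Real.volume_Icc]
  norm_num

lemma corr_indicator {s ξ : ℝ} (hξ : |ξ| ≤ 1) :
    ∫ η, (Icc s (s + 1)).indicator (fun _ => (1 : ℝ)) η *
      (Icc s (s + 1)).indicator (fun _ => (1 : ℝ)) (η + ξ) = 1 - |ξ| := by
  have h1 : ∀ η : ℝ, (Icc s (s + 1)).indicator (fun _ => (1 : ℝ)) η *
      (Icc s (s + 1)).indicator (fun _ => (1 : ℝ)) (η + ξ) =
      (Icc (max s (s - ξ)) (min (s + 1) (s + 1 - ξ))).indicator (fun _ => (1 : ℝ)) η := by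
    intro η
    simp only [indicator, mem_Icc, max_le_iff, le_min_iff]
    by_cases h1 : s ≤ η ∧ η ≤ s + 1
    · by_cases h2 : s ≤ η + ξ ∧ η + ξ ≤ s + 1
      · rw [if_pos h1, if_pos h2, if_pos ⟨⟨h1.1, by linarith [h2.1]⟩, h1.2, by linarith [h2.2]⟩,
          one_mul]
      · rw [if_pos h1, if_neg h2, if_neg, one_mul]
        rintro ⟨⟨h3, h4⟩, h5, h6⟩
        exact h2 ⟨by linarith, by linarith⟩
    · rw [if_neg h1, zero_mul, if_neg]
      rintro ⟨⟨h3, h4⟩, h5, h6⟩
      exact h1 ⟨h3, h5⟩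
  simp only [h1]
  rw [integral_indicator_const _ measurableSet_Icc, smul_eq_mul, mul_one, Measure.real,
    Real.volume_Icc]
  rcases abs_cases ξ with ⟨h2, h3⟩ | ⟨h2, h3⟩
  · rw [max_eq_left (by linarith), min_eq_right (by linarith), ENNReal.toReal_ofReal (by linarith),
      h2]
    ring
  · rw [max_eq_right (by linarith), min_eq_left (by linarith), ENNReal.toReal_ofReal (by linarith),
      h2]
    ring

lemma meanCorr_sineSym {ξ : ℝ} (hξ : |ξ| ≤ 1) :
    meanCorr (Measure.dirac ()) sineSym ξ = 1 - |ξ| := by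
  unfold meanCorr
  rw [integral_dirac]
  unfold mcorr
  rw [← corr_indicator (s := -(1 / 2)) hξ]
  congr 1
  ext η
  rw [Matrix.trace]
  simp only [Finset.univ_unique, Finset.sum_singleton, Matrix.diag_apply, Matrix.mul_apply,
    sineSym_apply]
  by_cases h : η ∈ Icc (-(1 / 2) : ℝ) (-(1 / 2) + 1)
  · by_cases h2 : η + ξ ∈ Icc (-(1 / 2) : ℝ) (-(1 / 2) + 1)
    · rw [indicator_of_mem h, indicator_of_mem h2, indicator_of_mem h, indicator_of_mem h2]
      simp
    · rw [indicator_of_notMem h2, indicator_of_notMem h2]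
      simp
  · rw [indicator_of_notMem h, indicator_of_notMem h]
    simp

/-- A smooth function on the line as a band function. -/
lemma isBand_of_smooth {g : ℝ → ℝ} (hg : ContDiff ℝ ((⊤ : ℕ∞) : WithTop ℕ∞) g)
    (hc : HasCompactSupport g) {δ : ℝ} (hδ : 0 ≤ δ) (hs : tsupport g ⊆ Icc (-δ) δ) :
    IsBand (Metric.closedBall (0 : Fin 1 → ℝ) δ) (fun x : Fin 1 → ℝ => (g (x 0) : ℂ)) := by
  have hc' : HasCompactSupport fun x : Fin 1 → ℝ => g (x 0) :=
    hc.comp_homeomorph (Homeomorph.funUnique (Fin 1) ℝ)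
  refine ⟨?_, ?_, ?_⟩
  · exact Complex.ofRealCLM.contDiff.comp (hg.comp (contDiff_apply ℝ ℝ 0))
  · exact hc'.comp_left (g := fun t : ℝ => (t : ℂ)) Complex.ofReal_zero
  · refine closure_minimal ?_ Metric.isClosed_closedBall
    intro x hx
    have h1 : g (x 0) ≠ 0 := by
      intro h0
      apply hx
      simp [h0]
    have h2 := hs (subset_tsupport _ h1)
    rw [mem_closedBall_zero_iff, pi_norm_le_iff_of_nonneg hδ]
    intro i
    rw [Subsingleton.elim i 0, Real.norm_eq_abs, abs_le]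
    exact h2

variable {Ω : Type} [MeasurableSpace Ω] {P : Measure Ω} {n : ℕ}
  {Φ : Ω → ℝ → Matrix (Fin n) (Fin n) ℂ}

/-- Consequences of the agreement of the band-limited averages. -/
lemma mix_conclusions (H : SymbolMixture P Φ) [IsProbabilityMeasure P] {δ : ℝ} (hδ : 0 < δ)
    (hδ1 : δ ≤ 1)
    (hag : ∀ ψ : (Fin 1 → ℝ) → ℂ, IsBand (Metric.closedBall 0 δ) ψ →
      ∫ u, synth ψ u * (mixDet P Φ 1 u : ℂ) = ∫ u, synth ψ u * (sineDet 1 u : ℂ)) :
    ∫ ω, inten Φ ω ^ 2 ∂P = 1 ∧ ∀ᵐ ξ, ξ ∈ Ioo (-δ) δ → meanCorr P Φ ξ = 1 - |ξ| := by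
  set f : ℝ → ℝ := fun ξ => meanCorr P Φ ξ - meanCorr (Measure.dirac ()) sineSym ξ with hf
  have i1 := integrable_meanCorr H
  have i2 := integrable_meanCorr symbolMixture_sineSym
  have hfi : Integrable f := i1.sub i2
  have hkey : ∀ g : ℝ → ℝ, ContDiff ℝ ((⊤ : ℕ∞) : WithTop ℕ∞) g → HasCompactSupport g →
      tsupport g ⊆ Icc (-δ) δ →
      ((∫ ω, inten Φ ω ^ 2 ∂P) - 1) * g 0 = ∫ ξ, g ξ * f ξ := by
    intro g hg hc hs
    have hb := isBand_of_smooth hg hc hδ.le hs
    have h1 := hag _ hb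
    have h2 := mix_parseval H hb
    have h3 := mix_parseval symbolMixture_sineSym hb
    simp only [mixDet_sineSym, inten_sineSym, one_pow, integral_const, probReal_univ, one_smul,
      Complex.ofReal_one, one_mul] at h3
    rw [h2, h3] at h1
    simp only [Pi.zero_apply] at h1
    obtain ⟨C, hC⟩ := hg.continuous.bounded_above_of_compact_support hc
    have j1 : Integrable fun ξ => g ξ * meanCorr P Φ ξ :=
      i1.bdd_mul (c := C) hg.continuous.aestronglyMeasurable (Eventually.of_forall hC)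
    have j2 : Integrable fun ξ => g ξ * meanCorr (Measure.dirac ()) sineSym ξ :=
      i2.bdd_mul (c := C) hg.continuous.aestronglyMeasurable (Eventually.of_forall hC)
    have e1 : (∫ ξ : ℝ, (g ξ : ℂ) * (meanCorr P Φ ξ : ℂ)) =
        ((∫ ξ, g ξ * meanCorr P Φ ξ : ℝ) : ℂ) := by
      rw [← integral_complex_ofReal]
      congr 1
      ext ξ
      push_cast
      rfl
    have e2 : (∫ ξ : ℝ, (g ξ : ℂ) * (meanCorr (Measure.dirac ()) sineSym ξ : ℂ)) =
        ((∫ ξ, g ξ * meanCorr (Measure.dirac ()) sineSym ξ : ℝ) : ℂ) := by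
      rw [← integral_complex_ofReal]
      congr 1
      ext ξ
      push_cast
      rfl
    rw [e1, e2] at h1
    have h4 : (∫ ω, inten Φ ω ^ 2 ∂P) * g 0 - ∫ ξ, g ξ * meanCorr P Φ ξ =
        g 0 - ∫ ξ, g ξ * meanCorr (Measure.dirac ()) sineSym ξ := by
      exact_mod_cast h1
    have h5 : ∫ ξ, g ξ * f ξ = (∫ ξ, g ξ * meanCorr P Φ ξ) -
        ∫ ξ, g ξ * meanCorr (Measure.dirac ()) sineSym ξ := by
      rw [← integral_sub j1 j2]
      congr 1
      ext ξ
      simp only [hf]
      ring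
    rw [h5]
    linarith
  have hU : IsOpen (Ioo (-δ) δ \ {0}) := isOpen_Ioo.sdiff isClosed_singleton
  have hae := hU.ae_eq_zero_of_integral_contDiff_smul_eq_zero (μ := volume)
    (hfi.locallyIntegrable.locallyIntegrableOn _) (by
      intro g hg hc hs
      have h1 := hkey g hg hc (hs.trans (sdiff_subset.trans Ioo_subset_Icc_self))
      have h2 : g 0 = 0 := by
        by_contra h0
        exact (hs (subset_tsupport _ h0)).2 rfl
      rw [h2, mul_zero] at h1
      simp only [smul_eq_mul]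
      exact h1.symm)
  have hae2 : ∀ᵐ ξ : ℝ, ξ ∈ Ioo (-δ) δ → f ξ = 0 := by
    filter_upwards [hae, compl_mem_ae_iff.mpr (measure_singleton (0 : ℝ))] with ξ h1 h2 h3
    exact h1 ⟨h3, h2⟩
  constructor
  · let b : ContDiffBump (0 : ℝ) := ⟨δ / 4, δ / 2, by positivity, by linarith⟩
    have hb1 : b 0 = 1 := b.one_of_mem_closedBall (Metric.mem_closedBall_self b.rIn_pos.le)
    have hts : tsupport b ⊆ Ioo (-δ) δ := by
      rw [b.tsupport_eq]
      intro x hx
      rw [mem_closedBall_zero_iff, Real.norm_eq_abs] at hx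
      have hx2 : |x| ≤ δ / 2 := hx
      rw [abs_le] at hx2
      exact ⟨by linarith [hx2.1], by linarith [hx2.2]⟩
    have h1 := hkey b b.contDiff b.hasCompactSupport (hts.trans Ioo_subset_Icc_self)
    rw [hb1, mul_one] at h1
    have h2 : ∫ ξ, b ξ * f ξ = 0 := by
      apply integral_eq_zero_of_ae
      filter_upwards [hae2] with ξ hξ
      by_cases h3 : ξ ∈ Ioo (-δ) δ
      · rw [hξ h3, mul_zero]
        rfl
      · have : b ξ = 0 := by
          by_contra h0
          exact h3 (hts (subset_tsupport _ h0))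
        rw [this, zero_mul]
        rfl
    linarith
  · filter_upwards [hae2] with ξ hξ hmem
    have h1 := hξ hmem
    simp only [hf] at h1
    have h2 : |ξ| ≤ 1 := by
      rw [abs_le]
      exact ⟨by linarith [hmem.1], by linarith [hmem.2]⟩
    rw [meanCorr_sineSym h2] at h1
    linarith

/-- A sequence of good shifts. -/
lemma exists_good_seq {B : ℝ → ℝ} {δ : ℝ} (hδ : 0 < δ)
    (h : ∀ᵐ ξ, ξ ∈ Ioo (-δ) δ → B ξ = 1 - |ξ|) :
    ∃ s : ℕ → ℝ, (∀ k, 0 < s k) ∧ (∀ k, s k ≤ δ) ∧ Tendsto s atTop (𝓝 0) ∧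
      ∀ k, B (s k) = 1 - s k := by
  have hex : ∀ k : ℕ, ∃ x : ℝ, (0 < x ∧ x < δ / (k + 1)) ∧ B x = 1 - x := by
    intro k
    have hpos : 0 < δ / ((k : ℝ) + 1) := by positivity
    have hle : δ / ((k : ℝ) + 1) ≤ δ := by
      apply div_le_self hδ.le
      have : (0 : ℝ) ≤ k := Nat.cast_nonneg k
      linarith
    by_contra hcon
    push Not at hcon
    have h1 : volume (Ioo 0 (δ / ((k : ℝ) + 1))) = 0 := by
      refine measure_mono_null ?_ h
      intro x hx
      simp only [mem_compl_iff, mem_ofPred_eq]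
      intro h2
      have h3 := h2 ⟨by linarith [hx.1], by linarith [hx.2]⟩
      rw [abs_of_pos hx.1] at h3
      exact hcon x hx h3
    rw [Real.volume_Ioo, sub_zero, ENNReal.ofReal_eq_zero] at h1
    linarith
  choose s hs1 hs2 using hex
  refine ⟨s, fun k => (hs1 k).1, fun k => ?_, ?_, hs2⟩
  · refine (hs1 k).2.le.trans (div_le_self hδ.le ?_)
    have : (0 : ℝ) ≤ k := Nat.cast_nonneg k
    linarith
  have h1 := (tendsto_one_div_add_atTop_nhds_zero_nat (𝕜 := ℝ)).const_mul δ
  rw [mul_zero] at h1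
  refine tendsto_of_tendsto_of_tendsto_of_le_of_le tendsto_const_nhds h1
    (fun k => (hs1 k).1.le) (fun k => ?_)
  rw [mul_one_div]
  exact (hs1 k).2.le

/-- The rigidity theorem for families of ordinates. -/
theorem mixDet_eq_sineDet {J : Type*} {γ : J → ℝ} (h : GoodFamily γ) {ε : ℝ} (hε : 0 < ε)
    (hs : SmoothedCorrelation γ 1 {ξ | |ξ 0| < ε}) (H : SymbolMixture P Φ)
    [IsProbabilityMeasure P] {T : ℕ → ℝ} (hT : Tendsto T atTop atTop)
    (h0 : LimitAlong γ 0 (mixDet P Φ 0) T) (h1 : LimitAlong γ 1 (mixDet P Φ 1) T) (l : ℕ)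
    (u : Fin l → ℝ) : mixDet P Φ l u = sineDet l u := by
  -- the mean intensity
  have hmean : ∫ ω, inten Φ ω ∂P = 1 := by
    have e1 := h0 0 0 le_rfl
    have e2 := (conj_zero h 0 0 le_rfl).comp hT
    have e3 := tendsto_nhds_unique e1 e2
    unfold boxIntegral at e3
    have e4 : mixDet P Φ 0 = fun _ => ∫ ω, inten Φ ω ∂P := by
      ext u
      exact mixDet_zero H u
    have e5 : sineDet 0 = fun _ => 1 := by
      ext u
      exact sineDet_zero u
    rw [e4, e5, setIntegral_const, setIntegral_const] at e3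
    have e6 : (volume : Measure (Fin 0 → ℝ)).real (Icc 0 0) = 1 := by
      rw [Measure.real, Real.volume_Icc_pi]
      simp
    rw [e6] at e3
    simpa using e3
  -- the smoothed averages agree
  have hband : BandLim (fun T => nuT h 1 T) (sineDet 1) (Metric.ball 0 ε) (map T atTop) := by
    intro ψ hψ
    refine ((hs ψ (hψ.mono ?_)).mono_left hT).congr' ?_
    · intro ξ hξ
      rw [mem_ball_zero_iff, pi_norm_lt_iff hε] at hξ
      exact hξ 0
    · refine EventuallyEq.filter_mono ?_ hT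
      filter_upwards [eventually_gt_atTop 1] with T hT
      exact (integral_nuT_complex h hT _).symm
  have hbox : ∀ a b : Fin 1 → ℝ, a ≤ b → Tendsto (fun T => (nuT h 1 T).real (Icc a b))
      (map T atTop) (𝓝 (∫ u in Icc a b, mixDet P Φ 1 u)) := by
    intro a b hab
    rw [tendsto_map'_iff]
    refine (h1 a b hab).congr' ?_
    filter_upwards [hT.eventually_gt_atTop 1] with k hk
    exact (real_nuT h hk a b).symm
  have hag : ∀ ψ : (Fin 1 → ℝ) → ℂ, IsBand (Metric.closedBall 0 (ε / 2)) ψ →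
      ∫ u, synth ψ u * (mixDet P Φ 1 u : ℂ) = ∫ u, synth ψ u * (sineDet 1 u : ℂ) := by
    intro ψ hψ
    exact dens_agree (continuous_sineDet 1) (abs_sineDet_le 1) (continuous_mixDet_one H)
      (mixDet_one_nonneg H) (abs_mixDet_one_le H) hε hband hbox hψ
  have hδ : 0 < min (ε / 2) 1 := by positivity
  obtain ⟨hsec, hae⟩ := mix_conclusions H hδ (min_le_right _ _) (fun ψ hψ =>
    hag ψ (hψ.mono (Metric.closedBall_subset_closedBall (min_le_left _ _))))
  obtain ⟨s, hs1, hs2, hs3, hs4⟩ := exists_good_seq hδ hae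
  have hr := mix_rigid H hmean hsec hs1 (fun k => (hs2 k).trans (min_le_right _ _)) hs3 hs4
  unfold mixDet
  have hae2 : (fun ω => typeDet (Φ ω) l u) =ᵐ[P] fun _ => sineDet l u := by
    filter_upwards [hr] with ω hω
    obtain ⟨s, C, h2, h3, h4, h5⟩ := hω
    exact typeDet_eq_sineDet h2 h3 h4 h5 l u
  rw [integral_congr_ae hae2]
  simp

/-- The equivalence for families of ordinates: the correlation conjecture up to level `m + 1` holds
if and only if every sequence of heights has a subsequence along which the correlations up to this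
level are those of a mixture of translation invariant determinantal processes with finitely many
types. -/
theorem conj_iff_mixture {J : Type*} {γ : J → ℝ} (h : GoodFamily γ) {ε : ℝ} (hε : 0 < ε)
    (hs : SmoothedCorrelation γ 1 {ξ | |ξ 0| < ε}) (m : ℕ∞) (hm : 1 ≤ m) :
    (∀ l : ℕ, (l : ℕ∞) ≤ m → CorrelationConj γ l) ↔
      ∀ T : ℕ → ℝ, Tendsto T atTop atTop → ∃ σ : ℕ → ℕ, StrictMono σ ∧
        ∃ (Ω : Type) (_ : MeasurableSpace Ω) (P : Measure Ω) (_ : IsProbabilityMeasure P) (n : ℕ)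
          (Φ : Ω → ℝ → Matrix (Fin n) (Fin n) ℂ), SymbolMixture P Φ ∧
            ∀ l : ℕ, (l : ℕ∞) ≤ m → LimitAlong γ l (mixDet P Φ l) (T ∘ σ) := by
  constructor
  · intro hc T hT
    refine ⟨id, strictMono_id, Unit, inferInstance, Measure.dirac (), inferInstance, 1, sineSym,
      symbolMixture_sineSym, fun l hl => ?_⟩
    have e : mixDet (Measure.dirac ()) sineSym l = sineDet l := by
      ext u
      exact mixDet_sineSym l u
    rw [e]
    intro a b hab
    exact (hc l hl a b hab).comp hT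
  · intro hT l hl a b hab
    refine tendsto_of_subseq_tendsto fun T hTlim => ?_
    obtain ⟨σ, hσ, Ω, _, P, _, n, Φ, H, hlim⟩ := hT T hTlim
    refine ⟨σ, ?_⟩
    have hTσ : Tendsto (T ∘ σ) atTop atTop := hTlim.comp hσ.tendsto_atTop
    have e : mixDet P Φ l = sineDet l := by
      ext u
      exact mixDet_eq_sineDet h hε hs H hTσ (hlim 0 (by simp)) (hlim 1 (by simpa using hm)) l u
    have h1 := hlim l hl a b hab
    rw [e] at h1
    exact h1

end Pool.Agent.MP_67227b_nt
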