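import Pool.Agent.MP_67227b_nt.Prod45

set_option autoImplicit false

open Filter MeasureTheory Topology Finset
open scoped Real

namespace Pool.Agent.MP_67227b_nt

variable {J : Type*}

/-- The number of local tuples around base points in a window. -/
noncomputable def SS (P : Finset J) (x : J → ℝ) (l : ℕ) (j : J) (a b : Fin l → ℝ) (s t : ℝ) : ℕ :=
  ∑ i ∈ near P x j s t, R P x l i a b

/-- Summing over the base points of the windows. -/
lemma sum_SS (P : Finset J) (x : J → ℝ) (l : ℕ) (a b : Fin l → ℝ) (V : ℝ) :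
    ∑ j ∈ P, SS P x l j a b (-V) 0 = ∑ i ∈ P, R P x l i a b * Z P x i 0 V := by
  classical
  have h1 : ∀ j ∈ P, SS P x l j a b (-V) 0 =
      ∑ i ∈ P, if (i ≠ j ∧ x i - x j ∈ Set.Icc (-V) 0) then R P x l i a b else 0 := by
    intro j _
    rw [SS, near, sum_filter]
  have h2 : ∀ i ∈ P, R P x l i a b * Z P x i 0 V =
      ∑ j ∈ P, if (j ≠ i ∧ x j - x i ∈ Set.Icc 0 V) then R P x l i a b else 0 := by
    intro i _
    rw [Z, near, ← sum_filter, sum_const, smul_eq_mul, mul_comm]
  rw [sum_congr rfl h1, sum_congr rfl h2, sum_comm]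
  apply sum_congr rfl
  intro i _
  apply sum_congr rfl
  intro j _
  congr 1
  simp only [Set.mem_Icc, eq_iff_iff]
  constructor
  · rintro ⟨h1, h2, h3⟩
    exact ⟨h1.symm, by linarith, by linarith⟩
  · rintro ⟨h1, h2, h3⟩
    exact ⟨h1.symm, by linarith, by linarith⟩

lemma SS_le_add (P : Finset J) (x : J → ℝ) (l : ℕ) (j : J) (a b : Fin l → ℝ) (s c t : ℝ) :
    SS P x l j a b s t ≤ SS P x l j a b s c + SS P x l j a b c t := by
  classical
  have h1 : near P x j s t ⊆ near P x j s c ∪ near P x j c t := by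
    intro i hi
    rw [mem_union, mem_near, mem_near]
    rw [mem_near] at hi
    rcases le_total (x i - x j) c with h | h
    · exact Or.inl ⟨hi.1, hi.2.1, hi.2.2.1, h⟩
    · exact Or.inr ⟨hi.1, hi.2.1, h, hi.2.2.2⟩
  calc SS P x l j a b s t ≤ ∑ i ∈ near P x j s c ∪ near P x j c t, R P x l i a b :=
        sum_le_sum_of_subset h1
    _ ≤ (∑ i ∈ near P x j s c ∪ near P x j c t, R P x l i a b) +
        ∑ i ∈ near P x j s c ∩ near P x j c t, R P x l i a b := Nat.le_add_right _ _
    _ = _ := sum_union_inter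

/-- Splitting a long window into cells. -/
lemma SS_le_cells (P : Finset J) (x : J → ℝ) (l : ℕ) (j : J) (a b : Fin l → ℝ) (h : ℝ) (n : ℕ)
    (hn : 0 < n) : SS P x l j a b (-(n * h)) 0 ≤
      ∑ c ∈ range n, SS P x l j a b (-((c + 1) * h)) (-(c * h)) := by
  induction n, hn using Nat.le_induction with
  | base => simp
  | succ n hn ih =>
    rw [sum_range_succ]
    have h1 := SS_le_add P x l j a b (-(((n + 1 : ℕ) : ℝ) * h)) (-(n * h)) 0
    push_cast at h1 ⊢
    omega

lemma R_le_pow (P : Finset J) (x : J → ℝ) (l : ℕ) (i : J) (a b : Fin l → ℝ) {ρ : ℝ}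
    (ha : ∀ t, -ρ ≤ a t) (hb : ∀ t, b t ≤ ρ) : R P x l i a b ≤ Z P x i (-ρ) ρ ^ l := by
  have h1 : R P x l i a b ≤ R P x l i (fun _ => -ρ) (fun _ => ρ) :=
    R_mono (fun t => ha t) (fun t => hb t)
  rw [R_const] at h1
  exact h1.trans (Nat.descFactorial_le_pow _ _)

lemma Z_le_Z_add_one (P : Finset J) (x : J → ℝ) {j i : J} {s t ρ : ℝ}
    (hi : i ∈ near P x j s t) : Z P x i (-ρ) ρ ≤ Z P x j (s - ρ) (t + ρ) + 1 := by
  classical
  rw [Z, Z]
  have h1 : near P x i (-ρ) ρ ⊆ insert j (near P x j (s - ρ) (t + ρ)) := by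
    intro i' hi'
    rw [mem_near] at hi hi'
    rw [mem_insert, mem_near]
    by_cases h : i' = j
    · exact Or.inl h
    · refine Or.inr ⟨hi'.1, h, ?_, ?_⟩
      · linarith [hi'.2.2.1, hi.2.2.1]
      · linarith [hi'.2.2.2, hi.2.2.2]
  exact (card_le_card h1).trans (card_insert_le _ _)

lemma SS_le_pow (P : Finset J) (x : J → ℝ) (l : ℕ) (j : J) (a b : Fin l → ℝ) {ρ : ℝ} (hρ : 0 ≤ ρ)
    (ha : ∀ t, -ρ ≤ a t) (hb : ∀ t, b t ≤ ρ) (s t : ℝ) :
    SS P x l j a b s t ≤ (Z P x j (s - ρ) (t + ρ) + 1) ^ (l + 1) := by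
  calc SS P x l j a b s t ≤ ∑ i ∈ near P x j s t, (Z P x j (s - ρ) (t + ρ) + 1) ^ l := by
        apply sum_le_sum
        intro i hi
        refine (R_le_pow P x l i a b ha hb).trans ?_
        exact Nat.pow_le_pow_left (Z_le_Z_add_one P x hi) l
    _ = Z P x j s t * (Z P x j (s - ρ) (t + ρ) + 1) ^ l := by
        rw [sum_const, smul_eq_mul]
        rfl
    _ ≤ (Z P x j (s - ρ) (t + ρ) + 1) * (Z P x j (s - ρ) (t + ρ) + 1) ^ l := by
        gcongr
        exact (Z_mono (by linarith) (by linarith)).trans (Nat.le_succ _)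
    _ = _ := by ring

/-- Products over separated windows are counted by one level. -/
lemma prod_SS_le (P : Finset J) (x : J → ℝ) (k l : ℕ) (j : J) (a b : Fin l → ℝ) {ρ : ℝ}
    (hρ : 0 ≤ ρ) (ha : ∀ t, -ρ ≤ a t) (hb : ∀ t, b t ≤ ρ) (s t : Fin k → ℝ)
    (h0 : ∀ q, (0 : ℝ) ∉ Set.Icc (s q - ρ) (t q + ρ))
    (hd : ∀ q q', q ≠ q' → ∀ y : ℝ, y ∈ Set.Icc (s q - ρ) (t q + ρ) →
      y ∉ Set.Icc (s q' - ρ) (t q' + ρ)) :
    ∏ q, SS P x l j a b (s q) (t q) ≤ R P x (k * (l + 1)) j (cellBox k l a s)
      (cellBox k l b t) := by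
  classical
  set G : Fin k → Finset (Σ _ : J, Fin l → J) := fun q =>
    (near P x j (s q) (t q)).sigma (fun i => localTuples P x l i a b) with hG
  have hcard : ∏ q, SS P x l j a b (s q) (t q) = (Fintype.piFinset G).card := by
    rw [Fintype.card_piFinset]
    apply prod_congr rfl
    intro q _
    rw [hG, card_sigma]
    rfl
  rw [hcard, R]
  set Φ : (Fin k → Σ _ : J, Fin l → J) → (Fin (k * (l + 1)) → J) := fun F i =>
    (Fin.snoc (F (finProdFinEquiv.symm i).1).2 (F (finProdFinEquiv.symm i).1).1 :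
      Fin (l + 1) → J) (finProdFinEquiv.symm i).2 with hΦ
  apply card_le_card_of_injOn Φ
  · intro F hF
    rw [mem_coe, Fintype.mem_piFinset] at hF
    have hF1 : ∀ q, (F q).1 ∈ near P x j (s q) (t q) := fun q => by
      have := hF q
      rw [hG, mem_sigma] at this
      exact this.1
    have hF2 : ∀ q, (F q).2 ∈ localTuples P x l (F q).1 a b := fun q => by
      have := hF q
      rw [hG, mem_sigma] at this
      exact this.2
    set f : Fin k → Fin (l + 1) → J := fun q => Fin.snoc (F q).2 (F q).1 with hf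
    have f1 : ∀ q u, f q u ∈ P := by
      intro q u
      refine Fin.lastCases ?_ (fun u => ?_) u
      · simp only [hf, Fin.snoc_last]
        exact (mem_near.1 (hF1 q)).1
      · simp only [hf, Fin.snoc_castSucc]
        exact (mem_localTuples.1 (hF2 q)).1 u
    have f2 : ∀ q, Function.Injective (f q) := by
      intro q
      have h1 := mem_localTuples.1 (hF2 q)
      rw [hf, Fin.snoc_injective_iff]
      refine ⟨h1.2.1, ?_⟩
      rintro ⟨u, hu⟩
      exact h1.2.2.1 u hu
    have f3 : ∀ q u, x (f q u) - x j ∈ Set.Icc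
        ((Fin.snoc (fun i' => a i' + s q) (s q) : Fin (l + 1) → ℝ) u)
        ((Fin.snoc (fun i' => b i' + t q) (t q) : Fin (l + 1) → ℝ) u) := by
      intro q u
      have hn := (mem_near.1 (hF1 q)).2.2
      refine Fin.lastCases ?_ (fun u => ?_) u
      · simp only [hf, Fin.snoc_last]
        exact hn
      · simp only [hf, Fin.snoc_castSucc]
        have h2 := (mem_localTuples.1 (hF2 q)).2.2.2 u
        constructor
        · linarith [h2.1, hn.1]
        · linarith [h2.2, hn.2]
    have f4 : ∀ q u, x (f q u) - x j ∈ Set.Icc (s q - ρ) (t q + ρ) := by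
      intro q u
      have h3 := f3 q u
      constructor
      · refine le_trans ?_ h3.1
        refine Fin.lastCases ?_ (fun u => ?_) u
        · simp only [Fin.snoc_last]
          linarith
        · simp only [Fin.snoc_castSucc]
          linarith [ha u]
      · refine h3.2.trans ?_
        refine Fin.lastCases ?_ (fun u => ?_) u
        · simp only [Fin.snoc_last]
          linarith
        · simp only [Fin.snoc_castSucc]
          linarith [hb u]
    have hΦf : ∀ i, Φ F i = f (finProdFinEquiv.symm i).1 (finProdFinEquiv.symm i).2 :=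
      fun i => rfl
    rw [mem_coe, mem_localTuples]
    refine ⟨fun i => ?_, ?_, fun i => ?_, fun i => ?_⟩
    · rw [hΦf]
      exact f1 _ _
    · intro i i' hii
      rw [hΦf, hΦf] at hii
      by_cases hq : (finProdFinEquiv.symm i).1 = (finProdFinEquiv.symm i').1
      · rw [hq] at hii
        have h2 := f2 _ hii
        have h3 : finProdFinEquiv.symm i = finProdFinEquiv.symm i' := Prod.ext hq h2
        exact finProdFinEquiv.symm.injective h3
      · exfalso
        apply hd _ _ hq _ (f4 (finProdFinEquiv.symm i).1 (finProdFinEquiv.symm i).2)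
        rw [hii]
        exact f4 _ _
    · intro hj
      rw [hΦf] at hj
      have h4 := f4 (finProdFinEquiv.symm i).1 (finProdFinEquiv.symm i).2
      rw [hj, sub_self] at h4
      exact h0 _ h4
    · rw [hΦf]
      exact f3 _ _
  · intro F _ F' _ hFF
    ext q : 1
    have h1 : (Fin.snoc (F q).2 (F q).1 : Fin (l + 1) → J) = Fin.snoc (F' q).2 (F' q).1 := by
      ext u
      have h2 := congrFun hFF (finProdFinEquiv (q, u))
      simp only [hΦ, Equiv.symm_apply_apply] at h2
      exact h2
    have h3 : (F q).1 = (F' q).1 := by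
      have := congrFun h1 (Fin.last l)
      simpa using this
    have h4 : (F q).2 = (F' q).2 := by
      ext u
      have := congrFun h1 u.castSucc
      simpa using this
    exact Sigma.ext h3 (heq_of_eq h4)

/-- Few tuples of cells have a coordinate close to a function of the others. -/
lemma card_close_le (k n r : ℕ) (q : Fin (k + 1)) (ψ : (Fin k → ℕ) → ℕ) :
    ((Fintype.piFinset fun _ : Fin (k + 1) => range n).filter (fun c : Fin (k + 1) → ℕ =>
      c q < ψ (fun i => c (q.succAbove i)) + r ∧ ψ (fun i => c (q.succAbove i)) < c q + r)).card ≤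
      2 * r * n ^ k := by
  classical
  have h1 : (range (2 * r) ×ˢ (Fintype.piFinset fun _ : Fin k => range n)).card =
      2 * r * n ^ k := by
    rw [card_product, Fintype.card_piFinset]
    simp
  rw [← h1]
  apply card_le_card_of_injOn (fun c : Fin (k + 1) → ℕ =>
    ((c q + r - ψ (fun i => c (q.succAbove i)), fun i => c (q.succAbove i)) : ℕ × (Fin k → ℕ)))
  · intro c hc
    rw [mem_coe, mem_filter, Fintype.mem_piFinset] at hc
    rw [mem_coe, mem_product, mem_range, Fintype.mem_piFinset]
    refine ⟨?_, fun i => hc.1 _⟩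
    simp only
    omega
  · intro c hc c' hc' hcc
    rw [mem_coe, mem_filter] at hc hc'
    simp only [Prod.mk.injEq] at hcc
    obtain ⟨e1, e2⟩ := hcc
    rw [← e2] at e1 hc'
    have e3 : c q = c' q := by omega
    ext i
    by_cases hi : i = q
    · rw [hi, e3]
    · obtain ⟨i', rfl⟩ := Fin.exists_succAbove_eq hi
      exact congrFun e2 i'

/-- A tuple of cells is good when the cells are far from the origin and from each other. -/
def goodCells (k r : ℕ) (c : Fin (k + 1) → ℕ) : Prop :=
  (∀ q, r ≤ c q) ∧ ∀ q q', q ≠ q' → c q + r ≤ c q' ∨ c q' + r ≤ c q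

open Classical in
lemma card_bad_le (k n r : ℕ) :
    ((Fintype.piFinset fun _ : Fin (k + 1) => range n).filter (fun c : Fin (k + 1) → ℕ =>
      ¬ goodCells k r c)).card ≤ ((k + 1) + (k + 1) ^ 2) * (2 * r * n ^ k) := by
  set Ω := Fintype.piFinset fun _ : Fin (k + 1) => range n with hΩ
  have hsub : Ω.filter (fun c => ¬ goodCells k r c) ⊆
      (univ.biUnion fun q : Fin (k + 1) => Ω.filter (fun c => c q < r)) ∪
      (univ.biUnion fun q : Fin (k + 1) × Fin (k + 1) => Ω.filter (fun c => q.1 ≠ q.2 ∧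
        c q.1 < c q.2 + r ∧ c q.2 < c q.1 + r)) := by
    intro c hc
    rw [mem_filter, goodCells] at hc
    obtain ⟨hc1, hc2⟩ := hc
    rw [mem_union, mem_biUnion, mem_biUnion]
    by_cases h1 : ∀ q, r ≤ c q
    · right
      have h2 : ¬ ∀ q q', q ≠ q' → c q + r ≤ c q' ∨ c q' + r ≤ c q := fun h => hc2 ⟨h1, h⟩
      push Not at h2
      obtain ⟨q, q', hqq, h3, h4⟩ := h2
      refine ⟨(q, q'), mem_univ _, ?_⟩
      rw [mem_filter]
      exact ⟨hc1, hqq, h4, h3⟩
    · left
      push Not at h1
      obtain ⟨q, hq⟩ := h1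
      exact ⟨q, mem_univ _, mem_filter.2 ⟨hc1, hq⟩⟩
  refine (card_le_card hsub).trans ((card_union_le _ _).trans ?_)
  rw [add_mul]
  apply add_le_add
  · refine card_biUnion_le.trans ?_
    calc ∑ q : Fin (k + 1), (Ω.filter (fun c => c q < r)).card ≤
        ∑ q : Fin (k + 1), 2 * r * n ^ k := by
          apply sum_le_sum
          intro q _
          refine le_trans (card_le_card ?_) (card_close_le k n r q (fun _ => 0))
          intro c hc
          rw [mem_filter] at hc ⊢
          refine ⟨hc.1, by omega, by omega⟩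
      _ = _ := by simp
  · refine card_biUnion_le.trans ?_
    calc ∑ q : Fin (k + 1) × Fin (k + 1), (Ω.filter (fun c => q.1 ≠ q.2 ∧
        c q.1 < c q.2 + r ∧ c q.2 < c q.1 + r)).card ≤
        ∑ q : Fin (k + 1) × Fin (k + 1), 2 * r * n ^ k := by
          apply sum_le_sum
          rintro ⟨q, q'⟩ _
          by_cases hqq : q = q'
          · subst hqq
            simp
          · obtain ⟨i, hi⟩ := Fin.exists_succAbove_eq (Ne.symm hqq)
            refine le_trans (card_le_card ?_) (card_close_le k n r q (fun d => d i))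
            intro c hc
            rw [mem_filter] at hc ⊢
            simp only [hi]
            exact ⟨hc.1, hc.2.2⟩
      _ = _ := by
          simp only [sum_const, card_univ, Fintype.card_prod, Fintype.card_fin, smul_eq_mul]
          ring

end Pool.Agent.MP_67227b_nt
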