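import Pool.Agent.MP_67227b_nt.Step35

set_option autoImplicit false

open Filter MeasureTheory Topology Set
open scoped Real Nat

namespace Pool.Agent.MP_67227b_nt

variable {J : Type*} {γ : J → ℝ}

/-- The number of local tuples at level `n + 2` for a box given by two intervals and a box. -/
noncomputable def G2 (h : GoodFamily γ) (n : ℕ) (a b : Fin n → ℝ) (s t s' t' : ℝ) (T : ℝ)
    (j : J) : ℝ :=
  (R (PT h T) (xT γ T) (n + 2) j (Fin.cons s (Fin.cons s' a : Fin (n + 1) → ℝ))
    (Fin.cons t (Fin.cons t' b : Fin (n + 1) → ℝ)) : ℝ)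

/-- The box integral for a box given by two intervals and a box. -/
noncomputable def B2 (n : ℕ) (a b : Fin n → ℝ) (s t s' t' : ℝ) : ℝ :=
  boxIntegral (n + 2) (Fin.cons s (Fin.cons s' a : Fin (n + 1) → ℝ))
    (Fin.cons t (Fin.cons t' b : Fin (n + 1) → ℝ))

lemma G2_split1 (h : GoodFamily γ) (n : ℕ) (a b : Fin n → ℝ) (s c t s' t' : ℝ) (T : ℝ) (j : J) :
    G2 h n a b s t s' t' T j ≤ G2 h n a b s c s' t' T j + G2 h n a b c t s' t' T j := by
  unfold G2
  exact_mod_cast R_split _ _ _ _ _ _ _ _ _

lemma G2_split2 (h : GoodFamily γ) (n : ℕ) (a b : Fin n → ℝ) (s t s' c t' : ℝ) (T : ℝ) (j : J) :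
    G2 h n a b s t s' t' T j ≤ G2 h n a b s t s' c T j + G2 h n a b s t c t' T j := by
  unfold G2
  exact_mod_cast R_split2 _ _ _ _ _ _ _ _ _ _ _

lemma B2_split1 (n : ℕ) (a b : Fin n → ℝ) {s c t : ℝ} (s' t' : ℝ) (hsc : s ≤ c) (hct : c ≤ t) :
    B2 n a b s t s' t' = B2 n a b s c s' t' + B2 n a b c t s' t' :=
  box_split (n + 1) _ _ hsc hct _ (continuous_sineDet (n + 2))

lemma B2_split2 (n : ℕ) (a b : Fin n → ℝ) (s t : ℝ) {s' c t' : ℝ} (hsc : s' ≤ c) (hct : c ≤ t') :
    B2 n a b s t s' t' = B2 n a b s t s' c + B2 n a b s t c t' :=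
  box_split2 n a b s t hsc hct _ (continuous_sineDet (n + 2))

lemma Av_G2_UB (h : GoodFamily γ) {n : ℕ} (hU : CorrelationUpper γ (n + 2)) {a b : Fin n → ℝ}
    (hab : a ≤ b) {s t s' t' : ℝ} (hst : s ≤ t) (hst' : s' ≤ t') :
    UB (Av h (G2 h n a b s t s' t')) (B2 n a b s t s' t') :=
  Av_R_UB h hU (cons_le_cons' (cons_le_cons' hab hst') hst)

lemma Av_sum (h : GoodFamily γ) {ι : Type*} (s : Finset ι) (g : ι → ℝ → J → ℝ) (T : ℝ) :
    Av h (fun T j => ∑ i ∈ s, g i T j) T = ∑ i ∈ s, Av h (g i) T := by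
  unfold Av
  rw [← Finset.sum_div, Finset.sum_comm]

/-- The lower bound at level `n + 2`. -/
lemma LB_target (h : GoodFamily γ) {n : ℕ} (hU : CorrelationUpper γ (n + 2))
    (hC1 : CorrelationConj γ (n + 1)) (hC0 : CorrelationConj γ n) {a b : Fin n → ℝ}
    (hab : a ≤ b) {s t s' t' : ℝ} (hst : s ≤ t) (hst' : s' ≤ t') :
    LB (Av h (G2 h n a b s t s' t')) (B2 n a b s t s' t') := by
  apply LB_of_forall
  intro η hη
  obtain ⟨r, N, hN, hr, hr0, hr1, hQ⟩ := exists_good n a b
    (boxRad a b + |s| + |t| + |s'| + |t'|) η hη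
  have hN' : (0 : ℝ) < N := by exact_mod_cast hN
  have hb0 := boxRad_nonneg a b
  have hrk : ∀ k, boxRad a b + |s| + |t| + |s'| + |t'| ≤ r k := fun k =>
    hr0.trans (hr (Nat.zero_le k))
  have hs : ∀ k, -r k ≤ s := fun k => by
    have := hrk k
    have := neg_abs_le s
    have := abs_nonneg t
    have := abs_nonneg s'
    have := abs_nonneg t'
    linarith
  have ht : ∀ k, t ≤ r k := fun k => by
    have := hrk k
    have := le_abs_self t
    have := abs_nonneg s
    have := abs_nonneg s'
    have := abs_nonneg t'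
    linarith
  have hs' : ∀ k, -r k ≤ s' := fun k => by
    have := hrk k
    have := neg_abs_le s'
    have := abs_nonneg t
    have := abs_nonneg s
    have := abs_nonneg t'
    linarith
  have ht' : ∀ k, t' ≤ r k := fun k => by
    have := hrk k
    have := le_abs_self t'
    have := abs_nonneg s
    have := abs_nonneg s'
    have := abs_nonneg t
    linarith
  have hbig := LB_big h hC1 hC0 hab r hr (by
    have := abs_nonneg s
    have := abs_nonneg t
    have := abs_nonneg s'
    have := abs_nonneg t'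
    linarith) hN
  -- the four remaining boxes
  set o : ℕ → ℕ → ℝ → J → ℝ := fun k l T j =>
    G2 h n a b (-r (max k l)) s (-r (min k l)) (r (min k l)) T j +
    G2 h n a b t (r (max k l)) (-r (min k l)) (r (min k l)) T j +
    G2 h n a b s t (-r (min k l)) s' T j +
    G2 h n a b s t t' (r (min k l)) T j with ho
  set o' : ℕ → ℕ → ℝ := fun k l =>
    B2 n a b (-r (max k l)) s (-r (min k l)) (r (min k l)) +
    B2 n a b t (r (max k l)) (-r (min k l)) (r (min k l)) +
    B2 n a b s t (-r (min k l)) s' +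
    B2 n a b s t t' (r (min k l)) with ho'
  have hmm : ∀ k, -r k ≤ r k := fun k => (hs k).trans (hst.trans (ht k))
  have hoUB : ∀ k l, UB (Av h (o k l)) (o' k l) := by
    intro k l
    have u1 := Av_G2_UB h hU hab (hs (max k l)) (hmm (min k l))
    have u2 := Av_G2_UB h hU hab (ht (max k l)) (hmm (min k l))
    have u3 := Av_G2_UB h hU hab hst (hs' (min k l))
    have u4 := Av_G2_UB h hU hab hst (ht' (min k l))
    have u := ((u1.add u2).add u3).add u4
    refine u.mono (Eventually.of_forall fun T => le_of_eq ?_) le_rfl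
    rw [ho]
    simp only
    rw [← Av_add, ← Av_add, ← Av_add]
  have hoUBsum : UB (fun T => (1 / (N : ℝ) ^ 2) * ∑ k ∈ Finset.range N, ∑ l ∈ Finset.range N,
      Av h (o k l) T) ((1 / (N : ℝ) ^ 2) * ∑ k ∈ Finset.range N, ∑ l ∈ Finset.range N, o' k l) :=
    (UB.sum _ fun k _ => UB.sum _ fun l _ => hoUB k l).const_mul (by positivity)
  refine (hbig.sub hoUBsum).mono ?_ ?_
  · filter_upwards [eventually_gt_atTop (1 : ℝ)] with T hT
    have hkl : ∀ k l, Av h (A2 h n a b r k l) T ≤
        Av h (o k l) T + Av h (G2 h n a b s t s' t') T := by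
      intro k l
      rw [← Av_add]
      apply Av_mono h hT
      intro j _
      have e0 : A2 h n a b r k l T j =
        G2 h n a b (-r (max k l)) (r (max k l)) (-r (min k l)) (r (min k l)) T j := rfl
      have e1 := G2_split1 h n a b (-r (max k l)) s (r (max k l)) (-r (min k l)) (r (min k l)) T j
      have e2 := G2_split1 h n a b s t (r (max k l)) (-r (min k l)) (r (min k l)) T j
      have e3 := G2_split2 h n a b s t (-r (min k l)) s' (r (min k l)) T j
      have e4 := G2_split2 h n a b s t s' t' (r (min k l)) T j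
      rw [e0]
      simp only [ho]
      linarith
    have hsum : ∑ k ∈ Finset.range N, ∑ l ∈ Finset.range N, Av h (A2 h n a b r k l) T ≤
        (∑ k ∈ Finset.range N, ∑ l ∈ Finset.range N, Av h (o k l) T) +
          (N : ℝ) ^ 2 * Av h (G2 h n a b s t s' t') T := by
      calc ∑ k ∈ Finset.range N, ∑ l ∈ Finset.range N, Av h (A2 h n a b r k l) T ≤
          ∑ k ∈ Finset.range N, ∑ l ∈ Finset.range N,
            (Av h (o k l) T + Av h (G2 h n a b s t s' t') T) :=
            Finset.sum_le_sum fun k _ => Finset.sum_le_sum fun l _ => hkl k l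
        _ = _ := by
            simp only [Finset.sum_add_distrib, Finset.sum_const, Finset.card_range, nsmul_eq_mul]
            ring
    have h5 : (1 / (N : ℝ) ^ 2) * ∑ k ∈ Finset.range N, ∑ l ∈ Finset.range N,
        Av h (A2 h n a b r k l) T ≤ (1 / (N : ℝ) ^ 2) *
        ((∑ k ∈ Finset.range N, ∑ l ∈ Finset.range N, Av h (o k l) T) +
          (N : ℝ) ^ 2 * Av h (G2 h n a b s t s' t') T) := by
      gcongr
    have h6 : (1 / (N : ℝ) ^ 2) * ((∑ k ∈ Finset.range N, ∑ l ∈ Finset.range N, Av h (o k l) T) +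
          (N : ℝ) ^ 2 * Av h (G2 h n a b s t s' t') T) =
          (1 / (N : ℝ) ^ 2) * (∑ k ∈ Finset.range N, ∑ l ∈ Finset.range N, Av h (o k l) T) +
          Av h (G2 h n a b s t s' t') T := by
      field_simp
    linarith
  · have hkl : ∀ k l, J2 n a b r k l = o' k l + B2 n a b s t s' t' := by
      intro k l
      have e0 : J2 n a b r k l =
        B2 n a b (-r (max k l)) (r (max k l)) (-r (min k l)) (r (min k l)) := rfl
      have e1 := B2_split1 n a b (-r (min k l)) (r (min k l)) (hs (max k l))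
        (hst.trans (ht (max k l)))
      have e2 := B2_split1 n a b (-r (min k l)) (r (min k l)) hst (ht (max k l))
      have e3 := B2_split2 n a b s t (hs' (min k l)) (hst'.trans (ht' (min k l)))
      have e4 := B2_split2 n a b s t hst' (ht' (min k l))
      rw [e0]
      simp only [ho']
      linarith
    have hsum : (1 / (N : ℝ) ^ 2) * ∑ k ∈ Finset.range N, ∑ l ∈ Finset.range N,
        J2 n a b r k l = (1 / (N : ℝ) ^ 2) * (∑ k ∈ Finset.range N, ∑ l ∈ Finset.range N,
          o' k l) + B2 n a b s t s' t' := by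
      simp_rw [hkl]
      simp only [Finset.sum_add_distrib, Finset.sum_const, Finset.card_range, nsmul_eq_mul]
      field_simp
    linarith

/-- The induction step. -/
theorem conj_step (h : GoodFamily γ) {n : ℕ} (hU : CorrelationUpper γ (n + 2))
    (hC1 : CorrelationConj γ (n + 1)) (hC0 : CorrelationConj γ n) :
    CorrelationConj γ (n + 2) := by
  intro A B hAB
  have hA : A = Fin.cons (A 0) (Fin.cons (A 1) (fun i => A i.succ.succ) : Fin (n + 1) → ℝ) := by
    ext i
    refine Fin.cases ?_ (fun i => ?_) i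
    · simp
    · refine Fin.cases ?_ (fun i => ?_) i
      · simp
      · simp
  have hB : B = Fin.cons (B 0) (Fin.cons (B 1) (fun i => B i.succ.succ) : Fin (n + 1) → ℝ) := by
    ext i
    refine Fin.cases ?_ (fun i => ?_) i
    · simp
    · refine Fin.cases ?_ (fun i => ?_) i
      · simp
      · simp
  apply tendsto_of_UB_LB
  · exact hU A B hAB
  · have h1 := LB_target h hU hC1 hC0 (a := fun i => A i.succ.succ) (b := fun i => B i.succ.succ)
      (fun i => hAB _) (hAB 0) (hAB 1)
    unfold G2 B2 at h1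
    rw [← hA, ← hB] at h1
    refine h1.mono (Eventually.of_forall fun T => le_of_eq ?_) le_rfl
    rw [tupleCount_div h]

end Pool.Agent.MP_67227b_nt
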