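import Mathlib

set_option autoImplicit false

/-!
An isoperimetric inequality on the line: the integral of `|f(s + h) - f(s)|` is bounded below by
window integrals of `f`, and a zero-one valued integrable function with the smallest possible
variation is the indicator function of an interval.
-/

open MeasureTheory Set Filter Topology

namespace Pool.Agent.MP_67227b_nt

/-- The integral of `f` over the window `[t, t + h]`. -/
noncomputable def win (f : ℝ → ℝ) (h t : ℝ) : ℝ := ∫ s in t..(t + h), f s

lemma integrable_shift_sub {f : ℝ → ℝ} (hf : Integrable f) (h : ℝ) :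
    Integrable fun s => f (s + h) - f s := (hf.comp_add_right h).sub hf

lemma integral_Iic_shift {f : ℝ → ℝ} (hf : Integrable f) (h t : ℝ) :
    ∫ s in Iic t, (f (s + h) - f s) = win f h t := by
  have h1 : ∫ s in Iic t, f (s + h) = ∫ s in Iic (t + h), f s := by
    have hmp := measurePreserving_add_right (volume : Measure ℝ) h
    have h2 := hmp.setIntegral_preimage_emb (measurableEmbedding_addRight h) f (Iic (t + h))
    rw [← h2]
    congr 1
    congr 1
    ext s
    simp
  rw [integral_sub (hf.comp_add_right h).integrableOn hf.integrableOn, h1, win,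
    intervalIntegral.integral_Iic_sub_Iic hf.integrableOn hf.integrableOn]

lemma integral_shift_eq_zero {f : ℝ → ℝ} (hf : Integrable f) (h : ℝ) :
    ∫ s, (f (s + h) - f s) = 0 := by
  rw [integral_sub (hf.comp_add_right h) hf, integral_add_right_eq_self f h, sub_self]

lemma integral_Ioi_eq {g : ℝ → ℝ} (hg : Integrable g) (t : ℝ) :
    ∫ s in Ioi t, g s = (∫ s, g s) - ∫ s in Iic t, g s := by
  have h1 := integral_add_compl (measurableSet_Iic (a := t)) hg
  rw [compl_Iic] at h1
  linarith

lemma integral_Ioc_eq {g : ℝ → ℝ} (hg : Integrable g) {a b : ℝ} (hab : a ≤ b) :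
    ∫ s in Ioc a b, g s = (∫ s in Iic b, g s) - ∫ s in Iic a, g s := by
  rw [intervalIntegral.integral_Iic_sub_Iic hg.integrableOn hg.integrableOn,
    intervalIntegral.integral_of_le hab]

lemma abs_setIntegral_le (g : ℝ → ℝ) (S : Set ℝ) :
    |∫ s in S, g s| ≤ ∫ s in S, |g s| := abs_integral_le_integral_abs

/-- One window gives a lower bound for the variation. -/
lemma win_one {f : ℝ → ℝ} (hf : Integrable f) (h t : ℝ) :
    2 * win f h t ≤ ∫ s, |f (s + h) - f s| := by
  have hg := integrable_shift_sub hf h
  have h1 := abs_setIntegral_le (fun s => f (s + h) - f s) (Iic t)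
  have h2 := abs_setIntegral_le (fun s => f (s + h) - f s) (Ioi t)
  rw [integral_Ioi_eq hg, integral_Ioi_eq hg.abs, integral_shift_eq_zero hf,
    integral_Iic_shift hf] at h2
  rw [integral_Iic_shift hf] at h1
  have h3 := le_abs_self (win f h t)
  have h4 := neg_le_abs (0 - win f h t)
  linarith

/-- Three windows give a lower bound for the variation. -/
lemma win_three {f : ℝ → ℝ} (hf : Integrable f) (h : ℝ) {a b c : ℝ} (hab : a ≤ b) (hbc : b ≤ c) :
    2 * (win f h a - win f h b + win f h c) ≤ ∫ s, |f (s + h) - f s| := by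
  have hg := integrable_shift_sub hf h
  have h1 := abs_setIntegral_le (fun s => f (s + h) - f s) (Iic a)
  have h2 := abs_setIntegral_le (fun s => f (s + h) - f s) (Ioc a b)
  have h3 := abs_setIntegral_le (fun s => f (s + h) - f s) (Ioc b c)
  have h4 := abs_setIntegral_le (fun s => f (s + h) - f s) (Ioi c)
  rw [integral_Ioi_eq hg, integral_Ioi_eq hg.abs, integral_shift_eq_zero hf,
    integral_Iic_shift hf] at h4
  rw [integral_Ioc_eq hg hab, integral_Ioc_eq hg.abs hab, integral_Iic_shift hf,
    integral_Iic_shift hf] at h2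
  rw [integral_Ioc_eq hg hbc, integral_Ioc_eq hg.abs hbc, integral_Iic_shift hf,
    integral_Iic_shift hf] at h3
  rw [integral_Iic_shift hf] at h1
  have h5 := le_abs_self (win f h a)
  have h6 := neg_le_abs (win f h b - win f h a)
  have h7 := le_abs_self (win f h c - win f h b)
  have h8 := neg_le_abs (0 - win f h c)
  linarith

/-- At almost every point the window averages converge. -/
lemma ae_tendsto_win {f : ℝ → ℝ} (hf : Integrable f) : ∀ᵐ t, ∀ h : ℕ → ℝ,
    (∀ k, 0 < h k) → Tendsto h atTop (𝓝 0) →
      Tendsto (fun k => win f (h k) t / h k) atTop (𝓝 (f t)) := by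
  filter_upwards [LocallyIntegrable.ae_hasDerivAt_integral hf.locallyIntegrable] with t ht
  intro h hpos hlim
  have h1 := (hasDerivAt_iff_tendsto_slope_zero.mp (ht t))
  have h2 : Tendsto h atTop (𝓝[≠] 0) := by
    rw [tendsto_nhdsWithin_iff]
    exact ⟨hlim, Eventually.of_forall fun k => (hpos k).ne'⟩
  refine (h1.comp h2).congr (fun k => ?_)
  simp only [Function.comp_apply, intervalIntegral.integral_same, sub_zero, smul_eq_mul, win]
  rw [div_eq_inv_mul]

end Pool.Agent.MP_67227b_nt
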