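import Pool.Agent.MP_67227b_nt.Band67

set_option autoImplicit false
open Filter MeasureTheory Topology Set
open scoped Real Pointwise ContDiff Convolution FourierTransform

namespace Pool.Agent.MP_67227b_nt

variable {m : ℕ}

/-- The pairing as a linear map to the dual space. -/
noncomputable def pairMap (m : ℕ) : (Fin m → ℝ) →ₗ[ℝ] StrongDual ℝ (Fin m → ℝ) where
  toFun u := - ∑ i, u i • (ContinuousLinearMap.proj i : (Fin m → ℝ) →L[ℝ] ℝ)
  map_add' u v := by
    simp only [Pi.add_apply, add_smul, Finset.sum_add_distrib, neg_add]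
  map_smul' c u := by
    simp only [Pi.smul_apply, smul_eq_mul, RingHom.id_apply, smul_neg, Finset.smul_sum, smul_smul]

lemma pairMap_apply (u v : Fin m → ℝ) : pairMap m u v = - ∑ i, v i * u i := by
  simp [pairMap, mul_comm]

lemma tendsto_pairMap : Tendsto (pairMap m) (cocompact _) (cocompact _) := by
  have hinj : LinearMap.ker (pairMap m) = ⊥ := by
    rw [LinearMap.ker_eq_bot']
    intro u hu
    ext i
    have := congrArg (fun L : StrongDual ℝ (Fin m → ℝ) => L (Pi.single i 1)) hu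
    simpa [pairMap_apply, Pi.single_apply] using this
  exact (LinearMap.isClosedEmbedding_of_injective hinj).tendsto_cocompact

lemma tendsto_synth {φ : (Fin m → ℝ) → ℂ} : Tendsto (synth φ) (cocompact _) (𝓝 0) := by
  have h := (tendsto_integral_exp_smul_cocompact (f := φ) (volume : Measure (Fin m → ℝ))).comp
    (tendsto_pairMap (m := m))
  refine h.congr (fun u => ?_)
  simp only [Function.comp_apply, synth]
  congr 1
  ext ξ
  rw [pairMap_apply, neg_neg, Circle.smul_def, Real.fourierChar_apply, smul_eq_mul, mul_comm]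
  congr 1
  unfold ee
  congr 1
  push_cast
  ring

lemma tendsto_kap0 (ρ : ℝ) (hρ : 0 < ρ) :
    Tendsto (kap0 m ρ hρ) (cocompact (Fin m → ℝ)) (𝓝 0) := by
  have h := tendsto_synth (m := m) (φ := eta m ρ hρ)
  have h2 : kap0 m ρ hρ = fun u => (synth (eta m ρ hρ) u).re := by
    ext u
    rw [synth_eta, Complex.ofReal_re]
  rw [h2]
  have h3 := (Complex.continuous_re.tendsto 0).comp h
  rw [Complex.zero_re] at h3
  exact h3

/-- The nonnegative function `kap0 ^ 2`. -/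
noncomputable def kap (m : ℕ) (ρ : ℝ) (hρ : 0 < ρ) (u : Fin m → ℝ) : ℝ := kap0 m ρ hρ u ^ 2

lemma kap_nonneg (ρ : ℝ) (hρ : 0 < ρ) (u : Fin m → ℝ) : 0 ≤ kap m ρ hρ u := sq_nonneg _

lemma kap_le_one (ρ : ℝ) (hρ : 0 < ρ) (u : Fin m → ℝ) : kap m ρ hρ u ≤ 1 := by
  have h := abs_kap0_le_one (m := m) ρ hρ u
  unfold kap
  rw [← sq_abs]
  exact pow_le_one₀ (abs_nonneg _) h

lemma continuous_kap (ρ : ℝ) (hρ : 0 < ρ) : Continuous (kap m ρ hρ) :=
  (continuous_kap0 ρ hρ).pow 2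

lemma tendsto_kap (ρ : ℝ) (hρ : 0 < ρ) : Tendsto (kap m ρ hρ) (cocompact (Fin m → ℝ)) (𝓝 0) := by
  have h := (tendsto_kap0 (m := m) ρ hρ).pow 2
  rw [zero_pow two_ne_zero] at h
  exact h

lemma kap_ge (ρ : ℝ) (hρ : 0 < ρ) (u : Fin m → ℝ) :
    1 - 4 * π * m * (ρ * ‖u‖) ≤ kap m ρ hρ u := by
  have h := abs_kap0_sub_one_le (m := m) ρ hρ u
  have h1 := abs_kap0_le_one (m := m) ρ hρ u
  unfold kap
  rw [abs_le] at h h1
  nlinarith [sq_nonneg (kap0 m ρ hρ u - 1)]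

lemma exists_band_kap (ρ : ℝ) (hρ : 0 < ρ) : ∃ φ : (Fin m → ℝ) → ℂ,
    IsBand (Metric.closedBall 0 (2 * ρ)) φ ∧ ∀ u, synth φ u = (kap m ρ hρ u : ℂ) := by
  have hB := isBand_eta (m := m) ρ hρ
  refine ⟨conv (eta m ρ hρ) (eta m ρ hρ), ?_, ?_⟩
  · have := hB.conv hB
    rwa [← two_mul] at this
  · intro u
    rw [synth_conv hB.integrable hB.integrable, synth_eta, kap]
    push_cast
    ring

lemma exists_band_ee_kap_sq (ρ : ℝ) (hρ : 0 < ρ) (ξ₀ : Fin m → ℝ) :
    ∃ φ : (Fin m → ℝ) → ℂ, IsBand (Metric.closedBall ξ₀ (4 * ρ)) φ ∧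
      ∀ u, synth φ u = ee ξ₀ u * ((kap m ρ hρ u) ^ 2 : ℝ) := by
  obtain ⟨φ, hφ, h2⟩ := exists_band_kap (m := m) ρ hρ
  have h4 := hφ.conv hφ
  refine ⟨fun ξ => conv φ φ (ξ - ξ₀), ?_, ?_⟩
  · have := h4.shift ξ₀
    rwa [show 2 * ρ + 2 * ρ = 4 * ρ by ring] at this
  · intro u
    rw [synth_sub, synth_conv hφ.integrable hφ.integrable, h2]
    push_cast
    ring

end Pool.Agent.MP_67227b_nt
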