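import Pool.Agent.MP_67227b_nt.Family

set_option autoImplicit false

open Filter MeasureTheory Topology Set
open scoped Real

namespace Pool.Agent.MP_67227b_nt

variable {J : Type*} {γ : J → ℝ}

/-- One-sided local counts. -/
noncomputable def ZT (h : GoodFamily γ) (t : ℝ) (T : ℝ) (j : J) : ℝ :=
  (Z (PT h T) (xT γ T) j 0 t : ℝ)

/-- Truncated local counts. -/
noncomputable def XT (h : GoodFamily γ) (m : ℕ) (t : ℝ) (T : ℝ) (j : J) : ℝ :=
  ((Z (PT h T) (xT γ T) j 0 t + 1 - m : ℕ) : ℝ)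

lemma XT_nonneg (h : GoodFamily γ) (m : ℕ) (t : ℝ) (T : ℝ) (j : J) : 0 ≤ XT h m t T j :=
  Nat.cast_nonneg _

lemma XT_pow_le (h : GoodFamily γ) (m : ℕ) (t : ℝ) (T : ℝ) (j : J) :
    XT h m t T j ^ m ≤ (R (PT h T) (xT γ T) m j (fun _ => 0) (fun _ => t) : ℝ) := by
  rw [R_const, XT]
  exact_mod_cast Nat.pow_sub_le_descFactorial _ _

lemma ZT_le_XT (h : GoodFamily γ) (k : ℕ) (t : ℝ) (T : ℝ) (j : J) :
    ZT h t T j ≤ XT h (k + 1) t T j + k := by
  rw [ZT, XT]
  have : Z (PT h T) (xT γ T) j 0 t ≤ (Z (PT h T) (xT γ T) j 0 t + 1 - (k + 1)) + k := by omega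
  exact_mod_cast this

lemma XT_le_ZT (h : GoodFamily γ) (k : ℕ) (t : ℝ) (T : ℝ) (j : J) :
    XT h (k + 1) t T j ≤ ZT h t T j := by
  rw [ZT, XT]
  have : (Z (PT h T) (xT γ T) j 0 t + 1 - (k + 1)) ≤ Z (PT h T) (xT γ T) j 0 t := by omega
  exact_mod_cast this

lemma UB_X_pow (h : GoodFamily γ) {k : ℕ} (hU : CorrelationUpper γ (k + 1)) :
    ∃ C : ℝ, 0 ≤ C ∧ ∀ t : ℝ, 1 ≤ t →
      UB (Av h (fun T j => XT h (k + 1) t T j ^ (k + 1))) (t ^ (k + 1) + C * t ^ k) := by
  obtain ⟨C, hC, hb⟩ := exists_cube_bound k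
  refine ⟨C, hC, fun t ht => ?_⟩
  have hle : (fun _ => 0 : Fin (k + 1) → ℝ) ≤ fun _ => t := fun _ => by
    simp only
    linarith
  refine (Av_R_UB h hU hle).mono ?_ (hb t ht)
  filter_upwards [eventually_gt_atTop (1 : ℝ)] with T hT
  apply Av_mono h hT
  intro j _
  exact XT_pow_le h (k + 1) t T j

/-- The tangent line inequality. -/
lemma tangent_line {k : ℕ} {X t : ℝ} (hX : 0 ≤ X) (ht : 0 < t) :
    (k + 1) * t ^ k * X ≤ X ^ (k + 1) + k * t ^ (k + 1) := by
  have h := one_add_mul_le_pow (a := X / t - 1) (by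
    have : 0 ≤ X / t := by positivity
    linarith) (k + 1)
  have e : (1 : ℝ) + (X / t - 1) = X / t := by ring
  rw [e, div_pow] at h
  have h2 : (1 + ((k + 1 : ℕ) : ℝ) * (X / t - 1)) * t ^ (k + 1) ≤
      X ^ (k + 1) / t ^ (k + 1) * t ^ (k + 1) := by gcongr
  rw [div_mul_cancel₀ _ (by positivity)] at h2
  have e2 : (1 + ((k + 1 : ℕ) : ℝ) * (X / t - 1)) * t ^ (k + 1) =
      (k + 1) * t ^ k * X - k * t ^ (k + 1) := by
    push_cast
    field_simp
    ring
  linarith

lemma UB_ZT (h : GoodFamily γ) {k : ℕ} (hU : CorrelationUpper γ (k + 1)) :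
    ∃ C : ℝ, 0 ≤ C ∧ ∀ t : ℝ, 1 ≤ t → UB (Av h (ZT h t)) (t + C) := by
  obtain ⟨C, hC, hX⟩ := UB_X_pow h hU
  refine ⟨C + k, by positivity, fun t ht => ?_⟩
  have ht0 : 0 < t := by linarith
  have h1 := (hX t ht).const_mul (a := 1 / ((k + 1) * t ^ k)) (by positivity)
  have h2 := (UB_of_tendsto (tendsto_Av_one h)).const_mul (a := k * t / (k + 1) + k)
    (by positivity)
  refine (h1.add h2).mono ?_ ?_
  · filter_upwards [eventually_gt_atTop (1 : ℝ)] with T hT
    rw [← Av_const_mul, ← Av_const_mul, ← Av_add]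
    apply Av_mono h hT
    intro j _
    refine (ZT_le_XT h k t T j).trans ?_
    have h3 := tangent_line (k := k) (XT_nonneg h (k + 1) t T j) ht0
    have h4 : XT h (k + 1) t T j ≤
        1 / ((k + 1) * t ^ k) * (XT h (k + 1) t T j ^ (k + 1) + k * t ^ (k + 1)) := by
      rw [one_div_mul_eq_div, le_div_iff₀ (by positivity)]
      linarith
    have e : 1 / ((k + 1) * t ^ k) * (XT h (k + 1) t T j ^ (k + 1) + k * t ^ (k + 1)) =
        1 / ((k + 1) * t ^ k) * XT h (k + 1) t T j ^ (k + 1) + k * t / (k + 1) := by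
      field_simp
      ring
    linarith
  · have e : 1 / ((k + 1) * t ^ k) * (t ^ (k + 1) + C * t ^ k) + (k * t / (k + 1) + k) * 1 =
        t + C / (k + 1) + k := by
      field_simp
      ring
    rw [e]
    have : C / (k + 1) ≤ C := div_le_self hC (by
      have : (0 : ℝ) ≤ k := Nat.cast_nonneg k
      linarith)
    linarith

lemma ZT_mono (h : GoodFamily γ) {s t : ℝ} (hst : s ≤ t) (T : ℝ) (j : J) :
    ZT h s T j ≤ ZT h t T j := by
  rw [ZT, ZT]
  exact_mod_cast Z_mono le_rfl hst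

lemma LB_ZT (h : GoodFamily γ) {C : ℝ} (hC : 0 ≤ C)
    (hUB : ∀ t : ℝ, 1 ≤ t → UB (Av h (ZT h t)) (t + C)) {p : ℕ} (hp : 0 < p) {V : ℝ}
    (hV : (p : ℝ) ^ 2 ≤ V) :
    LB (Av h (ZT h V)) (V * (1 - 1 / p) - p * (1 / 2 + C)) := by
  have hp' : (1 : ℝ) ≤ p := by exact_mod_cast hp
  have hp0 : (0 : ℝ) < p := by linarith
  have hV0 : 0 < V := by nlinarith
  set n : ℕ := p ^ 2 with hn
  have hnpos : 0 < n := by positivity
  have hn' : (0 : ℝ) < n := by exact_mod_cast hnpos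
  have hnp : (n : ℝ) = (p : ℝ) ^ 2 := by rw [hn]; push_cast; ring
  have hpn : p ≤ n := by rw [hn]; nlinarith
  have hW := window_LB' h hV0 hnpos
  have hS : UB (fun T => ∑ l ∈ Finset.range (n - p), Av h (ZT h ((l + 1) * V / n)) T)
      (∑ l ∈ Finset.range (n - p), ((l + 1) * V / n + C)) := by
    apply UB.sum
    intro l _
    apply hUB
    rw [le_div_iff₀ hn', one_mul]
    have : (0 : ℝ) ≤ l := Nat.cast_nonneg l
    nlinarith
  have h1 := ((hW.const_mul (a := (n : ℝ) / 2) (by positivity)).sub hS).const_mul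
    (a := 1 / (p : ℝ)) (by positivity)
  refine h1.mono ?_ ?_
  · filter_upwards [eventually_gt_atTop (1 : ℝ)] with T hT
    have hsplit : ∑ l ∈ Finset.range n, Av h (ZT h ((l + 1) * V / n)) T ≤
        ∑ l ∈ Finset.range (n - p), Av h (ZT h ((l + 1) * V / n)) T + p * Av h (ZT h V) T := by
      rw [← Finset.sum_range_add_sum_Ico _ (Nat.sub_le n p)]
      gcongr
      calc ∑ l ∈ Finset.Ico (n - p) n, Av h (ZT h ((l + 1) * V / n)) T ≤
          ∑ l ∈ Finset.Ico (n - p) n, Av h (ZT h V) T := by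
            apply Finset.sum_le_sum
            intro l hl
            rw [Finset.mem_Ico] at hl
            apply Av_mono h hT
            intro j _
            apply ZT_mono
            rw [div_le_iff₀ hn']
            have : (l : ℝ) + 1 ≤ n := by exact_mod_cast hl.2
            nlinarith
        _ = p * Av h (ZT h V) T := by
            rw [Finset.sum_const, Nat.card_Ico, Nat.sub_sub_self hpn, nsmul_eq_mul]
    have e : (n : ℝ) / 2 * (2 / n * ∑ l ∈ Finset.range n,
        Av h (fun T j => (Z (PT h T) (xT γ T) j 0 ((l + 1) * V / n) : ℝ)) T) =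
        ∑ l ∈ Finset.range n, Av h (ZT h ((l + 1) * V / n)) T := by
      rw [← mul_assoc, div_mul_div_cancel₀ two_ne_zero, div_self hn'.ne', one_mul]
      rfl
    rw [e, one_div_mul_eq_div, div_le_iff₀ hp0]
    linarith
  · have hgauss : ∀ N : ℕ, ∑ l ∈ Finset.range N, ((l + 1) * V / n + C) =
        V / n * (N * (N + 1) / 2) + N * C := by
      intro N
      induction N with
      | zero => simp
      | succ N ih =>
        rw [Finset.sum_range_succ, ih]
        push_cast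
        field_simp
        ring
    rw [hgauss, Nat.cast_sub hpn, hnp]
    rw [one_div_mul_eq_div, le_div_iff₀ hp0]
    have e1 : V / (p : ℝ) ^ 2 * (((p : ℝ) ^ 2 - p) * ((p : ℝ) ^ 2 - p + 1) / 2) =
        V / 2 * ((p : ℝ) ^ 2 - 2 * p + 2 - 1 / p) := by
      field_simp
      ring
    rw [e1]
    have e2 : (V * (1 - 1 / p) - p * (1 / 2 + C)) * p = V * p - V - p ^ 2 / 2 - p ^ 2 * C := by
      field_simp
      ring
    rw [e2]
    have h5 : 0 ≤ V / 2 * (1 / p) := by positivity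
    have h6 : 0 ≤ p * C := by positivity
    nlinarith

/-- `|z-1|^m ≤ z^m - 1 - m (z-1)` for `z ≥ 0` and `m ≥ 2`. -/
lemma abs_sub_one_pow_le {z : ℝ} (hz : 0 ≤ z) (m : ℕ) :
    |z - 1| ^ (m + 2) ≤ z ^ (m + 2) - 1 - (m + 2) * (z - 1) := by
  induction m with
  | zero =>
    simp only [zero_add, sq_abs]
    push_cast
    nlinarith
  | succ m ih =>
    have e : z ^ (m + 1 + 2) - 1 - ((m + 1 : ℕ) + 2) * (z - 1) =
        z * (z ^ (m + 2) - 1 - (m + 2) * (z - 1)) + (m + 2) * (z - 1) ^ 2 := by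
      push_cast
      ring
    rw [e]
    have h1 : z * |z - 1| ^ (m + 2) ≤ z * (z ^ (m + 2) - 1 - (m + 2) * (z - 1)) := by gcongr
    refine le_trans ?_ (add_le_add_left h1 _)
    have hab : 0 ≤ |z - 1| := abs_nonneg _
    rcases le_total 1 z with h | h
    · have h2 : |z - 1| ≤ z := by rw [abs_of_nonneg (by linarith)]; linarith
      have h3 : |z - 1| ^ (m + 1 + 2) = |z - 1| * |z - 1| ^ (m + 2) := by ring
      rw [h3]
      have h4 : |z - 1| * |z - 1| ^ (m + 2) ≤ z * |z - 1| ^ (m + 2) := by gcongr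
      have h5 : 0 ≤ (m + 2 : ℝ) * (z - 1) ^ 2 := by positivity
      linarith
    · have h2 : |z - 1| ≤ 1 := by
        rw [abs_of_nonpos (by linarith)]
        linarith
      have h3 : |z - 1| ^ (m + 1 + 2) ≤ |z - 1| ^ 2 :=
        pow_le_pow_of_le_one hab h2 (by omega)
      rw [sq_abs] at h3
      have h4 : (z - 1) ^ 2 ≤ (m + 2 : ℝ) * (z - 1) ^ 2 := by
        have : (0 : ℝ) ≤ m := Nat.cast_nonneg m
        nlinarith [sq_nonneg (z - 1)]
      have h5 : 0 ≤ z * |z - 1| ^ (m + 2) := by positivity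
      linarith

/-- Law of large numbers for the local counts, at level at least `2`. -/
lemma lln (h : GoodFamily γ) {k : ℕ} (hU : CorrelationUpper γ (k + 2)) :
    ∀ ε : ℝ, 0 < ε → ∃ V₀ : ℝ, 0 < V₀ ∧ ∀ V : ℝ, V₀ ≤ V →
      UB (Av h (fun T j => |XT h (k + 2) V T j / V - 1| ^ (k + 2))) ε := by
  intro ε hε
  obtain ⟨C, hC, hX⟩ := UB_X_pow h (k := k + 1) hU
  obtain ⟨C1, hC1, hZ⟩ := UB_ZT h (k := k + 1) hU
  obtain ⟨p, hp⟩ := exists_nat_gt (2 * (k + 2) / ε)
  have hp0 : (0 : ℝ) < p := lt_of_le_of_lt (by positivity) hp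
  have hpn : 0 < p := by exact_mod_cast hp0
  have hpε : (k + 2 : ℝ) / p ≤ ε / 2 := by
    rw [div_lt_iff₀ hε] at hp
    rw [div_le_div_iff₀ hp0 two_pos]
    linarith
  set D : ℝ := C + (k + 2) * (p * (1 / 2 + C1) + (k + 1)) with hD
  have hD0 : 0 < D := by positivity
  refine ⟨max ((p : ℝ) ^ 2) (2 * D / ε) + 1, by positivity, fun V hV => ?_⟩
  have hV1 : (p : ℝ) ^ 2 ≤ V := by
    have := le_max_left ((p : ℝ) ^ 2) (2 * D / ε)
    linarith
  have hV2 : 2 * D / ε ≤ V := by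
    have := le_max_right ((p : ℝ) ^ 2) (2 * D / ε)
    linarith
  have hp1 : (1 : ℝ) ≤ p := by exact_mod_cast hpn
  have hVge1 : 1 ≤ V := by nlinarith
  have hV0 : 0 < V := by linarith
  have hDV : D / V ≤ ε / 2 := by
    rw [div_le_iff₀ hε] at hV2
    rw [div_le_div_iff₀ hV0 two_pos]
    linarith
  -- lower bound for the mean of X
  have hXlow : LB (Av h (XT h (k + 2) V))
      (V * (1 - 1 / p) - p * (1 / 2 + C1) - (k + 1)) := by
    have h1 := (LB_ZT h hC1 hZ hpn hV1).sub ((UB_of_tendsto (tendsto_Av_const h ((k : ℝ) + 1))))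
    refine h1.mono ?_ le_rfl
    filter_upwards [eventually_gt_atTop (1 : ℝ)] with T hT
    rw [sub_le_iff_le_add, ← Av_add]
    apply Av_mono h hT
    intro j _
    have := ZT_le_XT h (k + 1) V T j
    push_cast at this
    exact this
  have hXpow := hX V hVge1
  have h1 := ((hXpow.const_mul (a := 1 / V ^ (k + 2)) (by positivity)).add
    (UB_of_tendsto (tendsto_Av_const h ((k : ℝ) + 1)))).sub
    (hXlow.const_mul (a := (k + 2) / V) (by positivity))
  refine h1.mono ?_ ?_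
  · filter_upwards [eventually_gt_atTop (1 : ℝ)] with T hT
    rw [← Av_const_mul, ← Av_const_mul, ← Av_add, le_sub_iff_add_le, ← Av_add]
    apply Av_mono h hT
    intro j _
    have h2 := abs_sub_one_pow_le (z := XT h (k + 2) V T j / V)
      (div_nonneg (XT_nonneg _ _ _ _ _) hV0.le) k
    have e1 : (XT h (k + 2) V T j / V) ^ (k + 2) =
        1 / V ^ (k + 2) * XT h (k + 2) V T j ^ (k + 2) := by
      rw [div_pow]; ring
    have e2 : ((k : ℝ) + 2) * (XT h (k + 2) V T j / V - 1) =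
        (k + 2) / V * XT h (k + 2) V T j - (k + 2) := by ring
    rw [e1, e2] at h2
    linarith
  · have e : 1 / V ^ (k + 2) * (V ^ (k + 1 + 1) + C * V ^ (k + 1)) + (k + 1) -
        (k + 2) / V * (V * (1 - 1 / p) - p * (1 / 2 + C1) - (k + 1)) =
        (k + 2) / p + D / V := by
      rw [hD]
      field_simp
      ring
    rw [e]
    linarith

end Pool.Agent.MP_67227b_nt
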