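import Pool.Agent.MP_67227b_nt.Zeta

set_option autoImplicit false

open Pool.Agent.MP_67227b_nt

/-!
The `k`-level correlation conjecture for the zeros of the zeta function at one level implies the
conjecture at every lower level. The `(m+1)`-level conjecture is
`CorrelationConj zetaOrdinate m`; the boxes are subsets of `ℝ^m`, `m = k - 1`.
The proof does not use the Riemann Hypothesis; it uses `N(T) ~ (T / 2 pi) log T` (proved in
`Pool.Agent.Lib.ZetaCount_helper33`), a law of large numbers for the local counts and the decay of
the sine kernel.
-/

theorem Pool.Agent.Results.MP_67227b_nt.LevelDescent.result (l m : ℕ) (hl : 1 ≤ l) (hlm : l ≤ m)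
    (h : CorrelationConj zetaOrdinate m) : CorrelationConj zetaOrdinate l := by
  induction m, hlm using Nat.le_induction with
  | base => exact h
  | succ m hm ih =>
    apply ih
    obtain ⟨k, rfl⟩ : ∃ k, m = k + 1 := ⟨m - 1, by omega⟩
    exact descent goodFamily_zeta h
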