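import Pool.Agent.MP_67227b_nt.Vague67

set_option autoImplicit false
open Filter MeasureTheory Topology Set
open scoped Real CompactlySupported

namespace Pool.Agent.MP_67227b_nt

variable {m : ℕ}

/-- Convergence of the averages of all functions whose Fourier transform is smooth with compact
support in `Ω`. -/
def BandLim (ν : ℝ → Measure (Fin m → ℝ)) (w : (Fin m → ℝ) → ℝ) (Ω : Set (Fin m → ℝ))
    (F : Filter ℝ) : Prop :=
  ∀ φ : (Fin m → ℝ) → ℂ, IsBand Ω φ →
    Tendsto (fun T => ∫ u, synth φ u ∂(ν T)) F (𝓝 (∫ u, synth φ u * (w u : ℂ)))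

lemma BandLim.mono {ν : ℝ → Measure (Fin m → ℝ)} {w : (Fin m → ℝ) → ℝ} {Ω : Set (Fin m → ℝ)}
    {F F' : Filter ℝ} (h : BandLim ν w Ω F) (hF : F' ≤ F) : BandLim ν w Ω F' :=
  fun φ hφ => (h φ hφ).mono_left hF

lemma BandLim.tendsto_kap {ν : ℝ → Measure (Fin m → ℝ)} {w : (Fin m → ℝ) → ℝ}
    {Ω : Set (Fin m → ℝ)} {F : Filter ℝ} (h : BandLim ν w Ω F) {ρ : ℝ} (hρ : 0 < ρ)
    (hΩ : Metric.closedBall 0 (2 * ρ) ⊆ Ω) :
    Tendsto (fun T => ∫ u, kap m ρ hρ u ∂(ν T)) F (𝓝 (∫ u, kap m ρ hρ u * w u)) := by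
  obtain ⟨φ, hφ, h2⟩ := exists_band_kap (m := m) ρ hρ
  have h3 := h φ (hφ.mono hΩ)
  have h4 := (Complex.continuous_re.tendsto _).comp h3
  have e1 : ∀ T, (∫ u, synth φ u ∂(ν T)) = ((∫ u, kap m ρ hρ u ∂(ν T) : ℝ) : ℂ) := by
    intro T
    rw [← integral_complex_ofReal]
    congr 1
    ext u
    exact h2 u
  have e2 : (∫ u, synth φ u * (w u : ℂ)) = ((∫ u, kap m ρ hρ u * w u : ℝ) : ℂ) := by
    rw [← integral_complex_ofReal]
    congr 1
    ext u
    rw [h2 u]
    push_cast
    rfl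
  rw [e2, Complex.ofReal_re] at h4
  refine h4.congr (fun T => ?_)
  rw [Function.comp_apply, e1, Complex.ofReal_re]

/-- A small parameter for which `kap` is at least one half on a given ball. -/
lemma exists_small (m : ℕ) (R : ℝ) {ρ₀ : ℝ} (hρ₀ : 0 < ρ₀) : ∃ ρ : ℝ, ∃ hρ : 0 < ρ, ρ ≤ ρ₀ ∧
    ∀ u : Fin m → ℝ, ‖u‖ ≤ R → 1 / 2 ≤ kap m ρ hρ u := by
  set D : ℝ := 8 * π * (m + 1) * (|R| + 1) with hD
  have hDpos : 0 < D := by positivity
  have hρpos : 0 < min ρ₀ (1 / D) := lt_min hρ₀ (by positivity)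
  refine ⟨min ρ₀ (1 / D), hρpos, min_le_left _ _, fun u hu => ?_⟩
  have h1 := kap_ge (m := m) _ hρpos u
  have h2 : 4 * π * m * (min ρ₀ (1 / D) * ‖u‖) ≤ 1 / 2 := by
    calc 4 * π * m * (min ρ₀ (1 / D) * ‖u‖) ≤ 4 * π * (m + 1) * (1 / D * (|R| + 1)) := by
          have h3 : ‖u‖ ≤ |R| + 1 := by linarith [le_abs_self R]
          have h4 := min_le_right ρ₀ (1 / D)
          gcongr
          linarith
      _ = 1 / 2 := by
          rw [hD]
          field_simp
          norm_num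
  linarith

lemma BandLim.ball_bounded {ν : ℝ → Measure (Fin m → ℝ)} [∀ T, IsFiniteMeasure (ν T)]
    {w : (Fin m → ℝ) → ℝ}
    {Ω : Set (Fin m → ℝ)} {F : Filter ℝ} (h : BandLim ν w Ω F) {ε : ℝ} (hε : 0 < ε)
    (hΩ : Metric.ball 0 ε ⊆ Ω) (R : ℝ) :
    ∃ C : ℝ, ∀ᶠ T in F, (ν T).real (Metric.closedBall 0 R) ≤ C := by
  obtain ⟨ρ, hρ, h1, h2⟩ := exists_small m R (show 0 < ε / 4 by positivity)
  have h3 := h.tendsto_kap hρ ((Metric.closedBall_subset_ball (by linarith)).trans hΩ)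
  refine ⟨2 * (∫ u, kap m ρ hρ u * w u) + 2, ?_⟩
  filter_upwards [h3.eventually (gt_mem_nhds (lt_add_one _))] with T hT
  have h4 : (ν T).real (Metric.closedBall 0 R) ≤ 2 * ∫ u, kap m ρ hρ u ∂(ν T) := by
    rw [← integral_const_mul]
    calc (ν T).real (Metric.closedBall 0 R)
        = ∫ u, (Metric.closedBall (0 : Fin m → ℝ) R).indicator (fun _ => (1 : ℝ)) u ∂(ν T) := by
          rw [integral_indicator_const _ Metric.isClosed_closedBall.measurableSet, smul_eq_mul,
            mul_one]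
      _ ≤ ∫ u, 2 * kap m ρ hρ u ∂(ν T) := by
          apply integral_mono
          · exact (integrable_const 1).indicator Metric.isClosed_closedBall.measurableSet
          · apply Integrable.const_mul
            apply (integrable_const (1 : ℝ)).mono' (continuous_kap ρ hρ).aestronglyMeasurable
            filter_upwards with u
            rw [Real.norm_of_nonneg (kap_nonneg _ _ _)]
            exact kap_le_one _ _ _
          · intro u
            by_cases hu : u ∈ Metric.closedBall (0 : Fin m → ℝ) R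
            · rw [indicator_of_mem hu]
              rw [mem_closedBall_zero_iff] at hu
              have := h2 u hu
              dsimp only
              linarith
            · rw [indicator_of_notMem hu]
              have := kap_nonneg (m := m) ρ hρ u
              dsimp only
              linarith
  linarith

lemma integrable_kap_finite {ν : Measure (Fin m → ℝ)} [IsFiniteMeasure ν] (ρ : ℝ) (hρ : 0 < ρ) :
    Integrable (kap m ρ hρ) ν := by
  apply (integrable_const (1 : ℝ)).mono' (continuous_kap ρ hρ).aestronglyMeasurable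
  filter_upwards with u
  rw [Real.norm_of_nonneg (kap_nonneg _ _ _)]
  exact kap_le_one _ _ _

/-- `kap` is integrable for the limit measure. -/
lemma kap_limit {ν : ℝ → Measure (Fin m → ℝ)} [∀ T, IsFiniteMeasure (ν T)]
    {w : (Fin m → ℝ) → ℝ} {Ω : Set (Fin m → ℝ)} {F : Filter ℝ} [NeBot F] (h : BandLim ν w Ω F)
    {μ : Measure (Fin m → ℝ)} [IsLocallyFiniteMeasure μ] (hμ : VagueLim ν F μ)
    {ρ : ℝ} (hρ : 0 < ρ) (hΩ : Metric.closedBall 0 (2 * ρ) ⊆ Ω) :
    Integrable (kap m ρ hρ) μ ∧ ∫ u, kap m ρ hρ u ∂μ ≤ ∫ u, kap m ρ hρ u * w u := by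
  have hlim := h.tendsto_kap hρ hΩ
  have hkc := continuous_kap (m := m) ρ hρ
  have hcut : ∀ R : ℝ, ∫ u, kap m ρ hρ u * cut m R u ∂μ ≤ ∫ u, kap m ρ hρ u * w u := by
    intro R
    have h1 : Tendsto (fun T => ∫ u, kap m ρ hρ u * cut m R u ∂(ν T)) F
        (𝓝 (∫ u, kap m ρ hρ u * cut m R u ∂μ)) :=
      hμ _ (hkc.mul (continuous_cut R)) (hasCompactSupport_cut R).mul_left
    refine le_of_tendsto_of_tendsto h1 hlim (Eventually.of_forall fun T => ?_)
    apply integral_mono
    · exact integrable_Cc (hkc.mul (continuous_cut R)) (hasCompactSupport_cut R).mul_left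
    · exact integrable_kap_finite ρ hρ
    · intro u
      dsimp only
      have h2 := cut_le_one (m := m) R u
      have h3 := kap_nonneg (m := m) ρ hρ u
      nlinarith
  have hl : ∫⁻ u, ENNReal.ofReal (kap m ρ hρ u) ∂μ ≤
      ENNReal.ofReal (∫ u, kap m ρ hρ u * w u) := by
    have h1 : ∀ u : Fin m → ℝ, Tendsto (fun n : ℕ => ENNReal.ofReal (kap m ρ hρ u *
        cut m (n : ℝ) u)) atTop (𝓝 (ENNReal.ofReal (kap m ρ hρ u))) := by
      intro u
      apply tendsto_const_nhds.congr'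
      obtain ⟨N, hN⟩ := exists_nat_ge ‖u‖
      filter_upwards [eventually_ge_atTop N] with n hn
      rw [cut_eq_one (hN.trans (Nat.cast_le.mpr hn)), mul_one]
    have h2 := lintegral_tendsto_of_tendsto_of_monotone (μ := μ)
      (f := fun (n : ℕ) u => ENNReal.ofReal (kap m ρ hρ u * cut m (n : ℝ) u))
      (F := fun u => ENNReal.ofReal (kap m ρ hρ u))
      (fun n => ((hkc.mul (continuous_cut _)).measurable.ennreal_ofReal).aemeasurable)
      (by
        filter_upwards with u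
        intro n n' hn
        have h3 := cut_mono (m := m) (Nat.cast_le.mpr hn : (n : ℝ) ≤ n') u
        have h4 := kap_nonneg (m := m) ρ hρ u
        dsimp only
        gcongr)
      (by
        filter_upwards with u
        exact h1 u)
    refine le_of_tendsto h2 (Eventually.of_forall fun n => ?_)
    rw [← ofReal_integral_eq_lintegral_ofReal]
    · exact ENNReal.ofReal_le_ofReal (hcut n)
    · exact integrable_Cc (hkc.mul (continuous_cut _)) (hasCompactSupport_cut _).mul_left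
    · filter_upwards with u
      exact mul_nonneg (kap_nonneg _ _ _) (cut_nonneg _ _)
  have hint : Integrable (kap m ρ hρ) μ := by
    refine ⟨hkc.aestronglyMeasurable, ?_⟩
    rw [hasFiniteIntegral_iff_ofReal (Eventually.of_forall fun u => kap_nonneg _ _ _)]
    exact hl.trans_lt ENNReal.ofReal_lt_top
  refine ⟨hint, ?_⟩
  have h5 : ∀ R : ℝ, 0 ≤ ∫ u, kap m ρ hρ u * cut m R u ∂μ := fun R =>
    integral_nonneg fun u => mul_nonneg (kap_nonneg _ _ _) (cut_nonneg _ _)
  have h6 : 0 ≤ ∫ u, kap m ρ hρ u * w u := (h5 0).trans (hcut 0)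
  rw [integral_eq_lintegral_of_nonneg_ae (Eventually.of_forall fun u => kap_nonneg _ _ _)
    hkc.aestronglyMeasurable]
  exact ENNReal.toReal_le_of_le_ofReal h6 hl

/-- Functions dominated by `kap ^ 2` can be integrated in the limit. -/
lemma tendsto_dominated {ν : ℝ → Measure (Fin m → ℝ)} [∀ T, IsFiniteMeasure (ν T)]
    {w : (Fin m → ℝ) → ℝ} {Ω : Set (Fin m → ℝ)} {F : Filter ℝ} [NeBot F] (h : BandLim ν w Ω F)
    {μ : Measure (Fin m → ℝ)} [IsLocallyFiniteMeasure μ] (hμ : VagueLim ν F μ)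
    {ρ : ℝ} (hρ : 0 < ρ) (hΩ : Metric.closedBall 0 (2 * ρ) ⊆ Ω)
    {g : (Fin m → ℝ) → ℝ} (hg : Continuous g) {C : ℝ} (hC : 0 ≤ C)
    (hgC : ∀ u, |g u| ≤ C * kap m ρ hρ u ^ 2) :
    Tendsto (fun T => ∫ u, g u ∂(ν T)) F (𝓝 (∫ u, g u ∂μ)) := by
  obtain ⟨hki, hkle⟩ := kap_limit h hμ hρ hΩ
  set M : ℝ := ∫ u, kap m ρ hρ u * w u with hM
  have hM0 : 0 ≤ M := (integral_nonneg fun u => kap_nonneg (m := m) ρ hρ u).trans hkle
  have hlim := h.tendsto_kap hρ hΩ
  have hkc := continuous_kap (m := m) ρ hρ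
  rw [Metric.tendsto_nhds]
  intro δ hδ
  -- choose the cutoff
  obtain ⟨δ', hδ'⟩ : ∃ δ' : ℝ, δ' = δ / (4 * (C + 1) * (M + 1)) := ⟨_, rfl⟩
  have hδ'pos : 0 < δ' := by
    rw [hδ']
    positivity
  have hev : ∀ᶠ u in cocompact (Fin m → ℝ), kap m ρ hρ u < δ' :=
    (tendsto_kap ρ hρ).eventually (gt_mem_nhds hδ'pos)
  obtain ⟨R, hR⟩ : ∃ R : ℝ, ∀ u : Fin m → ℝ, R < ‖u‖ → kap m ρ hρ u < δ' := by
    obtain ⟨K, hK, hK2⟩ := mem_cocompact.mp hev
    obtain ⟨R, hR⟩ := hK.isBounded.subset_closedBall (0 : Fin m → ℝ)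
    refine ⟨R, fun u hu => hK2 (fun huK => ?_)⟩
    have := hR huK
    rw [mem_closedBall_zero_iff] at this
    linarith
  have hpt : ∀ u, |g u - g u * cut m R u| ≤ C * δ' * kap m ρ hρ u := by
    intro u
    have h0 := kap_nonneg (m := m) ρ hρ u
    by_cases hu : ‖u‖ ≤ R
    · rw [cut_eq_one hu, mul_one, sub_self, abs_zero]
      exact mul_nonneg (mul_nonneg hC hδ'pos.le) h0
    · have h1 := (hR u (not_le.mp hu)).le
      have h2 : |g u - g u * cut m R u| ≤ |g u| := by
        rw [← mul_one_sub, abs_mul]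
        have h3 := cut_nonneg (m := m) R u
        have h4 := cut_le_one (m := m) R u
        have h5 : |1 - cut m R u| ≤ 1 := by
          rw [abs_le]
          constructor <;> linarith
        exact mul_le_of_le_one_right (abs_nonneg _) h5
      calc |g u - g u * cut m R u| ≤ C * kap m ρ hρ u ^ 2 := h2.trans (hgC u)
        _ = C * kap m ρ hρ u * kap m ρ hρ u := by ring
        _ ≤ C * δ' * kap m ρ hρ u := by gcongr
  have hkey : ∀ (κ : Measure (Fin m → ℝ)) [IsLocallyFiniteMeasure κ],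
      Integrable (kap m ρ hρ) κ →
      |∫ u, g u ∂κ - ∫ u, g u * cut m R u ∂κ| ≤ C * δ' * ∫ u, kap m ρ hρ u ∂κ := by
    intro κ _ hκ
    have hgi : Integrable g κ := by
      apply (hκ.const_mul C).mono' hg.aestronglyMeasurable
      filter_upwards with u
      rw [Real.norm_eq_abs]
      refine (hgC u).trans ?_
      have h0 := kap_nonneg (m := m) ρ hρ u
      have h1 := kap_le_one (m := m) ρ hρ u
      have : kap m ρ hρ u ^ 2 ≤ kap m ρ hρ u := by nlinarith
      gcongr
    have hgc : Integrable (fun u => g u * cut m R u) κ :=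
      integrable_Cc (hg.mul (continuous_cut R)) (hasCompactSupport_cut R).mul_left
    rw [← integral_sub hgi hgc, ← integral_const_mul]
    refine (abs_integral_le_integral_abs).trans ?_
    apply integral_mono (hgi.sub hgc).abs (hκ.const_mul _)
    intro u
    exact hpt u
  have h1 : Tendsto (fun T => ∫ u, g u * cut m R u ∂(ν T)) F
      (𝓝 (∫ u, g u * cut m R u ∂μ)) :=
    hμ _ (hg.mul (continuous_cut R)) (hasCompactSupport_cut R).mul_left
  filter_upwards [Metric.tendsto_nhds.mp h1 (δ / 4) (by positivity),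
    hlim.eventually (gt_mem_nhds (lt_add_one _))] with T hT1 hT2
  rw [Real.dist_eq] at hT1 ⊢
  have h2 := hkey (ν T) (integrable_kap_finite ρ hρ)
  have h3 := hkey μ hki
  have h4 : C * δ' * (M + 1) ≤ δ / 4 := by
    rw [hδ']
    have : C * (δ / (4 * (C + 1) * (M + 1))) * (M + 1) = (C / (C + 1)) * (δ / 4) := by
      field_simp
    rw [this]
    have h5 : C / (C + 1) ≤ 1 := by
      rw [div_le_one (by positivity)]
      linarith
    nlinarith
  have h5 : C * δ' * ∫ u, kap m ρ hρ u ∂(ν T) ≤ δ / 4 := by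
    refine le_trans ?_ h4
    gcongr
  have h6 : C * δ' * ∫ u, kap m ρ hρ u ∂μ ≤ δ / 4 := by
    refine le_trans ?_ h4
    gcongr
    linarith
  rw [abs_le] at h2 h3
  rw [abs_lt] at hT1 ⊢
  constructor <;> linarith [h2.1, h2.2, h3.1, h3.2, hT1.1, hT1.2]

end Pool.Agent.MP_67227b_nt
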