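import Pool.Agent.MP_67227b_nt.Prod45
import Pool.Agent.MP_67227b_nt.Pair35

set_option autoImplicit false

open Filter MeasureTheory Topology Set
open scoped Real Nat

namespace Pool.Agent.MP_67227b_nt

/-- The upper bound half of the `(m+1)`-level correlation conjecture with a multiplicative loss
`C`, for all boxes. -/
def CorrelationUpperLoss {J : Type*} (γ : J → ℝ) (C : ℝ) (m : ℕ) : Prop :=
  ∀ a b : Fin m → ℝ, a ≤ b → ∀ ε : ℝ, 0 < ε →
    ∀ᶠ T : ℝ in atTop, (tupleCount γ m T a b : ℝ) / zeroScale T ≤ C * boxIntegral m a b + ε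

/-- For every base `c > 1` there are arbitrarily large `m` for which the upper bound holds with
the loss `c ^ m`. -/
def SubexpUpper {J : Type*} (γ : J → ℝ) : Prop :=
  ∀ c : ℝ, 1 < c → ∀ M : ℕ, ∃ m : ℕ, M ≤ m ∧ CorrelationUpperLoss γ (c ^ m) m

variable {J : Type*} {γ : J → ℝ}

lemma CorrelationUpperLoss.mono {C C' : ℝ} {m : ℕ} (h : CorrelationUpperLoss γ C m)
    (hC : C ≤ C') : CorrelationUpperLoss γ C' m := by
  intro a b hab ε hε
  filter_upwards [h a b hab ε hε] with T hT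
  have := mul_le_mul_of_nonneg_right hC (boxIntegral_nonneg a b)
  linarith

lemma Av_R_UB_loss (h : GoodFamily γ) {C : ℝ} {m : ℕ} (hU : CorrelationUpperLoss γ C m)
    {a b : Fin m → ℝ} (hab : a ≤ b) :
    UB (Av h (fun T j => (R (PT h T) (xT γ T) m j a b : ℝ))) (C * boxIntegral m a b) := by
  intro ε hε
  filter_upwards [hU a b hab ε hε] with T hT
  rwa [tupleCount_div h] at hT

lemma add_one_pow_le (z p m : ℕ) (hpm : p ≤ m) :
    ((z : ℝ) + 1) ^ p ≤ 2 ^ m * (z.descFactorial m : ℝ) + 2 ^ m * (m : ℝ) ^ m := by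
  have h0 : (1 : ℝ) ≤ (z : ℝ) + 1 := by
    have : (0 : ℝ) ≤ z := Nat.cast_nonneg z
    linarith
  have h1 : ((z : ℝ) + 1) ^ p ≤ ((z : ℝ) + 1) ^ m := pow_le_pow_right₀ h0 hpm
  have h2 : (z : ℝ) + 1 ≤ ((z + 1 - m : ℕ) : ℝ) + m := by
    have : z + 1 ≤ (z + 1 - m) + m := by omega
    exact_mod_cast this
  have h3 : ((z : ℝ) + 1) ^ m ≤ (((z + 1 - m : ℕ) : ℝ) + m) ^ m := by gcongr
  have h4 := add_pow_le (a := ((z + 1 - m : ℕ) : ℝ)) (b := (m : ℝ)) (by positivity)
    (by positivity) m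
  have h5 : (((z + 1 - m : ℕ) : ℝ)) ^ m ≤ (z.descFactorial m : ℝ) := by
    exact_mod_cast Nat.pow_sub_le_descFactorial z m
  have h6 : (2 : ℝ) ^ (m - 1) ≤ 2 ^ m := pow_le_pow_right₀ (by norm_num) (by omega)
  have h7 : 0 ≤ (((z + 1 - m : ℕ) : ℝ)) ^ m + (m : ℝ) ^ m := by positivity
  calc ((z : ℝ) + 1) ^ p ≤ 2 ^ (m - 1) * ((((z + 1 - m : ℕ) : ℝ)) ^ m + (m : ℝ) ^ m) := by
        linarith
    _ ≤ 2 ^ m * ((((z + 1 - m : ℕ) : ℝ)) ^ m + (m : ℝ) ^ m) := by gcongr
    _ ≤ 2 ^ m * ((z.descFactorial m : ℝ) + (m : ℝ) ^ m) := by gcongr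
    _ = _ := by ring

/-- Moments of the counts in windows are bounded, uniformly in the position of the window. -/
lemma UB_Zst_pow (h : GoodFamily γ) (hS : SubexpUpper γ) (p : ℕ) (w : ℝ) :
    ∃ C : ℝ, 0 ≤ C ∧ ∀ s t : ℝ, s ≤ t → t - s ≤ w →
      UB (Av h (fun T j => (Zst h s t T j + 1) ^ p)) C := by
  obtain ⟨m, hpm, hU⟩ := hS 2 (by norm_num) p
  refine ⟨2 ^ m * (2 ^ m * |w| ^ m) + 2 ^ m * (m : ℝ) ^ m, by positivity, fun s t hst hw => ?_⟩
  have hle : (fun _ => s : Fin m → ℝ) ≤ fun _ => t := fun _ => hst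
  have h1 := (Av_R_UB_loss h hU hle).const_mul (a := 2 ^ m) (by positivity)
  have h2 := UB_of_tendsto (tendsto_Av_const h ((2 : ℝ) ^ m * (m : ℝ) ^ m))
  refine (h1.add h2).mono ?_ ?_
  · filter_upwards [eventually_gt_atTop (1 : ℝ)] with T hT
    rw [← Av_const_mul, ← Av_add]
    apply Av_mono h hT
    intro j _
    rw [R_const]
    exact add_one_pow_le _ p m hpm
  · have h3 := boxIntegral_le_boxVol (fun _ => s : Fin m → ℝ) (fun _ => t)
    rw [boxVol_const m hst] at h3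
    have h4 : (t - s) ^ m ≤ |w| ^ m := by
      apply pow_le_pow_left₀ (by linarith)
      exact hw.trans (le_abs_self w)
    have h5 := h3.trans h4
    gcongr

section LLNLoss

lemma UB_X_pow_loss (h : GoodFamily γ) {c : ℝ} (hc : 0 ≤ c) {m : ℕ}
    (hU : CorrelationUpperLoss γ (c ^ m) m) {t : ℝ} (ht : 0 ≤ t) :
    UB (Av h (fun T j => XT h m t T j ^ m)) ((c * t) ^ m) := by
  have hle : (fun _ => 0 : Fin m → ℝ) ≤ fun _ => t := fun _ => ht
  refine (Av_R_UB_loss h hU hle).mono ?_ ?_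
  · filter_upwards [eventually_gt_atTop (1 : ℝ)] with T hT
    apply Av_mono h hT
    intro j _
    exact XT_pow_le h m t T j
  · have h3 := boxIntegral_le_boxVol (fun _ => 0 : Fin m → ℝ) (fun _ => t)
    rw [boxVol_const m ht, sub_zero] at h3
    rw [mul_pow]
    gcongr

lemma UB_ZT_loss (h : GoodFamily γ) {c : ℝ} (hc : 1 ≤ c) {k : ℕ}
    (hU : CorrelationUpperLoss γ (c ^ (k + 1)) (k + 1)) {t : ℝ} (ht : 0 < t) :
    UB (Av h (ZT h t)) (c * t + k) := by
  have hct : 0 < c * t := by positivity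
  have h1 := (UB_X_pow_loss h (by linarith) hU ht.le).const_mul
    (a := 1 / ((k + 1) * (c * t) ^ k)) (by positivity)
  have h2 := (UB_of_tendsto (tendsto_Av_one h)).const_mul (a := k * (c * t) / (k + 1) + k)
    (by positivity)
  refine (h1.add h2).mono ?_ ?_
  · filter_upwards [eventually_gt_atTop (1 : ℝ)] with T hT
    rw [← Av_const_mul, ← Av_const_mul, ← Av_add]
    apply Av_mono h hT
    intro j _
    refine (ZT_le_XT h k t T j).trans ?_
    have h3 := tangent_line (k := k) (XT_nonneg h (k + 1) t T j) hct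
    have h4 : XT h (k + 1) t T j ≤
        1 / ((k + 1) * (c * t) ^ k) * (XT h (k + 1) t T j ^ (k + 1) + k * (c * t) ^ (k + 1)) := by
      rw [one_div_mul_eq_div, le_div_iff₀ (by positivity)]
      linarith
    have e : 1 / ((k + 1) * (c * t) ^ k) *
        (XT h (k + 1) t T j ^ (k + 1) + k * (c * t) ^ (k + 1)) =
        1 / ((k + 1) * (c * t) ^ k) * XT h (k + 1) t T j ^ (k + 1) + k * (c * t) / (k + 1) := by
      field_simp
      ring
    linarith
  · have e : 1 / ((k + 1) * (c * t) ^ k) * (c * t) ^ (k + 1) + (k * (c * t) / (k + 1) + k) * 1 =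
        c * t + k := by
      field_simp
      ring
    rw [e]

lemma LB_ZT_loss (h : GoodFamily γ) {c C : ℝ} (hc : 1 ≤ c) (hC : 0 ≤ C)
    (hUB : ∀ t : ℝ, 0 < t → UB (Av h (ZT h t)) (c * t + C)) {p : ℕ} (hp : 0 < p) {V : ℝ}
    (hV0 : 0 < V) :
    LB (Av h (ZT h V)) (V * (1 - 1 / p - (c - 1) * p / 2) - p * (1 / 2 + C)) := by
  have hp' : (1 : ℝ) ≤ p := by exact_mod_cast hp
  have hp0 : (0 : ℝ) < p := by linarith
  set n : ℕ := p ^ 2 with hn
  have hnpos : 0 < n := by positivity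
  have hn' : (0 : ℝ) < n := by exact_mod_cast hnpos
  have hnp : (n : ℝ) = (p : ℝ) ^ 2 := by rw [hn]; push_cast; ring
  have hpn : p ≤ n := by rw [hn]; nlinarith
  have hW := window_LB' h hV0 hnpos
  have hS : UB (fun T => ∑ l ∈ Finset.range (n - p), Av h (ZT h ((l + 1) * V / n)) T)
      (∑ l ∈ Finset.range (n - p), (c * ((l + 1) * V / n) + C)) := by
    apply UB.sum
    intro l _
    apply hUB
    positivity
  have h1 := ((hW.const_mul (a := (n : ℝ) / 2) (by positivity)).sub hS).const_mul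
    (a := 1 / (p : ℝ)) (by positivity)
  refine h1.mono ?_ ?_
  · filter_upwards [eventually_gt_atTop (1 : ℝ)] with T hT
    have hsplit : ∑ l ∈ Finset.range n, Av h (ZT h ((l + 1) * V / n)) T ≤
        ∑ l ∈ Finset.range (n - p), Av h (ZT h ((l + 1) * V / n)) T + p * Av h (ZT h V) T := by
      rw [← Finset.sum_range_add_sum_Ico _ (Nat.sub_le n p)]
      gcongr
      calc ∑ l ∈ Finset.Ico (n - p) n, Av h (ZT h ((l + 1) * V / n)) T ≤
          ∑ l ∈ Finset.Ico (n - p) n, Av h (ZT h V) T := by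
            apply Finset.sum_le_sum
            intro l hl
            rw [Finset.mem_Ico] at hl
            apply Av_mono h hT
            intro j _
            apply ZT_mono
            rw [div_le_iff₀ hn']
            have : (l : ℝ) + 1 ≤ n := by exact_mod_cast hl.2
            nlinarith
        _ = p * Av h (ZT h V) T := by
            rw [Finset.sum_const, Nat.card_Ico, Nat.sub_sub_self hpn, nsmul_eq_mul]
    have e : (n : ℝ) / 2 * (2 / n * ∑ l ∈ Finset.range n,
        Av h (fun T j => (Z (PT h T) (xT γ T) j 0 ((l + 1) * V / n) : ℝ)) T) =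
        ∑ l ∈ Finset.range n, Av h (ZT h ((l + 1) * V / n)) T := by
      rw [← mul_assoc, div_mul_div_cancel₀ two_ne_zero, div_self hn'.ne', one_mul]
      rfl
    rw [e, one_div_mul_eq_div, div_le_iff₀ hp0]
    linarith
  · have hgauss : ∀ N : ℕ, ∑ l ∈ Finset.range N, (c * ((l + 1) * V / n) + C) =
        c * (V / n * (N * (N + 1) / 2)) + N * C := by
      intro N
      induction N with
      | zero => simp
      | succ N ih =>
        rw [Finset.sum_range_succ, ih]
        push_cast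
        field_simp
        ring
    rw [hgauss, Nat.cast_sub hpn, hnp]
    rw [one_div_mul_eq_div, le_div_iff₀ hp0]
    have e1 : V / (p : ℝ) ^ 2 * (((p : ℝ) ^ 2 - p) * ((p : ℝ) ^ 2 - p + 1) / 2) =
        V / 2 * ((p : ℝ) ^ 2 - 2 * p + 2 - 1 / p) := by
      field_simp
      ring
    rw [e1]
    have e2 : (V * (1 - 1 / p - (c - 1) * p / 2) - p * (1 / 2 + C)) * p =
        V * p - V - V * (c - 1) * p ^ 2 / 2 - p ^ 2 / 2 - p ^ 2 * C := by
      field_simp
      ring
    rw [e2]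
    have h5 : 0 ≤ c * (V / 2 * (1 / p)) := by positivity
    have h6 : 0 ≤ p * C := by positivity
    have h7 : 0 ≤ (c - 1) * (V * (p - 1)) := by
      have : 0 ≤ c - 1 := by linarith
      have : 0 ≤ (p : ℝ) - 1 := by linarith
      positivity
    nlinarith

/-- A power inequality. -/
lemma mul_sq_le_pow (k : ℕ) {u : ℝ} (hu : 0 ≤ u) : (k + 2) * u ^ 2 ≤ 2 * u ^ (k + 2) + k := by
  induction k with
  | zero => simp
  | succ k ih =>
    have e : 2 * u ^ (k + 1 + 2) + ((k + 1 : ℕ) : ℝ) - (((k + 1 : ℕ) : ℝ) + 2) * u ^ 2 =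
        u * (2 * u ^ (k + 2) + k - (k + 2) * u ^ 2) +
          (u - 1) ^ 2 * ((k + 2) * u + (k + 1)) := by
      push_cast
      ring
    have h1 : 0 ≤ u * (2 * u ^ (k + 2) + k - (k + 2) * u ^ 2) :=
      mul_nonneg hu (by linarith)
    have h2 : 0 ≤ (u - 1) ^ 2 * (((k : ℝ) + 2) * u + (k + 1)) := by positivity
    linarith

lemma UB_X_sq_loss (h : GoodFamily γ) {c : ℝ} (hc : 1 ≤ c) {k : ℕ}
    (hU : CorrelationUpperLoss γ (c ^ (k + 2)) (k + 2)) {t : ℝ} (ht : 0 < t) :
    UB (Av h (fun T j => (XT h (k + 2) t T j / t) ^ 2)) (c ^ 2) := by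
  have hc0 : 0 < c := by linarith
  have hct : 0 < c * t := by positivity
  have h1 := (UB_X_pow_loss h hc0.le hU ht.le).const_mul
    (a := c ^ 2 * (2 / (k + 2)) / (c * t) ^ (k + 2)) (by positivity)
  have h2 := (UB_of_tendsto (tendsto_Av_one h)).const_mul (a := c ^ 2 * (k / (k + 2)))
    (by positivity)
  refine (h1.add h2).mono ?_ ?_
  · filter_upwards [eventually_gt_atTop (1 : ℝ)] with T hT
    rw [← Av_const_mul, ← Av_const_mul, ← Av_add]
    apply Av_mono h hT
    intro j _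
    set X := XT h (k + 2) t T j with hX
    have hX0 : 0 ≤ X := XT_nonneg h (k + 2) t T j
    have h3 := mul_sq_le_pow k (u := X / (c * t)) (by positivity)
    have h4 : (X / (c * t)) ^ 2 ≤ 2 / (k + 2) * (X / (c * t)) ^ (k + 2) + k / (k + 2) := by
      have e : 2 / (k + 2) * (X / (c * t)) ^ (k + 2) + k / (k + 2) =
          (2 * (X / (c * t)) ^ (k + 2) + k) / (k + 2) := by ring
      rw [e, le_div_iff₀ (by positivity)]
      linarith
    have h5 : c ^ 2 * (X / (c * t)) ^ 2 ≤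
        c ^ 2 * (2 / (k + 2) * (X / (c * t)) ^ (k + 2) + k / (k + 2)) := by gcongr
    have e1 : c ^ 2 * (X / (c * t)) ^ 2 = (X / t) ^ 2 := by
      field_simp
    have e2 : c ^ 2 * (2 / (k + 2) * (X / (c * t)) ^ (k + 2) + k / (k + 2)) =
        c ^ 2 * (2 / (k + 2)) / (c * t) ^ (k + 2) * X ^ (k + 2) + c ^ 2 * (k / (k + 2)) * 1 := by
      rw [div_pow]
      ring
    rw [e1, e2] at h5
    exact h5
  · have e : c ^ 2 * (2 / (k + 2)) / (c * t) ^ (k + 2) * (c * t) ^ (k + 2) +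
        c ^ 2 * (k / (k + 2)) * 1 = c ^ 2 := by
      field_simp
      ring
    rw [e]

/-- Law of large numbers in mean square. -/
lemma lln_loss (h : GoodFamily γ) (hS : SubexpUpper γ) :
    ∀ δ : ℝ, 0 < δ → ∃ V₀ : ℝ, 0 < V₀ ∧ ∀ V : ℝ, V₀ ≤ V →
      UB (Av h (fun T j => (ZT h V T j / V - 1) ^ 2)) δ := by
  intro δ hδ
  obtain ⟨p, hp⟩ := exists_nat_gt (16 / δ)
  have hp0 : (0 : ℝ) < p := lt_of_le_of_lt (by positivity) hp
  have hpn : 0 < p := by exact_mod_cast hp0
  have hpδ : 2 / (p : ℝ) ≤ δ / 8 := by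
    rw [div_lt_iff₀ hδ] at hp
    rw [div_le_div_iff₀ hp0 (by norm_num)]
    linarith
  set s : ℝ := min 1 (δ / (8 * (3 + p))) with hs
  have hs0 : 0 < s := by
    rw [hs]
    positivity
  have hs1 : s ≤ 1 := min_le_left _ _
  have hs2 : 3 * s + s * p ≤ δ / 8 := by
    have h1 : s ≤ δ / (8 * (3 + p)) := min_le_right _ _
    rw [le_div_iff₀ (by positivity)] at h1
    linarith
  set c : ℝ := 1 + s with hc
  have hc1 : 1 ≤ c := by linarith
  obtain ⟨m, hm, hU⟩ := hS c (by linarith) 2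
  obtain ⟨k, rfl⟩ : ∃ k, m = k + 2 := ⟨m - 2, by omega⟩
  set k' : ℝ := ((k + 1 : ℕ) : ℝ) with hk'
  have hk0 : 0 ≤ k' := Nat.cast_nonneg _
  have hZ : ∀ t : ℝ, 0 < t → UB (Av h (ZT h t)) (c * t + k') := fun t ht =>
    UB_ZT_loss h hc1 (k := k + 1) hU ht
  set D : ℝ := 2 * (p * (1 / 2 + k') + k') with hD
  have hD0 : 0 ≤ D := by positivity
  refine ⟨1 + 8 * D / δ + 8 * k' ^ 2 / δ, by positivity, fun V hV => ?_⟩
  have hDδ : 0 ≤ 8 * D / δ := by positivity
  have hkδ : 0 ≤ 8 * k' ^ 2 / δ := by positivity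
  have hV1 : 1 ≤ V := by linarith
  have hV0 : 0 < V := by linarith
  have hDV : D / V ≤ δ / 8 := by
    have : 8 * D / δ ≤ V := by linarith
    rw [div_le_iff₀ hδ] at this
    rw [div_le_div_iff₀ hV0 (by norm_num)]
    linarith
  have hkV : 2 * (k' / V) ^ 2 ≤ δ / 4 := by
    have h1 : 8 * k' ^ 2 / δ ≤ V := by linarith
    rw [div_le_iff₀ hδ] at h1
    have h2 : (k' / V) ^ 2 = k' ^ 2 / V ^ 2 := by rw [div_pow]
    rw [h2, ← mul_div_assoc, div_le_div_iff₀ (by positivity) (by norm_num)]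
    nlinarith
  -- lower bound for the mean of X
  have hXlow : LB (Av h (XT h (k + 2) V))
      (V * (1 - 1 / p - (c - 1) * p / 2) - p * (1 / 2 + k') - k') := by
    have h1 := (LB_ZT_loss h hc1 hk0 hZ hpn hV0).sub ((UB_of_tendsto (tendsto_Av_const h k')))
    refine h1.mono ?_ le_rfl
    filter_upwards [eventually_gt_atTop (1 : ℝ)] with T hT
    rw [sub_le_iff_le_add, ← Av_add]
    apply Av_mono h hT
    intro j _
    exact ZT_le_XT h (k + 1) V T j
  have hXsq := UB_X_sq_loss h hc1 hU hV0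
  have h1 := ((hXsq.const_mul (a := 2) (by positivity)).add
    ((UB_of_tendsto (tendsto_Av_one h)).const_mul (a := 2 + 2 * (k' / V) ^ 2)
      (by positivity))).sub (hXlow.const_mul (a := 4 / V) (by positivity))
  refine h1.mono ?_ ?_
  · filter_upwards [eventually_gt_atTop (1 : ℝ)] with T hT
    rw [← Av_const_mul, ← Av_const_mul, ← Av_const_mul, ← Av_add, le_sub_iff_add_le, ← Av_add]
    apply Av_mono h hT
    intro j _
    set X := XT h (k + 2) V T j with hX
    set Y := ZT h V T j with hY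
    have c3 : Y ≤ X + k' := ZT_le_XT h (k + 1) V T j
    have c4 : X ≤ Y := XT_le_ZT h (k + 1) V T j
    have h2 : (Y / V - 1) ^ 2 ≤ 2 * (X / V - 1) ^ 2 + 2 * (k' / V) ^ 2 := by
      have h3 : (Y / V - 1) = (X / V - 1) + (Y - X) / V := by ring
      have h4 : ((Y - X) / V) ^ 2 ≤ (k' / V) ^ 2 := by
        apply pow_le_pow_left₀
        · exact div_nonneg (by linarith) hV0.le
        · gcongr
          linarith
      rw [h3]
      nlinarith [sq_nonneg ((X / V - 1) - (Y - X) / V)]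
    have e1 : 2 * (X / V - 1) ^ 2 = 2 * (X / V) ^ 2 + 2 - 4 / V * X := by
      field_simp
      ring
    rw [e1] at h2
    linarith
  · have e : 2 * c ^ 2 + (2 + 2 * (k' / V) ^ 2) * 1 -
        4 / V * (V * (1 - 1 / p - (c - 1) * p / 2) - p * (1 / 2 + k') - k') =
        2 * (c ^ 2 - 1 + 2 / p + (c - 1) * p + D / V) + 2 * (k' / V) ^ 2 := by
      rw [hD]
      field_simp
      ring
    rw [e]
    have e2 : c ^ 2 - 1 ≤ 3 * s := by
      rw [hc]
      nlinarith
    have e3 : (c - 1) * p = s * p := by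
      rw [hc]
      ring
    rw [e3]
    linarith

end LLNLoss

/-- The average of a local statistic is at most the average of its product with the normalised
count in a long interval, up to a small error. -/
lemma key_le (h : GoodFamily γ) (hS : SubexpUpper γ) {l : ℕ} (a b : Fin l → ℝ) :
    ∀ ε : ℝ, 0 < ε → ∃ V₀ : ℝ, 0 < V₀ ∧ ∀ V : ℝ, V₀ ≤ V →
      UB (fun T => Av h (fun T j => (R (PT h T) (xT γ T) l j a b : ℝ)) T -
        (1 / V) * Av h (fun T j => (R (PT h T) (xT γ T) l j a b : ℝ) * ZT h V T j) T) ε := by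
  intro ε hε
  obtain ⟨CY, hCY, hY⟩ := UB_Zst_pow h hS (2 * l) (2 * boxRad a b)
  have hr := boxRad_nonneg a b
  have hY' := hY (-boxRad a b) (boxRad a b) (by linarith) (by linarith)
  set κ : ℝ := ε / (2 * (CY + 1)) with hκ
  have hκ0 : 0 < κ := by positivity
  set δ : ℝ := ε / 2 * κ with hδ
  have hδ0 : 0 < δ := by positivity
  obtain ⟨V1, hV1, hL⟩ := lln_loss h hS δ hδ0
  refine ⟨V1, hV1, fun V hV => ?_⟩
  have hV0 : 0 < V := by linarith
  have t1 := hY'.const_mul (a := κ) hκ0.le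
  have t2 := (hL V hV).const_mul (a := 1 / κ) (by positivity)
  refine (t1.add t2).mono ?_ ?_
  · filter_upwards [eventually_gt_atTop (1 : ℝ)] with T hT
    rw [← Av_const_mul, ← Av_const_mul, ← Av_const_mul, sub_le_iff_le_add, ← Av_add, ← Av_add]
    apply Av_mono h hT
    intro j _
    set r := boxRad a b with hr
    set Rj : ℝ := (R (PT h T) (xT γ T) l j a b : ℝ) with hRj
    have hR0 : 0 ≤ Rj := Nat.cast_nonneg _
    have hRY : Rj ≤ YT h r T j ^ l := R_le_YT h a b le_rfl T j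
    have hYZ : YT h r T j = Zst h (-r) r T j := rfl
    have hY0 : 0 ≤ YT h r T j := YT_nonneg h r T j
    have h2 : Rj ^ 2 ≤ (Zst h (-r) r T j + 1) ^ (2 * l) := by
      rw [← hYZ, mul_comm 2 l, pow_mul]
      apply pow_le_pow_left₀ hR0
      refine hRY.trans ?_
      gcongr
      linarith
    set z := ZT h V T j / V with hz
    have h3 : Rj * (1 - z) ≤ κ * Rj ^ 2 + 1 / κ * (z - 1) ^ 2 := by
      have e : κ * Rj ^ 2 + 1 / κ * (z - 1) ^ 2 - Rj * (1 - z) =
          κ * ((Rj - (1 - z) / (2 * κ)) ^ 2 + 3 / 4 * ((1 - z) / κ) ^ 2) := by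
        field_simp
        ring
      have h4 : 0 ≤ κ * ((Rj - (1 - z) / (2 * κ)) ^ 2 + 3 / 4 * ((1 - z) / κ) ^ 2) := by
        positivity
      linarith
    have h5 : κ * Rj ^ 2 ≤ κ * (Zst h (-r) r T j + 1) ^ (2 * l) := by gcongr
    have e6 : 1 / V * (Rj * ZT h V T j) = Rj * z := by
      rw [hz]
      ring
    rw [e6]
    linarith
  · have e1 : κ * CY ≤ ε / 2 := by
      rw [hκ, div_mul_eq_mul_div, div_le_div_iff₀ (by positivity) (by norm_num)]
      nlinarith
    have e2 : (1 / κ) * δ = ε / 2 := by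
      rw [hδ]
      field_simp
    rw [e2]
    linarith

end Pool.Agent.MP_67227b_nt
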