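import Pool.Agent.MP_67227b_nt.Corr44

set_option autoImplicit false

open Filter MeasureTheory Topology Set
open scoped Real ComplexOrder

namespace Pool.Agent.MP_67227b_nt

variable {Ω : Type} [MeasurableSpace Ω] {P : Measure Ω} {n : ℕ}
  {Φ : Ω → ℝ → Matrix (Fin n) (Fin n) ℂ}

/-- The total intensity. -/
noncomputable def inten (Φ : Ω → ℝ → Matrix (Fin n) (Fin n) ℂ) (ω : Ω) : ℝ :=
  ∫ ξ, tr (Φ ω) ξ

/-- The mean of the autocorrelations. -/
noncomputable def meanCorr (P : Measure Ω) (Φ : Ω → ℝ → Matrix (Fin n) (Fin n) ℂ) (ξ : ℝ) : ℝ :=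
  ∫ ω, mcorr (Φ ω) ξ ∂P

lemma SymbolMixture.sym (H : SymbolMixture P Φ) (ω : Ω) : IsSymbol (Φ ω) where
  meas := fun c d => (H.meas c d).comp (measurable_const.prodMk measurable_id)
  eff := fun ξ => ⟨H.pos ω ξ, H.le_one ω ξ⟩
  integrable := H.integrable ω

lemma meas_tr (H : SymbolMixture P Φ) : Measurable fun p : Ω × ℝ => tr (Φ p.1) p.2 := by
  unfold tr
  apply Complex.measurable_re.comp
  unfold Matrix.trace
  exact Finset.measurable_sum _ fun c _ => H.meas c c

lemma meas_inten (H : SymbolMixture P Φ) : Measurable (inten Φ) :=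
  ((meas_tr H).stronglyMeasurable.integral_prod_right' (ν := volume)).measurable

lemma inten_nonneg (H : SymbolMixture P Φ) (ω : Ω) : 0 ≤ inten Φ ω :=
  integral_nonneg (H.sym ω).tr_nonneg

lemma meas_kerOf (H : SymbolMixture P Φ) (c d : Fin n) :
    Measurable fun p : Ω × ℝ => kerOf (Φ p.1) p.2 c d := by
  have h1 : Measurable fun q : (Ω × ℝ) × ℝ => Φ q.1.1 q.2 c d *
      Complex.exp (2 * π * Complex.I * ((q.2 * q.1.2 : ℝ) : ℂ)) := by
    apply Measurable.mul
    · exact (H.meas c d).comp ((measurable_fst.comp measurable_fst).prodMk measurable_snd)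
    · fun_prop
  exact (h1.stronglyMeasurable.integral_prod_right' (ν := volume)).measurable

lemma meas_mul (H : SymbolMixture P Φ) : Measurable fun q : (Ω × ℝ) × ℝ =>
    (Φ q.1.1 q.2 * Φ q.1.1 (q.2 + q.1.2)).trace.re := by
  have e : (fun q : (Ω × ℝ) × ℝ => (Φ q.1.1 q.2 * Φ q.1.1 (q.2 + q.1.2)).trace.re) =
      fun q : (Ω × ℝ) × ℝ => (∑ c, ∑ d, Φ q.1.1 q.2 c d * Φ q.1.1 (q.2 + q.1.2) d c).re := by
    ext p
    rw [Matrix.trace]
    simp only [Matrix.diag_apply, Matrix.mul_apply]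
  rw [e]
  apply Complex.measurable_re.comp
  apply Finset.measurable_sum
  intro c _
  apply Finset.measurable_sum
  intro d _
  apply Measurable.mul
  · exact (H.meas c d).comp ((measurable_fst.comp measurable_fst).prodMk measurable_snd)
  · exact (H.meas d c).comp ((measurable_fst.comp measurable_fst).prodMk
      (measurable_snd.add (measurable_snd.comp measurable_fst)))

lemma meas_mcorr (H : SymbolMixture P Φ) : Measurable fun p : Ω × ℝ => mcorr (Φ p.1) p.2 :=
  ((meas_mul H).stronglyMeasurable.integral_prod_right' (ν := volume)).measurable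

lemma integrable_inten_sq (H : SymbolMixture P Φ) : Integrable (fun ω => inten Φ ω ^ 2) P :=
  H.second

lemma norm_ker_sq_le (H : SymbolMixture P Φ) (ω : Ω) (v : ℝ) :
    ∑ c, ∑ d, ‖kerOf (Φ ω) v c d‖ ^ 2 ≤ inten Φ ω ^ 2 := (H.sym ω).sum_norm_sq_le v

lemma sum_norm_nonneg (A : Matrix (Fin n) (Fin n) ℂ) : 0 ≤ ∑ c, ∑ d, ‖A c d‖ ^ 2 :=
  Finset.sum_nonneg fun _ _ => Finset.sum_nonneg fun _ _ => sq_nonneg _

lemma integrable_kerSq (H : SymbolMixture P Φ) (v : ℝ) :
    Integrable (fun ω => ∑ c, ∑ d, ‖kerOf (Φ ω) v c d‖ ^ 2) P := by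
  refine Integrable.mono' H.second ?_ ?_
  · apply Measurable.aestronglyMeasurable
    refine Finset.measurable_sum _ fun c _ => Finset.measurable_sum _ fun d _ => ?_
    exact ((meas_kerOf H c d).comp (measurable_id.prodMk measurable_const)).norm.pow_const 2
  · filter_upwards with ω
    rw [Real.norm_of_nonneg (sum_norm_nonneg _)]
    exact norm_ker_sq_le H ω v

lemma mixDet_one_eq (H : SymbolMixture P Φ) (u : Fin 1 → ℝ) : mixDet P Φ 1 u =
    ∫ ω, (inten Φ ω ^ 2 - ∑ c, ∑ d, ‖kerOf (Φ ω) (u 0) c d‖ ^ 2) ∂P := by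
  unfold mixDet
  congr 1
  ext ω
  rw [typeDet_one (H.sym ω)]
  rfl

/-- The pair density of a mixture. -/
lemma mixDet_one (H : SymbolMixture P Φ) (u : Fin 1 → ℝ) :
    mixDet P Φ 1 u = (∫ ω, inten Φ ω ^ 2 ∂P) -
      ∫ ω, ∑ c, ∑ d, ‖kerOf (Φ ω) (u 0) c d‖ ^ 2 ∂P := by
  rw [mixDet_one_eq H, integral_sub (integrable_inten_sq H) (integrable_kerSq H (u 0))]

lemma mixDet_zero (H : SymbolMixture P Φ) (u : Fin 0 → ℝ) :
    mixDet P Φ 0 u = ∫ ω, inten Φ ω ∂P := by
  unfold mixDet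
  congr 1
  ext ω
  rw [typeDet_zero (H.sym ω)]
  rfl

lemma mixDet_one_nonneg (H : SymbolMixture P Φ) (u : Fin 1 → ℝ) : 0 ≤ mixDet P Φ 1 u := by
  rw [mixDet_one_eq H]
  exact integral_nonneg fun ω => sub_nonneg.mpr (norm_ker_sq_le H ω _)

lemma abs_mixDet_one_le (H : SymbolMixture P Φ) (u : Fin 1 → ℝ) :
    |mixDet P Φ 1 u| ≤ ∫ ω, inten Φ ω ^ 2 ∂P := by
  rw [abs_of_nonneg (mixDet_one_nonneg H u), mixDet_one H]
  have : 0 ≤ ∫ ω, ∑ c, ∑ d, ‖kerOf (Φ ω) (u 0) c d‖ ^ 2 ∂P :=
    integral_nonneg fun ω => sum_norm_nonneg _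
  linarith

lemma continuous_mixDet_one (H : SymbolMixture P Φ) : Continuous (mixDet P Φ 1) := by
  have h1 : mixDet P Φ 1 = fun u => ∫ ω, (inten Φ ω ^ 2 -
      ∑ c, ∑ d, ‖kerOf (Φ ω) (u 0) c d‖ ^ 2) ∂P := by
    ext u
    exact mixDet_one_eq H u
  rw [h1]
  refine continuous_of_dominated (bound := fun ω => inten Φ ω ^ 2) ?_ ?_
    (integrable_inten_sq H) ?_
  · intro u
    exact ((integrable_inten_sq H).sub (integrable_kerSq H (u 0))).aestronglyMeasurable
  · intro u
    filter_upwards with ω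
    have h2 := norm_ker_sq_le H ω (u 0)
    have h3 := sum_norm_nonneg (kerOf (Φ ω) (u 0))
    rw [Real.norm_of_nonneg (by linarith)]
    linarith
  · filter_upwards with ω
    apply continuous_const.sub
    refine continuous_finsetSum _ fun c _ => continuous_finsetSum _ fun d _ => ?_
    exact ((continuous_kerE ((H.sym ω).integrable_entry c d)).comp
      (continuous_apply 0)).norm.pow 2

lemma integrable_corr_mix (H : SymbolMixture P Φ) [SFinite P] :
    Integrable (fun p : Ω × ℝ => mcorr (Φ p.1) p.2) (P.prod volume) := by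
  rw [integrable_prod_iff (meas_mcorr H).aestronglyMeasurable]
  constructor
  · filter_upwards with ω
    exact (H.sym ω).integrable_mcorr
  · have h1 : ∀ ω, ∫ ξ, ‖mcorr (Φ ω) ξ‖ = ∫ ξ, mcorr (Φ ω) ξ := by
      intro ω
      congr 1
      ext ξ
      exact Real.norm_of_nonneg ((H.sym ω).mcorr_nonneg ξ)
    simp only [h1]
    refine Integrable.mono' ((H.second.const_mul n).const_mul n) ?_ ?_
    · exact ((meas_mcorr H).stronglyMeasurable.integral_prod_right' (ν := volume)).aestronglyMeasurable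
    · filter_upwards with ω
      rw [Real.norm_of_nonneg (integral_nonneg (H.sym ω).mcorr_nonneg)]
      exact (H.sym ω).integral_mcorr_le

lemma integrable_meanCorr (H : SymbolMixture P Φ) [SFinite P] : Integrable (meanCorr P Φ) :=
  (integrable_corr_mix H).integral_prod_right

/-- The band-limited averages of the pair density of a mixture. -/
theorem mix_parseval (H : SymbolMixture P Φ) [SFinite P] {S : Set (Fin 1 → ℝ)}
    {ψ : (Fin 1 → ℝ) → ℂ} (h : IsBand S ψ) :
    ∫ u, synth ψ u * (mixDet P Φ 1 u : ℂ) =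
      ((∫ ω, inten Φ ω ^ 2 ∂P : ℝ) : ℂ) * ψ 0 -
        ∫ ξ : ℝ, ψ (fun _ => ξ) * (meanCorr P Φ ξ : ℂ) := by
  have hs := h.integrable_synth
  set g : Ω → (Fin 1 → ℝ) → ℝ := fun ω u => ∑ c, ∑ d, ‖kerOf (Φ ω) (u 0) c d‖ ^ 2 with hg
  have hgm : Measurable fun p : (Fin 1 → ℝ) × Ω => g p.2 p.1 := by
    refine Finset.measurable_sum _ fun c _ => Finset.measurable_sum _ fun d _ => ?_
    exact ((meas_kerOf H c d).comp (measurable_snd.prodMk
      ((measurable_pi_apply 0).comp measurable_fst))).norm.pow_const 2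
  have hgi : Integrable (fun p : (Fin 1 → ℝ) × Ω => synth ψ p.1 * (g p.2 p.1 : ℂ))
      (volume.prod P) := by
    have h1 : Integrable (fun p : (Fin 1 → ℝ) × Ω => ‖synth ψ p.1‖ * inten Φ p.2 ^ 2)
        (volume.prod P) := hs.norm.mul_prod (integrable_inten_sq H)
    refine h1.mono' ?_ ?_
    · exact (hs.aestronglyMeasurable.comp_fst).mul
        (Complex.measurable_ofReal.comp hgm).aestronglyMeasurable
    · filter_upwards with p
      rw [norm_mul, Complex.norm_real, Real.norm_of_nonneg (sum_norm_nonneg _)]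
      have := norm_ker_sq_le H p.2 (p.1 0)
      gcongr
  have h1 : ∀ u, synth ψ u * (mixDet P Φ 1 u : ℂ) =
      synth ψ u * ((∫ ω, inten Φ ω ^ 2 ∂P : ℝ) : ℂ) - ∫ ω, synth ψ u * (g ω u : ℂ) ∂P := by
    intro u
    rw [mixDet_one H, integral_const_mul, integral_complex_ofReal]
    push_cast
    ring
  simp only [h1]
  rw [integral_sub (hs.mul_const _) hgi.integral_prod_left, integral_mul_const, integral_synth h,
    mul_comm (ψ 0)]
  congr 1
  rw [integral_integral_swap hgi]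
  obtain ⟨C, hC⟩ := h.1.continuous.bounded_above_of_compact_support h.2.1
  have hψc : Continuous fun ξ : ℝ => ψ (fun _ => ξ) :=
    h.1.continuous.comp (continuous_pi fun _ => continuous_id)
  have h2 : ∀ ω, ∫ u, synth ψ u * (g ω u : ℂ) =
      ∫ ξ : ℝ, ψ (fun _ => ξ) * (mcorr (Φ ω) ξ : ℂ) := fun ω => (H.sym ω).parseval h
  simp only [h2]
  rw [integral_integral_swap]
  · congr 1
    ext ξ
    rw [integral_const_mul, integral_complex_ofReal]
    rfl
  · have h3 := (integrable_corr_mix H).ofReal (𝕜 := ℂ)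
    exact h3.bdd_mul (c := C) (f := fun p : Ω × ℝ => ψ (fun _ => p.2))
      (hψc.comp_aestronglyMeasurable measurable_snd.aestronglyMeasurable)
      (Eventually.of_forall fun p => hC _)

end Pool.Agent.MP_67227b_nt
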