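import Pool.Agent.MP_67227b_nt.Far67

set_option autoImplicit false
open Filter MeasureTheory Topology Set
open scoped Real Pointwise

namespace Pool.Agent.MP_67227b_nt

variable {m : ℕ}

/-- The character `t ↦ exp (2 π i a t)` of the real line. -/
noncomputable def chi (a : ℝ) : Multiplicative ℝ →* ℂ where
  toFun t := Complex.exp (2 * π * Complex.I * ((a * Multiplicative.toAdd t : ℝ) : ℂ))
  map_one' := by simp
  map_mul' := by
    intro s t
    rw [toAdd_mul, ← Complex.exp_add]
    congr 1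
    push_cast
    ring

lemma chi_injective : Function.Injective chi := by
  intro a b hab
  by_contra hne
  have hd : a - b ≠ 0 := sub_ne_zero.mpr hne
  have h1 := congrArg (fun f : Multiplicative ℝ →* ℂ =>
    f (Multiplicative.ofAdd (1 / (2 * (a - b))))) hab
  simp only [chi, MonoidHom.coe_mk, OneHom.coe_mk, toAdd_ofAdd] at h1
  have h2 : 2 * π * Complex.I * ((a * (1 / (2 * (a - b))) : ℝ) : ℂ) =
      2 * π * Complex.I * ((b * (1 / (2 * (a - b))) : ℝ) : ℂ) + π * Complex.I := by
    have h3 : a * (1 / (2 * (a - b))) = b * (1 / (2 * (a - b))) + 1 / 2 := by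
      field_simp
      ring
    rw [h3]
    push_cast
    ring
  rw [h2, Complex.exp_add, Complex.exp_pi_mul_I] at h1
  have h4 := Complex.exp_ne_zero (2 * π * Complex.I * ((b * (1 / (2 * (a - b))) : ℝ) : ℂ))
  apply h4
  linear_combination (-1 / 2 : ℂ) * h1

/-- Nonvanishing on almost all points of a line. -/
lemma line_null (s : Finset (Fin m → ℝ)) (hs : s.Nonempty) (c : (Fin m → ℝ) → ℂ)
    (hc : ∀ ξ ∈ s, c ξ ≠ 0) (v : Fin m → ℝ)
    (hv : ∀ ξ ∈ s, ∀ ξ' ∈ s, ξ ≠ ξ' → ∑ i, (ξ i - ξ' i) * v i ≠ 0) (x : Fin m → ℝ) :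
    ∀ᵐ t : ℝ, (∑ ξ ∈ s, c ξ * ee ξ (x + t • v)) ≠ 0 := by
  set g : ℝ → ℂ := fun t => ∑ ξ ∈ s, c ξ * ee ξ (x + t • v) with hg
  have hexp : ∀ (ξ : Fin m → ℝ) (t : ℝ), ee ξ (x + t • v) =
      ee ξ x * Complex.exp (2 * π * Complex.I * (((∑ i, ξ i * v i) * t : ℝ) : ℂ)) := by
    intro ξ t
    unfold ee
    rw [← Complex.exp_add]
    congr 1
    have : ∑ i, ξ i * (x + t • v) i = (∑ i, ξ i * x i) + (∑ i, ξ i * v i) * t := by
      rw [Finset.sum_mul, ← Finset.sum_add_distrib]
      apply Finset.sum_congr rfl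
      intro i _
      simp only [Pi.add_apply, Pi.smul_apply, smul_eq_mul]
      ring
    rw [this]
    push_cast
    ring
  have hana : AnalyticOnNhd ℝ g univ := by
    intro t _
    have : g = fun t => ∑ ξ ∈ s, c ξ * (ee ξ x *
        Complex.exp (2 * π * Complex.I * (((∑ i, ξ i * v i) * t : ℝ) : ℂ))) := by
      ext t
      simp only [hg, hexp]
    rw [this]
    apply Finset.analyticAt_fun_sum
    intro ξ _
    refine analyticAt_const.mul (analyticAt_const.mul ?_)
    have h1 : AnalyticAt ℝ (fun t : ℝ => (((∑ i, ξ i * v i) * t : ℝ) : ℂ)) t :=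
      Complex.ofRealCLM.analyticAt _ |>.comp (analyticAt_const.mul analyticAt_id)
    have h2 : AnalyticAt ℝ Complex.exp
        (2 * π * Complex.I * (((∑ i, ξ i * v i) * t : ℝ) : ℂ)) :=
      (Complex.differentiable_exp.analyticAt _).restrictScalars
    exact AnalyticAt.fun_comp (g := Complex.exp)
      (f := fun t : ℝ => 2 * π * Complex.I * (((∑ i, ξ i * v i) * t : ℝ) : ℂ)) h2
      (analyticAt_const.mul h1)
  rcases hana.eqOn_zero_or_eventually_ne_zero_of_preconnected isPreconnected_univ with h | h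
  · exfalso
    -- linear independence of characters
    have hinj : Function.Injective (fun ξ : s => chi (∑ i, ξ.1 i * v i)) := by
      intro ξ ξ' h1
      by_contra hne
      have h2 := chi_injective h1
      apply hv ξ.1 ξ.2 ξ'.1 ξ'.2 (fun h => hne (Subtype.ext h))
      rw [← sub_eq_zero, ← Finset.sum_sub_distrib] at h2
      rw [← h2]
      apply Finset.sum_congr rfl
      intro i _
      ring
    have hli := (linearIndependent_monoidHom (Multiplicative ℝ) ℂ).comp _ hinj
    rw [Fintype.linearIndependent_iff] at hli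
    obtain ⟨ξ₀, hξ₀⟩ := hs
    have h3 := hli (fun ξ => c ξ.1 * ee ξ.1 x) (by
      ext t
      have h4 := h (mem_univ (Multiplicative.toAdd t))
      simp only [hg, hexp, Pi.zero_apply] at h4
      rw [Finset.sum_apply, Pi.zero_apply]
      refine Eq.trans ?_ h4
      rw [← Finset.sum_coe_sort s]
      apply Finset.sum_congr rfl
      intro ξ _
      simp only [Function.comp_apply, Pi.smul_apply, smul_eq_mul, chi, MonoidHom.coe_mk,
        OneHom.coe_mk]
      ring) ⟨ξ₀, hξ₀⟩
    have h5 : ee ξ₀ x ≠ 0 := by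
      intro h6
      have := norm_ee ξ₀ x
      rw [h6, norm_zero] at this
      norm_num at this
    exact (mul_ne_zero (hc ξ₀ hξ₀) h5) h3
  · have h1 := ae_restrict_le_codiscreteWithin (μ := (volume : Measure ℝ))
      MeasurableSet.univ h
    rwa [Measure.restrict_univ] at h1

/-- The zero set of a trigonometric polynomial is a null set. -/
lemma null_zero {Θ : Set (Fin m → ℝ)} {F : (Fin m → ℝ) → ℂ} (hF : F ∈ trigSpan Θ)
    (hne : ∃ u, F u ≠ 0) : volume {u | F u = 0} = 0 := by
  classical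
  obtain ⟨hFc, _⟩ := trigSpan_cont hF
  rw [trigSpan, Finsupp.mem_span_image_iff_linearCombination] at hF
  obtain ⟨c, _, hc⟩ := hF
  have hFs : ∀ u, F u = ∑ ξ ∈ c.support, c ξ * ee ξ u := by
    intro u
    rw [← hc, Finsupp.linearCombination_apply, Finsupp.sum, Finset.sum_apply]
    rfl
  have hs : c.support.Nonempty := by
    rw [Finset.nonempty_iff_ne_empty]
    intro h
    obtain ⟨u, hu⟩ := hne
    apply hu
    rw [hFs, h, Finset.sum_empty]
  -- the direction
  obtain ⟨v, hv⟩ : ∃ v : Fin m → ℝ, ∀ ξ ∈ c.support, ∀ ξ' ∈ c.support, ξ ≠ ξ' →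
      ∑ i, (ξ i - ξ' i) * v i ≠ 0 := by
    have h1 := Module.exists_dual_forall_apply_ne_zero (K := ℝ) (M := Fin m → ℝ)
      (ι := {p : c.support × c.support // p.1.1 ≠ p.2.1})
      (fun p => p.1.1.1 - p.1.2.1) (fun p => sub_ne_zero.mpr p.2)
    obtain ⟨f, hf⟩ := h1
    refine ⟨fun i => f (Pi.single i 1), fun ξ hξ ξ' hξ' hne => ?_⟩
    have h2 := hf ⟨(⟨ξ, hξ⟩, ⟨ξ', hξ'⟩), hne⟩
    have h3 : ξ - ξ' = ∑ i, (ξ i - ξ' i) • (Pi.single i (1 : ℝ) : Fin m → ℝ) := by
      ext j
      simp [Finset.sum_apply, Pi.single_apply]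
    simp only at h2
    rw [h3, map_sum] at h2
    simpa [map_smul] using h2
  set Z : Set (Fin m → ℝ) := {u | F u = 0} with hZ
  have mZ : MeasurableSet Z := (isClosed_eq hFc continuous_const).measurableSet
  have hline : ∀ x : Fin m → ℝ, ∫⁻ t in Icc (0 : ℝ) 1, Z.indicator 1 (x + t • v) = 0 := by
    intro x
    have h1 := line_null c.support hs c (fun ξ hξ => Finsupp.mem_support_iff.mp hξ) v hv x
    rw [lintegral_eq_zero_iff']
    · filter_upwards [ae_restrict_of_ae h1] with t ht
      have : x + t • v ∉ Z := by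
        intro h2
        apply ht
        rw [← hFs]
        exact h2
      rw [indicator_of_notMem this]
      rfl
    · apply Measurable.aemeasurable
      exact (measurable_one.indicator mZ).comp (by fun_prop)
  have h1 : ∫⁻ t in Icc (0 : ℝ) 1, (∫⁻ x, Z.indicator 1 (x + t • v)) = volume Z := by
    have h2 : ∀ t : ℝ, (∫⁻ x : Fin m → ℝ, Z.indicator (1 : (Fin m → ℝ) → ENNReal) (x + t • v)) =
        volume Z := by
      intro t
      rw [lintegral_add_right_eq_self (fun x => Z.indicator (1 : (Fin m → ℝ) → ENNReal) x)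
        (t • v), lintegral_indicator_one mZ]
    simp only [h2]
    rw [lintegral_const]
    simp
  rw [← h1, lintegral_lintegral_swap]
  · simp only [hline, lintegral_zero]
  · apply Measurable.aemeasurable
    exact (measurable_one.indicator mZ).comp (by fun_prop)

end Pool.Agent.MP_67227b_nt
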