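import Pool.Agent.MP_67227b_nt.BlockDet

set_option autoImplicit false

open Filter MeasureTheory Topology Set
open scoped Real Nat

namespace Pool.Agent.MP_67227b_nt

section Gram

variable {α : Type*} [Fintype α]

/-- The Gram matrix of the sine kernel for a family of points. -/
noncomputable def gm {α : Type*} (g : α → ℝ) : Matrix α α ℝ := Matrix.of fun i j => K (g i - g j)

lemma gm_apply {α : Type*} (g : α → ℝ) (i j : α) : gm g i j = K (g i - g j) := rfl

lemma sineMatrix_eq_gm {k : ℕ} (u : Fin k → ℝ) : sineMatrix u = gm u := rfl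

lemma gm_symm {α : Type*} (g : α → ℝ) : (gm g).transpose = gm g := by
  ext i j
  rw [Matrix.transpose_apply, gm_apply, gm_apply, ← K_neg, neg_sub]

lemma integrable_lin_K_mul (x y : α → ℝ) (g : α → ℝ) :
    Integrable fun v => (∑ i, x i * K (v - g i)) * ∑ j, y j * K (v - g j) := by
  have : (fun v => (∑ i, x i * K (v - g i)) * ∑ j, y j * K (v - g j)) =
      fun v => ∑ i, ∑ j, (x i * y j) * (K (v - g i) * K (v - g j)) := by
    ext v
    rw [Finset.sum_mul_sum]
    apply Finset.sum_congr rfl
    intro i _
    apply Finset.sum_congr rfl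
    intro j _
    ring
  rw [this]
  exact integrable_finsetSum _ fun i _ => integrable_finsetSum _ fun j _ =>
    (integrable_K_mul_K _ _).const_mul _

/-- The Gram formula. -/
lemma integral_lin_K_mul (x y : α → ℝ) (g : α → ℝ) :
    ∫ v, (∑ i, x i * K (v - g i)) * ∑ j, y j * K (v - g j) =
      ∑ i, ∑ j, x i * y j * K (g i - g j) := by
  have : (fun v => (∑ i, x i * K (v - g i)) * ∑ j, y j * K (v - g j)) =
      fun v => ∑ i, ∑ j, (x i * y j) * (K (v - g i) * K (v - g j)) := by
    ext v
    rw [Finset.sum_mul_sum]
    apply Finset.sum_congr rfl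
    intro i _
    apply Finset.sum_congr rfl
    intro j _
    ring
  rw [this, integral_finsetSum]
  · apply Finset.sum_congr rfl
    intro i _
    rw [integral_finsetSum]
    · apply Finset.sum_congr rfl
      intro j _
      rw [integral_const_mul, integral_K_mul_K]
    · exact fun j _ => (integrable_K_mul_K _ _).const_mul _
  · exact fun i _ => integrable_finsetSum _ fun j _ => (integrable_K_mul_K _ _).const_mul _

lemma gm_posSemidef (g : α → ℝ) : (gm g).PosSemidef := by
  apply Matrix.PosSemidef.of_dotProduct_mulVec_nonneg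
  · rw [Matrix.IsHermitian, Matrix.conjTranspose_eq_transpose_of_trivial, gm_symm]
  · intro x
    have h := integral_lin_K_mul x x g
    have h2 : 0 ≤ ∫ v, (∑ i, x i * K (v - g i)) * ∑ j, x j * K (v - g j) :=
      integral_nonneg fun v => mul_self_nonneg _
    rw [h] at h2
    simp only [star_trivial, dotProduct, Matrix.mulVec, gm_apply]
    refine h2.trans (le_of_eq ?_)
    apply Finset.sum_congr rfl
    intro i _
    rw [Finset.mul_sum]
    apply Finset.sum_congr rfl
    intro j _
    ring

/-- Cauchy-Schwarz for a positive semidefinite real form. -/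
lemma psd_cs (M : Matrix α α ℝ) (hM : M.PosSemidef) (x y : α → ℝ) :
    (∑ i, ∑ l, M i l * (x i * y l)) ^ 2 ≤
      (∑ i, ∑ l, M i l * (x i * x l)) * ∑ i, ∑ l, M i l * (y i * y l) := by
  set a := ∑ i, ∑ l, M i l * (x i * x l) with ha
  set b := ∑ i, ∑ l, M i l * (x i * y l) with hb
  set c := ∑ i, ∑ l, M i l * (y i * y l) with hc
  have hsymm : ∀ i l, M i l = M l i := by
    intro i l
    have := congrFun (congrFun hM.isHermitian.eq i) l
    rw [Matrix.conjTranspose_apply] at this
    simpa using this.symm
  have hb' : ∑ i, ∑ l, M i l * (y i * x l) = b := by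
    rw [hb, Finset.sum_comm]
    apply Finset.sum_congr rfl
    intro i _
    apply Finset.sum_congr rfl
    intro l _
    rw [hsymm]
    ring
  have key : ∀ s t : ℝ, 0 ≤ s ^ 2 * a + 2 * s * t * b + t ^ 2 * c := by
    intro s t
    have h := hM.dotProduct_mulVec_nonneg (fun i => s * x i + t * y i)
    simp only [star_trivial, dotProduct, Matrix.mulVec] at h
    refine h.trans (le_of_eq ?_)
    have e : ∀ i l, (s * x i + t * y i) * (M i l * (s * x l + t * y l)) =
        s ^ 2 * (M i l * (x i * x l)) + s * t * (M i l * (x i * y l)) +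
        s * t * (M i l * (y i * x l)) + t ^ 2 * (M i l * (y i * y l)) := by
      intro i l
      ring
    simp only [Finset.mul_sum, e, Finset.sum_add_distrib]
    simp only [← Finset.mul_sum]
    rw [← ha, ← hb, ← hc, hb']
    ring
  have h1 := key (-b) a
  have h2 := key 1 0
  have h3 := key 0 1
  have h4 := key c (-b)
  by_cases hc0 : c = 0
  · have hb0 : b = 0 := by
      by_contra hne
      have h5 := key 1 (-(a + 1) / (2 * b))
      rw [hc0] at h5
      have e : 1 ^ 2 * a + 2 * 1 * (-(a + 1) / (2 * b)) * b + (-(a + 1) / (2 * b)) ^ 2 * 0 = -1 := by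
        field_simp
        ring
      rw [e] at h5
      linarith
    rw [hb0, hc0]
    simp
  · have hcpos : 0 < c := lt_of_le_of_ne (by linarith) (Ne.symm hc0)
    have : 0 ≤ c * (a * c - b ^ 2) := by nlinarith
    have := nonneg_of_mul_nonneg_right this hcpos
    linarith

end Gram

end Pool.Agent.MP_67227b_nt
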