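import Pool.Agent.MP_67227b_nt.Rigid67

set_option autoImplicit false
open Filter MeasureTheory Topology Set
open scoped Real Pointwise

namespace Pool.Agent.MP_67227b_nt

variable {m : ℕ}

/-- The situation of the rigidity argument: two measures which agree on the products of `P q`
with trigonometric polynomials of small frequencies, and which can be compared far away. -/
structure Pinch (μ lam : Measure (Fin m → ℝ)) (P q : (Fin m → ℝ) → ℝ) (A ε : ℝ) : Prop where
  hP : Continuous P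
  hPb : ∃ C : ℝ, 0 ≤ C ∧ ∀ u, |P u| ≤ C
  hq : Continuous q
  hq0 : ∀ u, 0 ≤ q u
  qμ : Integrable q μ
  ql : Integrable q lam
  hε : 0 < ε
  up : ∀ s ⊆ {u : Fin m → ℝ | A < ‖u‖ ∧ 0 < P u}, μ s ≤ lam s
  lo : ∀ s ⊆ {u : Fin m → ℝ | A < ‖u‖ ∧ P u < 0}, lam s ≤ μ s
  trig : ∀ G ∈ trigSpan (Metric.closedBall (0 : Fin m → ℝ) ε),
    ∫ u, G u * ((q u * P u : ℝ) : ℂ) ∂μ = ∫ u, G u * ((q u * P u : ℝ) : ℂ) ∂lam

/-- Bounded measurable functions. -/
def BM (h : (Fin m → ℝ) → ℝ) : Prop := Measurable h ∧ ∃ C : ℝ, ∀ u, |h u| ≤ C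

lemma BM.add {h h' : (Fin m → ℝ) → ℝ} (a : BM h) (b : BM h') : BM (fun u => h u + h' u) := by
  obtain ⟨a1, C, a2⟩ := a
  obtain ⟨b1, D, b2⟩ := b
  exact ⟨a1.add b1, C + D, fun u => (abs_add_le _ _).trans (add_le_add (a2 u) (b2 u))⟩

lemma BM.neg {h : (Fin m → ℝ) → ℝ} (a : BM h) : BM (fun u => - h u) := by
  obtain ⟨a1, C, a2⟩ := a
  exact ⟨a1.neg, C, fun u => by rw [abs_neg]; exact a2 u⟩

lemma BM.const (c : ℝ) : BM (fun _ : Fin m → ℝ => c) := ⟨measurable_const, |c|, fun _ => le_rfl⟩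

variable {μ lam : Measure (Fin m → ℝ)} {P q : (Fin m → ℝ) → ℝ} {A ε : ℝ}

/-- The difference of the signed integrals. -/
noncomputable def DD (μ lam : Measure (Fin m → ℝ)) (P q : (Fin m → ℝ) → ℝ)
    (s : Set (Fin m → ℝ)) (h : (Fin m → ℝ) → ℝ) : ℝ :=
  (∫ u in s, h u * q u * P u ∂lam) - ∫ u in s, h u * q u * P u ∂μ

lemma intPinch {κ : Measure (Fin m → ℝ)} (hP : Continuous P)
    (hPb : ∃ C : ℝ, 0 ≤ C ∧ ∀ u, |P u| ≤ C) (hκ : Integrable q κ) {h : (Fin m → ℝ) → ℝ}
    (hh : BM h) : Integrable (fun u => h u * q u * P u) κ := by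
  obtain ⟨C, _, hC⟩ := hPb
  obtain ⟨h1, D, h2⟩ := hh
  refine Integrable.mul_bdd (c := C) ?_ hP.aestronglyMeasurable (Eventually.of_forall hC)
  exact hκ.bdd_mul (c := D) h1.aestronglyMeasurable (Eventually.of_forall h2)

lemma DD_add (H : Pinch μ lam P q A ε) (s : Set (Fin m → ℝ)) {h h' : (Fin m → ℝ) → ℝ}
    (a : BM h) (b : BM h') :
    DD μ lam P q s (fun u => h u + h' u) = DD μ lam P q s h + DD μ lam P q s h' := by
  unfold DD
  have e : ∀ κ : Measure (Fin m → ℝ), Integrable q κ →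
      ∫ u in s, (h u + h' u) * q u * P u ∂κ =
        (∫ u in s, h u * q u * P u ∂κ) + ∫ u in s, h' u * q u * P u ∂κ := by
    intro κ hκ
    rw [← integral_add (intPinch H.hP H.hPb hκ a).integrableOn
      (intPinch H.hP H.hPb hκ b).integrableOn]
    congr 1
    ext u
    ring
  rw [e lam H.ql, e μ H.qμ]
  ring

lemma DD_smul (c : ℝ) (s : Set (Fin m → ℝ)) (h : (Fin m → ℝ) → ℝ) :
    DD μ lam P q s (fun u => c * h u) = c * DD μ lam P q s h := by
  unfold DD
  have e : ∀ κ : Measure (Fin m → ℝ), ∫ u in s, (c * h u) * q u * P u ∂κ =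
        c * ∫ u in s, h u * q u * P u ∂κ := by
    intro κ
    rw [← integral_const_mul]
    congr 1
    ext u
    ring
  rw [e, e]
  ring

lemma DD_union (H : Pinch μ lam P q A ε) {s t : Set (Fin m → ℝ)} (hst : Disjoint s t)
    (ht : MeasurableSet t) {h : (Fin m → ℝ) → ℝ} (a : BM h) :
    DD μ lam P q (s ∪ t) h = DD μ lam P q s h + DD μ lam P q t h := by
  unfold DD
  rw [setIntegral_union hst ht (intPinch H.hP H.hPb H.ql a).integrableOn
    (intPinch H.hP H.hPb H.ql a).integrableOn, setIntegral_union hst ht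
    (intPinch H.hP H.hPb H.qμ a).integrableOn (intPinch H.hP H.hPb H.qμ a).integrableOn]
  ring

lemma DD_nonneg (H : Pinch μ lam P q A ε) {s : Set (Fin m → ℝ)} (hs : MeasurableSet s)
    (hsA : ∀ u ∈ s, A < ‖u‖) {h : (Fin m → ℝ) → ℝ} (a : BM h) (h0 : ∀ u ∈ s, 0 ≤ h u) :
    0 ≤ DD μ lam P q s h := by
  unfold DD
  rw [sub_nonneg]
  exact far_compare H.hP H.up H.lo hs hsA (h := fun u => h u * q u)
    (fun u hu => mul_nonneg (h0 u hu) (H.hq0 u)) (intPinch H.hP H.hPb H.qμ a).integrableOn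
    (intPinch H.hP H.hPb H.ql a).integrableOn

lemma DD_bound (H : Pinch μ lam P q A ε) {C : ℝ} (hC : ∀ u, |P u| ≤ C)
    {s : Set (Fin m → ℝ)} (hs : MeasurableSet s) {h : (Fin m → ℝ) → ℝ} (a : BM h) {B : ℝ}
    (hB : ∀ u ∈ s, |h u| ≤ B) (hB0 : 0 ≤ B) :
    |DD μ lam P q s h| ≤ B * (C * ((∫ u, q u ∂lam) + ∫ u, q u ∂μ)) := by
  have hC0 : 0 ≤ C := (abs_nonneg _).trans (hC 0)
  have e : ∀ κ : Measure (Fin m → ℝ), Integrable q κ →
      |∫ u in s, h u * q u * P u ∂κ| ≤ B * (C * ∫ u, q u ∂κ) := by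
    intro κ hκ
    calc |∫ u in s, h u * q u * P u ∂κ| ≤ ∫ u in s, |h u * q u * P u| ∂κ :=
          abs_integral_le_integral_abs
      _ ≤ ∫ u in s, B * (C * q u) ∂κ := by
          apply setIntegral_mono_on (intPinch H.hP H.hPb hκ a).integrableOn.abs
            ((hκ.const_mul C).const_mul B).integrableOn hs
          intro u hu
          rw [abs_mul, abs_mul, abs_of_nonneg (H.hq0 u)]
          have h1 := H.hq0 u
          calc |h u| * q u * |P u| ≤ B * q u * C := by
                gcongr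
                · exact hB u hu
                · exact hC u
            _ = B * (C * q u) := by ring
      _ ≤ ∫ u, B * (C * q u) ∂κ := by
          apply setIntegral_le_integral ((hκ.const_mul C).const_mul B)
          filter_upwards with u
          have h1 := H.hq0 u
          exact mul_nonneg hB0 (mul_nonneg hC0 h1)
      _ = B * (C * ∫ u, q u ∂κ) := by rw [integral_const_mul, integral_const_mul]
  unfold DD
  have h1 := e lam H.ql
  have h2 := e μ H.qμ
  rw [abs_le] at h1 h2 ⊢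
  constructor <;> linarith [h1.1, h1.2, h2.1, h2.2]

lemma DD_trig (H : Pinch μ lam P q A ε) {h : (Fin m → ℝ) → ℝ}
    (hG : (fun u => ((h u : ℝ) : ℂ)) ∈ trigSpan (Metric.closedBall (0 : Fin m → ℝ) ε)) :
    DD μ lam P q univ h = 0 := by
  have h1 := H.trig _ hG
  unfold DD
  rw [Measure.restrict_univ, Measure.restrict_univ, sub_eq_zero]
  have e : ∀ κ : Measure (Fin m → ℝ), ∫ u, ((h u : ℝ) : ℂ) * ((q u * P u : ℝ) : ℂ) ∂κ =
      ((∫ u, h u * q u * P u ∂κ : ℝ) : ℂ) := by
    intro κ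
    rw [← integral_complex_ofReal]
    congr 1
    ext u
    push_cast
    ring
  rw [e, e] at h1
  exact (Complex.ofReal_injective h1).symm

lemma trig_BM {h : (Fin m → ℝ) → ℝ} {S : Set (Fin m → ℝ)}
    (hG : (fun u => ((h u : ℝ) : ℂ)) ∈ trigSpan S) : BM h := by
  obtain ⟨h1, C, _, h2⟩ := trigSpan_cont hG
  refine ⟨?_, C, fun u => ?_⟩
  · have h3 : h = fun u => (((h u : ℝ) : ℂ)).re := by
      ext u
      simp
    rw [h3]
    exact (Complex.continuous_re.comp h1).measurable
  · have := h2 u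
    rwa [Complex.norm_real] at this

/-- The difference vanishes on shells. -/
lemma shell_zero (H : Pinch μ lam P q A ε) : ∃ R₁ : ℝ, ∀ R : ℝ, ∀ h : (Fin m → ℝ) → ℝ, BM h →
    DD μ lam P q {u | R₁ < ‖u‖ ∧ ‖u‖ ≤ R} h = 0 := by
  obtain ⟨C, hC0, hC⟩ := H.hPb
  set A' : ℝ := max A 0 with hA'
  have hA'0 : 0 ≤ A' := le_max_right _ _
  have hAA' : A ≤ A' := le_max_left _ _
  set R₁ : ℝ := π * (m + 1) * (A' + 1) with hR₁
  have hπ : (1 : ℝ) ≤ π := by linarith [Real.pi_gt_three]
  have hm : (0 : ℝ) ≤ m := Nat.cast_nonneg m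
  have hR₁A : A' + 1 ≤ R₁ := by
    have : 1 ≤ π * (m + 1) := by nlinarith
    rw [hR₁]
    nlinarith
  obtain ⟨a, ha⟩ : ∃ a : ℝ, a = m * A' ^ 2 := ⟨_, rfl⟩
  obtain ⟨b, hb⟩ : ∃ b : ℝ, b = 4 / π ^ 2 * R₁ ^ 2 := ⟨_, rfl⟩
  have ha0 : 0 ≤ a := by rw [ha]; positivity
  have hab : a < b := by
    have e : 4 / π ^ 2 * R₁ ^ 2 = 4 * (m + 1) ^ 2 * (A' + 1) ^ 2 := by
      rw [hR₁]
      field_simp
    rw [ha, hb, e]
    nlinarith [mul_nonneg hm (sq_nonneg A'), mul_nonneg hm hA'0, mul_nonneg (mul_nonneg hm hm)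
      (sq_nonneg (A' + 1)), mul_nonneg hm (sq_nonneg (A' + 1)), sq_nonneg (A' + 1)]
  have hb0 : 0 < b := ha0.trans_lt hab
  refine ⟨R₁, fun R => ?_⟩
  set Q : Set (Fin m → ℝ) := {u | R₁ < ‖u‖ ∧ ‖u‖ ≤ R} with hQ
  have mQ : MeasurableSet Q :=
    (isOpen_lt continuous_const continuous_norm).measurableSet.inter
      (isClosed_le continuous_norm continuous_const).measurableSet
  set K : Set (Fin m → ℝ) := {u | ‖u‖ ≤ A'} with hK
  have mK : MeasurableSet K := (isClosed_le continuous_norm continuous_const).measurableSet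
  have hKQ : Disjoint K Q := by
    rw [Set.disjoint_left]
    rintro u h1 ⟨h2, _⟩
    have h3 : ‖u‖ ≤ A' := h1
    linarith
  have hKcA : ∀ u ∈ Kᶜ, A < ‖u‖ := by
    intro u hu
    have : ¬ ‖u‖ ≤ A' := hu
    linarith [not_le.mp this]
  have hQK : Q ⊆ Kᶜ := fun u hu hK => Set.disjoint_left.mp hKQ hK hu
  have hQA : ∀ u ∈ Q, A < ‖u‖ := fun u hu => hKcA u (hQK hu)
  obtain ⟨C₀, hC₀⟩ : ∃ C₀ : ℝ, C₀ = C * ((∫ u, q u ∂lam) + ∫ u, q u ∂μ) := ⟨_, rfl⟩
  have key : ∀ n : ℕ, b ^ n * DD μ lam P q Q (fun _ => 1) ≤ a ^ n * C₀ := by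
    intro n
    set η : ℝ := min (ε / (n + 1)) (1 / (2 * (|R| + 1))) with hη
    have hε := H.hε
    have hη0 : 0 < η := lt_min (by positivity) (by positivity)
    have h1 : (n : ℝ) * η ≤ ε := by
      calc (n : ℝ) * η ≤ n * (ε / (n + 1)) := by
            gcongr
            exact min_le_left _ _
        _ = (n / (n + 1)) * ε := by ring
        _ ≤ 1 * ε := by
            gcongr
            rw [div_le_one (by positivity)]
            linarith
        _ = ε := one_mul _
    have h2 : η * R ≤ 1 / 2 := by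
      calc η * R ≤ η * |R| := by
            gcongr
            exact le_abs_self R
        _ ≤ (1 / (2 * (|R| + 1))) * |R| := by
            gcongr
            exact min_le_right _ _
        _ ≤ (1 / (2 * (|R| + 1))) * (|R| + 1) := by
            gcongr
            linarith
        _ = 1 / 2 := by
            have : |R| + 1 ≠ 0 := by positivity
            field_simp
    set g : (Fin m → ℝ) → ℝ := fun u => growth η u ^ n with hg
    have hgt : (fun u => ((g u : ℝ) : ℂ)) ∈ trigSpan (Metric.closedBall (0 : Fin m → ℝ) ε) := by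
      have h3 := trig_pow_ball (growth_mem (m := m) hη0) n
      have h4 : (fun u => ((g u : ℝ) : ℂ)) =
          (fun u : Fin m → ℝ => ((growth η u : ℝ) : ℂ)) ^ n := by
        ext u
        simp [hg]
      rw [h4]
      exact trigSpan_mono (Metric.closedBall_subset_closedBall h1) h3
    have hgBM : BM g := trig_BM hgt
    have h3 := DD_trig H hgt
    have h4 : DD μ lam P q K g + DD μ lam P q Kᶜ g = 0 := by
      rw [← DD_union H disjoint_compl_right mK.compl hgBM, union_compl_self, h3]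
    have h5 : DD μ lam P q Q g + DD μ lam P q (Kᶜ \ Q) g = DD μ lam P q Kᶜ g := by
      rw [← DD_union H disjoint_sdiff_right (mK.compl.diff mQ) hgBM, union_sdiff_cancel hQK]
    have h6 : 0 ≤ DD μ lam P q (Kᶜ \ Q) g :=
      DD_nonneg H (mK.compl.diff mQ) (fun u hu => hKcA u hu.1) hgBM
        (fun u _ => pow_nonneg (growth_nonneg _ _) n)
    have h7 : 0 ≤ DD μ lam P q Q (fun u => g u + (- b ^ n) * 1) := by
      refine DD_nonneg H mQ hQA (hgBM.add (BM.const _)) ?_
      intro u hu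
      have h8 : b ≤ growth η u := by
        refine le_trans ?_ (le_growth hη0 h2 hu.2)
        rw [hb]
        have : R₁ ≤ ‖u‖ := hu.1.le
        have : 0 ≤ R₁ := by linarith
        gcongr
      have h9 : b ^ n ≤ growth η u ^ n := by gcongr
      simp only [hg]
      linarith
    have h8 : DD μ lam P q Q (fun u => g u + (- b ^ n) * 1) =
        DD μ lam P q Q g + (- b ^ n) * DD μ lam P q Q (fun _ => 1) := by
      rw [← DD_smul, ← DD_add H Q hgBM (BM.const _)]
    have h9 : |DD μ lam P q K g| ≤ a ^ n * C₀ := by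
      rw [hC₀]
      apply DD_bound H hC mK hgBM
      · intro u hu
        simp only [hg]
        rw [abs_of_nonneg (pow_nonneg (growth_nonneg _ _) n)]
        have h10 := growth_le hη0 (show ‖u‖ ≤ A' from hu)
        rw [← ha] at h10
        have := growth_nonneg η u
        gcongr
      · positivity
    rw [abs_le] at h9
    linarith [h9.1, h9.2]
  have hone : DD μ lam P q Q (fun _ => 1) ≤ 0 := by
    have h1 : ∀ n : ℕ, DD μ lam P q Q (fun _ => 1) ≤ (a / b) ^ n * C₀ := by
      intro n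
      have h2 := key n
      rw [div_pow, div_mul_eq_mul_div, le_div_iff₀ (by positivity)]
      linarith
    have h2 : Tendsto (fun n : ℕ => (a / b) ^ n * C₀) atTop (𝓝 (0 * C₀)) := by
      apply Tendsto.mul_const
      apply tendsto_pow_atTop_nhds_zero_of_lt_one (by positivity)
      rw [div_lt_one hb0]
      exact hab
    rw [zero_mul] at h2
    exact ge_of_tendsto' h2 h1
  intro h hh
  obtain ⟨D, hD⟩ := hh.2
  have hD0 : 0 ≤ D := (abs_nonneg _).trans (hD 0)
  have h1 : 0 ≤ DD μ lam P q Q (fun u => h u + D * 1) := by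
    refine DD_nonneg H mQ hQA (hh.add (BM.const _)) (fun u _ => ?_)
    have := hD u
    rw [abs_le] at this
    linarith [this.1]
  have h2 : 0 ≤ DD μ lam P q Q (fun u => - h u + D * 1) := by
    refine DD_nonneg H mQ hQA (hh.neg.add (BM.const _)) (fun u _ => ?_)
    have := hD u
    rw [abs_le] at this
    linarith [this.2]
  rw [DD_add H Q hh (BM.const _), DD_smul] at h1
  rw [DD_add H Q hh.neg (BM.const _), DD_smul] at h2
  have h3 : DD μ lam P q Q (fun u => - h u) = - DD μ lam P q Q h := by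
    have := DD_smul (μ := μ) (lam := lam) (P := P) (q := q) (-1) Q h
    simp only [neg_mul, one_mul] at this
    exact this
  rw [h3] at h2
  have h4 : D * DD μ lam P q Q (fun _ => 1) ≤ 0 := mul_nonpos_of_nonneg_of_nonpos hD0 hone
  linarith

end Pool.Agent.MP_67227b_nt
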