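import Pool.Agent.MP_67227b_nt.Fischer45
import Pool.Agent.MP_67227b_nt.Box35

set_option autoImplicit false

open Filter MeasureTheory Topology Set
open scoped Real Nat Matrix

namespace Pool.Agent.MP_67227b_nt

section GInt

variable {α β : Type} [Fintype α] [DecidableEq α] [Fintype β] [DecidableEq β]

lemma continuous_det_gm : Continuous fun u : α → ℝ => (gm u).det := by
  apply Continuous.matrix_det
  apply continuous_matrix
  intro i j
  simp only [gm_apply]
  exact continuous_K.comp ((continuous_apply i).sub (continuous_apply j))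

/-- The integral of the Gram determinant over a box. -/
noncomputable def gInt (a b : α → ℝ) : ℝ := ∫ u in Icc a b, (gm u).det

lemma gInt_nonneg (a b : α → ℝ) : 0 ≤ gInt a b :=
  integral_nonneg fun u => det_gm_nonneg u

lemma integrableOn_det_gm (a b : α → ℝ) : IntegrableOn (fun u : α → ℝ => (gm u).det) (Icc a b) :=
  continuous_det_gm.continuousOn.integrableOn_compact isCompact_Icc

lemma integrableOn_sineDet {m : ℕ} (a b : Fin m → ℝ) : IntegrableOn (sineDet m) (Icc a b) :=
  (continuous_sineDet m).continuousOn.integrableOn_compact isCompact_Icc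

lemma boxIntegral_nonneg {m : ℕ} (a b : Fin m → ℝ) : 0 ≤ boxIntegral m a b :=
  integral_nonneg fun u => sineDet_nonneg u

lemma boxIntegral_mono {m : ℕ} {a b a' b' : Fin m → ℝ} (ha : a' ≤ a) (hb : b ≤ b') :
    boxIntegral m a b ≤ boxIntegral m a' b' :=
  setIntegral_mono_set (integrableOn_sineDet a' b')
    (Eventually.of_forall fun u => sineDet_nonneg u)
    (Icc_subset_Icc ha hb).eventuallyLE

lemma boxIntegral_le_gInt {m : ℕ} (a b : Fin m → ℝ) : boxIntegral m a b ≤ gInt a b :=
  setIntegral_mono (integrableOn_sineDet a b) (integrableOn_det_gm a b) fun u => sineDet_le_gm u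

lemma boxIntegral_le_boxVol {m : ℕ} (a b : Fin m → ℝ) : boxIntegral m a b ≤ boxVol a b := by
  have h1 : boxIntegral m a b ≤ ∫ u in Icc a b, (1 : ℝ) := by
    apply setIntegral_mono (integrableOn_sineDet a b)
    · exact continuous_const.continuousOn.integrableOn_compact isCompact_Icc
    · exact fun u => sineDet_le_one u
  refine h1.trans (le_of_eq ?_)
  rw [setIntegral_const, smul_eq_mul, mul_one]
  rfl

lemma boxIntegral_le_add {m : ℕ} {a b a' b' : Fin m → ℝ} (ha : a' ≤ a) (hb : b ≤ b') :
    boxIntegral m a' b' ≤ boxIntegral m a b + (boxVol a' b' - boxVol a b) := by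
  have hsub : Icc a b ⊆ Icc a' b' := Icc_subset_Icc ha hb
  have h1 : boxIntegral m a' b' = (∫ u in Icc a' b' \ Icc a b, sineDet m u) +
      boxIntegral m a b := by
    rw [setIntegral_sdiff measurableSet_Icc (integrableOn_sineDet a' b') hsub]
    simp [boxIntegral]
  have h2 : (∫ u in Icc a' b' \ Icc a b, sineDet m u) ≤ ∫ u in Icc a' b' \ Icc a b, (1 : ℝ) := by
    apply setIntegral_mono
    · exact (integrableOn_sineDet a' b').mono_set sdiff_subset
    · exact (continuous_const.continuousOn.integrableOn_compact
        (isCompact_Icc (a := a') (b := b'))).mono_set sdiff_subset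
    · exact fun u => sineDet_le_one u
  have h3 : ∫ u in Icc a' b' \ Icc a b, (1 : ℝ) = boxVol a' b' - boxVol a b := by
    rw [setIntegral_const, smul_eq_mul, mul_one, Measure.real,
      measure_sdiff hsub measurableSet_Icc.nullMeasurableSet isCompact_Icc.measure_lt_top.ne,
      ENNReal.toReal_sub_of_le (measure_mono hsub) isCompact_Icc.measure_lt_top.ne]
    rfl
  linarith

/-- Small enlargements of a box change the integral by little. -/
lemma exists_enlarge {m : ℕ} {a b : Fin m → ℝ} (hab : a ≤ b) {ε : ℝ} (hε : 0 < ε) :
    ∃ h : ℝ, 0 < h ∧ boxIntegral m (fun i => a i - h) (fun i => b i + h) ≤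
      boxIntegral m a b + ε := by
  have hcont : Continuous fun h : ℝ => ∏ i, (b i + h - (a i - h)) := by fun_prop
  have h1 : ∀ᶠ h : ℝ in 𝓝[>] 0, ∏ i, (b i + h - (a i - h)) < ∏ i, (b i - a i) + ε := by
    have h2 : Tendsto (fun h : ℝ => ∏ i, (b i + h - (a i - h))) (𝓝[>] 0)
        (𝓝 (∏ i, (b i + 0 - (a i - 0)))) := (hcont.tendsto 0).mono_left nhdsWithin_le_nhds
    have h3 : ∏ i, (b i + 0 - (a i - 0)) < ∏ i, (b i - a i) + ε := by
      simp only [add_zero, sub_zero]
      linarith
    exact h2.eventually (gt_mem_nhds h3)
  obtain ⟨h, hh, hpos'⟩ := (h1.and self_mem_nhdsWithin).exists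
  have hpos : 0 < h := hpos'
  refine ⟨h, hpos, ?_⟩
  have ha : (fun i => a i - h) ≤ a := fun i => by
    simp only
    linarith
  have hb : b ≤ (fun i => b i + h) := fun i => by
    simp only
    linarith
  have h4 := boxIntegral_le_add ha hb
  have h5 : boxVol a b = ∏ i, (b i - a i) := by
    rw [boxVol, Real.volume_Icc_pi_toReal hab]
  have h6 : boxVol (fun i => a i - h) (fun i => b i + h) = ∏ i, (b i + h - (a i - h)) := by
    rw [boxVol, Real.volume_Icc_pi_toReal (ha.trans (hab.trans hb))]
  rw [h5, h6] at h4
  linarith

/-- Relabelling the coordinates. -/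
lemma gInt_comp (e : β ≃ α) (a b : α → ℝ) : gInt a b = gInt (a ∘ e) (b ∘ e) := by
  set Φ := MeasurableEquiv.piCongrLeft (fun _ : α => ℝ) e with hΦ
  have hmp : MeasurePreserving Φ := volume_measurePreserving_piCongrLeft (fun _ : α => ℝ) e
  have happ : ∀ f : β → ℝ, Φ f ∘ e = f := by
    intro f
    ext i
    rw [Function.comp_apply, hΦ, MeasurableEquiv.coe_piCongrLeft]
    exact Equiv.piCongrLeft_apply_apply (fun _ : α => ℝ) e f i
  have hpre : Φ ⁻¹' (Icc a b) = Icc (a ∘ e) (b ∘ e) := by
    ext f
    have h1 : f = Φ f ∘ e := (happ f).symm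
    rw [mem_preimage]
    constructor
    · intro h
      rw [h1]
      exact ⟨fun i => h.1 (e i), fun i => h.2 (e i)⟩
    · intro h
      rw [h1] at h
      refine ⟨fun i => ?_, fun i => ?_⟩
      · have := h.1 (e.symm i)
        simpa using this
      · have := h.2 (e.symm i)
        simpa using this
  rw [gInt, gInt, ← hmp.setIntegral_preimage_emb Φ.measurableEmbedding, hpre]
  apply setIntegral_congr_fun measurableSet_Icc
  intro f _
  simp only
  rw [← det_gm_comp_equiv (Φ f) e, happ]

omit [DecidableEq α] [DecidableEq β] in
/-- Currying preserves the volume. -/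
lemma volume_preserving_uncurry : MeasurePreserving (MeasurableEquiv.curry α β ℝ).symm := by
  refine ⟨(MeasurableEquiv.curry α β ℝ).symm.measurable, ?_⟩
  symm
  refine Measure.pi_eq fun s hs => ?_
  rw [MeasurableEquiv.map_apply]
  have h1 : (MeasurableEquiv.curry α β ℝ).symm ⁻¹' (pi univ s) =
      pi univ fun i => pi univ fun j => s (i, j) := by
    ext f
    simp only [mem_preimage, Set.mem_pi, mem_univ, true_implies, Prod.forall]
    exact Iff.rfl
  rw [h1, volume_pi_pi]
  simp_rw [volume_pi_pi]
  rw [Fintype.prod_prod_type]

/-- The integral over a product of boxes, one for each block. -/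
lemma gInt_prod_le (k : ℕ) (a b : Fin k × β → ℝ) :
    gInt a b ≤ ∏ q, gInt (fun t => a (q, t)) (fun t => b (q, t)) := by
  set Φ := (MeasurableEquiv.curry (Fin k) β ℝ).symm with hΦ
  have hmp : MeasurePreserving Φ := volume_preserving_uncurry
  have hpre : Φ ⁻¹' (Icc a b) = pi univ fun q => Icc (fun t => a (q, t)) (fun t => b (q, t)) := by
    ext f
    simp only [mem_preimage, Set.mem_pi, mem_univ, true_implies]
    constructor
    · intro h q
      exact ⟨fun t => h.1 (q, t), fun t => h.2 (q, t)⟩
    · intro h
      exact ⟨fun p => (h p.1).1 p.2, fun p => (h p.1).2 p.2⟩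
  have hms : ∀ q : Fin k, MeasurableSet (Icc (fun t => a (q, t)) (fun t => b (q, t))) :=
    fun q => measurableSet_Icc
  calc gInt a b ≤ ∫ u in Icc a b, ∏ q, (gm fun t => u (q, t)).det := by
        apply setIntegral_mono (integrableOn_det_gm a b)
        · apply ContinuousOn.integrableOn_compact isCompact_Icc
          apply Continuous.continuousOn
          apply continuous_finsetProd
          intro q _
          exact continuous_det_gm.comp (continuous_pi fun t => continuous_apply (q, t))
        · exact fun u => det_gm_prod_le k u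
    _ = ∫ f in pi univ fun q => Icc (fun t => a (q, t)) (fun t => b (q, t)),
          ∏ q, (gm (f q)).det := by
        rw [← hmp.setIntegral_preimage_emb Φ.measurableEmbedding, hpre]
        rfl
    _ = ∫ f : Fin k → β → ℝ, ∏ q, (Icc (fun t => a (q, t)) (fun t => b (q, t))).indicator
          (fun w => (gm w).det) (f q) := by
        rw [← integral_indicator (MeasurableSet.univ_pi hms)]
        congr 1
        ext f
        by_cases hf : f ∈ pi univ fun q => Icc (fun t => a (q, t)) (fun t => b (q, t))
        · rw [indicator_of_mem hf]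
          apply Finset.prod_congr rfl
          intro q _
          rw [indicator_of_mem (hf q (mem_univ q))]
        · rw [indicator_of_notMem hf]
          simp only [Set.mem_pi, mem_univ, true_implies, not_forall] at hf
          obtain ⟨q, hq⟩ := hf
          symm
          apply Finset.prod_eq_zero (Finset.mem_univ q)
          exact indicator_of_notMem hq _
    _ = ∏ q, gInt (fun t => a (q, t)) (fun t => b (q, t)) := by
        rw [integral_fintype_prod_volume_eq_prod (E := fun _ : Fin k => β → ℝ)
          (fun q => (Icc (fun t => a (q, t)) (fun t => b (q, t))).indicator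
            (fun w => (gm w).det))]
        apply Finset.prod_congr rfl
        intro q _
        rw [integral_indicator (hms q)]
        rfl

end GInt

section Cell

lemma det_snoc_eq {l : ℕ} (u : Fin l → ℝ) (v : ℝ) :
    (gm (Fin.snoc u v : Fin (l + 1) → ℝ)).det = sineDet l (fun i => u i - v) := by
  have h1 : (Fin.snoc u v : Fin (l + 1) → ℝ) =
      fun i => (Fin.snoc (fun i => u i - v) 0 : Fin (l + 1) → ℝ) i + v := by
    ext i
    refine Fin.lastCases ?_ (fun i => ?_) i
    · simp
    · simp
  rw [h1, ← sineMatrix_eq_gm, sineMatrix_add]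
  rfl

/-- Fubini with the last coordinate outside. -/
lemma gInt_snoc (l : ℕ) (a b : Fin l → ℝ) (s t : ℝ) :
    gInt (Fin.snoc a s : Fin (l + 1) → ℝ) (Fin.snoc b t : Fin (l + 1) → ℝ) =
      ∫ v in Icc s t, ∫ u in Icc a b, sineDet l (fun i => u i - v) := by
  set e := MeasurableEquiv.piFinSuccAbove (fun _ : Fin (l + 1) => ℝ) (Fin.last l) with he
  have hem : MeasurePreserving e.symm :=
    (volume_preserving_piFinSuccAbove (fun _ : Fin (l + 1) => ℝ) (Fin.last l)).symm _
  have hsymm : ∀ p : ℝ × (Fin l → ℝ), e.symm p = (Fin.snoc p.2 p.1 : Fin (l + 1) → ℝ) := by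
    intro p
    simp [he, MeasurableEquiv.piFinSuccAbove, Fin.insertNthEquiv, Fin.insertNth_last']
  have hpre : e.symm ⁻¹' (Icc (Fin.snoc a s : Fin (l + 1) → ℝ) (Fin.snoc b t : Fin (l + 1) → ℝ)) =
      Icc s t ×ˢ Icc a b := by
    ext p
    rw [mem_preimage, hsymm, mem_prod]
    constructor
    · intro h
      refine ⟨⟨?_, ?_⟩, ⟨fun i => ?_, fun i => ?_⟩⟩
      · have := h.1 (Fin.last l)
        simpa using this
      · have := h.2 (Fin.last l)
        simpa using this
      · have := h.1 i.castSucc
        simpa using this
      · have := h.2 i.castSucc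
        simpa using this
    · intro h
      refine ⟨fun i => ?_, fun i => ?_⟩
      · refine Fin.lastCases ?_ (fun i => ?_) i
        · simpa using h.1.1
        · simpa using h.2.1 i
      · refine Fin.lastCases ?_ (fun i => ?_) i
        · simpa using h.1.2
        · simpa using h.2.2 i
  have hs : Continuous (fun p : ℝ × (Fin l → ℝ) => (Fin.snoc p.2 p.1 : Fin (l + 1) → ℝ)) := by
    rw [continuous_pi_iff]
    intro i
    refine Fin.lastCases ?_ (fun i => ?_) i
    · simpa using continuous_fst
    · simpa [Function.comp_def] using (continuous_apply i).comp continuous_snd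
  have hc : Continuous (fun p : ℝ × (Fin l → ℝ) => (gm (e.symm p)).det) :=
    (continuous_det_gm.comp hs).congr fun p => by rw [Function.comp_apply, hsymm]
  rw [gInt, ← hem.map_eq, setIntegral_map_equiv, hpre, Measure.volume_eq_prod, setIntegral_prod]
  · simp only [hsymm, det_snoc_eq]
  · rw [← Measure.volume_eq_prod]
    exact hc.continuousOn.integrableOn_compact (isCompact_Icc.prod isCompact_Icc)

lemma gInt_cell_le (l : ℕ) (a b : Fin l → ℝ) {s t : ℝ} (hst : s ≤ t) :
    gInt (Fin.snoc (fun i => a i + s) s : Fin (l + 1) → ℝ)
      (Fin.snoc (fun i => b i + t) t : Fin (l + 1) → ℝ) ≤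
      (t - s) * boxIntegral l (fun i => a i - (t - s)) (fun i => b i + (t - s)) := by
  rw [gInt_snoc]
  have hinner : ∀ v ∈ Icc s t, ∫ u in Icc (fun i => a i + s) (fun i => b i + t),
      sineDet l (fun i => u i - v) ≤
      boxIntegral l (fun i => a i - (t - s)) (fun i => b i + (t - s)) := by
    intro v hv
    have hint : Integrable ((Icc (fun i => a i - (t - s)) (fun i => b i + (t - s))).indicator
        (sineDet l)) := by
      rw [integrable_indicator_iff measurableSet_Icc]
      exact integrableOn_sineDet _ _
    rw [boxIntegral, ← integral_indicator measurableSet_Icc,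
      ← integral_indicator measurableSet_Icc,
      ← integral_sub_right_eq_self ((Icc (fun i => a i - (t - s))
        (fun i => b i + (t - s))).indicator (sineDet l)) (fun _ : Fin l => v)]
    apply integral_mono_of_nonneg
    · refine Eventually.of_forall fun u => ?_
      exact indicator_nonneg (fun _ _ => sineDet_nonneg _) _
    · exact hint.comp_sub_right _
    · refine Eventually.of_forall fun u => ?_
      beta_reduce
      by_cases hu : u ∈ Icc (fun i => a i + s) (fun i => b i + t)
      · rw [indicator_of_mem hu, indicator_of_mem]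
        · exact le_of_eq rfl
        · refine ⟨fun i => ?_, fun i => ?_⟩
          · have h1 : a i + s ≤ u i := hu.1 i
            change a i - (t - s) ≤ u i - v
            linarith [hv.2]
          · have h1 : u i ≤ b i + t := hu.2 i
            change u i - v ≤ b i + (t - s)
            linarith [hv.1]
      · rw [indicator_of_notMem hu]
        exact indicator_nonneg (fun _ _ => sineDet_nonneg _) _
  calc ∫ v in Icc s t, ∫ u in Icc (fun i => a i + s) (fun i => b i + t),
      sineDet l (fun i => u i - v) ≤
      ∫ v in Icc s t, boxIntegral l (fun i => a i - (t - s)) (fun i => b i + (t - s)) := by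
        apply integral_mono_of_nonneg
        · refine Eventually.of_forall fun v => ?_
          exact integral_nonneg fun u => sineDet_nonneg _
        · exact continuous_const.continuousOn.integrableOn_compact isCompact_Icc
        · rw [EventuallyLE, ae_restrict_iff' measurableSet_Icc]
          exact Eventually.of_forall hinner
    _ = _ := by
        rw [setIntegral_const, smul_eq_mul, Measure.real, Real.volume_Icc,
          ENNReal.toReal_ofReal (by linarith)]

/-- The box of a product of cells: `k` groups of `l + 1` coordinates; the last coordinate of each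
group is the base point of the group. -/
noncomputable def cellBox (k l : ℕ) (a : Fin l → ℝ) (s : Fin k → ℝ) : Fin (k * (l + 1)) → ℝ :=
  fun i => (Fin.snoc (fun i' => a i' + s (finProdFinEquiv.symm i).1)
    (s (finProdFinEquiv.symm i).1) : Fin (l + 1) → ℝ) (finProdFinEquiv.symm i).2

lemma boxIntegral_cellBox_le (k l : ℕ) (a b : Fin l → ℝ) (s t : Fin k → ℝ) {w : ℝ}
    (hst : ∀ q, t q - s q = w) (hw : 0 ≤ w) :
    boxIntegral (k * (l + 1)) (cellBox k l a s) (cellBox k l b t) ≤
      (w * boxIntegral l (fun i => a i - w) (fun i => b i + w)) ^ k := by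
  refine (boxIntegral_le_gInt _ _).trans ?_
  rw [gInt_comp finProdFinEquiv]
  refine (gInt_prod_le k _ _).trans ?_
  calc _ ≤ ∏ q : Fin k, (w * boxIntegral l (fun i => a i - w) (fun i => b i + w)) := by
        apply Finset.prod_le_prod
        · intro q _
          exact gInt_nonneg _ _
        · intro q _
          have h1 := gInt_cell_le l a b (s := s q) (t := t q) (by linarith [hst q])
          rw [hst q] at h1
          refine le_trans (le_of_eq ?_) h1
          congr 1
          · ext i
            simp [cellBox]
          · ext i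
            simp [cellBox]
    _ = _ := by simp

end Cell

end Pool.Agent.MP_67227b_nt
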