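import Pool.Agent.MP_67227b_nt.Tensor45

set_option autoImplicit false

open Filter MeasureTheory Topology Set
open scoped Real Nat

namespace Pool.Agent.MP_67227b_nt

variable {J : Type*} {γ : J → ℝ}

/-- The a priori information on the points: bounded moments of the counts in windows, uniformly in
the position of the window, and the law of large numbers in mean square. -/
structure Regular (h : GoodFamily γ) : Prop where
  mom : ∀ (p : ℕ) (w : ℝ), ∃ C : ℝ, 0 ≤ C ∧ ∀ s t : ℝ, s ≤ t → t - s ≤ w →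
    UB (Av h (fun T j => (Zst h s t T j + 1) ^ p)) C
  lln : ∀ δ : ℝ, 0 < δ → ∃ V₀ : ℝ, 0 < V₀ ∧ ∀ V : ℝ, V₀ ≤ V →
    UB (Av h (fun T j => (ZT h V T j / V - 1) ^ 2)) δ

open Classical in
/-- The number of the rescaled points in `[i, i+1)`. -/
noncomputable def cell (h : GoodFamily γ) (T : ℝ) (i : ℕ) : ℕ :=
  ((PT h T).filter (fun j => ⌊xT γ T j⌋₊ = i)).card

/-- All moments of the cell counts are bounded. -/
def CellMom (h : GoodFamily γ) : Prop :=
  ∀ p : ℕ, ∃ C : ℝ, 0 ≤ C ∧ ∀ᶠ T : ℝ in atTop,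
    ∑ i ∈ Finset.range (⌊zeroScale T⌋₊ + 1), (cell h T i : ℝ) ^ p ≤ C * zeroScale T

/-- The second moment of the counts in long windows has the expected size. -/
def PairLLN (h : GoodFamily γ) : Prop :=
  ∀ ε : ℝ, 0 < ε → ∃ V₀ : ℝ, 0 < V₀ ∧ ∀ V : ℝ, V₀ ≤ V →
    UB (fun T => (∑ i ∈ PT h T, ∑ j ∈ PT h T, max (V - |xT γ T i - xT γ T j|) 0) / zeroScale T)
      ((1 + ε) * V ^ 2)

end Pool.Agent.MP_67227b_nt
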