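import Pool.Agent.MP_67227b_nt.RegPalm67

set_option autoImplicit false

open Filter MeasureTheory Topology Set
open scoped Real Nat

namespace Pool.Agent.MP_67227b_nt

namespace RegLLN

open RegPalm

section Count

variable {J : Type*}

/-- The number of the points in the `n` cells `c, ..., c + n - 1`. -/
noncomputable def WW (P : Finset J) (f : J → ℤ) (n : ℕ) (c : ℤ) : ℝ :=
  ∑ e ∈ Finset.range n, cnt P f (c + e)

lemma WW_nonneg (P : Finset J) (f : J → ℤ) (n : ℕ) (c : ℤ) : 0 ≤ WW P f n c :=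
  Finset.sum_nonneg fun _ _ => cnt_nonneg _ _ _

/-- The indicator of the window. -/
noncomputable def ind (f : J → ℤ) (n : ℕ) (c : ℤ) (i : J) : ℝ :=
  if c ≤ f i ∧ f i < c + n then 1 else 0

lemma WW_eq (P : Finset J) (f : J → ℤ) (n : ℕ) (c : ℤ) :
    WW P f n c = ∑ i ∈ P, ind f n c i := by
  unfold WW
  simp_rw [cnt_eq_sum]
  rw [Finset.sum_comm]
  apply Finset.sum_congr rfl
  intro i _
  unfold ind
  split_ifs with h
  · rw [Finset.sum_eq_single (f i - c).toNat]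
    · rw [if_pos]
      rw [Int.toNat_of_nonneg (by omega)]
      ring
    · intro b _ hb
      rw [if_neg]
      intro h2
      apply hb
      omega
    · intro h2
      exfalso
      apply h2
      rw [Finset.mem_range]
      omega
  · apply Finset.sum_eq_zero
    intro e he
    rw [Finset.mem_range] at he
    rw [if_neg]
    intro h2
    apply h
    omega

lemma sum_WW (P : Finset J) (f : J → ℤ) (n : ℕ) (A : Finset ℤ)
    (hA : ∀ i ∈ P, Finset.Ioc (f i - n) (f i) ⊆ A) :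
    (n : ℝ) * P.card ≤ ∑ c ∈ A, WW P f n c := by
  simp_rw [WW_eq]
  rw [Finset.sum_comm]
  have h1 : ∀ i ∈ P, (n : ℝ) ≤ ∑ c ∈ A, ind f n c i := by
    intro i hi
    calc (n : ℝ) = ∑ c ∈ Finset.Ioc (f i - n) (f i), ind f n c i := by
          have : ∀ c ∈ Finset.Ioc (f i - n) (f i), ind f n c i = 1 := by
            intro c hc
            rw [Finset.mem_Ioc] at hc
            unfold ind
            rw [if_pos]
            omega
          rw [Finset.sum_congr rfl this, Finset.sum_const, nsmul_eq_mul, mul_one, Int.card_Ioc]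
          have : (f i - (f i - (n : ℤ))).toNat = n := by omega
          rw [this]
      _ ≤ ∑ c ∈ A, ind f n c i := by
          apply Finset.sum_le_sum_of_subset_of_nonneg (hA i hi)
          intro c _ _
          unfold ind
          split_ifs <;> norm_num
  calc (n : ℝ) * P.card = ∑ i ∈ P, (n : ℝ) := by
        rw [Finset.sum_const, nsmul_eq_mul, mul_comm]
    _ ≤ _ := Finset.sum_le_sum h1

lemma sum_ind_mul_le (x : J → ℝ) (n : ℕ) (A : Finset ℤ) (i j : J) :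
    ∑ c ∈ A, ind (fun i => ⌊x i⌋) n c i * ind (fun i => ⌊x i⌋) n c j ≤
      max ((n + 1 : ℕ) - |x i - x j|) 0 := by
  set f : J → ℤ := fun i => ⌊x i⌋ with hf
  have h1 : ∑ c ∈ A, ind f n c i * ind f n c j ≤
      ∑ c ∈ Finset.Ioc (max (f i) (f j) - n) (min (f i) (f j)), (1 : ℝ) := by
    have h2 : ∑ c ∈ A, ind f n c i * ind f n c j =
        ∑ c ∈ A.filter (fun c => (c ≤ f i ∧ f i < c + n) ∧ (c ≤ f j ∧ f j < c + n)), (1 : ℝ) := by
      rw [Finset.sum_filter]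
      apply Finset.sum_congr rfl
      intro c _
      unfold ind
      by_cases g1 : c ≤ f i ∧ f i < c + n
      · by_cases g2 : c ≤ f j ∧ f j < c + n
        · rw [if_pos g1, if_pos g2, if_pos ⟨g1, g2⟩, one_mul]
        · rw [if_neg g2, if_neg (fun g : (c ≤ f i ∧ f i < c + n) ∧ (c ≤ f j ∧ f j < c + n) => g2 g.2),
            mul_zero]
      · rw [if_neg g1, if_neg (fun g : (c ≤ f i ∧ f i < c + n) ∧ (c ≤ f j ∧ f j < c + n) => g1 g.1),
          zero_mul]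
    rw [h2]
    apply Finset.sum_le_sum_of_subset_of_nonneg
    · intro c hc
      rw [Finset.mem_filter] at hc
      rw [Finset.mem_Ioc]
      omega
    · intro _ _ _
      exact zero_le_one
  refine h1.trans ?_
  rw [Finset.sum_const, nsmul_eq_mul, mul_one, Int.card_Ioc]
  rcases le_or_gt (min (f i) (f j) - (max (f i) (f j) - n)) 0 with h | h
  · rw [Int.toNat_eq_zero.2 h]
    simp
  · apply le_max_of_le_left
    have e1 : (((min (f i) (f j) - (max (f i) (f j) - n)).toNat : ℕ) : ℝ) =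
        ((min (f i) (f j) - (max (f i) (f j) - n) : ℤ) : ℝ) := by
      have := Int.toNat_of_nonneg h.le
      exact_mod_cast congrArg (fun z : ℤ => (z : ℝ)) this
    rw [e1]
    have a1 := Int.floor_le (x i)
    have a2 := Int.lt_floor_add_one (x i)
    have a3 := Int.floor_le (x j)
    have a4 := Int.lt_floor_add_one (x j)
    push_cast
    rcases le_total (f i) (f j) with h3 | h3
    · have h4 : ((f i : ℤ) : ℝ) ≤ f j := by exact_mod_cast h3
      rw [min_eq_left h4, max_eq_right h4]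
      simp only [hf]
      have : |x i - x j| ≤ ⌊x j⌋ + 1 - ⌊x i⌋ := by
        simp only [hf] at h4
        rw [abs_le]
        constructor <;> linarith
      linarith
    · have h4 : ((f j : ℤ) : ℝ) ≤ f i := by exact_mod_cast h3
      rw [min_eq_right h4, max_eq_left h4]
      simp only [hf]
      have : |x i - x j| ≤ ⌊x i⌋ + 1 - ⌊x j⌋ := by
        simp only [hf] at h4
        rw [abs_le]
        constructor <;> linarith
      linarith

/-- The sum of the pairs with the tent weight. -/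
noncomputable def SP (P : Finset J) (x : J → ℝ) (V : ℝ) : ℝ :=
  ∑ i ∈ P, ∑ j ∈ P, max (V - |x i - x j|) 0

lemma sum_WW_sq (P : Finset J) (x : J → ℝ) (n : ℕ) (A : Finset ℤ) :
    ∑ c ∈ A, WW P (fun i => ⌊x i⌋) n c ^ 2 ≤ SP P x (n + 1 : ℕ) := by
  have h1 : ∀ c ∈ A, WW P (fun i => ⌊x i⌋) n c ^ 2 =
      ∑ i ∈ P, ∑ j ∈ P, ind (fun i => ⌊x i⌋) n c i * ind (fun i => ⌊x i⌋) n c j := by
    intro c _
    rw [WW_eq, sq, Finset.sum_mul_sum]
  rw [Finset.sum_congr rfl h1, Finset.sum_comm]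
  unfold SP
  apply Finset.sum_le_sum
  intro i _
  rw [Finset.sum_comm]
  apply Finset.sum_le_sum
  intro j _
  exact sum_ind_mul_le x n A i j

lemma sum_WW_six (P : Finset J) (f : J → ℤ) {n : ℕ} (hn : 0 < n) (A : Finset ℤ) :
    ∑ c ∈ A, (WW P f n c / n) ^ 6 ≤ MM P f 6 := by
  have hn' : (0 : ℝ) < n := by exact_mod_cast hn
  have h1 : ∀ c ∈ A, (WW P f n c / n) ^ 6 ≤
      1 / n * ∑ e ∈ Finset.range n, cnt P f (c + e) ^ 6 := by
    intro c _
    have h2 := pow_sum_div_card_le_sum_pow (s := Finset.range n)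
      (f := fun e : ℕ => cnt P f (c + e)) (fun _ _ => cnt_nonneg _ _ _) 5
    rw [Finset.card_range, div_le_iff₀ (by positivity)] at h2
    rw [div_pow, div_le_iff₀ (by positivity)]
    unfold WW
    refine h2.trans (le_of_eq ?_)
    field_simp
  refine (Finset.sum_le_sum h1).trans ?_
  rw [← Finset.mul_sum, Finset.sum_comm]
  have h3 : ∑ e ∈ Finset.range n, ∑ c ∈ A, cnt P f (c + e) ^ 6 ≤
      ∑ e ∈ Finset.range n, MM P f 6 := by
    apply Finset.sum_le_sum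
    intro e _
    exact sum_shift_le P f 6 (by norm_num) A e
  rw [Finset.sum_const, Finset.card_range, nsmul_eq_mul] at h3
  calc 1 / (n : ℝ) * ∑ e ∈ Finset.range n, ∑ c ∈ A, cnt P f (c + e) ^ 6 ≤
      1 / (n : ℝ) * (n * MM P f 6) := by gcongr
    _ = MM P f 6 := by field_simp

lemma young_six {η : ℝ} (hη : 0 < η) (N y : ℝ) :
    N * y ^ 2 ≤ η * N ^ 2 + η * y ^ 6 + 1 / η ^ 3 * y ^ 2 := by
  have h1 : N * y ^ 2 ≤ η * N ^ 2 + y ^ 4 / (4 * η) := by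
    have : 0 ≤ (2 * η * N - y ^ 2) ^ 2 / (4 * η) := by positivity
    have e : (2 * η * N - y ^ 2) ^ 2 / (4 * η) = η * N ^ 2 + y ^ 4 / (4 * η) - N * y ^ 2 := by
      field_simp
      ring
    linarith
  have h2 : y ^ 4 / (4 * η) ≤ η * y ^ 6 / 8 + 1 / (8 * η ^ 3) * y ^ 2 := by
    have : 0 ≤ y ^ 2 * (η ^ 2 * y ^ 2 - 1) ^ 2 / (8 * η ^ 3) := by positivity
    have e : y ^ 2 * (η ^ 2 * y ^ 2 - 1) ^ 2 / (8 * η ^ 3) =
        η * y ^ 6 / 8 + 1 / (8 * η ^ 3) * y ^ 2 - y ^ 4 / (4 * η) := by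
      field_simp
      ring
    linarith
  have h3 : 0 ≤ η * y ^ 6 := by positivity
  have h4 : 1 / (8 * η ^ 3) * y ^ 2 ≤ 1 / η ^ 3 * y ^ 2 := by
    gcongr
    have : 0 < η ^ 3 := by positivity
    linarith
  linarith

lemma sub_one_six {a : ℝ} (ha : 0 ≤ a) : (a - 1) ^ 6 ≤ a ^ 6 + 1 := by
  have e : (a - 1) ^ 6 = ((a - 1) ^ 2) ^ 3 := by ring
  rcases le_total a 1 with h | h
  · have h1 : (a - 1) ^ 2 ≤ 1 := by nlinarith
    have h2 : ((a - 1) ^ 2) ^ 3 ≤ 1 ^ 3 := by gcongr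
    have : 0 ≤ a ^ 6 := by positivity
    linarith
  · have h1 : (a - 1) ^ 2 ≤ a ^ 2 := by nlinarith
    have h2 : ((a - 1) ^ 2) ^ 3 ≤ (a ^ 2) ^ 3 := by gcongr
    have e2 : (a ^ 2) ^ 3 = a ^ 6 := by ring
    linarith

lemma sum_sq_points (P : Finset J) (f : J → ℤ) {n : ℕ} (hn : 0 < n) (A : Finset ℤ)
    (hA : P.image f ⊆ A) {η : ℝ} (hη : 0 < η) :
    ∑ j ∈ P, (WW P f n (f j) / n - 1) ^ 2 ≤
      η * (MM P f 2 + MM P f 6 + A.card) +
        1 / η ^ 3 * ∑ c ∈ A, (WW P f n c / n - 1) ^ 2 := by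
  rw [sum_comp P f (fun c => (WW P f n c / n - 1) ^ 2)]
  have h1 : ∑ k ∈ P.image f, cnt P f k * (WW P f n k / n - 1) ^ 2 ≤
      ∑ k ∈ P.image f, (η * cnt P f k ^ 2 + (η * (WW P f n k / n - 1) ^ 6 +
        1 / η ^ 3 * (WW P f n k / n - 1) ^ 2)) := by
    apply Finset.sum_le_sum
    intro k _
    have := young_six hη (cnt P f k) (WW P f n k / n - 1)
    linarith
  refine h1.trans ?_
  rw [Finset.sum_add_distrib, ← Finset.mul_sum]
  have h2 : ∑ k ∈ P.image f, (η * (WW P f n k / n - 1) ^ 6 +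
        1 / η ^ 3 * (WW P f n k / n - 1) ^ 2) ≤
      ∑ k ∈ A, (η * (WW P f n k / n - 1) ^ 6 +
        1 / η ^ 3 * (WW P f n k / n - 1) ^ 2) := by
    apply Finset.sum_le_sum_of_subset_of_nonneg hA
    intro k _ _
    positivity
  have h3 : ∑ k ∈ A, (WW P f n k / n - 1) ^ 6 ≤ MM P f 6 + A.card := by
    have h4 : ∑ k ∈ A, (WW P f n k / n - 1) ^ 6 ≤ ∑ k ∈ A, ((WW P f n k / n) ^ 6 + 1) := by
      apply Finset.sum_le_sum
      intro k _
      exact sub_one_six (div_nonneg (WW_nonneg _ _ _ _) (Nat.cast_nonneg n))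
    rw [Finset.sum_add_distrib, Finset.sum_const, nsmul_eq_mul, mul_one] at h4
    have := sum_WW_six P f hn A
    linarith
  have h2' : ∑ k ∈ A, (η * (WW P f n k / n - 1) ^ 6 + 1 / η ^ 3 * (WW P f n k / n - 1) ^ 2) =
      η * ∑ k ∈ A, (WW P f n k / n - 1) ^ 6 + 1 / η ^ 3 * ∑ k ∈ A, (WW P f n k / n - 1) ^ 2 := by
    rw [Finset.sum_add_distrib, ← Finset.mul_sum, ← Finset.mul_sum]
  rw [h2'] at h2
  have h5 : η * ∑ k ∈ A, (WW P f n k / n - 1) ^ 6 ≤ η * (MM P f 6 + A.card) := by gcongr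
  have e : ∑ k ∈ P.image f, cnt P f k ^ 2 = MM P f 2 := rfl
  rw [e]
  linarith

lemma sum_sq_cells (P : Finset J) (x : J → ℝ) {n : ℕ} (hn : 0 < n) (A : Finset ℤ)
    (hA : ∀ i ∈ P, Finset.Ioc (⌊x i⌋ - n) ⌊x i⌋ ⊆ A) :
    ∑ c ∈ A, (WW P (fun i => ⌊x i⌋) n c / n - 1) ^ 2 ≤
      SP P x (n + 1 : ℕ) / n ^ 2 - 2 * P.card + A.card := by
  have hn' : (0 : ℝ) < n := by exact_mod_cast hn
  have h1 := sum_WW_sq P x n A
  have h2 := sum_WW P (fun i => ⌊x i⌋) n A hA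
  have e : ∑ c ∈ A, (WW P (fun i => ⌊x i⌋) n c / n - 1) ^ 2 =
      (∑ c ∈ A, WW P (fun i => ⌊x i⌋) n c ^ 2) / n ^ 2 -
        2 * ((∑ c ∈ A, WW P (fun i => ⌊x i⌋) n c) / n) + A.card := by
    have : ∀ c ∈ A, (WW P (fun i => ⌊x i⌋) n c / n - 1) ^ 2 =
        WW P (fun i => ⌊x i⌋) n c ^ 2 / n ^ 2 - 2 * (WW P (fun i => ⌊x i⌋) n c / n) + 1 := by
      intro c _
      ring
    rw [Finset.sum_congr rfl this, Finset.sum_add_distrib, Finset.sum_sub_distrib,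
      Finset.sum_const, nsmul_eq_mul, mul_one, ← Finset.sum_div, ← Finset.mul_sum,
      ← Finset.sum_div]
  rw [e]
  have h3 : (P.card : ℝ) ≤ (∑ c ∈ A, WW P (fun i => ⌊x i⌋) n c) / n := by
    rw [le_div_iff₀ hn']
    linarith
  have h4 : (∑ c ∈ A, WW P (fun i => ⌊x i⌋) n c ^ 2) / n ^ 2 ≤
      SP P x (n + 1 : ℕ) / n ^ 2 := by gcongr
  linarith

lemma Z_le_WW (P : Finset J) (x : J → ℝ) (j : J) {V : ℝ} {n : ℕ} (hV : V < n + 1) :
    (Z P x j 0 V : ℝ) ≤ WW P (fun i => ⌊x i⌋) n ⌊x j⌋ +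
      (cnt P (fun i => ⌊x i⌋) (⌊x j⌋ + n) + cnt P (fun i => ⌊x i⌋) (⌊x j⌋ + (n + 1 : ℕ))) := by
  classical
  have e : WW P (fun i => ⌊x i⌋) n ⌊x j⌋ +
      (cnt P (fun i => ⌊x i⌋) (⌊x j⌋ + n) + cnt P (fun i => ⌊x i⌋) (⌊x j⌋ + (n + 1 : ℕ))) =
      WW P (fun i => ⌊x i⌋) (n + 2) ⌊x j⌋ := by
    unfold WW
    rw [Finset.sum_range_succ, Finset.sum_range_succ]
    ring
  rw [e, WW_eq]
  have h1 : (Z P x j 0 V : ℝ) = ∑ i ∈ near P x j 0 V, (1 : ℝ) := by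
    rw [Finset.sum_const, nsmul_eq_mul, mul_one, Z]
  rw [h1]
  have h2 : ∑ i ∈ near P x j 0 V, (1 : ℝ) ≤
      ∑ i ∈ near P x j 0 V, ind (fun i => ⌊x i⌋) (n + 2) ⌊x j⌋ i := by
    apply Finset.sum_le_sum
    intro i hi
    rw [mem_near] at hi
    obtain ⟨-, -, hs, ht⟩ := hi
    unfold ind
    rw [if_pos]
    constructor
    · exact Int.floor_le_floor (by linarith)
    · rw [Int.floor_lt]
      push_cast
      have := Int.lt_floor_add_one (x j)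
      linarith
  refine h2.trans ?_
  apply Finset.sum_le_sum_of_subset_of_nonneg
  · intro i hi
    exact (mem_near.1 hi).1
  · intro i _ _
    unfold ind
    split_ifs <;> norm_num

lemma WW_le_Z (P : Finset J) (x : J → ℝ) (j : J) {V : ℝ} {n : ℕ} (hV : (n : ℝ) ≤ V)
    (hn : 0 < n) :
    WW P (fun i => ⌊x i⌋) n ⌊x j⌋ ≤ (Z P x j 0 V : ℝ) + cnt P (fun i => ⌊x i⌋) (⌊x j⌋ + 0) := by
  classical
  obtain ⟨m, rfl⟩ : ∃ m, n = m + 1 := ⟨n - 1, by omega⟩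
  have e : WW P (fun i => ⌊x i⌋) (m + 1) ⌊x j⌋ =
      WW P (fun i => ⌊x i⌋) m (⌊x j⌋ + 1) + cnt P (fun i => ⌊x i⌋) (⌊x j⌋ + 0) := by
    unfold WW
    rw [Finset.sum_range_succ']
    congr 1
    apply Finset.sum_congr rfl
    intro k _
    congr 1
    push_cast
    ring
  rw [e]
  gcongr
  rw [WW_eq]
  have h1 : (Z P x j 0 V : ℝ) = ∑ i ∈ near P x j 0 V, (1 : ℝ) := by
    rw [Finset.sum_const, nsmul_eq_mul, mul_one, Z]
  rw [h1]
  have h2 : ∑ i ∈ P, ind (fun i => ⌊x i⌋) m (⌊x j⌋ + 1) i =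
      ∑ i ∈ P.filter (fun i => ⌊x j⌋ + 1 ≤ ⌊x i⌋ ∧ ⌊x i⌋ < ⌊x j⌋ + 1 + m), (1 : ℝ) := by
    rw [Finset.sum_filter]
    rfl
  rw [h2]
  apply Finset.sum_le_sum_of_subset_of_nonneg
  · intro i hi
    rw [Finset.mem_filter] at hi
    obtain ⟨hiP, h3, h4⟩ := hi
    have h5 : ((⌊x j⌋ + 1 : ℤ) : ℝ) ≤ x i := Int.le_floor.1 h3
    have h6 : x i < ((⌊x j⌋ + 1 + m : ℤ) : ℝ) := Int.floor_lt.1 h4
    push_cast at h5 h6 hV
    have h7 := Int.lt_floor_add_one (x j)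
    have h8 := Int.floor_le (x j)
    rw [mem_near]
    refine ⟨hiP, ?_, by linarith, by linarith⟩
    rintro rfl
    linarith
  · intro _ _ _
    exact zero_le_one

/-- The pointwise comparison. -/
lemma point_le (P : Finset J) (x : J → ℝ) (j : J) {V : ℝ} {n : ℕ} (hV : (n : ℝ) ≤ V)
    (hV' : V < n + 1) (hn : 0 < n) :
    ((Z P x j 0 V : ℝ) / V - 1) ^ 2 ≤
      3 * ((WW P (fun i => ⌊x i⌋) n ⌊x j⌋ / n - 1) ^ 2 + 1 / n ^ 2 +
        3 * (cnt P (fun i => ⌊x i⌋) (⌊x j⌋ + 0) ^ 2 + cnt P (fun i => ⌊x i⌋) (⌊x j⌋ + n) ^ 2 +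
          cnt P (fun i => ⌊x i⌋) (⌊x j⌋ + (n + 1 : ℕ)) ^ 2) / n ^ 2) := by
  have hn' : (0 : ℝ) < n := by exact_mod_cast hn
  have hV0 : 0 < V := by linarith
  set W := WW P (fun i => ⌊x i⌋) n ⌊x j⌋
  set a := cnt P (fun i => ⌊x i⌋) (⌊x j⌋ + 0)
  set b := cnt P (fun i => ⌊x i⌋) (⌊x j⌋ + n)
  set c := cnt P (fun i => ⌊x i⌋) (⌊x j⌋ + (n + 1 : ℕ))
  set z : ℝ := (Z P x j 0 V : ℝ)
  have ha : 0 ≤ a := cnt_nonneg _ _ _
  have hb : 0 ≤ b := cnt_nonneg _ _ _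
  have hc : 0 ≤ c := cnt_nonneg _ _ _
  have h1 : z ≤ W + (b + c) := Z_le_WW P x j hV'
  have h2 : W ≤ z + a := WW_le_Z P x j hV hn
  have e : z / V - 1 = (W / n - 1) * (n / V) + (n / V - 1) + (z - W) / V := by
    field_simp
    ring
  rw [e]
  have hp : 0 ≤ n / V := by positivity
  have hq : n / V ≤ 1 := by
    rw [div_le_one hV0]
    exact hV
  have h3 : ((W / n - 1) * (n / V)) ^ 2 ≤ (W / n - 1) ^ 2 := by
    rw [mul_pow]
    have : (n / V) ^ 2 ≤ 1 := by nlinarith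
    nlinarith [sq_nonneg (W / n - 1)]
  have h4 : (n / V - 1) ^ 2 ≤ 1 / n ^ 2 := by
    have h5 : 1 - n / V ≤ 1 / n := by
      rw [sub_le_iff_le_add, div_add_div _ _ hn'.ne' hV0.ne', le_div_iff₀ (by positivity)]
      nlinarith
    have h6 : 0 ≤ 1 - n / V := by linarith
    have e2 : (n / V - 1) ^ 2 = (1 - n / V) ^ 2 := by ring
    rw [e2]
    calc (1 - n / V) ^ 2 ≤ (1 / (n : ℝ)) ^ 2 := by gcongr
      _ = 1 / (n : ℝ) ^ 2 := by rw [div_pow, one_pow]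
  have h5 : ((z - W) / V) ^ 2 ≤ 3 * (a ^ 2 + b ^ 2 + c ^ 2) / n ^ 2 := by
    have h6 : |z - W| ≤ a + b + c := by
      rw [abs_le]
      constructor <;> linarith
    have h7 : (z - W) ^ 2 ≤ (a + b + c) ^ 2 := by
      rw [← sq_abs (z - W)]
      gcongr
    have h8 : (a + b + c) ^ 2 ≤ 3 * (a ^ 2 + b ^ 2 + c ^ 2) := by
      nlinarith [sq_nonneg (a - b), sq_nonneg (b - c), sq_nonneg (a - c)]
    rw [div_pow]
    calc (z - W) ^ 2 / V ^ 2 ≤ (3 * (a ^ 2 + b ^ 2 + c ^ 2)) / V ^ 2 := by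
          gcongr
          exact h7.trans h8
      _ ≤ (3 * (a ^ 2 + b ^ 2 + c ^ 2)) / n ^ 2 := by gcongr
  set p := (W / n - 1) * (n / V)
  set q := (n / V - 1)
  set r := (z - W) / V
  have h9 : (p + q + r) ^ 2 ≤ 3 * (p ^ 2 + q ^ 2 + r ^ 2) := by
    nlinarith [sq_nonneg (p - q), sq_nonneg (q - r), sq_nonneg (p - r)]
  linarith

/-- The mean square of the counts in long windows, for a finite family. -/
lemma sum_Z_sq_le (P : Finset J) (x : J → ℝ) {V : ℝ} {n : ℕ} (hV : (n : ℝ) ≤ V)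
    (hV' : V < n + 1) (hn : 0 < n) (A : Finset ℤ)
    (hA : ∀ i ∈ P, Finset.Ioc (⌊x i⌋ - n) ⌊x i⌋ ⊆ A) {η : ℝ} (hη : 0 < η) :
    ∑ j ∈ P, ((Z P x j 0 V : ℝ) / V - 1) ^ 2 ≤
      3 * (η * (MM P (fun i => ⌊x i⌋) 2 + MM P (fun i => ⌊x i⌋) 6 + A.card) +
        1 / η ^ 3 * (SP P x (n + 1 : ℕ) / n ^ 2 - 2 * P.card + A.card) + P.card / n ^ 2 +
        18 * MM P (fun i => ⌊x i⌋) 3 / n ^ 2) := by
  have hn' : (0 : ℝ) < n := by exact_mod_cast hn
  set f : J → ℤ := fun i => ⌊x i⌋ with hf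
  refine (Finset.sum_le_sum fun j _ => point_le P x j hV hV' hn).trans ?_
  rw [← Finset.mul_sum, Finset.sum_add_distrib, Finset.sum_add_distrib]
  have h1 : ∑ j ∈ P, (WW P f n (f j) / n - 1) ^ 2 ≤
      η * (MM P f 2 + MM P f 6 + A.card) +
        1 / η ^ 3 * (SP P x (n + 1 : ℕ) / n ^ 2 - 2 * P.card + A.card) := by
    have hA' : P.image f ⊆ A := by
      intro k hk
      rw [Finset.mem_image] at hk
      obtain ⟨i, hi, rfl⟩ := hk
      apply hA i hi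
      rw [Finset.mem_Ioc]
      constructor
      · have : (0 : ℤ) < n := by exact_mod_cast hn
        simp only [hf]
        omega
      · exact le_rfl
    have h2 := sum_sq_points P f hn A hA' hη
    have h3 := sum_sq_cells P x hn A hA
    have h4 : 1 / η ^ 3 * ∑ c ∈ A, (WW P f n c / n - 1) ^ 2 ≤
        1 / η ^ 3 * (SP P x (n + 1 : ℕ) / n ^ 2 - 2 * P.card + A.card) := by
      gcongr
    linarith
  have h2 : ∑ _j ∈ P, (1 : ℝ) / n ^ 2 = P.card / n ^ 2 := by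
    rw [Finset.sum_const, nsmul_eq_mul]
    ring
  have h3 : ∑ j ∈ P, 3 * (cnt P f (f j + 0) ^ 2 + cnt P f (f j + n) ^ 2 +
          cnt P f (f j + (n + 1 : ℕ)) ^ 2) / (n : ℝ) ^ 2 ≤ 18 * MM P f 3 / n ^ 2 := by
    rw [← Finset.sum_div, ← Finset.mul_sum, Finset.sum_add_distrib, Finset.sum_add_distrib]
    have a1 := sum_cnt_shift P f 2 0
    have a2 := sum_cnt_shift P f 2 n
    have a3 := sum_cnt_shift P f 2 (n + 1 : ℕ)
    have a4 : 3 * (∑ x ∈ P, cnt P f (f x + 0) ^ 2 + ∑ x ∈ P, cnt P f (f x + n) ^ 2 +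
        ∑ x ∈ P, cnt P f (f x + (n + 1 : ℕ)) ^ 2) ≤ 18 * MM P f 3 := by
      have e : MM P f (2 + 1) = MM P f 3 := rfl
      rw [e] at a1 a2 a3
      linarith
    exact div_le_div_of_nonneg_right a4 (by positivity)
  have h4 : ∑ j ∈ P, (WW P f n ⌊x j⌋ / n - 1) ^ 2 = ∑ j ∈ P, (WW P f n (f j) / n - 1) ^ 2 := rfl
  have h5 : ∑ j ∈ P, 3 * (cnt P f (⌊x j⌋ + 0) ^ 2 + cnt P f (⌊x j⌋ + n) ^ 2 +
          cnt P f (⌊x j⌋ + (n + 1 : ℕ)) ^ 2) / (n : ℝ) ^ 2 =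
      ∑ j ∈ P, 3 * (cnt P f (f j + 0) ^ 2 + cnt P f (f j + n) ^ 2 +
          cnt P f (f j + (n + 1 : ℕ)) ^ 2) / (n : ℝ) ^ 2 := rfl
  rw [h4, h5, h2]
  linarith

end Count

variable {J : Type*} {γ : J → ℝ}

lemma exists_min (h : GoodFamily γ) : ∃ g : ℝ, 0 < g ∧ ∀ j, g ≤ γ j := by
  classical
  set S := PT h 1 with hS
  rcases S.eq_empty_or_nonempty with h0 | h0
  · refine ⟨1, one_pos, fun j => ?_⟩
    by_contra hj
    have : j ∈ S := (mem_PT h 1 j).2 (not_le.1 hj).le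
    rw [h0] at this
    simp at this
  · obtain ⟨m, hm, hmin⟩ := S.exists_min_image γ h0
    refine ⟨min 1 (γ m), lt_min one_pos (h.pos m), fun j => ?_⟩
    rcases le_or_gt (γ j) 1 with hj | hj
    · exact (min_le_right _ _).trans (hmin j ((mem_PT h 1 j).2 hj))
    · exact (min_le_left _ _).trans hj.le

lemma eventually_far (h : GoodFamily γ) (n : ℕ) :
    ∀ᶠ T : ℝ in atTop, ∀ j, (n : ℝ) ≤ xT γ T j := by
  obtain ⟨g, hg, hmin⟩ := exists_min h
  have h1 : ∀ᶠ T : ℝ in atTop, (n : ℝ) * (2 * π) / g ≤ Real.log T :=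
    Real.tendsto_log_atTop.eventually (eventually_ge_atTop _)
  filter_upwards [h1, eventually_gt_atTop (1 : ℝ)] with T hT hT1 j
  have h2 := Real.log_pos hT1
  rw [div_le_iff₀ hg] at hT
  unfold xT
  have h3 : g * (Real.log T / (2 * π)) ≤ γ j * (Real.log T / (2 * π)) := by
    have := hmin j
    gcongr
  refine le_trans ?_ h3
  rw [mul_div_assoc', le_div_iff₀ (by positivity)]
  linarith

end RegLLN

open RegPalm RegLLN in
variable {J : Type*} {γ : J → ℝ} in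
/-- The law of large numbers seen from the points. -/
theorem lln_of_pairLLN (h : GoodFamily γ) (hc : CellMom h) (hp : PairLLN h) :
    ∀ δ : ℝ, 0 < δ → ∃ V₀ : ℝ, 0 < V₀ ∧ ∀ V : ℝ, V₀ ≤ V →
      UB (Av h (fun T j => (ZT h V T j / V - 1) ^ 2)) δ := by
  intro δ hδ
  obtain ⟨C2, hC2, h2⟩ := MM_bound h hc 2
  obtain ⟨C3, hC3, h3⟩ := MM_bound h hc 3
  obtain ⟨C6, hC6, h6⟩ := MM_bound h hc 6
  set η : ℝ := δ / (9 * (C2 + C6 + 2)) with hη
  have hη0 : 0 < η := by positivity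
  set K : ℝ := 1 / η ^ 3 with hK
  have hK0 : 0 < K := by positivity
  set ε : ℝ := min 1 (δ / (45 * K)) with hε
  have hε0 : 0 < ε := by positivity
  have hε1 : ε ≤ 1 := min_le_left _ _
  have hε2 : 45 * K * ε ≤ δ := by
    have : ε ≤ δ / (45 * K) := min_le_right _ _
    rw [le_div_iff₀ (by positivity)] at this
    linarith
  obtain ⟨V1, hV1, hV⟩ := hp ε hε0
  obtain ⟨n₀, hn₀⟩ := exists_nat_gt (9 * (9 * K + 2 + 18 * C3) / δ)
  refine ⟨max V1 (n₀ + 1), by positivity, fun V hVV => ?_⟩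
  have hVa : V1 ≤ V := (le_max_left _ _).trans hVV
  have hVb : (n₀ : ℝ) + 1 ≤ V := (le_max_right _ _).trans hVV
  have hV0 : 0 ≤ V := by
    have : (0 : ℝ) ≤ n₀ := Nat.cast_nonneg _
    linarith
  set n : ℕ := ⌊V⌋₊ with hn
  have hnV : (n : ℝ) ≤ V := Nat.floor_le hV0
  have hVn : V < n + 1 := Nat.lt_floor_add_one V
  have hn0 : n₀ < n := by
    have : (n₀ : ℝ) < n := by linarith
    exact_mod_cast this
  have hnpos : 0 < n := by omega
  have hn' : (0 : ℝ) < n := by exact_mod_cast hnpos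
  have hn1 : (1 : ℝ) ≤ n := by exact_mod_cast hnpos
  have hSP := hV (n + 1 : ℕ) (by push_cast; linarith) ε hε0
  have hone := tendsto_Av_one h
  have hlo : ∀ᶠ T : ℝ in atTop, 1 - ε ≤ Av h (fun _ _ => 1) T :=
    hone.eventually (le_mem_nhds (by linarith))
  have hhi : ∀ᶠ T : ℝ in atTop, Av h (fun _ _ => 1) T ≤ 2 :=
    hone.eventually (ge_mem_nhds (by norm_num))
  have hZ1 : ∀ᶠ T : ℝ in atTop, 1 / ε ≤ zeroScale T :=
    tendsto_zeroScale.eventually (eventually_ge_atTop _)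
  intro ε' hε'
  filter_upwards [h2, h3, h6, hSP, hlo, hhi, hZ1, eventually_far h n,
    eventually_gt_atTop (1 : ℝ)] with T a2 a3 a6 aSP alo ahi aZ afar hT
  have hX := zeroScale_pos hT
  set X := zeroScale T with hXdef
  rw [div_le_iff₀ hε0] at aZ
  have hcard : ((PT h T).card : ℝ) = Av h (fun _ _ => 1) T * X := by
    unfold Av
    rw [Finset.sum_const, nsmul_eq_mul, mul_one, div_mul_cancel₀ _ hX.ne']
  have hclo : (1 - ε) * X ≤ ((PT h T).card : ℝ) := by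
    rw [hcard]
    gcongr
  have hchi : ((PT h T).card : ℝ) ≤ 2 * X := by
    rw [hcard]
    gcongr
  set A : Finset ℤ := Finset.Icc 0 ⌊X⌋ with hAdef
  have hAcard : (A.card : ℝ) ≤ X + 1 := by
    rw [hAdef, Int.card_Icc]
    have h0 : (0 : ℤ) ≤ ⌊X⌋ := Int.floor_nonneg.2 hX.le
    have e : (((⌊X⌋ + 1 - 0).toNat : ℕ) : ℝ) = ((⌊X⌋ + 1 - 0 : ℤ) : ℝ) := by
      have := Int.toNat_of_nonneg (a := ⌊X⌋ + 1 - 0) (by omega)
      exact_mod_cast congrArg (fun z : ℤ => (z : ℝ)) this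
    rw [e]
    push_cast
    have := Int.floor_le X
    linarith
  have hAcard' : (A.card : ℝ) ≤ (1 + ε) * X := by linarith
  have hAcard2 : (A.card : ℝ) ≤ 2 * X := by nlinarith
  have hA : ∀ i ∈ PT h T, Finset.Ioc (⌊xT γ T i⌋ - n) ⌊xT γ T i⌋ ⊆ A := by
    intro i hi k hk
    rw [Finset.mem_Ioc] at hk
    rw [hAdef, Finset.mem_Icc]
    have b1 : (n : ℤ) ≤ ⌊xT γ T i⌋ := by
      rw [Int.le_floor]
      exact_mod_cast afar i
    have b2 : ⌊xT γ T i⌋ ≤ ⌊X⌋ := Int.floor_le_floor (xT_le h hT hi)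
    omega
  have key := sum_Z_sq_le (PT h T) (xT γ T) hnV hVn hnpos A hA hη0
  have eSP : SP (PT h T) (xT γ T) (n + 1 : ℕ) ≤ ((1 + ε) * ((n + 1 : ℕ) : ℝ) ^ 2 + ε) * X := by
    rw [div_le_iff₀ hX] at aSP
    exact aSP
  -- the variance
  have hvar : SP (PT h T) (xT γ T) (n + 1 : ℕ) / n ^ 2 - 2 * (PT h T).card + A.card ≤
      (5 * ε + 9 / n) * X := by
    have c1 : SP (PT h T) (xT γ T) (n + 1 : ℕ) / n ^ 2 ≤
        ((1 + ε) * ((n + 1 : ℕ) : ℝ) ^ 2 + ε) * X / n ^ 2 := by gcongr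
    have c2 : ((1 + ε) * ((n + 1 : ℕ) : ℝ) ^ 2 + ε) / n ^ 2 ≤ 1 + 2 * ε + 9 / n := by
      rw [div_le_iff₀ (by positivity)]
      push_cast
      have e1 : (1 + 2 * ε + 9 / (n : ℝ)) * (n : ℝ) ^ 2 = (1 + 2 * ε) * n ^ 2 + 9 * n := by
        field_simp
      rw [e1]
      nlinarith
    have c3 : ((1 + ε) * ((n + 1 : ℕ) : ℝ) ^ 2 + ε) * X / n ^ 2 ≤
        (1 + 2 * ε + 9 / n) * X := by
      have e1 : ((1 + ε) * ((n + 1 : ℕ) : ℝ) ^ 2 + ε) * X / (n : ℝ) ^ 2 =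
        (((1 + ε) * ((n + 1 : ℕ) : ℝ) ^ 2 + ε) / n ^ 2) * X := by ring
      rw [e1]
      gcongr
    linarith
  have d1 : η * (MM (PT h T) (fl γ T) 2 + MM (PT h T) (fl γ T) 6 + A.card) ≤
      η * ((C2 + C6 + 2) * X) := by
    gcongr
    linarith
  have d2 : K * (SP (PT h T) (xT γ T) (n + 1 : ℕ) / n ^ 2 - 2 * (PT h T).card + A.card) ≤
      K * ((5 * ε + 9 / n) * X) := by gcongr
  have hnn : (n : ℝ) ≤ (n : ℝ) ^ 2 := by nlinarith
  have d3 : ((PT h T).card : ℝ) / n ^ 2 ≤ 2 * X / n := by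
    rw [div_le_div_iff₀ (by positivity) hn']
    have g : ((PT h T).card : ℝ) * n ≤ (2 * X) * n ^ 2 := by gcongr
    exact g
  have d4 : 18 * MM (PT h T) (fl γ T) 3 / (n : ℝ) ^ 2 ≤ 18 * C3 * X / n := by
    rw [div_le_div_iff₀ (by positivity) hn']
    have g1 : MM (PT h T) (fl γ T) 3 * n ≤ C3 * X * n := by gcongr
    have g2 : C3 * X * n ≤ C3 * X * n ^ 2 := by gcongr
    linarith
  have key2 : ∑ j ∈ PT h T, (ZT h V T j / V - 1) ^ 2 ≤
      3 * (η * ((C2 + C6 + 2) * X) + K * ((5 * ε + 9 / n) * X) + 2 * X / n +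
        18 * C3 * X / n) := by
    refine le_trans key ?_
    have e1 : MM (PT h T) (fun i => ⌊xT γ T i⌋) 2 = MM (PT h T) (fl γ T) 2 := rfl
    have e2 : MM (PT h T) (fun i => ⌊xT γ T i⌋) 6 = MM (PT h T) (fl γ T) 6 := rfl
    have e3 : MM (PT h T) (fun i => ⌊xT γ T i⌋) 3 = MM (PT h T) (fl γ T) 3 := rfl
    rw [e1, e2, e3]
    linarith
  have f1 : 3 * (η * ((C2 + C6 + 2) * X)) = δ / 3 * X := by
    rw [hη]
    field_simp
    ring
  have f2 : 3 * (K * (5 * ε * X)) ≤ δ / 3 * X := by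
    have : 3 * (K * (5 * ε)) ≤ δ / 3 := by linarith
    nlinarith
  have f3 : 3 * (K * (9 / n * X)) + 3 * (2 * X / n) + 3 * (18 * C3 * X / n) ≤ δ / 3 * X := by
    have g1 : 9 * (9 * K + 2 + 18 * C3) / δ < n := by
      have : (n₀ : ℝ) < n := by exact_mod_cast hn0
      linarith
    rw [div_lt_iff₀ hδ] at g1
    have e1 : 3 * (K * (9 / n * X)) + 3 * (2 * X / n) + 3 * (18 * C3 * X / n) =
        (3 * (9 * K + 2 + 18 * C3)) / n * X := by
      field_simp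
    rw [e1]
    have g2 : (3 * (9 * K + 2 + 18 * C3)) / n ≤ δ / 3 := by
      rw [div_le_div_iff₀ hn' (by norm_num)]
      linarith
    gcongr
  unfold Av
  rw [div_le_iff₀ hX]
  have f4 : 0 ≤ ε' * X := by positivity
  calc ∑ j ∈ PT h T, (ZT h V T j / V - 1) ^ 2 ≤
      3 * (η * ((C2 + C6 + 2) * X) + K * ((5 * ε + 9 / n) * X) + 2 * X / n +
        18 * C3 * X / n) := key2
    _ = 3 * (η * ((C2 + C6 + 2) * X)) + 3 * (K * (5 * ε * X)) +
        (3 * (K * (9 / n * X)) + 3 * (2 * X / n) + 3 * (18 * C3 * X / n)) := by ring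
    _ ≤ δ / 3 * X + δ / 3 * X + δ / 3 * X := by linarith
    _ = δ * X := by ring
    _ ≤ (δ + ε') * X := by rw [add_mul]; linarith

variable {J : Type*} {γ : J → ℝ}

theorem regular_of (h : GoodFamily γ) (hc : CellMom h) (hp : PairLLN h) : Regular h :=
  ⟨mom_of_cellMom h hc, lln_of_pairLLN h hc hp⟩

end Pool.Agent.MP_67227b_nt
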