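import Pool.Agent.MP_67227b_nt.FarTensor67

set_option autoImplicit false

open Filter MeasureTheory Topology Set
open scoped Real Nat

namespace Pool.Agent.MP_67227b_nt

/-- The `m + 1` points `0, u_1, ..., u_m` of a box split into groups of at most `L` points, points
of different groups being at distance at least `A`: there is a colouring `g` of the `m + 1` points
(the first one is the origin) such that every colour occurs at most `L` times and the intervals of
two points with different colours have distance at least `A`. -/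
def SpreadBox (A : ℝ) (L : ℕ) {m : ℕ} (a b : Fin m → ℝ) : Prop :=
  ∃ g : Fin (m + 1) → ℕ, (∀ i, (Finset.univ.filter (fun j => g j = g i)).card ≤ L) ∧
    ∀ i j, g i ≠ g j →
      A ≤ (Fin.cons 0 a : Fin (m + 1) → ℝ) i - (Fin.cons 0 b : Fin (m + 1) → ℝ) j ∨
      A ≤ (Fin.cons 0 a : Fin (m + 1) → ℝ) j - (Fin.cons 0 b : Fin (m + 1) → ℝ) i

/-- The upper bound half of the `(m+1)`-level correlation conjecture with a multiplicative loss
`C` and an additional error of `δ` times the volume of the box, for the boxes whose points split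
into groups of at most `L` points at mutual distance at least `A`. -/
def SpreadUpper {J : Type*} (γ : J → ℝ) (C δ : ℝ) (m : ℕ) (A : ℝ) (L : ℕ) : Prop :=
  ∀ a b : Fin m → ℝ, a ≤ b → SpreadBox A L a b → ∀ ε : ℝ, 0 < ε →
    ∀ᶠ T : ℝ in atTop, (tupleCount γ m T a b : ℝ) / zeroScale T ≤
      C * boxIntegral m a b + δ * ∏ i, (b i - a i) + ε

/-- The same with an error which is arbitrarily small when the groups are far apart. -/
def SpreadUpperLim {J : Type*} (γ : J → ℝ) (C : ℝ) (m L : ℕ) : Prop :=
  ∀ δ : ℝ, 0 < δ → ∃ A : ℝ, SpreadUpper γ C δ m A L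

variable {J : Type*} {γ : J → ℝ}

lemma SpreadUpperLim.mono {C C' : ℝ} {m L : ℕ} (h : SpreadUpperLim γ C m L)
    (hC : C ≤ C') : SpreadUpperLim γ C' m L := by
  intro δ hδ
  obtain ⟨A, hA⟩ := h δ hδ
  refine ⟨A, ?_⟩
  intro a b hab hS ε hε
  filter_upwards [hA a b hab hS ε hε] with T hT
  have := mul_le_mul_of_nonneg_right hC (boxIntegral_nonneg a b)
  linarith

lemma Av_R_UB_spread (h : GoodFamily γ) {C δ A : ℝ} {m L : ℕ} (hU : SpreadUpper γ C δ m A L)
    {a b : Fin m → ℝ} (hab : a ≤ b) (hA : SpreadBox A L a b) :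
    UB (Av h (fun T j => (R (PT h T) (xT γ T) m j a b : ℝ)))
      (C * boxIntegral m a b + δ * ∏ i, (b i - a i)) := by
  intro ε hε
  filter_upwards [hU a b hab hA ε hε] with T hT
  rwa [tupleCount_div h] at hT

lemma spread_of_UB (h : GoodFamily γ) {C δ A : ℝ} {m L : ℕ}
    (hU : ∀ a b : Fin m → ℝ, a ≤ b → SpreadBox A L a b →
      UB (Av h (fun T j => (R (PT h T) (xT γ T) m j a b : ℝ)))
        (C * boxIntegral m a b + δ * ∏ i, (b i - a i))) :
    SpreadUpper γ C δ m A L := by
  intro a b hab hA ε hε
  filter_upwards [hU a b hab hA ε hε] with T hT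
  rwa [tupleCount_div h]

/-- A new point far away forms its own group. -/
lemma spreadBox_cons {A : ℝ} {L m : ℕ} (hL : 1 ≤ L) {a b : Fin m → ℝ} (hS : SpreadBox A L a b)
    {s t : ℝ} (h0 : A ≤ s) (hs : ∀ i, A ≤ s - b i) :
    SpreadBox A L (Fin.cons s a : Fin (m + 1) → ℝ) (Fin.cons t b : Fin (m + 1) → ℝ) := by
  classical
  obtain ⟨g, hg1, hg2⟩ := hS
  set N : ℕ := Finset.univ.sup g + 1 with hN
  have hlt : ∀ i, g i < N := fun i => Nat.lt_succ_of_le (Finset.le_sup (Finset.mem_univ i))
  refine ⟨Fin.cons (g 0) (Fin.cons N (fun i => g i.succ)), ?_, ?_⟩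
  · -- sizes
    set g' : Fin (m + 1 + 1) → ℕ := Fin.cons (g 0) (Fin.cons N (fun i => g i.succ)) with hg'
    set e : Fin (m + 1) → Fin (m + 1 + 1) := Fin.cons 0 (fun i => i.succ.succ) with he
    have hge : ∀ i, g' (e i) = g i := by
      intro i
      refine Fin.cases ?_ (fun i => ?_) i
      · simp [hg', he]
      · simp [hg', he]
    have hcov : ∀ i : Fin (m + 1 + 1), i = 1 ∨ ∃ i0, i = e i0 := by
      intro i
      refine Fin.cases ?_ (fun i => ?_) i
      · exact Or.inr ⟨0, by simp [he]⟩
      · refine Fin.cases ?_ (fun i => ?_) i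
        · exact Or.inl rfl
        · exact Or.inr ⟨i.succ, by simp [he]⟩
    have hg1' : g' 1 = N := by
      have e1 : (1 : Fin (m + 1 + 1)) = Fin.succ 0 := rfl
      rw [e1, hg', Fin.cons_succ, Fin.cons_zero]
    intro i
    rcases hcov i with rfl | ⟨i0, rfl⟩
    · have h1 : (Finset.univ.filter (fun j => g' j = g' 1)) ⊆ {1} := by
        intro j hj
        rw [Finset.mem_filter] at hj
        rcases hcov j with rfl | ⟨j0, rfl⟩
        · simp
        · exfalso
          have := hj.2
          rw [hge, hg1'] at this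
          exact (hlt j0).ne this
      exact (Finset.card_le_card h1).trans (by simpa using hL)
    · have h1 : (Finset.univ.filter (fun j => g' j = g' (e i0))) ⊆
          (Finset.univ.filter (fun j => g j = g i0)).image e := by
        intro j hj
        rw [Finset.mem_filter] at hj
        rcases hcov j with rfl | ⟨j0, rfl⟩
        · exfalso
          have := hj.2
          rw [hge, hg1'] at this
          exact (hlt i0).ne this.symm
        · rw [Finset.mem_image]
          refine ⟨j0, ?_, rfl⟩
          rw [Finset.mem_filter]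
          have := hj.2
          rw [hge, hge] at this
          exact ⟨Finset.mem_univ _, this⟩
      exact ((Finset.card_le_card h1).trans Finset.card_image_le).trans (hg1 i0)
  · -- distances
    have key : ∀ j : Fin (m + 1), A ≤ s - (Fin.cons 0 b : Fin (m + 1) → ℝ) j := by
      intro j
      refine Fin.cases ?_ (fun j => ?_) j
      · simpa using h0
      · simpa using hs j
    intro i j
    refine Fin.cases ?_ (fun i => ?_) i
    · refine Fin.cases ?_ (fun j => ?_) j
      · intro hij
        exact absurd rfl hij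
      · refine Fin.cases ?_ (fun j => ?_) j
        · intro _
          right
          have := key 0
          simpa using this
        · intro hij
          have := hg2 0 j.succ (by simpa using hij)
          simpa using this
    · refine Fin.cases ?_ (fun i => ?_) i
      · refine Fin.cases ?_ (fun j => ?_) j
        · intro _
          left
          have := key 0
          simpa using this
        · refine Fin.cases ?_ (fun j => ?_) j
          · intro hij
            exact absurd rfl hij
          · intro _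
            left
            have := key j.succ
            simpa using this
      · refine Fin.cases ?_ (fun j => ?_) j
        · intro hij
          have := hg2 i.succ 0 (by simpa using hij)
          simpa using this
        · refine Fin.cases ?_ (fun j => ?_) j
          · intro _
            right
            have := key i.succ
            simpa using this
          · intro hij
            have := hg2 i.succ j.succ (by simpa using hij)
            simpa using this

lemma cellBox_mem {k l : ℕ} {a b : Fin l → ℝ} {ρ : ℝ} (haρ : ∀ t, -ρ ≤ a t)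
    (hbρ : ∀ t, b t ≤ ρ) (hρ0 : 0 ≤ ρ) (s : Fin k → ℝ) (i : Fin (k * (l + 1))) :
    s (finProdFinEquiv.symm i).1 - ρ ≤ cellBox k l a s i ∧
      cellBox k l b s i ≤ s (finProdFinEquiv.symm i).1 + ρ := by
  constructor
  · rw [cellBox]
    generalize (finProdFinEquiv.symm i).2 = u
    refine Fin.lastCases ?_ (fun u => ?_) u
    · simp only [Fin.snoc_last]
      linarith
    · simp only [Fin.snoc_castSucc]
      have := haρ u
      linarith
  · rw [cellBox]
    generalize (finProdFinEquiv.symm i).2 = u
    refine Fin.lastCases ?_ (fun u => ?_) u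
    · simp only [Fin.snoc_last]
      linarith
    · simp only [Fin.snoc_castSucc]
      have := hbρ u
      linarith

/-- Far away cells give spread boxes. -/
lemma spreadBox_cellBox {A : ℝ} {k l : ℕ} {a b : Fin l → ℝ} {ρ : ℝ} (haρ : ∀ t, -ρ ≤ a t)
    (hbρ : ∀ t, b t ≤ ρ) (hρ0 : 0 ≤ ρ) {s t : Fin k → ℝ}
    (h0 : ∀ q, A ≤ -(t q + ρ))
    (h1 : ∀ q q', q ≠ q' → A ≤ (s q - ρ) - (t q' + ρ) ∨ A ≤ (s q' - ρ) - (t q + ρ)) :
    SpreadBox A (l + 1) (cellBox k l a s) (cellBox k l b t) := by
  classical
  refine ⟨Fin.cons 0 (fun i => ((finProdFinEquiv.symm i).1 : ℕ) + 1), ?_, ?_⟩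
  · set g : Fin (k * (l + 1) + 1) → ℕ :=
      Fin.cons 0 (fun i => ((finProdFinEquiv.symm i).1 : ℕ) + 1) with hg
    intro i
    refine Fin.cases ?_ (fun i => ?_) i
    · have h2 : (Finset.univ.filter (fun j => g j = g 0)) ⊆ {0} := by
        intro j
        refine Fin.cases ?_ (fun j => ?_) j
        · simp
        · intro hj
          rw [Finset.mem_filter] at hj
          simp [hg] at hj
      exact (Finset.card_le_card h2).trans (by simp)
    · have h2 : (Finset.univ.filter (fun j => g j = g i.succ)) ⊆
          Finset.univ.image (fun u : Fin (l + 1) =>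
            (finProdFinEquiv ((finProdFinEquiv.symm i).1, u)).succ) := by
        intro j
        refine Fin.cases ?_ (fun j => ?_) j
        · intro hj
          rw [Finset.mem_filter] at hj
          simp [hg] at hj
        · intro hj
          rw [Finset.mem_filter] at hj
          have h3 : (finProdFinEquiv.symm j).1 = (finProdFinEquiv.symm i).1 := by
            have := hj.2
            simp only [hg, Fin.cons_succ, add_left_inj] at this
            exact Fin.ext this
          rw [Finset.mem_image]
          refine ⟨(finProdFinEquiv.symm j).2, Finset.mem_univ _, ?_⟩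
          congr 1
          rw [← h3]
          exact finProdFinEquiv.apply_symm_apply j
      refine (Finset.card_le_card h2).trans (Finset.card_image_le.trans ?_)
      simp
  · intro i j
    refine Fin.cases ?_ (fun i => ?_) i
    · refine Fin.cases ?_ (fun j => ?_) j
      · intro hij
        exact absurd rfl hij
      · intro _
        left
        have h2 := (cellBox_mem haρ hbρ hρ0 t j).2
        have h3 := h0 (finProdFinEquiv.symm j).1
        simp only [Fin.cons_zero, Fin.cons_succ]
        linarith
    · refine Fin.cases ?_ (fun j => ?_) j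
      · intro _
        right
        have h2 := (cellBox_mem haρ hbρ hρ0 t i).2
        have h3 := h0 (finProdFinEquiv.symm i).1
        simp only [Fin.cons_zero, Fin.cons_succ]
        linarith
      · intro hij
        have h2 : (finProdFinEquiv.symm i).1 ≠ (finProdFinEquiv.symm j).1 := by
          intro h3
          apply hij
          rw [Fin.cons_succ, Fin.cons_succ, h3]
        have h3 := (cellBox_mem haρ hbρ hρ0 s i).1
        have h4 := (cellBox_mem haρ hbρ hρ0 t j).2
        have h5 := (cellBox_mem haρ hbρ hρ0 s j).1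
        have h6 := (cellBox_mem haρ hbρ hρ0 t i).2
        simp only [Fin.cons_succ]
        rcases h1 _ _ h2 with h7 | h7
        · left
          linarith
        · right
          linarith

lemma Z_le_split (P : Finset J) (x : J → ℝ) (j : J) (s c t : ℝ) :
    Z P x j s t ≤ Z P x j s c + Z P x j c t := by
  classical
  have h1 : near P x j s t ⊆ near P x j s c ∪ near P x j c t := by
    intro i hi
    rw [Finset.mem_union, mem_near, mem_near]
    rw [mem_near] at hi
    rcases le_total (x i - x j) c with h | h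
    · exact Or.inl ⟨hi.1, hi.2.1, hi.2.2.1, h⟩
    · exact Or.inr ⟨hi.1, hi.2.1, h, hi.2.2.2⟩
  exact (Finset.card_le_card h1).trans (Finset.card_union_le _ _)

/-- Upper bounds with a loss for spread boxes descend. -/
theorem descent_spread (h : GoodFamily γ) (hS : Regular h) {C δ A : ℝ} (hC : 0 ≤ C)
    (hδ : 0 ≤ δ) {m L : ℕ} (hL : 1 ≤ L) (hU : SpreadUpper γ C δ (m + 1) A L) :
    SpreadUpper γ C δ m A L := by
  apply spread_of_UB h
  intro a b hab hspr
  apply UB_of_forall
  intro ε hε
  have hr := boxRad_nonneg a b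
  set W : ℝ := boxRad a b + |A| with hW
  have hA0 := abs_nonneg A
  have hW0 : 0 ≤ W := by positivity
  obtain ⟨CY, hCY, hY⟩ := hS.mom (m + 1) (2 * W)
  have hY' := hY (-W) W (by linarith) (by linarith)
  have hRZ : ∀ T j, (R (PT h T) (xT γ T) m j a b : ℝ) ≤ (Zst h (-W) W T j + 1) ^ m := by
    intro T j
    have h1 : (R (PT h T) (xT γ T) m j a b : ℝ) ≤ YT h W T j ^ m :=
      R_le_YT h a b (by linarith) T j
    have h2 : YT h W T j = Zst h (-W) W T j := rfl
    have h3 := YT_nonneg h W T j
    refine h1.trans ?_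
    rw [h2] at h3 ⊢
    gcongr
    linarith
  have hZ1 : ∀ T j, (1 : ℝ) ≤ Zst h (-W) W T j + 1 := by
    intro T j
    have : (0 : ℝ) ≤ Zst h (-W) W T j := Nat.cast_nonneg _
    linarith
  have hRC : UB (Av h (fun T j => (R (PT h T) (xT γ T) m j a b : ℝ))) CY := by
    refine hY'.mono ?_ le_rfl
    filter_upwards [eventually_gt_atTop (1 : ℝ)] with T hT
    apply Av_mono h hT
    intro j _
    exact (hRZ T j).trans (pow_le_pow_right₀ (hZ1 T j) (Nat.le_succ m))
  have hRZC : UB (Av h (fun T j => (R (PT h T) (xT γ T) m j a b : ℝ) * ZT h W T j)) CY := by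
    refine hY'.mono ?_ le_rfl
    filter_upwards [eventually_gt_atTop (1 : ℝ)] with T hT
    apply Av_mono h hT
    intro j _
    have h1 : ZT h W T j ≤ Zst h (-W) W T j + 1 := by
      have h2 : (Z (PT h T) (xT γ T) j 0 W : ℝ) ≤ (Z (PT h T) (xT γ T) j (-W) W : ℝ) := by
        exact_mod_cast Z_mono (by linarith) le_rfl
      rw [ZT, Zst]
      linarith
    have h3 : (0 : ℝ) ≤ ZT h W T j := Nat.cast_nonneg _
    have h4 := hZ1 T j
    calc (R (PT h T) (xT γ T) m j a b : ℝ) * ZT h W T j ≤
        (Zst h (-W) W T j + 1) ^ m * (Zst h (-W) W T j + 1) :=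
          mul_le_mul (hRZ T j) h1 h3 (by positivity)
      _ = _ := by rw [pow_succ]
  obtain ⟨V1, hV1, hk⟩ := key_reg h hS a b (ε / 3) (by linarith)
  obtain ⟨V2, hV2, hi⟩ := integral_key m a b (ε / (3 * (C + 1))) (by positivity)
  set V := max (max (max V1 V2) W) (3 * (CY + m * CY) / ε) with hV
  have hVV1 : V1 ≤ V := ((le_max_left V1 V2).trans (le_max_left _ _)).trans (le_max_left _ _)
  have hVV2 : V2 ≤ V := ((le_max_right V1 V2).trans (le_max_left _ _)).trans (le_max_left _ _)
  have hVW : W ≤ V := (le_max_right _ _).trans (le_max_left _ _)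
  have hVV3 : 3 * (CY + m * CY) / ε ≤ V := le_max_right _ _
  have hV0 : 0 < V := by linarith
  have h1 := hk V hVV1
  have hspr' : SpreadBox A L (Fin.cons W a : Fin (m + 1) → ℝ) (Fin.cons V b) := by
    apply spreadBox_cons hL hspr
    · have := le_abs_self A
      linarith
    · intro i
      have := le_boxRad a b i
      have := le_abs_self A
      linarith
  have hint : boxIntegral (m + 1) (Fin.cons W a : Fin (m + 1) → ℝ) (Fin.cons V b) ≤
      boxIntegral (m + 1) (Fin.cons 0 a : Fin (m + 1) → ℝ) (Fin.cons V b) := by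
    apply boxIntegral_mono
    · intro i
      refine Fin.cases ?_ (fun i => ?_) i
      · simpa using hW0
      · simp
    · exact le_rfl
  have h2 := (Av_R_UB_spread h hU (cons_le_cons' hab hVW) hspr').const_mul (a := 1 / V)
    (by positivity)
  have h3 := hRC.const_mul (a := m / V) (by positivity)
  have h3' := hRZC.const_mul (a := 1 / V) (by positivity)
  have h4 := abs_le.1 (hi V hVV2)
  refine (((h1.add h2).add h3).add h3').mono ?_ ?_
  · filter_upwards [eventually_gt_atTop (1 : ℝ)] with T hT
    have h5 : Av h (fun T j => (R (PT h T) (xT γ T) m j a b : ℝ) * ZT h V T j) T ≤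
        (Av h (fun T j => (R (PT h T) (xT γ T) (m + 1) j
          (Fin.cons W a : Fin (m + 1) → ℝ) (Fin.cons V b : Fin (m + 1) → ℝ) : ℝ)) T +
        m * Av h (fun T j => (R (PT h T) (xT γ T) m j a b : ℝ)) T) +
        Av h (fun T j => (R (PT h T) (xT γ T) m j a b : ℝ) * ZT h W T j) T := by
      rw [← Av_const_mul, ← Av_add, ← Av_add]
      apply Av_mono h hT
      intro j _
      have h7 := le_R_cons (PT h T) (xT γ T) m j a b W V
      have h8 := Z_le_split (PT h T) (xT γ T) j 0 W V
      have h9 := Nat.mul_le_mul_left (R (PT h T) (xT γ T) m j a b) h8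
      rw [mul_add] at h9
      simp only [ZT]
      have h6 : ((R (PT h T) (xT γ T) m j a b * Z (PT h T) (xT γ T) j 0 V : ℕ) : ℝ) ≤
        ((R (PT h T) (xT γ T) (m + 1) j (Fin.cons W a : Fin (m + 1) → ℝ)
          (Fin.cons V b : Fin (m + 1) → ℝ) + R (PT h T) (xT γ T) m j a b * m +
          R (PT h T) (xT γ T) m j a b * Z (PT h T) (xT γ T) j 0 W : ℕ) : ℝ) := by
        have : R (PT h T) (xT γ T) m j a b * Z (PT h T) (xT γ T) j 0 V ≤
          R (PT h T) (xT γ T) (m + 1) j (Fin.cons W a : Fin (m + 1) → ℝ)
          (Fin.cons V b : Fin (m + 1) → ℝ) + R (PT h T) (xT γ T) m j a b * m +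
          R (PT h T) (xT γ T) m j a b * Z (PT h T) (xT γ T) j 0 W := by
          linarith
        exact_mod_cast this
      push_cast at h6
      linarith
    have h6 := mul_le_mul_of_nonneg_left h5 (show 0 ≤ 1 / V by positivity)
    have e : (m : ℝ) / V * Av h (fun T j => (R (PT h T) (xT γ T) m j a b : ℝ)) T =
        1 / V * (m * Av h (fun T j => (R (PT h T) (xT γ T) m j a b : ℝ)) T) := by ring
    rw [e]
    rw [mul_add, mul_add] at h6
    linarith
  · have e0 : 1 / V * (δ * ∏ i, ((Fin.cons V b : Fin (m + 1) → ℝ) i -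
        (Fin.cons W a : Fin (m + 1) → ℝ) i)) ≤ δ * ∏ i, (b i - a i) := by
      rw [Fin.prod_univ_succ]
      simp only [Fin.cons_zero, Fin.cons_succ]
      have hP : 0 ≤ ∏ i, (b i - a i) := Finset.prod_nonneg fun i _ => sub_nonneg.2 (hab i)
      have e7 : 1 / V * (δ * ((V - W) * ∏ i, (b i - a i))) =
          (V - W) / V * (δ * ∏ i, (b i - a i)) := by ring
      rw [e7]
      have e8 : (V - W) / V ≤ 1 := by
        rw [div_le_one hV0]
        linarith
      exact mul_le_of_le_one_left (by positivity) e8
    have e1 : (m : ℝ) / V * CY + 1 / V * CY ≤ ε / 3 := by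
      rw [div_le_iff₀ hε] at hVV3
      have : (m : ℝ) / V * CY + 1 / V * CY = (CY + m * CY) / V := by ring
      rw [this, div_le_div_iff₀ hV0 (by norm_num)]
      linarith
    have e2 : 1 / V * (C * boxIntegral (m + 1) (Fin.cons W a : Fin (m + 1) → ℝ)
        (Fin.cons V b : Fin (m + 1) → ℝ)) ≤ C * boxIntegral m a b + ε / 3 := by
      have e3 : 1 / V * (C * boxIntegral (m + 1) (Fin.cons W a : Fin (m + 1) → ℝ)
        (Fin.cons V b : Fin (m + 1) → ℝ)) ≤ C * (1 / V * boxIntegral (m + 1)
        (Fin.cons 0 a : Fin (m + 1) → ℝ) (Fin.cons V b : Fin (m + 1) → ℝ)) := by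
        have e6 : C * (1 / V * boxIntegral (m + 1)
          (Fin.cons 0 a : Fin (m + 1) → ℝ) (Fin.cons V b : Fin (m + 1) → ℝ)) =
          1 / V * (C * boxIntegral (m + 1)
          (Fin.cons 0 a : Fin (m + 1) → ℝ) (Fin.cons V b : Fin (m + 1) → ℝ)) := by ring
        rw [e6]
        gcongr
      have e4 : C * (1 / V * boxIntegral (m + 1)
        (Fin.cons 0 a : Fin (m + 1) → ℝ) (Fin.cons V b : Fin (m + 1) → ℝ)) ≤
        C * (boxIntegral m a b + ε / (3 * (C + 1))) :=
        mul_le_mul_of_nonneg_left (by linarith [h4.1]) hC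
      have e5 : C * (ε / (3 * (C + 1))) ≤ ε / 3 := by
        rw [mul_div_assoc', div_le_div_iff₀ (by positivity) (by norm_num)]
        nlinarith
      rw [mul_add] at e4
      linarith
    rw [mul_add (1 / V)]
    linarith

lemma descent_spread_le (h : GoodFamily γ) (hS : Regular h) {C δ A : ℝ} (hC : 0 ≤ C)
    (hδ : 0 ≤ δ) {m K L : ℕ} (hL : 1 ≤ L) (hmK : m ≤ K) (hU : SpreadUpper γ C δ K A L) :
    SpreadUpper γ C δ m A L := by
  induction K, hmK using Nat.le_induction with
  | base => exact hU
  | succ K hK ih => exact ih (descent_spread h hS hC hδ hL hU)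

lemma prod_cellBox {k l : ℕ} (a b : Fin l → ℝ) (s t : Fin k → ℝ) {w : ℝ}
    (hst : ∀ q, t q - s q = w) :
    ∏ i, (cellBox k l b t i - cellBox k l a s i) = (w * ∏ u, (b u - a u + w)) ^ k := by
  have h1 : ∏ i, (cellBox k l b t i - cellBox k l a s i) =
      ∏ p : Fin k × Fin (l + 1), (cellBox k l b t (finProdFinEquiv p) -
        cellBox k l a s (finProdFinEquiv p)) :=
    (Equiv.prod_comp finProdFinEquiv _).symm
  rw [h1, Fintype.prod_prod_type]
  have h2 : ∀ q : Fin k, ∏ u : Fin (l + 1), (cellBox k l b t (finProdFinEquiv (q, u)) -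
      cellBox k l a s (finProdFinEquiv (q, u))) = w * ∏ u, (b u - a u + w) := by
    intro q
    rw [Fin.prod_univ_castSucc, mul_comm]
    congr 1
    · simp only [cellBox, Equiv.symm_apply_apply, Fin.snoc_last]
      exact hst q
    · apply Finset.prod_congr rfl
      intro u _
      simp only [cellBox, Equiv.symm_apply_apply, Fin.snoc_castSucc]
      rw [← hst q]
      ring
  rw [Finset.prod_congr rfl (fun q _ => h2 q)]
  simp

/-- The moment of a sum over a long window, from the spread boxes. -/
lemma tensor_moment_spread (h : GoodFamily γ) (hS : Regular h) {C : ℝ} (hC : 0 ≤ C) {k l : ℕ}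
    (hUL : SpreadUpperLim γ C ((k + 1) * (l + 1)) (l + 1)) (a b : Fin l → ℝ) (hab : a ≤ b)
    {w : ℝ} (hw : 0 < w) :
    ∀ η : ℝ, 0 < η → ∃ n₀ : ℕ, 0 < n₀ ∧ ∀ n : ℕ, n₀ ≤ n →
      UB (Av h (fun T j => (ST h l a b (-(n * w)) 0 T j / (n * w)) ^ (k + 1)))
        (C * boxIntegral l (fun i => a i - w) (fun i => b i + w) ^ (k + 1) + η) := by
  classical
  intro η hη
  set ρ := boxRad a b with hρ
  have hρ0 : 0 ≤ ρ := boxRad_nonneg a b
  have haρ : ∀ t, -ρ ≤ a t := neg_boxRad_le a b
  have hbρ : ∀ t, b t ≤ ρ := le_boxRad a b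
  set I := boxIntegral l (fun i => a i - w) (fun i => b i + w) with hI
  have hI0 : 0 ≤ I := boxIntegral_nonneg _ _
  obtain ⟨CZ, hCZ, hZ⟩ := hS.mom ((l + 1) * (k + 1)) (w + 2 * ρ)
  set v : ℝ := ∏ u, (b u - a u + w) with hv
  have hv0 : 0 ≤ v := Finset.prod_nonneg fun u _ => by
    have := hab u
    linarith
  set δ : ℝ := η / (2 * (v ^ (k + 1) + 1)) with hδ
  have hδ0 : 0 < δ := by positivity
  have hδv : δ * v ^ (k + 1) ≤ η / 2 := by
    rw [hδ, div_mul_eq_mul_div, div_le_div_iff₀ (by positivity) (by norm_num)]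
    have := pow_nonneg hv0 (k + 1)
    nlinarith
  obtain ⟨A₀, hU⟩ := hUL δ hδ0
  obtain ⟨r', hr'⟩ := exists_nat_gt ((2 * ρ + |A₀|) / w)
  set r : ℕ := r' + 1 with hr
  have hrw' : 2 * ρ + |A₀| < r' * w := by
    rwa [div_lt_iff₀ hw] at hr'
  have hA₀ : 0 ≤ |A₀| := abs_nonneg _
  have hrw : 2 * ρ < r' * w := by linarith
  -- cells
  set sc : ℕ → ℝ := fun c => -((c + 1) * w) with hsc
  set tc : ℕ → ℝ := fun c => -(c * w) with htc
  set Pc : (Fin (k + 1) → ℕ) → ℝ → J → ℝ := fun c T j =>
    ∏ q, ST h l a b (sc (c q)) (tc (c q)) T j with hPc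
  -- good cells
  have hgood : ∀ c : Fin (k + 1) → ℕ, goodCells k r c →
      UB (Av h (Pc c)) (C * (w * I) ^ (k + 1) + δ * (w * v) ^ (k + 1)) := by
    intro c hc
    have hle : cellBox (k + 1) l a (fun q => sc (c q)) ≤ cellBox (k + 1) l b (fun q => tc (c q)) := by
      intro i
      rw [cellBox, cellBox]
      have h1 : sc (c (finProdFinEquiv.symm i).1) ≤ tc (c (finProdFinEquiv.symm i).1) := by
        simp only [hsc, htc]
        nlinarith
      generalize (finProdFinEquiv.symm i).2 = u
      refine Fin.lastCases ?_ (fun u => ?_) u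
      · simp only [Fin.snoc_last]
        exact h1
      · simp only [Fin.snoc_castSucc]
        have := hab u
        linarith
    have hspread : SpreadBox A₀ (l + 1) (cellBox (k + 1) l a (fun q => sc (c q)))
        (cellBox (k + 1) l b (fun q => tc (c q))) := by
      apply spreadBox_cellBox haρ hbρ hρ0
      · intro q
        have h4 : (r' : ℝ) + 1 ≤ c q := by
          have := hc.1 q
          rw [hr] at this
          exact_mod_cast this
        have h5 : A₀ ≤ |A₀| := le_abs_self _
        simp only [htc]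
        nlinarith
      · intro q q' hqq
        have h5 : A₀ ≤ |A₀| := le_abs_self _
        simp only [hsc, htc]
        rcases hc.2 q q' hqq with h6 | h6
        · have h7 : (c q : ℝ) + (r' + 1) ≤ c q' := by
            rw [hr] at h6
            exact_mod_cast h6
          left
          nlinarith
        · have h7 : (c q' : ℝ) + (r' + 1) ≤ c q := by
            rw [hr] at h6
            exact_mod_cast h6
          right
          nlinarith
    have h1 := Av_R_UB_spread h hU hle hspread
    refine h1.mono ?_ ?_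
    · filter_upwards [eventually_gt_atTop (1 : ℝ)] with T hT
      apply Av_mono h hT
      intro j _
      have h2 := prod_SS_le (PT h T) (xT γ T) (k + 1) l j a b hρ0 haρ hbρ
        (fun q => sc (c q)) (fun q => tc (c q)) ?_ ?_
      · simp only [hPc, ST]
        exact_mod_cast h2
      · intro q hq
        have h3 := hq.2
        simp only [htc] at h3
        have h4 : ((r' : ℝ) + 1) ≤ c q := by
          have := hc.1 q
          rw [hr] at this
          exact_mod_cast this
        nlinarith
      · intro q q' hqq y hy hy'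
        simp only [hsc, htc] at hy hy'
        rcases hc.2 q q' hqq with h5 | h5
        · have h6 : (c q : ℝ) + (r' + 1) ≤ c q' := by
            rw [hr] at h5
            exact_mod_cast h5
          have h7 := hy.1
          have h8 := hy'.2
          nlinarith
        · have h6 : (c q' : ℝ) + (r' + 1) ≤ c q := by
            rw [hr] at h5
            exact_mod_cast h5
          have h7 := hy'.1
          have h8 := hy.2
          nlinarith
    · have h3 := boxIntegral_cellBox_le (k + 1) l a b (fun q => sc (c q)) (fun q => tc (c q))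
        (w := w) (fun q => by simp only [hsc, htc]; ring) hw.le
      rw [prod_cellBox a b (fun q => sc (c q)) (fun q => tc (c q)) (w := w)
        (fun q => by simp only [hsc, htc]; ring)]
      have h4 := mul_le_mul_of_nonneg_left h3 hC
      linarith
  -- all cells
  have hall : ∀ c : Fin (k + 1) → ℕ, UB (Av h (Pc c)) ((k + 1) * CZ) := by
    intro c
    have h1 : UB (fun T => ∑ q : Fin (k + 1), Av h (fun T j =>
        (Zst h (sc (c q) - ρ) (tc (c q) + ρ) T j + 1) ^ ((l + 1) * (k + 1))) T)
        (∑ q : Fin (k + 1), CZ) := by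
      apply UB.sum
      intro q _
      apply hZ
      · simp only [hsc, htc]
        nlinarith
      · simp only [hsc, htc]
        linarith
    refine h1.mono ?_ (by simp)
    filter_upwards [eventually_gt_atTop (1 : ℝ)] with T hT
    rw [← Av_finset_sum]
    apply Av_mono h hT
    intro j _
    have h2 : ∀ q, ST h l a b (sc (c q)) (tc (c q)) T j ≤
        (Zst h (sc (c q) - ρ) (tc (c q) + ρ) T j + 1) ^ (l + 1) := by
      intro q
      have := SS_le_pow (PT h T) (xT γ T) l j a b hρ0 haρ hbρ (sc (c q)) (tc (c q))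
      simp only [ST, Zst]
      exact_mod_cast this
    -- product at most the sum of the powers
    obtain ⟨q0, _, hq0⟩ := Finset.exists_max_image (Finset.univ : Finset (Fin (k + 1)))
      (fun q => (Zst h (sc (c q) - ρ) (tc (c q) + ρ) T j + 1) ^ (l + 1)) ⟨0, Finset.mem_univ _⟩
    have hZ0 : ∀ q, 0 ≤ Zst h (sc (c q) - ρ) (tc (c q) + ρ) T j := fun q => Nat.cast_nonneg _
    calc ∏ q, ST h l a b (sc (c q)) (tc (c q)) T j ≤
        ∏ q : Fin (k + 1), (Zst h (sc (c q0) - ρ) (tc (c q0) + ρ) T j + 1) ^ (l + 1) := by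
          apply Finset.prod_le_prod
          · intro q _
            exact ST_nonneg _ _ _ _ _ _ _ _
          · intro q _
            exact (h2 q).trans (hq0 q (Finset.mem_univ q))
      _ = (Zst h (sc (c q0) - ρ) (tc (c q0) + ρ) T j + 1) ^ ((l + 1) * (k + 1)) := by
          simp [pow_mul]
      _ ≤ _ := Finset.single_le_sum (f := fun q =>
          (Zst h (sc (c q) - ρ) (tc (c q) + ρ) T j + 1) ^ ((l + 1) * (k + 1)))
          (fun q _ => by have := hZ0 q; positivity) (Finset.mem_univ q0)
  -- the number of bad tuples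
  set A : ℝ := ((k + 1) + (k + 1) ^ 2) * (2 * r) * ((k + 1) * CZ) / w ^ (k + 1) with hA
  have hA0 : 0 ≤ A := by positivity
  obtain ⟨n₀, hn₀⟩ := exists_nat_gt (A / (η / 2))
  have hn₀0 : (0 : ℝ) < n₀ := lt_of_le_of_lt (by positivity) hn₀
  refine ⟨n₀, by exact_mod_cast hn₀0, fun n hn => ?_⟩
  have hnn : (n₀ : ℝ) ≤ n := by exact_mod_cast hn
  have hn0 : (0 : ℝ) < n := by linarith
  have hnpos : 0 < n := by exact_mod_cast hn0
  have hAn : A / n ≤ η / 2 := by
    rw [div_lt_iff₀ (by positivity)] at hn₀
    rw [div_le_iff₀ hn0]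
    nlinarith
  set Ω := Fintype.piFinset fun _ : Fin (k + 1) => Finset.range n with hΩ
  have hsum : UB (fun T => ∑ c ∈ Ω, Av h (Pc c) T)
      (∑ c ∈ Ω, ((C * (w * I) ^ (k + 1) + δ * (w * v) ^ (k + 1)) +
        if ¬ goodCells k r c then (k + 1) * CZ else 0)) := by
    apply UB.sum
    intro c _
    by_cases hc : goodCells k r c
    · rw [if_neg (not_not.2 hc), add_zero]
      exact hgood c hc
    · rw [if_pos hc]
      refine (hall c).mono (Eventually.of_forall fun _ => le_rfl) ?_
      have : 0 ≤ C * (w * I) ^ (k + 1) + δ * (w * v) ^ (k + 1) := by positivity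
      linarith
  have hfin := hsum.const_mul (a := 1 / (n * w) ^ (k + 1)) (by positivity)
  refine hfin.mono ?_ ?_
  · filter_upwards [eventually_gt_atTop (1 : ℝ)] with T hT
    rw [← Av_finset_sum, ← Av_const_mul]
    apply Av_mono h hT
    intro j _
    have h1 : ST h l a b (-(n * w)) 0 T j ≤
        ∑ c ∈ Finset.range n, ST h l a b (sc c) (tc c) T j := by
      have := SS_le_cells (PT h T) (xT γ T) l j a b w n hnpos
      simp only [ST, hsc, htc]
      exact_mod_cast this
    have h2 := ST_nonneg h l a b (-(n * w)) 0 T j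
    have h3 : ST h l a b (-(n * w)) 0 T j ^ (k + 1) ≤
        (∑ c ∈ Finset.range n, ST h l a b (sc c) (tc c) T j) ^ (k + 1) :=
      pow_le_pow_left₀ h2 h1 _
    rw [Finset.sum_pow'] at h3
    rw [div_pow, div_eq_inv_mul, ← one_div]
    exact mul_le_mul_of_nonneg_left h3 (by positivity)
  · rw [Finset.sum_add_distrib, Finset.sum_const, nsmul_eq_mul, ← Finset.sum_filter,
      Finset.sum_const, nsmul_eq_mul]
    have hcardΩ : (Ω.card : ℝ) = n ^ (k + 1) := by
      rw [hΩ, Fintype.card_piFinset]
      simp
    have hbad : ((Ω.filter (fun c => ¬ goodCells k r c)).card : ℝ) ≤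
        ((k + 1) + (k + 1) ^ 2) * (2 * r * n ^ k) := by
      have := card_bad_le k n r
      exact_mod_cast this
    rw [hcardΩ]
    have h4 : 1 / (n * w) ^ (k + 1) * (n ^ (k + 1) * (C * (w * I) ^ (k + 1) +
        δ * (w * v) ^ (k + 1))) = C * I ^ (k + 1) + δ * v ^ (k + 1) := by
      rw [mul_pow, mul_pow, mul_pow]
      field_simp
    have h5 : 1 / (n * w) ^ (k + 1) * (((Ω.filter (fun c => ¬ goodCells k r c)).card : ℝ) *
        ((k + 1) * CZ)) ≤ A / n := by
      have h6 : 1 / (n * w) ^ (k + 1) * (((Ω.filter (fun c => ¬ goodCells k r c)).card : ℝ) *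
        ((k + 1) * CZ)) ≤ 1 / (n * w) ^ (k + 1) *
          ((((k : ℝ) + 1) + (k + 1) ^ 2) * (2 * r * n ^ k) * ((k + 1) * CZ)) := by
        gcongr
      refine h6.trans (le_of_eq ?_)
      rw [hA, mul_pow]
      field_simp
      ring
    rw [mul_add, h4]
    linarith

/-- The tensor power step, from spread boxes to all boxes. -/
lemma tensor_step_spread (h : GoodFamily γ) (hS : Regular h) {D : ℝ} (hD : 0 ≤ D) {k l : ℕ}
    (hU : SpreadUpperLim γ (D ^ (k + 1)) ((k + 1) * (l + 1)) (l + 1)) :
    CorrelationUpperLoss γ D l := by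
  apply loss_of_UB h
  intro a b hab
  apply UB_of_forall
  intro ε hε
  obtain ⟨w, hw, hbox⟩ := exists_enlarge hab (ε := ε / (3 * (D + 1))) (by positivity)
  set I := boxIntegral l (fun i => a i - w) (fun i => b i + w) with hI
  have hI0 : 0 ≤ I := boxIntegral_nonneg _ _
  set c0 : ℝ := D * I + ε / 3 with hc0
  have hDI : 0 ≤ D * I := by positivity
  have hc00 : 0 < c0 := by positivity
  set η : ℝ := c0 ^ (k + 1) - (D * I) ^ (k + 1) with hη
  have hη0 : 0 < η := by
    have : (D * I) ^ (k + 1) < c0 ^ (k + 1) :=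
      pow_lt_pow_left₀ (by linarith) hDI (by omega)
    linarith
  obtain ⟨n₀, hn₀, hM⟩ := tensor_moment_spread h hS (pow_nonneg hD _) hU a b hab hw η hη0
  obtain ⟨V₀, hV₀, hK⟩ := key_reg h hS a b (ε / 3) (by linarith)
  obtain ⟨n₁, hn₁⟩ := exists_nat_gt (V₀ / w)
  set n := max n₀ n₁ with hn
  have hn0 : (0 : ℝ) < n := by
    have : 0 < n := lt_of_lt_of_le hn₀ (le_max_left _ _)
    exact_mod_cast this
  set V : ℝ := n * w with hV
  have hV0 : 0 < V := by positivity
  have hVV : V₀ ≤ V := by
    rw [div_lt_iff₀ hw] at hn₁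
    have h1 : (n₁ : ℝ) ≤ n := by exact_mod_cast le_max_right n₀ n₁
    have h2 : (n₁ : ℝ) * w ≤ n * w := by gcongr
    linarith
  have h1 := hM n (le_max_left _ _)
  have h2 := hK V hVV
  -- tangent line
  have h3 : UB (Av h (fun T j => ST h l a b (-V) 0 T j / V)) c0 := by
    have t1 := h1.const_mul (a := 1 / ((k + 1) * c0 ^ k)) (by positivity)
    have t2 := (UB_of_tendsto (tendsto_Av_one h)).const_mul (a := k * c0 / (k + 1))
      (by positivity)
    refine (t1.add t2).mono ?_ (le_of_eq ?_)
    · filter_upwards [eventually_gt_atTop (1 : ℝ)] with T hT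
      rw [← Av_const_mul, ← Av_const_mul, ← Av_add]
      apply Av_mono h hT
      intro j _
      set X := ST h l a b (-V) 0 T j / V with hX
      have hX0 : 0 ≤ X := div_nonneg (ST_nonneg _ _ _ _ _ _ _ _) hV0.le
      have h4 := tangent_line (k := k) hX0 hc00
      have h5 : X ≤ 1 / ((k + 1) * c0 ^ k) * (X ^ (k + 1) + k * c0 ^ (k + 1)) := by
        rw [one_div_mul_eq_div, le_div_iff₀ (by positivity)]
        linarith
      have e : 1 / ((k + 1) * c0 ^ k) * (X ^ (k + 1) + k * c0 ^ (k + 1)) =
          1 / ((k + 1) * c0 ^ k) * X ^ (k + 1) + k * c0 / (k + 1) := by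
        field_simp
        ring
      linarith
    · have e1 : D ^ (k + 1) * I ^ (k + 1) + η = c0 ^ (k + 1) := by
        rw [hη, mul_pow]
        ring
      rw [e1]
      field_simp
      ring
  refine (h2.add h3).mono ?_ ?_
  · filter_upwards [eventually_gt_atTop (1 : ℝ)] with T hT
    have h4 : Av h (fun T j => ST h l a b (-V) 0 T j / V) T =
        (1 / V) * Av h (fun T j => (R (PT h T) (xT γ T) l j a b : ℝ) * ZT h V T j) T := by
      have h5 := sum_SS (PT h T) (xT γ T) l a b V
      have h6 : (∑ j ∈ PT h T, ST h l a b (-V) 0 T j) =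
          ∑ j ∈ PT h T, (R (PT h T) (xT γ T) l j a b : ℝ) * ZT h V T j := by
        simp only [ST, ZT]
        exact_mod_cast h5
      simp only [Av]
      rw [← Finset.sum_div, h6]
      ring
    rw [h4]
    linarith
  · have h4 : D * I ≤ D * (boxIntegral l a b + ε / (3 * (D + 1))) := by gcongr
    have h5 : D * (ε / (3 * (D + 1))) ≤ ε / 3 := by
      rw [mul_div_assoc', div_le_div_iff₀ (by positivity) (by norm_num)]
      nlinarith
    rw [mul_add] at h4
    linarith

/-- For every base `c > 1` and every `L` there are arbitrarily large `m` for which the upper bound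
holds with the loss `c ^ m`, for the boxes whose points split into groups of at most `L` points, in
the limit of large distances of the groups. -/
def SpreadSubexpUpper {J : Type*} (γ : J → ℝ) : Prop :=
  ∀ c : ℝ, 1 < c → ∀ L M : ℕ, ∃ m : ℕ, M ≤ m ∧ SpreadUpperLim γ (c ^ m) m L

/-- Spread upper bounds with subexponential loss imply the sharp upper bounds. -/
theorem upper_of_spread_subexp (h : GoodFamily γ) (hR : Regular h) (hS : SpreadSubexpUpper γ)
    (l : ℕ) : CorrelationUpper γ l := by
  have key : ∀ c : ℝ, 1 < c → CorrelationUpperLoss γ (c ^ (2 * (l + 1))) l := by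
    intro c hc
    obtain ⟨K, hK, hUL⟩ := hS c hc (l + 1) (l + 1)
    -- `K = (k+1)(l+1) + rest`
    have hl : 0 < l + 1 := Nat.succ_pos l
    have hk1 : 1 ≤ K / (l + 1) := (Nat.one_le_div_iff hl).2 hK
    obtain ⟨k, hk⟩ : ∃ k, K / (l + 1) = k + 1 := ⟨K / (l + 1) - 1, by omega⟩
    have hle : (k + 1) * (l + 1) ≤ K := by
      rw [← hk]
      exact Nat.div_mul_le_self K (l + 1)
    have hlt : K < (k + 2) * (l + 1) := by
      have := Nat.lt_div_mul_add (a := K) hl
      rw [hk] at this
      linarith [this]
    have h1 : SpreadUpperLim γ (c ^ K) ((k + 1) * (l + 1)) (l + 1) := by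
      intro δ hδ
      obtain ⟨A, hU⟩ := hUL δ hδ
      exact ⟨A, descent_spread_le h hR (by positivity) hδ.le (by omega) hle hU⟩
    have h2 : c ^ K ≤ (c ^ (2 * (l + 1))) ^ (k + 1) := by
      rw [← pow_mul]
      apply pow_le_pow_right₀ hc.le
      nlinarith
    exact tensor_step_spread h hR (by positivity) (h1.mono h2)
  intro a b hab
  have h1 : UB (Av h (fun T j => (R (PT h T) (xT γ T) l j a b : ℝ))) (boxIntegral l a b) := by
    apply UB_of_forall
    intro ε hε
    have hB := boxIntegral_nonneg a b
    have hlim : Tendsto (fun c : ℝ => c ^ (2 * (l + 1)) * boxIntegral l a b) (𝓝[>] 1)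
        (𝓝 ((1 : ℝ) ^ (2 * (l + 1)) * boxIntegral l a b)) :=
      (((continuous_pow _).mul continuous_const).tendsto 1).mono_left nhdsWithin_le_nhds
    rw [one_pow, one_mul] at hlim
    obtain ⟨c, hc1, hc2⟩ := ((hlim.eventually (gt_mem_nhds
      (show boxIntegral l a b < boxIntegral l a b + ε by linarith))).and
      self_mem_nhdsWithin).exists
    exact (Av_R_UB_loss h (key c hc2) hab).mono (Eventually.of_forall fun _ => le_rfl) hc1.le
  intro ε hε
  filter_upwards [h1 ε hε] with T hT
  rwa [tupleCount_div h]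

/-- Subexponential loss for spread boxes is harmless. -/
theorem spread_subexp_iff (h : GoodFamily γ) (hR : Regular h) :
    SpreadSubexpUpper γ ↔ ∀ m, CorrelationConj γ m := by
  constructor
  · intro hS m
    exact conj_of_upper h m (upper_of_spread_subexp h hR hS m) m le_rfl
  · intro hC c hc L M
    refine ⟨M, le_rfl, ?_⟩
    intro δ hδ
    refine ⟨0, ?_⟩
    intro a b hab _ ε hε
    have h1 := UB_of_tendsto (hC M a b hab) ε hε
    filter_upwards [h1] with T hT
    refine hT.trans ?_
    have h2 : (1 : ℝ) ≤ c ^ M := one_le_pow₀ hc.le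
    have h3 := mul_le_mul_of_nonneg_right h2 (boxIntegral_nonneg a b)
    have hP : 0 ≤ ∏ i, (b i - a i) := Finset.prod_nonneg fun i _ => sub_nonneg.2 (hab i)
    have h4 := mul_nonneg hδ.le hP
    linarith

end Pool.Agent.MP_67227b_nt
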