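import Pool.Agent.MP_67227b_nt.RegLLN67
import Pool.Agent.MP_67227b_nt.Mo.CellMomZeta
import Pool.Agent.MP_67227b_nt.Mo.PairLLNZeta
import Pool.Agent.MP_67227b_nt.Spread67

set_option autoImplicit false

open Filter Topology
open Pool.Agent.MP_67227b_nt.Mo

namespace Pool.Agent.MP_67227b_nt

/-- Under the Riemann Hypothesis the counts of zeros in windows have bounded moments and satisfy
the law of large numbers. -/
theorem regular_zeta (hRH : RiemannHypothesis) : Regular goodFamily_zeta :=
  regular_of goodFamily_zeta (cellMom_zeta hRH) (pairLLN_zeta hRH)

/-- Under the Riemann Hypothesis, upper bounds with a subexponential loss for spread boxes are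
equivalent to the correlation conjecture at all levels. -/
theorem spread_zeta_iff (hRH : RiemannHypothesis) :
    SpreadSubexpUpper zetaOrdinate ↔ ∀ m, CorrelationConj zetaOrdinate m :=
  spread_subexp_iff goodFamily_zeta (regular_zeta hRH)

end Pool.Agent.MP_67227b_nt
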