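import Pool.Agent.MP_67227b_nt.Sine

set_option autoImplicit false

open Filter MeasureTheory Topology Set
open scoped Real FourierTransform Convolution

namespace Pool.Agent.MP_67227b_nt

/-- The modulated indicator of `(-1/2, 1/2]`. -/
noncomputable def modInd (s : ℝ) : ℝ → ℂ :=
  (Ioc (-(1 / 2) : ℝ) (1 / 2)).indicator (fun t => Complex.exp ((2 * π * s * t : ℝ) * Complex.I))

lemma integrable_modInd (s : ℝ) : Integrable (modInd s) := by
  rw [modInd, integrable_indicator_iff measurableSet_Ioc]
  have : Continuous fun t : ℝ => Complex.exp ((2 * π * s * t : ℝ) * Complex.I) := by fun_prop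
  exact this.integrableOn_Ioc

lemma integral_exp_Icc (c : ℝ) :
    ∫ t in (-(1 / 2) : ℝ)..(1 / 2), Complex.exp ((2 * π * c * t : ℝ) * Complex.I) = (K c : ℂ) := by
  rcases eq_or_ne c 0 with rfl | hc
  · simp only [mul_zero, zero_mul, Complex.ofReal_zero, Complex.exp_zero]
    rw [intervalIntegral.integral_const, K_zero]
    norm_num
  · have h1 := integral_exp_mul_I_eq_sinc (π * c)
    have h2 : (2 * π * c) ≠ 0 := by
      have := Real.pi_ne_zero
      positivity
    have h3 := intervalIntegral.integral_comp_mul_left (a := -(1 / 2)) (b := 1 / 2)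
      (fun t : ℝ => Complex.exp (t * Complex.I)) h2
    rw [show (2 * π * c) * (-(1 / 2)) = -(π * c) by ring,
      show (2 * π * c) * (1 / 2) = π * c by ring, h1] at h3
    rw [h3]
    rw [K, Complex.real_smul]
    push_cast
    have h4 : (π : ℂ) ≠ 0 := by exact_mod_cast Real.pi_ne_zero
    have h5 : (c : ℂ) ≠ 0 := by exact_mod_cast hc
    field_simp

lemma fourier_modInd (s v : ℝ) : 𝓕 (modInd s) v = (K (v - s) : ℂ) := by
  rw [Real.fourier_real_eq_integral_exp_smul]
  have h1 : ∀ t : ℝ, Complex.exp ((-2 * π * t * v : ℝ) * Complex.I) • modInd s t =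
      (Ioc (-(1 / 2) : ℝ) (1 / 2)).indicator
        (fun t => Complex.exp ((2 * π * (s - v) * t : ℝ) * Complex.I)) t := by
    intro t
    rw [modInd, Set.indicator_apply, Set.indicator_apply]
    split_ifs with h
    · rw [smul_eq_mul, ← Complex.exp_add]
      congr 1
      push_cast
      ring
    · simp
  simp_rw [h1]
  rw [integral_indicator measurableSet_Ioc, ← intervalIntegral.integral_of_le (by norm_num),
    integral_exp_Icc, ← K_neg]
  congr 2
  ring

/-- The convolution square (with modulation). -/
noncomputable def convInd (s : ℝ) : ℝ → ℂ := modInd 0 ⋆[ContinuousLinearMap.mul ℂ ℂ] modInd s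

lemma integrable_convInd (s : ℝ) : Integrable (convInd s) :=
  (integrable_modInd 0).integrable_convolution _ (integrable_modInd s)

lemma fourier_convInd (s v : ℝ) : 𝓕 (convInd s) v = (K v * K (v - s) : ℝ) := by
  rw [convInd, Real.fourier_mul_convolution_eq (integrable_modInd 0) (integrable_modInd s),
    fourier_modInd, fourier_modInd, sub_zero]
  push_cast
  rfl

lemma convInd_eq (s x : ℝ) : convInd s x =
    (∫ t in (-(1 / 2) : ℝ)..(x + 1 / 2), modInd s t) -
      ∫ t in (-(1 / 2) : ℝ)..(x - 1 / 2), modInd s t := by
  have hint : ∀ a b : ℝ, IntervalIntegrable (modInd s) volume a b := fun a b =>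
    (integrable_modInd s).intervalIntegrable
  rw [intervalIntegral.integral_interval_sub_left (hint _ _) (hint _ _)]
  rw [convInd, convolution_def]
  have h1 : ∀ t : ℝ, (ContinuousLinearMap.mul ℂ ℂ) (modInd 0 t) (modInd s (x - t)) =
      (Ioc (-(1 / 2) : ℝ) (1 / 2)).indicator (fun t => modInd s (x - t)) t := by
    intro t
    rw [ContinuousLinearMap.mul_apply', modInd, Set.indicator_apply, Set.indicator_apply]
    split_ifs with h
    · simp
    · simp
  simp_rw [h1]
  rw [integral_indicator measurableSet_Ioc, ← intervalIntegral.integral_of_le (by norm_num),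
    intervalIntegral.integral_comp_sub_left (fun t => modInd s t) x]
  congr 1
  ring

lemma continuous_convInd (s : ℝ) : Continuous (convInd s) := by
  have h : convInd s = fun x => (∫ t in (-(1 / 2) : ℝ)..(x + 1 / 2), modInd s t) -
      ∫ t in (-(1 / 2) : ℝ)..(x - 1 / 2), modInd s t := by
    ext x
    exact convInd_eq s x
  rw [h]
  have hc : Continuous fun y : ℝ => ∫ t in (-(1 / 2) : ℝ)..y, modInd s t :=
    intervalIntegral.continuous_primitive
      (fun a b => (integrable_modInd s).intervalIntegrable) _
  exact (hc.comp (by fun_prop)).sub (hc.comp (by fun_prop))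

lemma integrable_K_mul_K (p q : ℝ) : Integrable (fun v => K (v - p) * K (v - q)) := by
  refine ((integrable_K_sq p).add (integrable_K_sq q)).mono' ?_ ?_
  · exact ((continuous_K.comp (by fun_prop)).mul
      (continuous_K.comp (by fun_prop))).aestronglyMeasurable
  · filter_upwards with v
    rw [Real.norm_eq_abs, Pi.add_apply, abs_le]
    constructor <;> nlinarith [sq_nonneg (K (v - p) + K (v - q)), sq_nonneg (K (v - p) - K (v - q)),
      sq_nonneg (K (v - p)), sq_nonneg (K (v - q))]

/-- The sine kernel reproduces itself. -/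
theorem integral_K_mul_K (p q : ℝ) : ∫ v, K (v - p) * K (v - q) = K (p - q) := by
  have h0 : ∀ s : ℝ, ∫ v, K v * K (v - s) = K s := by
    intro s
    have hF : 𝓕 (convInd s) = fun v => ((K v * K (v - s) : ℝ) : ℂ) := by
      ext v
      exact fourier_convInd s v
    have hFi : Integrable (𝓕 (convInd s)) := by
      rw [hF]
      have := (integrable_K_mul_K 0 s).ofReal (𝕜 := ℂ)
      simpa using this
    have h1 := (integrable_convInd s).fourierInv_fourier_eq hFi
      (continuous_convInd s).continuousAt (v := 0)
    rw [Real.fourierInv_eq', hF] at h1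
    simp only [inner_zero_right, mul_zero, Complex.ofReal_zero, zero_mul, Complex.exp_zero,
      one_smul] at h1
    rw [integral_complex_ofReal, convInd_eq] at h1
    have h2 : (∫ t in (-(1 / 2) : ℝ)..(0 + 1 / 2), modInd s t) = (K s : ℂ) := by
      rw [zero_add, intervalIntegral.integral_of_le (by norm_num), modInd,
        setIntegral_indicator measurableSet_Ioc, Set.inter_self,
        ← intervalIntegral.integral_of_le (by norm_num), integral_exp_Icc]
    rw [h2, show (0 : ℝ) - 1 / 2 = -(1 / 2) by ring, intervalIntegral.integral_same, sub_zero] at h1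
    exact_mod_cast h1
  have h3 := integral_sub_right_eq_self (fun v => K v * K (v - (q - p))) p (μ := volume)
  rw [h0] at h3
  have e : ∀ v : ℝ, v - p - (q - p) = v - q := fun v => by ring
  simp_rw [e] at h3
  rw [h3, ← K_neg]
  congr 1
  ring

lemma integral_K_sq (p : ℝ) : ∫ v, K (v - p) ^ 2 = 1 := by
  have := integral_K_mul_K p p
  rw [sub_self, K_zero] at this
  simpa [sq] using this

end Pool.Agent.MP_67227b_nt
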