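import Pool.Agent.MP_67227b_nt.Mix44

set_option autoImplicit false

/-!
The rigidity of the sine process among the mixtures of translation invariant determinantal
processes with finitely many types: if the mean autocorrelation of the symbols is `1 - ξ` along a
sequence of shifts `ξ` which tends to zero, then almost surely the symbol is a fixed projection of
rank one on an interval of length one and vanishes elsewhere.
-/

open Filter MeasureTheory Topology Set
open scoped Real ENNReal ComplexOrder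

namespace Pool.Agent.MP_67227b_nt

variable {Ω : Type} [MeasurableSpace Ω] {P : Measure Ω} {n : ℕ}
  {Φ : Ω → ℝ → Matrix (Fin n) (Fin n) ℂ}

lemma meas_vari (H : SymbolMixture P Φ) (h : ℝ) : Measurable fun ω => vari (tr (Φ ω)) h := by
  unfold vari
  have h1 : Measurable fun p : Ω × ℝ => ‖tr (Φ p.1) (p.2 + h) - tr (Φ p.1) p.2‖ₑ :=
    (((meas_tr H).comp (measurable_fst.prodMk (measurable_snd.add_const h))).sub
      (meas_tr H)).enorm
  exact h1.lintegral_prod_right'

lemma integrable_inten (H : SymbolMixture P Φ) [IsFiniteMeasure P] : Integrable (inten Φ) P := by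
  have h1 : MemLp (inten Φ) 2 P :=
    (memLp_two_iff_integrable_sq (meas_inten H).aestronglyMeasurable).mpr (integrable_inten_sq H)
  exact h1.integrable (by norm_num)

/-- The intensity of the mixture is not random. -/
lemma inten_ae_one (H : SymbolMixture P Φ) [IsProbabilityMeasure P]
    (h1 : ∫ ω, inten Φ ω ∂P = 1) (h2 : ∫ ω, inten Φ ω ^ 2 ∂P = 1) :
    ∀ᵐ ω ∂P, inten Φ ω = 1 := by
  have hi := integrable_inten H
  have hi2 := integrable_inten_sq H
  have h3 : ∫ ω, (inten Φ ω - 1) ^ 2 ∂P = 0 := by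
    have e : ∀ ω, (inten Φ ω - 1) ^ 2 = inten Φ ω ^ 2 - 2 * inten Φ ω + 1 := fun ω => by ring
    simp only [e]
    have hi3 : Integrable (fun ω => inten Φ ω ^ 2 - 2 * inten Φ ω) P := hi2.sub (hi.const_mul 2)
    rw [integral_add hi3 (integrable_const 1), integral_sub hi2 (hi.const_mul 2),
      integral_const_mul, h1, h2]
    simp
    norm_num
  have hi4 : Integrable (fun ω => (inten Φ ω - 1) ^ 2) P := by
    have e : (fun ω => (inten Φ ω - 1) ^ 2) = fun ω => (inten Φ ω ^ 2 - 2 * inten Φ ω) + 1 := by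
      ext ω
      ring
    rw [e]
    exact (hi2.sub (hi.const_mul 2)).add (integrable_const 1)
  have h4 := (integral_eq_zero_iff_of_nonneg (fun ω => sq_nonneg _) hi4).mp h3
  filter_upwards [h4] with ω hω
  have h5 : (inten Φ ω - 1) ^ 2 = 0 := hω
  have h6 := pow_eq_zero_iff (two_ne_zero) |>.mp h5
  linarith

/-- The integral of the trace of the square of the symbol. -/
noncomputable def sqInt (Φ : Ω → ℝ → Matrix (Fin n) (Fin n) ℂ) (ω : Ω) : ℝ :=
  ∫ ξ, (Φ ω ξ * Φ ω ξ).trace.re

lemma sqInt_nonneg (H : SymbolMixture P Φ) (ω : Ω) : 0 ≤ sqInt Φ ω :=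
  integral_nonneg fun _ => trace_mul_re_nonneg (H.pos _ _) (H.pos _ _)

lemma sqInt_le (H : SymbolMixture P Φ) (ω : Ω) : sqInt Φ ω ≤ inten Φ ω :=
  integral_mono (H.sym ω).integrable_sq (H.sym ω).integrable_tr
    fun ξ => ((H.sym ω).eff ξ).trace_mul_le ((H.sym ω).eff ξ)

lemma integrable_sqInt (H : SymbolMixture P Φ) [IsFiniteMeasure P] :
    Integrable (sqInt Φ) P := by
  refine Integrable.mono' (integrable_inten H) ?_ ?_
  · have h1 : Measurable fun p : Ω × ℝ => (Φ p.1 p.2 * Φ p.1 p.2).trace.re := by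
      have h2 := (meas_mul H).comp
        (((measurable_fst (α := Ω) (β := ℝ)).prodMk (measurable_const (a := (0 : ℝ)))).prodMk
          measurable_snd)
      simpa [Function.comp_def] using h2
    exact (h1.stronglyMeasurable.integral_prod_right' (ν := volume)).aestronglyMeasurable
  · filter_upwards with ω
    rw [Real.norm_of_nonneg (sqInt_nonneg H ω)]
    exact sqInt_le H ω

lemma mcorr_le_sqInt (H : SymbolMixture P Φ) (ω : Ω) (ξ : ℝ) : mcorr (Φ ω) ξ ≤ sqInt Φ ω :=
  (H.sym ω).mcorr_le ξ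

lemma integrable_corr_param (H : SymbolMixture P Φ) [IsFiniteMeasure P] (ξ : ℝ) :
    Integrable (fun ω => mcorr (Φ ω) ξ) P := by
  refine Integrable.mono' (integrable_sqInt H) ?_ ?_
  · exact ((meas_mcorr H).comp (measurable_id.prodMk measurable_const)).aestronglyMeasurable
  · filter_upwards with ω
    rw [Real.norm_of_nonneg ((H.sym ω).mcorr_nonneg ξ)]
    exact mcorr_le_sqInt H ω ξ

/-- Almost surely the symbol is a projection at almost every frequency. -/
lemma idem_ae (H : SymbolMixture P Φ) [IsProbabilityMeasure P]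
    (h1 : ∫ ω, inten Φ ω ∂P = 1) {h : ℕ → ℝ} (hlim : Tendsto h atTop (𝓝 0))
    (hB : ∀ k, meanCorr P Φ (h k) = 1 - h k) :
    ∀ᵐ ω ∂P, ∀ᵐ ξ, Φ ω ξ * Φ ω ξ = Φ ω ξ := by
  have h2 : 1 ≤ ∫ ω, sqInt Φ ω ∂P := by
    have h3 : ∀ k, 1 - h k ≤ ∫ ω, sqInt Φ ω ∂P := by
      intro k
      rw [← hB k]
      exact integral_mono (integrable_corr_param H (h k)) (integrable_sqInt H)
        fun ω => mcorr_le_sqInt H ω (h k)
    have h4 : Tendsto (fun k => 1 - h k) atTop (𝓝 (1 - 0)) := hlim.const_sub 1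
    rw [sub_zero] at h4
    exact le_of_tendsto' h4 h3
  have h7 : ∫ ω, (inten Φ ω - sqInt Φ ω) ∂P = 0 := by
    apply le_antisymm
    · rw [integral_sub (integrable_inten H) (integrable_sqInt H), h1]
      linarith
    · exact integral_nonneg fun ω => sub_nonneg.mpr (sqInt_le H ω)
  have h8 := (integral_eq_zero_iff_of_nonneg
    (fun ω => sub_nonneg.mpr (sqInt_le H ω))
    ((integrable_inten H).sub (integrable_sqInt H))).mp h7
  filter_upwards [h8] with ω hω
  have h9 : inten Φ ω - sqInt Φ ω = 0 := hω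
  have h10 : ∫ ξ, (tr (Φ ω) ξ - (Φ ω ξ * Φ ω ξ).trace.re) = 0 := by
    rw [integral_sub (H.sym ω).integrable_tr (H.sym ω).integrable_sq]
    exact h9
  have hnn : ∀ ξ, 0 ≤ tr (Φ ω) ξ - (Φ ω ξ * Φ ω ξ).trace.re := fun ξ =>
    sub_nonneg.mpr (((H.sym ω).eff ξ).trace_mul_le ((H.sym ω).eff ξ))
  have h11 := (integral_eq_zero_iff_of_nonneg hnn
    ((H.sym ω).integrable_tr.sub (H.sym ω).integrable_sq)).mp h10
  filter_upwards [h11] with ξ hξ
  have h12 : tr (Φ ω) ξ - (Φ ω ξ * Φ ω ξ).trace.re = 0 := hξ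
  apply ((H.sym ω).eff ξ).idem
  unfold tr at h12
  linarith

/-- The mean variation is at most twice the shift. -/
lemma mean_vari_le (H : SymbolMixture P Φ) [IsProbabilityMeasure P]
    (h1 : ∫ ω, inten Φ ω ∂P = 1) {h : ℝ} (hB : meanCorr P Φ h = 1 - h) :
    ∫⁻ ω, vari (tr (Φ ω)) h ∂P ≤ ENNReal.ofReal (2 * h) := by
  have hi : Integrable (fun ω => inten Φ ω - mcorr (Φ ω) h) P :=
    (integrable_inten H).sub (integrable_corr_param H h)
  have h2 : ∀ ω, ∫ s, |tr (Φ ω) (s + h) - tr (Φ ω) s| ≤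
      2 * (inten Φ ω - mcorr (Φ ω) h) := by
    intro ω
    have h4 := (H.sym ω).vari_le h
    unfold inten
    linarith
  have h3 : ∀ ω, vari (tr (Φ ω)) h ≤ ENNReal.ofReal (2 * (inten Φ ω - mcorr (Φ ω) h)) := by
    intro ω
    rw [vari_eq (H.sym ω).integrable_tr h]
    exact ENNReal.ofReal_le_ofReal (h2 ω)
  refine (lintegral_mono h3).trans ?_
  rw [← ofReal_integral_eq_lintegral_ofReal (hi.const_mul 2)]
  · apply ENNReal.ofReal_le_ofReal
    rw [integral_const_mul, integral_sub (integrable_inten H) (integrable_corr_param H h), h1]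
    have : ∫ ω, mcorr (Φ ω) h ∂P = 1 - h := hB
    rw [this]
    linarith
  · filter_upwards with ω
    exact (integral_nonneg fun s => abs_nonneg _).trans (h2 ω)

lemma ae_tendsto_winC {f : ℝ → ℂ} (hf : Integrable f) : ∀ᵐ t, ∀ h : ℕ → ℝ,
    (∀ k, 0 < h k) → Tendsto h atTop (𝓝 0) →
      Tendsto (fun k => (h k)⁻¹ • ∫ s in t..(t + h k), f s) atTop (𝓝 (f t)) := by
  filter_upwards [LocallyIntegrable.ae_hasDerivAt_integral hf.locallyIntegrable] with t ht
  intro h hpos hlim
  have h1 := (hasDerivAt_iff_tendsto_slope_zero.mp (ht t))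
  have h2 : Tendsto h atTop (𝓝[≠] 0) := by
    rw [tendsto_nhdsWithin_iff]
    exact ⟨hlim, Eventually.of_forall fun k => (hpos k).ne'⟩
  refine (h1.comp h2).congr (fun k => ?_)
  simp only [Function.comp_apply, intervalIntegral.integral_same, sub_zero]

/-- A function which agrees with its small translates on an interval is constant there. -/
lemma const_of_shift {f : ℝ → ℂ} (hf : Integrable f) {s : ℝ} {h : ℕ → ℝ} (hpos : ∀ k, 0 < h k)
    (hlim : Tendsto h atTop (𝓝 0))
    (hsh : ∀ k, ∀ᵐ η, η ∈ Icc s (s + 1) → η + h k ∈ Icc s (s + 1) → f (η + h k) = f η) :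
    ∀ x ∈ Ioo s (s + 1), ∀ᶠ k in atTop, (h k)⁻¹ • ∫ t in x..(x + h k), f t =
      (h k)⁻¹ • ∫ t in s..(s + h k), f t := by
  intro x hx
  have h1 : ∀ᶠ k in atTop, h k < s + 1 - x :=
    hlim.eventually (gt_mem_nhds (by linarith [hx.2]))
  filter_upwards [h1] with k hk
  congr 1
  have hint : ∀ a b : ℝ, IntervalIntegrable f volume a b := fun a b => hf.intervalIntegrable
  have h2 : ∫ t in s..x, f (t + h k) = ∫ t in s..x, f t := by
    apply intervalIntegral.integral_congr_ae
    filter_upwards [hsh k] with η hη hmem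
    rw [uIoc_of_le hx.1.le] at hmem
    have := hpos k
    exact hη ⟨hmem.1.le, by linarith [hmem.2, hx.2]⟩ ⟨by linarith [hmem.1], by linarith [hmem.2]⟩
  rw [intervalIntegral.integral_comp_add_right] at h2
  have h3 := intervalIntegral.integral_add_adjacent_intervals (hint s x) (hint x (x + h k))
  have h4 := intervalIntegral.integral_add_adjacent_intervals (hint s (s + h k))
    (hint (s + h k) (x + h k))
  rw [← h4, h2] at h3
  exact add_left_cancel (h3.trans (add_comm _ _))

/-- The rigidity theorem. -/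
theorem mix_rigid (H : SymbolMixture P Φ) [IsProbabilityMeasure P]
    (h1 : ∫ ω, inten Φ ω ∂P = 1) (h2 : ∫ ω, inten Φ ω ^ 2 ∂P = 1)
    {h : ℕ → ℝ} (hpos : ∀ k, 0 < h k) (hle : ∀ k, h k ≤ 1) (hlim : Tendsto h atTop (𝓝 0))
    (hB : ∀ k, meanCorr P Φ (h k) = 1 - h k) :
    ∀ᵐ ω ∂P, ∃ (s : ℝ) (C : Matrix (Fin n) (Fin n) ℂ), C.IsHermitian ∧ C * C = C ∧
      C.trace.re = 1 ∧ Φ ω =ᵐ[volume] ((Icc s (s + 1)).indicator fun _ => C) := by
  set L : Ω → ℝ≥0∞ := fun ω =>
    liminf (fun k => vari (tr (Φ ω)) (h k) / ENNReal.ofReal (h k)) atTop with hL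
  have hone := inten_ae_one H h1 h2
  have hidem := idem_ae H h1 hlim hB
  -- the upper bound
  have hup : ∫⁻ ω, L ω ∂P ≤ 2 := by
    calc ∫⁻ ω, L ω ∂P
        ≤ liminf (fun k => ∫⁻ ω, vari (tr (Φ ω)) (h k) / ENNReal.ofReal (h k) ∂P) atTop := by
          apply lintegral_liminf_le
          intro k
          exact (meas_vari H (h k)).div_const _
      _ ≤ liminf (fun _ : ℕ => (2 : ℝ≥0∞)) atTop := by
          refine liminf_le_liminf (Eventually.of_forall fun k => ?_)
          have e : ∀ ω, vari (tr (Φ ω)) (h k) / ENNReal.ofReal (h k) =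
              vari (tr (Φ ω)) (h k) * (ENNReal.ofReal (h k))⁻¹ := fun ω => rfl
          simp only [e]
          rw [lintegral_mul_const _ (meas_vari H (h k))]
          calc (∫⁻ ω, vari (tr (Φ ω)) (h k) ∂P) * (ENNReal.ofReal (h k))⁻¹
              ≤ ENNReal.ofReal (2 * h k) * (ENNReal.ofReal (h k))⁻¹ := by
                gcongr
                exact mean_vari_le H h1 (hB k)
            _ = 2 := by
                rw [← ENNReal.ofReal_inv_of_pos (hpos k), ← ENNReal.ofReal_mul
                  (by have := hpos k; positivity)]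
                have : 2 * h k * (h k)⁻¹ = 2 := by
                  have := (hpos k).ne'
                  field_simp
                rw [this]
                simp
      _ = 2 := by simp
  -- the lower bound
  have hlow : ∀ᵐ ω ∂P, 2 ≤ L ω := by
    filter_upwards [hone, hidem] with ω hω hω2
    obtain ⟨t, ht1, ht2⟩ : ∃ t, (∀ h : ℕ → ℝ, (∀ k, 0 < h k) → Tendsto h atTop (𝓝 0) →
        Tendsto (fun k => win (tr (Φ ω)) (h k) t / h k) atTop (𝓝 (tr (Φ ω) t))) ∧
        1 ≤ tr (Φ ω) t := by
      by_contra hcon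
      push Not at hcon
      have h0 : tr (Φ ω) =ᵐ[volume] 0 := by
        filter_upwards [ae_tendsto_win (H.sym ω).integrable_tr, hω2] with t h3 h4
        obtain ⟨k, hk⟩ := trace_nat_of_idem (H.pos ω t).isHermitian h4
        have h5 := hcon t h3
        unfold tr at h5 ⊢
        rw [hk] at h5 ⊢
        have h6 : k < 1 := by exact_mod_cast h5
        have h7 : k = 0 := by omega
        rw [h7]
        simp
      unfold inten at hω
      rw [integral_congr_ae h0] at hω
      simp at hω
    have h3 := liminf_ge_one (H.sym ω).integrable_tr hpos (ht1 h hpos hlim)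
    refine le_trans ?_ h3
    rw [show (2 : ℝ≥0∞) = ENNReal.ofReal 2 by simp]
    apply ENNReal.ofReal_le_ofReal
    linarith
  have hLeq : ∀ᵐ ω ∂P, L ω = 2 := by
    have hmeas : Measurable L := Measurable.liminf fun k => (meas_vari H (h k)).div_const _
    have := ae_eq_of_ae_le_of_lintegral_le (f := fun _ : Ω => (2 : ℝ≥0∞)) hlow (by simp)
      hmeas.aemeasurable (by simpa using hup)
    filter_upwards [this] with ω hω
    exact hω.symm
  -- the trace is the indicator function of an interval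
  have hint : ∀ᵐ ω ∂P, ∃ s : ℝ, tr (Φ ω) =ᵐ[volume] (Icc s (s + 1)).indicator fun _ => 1 := by
    filter_upwards [hone, hidem, hLeq] with ω hω hω2 hω3
    have h01 : ∀ᵐ t, tr (Φ ω) t = 0 ∨ tr (Φ ω) t = 1 := by
      filter_upwards [ae_tendsto_win (H.sym ω).integrable_tr, hω2] with t h3 h4
      obtain ⟨k, hk⟩ := trace_nat_of_idem (H.pos ω t).isHermitian h4
      have h5 := liminf_ge_one (H.sym ω).integrable_tr hpos (h3 h hpos hlim)
      have h6 : ENNReal.ofReal (2 * tr (Φ ω) t) ≤ ENNReal.ofReal 2 := by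
        refine h5.trans ?_
        rw [show ENNReal.ofReal 2 = (2 : ℝ≥0∞) by simp]
        exact hω3.le
      rw [ENNReal.ofReal_le_ofReal_iff (by norm_num)] at h6
      have h7 : tr (Φ ω) t = k := hk
      rw [h7] at h6 ⊢
      have h8 : (k : ℝ) ≤ 1 := by linarith
      have h9 : k ≤ 1 := by exact_mod_cast h8
      interval_cases k
      · left
        simp
      · right
        simp
    exact interval_of_liminf (H.sym ω).integrable_tr h01 hω hpos hlim hω3.le
  -- the defect
  have hdef : ∀ k, ∀ᵐ ω ∂P, ∀ᵐ η, tr (Φ ω) η + tr (Φ ω) (η + h k) -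
      2 * (Φ ω η * Φ ω (η + h k)).trace.re = |tr (Φ ω) (η + h k) - tr (Φ ω) η| := by
    intro k
    have hX : Integrable (fun ω => 2 * inten Φ ω - 2 * mcorr (Φ ω) (h k) - 2 * h k) P :=
      (((integrable_inten H).const_mul 2).sub
        ((integrable_corr_param H (h k)).const_mul 2)).sub (integrable_const _)
    have hY : ∀ᵐ ω ∂P, 2 * h k ≤ ∫ s, |tr (Φ ω) (s + h k) - tr (Φ ω) s| := by
      filter_upwards [hint] with ω hω
      obtain ⟨s, hs⟩ := hω
      have h3 := win_one (H.sym ω).integrable_tr (h k) s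
      have h4 : win (tr (Φ ω)) (h k) s = h k := by
        unfold win
        rw [intervalIntegral.integral_congr_ae (g := fun _ => (1 : ℝ))]
        · simp
        · filter_upwards [hs] with t ht hmem
          rw [uIoc_of_le (by linarith [hpos k])] at hmem
          rw [ht, indicator_of_mem]
          exact ⟨hmem.1.le, by linarith [hmem.2, hle k]⟩
      rw [h4] at h3
      exact h3
    have hX0 : ∀ᵐ ω ∂P, 0 ≤ 2 * inten Φ ω - 2 * mcorr (Φ ω) (h k) - 2 * h k := by
      filter_upwards [hY] with ω hω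
      have := (H.sym ω).vari_le (h k)
      unfold inten
      linarith
    have hXint : ∫ ω, (2 * inten Φ ω - 2 * mcorr (Φ ω) (h k) - 2 * h k) ∂P = 0 := by
      have e1 : Integrable (fun ω => 2 * inten Φ ω - 2 * mcorr (Φ ω) (h k)) P :=
        ((integrable_inten H).const_mul 2).sub ((integrable_corr_param H (h k)).const_mul 2)
      rw [integral_sub e1 (integrable_const _), integral_sub ((integrable_inten H).const_mul 2)
        ((integrable_corr_param H (h k)).const_mul 2), integral_const_mul, integral_const_mul, h1]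
      have : ∫ ω, mcorr (Φ ω) (h k) ∂P = 1 - h k := hB k
      rw [this, integral_const]
      simp
      ring
    have hXz := (integral_eq_zero_iff_of_nonneg_ae hX0 hX).mp hXint
    filter_upwards [hXz, hY] with ω hω hω2
    have h3 : 2 * inten Φ ω - 2 * mcorr (Φ ω) (h k) - 2 * h k = 0 := hω
    have hs : Integrable (fun η => tr (Φ ω) η + tr (Φ ω) (η + h k)) :=
      (H.sym ω).integrable_tr.add ((H.sym ω).integrable_tr.comp_add_right (h k))
    have hd : Integrable (fun η => tr (Φ ω) η + tr (Φ ω) (η + h k) -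
        2 * (Φ ω η * Φ ω (η + h k)).trace.re) :=
      hs.sub (((H.sym ω).integrable_mul (h k)).const_mul 2)
    have ha := (integrable_shift_sub (H.sym ω).integrable_tr (h k)).abs
    have hnn : ∀ η, 0 ≤ (tr (Φ ω) η + tr (Φ ω) (η + h k) -
        2 * (Φ ω η * Φ ω (η + h k)).trace.re) - |tr (Φ ω) (η + h k) - tr (Φ ω) η| := fun η =>
      sub_nonneg.mpr (((H.sym ω).eff η).abs_trace_sub_le ((H.sym ω).eff (η + h k)))
    have hz : ∫ η, ((tr (Φ ω) η + tr (Φ ω) (η + h k) -
        2 * (Φ ω η * Φ ω (η + h k)).trace.re) - |tr (Φ ω) (η + h k) - tr (Φ ω) η|) = 0 := by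
      apply le_antisymm
      · rw [integral_sub hd ha, integral_sub hs (((H.sym ω).integrable_mul (h k)).const_mul 2),
          integral_add (H.sym ω).integrable_tr ((H.sym ω).integrable_tr.comp_add_right (h k)),
          integral_add_right_eq_self (tr (Φ ω)) (h k), integral_const_mul]
        have e3 : ∫ η, (Φ ω η * Φ ω (η + h k)).trace.re = mcorr (Φ ω) (h k) := rfl
        have e4 : ∫ η, tr (Φ ω) η = inten Φ ω := rfl
        rw [e3, e4]
        linarith
      · exact integral_nonneg hnn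
    have h4 := (integral_eq_zero_iff_of_nonneg hnn (hd.sub ha)).mp hz
    filter_upwards [h4] with η hη
    exact sub_eq_zero.mp hη
  filter_upwards [hidem, hint, ae_all_iff.mpr hdef] with ω hid hs hde
  obtain ⟨s, hs⟩ := hs
  have S := H.sym ω
  -- the symbol agrees with its translates
  have hshift : ∀ k, ∀ᵐ η, η ∈ Icc s (s + 1) → η + h k ∈ Icc s (s + 1) →
      Φ ω (η + h k) = Φ ω η := by
    intro k
    have hq := (measurePreserving_add_right (volume : Measure ℝ) (h k)).quasiMeasurePreserving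
    filter_upwards [hid, hq.ae hid, hs, hq.ae hs, hde k] with η e1 e2 e3 e4 e5 m1 m2
    rw [e3, e4, indicator_of_mem m1, indicator_of_mem m2, sub_self, abs_zero] at e5
    symm
    apply eq_of_defect (S.eff η) (S.eff (η + h k)) e1 e2
    have e6 : (Φ ω η).trace.re = 1 := by
      have := e3
      rw [indicator_of_mem m1] at this
      exact this
    have e7 : (Φ ω (η + h k)).trace.re = 1 := by
      have := e4
      rw [indicator_of_mem m2] at this
      exact this
    rw [e6, e7]
    exact e5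
  have hconst : ∀ c d, ∀ x ∈ Ioo s (s + 1), ∀ᶠ k in atTop,
      (h k)⁻¹ • ∫ t in x..(x + h k), Φ ω t c d = (h k)⁻¹ • ∫ t in s..(s + h k), Φ ω t c d := by
    intro c d
    apply const_of_shift (S.integrable_entry c d) hpos hlim
    intro k
    filter_upwards [hshift k] with η hη m1 m2
    rw [hη m1 m2]
  have hleb : ∀ᵐ t, ∀ c d, Tendsto (fun k => (h k)⁻¹ • ∫ x in t..(t + h k), Φ ω x c d) atTop
      (𝓝 (Φ ω t c d)) := by
    rw [ae_all_iff]
    intro c
    rw [ae_all_iff]
    intro d
    filter_upwards [ae_tendsto_winC (S.integrable_entry c d)] with t ht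
    exact ht h hpos hlim
  -- a good point in the interval
  have hgood : ∀ᵐ t, (∀ c d, Tendsto (fun k => (h k)⁻¹ • ∫ x in t..(t + h k), Φ ω x c d) atTop
      (𝓝 (Φ ω t c d))) ∧ Φ ω t * Φ ω t = Φ ω t ∧
      tr (Φ ω) t = (Icc s (s + 1)).indicator (fun _ => 1) t := by
    filter_upwards [hleb, hid, hs] with t a b c
    exact ⟨a, b, c⟩
  obtain ⟨x₀, hx₀, hg₀⟩ : ∃ x₀ ∈ Ioo s (s + 1),
      (∀ c d, Tendsto (fun k => (h k)⁻¹ • ∫ x in x₀..(x₀ + h k), Φ ω x c d) atTop
      (𝓝 (Φ ω x₀ c d))) ∧ Φ ω x₀ * Φ ω x₀ = Φ ω x₀ ∧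
      tr (Φ ω) x₀ = (Icc s (s + 1)).indicator (fun _ => 1) x₀ := by
    by_contra hcon
    push Not at hcon
    have h3 : volume (Ioo s (s + 1)) = 0 := by
      refine measure_mono_null ?_ hgood
      intro x hx h4
      exact hcon x hx h4.1 h4.2.1 h4.2.2
    rw [Real.volume_Ioo] at h3
    simp at h3
  have htr : (Φ ω x₀).trace.re = 1 := by
    have := hg₀.2.2
    rw [indicator_of_mem (Ioo_subset_Icc_self hx₀)] at this
    exact this
  refine ⟨s, Φ ω x₀, (H.pos ω x₀).isHermitian, hg₀.2.1, htr, ?_⟩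
  filter_upwards [hgood, compl_mem_ae_iff.mpr (measure_singleton s),
    compl_mem_ae_iff.mpr (measure_singleton (s + 1))] with t ht n1 n2
  by_cases hm : t ∈ Icc s (s + 1)
  · rw [indicator_of_mem hm]
    have hm2 : t ∈ Ioo s (s + 1) :=
      ⟨lt_of_le_of_ne hm.1 (Ne.symm n1), lt_of_le_of_ne hm.2 n2⟩
    ext c d
    have h5 := (ht.1 c d).congr' (hconst c d t hm2)
    have h6 := (hg₀.1 c d).congr' (hconst c d x₀ hx₀)
    exact tendsto_nhds_unique h5 h6
  · rw [indicator_of_notMem hm]
    have h5 : (Φ ω t).trace.re = 0 := by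
      have := ht.2.2
      rw [indicator_of_notMem hm] at this
      exact this
    have h6 : (Φ ω t).trace = 0 := Complex.ext h5 (psd_trace_im (H.pos ω t))
    exact (H.pos ω t).trace_eq_zero_iff.mp h6

end Pool.Agent.MP_67227b_nt
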