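import Pool.Agent.MP_67227b_nt.Compare67

set_option autoImplicit false
open Filter MeasureTheory Topology Set
open scoped Real Pointwise

namespace Pool.Agent.MP_67227b_nt

variable {m : ℕ}

/-- Frequencies of norm at most `δ`. -/
lemma trig_mul_ball {δ δ' : ℝ} {F G : (Fin m → ℝ) → ℂ}
    (hF : F ∈ trigSpan (Metric.closedBall (0 : Fin m → ℝ) δ))
    (hG : G ∈ trigSpan (Metric.closedBall (0 : Fin m → ℝ) δ')) :
    F * G ∈ trigSpan (Metric.closedBall (0 : Fin m → ℝ) (δ + δ')) := by
  refine trigSpan_mono ?_ (trigSpan_mul hF hG)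
  rintro _ ⟨a, ha, b, hb, rfl⟩
  rw [mem_closedBall_zero_iff] at *
  exact (norm_add_le _ _).trans (add_le_add ha hb)

lemma one_mem_trig {δ : ℝ} (hδ : 0 ≤ δ) :
    (1 : (Fin m → ℝ) → ℂ) ∈ trigSpan (Metric.closedBall (0 : Fin m → ℝ) δ) := by
  have : (1 : (Fin m → ℝ) → ℂ) = ee 0 := by
    ext u
    rw [ee_zero_left]
    rfl
  rw [this]
  exact ee_mem_trigSpan (by simpa using hδ)

lemma trig_pow_ball {δ : ℝ} {F : (Fin m → ℝ) → ℂ}
    (hF : F ∈ trigSpan (Metric.closedBall (0 : Fin m → ℝ) δ)) (n : ℕ) :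
    F ^ n ∈ trigSpan (Metric.closedBall (0 : Fin m → ℝ) (n * δ)) := by
  induction n with
  | zero =>
    rw [pow_zero]
    exact one_mem_trig (by simp)
  | succ n ih =>
    rw [pow_succ]
    have := trig_mul_ball ih hF
    rwa [show (n : ℝ) * δ + δ = ((n + 1 : ℕ) : ℝ) * δ by push_cast; ring] at this

/-- The function `∑ (sin (π η u_i) / (π η)) ^ 2`. -/
noncomputable def growth (η : ℝ) (u : Fin m → ℝ) : ℝ :=
  ∑ i, (Real.sin (π * η * u i) / (π * η)) ^ 2

lemma growth_nonneg (η : ℝ) (u : Fin m → ℝ) : 0 ≤ growth η u :=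
  Finset.sum_nonneg fun _ _ => sq_nonneg _

lemma growth_mem {η : ℝ} (hη : 0 < η) : (fun u : Fin m → ℝ => ((growth η u : ℝ) : ℂ)) ∈
    trigSpan (Metric.closedBall (0 : Fin m → ℝ) η) := by
  classical
  have h1 : (fun u : Fin m → ℝ => ((growth η u : ℝ) : ℂ)) =
      ∑ i, (1 / (4 * π ^ 2 * η ^ 2) : ℂ) • ((2 : ℂ) • ee (0 : Fin m → ℝ) -
        ee (Pi.single i η) - ee (-(Pi.single i η))) := by
    ext u
    simp only [Finset.sum_apply, Pi.smul_apply, Pi.sub_apply, smul_eq_mul]
    unfold growth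
    rw [Complex.ofReal_sum]
    apply Finset.sum_congr rfl
    intro i _
    rw [ee_zero_left, ee_neg_left, ee_eq_cos_sin]
    have h2 : ∑ j, (Pi.single i η : Fin m → ℝ) j * u j = η * u i := by
      rw [Finset.sum_eq_single i]
      · simp
      · intro j _ hj
        simp [hj]
      · simp
    rw [h2, map_add, map_mul, Complex.conj_ofReal, Complex.conj_ofReal, Complex.conj_I]
    have h3 : Real.cos (2 * π * (η * u i)) = 1 - 2 * Real.sin (π * η * u i) ^ 2 := by
      rw [show 2 * π * (η * u i) = 2 * (π * η * u i) by ring, Real.cos_two_mul, Real.cos_sq']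
      ring
    rw [h3]
    have hπ : (π : ℂ) ≠ 0 := by exact_mod_cast Real.pi_ne_zero
    have hη' : (η : ℂ) ≠ 0 := by exact_mod_cast hη.ne'
    push_cast
    field_simp
    ring
  rw [h1]
  apply Submodule.sum_mem
  intro i _
  apply Submodule.smul_mem
  apply Submodule.sub_mem
  · apply Submodule.sub_mem
    · apply Submodule.smul_mem
      exact ee_mem_trigSpan (by simpa using hη.le)
    · refine ee_mem_trigSpan ?_
      rw [mem_closedBall_zero_iff, Pi.norm_single, Real.norm_of_nonneg hη.le]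
  · refine ee_mem_trigSpan ?_
    rw [mem_closedBall_zero_iff, norm_neg, Pi.norm_single, Real.norm_of_nonneg hη.le]

lemma growth_le {η : ℝ} (hη : 0 < η) {R : ℝ} {u : Fin m → ℝ} (hu : ‖u‖ ≤ R) :
    growth η u ≤ m * R ^ 2 := by
  have hR : 0 ≤ R := (norm_nonneg _).trans hu
  unfold growth
  calc ∑ i, (Real.sin (π * η * u i) / (π * η)) ^ 2 ≤ ∑ _i : Fin m, R ^ 2 := by
        apply Finset.sum_le_sum
        intro i _
        have h1 : |Real.sin (π * η * u i)| ≤ |π * η * u i| := Real.abs_sin_le_abs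
        have h2 : |u i| ≤ R := (norm_le_pi_norm u i).trans hu
        have h3 : |Real.sin (π * η * u i) / (π * η)| ≤ R := by
          rw [abs_div, abs_of_pos (show 0 < π * η by positivity), div_le_iff₀ (by positivity)]
          refine h1.trans ?_
          rw [abs_mul, abs_of_pos (show 0 < π * η by positivity)]
          nlinarith [show 0 < π * η by positivity]
        rw [← sq_abs]
        gcongr
    _ = m * R ^ 2 := by simp

lemma le_growth {η R : ℝ} (hη : 0 < η) (hR : η * R ≤ 1 / 2) {u : Fin m → ℝ} (hu : ‖u‖ ≤ R) :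
    4 / π ^ 2 * ‖u‖ ^ 2 ≤ growth η u := by
  have h1 : ∀ i, (2 / π * |u i|) ^ 2 ≤ growth η u := by
    intro i
    have h2 : |u i| ≤ R := (norm_le_pi_norm u i).trans hu
    have h3 : |π * η * u i| ≤ π / 2 := by
      rw [abs_mul, abs_of_pos (show 0 < π * η by positivity)]
      calc π * η * |u i| ≤ π * η * R := by gcongr
        _ = π * (η * R) := by ring
        _ ≤ π * (1 / 2) := by gcongr
        _ = π / 2 := by ring
    have h4 := Real.mul_abs_le_abs_sin h3
    have h5 : 2 / π * |u i| ≤ |Real.sin (π * η * u i) / (π * η)| := by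
      rw [abs_div, abs_of_pos (show 0 < π * η by positivity), le_div_iff₀ (by positivity)]
      refine le_trans (le_of_eq ?_) h4
      rw [abs_mul, abs_of_pos (show 0 < π * η by positivity)]
      ring
    calc (2 / π * |u i|) ^ 2 ≤ |Real.sin (π * η * u i) / (π * η)| ^ 2 := by gcongr
      _ = (Real.sin (π * η * u i) / (π * η)) ^ 2 := sq_abs _
      _ ≤ growth η u := by
          unfold growth
          exact Finset.single_le_sum (f := fun i => (Real.sin (π * η * u i) / (π * η)) ^ 2)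
            (fun _ _ => sq_nonneg _) (Finset.mem_univ i)
  have h6 : ‖u‖ ≤ π / 2 * Real.sqrt (growth η u) := by
    rw [pi_norm_le_iff_of_nonneg (by positivity)]
    intro i
    have h7 := Real.le_sqrt_of_sq_le (h1 i)
    rw [Real.norm_eq_abs]
    calc |u i| = π / 2 * (2 / π * |u i|) := by field_simp
      _ ≤ π / 2 * Real.sqrt (growth η u) := by gcongr
  have h8 : ‖u‖ ^ 2 ≤ (π / 2) ^ 2 * growth η u := by
    calc ‖u‖ ^ 2 ≤ (π / 2 * Real.sqrt (growth η u)) ^ 2 := by gcongr
      _ = (π / 2) ^ 2 * growth η u := by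
          rw [mul_pow, Real.sq_sqrt (growth_nonneg _ _)]
  calc 4 / π ^ 2 * ‖u‖ ^ 2 ≤ 4 / π ^ 2 * ((π / 2) ^ 2 * growth η u) := by gcongr
    _ = growth η u := by
        field_simp
        ring

/-- Comparison of signed integrals far away. -/
lemma far_compare {μ lam : Measure (Fin m → ℝ)} {P : (Fin m → ℝ) → ℝ} (hP : Continuous P)
    {A : ℝ} (ha : ∀ s ⊆ {u : Fin m → ℝ | A < ‖u‖ ∧ 0 < P u}, μ s ≤ lam s)
    (hb : ∀ s ⊆ {u : Fin m → ℝ | A < ‖u‖ ∧ P u < 0}, lam s ≤ μ s)
    {s : Set (Fin m → ℝ)} (hs : MeasurableSet s) (hsA : ∀ u ∈ s, A < ‖u‖)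
    {h : (Fin m → ℝ) → ℝ} (hh : ∀ u ∈ s, 0 ≤ h u)
    (hiμ : IntegrableOn (fun u => h u * P u) s μ) (hil : IntegrableOn (fun u => h u * P u) s lam) :
    ∫ u in s, h u * P u ∂μ ≤ ∫ u in s, h u * P u ∂lam := by
  set sp : Set (Fin m → ℝ) := s ∩ {u | 0 < P u} with hsp
  set sm : Set (Fin m → ℝ) := s ∩ {u | P u < 0} with hsm
  have mp : MeasurableSet sp := hs.inter (isOpen_lt continuous_const hP).measurableSet
  have mm : MeasurableSet sm := hs.inter (isOpen_lt hP continuous_const).measurableSet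
  have hdisj : Disjoint sp sm := by
    rw [Set.disjoint_left]
    rintro u ⟨_, h1⟩ ⟨_, h2⟩
    simp only [mem_ofPred_eq] at h1 h2
    linarith
  have hsub : sp ∪ sm ⊆ s := union_subset inter_subset_left inter_subset_left
  have key : ∀ κ : Measure (Fin m → ℝ), IntegrableOn (fun u => h u * P u) s κ →
      ∫ u in s, h u * P u ∂κ = ∫ u in sp, h u * P u ∂κ + ∫ u in sm, h u * P u ∂κ := by
    intro κ hκ
    rw [← setIntegral_union hdisj mm (hκ.mono_set inter_subset_left)
      (hκ.mono_set inter_subset_left)]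
    apply setIntegral_eq_of_subset_of_forall_sdiff_eq_zero hs hsub
    rintro u ⟨hu1, hu2⟩
    have h3 : P u = 0 := by
      by_contra hne
      rcases lt_or_gt_of_ne hne with h4 | h4
      · exact hu2 (Or.inr ⟨hu1, h4⟩)
      · exact hu2 (Or.inl ⟨hu1, h4⟩)
    rw [h3, mul_zero]
  have rp : μ.restrict sp ≤ lam.restrict sp := by
    rw [Measure.le_iff]
    intro t ht
    rw [Measure.restrict_apply ht, Measure.restrict_apply ht]
    exact ha _ (fun u hu => ⟨hsA u hu.2.1, hu.2.2⟩)
  have rm : lam.restrict sm ≤ μ.restrict sm := by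
    rw [Measure.le_iff]
    intro t ht
    rw [Measure.restrict_apply ht, Measure.restrict_apply ht]
    exact hb _ (fun u hu => ⟨hsA u hu.2.1, hu.2.2⟩)
  have h1 : ∫ u in sp, h u * P u ∂μ ≤ ∫ u in sp, h u * P u ∂lam := by
    apply integral_mono_measure rp
    · filter_upwards [ae_restrict_mem mp] with u hu
      exact mul_nonneg (hh u hu.1) (le_of_lt hu.2)
    · exact hil.mono_set inter_subset_left
  have h2 : ∫ u in sm, -(h u * P u) ∂lam ≤ ∫ u in sm, -(h u * P u) ∂μ := by
    apply integral_mono_measure rm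
    · filter_upwards [ae_restrict_mem mm] with u hu
      have h3 : P u < 0 := hu.2
      have := mul_nonneg (hh u hu.1) (neg_nonneg.mpr h3.le)
      simp only [Pi.zero_apply]
      linarith
    · exact (hiμ.mono_set inter_subset_left).neg
  rw [integral_neg, integral_neg] at h2
  rw [key μ hiμ, key lam hil]
  linarith

end Pool.Agent.MP_67227b_nt
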