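import Pool.Agent.MP_67227b_nt.Box35
import Pool.Agent.MP_67227b_nt.Descent

set_option autoImplicit false

open Filter MeasureTheory Topology Set
open scoped Real Nat

namespace Pool.Agent.MP_67227b_nt

/-- The mean number of points, minus one. -/
noncomputable def Lr (r : ℕ → ℝ) (N : ℕ) : ℝ :=
  (1 / (N : ℝ)) * ∑ k ∈ Finset.range N, 2 * r k - 1

/-- The formal second moment. -/
noncomputable def Qf (n : ℕ) (r : ℕ → ℝ) (N : ℕ) (T2 : ℕ → ℕ → ℝ) (s1 : ℕ → ℝ) (S : ℝ) : ℝ :=
  (1 / (N : ℝ) ^ 2) * ∑ k ∈ Finset.range N, ∑ l ∈ Finset.range N,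
    (T2 k l + (n + 1) * s1 (min k l) + n * s1 (max k l) + (n : ℝ) ^ 2 * S) -
  2 * Lr r N * ((1 / (N : ℝ)) * ∑ k ∈ Finset.range N, (s1 k + n * S)) + Lr r N ^ 2 * S

lemma Qw_eq_Qf {m : ℕ} (w : Fin (m + 1) → ℝ) (r : ℕ → ℝ) (N : ℕ) :
    Qw w r N = Qf m r N (Tkl w r) (sk w r) (sineMatrix w).det := rfl

/-- The configuration with the base point. -/
noncomputable def Wb {n : ℕ} (u : Fin n → ℝ) : Fin (n + 1) → ℝ := Fin.snoc u (0 : ℝ)

lemma det_Wb {n : ℕ} (u : Fin n → ℝ) : (sineMatrix (Wb u)).det = sineDet n u := rfl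

lemma sk_Wb {n : ℕ} (u : Fin n → ℝ) (r : ℕ → ℝ) (k : ℕ) :
    sk (Wb u) r k = ∫ v in Icc (-r k) (r k), sineDet (n + 1) (Fin.cons v u) := by
  unfold sk Ir
  congr 1
  ext v
  rw [Hk_self, sineDet_cons]
  rfl

lemma Tkl_Wb {n : ℕ} (u : Fin n → ℝ) (r : ℕ → ℝ) (k l : ℕ) :
    Tkl (Wb u) r k l = ∫ v' in Icc (-r (min k l)) (r (min k l)),
      ∫ v in Icc (-r (max k l)) (r (max k l)),
        sineDet (n + 2) (Fin.cons v (Fin.cons v' u : Fin (n + 1) → ℝ)) := by
  unfold Tkl Ir
  congr 1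
  ext v'
  congr 1
  ext v
  rw [sineDet_cons, Wb, Fin.cons_snoc_eq_snoc_cons]

/-- The big box at level `n + 1`. -/
noncomputable def J1 (n : ℕ) (a b : Fin n → ℝ) (r : ℕ → ℝ) (k : ℕ) : ℝ :=
  boxIntegral (n + 1) (Fin.cons (-r k) a) (Fin.cons (r k) b)

/-- The big box at level `n + 2`. -/
noncomputable def J2 (n : ℕ) (a b : Fin n → ℝ) (r : ℕ → ℝ) (k l : ℕ) : ℝ :=
  boxIntegral (n + 2)
    (Fin.cons (-r (max k l)) (Fin.cons (-r (min k l)) a : Fin (n + 1) → ℝ))
    (Fin.cons (r (max k l)) (Fin.cons (r (min k l)) b : Fin (n + 1) → ℝ))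

lemma J1_eq (n : ℕ) (a b : Fin n → ℝ) (r : ℕ → ℝ) (k : ℕ) :
    J1 n a b r k = ∫ u in Icc a b, sk (Wb u) r k := by
  rw [J1, boxIntegral, box_cons_swap n a b _ _ _ (continuous_sineDet (n + 1))]
  simp_rw [sk_Wb]

lemma J2_eq (n : ℕ) (a b : Fin n → ℝ) (r : ℕ → ℝ) (k l : ℕ) :
    J2 n a b r k l = ∫ u in Icc a b, Tkl (Wb u) r k l := by
  rw [J2, boxIntegral, box_cons2 n a b _ _ _ _ _ (continuous_sineDet (n + 2))]
  simp_rw [Tkl_Wb]

lemma continuous_sk (n : ℕ) (r : ℕ → ℝ) (k : ℕ) :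
    Continuous fun u : Fin n → ℝ => sk (Wb u) r k := by
  simp_rw [sk_Wb]
  exact continuous_param (fun p : (Fin n → ℝ) × ℝ => sineDet (n + 1) (Fin.cons p.2 p.1))
    (((continuous_sineDet (n + 1)).comp continuous_cons).comp
      (by fun_prop : Continuous fun p : (Fin n → ℝ) × ℝ => (p.2, p.1))) isCompact_Icc

lemma continuous_Tkl (n : ℕ) (r : ℕ → ℝ) (k l : ℕ) :
    Continuous fun u : Fin n → ℝ => Tkl (Wb u) r k l := by
  simp_rw [Tkl_Wb]
  have h1 : Continuous fun q : ((Fin n → ℝ) × ℝ) × ℝ =>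
      sineDet (n + 2) (Fin.cons q.2 (Fin.cons q.1.2 q.1.1 : Fin (n + 1) → ℝ)) := by
    have h3 : Continuous fun q : ((Fin n → ℝ) × ℝ) × ℝ =>
        (((q.2, q.1.1), q.1.2) : (ℝ × (Fin n → ℝ)) × ℝ) := by fun_prop
    exact (continuous_sineDet (n + 2)).comp (continuous_cons2.comp h3)
  have h2 := continuous_param (X := (Fin n → ℝ) × ℝ) _ h1
    (isCompact_Icc (a := -r (max k l)) (b := r (max k l)))
  exact continuous_param (X := Fin n → ℝ) _ h2
    (isCompact_Icc (a := -r (min k l)) (b := r (min k l)))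

/-- The integrated form of the second moment. -/
lemma integral_Qw (n : ℕ) (a b : Fin n → ℝ) (r : ℕ → ℝ) (N : ℕ) :
    ∫ u in Icc a b, Qw (Wb u) r N =
      Qf n r N (J2 n a b r) (J1 n a b r) (boxIntegral n a b) := by
  have hi0 : IntegrableOn (fun u => (sineMatrix (Wb u)).det) (Icc a b) :=
    (continuous_sineDet n).continuousOn.integrableOn_compact isCompact_Icc
  have hi1 : ∀ k, IntegrableOn (fun u => sk (Wb u) r k) (Icc a b) := fun k =>
    (continuous_sk n r k).continuousOn.integrableOn_compact isCompact_Icc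
  have hi2 : ∀ k l, IntegrableOn (fun u => Tkl (Wb u) r k l) (Icc a b) := fun k l =>
    (continuous_Tkl n r k l).continuousOn.integrableOn_compact isCompact_Icc
  have hA : ∀ k l, IntegrableOn (fun u => Tkl (Wb u) r k l + (n + 1) * sk (Wb u) r (min k l) +
      n * sk (Wb u) r (max k l) + (n : ℝ) ^ 2 * (sineMatrix (Wb u)).det) (Icc a b) := fun k l =>
    (((hi2 k l).add ((hi1 _).const_mul _)).add ((hi1 _).const_mul _)).add (hi0.const_mul _)
  have hA' : ∀ k l, ∫ u in Icc a b, (Tkl (Wb u) r k l + (n + 1) * sk (Wb u) r (min k l) +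
      n * sk (Wb u) r (max k l) + (n : ℝ) ^ 2 * (sineMatrix (Wb u)).det) =
      J2 n a b r k l + (n + 1) * J1 n a b r (min k l) + n * J1 n a b r (max k l) +
        (n : ℝ) ^ 2 * boxIntegral n a b := by
    intro k l
    rw [integral_add, integral_add, integral_add, integral_const_mul, integral_const_mul,
      integral_const_mul, J2_eq, J1_eq, J1_eq]
    · rfl
    · exact hi2 k l
    · exact (hi1 _).const_mul _
    · exact (hi2 k l).add ((hi1 _).const_mul _)
    · exact (hi1 _).const_mul _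
    · exact ((hi2 k l).add ((hi1 _).const_mul _)).add ((hi1 _).const_mul _)
    · exact hi0.const_mul _
  have hB : ∀ k, IntegrableOn (fun u => sk (Wb u) r k + n * (sineMatrix (Wb u)).det) (Icc a b) :=
    fun k => (hi1 k).add (hi0.const_mul _)
  have hB' : ∀ k, ∫ u in Icc a b, (sk (Wb u) r k + n * (sineMatrix (Wb u)).det) =
      J1 n a b r k + n * boxIntegral n a b := by
    intro k
    rw [integral_add (hi1 k) (hi0.const_mul _), integral_const_mul, J1_eq]
    rfl
  have hAA : IntegrableOn (fun u => ∑ k ∈ Finset.range N, ∑ l ∈ Finset.range N,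
      (Tkl (Wb u) r k l + (n + 1) * sk (Wb u) r (min k l) +
      n * sk (Wb u) r (max k l) + (n : ℝ) ^ 2 * (sineMatrix (Wb u)).det)) (Icc a b) :=
    integrable_finsetSum _ fun k _ => integrable_finsetSum _ fun l _ => hA k l
  have hBB : IntegrableOn (fun u => ∑ k ∈ Finset.range N,
      (sk (Wb u) r k + n * (sineMatrix (Wb u)).det)) (Icc a b) :=
    integrable_finsetSum _ fun k _ => hB k
  have h1 : ∫ u in Icc a b, Qw (Wb u) r N =
      (1 / (N : ℝ) ^ 2) * (∫ u in Icc a b, ∑ k ∈ Finset.range N, ∑ l ∈ Finset.range N,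
      (Tkl (Wb u) r k l + (n + 1) * sk (Wb u) r (min k l) +
      n * sk (Wb u) r (max k l) + (n : ℝ) ^ 2 * (sineMatrix (Wb u)).det)) -
      2 * Lr r N * ((1 / (N : ℝ)) * ∫ u in Icc a b, ∑ k ∈ Finset.range N,
        (sk (Wb u) r k + n * (sineMatrix (Wb u)).det)) +
      Lr r N ^ 2 * ∫ u in Icc a b, (sineMatrix (Wb u)).det := by
    simp_rw [Qw_eq_Qf]
    unfold Qf
    rw [integral_add, integral_sub, integral_const_mul, integral_const_mul, integral_const_mul,
      integral_const_mul]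
    · exact hAA.const_mul _
    · exact (hBB.const_mul _).const_mul _
    · exact (hAA.const_mul _).sub ((hBB.const_mul _).const_mul _)
    · exact hi0.const_mul _
  rw [h1, integral_finsetSum _ fun k _ => integrable_finsetSum _ fun l _ => hA k l,
    integral_finsetSum _ fun k _ => hB k]
  simp_rw [hB']
  have h2 : ∀ k, ∫ u in Icc a b, ∑ l ∈ Finset.range N,
      (Tkl (Wb u) r k l + (n + 1) * sk (Wb u) r (min k l) +
      n * sk (Wb u) r (max k l) + (n : ℝ) ^ 2 * (sineMatrix (Wb u)).det) =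
      ∑ l ∈ Finset.range N, (J2 n a b r k l + (n + 1) * J1 n a b r (min k l) +
        n * J1 n a b r (max k l) + (n : ℝ) ^ 2 * boxIntegral n a b) := by
    intro k
    rw [integral_finsetSum _ fun l _ => hA k l]
    apply Finset.sum_congr rfl
    intro l _
    exact hA' k l
  simp_rw [h2]
  rfl

lemma abs_Wb_le {n : ℕ} {a b u : Fin n → ℝ} (hu : u ∈ Icc a b) (i : Fin (n + 1)) :
    |Wb u i| ≤ boxRad a b := by
  refine Fin.lastCases ?_ (fun i => ?_) i
  · simp only [Wb, Fin.snoc_last, abs_zero]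
    exact boxRad_nonneg a b
  · simp only [Wb, Fin.snoc_castSucc]
    rw [abs_le]
    exact ⟨(neg_boxRad_le a b i).trans (hu.1 i), (hu.2 i).trans (le_boxRad a b i)⟩

lemma tl_Wb_le {n : ℕ} {a b u : Fin n → ℝ} (hu : u ∈ Icc a b) {R : ℝ} (hR : boxRad a b < R) :
    tl (Wb u) R ≤ (n ! * (n + 1)) * ((n + 1) * (1 / (2 * (R - boxRad a b)))) := by
  have h1 : tl (Wb u) R ≤ ∫ v in (Ir R)ᶜ, (n ! * (n + 1) : ℝ) * ∑ i, K (Wb u i - v) ^ 2 := by
    apply setIntegral_mono
    · exact (integrable_defect n _).integrableOn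
    · exact ((integrable_finsetSum _ fun i _ => integrable_K_sq' _).const_mul _).integrableOn
    · intro v
      have h2 := abs_det_cons_sub_le n (Wb u) v
      have h3 : defect n (Wb u) v ≤ |(sineMatrix (Fin.cons v (Wb u) : Fin (n + 2) → ℝ)).det -
          (sineMatrix (Wb u)).det| := by
        rw [abs_sub_comm]
        exact le_abs_self _
      refine h3.trans (h2.trans (le_of_eq ?_))
      congr 1
      apply Finset.sum_congr rfl
      intro i _
      rw [← K_neg, neg_sub]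
  refine h1.trans ?_
  rw [integral_const_mul, integral_finsetSum _ fun i _ => (integrable_K_sq' _).integrableOn]
  have h4 : ∀ i, ∫ v in (Ir R)ᶜ, K (Wb u i - v) ^ 2 ≤ 1 / (2 * (R - boxRad a b)) := by
    intro i
    refine (inner_le (Wb u i) R).trans ((kt_anti ?_).trans (kt_le (by linarith)))
    have := abs_Wb_le hu i
    linarith
  gcongr
  calc ∑ i : Fin (n + 1), ∫ v in (Ir R)ᶜ, K (Wb u i - v) ^ 2 ≤
      ∑ i : Fin (n + 1), 1 / (2 * (R - boxRad a b)) := Finset.sum_le_sum fun i _ => h4 i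
    _ = _ := by simp

/-- The second moment of the sine process is small for suitable scales. -/
lemma exists_good (n : ℕ) (a b : Fin n → ℝ) (ρ η : ℝ) (hη : 0 < η) :
    ∃ (r : ℕ → ℝ) (N : ℕ), 0 < N ∧ Monotone r ∧ ρ ≤ r 0 ∧ 1 ≤ r 0 ∧
      Qf n r N (J2 n a b r) (J1 n a b r) (boxIntegral n a b) ≤ η := by
  set V := boxVol a b with hV
  have hV0 : 0 ≤ V := boxVol_nonneg a b
  set C : ℝ := 3 * (n + 1) * ((n ! * (n + 1)) * (n + 1)) with hC
  have hC0 : 0 < C := by positivity
  set D : ℝ := 2 * (n + 1) ! with hD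
  have hD0 : 0 < D := by positivity
  set R₀ : ℝ := boxRad a b + C * (V + 1) / η with hR₀
  have hpos : 0 < C * (V + 1) / η := by positivity
  obtain ⟨r, N, hN, hr, hr0, hr1, hVr⟩ := exists_scales (max ρ R₀) (η / (2 * D * (V + 1)))
    (by positivity)
  refine ⟨r, N, hN, hr, (le_max_left _ _).trans hr0, hr1, ?_⟩
  have hR : R₀ ≤ r 0 := (le_max_right _ _).trans hr0
  have hRa : boxRad a b < r 0 := by linarith
  rw [← integral_Qw]
  have hpt : ∀ u ∈ Icc a b, Qw (Wb u) r N ≤ η / (V + 1) := by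
    intro u hu
    refine (Qw_le (Wb u) r (by linarith) hr hN).trans ?_
    have h1 := tl_Wb_le hu hRa
    have h2 : (sineMatrix (Wb u)).det ≤ (n + 1) ! := (le_abs_self _).trans (abs_sineDet_le n u)
    have h3 : 0 ≤ (sineMatrix (Wb u)).det := det_nonneg' _
    have hVr0 : 0 ≤ Vr r N := by
      unfold Vr
      exact mul_nonneg (by positivity)
        (Finset.sum_nonneg fun k _ => Finset.sum_nonneg fun l _ => Ck_nonneg _ _)
    have h4 : 2 * (sineMatrix (Wb u)).det * Vr r N ≤ D * (η / (2 * D * (V + 1))) := by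
      rw [hD]
      gcongr
    have h5 : D * (η / (2 * D * (V + 1))) = η / (V + 1) / 2 := by
      field_simp
    have h6 : 3 * ((n : ℝ) + 1) * tl (Wb u) (r 0) ≤ C * (1 / (2 * (r 0 - boxRad a b))) := by
      calc 3 * ((n : ℝ) + 1) * tl (Wb u) (r 0) ≤ 3 * ((n : ℝ) + 1) *
          ((n ! * (n + 1)) * ((n + 1) * (1 / (2 * (r 0 - boxRad a b))))) := by gcongr
        _ = _ := by rw [hC]; ring
    have h7 : C * (1 / (2 * (r 0 - boxRad a b))) ≤ η / (V + 1) / 2 := by
      have h8 : C * (V + 1) / η ≤ r 0 - boxRad a b := by linarith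
      have h9 : 0 < r 0 - boxRad a b := by linarith
      rw [div_le_iff₀ hη] at h8
      have h10 : C * (1 / (2 * (r 0 - boxRad a b))) = C / (r 0 - boxRad a b) / 2 := by
        field_simp
      have h11 : C / (r 0 - boxRad a b) ≤ η / (V + 1) := by
        rw [div_le_div_iff₀ h9 (by positivity)]
        linarith
      rw [h10]
      linarith
    linarith
  have hcont : IntegrableOn (fun u => Qw (Wb u) r N) (Icc a b) := by
    have hc : Continuous fun u : Fin n → ℝ => Qw (Wb u) r N := by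
      simp_rw [Qw_eq_Qf]
      unfold Qf
      have h0 : Continuous fun u : Fin n → ℝ => (sineMatrix (Wb u)).det := continuous_sineDet n
      have h1 := fun k => continuous_sk n r k
      have h2 := fun k l => continuous_Tkl n r k l
      fun_prop
    exact hc.continuousOn.integrableOn_compact isCompact_Icc
  calc ∫ u in Icc a b, Qw (Wb u) r N ≤ ∫ u in Icc a b, η / (V + 1) := by
        apply setIntegral_mono_on hcont _ measurableSet_Icc hpt
        exact continuous_const.continuousOn.integrableOn_compact isCompact_Icc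
    _ = V * (η / (V + 1)) := by
        rw [setIntegral_const, smul_eq_mul]
        rfl
    _ ≤ η := by
        rw [← mul_div_assoc, div_le_iff₀ (by positivity)]
        nlinarith

end Pool.Agent.MP_67227b_nt
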