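import Pool.Agent.MP_67227b_nt.Limit67

set_option autoImplicit false
open Filter MeasureTheory Topology Set
open scoped Real CompactlySupported Pointwise

namespace Pool.Agent.MP_67227b_nt

variable {m : ℕ}

/-- The trigonometric polynomials with frequencies in `S`. -/
noncomputable def trigSpan (S : Set (Fin m → ℝ)) : Submodule ℂ ((Fin m → ℝ) → ℂ) :=
  Submodule.span ℂ ((fun ξ => ee ξ) '' S)

lemma ee_mem_trigSpan {S : Set (Fin m → ℝ)} {ξ : Fin m → ℝ} (h : ξ ∈ S) : ee ξ ∈ trigSpan S :=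
  Submodule.subset_span (mem_image_of_mem _ h)

lemma trigSpan_mono {S S' : Set (Fin m → ℝ)} (h : S ⊆ S') : trigSpan S ≤ trigSpan S' :=
  Submodule.span_mono (image_mono h)

lemma trigSpan_mul {S S' : Set (Fin m → ℝ)} {F G : (Fin m → ℝ) → ℂ} (hF : F ∈ trigSpan S)
    (hG : G ∈ trigSpan S') : F * G ∈ trigSpan (S + S') := by
  have h := Submodule.mul_mem_mul hF hG
  rw [trigSpan, trigSpan, Submodule.span_mul_span] at h
  refine Submodule.span_mono ?_ h
  rintro _ ⟨_, ⟨ξ, hξ, rfl⟩, _, ⟨ξ', hξ', rfl⟩, rfl⟩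
  refine ⟨ξ + ξ', add_mem_add hξ hξ', ?_⟩
  ext u
  exact ee_add_left ξ ξ' u

lemma trigSpan_cont {S : Set (Fin m → ℝ)} {F : (Fin m → ℝ) → ℂ} (hF : F ∈ trigSpan S) :
    Continuous F ∧ ∃ C : ℝ, 0 ≤ C ∧ ∀ u, ‖F u‖ ≤ C := by
  refine Submodule.span_induction (p := fun F _ => Continuous F ∧ ∃ C : ℝ, 0 ≤ C ∧
    ∀ u, ‖F u‖ ≤ C) ?_ ?_ ?_ ?_ hF
  · rintro _ ⟨ξ, _, rfl⟩
    exact ⟨continuous_ee_right ξ, 1, zero_le_one, fun u => (norm_ee ξ u).le⟩
  · exact ⟨continuous_const, 0, le_rfl, fun u => by simp⟩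
  · rintro F G _ _ ⟨h1, C, hC, h2⟩ ⟨h3, D, hD, h4⟩
    exact ⟨h1.add h3, C + D, add_nonneg hC hD, fun u =>
      (norm_add_le _ _).trans (add_le_add (h2 u) (h4 u))⟩
  · rintro c F _ ⟨h1, C, hC, h2⟩
    refine ⟨h1.const_smul c, ‖c‖ * C, by positivity, fun u => ?_⟩
    rw [Pi.smul_apply, norm_smul]
    gcongr
    exact h2 u

/-- The complex form of the domination lemma. -/
lemma tendsto_dominated_complex {ν : ℝ → Measure (Fin m → ℝ)} [∀ T, IsFiniteMeasure (ν T)]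
    {w : (Fin m → ℝ) → ℝ} {Ω : Set (Fin m → ℝ)} {F : Filter ℝ} [NeBot F] (h : BandLim ν w Ω F)
    {μ : Measure (Fin m → ℝ)} [IsLocallyFiniteMeasure μ] (hμ : VagueLim ν F μ)
    {ρ : ℝ} (hρ : 0 < ρ) (hΩ : Metric.closedBall 0 (2 * ρ) ⊆ Ω)
    {g : (Fin m → ℝ) → ℂ} (hg : Continuous g) {C : ℝ} (hC : 0 ≤ C)
    (hgC : ∀ u, ‖g u‖ ≤ C * kap m ρ hρ u ^ 2) :
    Tendsto (fun T => ∫ u, g u ∂(ν T)) F (𝓝 (∫ u, g u ∂μ)) := by
  have hki := (kap_limit h hμ hρ hΩ).1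
  have hint : ∀ (κ : Measure (Fin m → ℝ)), Integrable (kap m ρ hρ) κ → Integrable g κ := by
    intro κ hκ
    apply (hκ.const_mul C).mono' hg.aestronglyMeasurable
    filter_upwards with u
    refine (hgC u).trans ?_
    have h0 := kap_nonneg (m := m) ρ hρ u
    have h1 := kap_le_one (m := m) ρ hρ u
    have : kap m ρ hρ u ^ 2 ≤ kap m ρ hρ u := by nlinarith
    gcongr
  have h1 := tendsto_dominated h hμ hρ hΩ (g := fun u => (g u).re)
    (Complex.continuous_re.comp hg) hC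
    (fun u => (Complex.abs_re_le_norm _).trans (hgC u))
  have h2 := tendsto_dominated h hμ hρ hΩ (g := fun u => (g u).im)
    (Complex.continuous_im.comp hg) hC
    (fun u => (Complex.abs_im_le_norm _).trans (hgC u))
  have h3 := ((Complex.continuous_ofReal.tendsto _).comp h1).add
    (((Complex.continuous_ofReal.tendsto _).comp h2).mul_const Complex.I)
  have e : ∀ (κ : Measure (Fin m → ℝ)), Integrable (kap m ρ hρ) κ →
      ((∫ u, (g u).re ∂κ : ℝ) : ℂ) + ((∫ u, (g u).im ∂κ : ℝ) : ℂ) * Complex.I =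
        ∫ u, g u ∂κ := by
    intro κ hκ
    have := integral_re_add_im (hint κ hκ)
    simpa using this
  rw [e μ hki] at h3
  refine h3.congr (fun T => ?_)
  exact e (ν T) (integrable_kap_finite ρ hρ)

/-- The identity for trigonometric polynomials. -/
lemma trig_identity {ν : ℝ → Measure (Fin m → ℝ)} [∀ T, IsFiniteMeasure (ν T)]
    {w : (Fin m → ℝ) → ℝ} (hwc : Continuous w) {Cw : ℝ} (hw : ∀ u, |w u| ≤ Cw)
    {Ω : Set (Fin m → ℝ)} {F : Filter ℝ} [NeBot F] (h : BandLim ν w Ω F)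
    {μ : Measure (Fin m → ℝ)} [IsLocallyFiniteMeasure μ] (hμ : VagueLim ν F μ)
    {ρ : ℝ} (hρ : 0 < ρ) (hΩ : Metric.closedBall 0 (2 * ρ) ⊆ Ω)
    {S : Set (Fin m → ℝ)} (hS : ∀ ξ ∈ S, Metric.closedBall ξ (4 * ρ) ⊆ Ω)
    {G : (Fin m → ℝ) → ℂ} (hG : G ∈ trigSpan S) :
    ∫ u, G u * ((kap m ρ hρ u ^ 2 : ℝ) : ℂ) ∂μ =
      ∫ u, G u * ((kap m ρ hρ u ^ 2 : ℝ) : ℂ) * (w u : ℂ) := by
  have hki := (kap_limit h hμ hρ hΩ).1
  have hkc := continuous_kap (m := m) ρ hρ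
  have hk2 : ∀ (κ : Measure (Fin m → ℝ)), Integrable (kap m ρ hρ) κ →
      Integrable (fun u => kap m ρ hρ u ^ 2) κ := by
    intro κ hκ
    apply hκ.mono' (hkc.pow 2).aestronglyMeasurable
    filter_upwards with u
    have h0 := kap_nonneg (m := m) ρ hρ u
    have h1 := kap_le_one (m := m) ρ hρ u
    rw [Pi.pow_apply, Real.norm_of_nonneg (sq_nonneg _)]
    nlinarith
  have hint : ∀ (κ : Measure (Fin m → ℝ)), Integrable (kap m ρ hρ) κ → ∀ G ∈ trigSpan S,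
      Integrable (fun u => G u * ((kap m ρ hρ u ^ 2 : ℝ) : ℂ)) κ := by
    intro κ hκ G hG
    obtain ⟨h1, C, hC, h2⟩ := trigSpan_cont hG
    exact (hk2 κ hκ).ofReal.bdd_mul (c := C) h1.aestronglyMeasurable (Eventually.of_forall h2)
  have hintw : ∀ G ∈ trigSpan S,
      Integrable (fun u => G u * ((kap m ρ hρ u ^ 2 : ℝ) : ℂ) * (w u : ℂ)) := by
    intro G hG
    refine (hint volume (integrable_kap ρ hρ) G hG).mul_bdd (c := Cw)
      (Complex.continuous_ofReal.comp hwc).aestronglyMeasurable (Eventually.of_forall fun u => ?_)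
    rw [Complex.norm_real]
    exact hw u
  refine Submodule.span_induction (p := fun G _ => ∫ u, G u * ((kap m ρ hρ u ^ 2 : ℝ) : ℂ) ∂μ =
      ∫ u, G u * ((kap m ρ hρ u ^ 2 : ℝ) : ℂ) * (w u : ℂ)) ?_ ?_ ?_ ?_ hG
  · rintro _ ⟨ξ, hξ, rfl⟩
    obtain ⟨φ, hφ, h2⟩ := exists_band_ee_kap_sq (m := m) ρ hρ ξ
    have h3 := h φ (hφ.mono (hS ξ hξ))
    have h4 := tendsto_dominated_complex h hμ hρ hΩ (g := fun u => ee ξ u *
      ((kap m ρ hρ u ^ 2 : ℝ) : ℂ))
      ((continuous_ee_right ξ).mul (Complex.continuous_ofReal.comp (hkc.pow 2)))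
      (C := 1) zero_le_one (fun u => by
        rw [norm_mul, norm_ee, Complex.norm_real, Real.norm_of_nonneg (sq_nonneg _)])
    have h5 : (fun u => synth φ u) = fun u => ee ξ u * ((kap m ρ hρ u ^ 2 : ℝ) : ℂ) := by
      ext u
      exact h2 u
    simp only [h2] at h3
    exact tendsto_nhds_unique h4 h3
  · simp
  · intro G H hG hH h1 h2
    simp only [Pi.add_apply, add_mul]
    rw [integral_add (hint μ hki G hG) (hint μ hki H hH),
      integral_add (hintw G hG) (hintw H hH), h1, h2]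
  · intro c G _ h1
    simp only [Pi.smul_apply, smul_eq_mul, mul_assoc] at h1 ⊢
    rw [integral_const_mul, integral_const_mul, h1]

end Pool.Agent.MP_67227b_nt
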