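import Pool.Agent.MP_67227b_nt.Sineside35

set_option autoImplicit false

open Filter MeasureTheory Topology Set
open scoped Real Nat

namespace Pool.Agent.MP_67227b_nt

section Linear

variable {n : ℕ} {r : ℕ → ℝ} {N : ℕ}

lemma Qf_add (T2 T2' : ℕ → ℕ → ℝ) (s1 s1' : ℕ → ℝ) (S S' : ℝ) :
    Qf n r N (fun k l => T2 k l + T2' k l) (fun k => s1 k + s1' k) (S + S') =
      Qf n r N T2 s1 S + Qf n r N T2' s1' S' := by
  unfold Qf
  have e1 : ∀ k l, (T2 k l + T2' k l + (n + 1) * (s1 (min k l) + s1' (min k l)) +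
      n * (s1 (max k l) + s1' (max k l)) + (n : ℝ) ^ 2 * (S + S')) =
      (T2 k l + (n + 1) * s1 (min k l) + n * s1 (max k l) + (n : ℝ) ^ 2 * S) +
      (T2' k l + (n + 1) * s1' (min k l) + n * s1' (max k l) + (n : ℝ) ^ 2 * S') := by
    intro k l
    ring
  have e2 : ∀ k, (s1 k + s1' k + n * (S + S')) = (s1 k + n * S) + (s1' k + n * S') := by
    intro k
    ring
  simp_rw [e1, e2, Finset.sum_add_distrib]
  ring

lemma Qf_mul (c : ℝ) (T2 : ℕ → ℕ → ℝ) (s1 : ℕ → ℝ) (S : ℝ) :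
    Qf n r N (fun k l => c * T2 k l) (fun k => c * s1 k) (c * S) = c * Qf n r N T2 s1 S := by
  unfold Qf
  have e1 : ∀ k l, (c * T2 k l + (n + 1) * (c * s1 (min k l)) +
      n * (c * s1 (max k l)) + (n : ℝ) ^ 2 * (c * S)) =
      c * (T2 k l + (n + 1) * s1 (min k l) + n * s1 (max k l) + (n : ℝ) ^ 2 * S) := by
    intro k l
    ring
  have e2 : ∀ k, (c * s1 k + n * (c * S)) = c * (s1 k + n * S) := by
    intro k
    ring
  simp_rw [e1, e2, ← Finset.mul_sum]
  ring

lemma Qf_zero : Qf n r N (fun _ _ => 0) (fun _ => 0) 0 = 0 := by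
  unfold Qf
  simp

lemma Qf_sum {J : Type*} (P : Finset J) (T2 : J → ℕ → ℕ → ℝ) (s1 : J → ℕ → ℝ) (S : J → ℝ) :
    Qf n r N (fun k l => ∑ j ∈ P, T2 j k l) (fun k => ∑ j ∈ P, s1 j k) (∑ j ∈ P, S j) =
      ∑ j ∈ P, Qf n r N (T2 j) (s1 j) (S j) := by
  classical
  induction P using Finset.induction_on with
  | empty => simp [Qf_zero]
  | insert j P hj ih =>
    simp only [Finset.sum_insert hj]
    rw [Qf_add, ih]

lemma Qf_split (T2 : ℕ → ℕ → ℝ) (s1 : ℕ → ℝ) (S : ℝ) :
    Qf n r N T2 s1 S = (1 / (N : ℝ) ^ 2) * ∑ k ∈ Finset.range N, ∑ l ∈ Finset.range N, T2 k l +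
      Qf n r N (fun _ _ => 0) s1 S := by
  unfold Qf
  have e1 : ∀ k l, (T2 k l + (n + 1) * s1 (min k l) + n * s1 (max k l) + (n : ℝ) ^ 2 * S) =
      T2 k l + (0 + (n + 1) * s1 (min k l) + n * s1 (max k l) + (n : ℝ) ^ 2 * S) := by
    intro k l
    ring
  simp_rw [e1, Finset.sum_add_distrib]
  ring

lemma continuous_Qf0 : Continuous fun p : (ℕ → ℝ) × ℝ => Qf n r N (fun _ _ => 0) p.1 p.2 := by
  unfold Qf
  fun_prop

end Linear

variable {J : Type*} {γ : J → ℝ}

/-- Local counts at level `n + 1` for the intervals. -/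
noncomputable def A1 (h : GoodFamily γ) (n : ℕ) (a b : Fin n → ℝ) (r : ℕ → ℝ) (k : ℕ) (T : ℝ)
    (j : J) : ℝ :=
  (R (PT h T) (xT γ T) (n + 1) j (Fin.cons (-r k) a) (Fin.cons (r k) b) : ℝ)

/-- Local counts at level `n + 2` for the intervals. -/
noncomputable def A2 (h : GoodFamily γ) (n : ℕ) (a b : Fin n → ℝ) (r : ℕ → ℝ) (k l : ℕ) (T : ℝ)
    (j : J) : ℝ :=
  (R (PT h T) (xT γ T) (n + 2) j
    (Fin.cons (-r (max k l)) (Fin.cons (-r (min k l)) a : Fin (n + 1) → ℝ))
    (Fin.cons (r (max k l)) (Fin.cons (r (min k l)) b : Fin (n + 1) → ℝ)) : ℝ)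

/-- Local counts at level `n`. -/
noncomputable def A0 (h : GoodFamily γ) (n : ℕ) (a b : Fin n → ℝ) (T : ℝ) (j : J) : ℝ :=
  (R (PT h T) (xT γ T) n j a b : ℝ)

/-- The weighted local second moment is a square. -/
lemma Qf_eq_sq (h : GoodFamily γ) (n : ℕ) (a b : Fin n → ℝ) (r : ℕ → ℝ) (hr : Monotone r)
    (hr0 : boxRad a b ≤ r 0) {N : ℕ} (hN : 0 < N) (T : ℝ) (j : J) :
    Qf n r N (fun k l => A2 h n a b r k l T j) (fun k => A1 h n a b r k T j) (A0 h n a b T j) =
      A0 h n a b T j *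
        ((1 / (N : ℝ)) * ∑ k ∈ Finset.range N, YT h (r k) T j - Lr r N) ^ 2 := by
  have hN' : (0 : ℝ) < N := by exact_mod_cast hN
  have hrk : ∀ k, boxRad a b ≤ r k := fun k => hr0.trans (hr (Nat.zero_le k))
  have hb0 := boxRad_nonneg a b
  have h1 : ∀ k, A1 h n a b r k T j + n * A0 h n a b T j = A0 h n a b T j * YT h (r k) T j := by
    intro k
    have := R_cons_eq (PT h T) (xT γ T) n j a b (-r k) (r k)
      (fun l => by have := neg_boxRad_le a b l; have := hrk k; linarith)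
      (fun l => (le_boxRad a b l).trans (hrk k))
    rw [A1, A0, YT]
    have h2 : ((R (PT h T) (xT γ T) (n + 1) j (Fin.cons (-r k) a) (Fin.cons (r k) b) +
        R (PT h T) (xT γ T) n j a b * n : ℕ) : ℝ) =
        ((R (PT h T) (xT γ T) n j a b * Z (PT h T) (xT γ T) j (-r k) (r k) : ℕ) : ℝ) := by
      exact_mod_cast this
    push_cast at h2
    linarith
  have h2 : ∀ k l, A2 h n a b r k l T j + (n + 1) * A1 h n a b r (min k l) T j =
      A1 h n a b r (min k l) T j * YT h (r (max k l)) T j := by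
    intro k l
    have hkl : r (min k l) ≤ r (max k l) := hr (min_le_max)
    have := R_cons_eq (PT h T) (xT γ T) (n + 1) j (Fin.cons (-r (min k l)) a)
      (Fin.cons (r (min k l)) b) (-r (max k l)) (r (max k l))
      (fun i => by
        refine Fin.cases ?_ (fun i => ?_) i
        · simpa using hkl
        · have := neg_boxRad_le a b i
          have := hrk (max k l)
          simp only [Fin.cons_succ]
          linarith)
      (fun i => by
        refine Fin.cases ?_ (fun i => ?_) i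
        · simpa using hkl
        · simp only [Fin.cons_succ]
          exact (le_boxRad a b i).trans (hrk (max k l)))
    rw [A1, A2, YT]
    have h3 : ((R (PT h T) (xT γ T) (n + 2) j
        (Fin.cons (-r (max k l)) (Fin.cons (-r (min k l)) a : Fin (n + 1) → ℝ))
        (Fin.cons (r (max k l)) (Fin.cons (r (min k l)) b : Fin (n + 1) → ℝ)) +
        R (PT h T) (xT γ T) (n + 1) j (Fin.cons (-r (min k l)) a)
          (Fin.cons (r (min k l)) b) * (n + 1) : ℕ) : ℝ) =
        ((R (PT h T) (xT γ T) (n + 1) j (Fin.cons (-r (min k l)) a)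
          (Fin.cons (r (min k l)) b) *
          Z (PT h T) (xT γ T) j (-r (max k l)) (r (max k l)) : ℕ) : ℝ) := by
      exact_mod_cast this
    push_cast at h3
    linarith
  set S := A0 h n a b T j with hS
  set Y : ℕ → ℝ := fun k => YT h (r k) T j with hY
  have h3 : ∀ k l, A2 h n a b r k l T j + (n + 1) * A1 h n a b r (min k l) T j +
      n * A1 h n a b r (max k l) T j + (n : ℝ) ^ 2 * S = S * (Y k * Y l) := by
    intro k l
    have e1 := h1 (min k l)
    have e2 := h1 (max k l)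
    have e3 := h2 k l
    have e4 := min_max_mul Y k l
    rw [← e4]
    simp only [hY] at e1 e2 e3 ⊢
    linear_combination e3 + YT h (r (max k l)) T j * e1 + n * e2
  have h4 : ∀ k, A1 h n a b r k T j + n * S = S * Y k := h1
  unfold Qf
  simp_rw [h3, h4, ← Finset.mul_sum, ← Finset.sum_mul]
  field_simp
  ring

lemma Qf_Av (h : GoodFamily γ) (n : ℕ) (a b : Fin n → ℝ) (r : ℕ → ℝ) (N : ℕ) (T : ℝ) :
    Qf n r N (fun k l => Av h (A2 h n a b r k l) T) (fun k => Av h (A1 h n a b r k) T)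
      (Av h (A0 h n a b) T) =
    Av h (fun T j => Qf n r N (fun k l => A2 h n a b r k l T j) (fun k => A1 h n a b r k T j)
      (A0 h n a b T j)) T := by
  unfold Av
  rw [← Qf_sum]
  simp_rw [div_eq_inv_mul]
  rw [Qf_mul]

lemma Qf_Av_nonneg (h : GoodFamily γ) (n : ℕ) (a b : Fin n → ℝ) (r : ℕ → ℝ) (hr : Monotone r)
    (hr0 : boxRad a b ≤ r 0) {N : ℕ} (hN : 0 < N) {T : ℝ} (hT : 1 < T) :
    0 ≤ Qf n r N (fun k l => Av h (A2 h n a b r k l) T) (fun k => Av h (A1 h n a b r k) T)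
      (Av h (A0 h n a b) T) := by
  rw [Qf_Av]
  apply Av_nonneg h hT
  intro j _
  rw [Qf_eq_sq h n a b r hr hr0 hN]
  have : 0 ≤ A0 h n a b T j := Nat.cast_nonneg _
  positivity

lemma tendsto_Av_R (h : GoodFamily γ) {m : ℕ} (hC : CorrelationConj γ m) {a b : Fin m → ℝ}
    (hab : a ≤ b) : Tendsto (Av h (fun T j => (R (PT h T) (xT γ T) m j a b : ℝ))) atTop
      (𝓝 (boxIntegral m a b)) := by
  refine (hC a b hab).congr (fun T => ?_)
  rw [tupleCount_div h]

/-- Lower bound for the averaged big boxes. -/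
lemma LB_big (h : GoodFamily γ) {n : ℕ} (hC1 : CorrelationConj γ (n + 1))
    (hC0 : CorrelationConj γ n) {a b : Fin n → ℝ} (hab : a ≤ b) (r : ℕ → ℝ) (hr : Monotone r)
    (hr0 : boxRad a b ≤ r 0) {N : ℕ} (hN : 0 < N) :
    LB (fun T => (1 / (N : ℝ) ^ 2) * ∑ k ∈ Finset.range N, ∑ l ∈ Finset.range N,
      Av h (A2 h n a b r k l) T)
      ((1 / (N : ℝ) ^ 2) * ∑ k ∈ Finset.range N, ∑ l ∈ Finset.range N, J2 n a b r k l -
        Qf n r N (J2 n a b r) (J1 n a b r) (boxIntegral n a b)) := by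
  have hb0 := boxRad_nonneg a b
  have hrk : ∀ k, 0 ≤ r k := fun k => hb0.trans (hr0.trans (hr (Nat.zero_le k)))
  have ht : Tendsto (fun T => Qf n r N (fun _ _ => 0) (fun k => Av h (A1 h n a b r k) T)
      (Av h (A0 h n a b) T)) atTop
      (𝓝 (Qf n r N (fun _ _ => 0) (J1 n a b r) (boxIntegral n a b))) := by
    have h1 : Tendsto (fun T => ((fun k => Av h (A1 h n a b r k) T, Av h (A0 h n a b) T) :
        (ℕ → ℝ) × ℝ)) atTop (𝓝 (J1 n a b r, boxIntegral n a b)) := by
      apply Tendsto.prodMk_nhds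
      · rw [tendsto_pi_nhds]
        intro k
        exact tendsto_Av_R h hC1 (cons_le_cons' hab (by have := hrk k; linarith))
      · exact tendsto_Av_R h hC0 hab
    have h2 := (continuous_Qf0 (n := n) (r := r) (N := N)).tendsto
      ((J1 n a b r, boxIntegral n a b) : (ℕ → ℝ) × ℝ)
    have h3 := h2.comp h1
    simp only [Function.comp_def] at h3
    exact h3
  refine (LB_of_tendsto ht.neg).mono ?_ ?_
  · filter_upwards [eventually_gt_atTop (1 : ℝ)] with T hT
    have h2 := Qf_Av_nonneg h n a b r hr hr0 hN hT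
    rw [Qf_split] at h2
    linarith
  · rw [Qf_split (J2 n a b r)]
    linarith

end Pool.Agent.MP_67227b_nt
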