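import Pool.Agent.MP_67227b_nt.Tensor45
import Pool.Agent.MP_67227b_nt.Zeta

set_option autoImplicit false

open Pool.Agent.MP_67227b_nt

/-!
Upper bounds with a subexponential loss suffice. If for every `c > 1` there are arbitrarily large
`m` such that the `(m+1)`-level correlation counts of the zeta zeros are asymptotically at most
`c ^ m` times the conjectured value, for all boxes, then all the correlation conjectures hold, at
every level and with equality. The Riemann Hypothesis is not used.

Ingredients: a mean square law of large numbers for the number of zeros in long windows, which
follows from the hypothesis and `N(T) ~ (T / 2 pi) log T`; descent of bounds with a loss to lower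
levels; Fischer's inequality for the determinants of the sine kernel; a tensor power argument,
which compares the `(l+1)`-level count with the counts at level `k(l+1)+1` of `k` separated copies
of it and replaces the loss `C` by its `k`-th root; and the theorem that upper bounds without
loss imply the full conjectures.
-/

theorem Pool.Agent.MP_67227b_nt.subexp_loss_zeta :
    (∀ c : ℝ, 1 < c → ∀ M : ℕ, ∃ m : ℕ, M ≤ m ∧ CorrelationUpperLoss zetaOrdinate (c ^ m) m) ↔
      ∀ m : ℕ, CorrelationConj zetaOrdinate m :=
  subexp_iff goodFamily_zeta
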