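import Pool.Agent.MP_67227b_nt.Groups45
import Pool.Agent.MP_67227b_nt.Loss45

set_option autoImplicit false

open Filter MeasureTheory Topology Set
open scoped Real Nat

namespace Pool.Agent.MP_67227b_nt

variable {J : Type*} {γ : J → ℝ}

lemma loss_of_UB (h : GoodFamily γ) {C : ℝ} {m : ℕ}
    (hU : ∀ a b : Fin m → ℝ, a ≤ b →
      UB (Av h (fun T j => (R (PT h T) (xT γ T) m j a b : ℝ))) (C * boxIntegral m a b)) :
    CorrelationUpperLoss γ C m := by
  intro a b hab ε hε
  filter_upwards [hU a b hab ε hε] with T hT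
  rwa [tupleCount_div h]

/-- Upper bounds with a loss descend. -/
theorem descent_loss (h : GoodFamily γ) (hS : SubexpUpper γ) {C : ℝ} (hC : 0 ≤ C) {m : ℕ}
    (hU : CorrelationUpperLoss γ C (m + 1)) : CorrelationUpperLoss γ C m := by
  apply loss_of_UB h
  intro a b hab
  apply UB_of_forall
  intro ε hε
  obtain ⟨CY, hCY, hY⟩ := UB_Zst_pow h hS m (2 * boxRad a b)
  have hr := boxRad_nonneg a b
  have hY' := hY (-boxRad a b) (boxRad a b) (by linarith) (by linarith)
  have hRC : UB (Av h (fun T j => (R (PT h T) (xT γ T) m j a b : ℝ))) CY := by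
    refine hY'.mono ?_ le_rfl
    filter_upwards [eventually_gt_atTop (1 : ℝ)] with T hT
    apply Av_mono h hT
    intro j _
    have h1 : (R (PT h T) (xT γ T) m j a b : ℝ) ≤ YT h (boxRad a b) T j ^ m :=
      R_le_YT h a b le_rfl T j
    have h2 : YT h (boxRad a b) T j = Zst h (-boxRad a b) (boxRad a b) T j := rfl
    have h3 := YT_nonneg h (boxRad a b) T j
    refine h1.trans ?_
    rw [h2] at h3 ⊢
    gcongr
    linarith
  obtain ⟨V1, hV1, hk⟩ := key_le h hS a b (ε / 3) (by linarith)
  obtain ⟨V2, hV2, hi⟩ := integral_key m a b (ε / (3 * (C + 1))) (by positivity)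
  set V := max (max V1 V2) (3 * (m * CY) / ε) with hV
  have hVV1 : V1 ≤ V := (le_max_left V1 V2).trans (le_max_left _ _)
  have hVV2 : V2 ≤ V := (le_max_right V1 V2).trans (le_max_left _ _)
  have hVV3 : 3 * (m * CY) / ε ≤ V := le_max_right _ _
  have hV0 : 0 < V := by linarith
  have h1 := hk V hVV1
  have h2 := (Av_R_UB_loss h hU (cons_le_cons' hab hV0.le)).const_mul (a := 1 / V)
    (by positivity)
  have h3 := hRC.const_mul (a := m / V) (by positivity)
  have h4 := abs_le.1 (hi V hVV2)
  refine ((h1.add h2).add h3).mono ?_ ?_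
  · filter_upwards [eventually_gt_atTop (1 : ℝ)] with T hT
    have h5 : Av h (fun T j => (R (PT h T) (xT γ T) m j a b : ℝ) * ZT h V T j) T ≤
        Av h (fun T j => (R (PT h T) (xT γ T) (m + 1) j
          (Fin.cons 0 a : Fin (m + 1) → ℝ) (Fin.cons V b : Fin (m + 1) → ℝ) : ℝ)) T +
        m * Av h (fun T j => (R (PT h T) (xT γ T) m j a b : ℝ)) T := by
      rw [← Av_const_mul, ← Av_add]
      apply Av_mono h hT
      intro j _
      have := le_R_cons (PT h T) (xT γ T) m j a b 0 V
      rw [ZT]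
      have h6 : ((R (PT h T) (xT γ T) m j a b * Z (PT h T) (xT γ T) j 0 V : ℕ) : ℝ) ≤
        ((R (PT h T) (xT γ T) (m + 1) j (Fin.cons 0 a : Fin (m + 1) → ℝ)
          (Fin.cons V b : Fin (m + 1) → ℝ) + R (PT h T) (xT γ T) m j a b * m : ℕ) : ℝ) := by
        exact_mod_cast this
      push_cast at h6
      linarith
    have h6 := mul_le_mul_of_nonneg_left h5 (show 0 ≤ 1 / V by positivity)
    have e : (m : ℝ) / V * Av h (fun T j => (R (PT h T) (xT γ T) m j a b : ℝ)) T =
        1 / V * (m * Av h (fun T j => (R (PT h T) (xT γ T) m j a b : ℝ)) T) := by ring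
    rw [e]
    rw [mul_add] at h6
    linarith
  · have e1 : (m : ℝ) / V * CY ≤ ε / 3 := by
      rw [div_le_iff₀ hε] at hVV3
      rw [div_mul_eq_mul_div, div_le_div_iff₀ hV0 (by norm_num)]
      linarith
    have e2 : 1 / V * (C * boxIntegral (m + 1) (Fin.cons 0 a : Fin (m + 1) → ℝ)
        (Fin.cons V b : Fin (m + 1) → ℝ)) ≤ C * boxIntegral m a b + ε / 3 := by
      have e3 : 1 / V * (C * boxIntegral (m + 1) (Fin.cons 0 a : Fin (m + 1) → ℝ)
        (Fin.cons V b : Fin (m + 1) → ℝ)) = C * (1 / V * boxIntegral (m + 1)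
        (Fin.cons 0 a : Fin (m + 1) → ℝ) (Fin.cons V b : Fin (m + 1) → ℝ)) := by ring
      rw [e3]
      have e4 : C * (1 / V * boxIntegral (m + 1)
        (Fin.cons 0 a : Fin (m + 1) → ℝ) (Fin.cons V b : Fin (m + 1) → ℝ)) ≤
        C * (boxIntegral m a b + ε / (3 * (C + 1))) :=
        mul_le_mul_of_nonneg_left (by linarith [h4.1]) hC
      have e5 : C * (ε / (3 * (C + 1))) ≤ ε / 3 := by
        rw [mul_div_assoc', div_le_div_iff₀ (by positivity) (by norm_num)]
        nlinarith
      rw [mul_add] at e4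
      linarith
    linarith

lemma descent_loss_le (h : GoodFamily γ) (hS : SubexpUpper γ) {C : ℝ} (hC : 0 ≤ C) {m K : ℕ}
    (hmK : m ≤ K) (hU : CorrelationUpperLoss γ C K) : CorrelationUpperLoss γ C m := by
  induction K, hmK using Nat.le_induction with
  | base => exact hU
  | succ K hK ih => exact ih (descent_loss h hS hC hU)

/-- The normalised statistic. -/
noncomputable def ST (h : GoodFamily γ) (l : ℕ) (a b : Fin l → ℝ) (s t : ℝ) (T : ℝ) (j : J) : ℝ :=
  (SS (PT h T) (xT γ T) l j a b s t : ℝ)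

lemma ST_nonneg (h : GoodFamily γ) (l : ℕ) (a b : Fin l → ℝ) (s t : ℝ) (T : ℝ) (j : J) :
    0 ≤ ST h l a b s t T j := Nat.cast_nonneg _

lemma Av_finset_sum (h : GoodFamily γ) {ι : Type*} (s : Finset ι) (g : ι → ℝ → J → ℝ) (T : ℝ) :
    Av h (fun T j => ∑ i ∈ s, g i T j) T = ∑ i ∈ s, Av h (g i) T := by
  simp only [Av]
  rw [Finset.sum_comm, Finset.sum_div]

/-- The moment of a sum over a long window. -/
lemma tensor_moment (h : GoodFamily γ) (hS : SubexpUpper γ) {C : ℝ} (hC : 0 ≤ C) {k l : ℕ}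
    (hU : CorrelationUpperLoss γ C ((k + 1) * (l + 1))) (a b : Fin l → ℝ) (hab : a ≤ b)
    {w : ℝ} (hw : 0 < w) :
    ∀ η : ℝ, 0 < η → ∃ n₀ : ℕ, 0 < n₀ ∧ ∀ n : ℕ, n₀ ≤ n →
      UB (Av h (fun T j => (ST h l a b (-(n * w)) 0 T j / (n * w)) ^ (k + 1)))
        (C * boxIntegral l (fun i => a i - w) (fun i => b i + w) ^ (k + 1) + η) := by
  classical
  intro η hη
  set ρ := boxRad a b with hρ
  have hρ0 : 0 ≤ ρ := boxRad_nonneg a b
  have haρ : ∀ t, -ρ ≤ a t := neg_boxRad_le a b
  have hbρ : ∀ t, b t ≤ ρ := le_boxRad a b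
  set I := boxIntegral l (fun i => a i - w) (fun i => b i + w) with hI
  have hI0 : 0 ≤ I := boxIntegral_nonneg _ _
  obtain ⟨CZ, hCZ, hZ⟩ := UB_Zst_pow h hS ((l + 1) * (k + 1)) (w + 2 * ρ)
  obtain ⟨r', hr'⟩ := exists_nat_gt (2 * ρ / w)
  set r : ℕ := r' + 1 with hr
  have hrw : 2 * ρ < r' * w := by
    rwa [div_lt_iff₀ hw] at hr'
  -- cells
  set sc : ℕ → ℝ := fun c => -((c + 1) * w) with hsc
  set tc : ℕ → ℝ := fun c => -(c * w) with htc
  set Pc : (Fin (k + 1) → ℕ) → ℝ → J → ℝ := fun c T j =>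
    ∏ q, ST h l a b (sc (c q)) (tc (c q)) T j with hPc
  -- good cells
  have hgood : ∀ c : Fin (k + 1) → ℕ, goodCells k r c →
      UB (Av h (Pc c)) (C * (w * I) ^ (k + 1)) := by
    intro c hc
    have hle : cellBox (k + 1) l a (fun q => sc (c q)) ≤ cellBox (k + 1) l b (fun q => tc (c q)) := by
      intro i
      rw [cellBox, cellBox]
      have h1 : sc (c (finProdFinEquiv.symm i).1) ≤ tc (c (finProdFinEquiv.symm i).1) := by
        simp only [hsc, htc]
        nlinarith
      generalize (finProdFinEquiv.symm i).2 = u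
      refine Fin.lastCases ?_ (fun u => ?_) u
      · simp only [Fin.snoc_last]
        exact h1
      · simp only [Fin.snoc_castSucc]
        have := hab u
        linarith
    have h1 := Av_R_UB_loss h hU hle
    refine h1.mono ?_ ?_
    · filter_upwards [eventually_gt_atTop (1 : ℝ)] with T hT
      apply Av_mono h hT
      intro j _
      have h2 := prod_SS_le (PT h T) (xT γ T) (k + 1) l j a b hρ0 haρ hbρ
        (fun q => sc (c q)) (fun q => tc (c q)) ?_ ?_
      · simp only [hPc, ST]
        exact_mod_cast h2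
      · intro q hq
        have h3 := hq.2
        simp only [htc] at h3
        have h4 : ((r' : ℝ) + 1) ≤ c q := by
          have := hc.1 q
          rw [hr] at this
          exact_mod_cast this
        nlinarith
      · intro q q' hqq y hy hy'
        simp only [hsc, htc] at hy hy'
        rcases hc.2 q q' hqq with h5 | h5
        · have h6 : (c q : ℝ) + (r' + 1) ≤ c q' := by
            rw [hr] at h5
            exact_mod_cast h5
          have h7 := hy.1
          have h8 := hy'.2
          nlinarith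
        · have h6 : (c q' : ℝ) + (r' + 1) ≤ c q := by
            rw [hr] at h5
            exact_mod_cast h5
          have h7 := hy'.1
          have h8 := hy.2
          nlinarith
    · have h3 := boxIntegral_cellBox_le (k + 1) l a b (fun q => sc (c q)) (fun q => tc (c q))
        (w := w) (fun q => by simp only [hsc, htc]; ring) hw.le
      exact mul_le_mul_of_nonneg_left h3 hC
  -- all cells
  have hall : ∀ c : Fin (k + 1) → ℕ, UB (Av h (Pc c)) ((k + 1) * CZ) := by
    intro c
    have h1 : UB (fun T => ∑ q : Fin (k + 1), Av h (fun T j =>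
        (Zst h (sc (c q) - ρ) (tc (c q) + ρ) T j + 1) ^ ((l + 1) * (k + 1))) T)
        (∑ q : Fin (k + 1), CZ) := by
      apply UB.sum
      intro q _
      apply hZ
      · simp only [hsc, htc]
        nlinarith
      · simp only [hsc, htc]
        linarith
    refine h1.mono ?_ (by simp)
    filter_upwards [eventually_gt_atTop (1 : ℝ)] with T hT
    rw [← Av_finset_sum]
    apply Av_mono h hT
    intro j _
    have h2 : ∀ q, ST h l a b (sc (c q)) (tc (c q)) T j ≤
        (Zst h (sc (c q) - ρ) (tc (c q) + ρ) T j + 1) ^ (l + 1) := by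
      intro q
      have := SS_le_pow (PT h T) (xT γ T) l j a b hρ0 haρ hbρ (sc (c q)) (tc (c q))
      simp only [ST, Zst]
      exact_mod_cast this
    -- product at most the sum of the powers
    obtain ⟨q0, _, hq0⟩ := Finset.exists_max_image (Finset.univ : Finset (Fin (k + 1)))
      (fun q => (Zst h (sc (c q) - ρ) (tc (c q) + ρ) T j + 1) ^ (l + 1)) ⟨0, Finset.mem_univ _⟩
    have hZ0 : ∀ q, 0 ≤ Zst h (sc (c q) - ρ) (tc (c q) + ρ) T j := fun q => Nat.cast_nonneg _
    calc ∏ q, ST h l a b (sc (c q)) (tc (c q)) T j ≤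
        ∏ q : Fin (k + 1), (Zst h (sc (c q0) - ρ) (tc (c q0) + ρ) T j + 1) ^ (l + 1) := by
          apply Finset.prod_le_prod
          · intro q _
            exact ST_nonneg _ _ _ _ _ _ _ _
          · intro q _
            exact (h2 q).trans (hq0 q (Finset.mem_univ q))
      _ = (Zst h (sc (c q0) - ρ) (tc (c q0) + ρ) T j + 1) ^ ((l + 1) * (k + 1)) := by
          simp [pow_mul]
      _ ≤ _ := Finset.single_le_sum (f := fun q =>
          (Zst h (sc (c q) - ρ) (tc (c q) + ρ) T j + 1) ^ ((l + 1) * (k + 1)))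
          (fun q _ => by have := hZ0 q; positivity) (Finset.mem_univ q0)
  -- the number of bad tuples
  set A : ℝ := ((k + 1) + (k + 1) ^ 2) * (2 * r) * ((k + 1) * CZ) / w ^ (k + 1) with hA
  have hA0 : 0 ≤ A := by positivity
  obtain ⟨n₀, hn₀⟩ := exists_nat_gt (A / η)
  have hn₀0 : (0 : ℝ) < n₀ := lt_of_le_of_lt (by positivity) hn₀
  refine ⟨n₀, by exact_mod_cast hn₀0, fun n hn => ?_⟩
  have hnn : (n₀ : ℝ) ≤ n := by exact_mod_cast hn
  have hn0 : (0 : ℝ) < n := by linarith
  have hnpos : 0 < n := by exact_mod_cast hn0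
  have hAn : A / n ≤ η := by
    rw [div_lt_iff₀ hη] at hn₀
    rw [div_le_iff₀ hn0]
    nlinarith
  set Ω := Fintype.piFinset fun _ : Fin (k + 1) => Finset.range n with hΩ
  have hsum : UB (fun T => ∑ c ∈ Ω, Av h (Pc c) T)
      (∑ c ∈ Ω, (C * (w * I) ^ (k + 1) + if ¬ goodCells k r c then (k + 1) * CZ else 0)) := by
    apply UB.sum
    intro c _
    by_cases hc : goodCells k r c
    · rw [if_neg (not_not.2 hc), add_zero]
      exact hgood c hc
    · rw [if_pos hc]
      refine (hall c).mono (Eventually.of_forall fun _ => le_rfl) ?_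
      have : 0 ≤ C * (w * I) ^ (k + 1) := by positivity
      linarith
  have hfin := hsum.const_mul (a := 1 / (n * w) ^ (k + 1)) (by positivity)
  refine hfin.mono ?_ ?_
  · filter_upwards [eventually_gt_atTop (1 : ℝ)] with T hT
    rw [← Av_finset_sum, ← Av_const_mul]
    apply Av_mono h hT
    intro j _
    have h1 : ST h l a b (-(n * w)) 0 T j ≤
        ∑ c ∈ Finset.range n, ST h l a b (sc c) (tc c) T j := by
      have := SS_le_cells (PT h T) (xT γ T) l j a b w n hnpos
      simp only [ST, hsc, htc]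
      exact_mod_cast this
    have h2 := ST_nonneg h l a b (-(n * w)) 0 T j
    have h3 : ST h l a b (-(n * w)) 0 T j ^ (k + 1) ≤
        (∑ c ∈ Finset.range n, ST h l a b (sc c) (tc c) T j) ^ (k + 1) :=
      pow_le_pow_left₀ h2 h1 _
    rw [Finset.sum_pow'] at h3
    rw [div_pow, div_eq_inv_mul, ← one_div]
    exact mul_le_mul_of_nonneg_left h3 (by positivity)
  · rw [Finset.sum_add_distrib, Finset.sum_const, nsmul_eq_mul, ← Finset.sum_filter,
      Finset.sum_const, nsmul_eq_mul]
    have hcardΩ : (Ω.card : ℝ) = n ^ (k + 1) := by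
      rw [hΩ, Fintype.card_piFinset]
      simp
    have hbad : ((Ω.filter (fun c => ¬ goodCells k r c)).card : ℝ) ≤
        ((k + 1) + (k + 1) ^ 2) * (2 * r * n ^ k) := by
      have := card_bad_le k n r
      exact_mod_cast this
    rw [hcardΩ]
    have h4 : 1 / (n * w) ^ (k + 1) * (n ^ (k + 1) * (C * (w * I) ^ (k + 1))) =
        C * I ^ (k + 1) := by
      rw [mul_pow, mul_pow]
      field_simp
    have h5 : 1 / (n * w) ^ (k + 1) * (((Ω.filter (fun c => ¬ goodCells k r c)).card : ℝ) *
        ((k + 1) * CZ)) ≤ A / n := by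
      have h6 : 1 / (n * w) ^ (k + 1) * (((Ω.filter (fun c => ¬ goodCells k r c)).card : ℝ) *
        ((k + 1) * CZ)) ≤ 1 / (n * w) ^ (k + 1) *
          ((((k : ℝ) + 1) + (k + 1) ^ 2) * (2 * r * n ^ k) * ((k + 1) * CZ)) := by
        gcongr
      refine h6.trans (le_of_eq ?_)
      rw [hA, mul_pow]
      field_simp
      ring
    rw [mul_add, h4]
    linarith

/-- The tensor power step. -/
lemma tensor_step (h : GoodFamily γ) (hS : SubexpUpper γ) {D : ℝ} (hD : 0 ≤ D) {k l : ℕ}
    (hU : CorrelationUpperLoss γ (D ^ (k + 1)) ((k + 1) * (l + 1))) :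
    CorrelationUpperLoss γ D l := by
  apply loss_of_UB h
  intro a b hab
  apply UB_of_forall
  intro ε hε
  obtain ⟨w, hw, hbox⟩ := exists_enlarge hab (ε := ε / (3 * (D + 1))) (by positivity)
  set I := boxIntegral l (fun i => a i - w) (fun i => b i + w) with hI
  have hI0 : 0 ≤ I := boxIntegral_nonneg _ _
  set c0 : ℝ := D * I + ε / 3 with hc0
  have hDI : 0 ≤ D * I := by positivity
  have hc00 : 0 < c0 := by positivity
  set η : ℝ := c0 ^ (k + 1) - (D * I) ^ (k + 1) with hη
  have hη0 : 0 < η := by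
    have : (D * I) ^ (k + 1) < c0 ^ (k + 1) :=
      pow_lt_pow_left₀ (by linarith) hDI (by omega)
    linarith
  obtain ⟨n₀, hn₀, hM⟩ := tensor_moment h hS (pow_nonneg hD _) hU a b hab hw η hη0
  obtain ⟨V₀, hV₀, hK⟩ := key_le h hS a b (ε / 3) (by linarith)
  obtain ⟨n₁, hn₁⟩ := exists_nat_gt (V₀ / w)
  set n := max n₀ n₁ with hn
  have hn0 : (0 : ℝ) < n := by
    have : 0 < n := lt_of_lt_of_le hn₀ (le_max_left _ _)
    exact_mod_cast this
  set V : ℝ := n * w with hV
  have hV0 : 0 < V := by positivity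
  have hVV : V₀ ≤ V := by
    rw [div_lt_iff₀ hw] at hn₁
    have h1 : (n₁ : ℝ) ≤ n := by exact_mod_cast le_max_right n₀ n₁
    have h2 : (n₁ : ℝ) * w ≤ n * w := by gcongr
    linarith
  have h1 := hM n (le_max_left _ _)
  have h2 := hK V hVV
  -- tangent line
  have h3 : UB (Av h (fun T j => ST h l a b (-V) 0 T j / V)) c0 := by
    have t1 := h1.const_mul (a := 1 / ((k + 1) * c0 ^ k)) (by positivity)
    have t2 := (UB_of_tendsto (tendsto_Av_one h)).const_mul (a := k * c0 / (k + 1))
      (by positivity)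
    refine (t1.add t2).mono ?_ (le_of_eq ?_)
    · filter_upwards [eventually_gt_atTop (1 : ℝ)] with T hT
      rw [← Av_const_mul, ← Av_const_mul, ← Av_add]
      apply Av_mono h hT
      intro j _
      set X := ST h l a b (-V) 0 T j / V with hX
      have hX0 : 0 ≤ X := div_nonneg (ST_nonneg _ _ _ _ _ _ _ _) hV0.le
      have h4 := tangent_line (k := k) hX0 hc00
      have h5 : X ≤ 1 / ((k + 1) * c0 ^ k) * (X ^ (k + 1) + k * c0 ^ (k + 1)) := by
        rw [one_div_mul_eq_div, le_div_iff₀ (by positivity)]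
        linarith
      have e : 1 / ((k + 1) * c0 ^ k) * (X ^ (k + 1) + k * c0 ^ (k + 1)) =
          1 / ((k + 1) * c0 ^ k) * X ^ (k + 1) + k * c0 / (k + 1) := by
        field_simp
        ring
      linarith
    · have e1 : D ^ (k + 1) * I ^ (k + 1) + η = c0 ^ (k + 1) := by
        rw [hη, mul_pow]
        ring
      rw [e1]
      field_simp
      ring
  refine (h2.add h3).mono ?_ ?_
  · filter_upwards [eventually_gt_atTop (1 : ℝ)] with T hT
    have h4 : Av h (fun T j => ST h l a b (-V) 0 T j / V) T =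
        (1 / V) * Av h (fun T j => (R (PT h T) (xT γ T) l j a b : ℝ) * ZT h V T j) T := by
      have h5 := sum_SS (PT h T) (xT γ T) l a b V
      have h6 : (∑ j ∈ PT h T, ST h l a b (-V) 0 T j) =
          ∑ j ∈ PT h T, (R (PT h T) (xT γ T) l j a b : ℝ) * ZT h V T j := by
        simp only [ST, ZT]
        exact_mod_cast h5
      simp only [Av]
      rw [← Finset.sum_div, h6]
      ring
    rw [h4]
    linarith
  · have h4 : D * I ≤ D * (boxIntegral l a b + ε / (3 * (D + 1))) := by gcongr
    have h5 : D * (ε / (3 * (D + 1))) ≤ ε / 3 := by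
      rw [mul_div_assoc', div_le_div_iff₀ (by positivity) (by norm_num)]
      nlinarith
    rw [mul_add] at h4
    linarith

/-- Upper bounds with subexponential loss imply the sharp upper bounds. -/
theorem upper_of_subexp (h : GoodFamily γ) (hS : SubexpUpper γ) (l : ℕ) :
    CorrelationUpper γ l := by
  have key : ∀ c : ℝ, 1 < c → CorrelationUpperLoss γ (c ^ (2 * (l + 1))) l := by
    intro c hc
    obtain ⟨K, hK, hU⟩ := hS c hc (l + 1)
    -- `K = (k+1)(l+1) + rest`
    have hl : 0 < l + 1 := Nat.succ_pos l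
    have hk1 : 1 ≤ K / (l + 1) := (Nat.one_le_div_iff hl).2 hK
    obtain ⟨k, hk⟩ : ∃ k, K / (l + 1) = k + 1 := ⟨K / (l + 1) - 1, by omega⟩
    have hle : (k + 1) * (l + 1) ≤ K := by
      rw [← hk]
      exact Nat.div_mul_le_self K (l + 1)
    have hlt : K < (k + 2) * (l + 1) := by
      have := Nat.lt_div_mul_add (a := K) hl
      rw [hk] at this
      linarith [this]
    have h1 := descent_loss_le h hS (by positivity) hle hU
    have h2 : c ^ K ≤ (c ^ (2 * (l + 1))) ^ (k + 1) := by
      rw [← pow_mul]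
      apply pow_le_pow_right₀ hc.le
      nlinarith
    exact tensor_step h hS (by positivity) (h1.mono h2)
  intro a b hab
  have h1 : UB (Av h (fun T j => (R (PT h T) (xT γ T) l j a b : ℝ))) (boxIntegral l a b) := by
    apply UB_of_forall
    intro ε hε
    have hB := boxIntegral_nonneg a b
    have hlim : Tendsto (fun c : ℝ => c ^ (2 * (l + 1)) * boxIntegral l a b) (𝓝[>] 1)
        (𝓝 ((1 : ℝ) ^ (2 * (l + 1)) * boxIntegral l a b)) :=
      (((continuous_pow _).mul continuous_const).tendsto 1).mono_left nhdsWithin_le_nhds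
    rw [one_pow, one_mul] at hlim
    obtain ⟨c, hc1, hc2⟩ := ((hlim.eventually (gt_mem_nhds
      (show boxIntegral l a b < boxIntegral l a b + ε by linarith))).and
      self_mem_nhdsWithin).exists
    exact (Av_R_UB_loss h (key c hc2) hab).mono (Eventually.of_forall fun _ => le_rfl) hc1.le
  intro ε hε
  filter_upwards [h1 ε hε] with T hT
  rwa [tupleCount_div h]

/-- Subexponential loss is harmless. -/
theorem subexp_iff (h : GoodFamily γ) : SubexpUpper γ ↔ ∀ m, CorrelationConj γ m := by
  constructor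
  · intro hS m
    exact conj_of_upper h m (upper_of_subexp h hS m) m le_rfl
  · intro hC c hc M
    refine ⟨M, le_rfl, ?_⟩
    intro a b hab ε hε
    have h1 := UB_of_tendsto (hC M a b hab) ε hε
    filter_upwards [h1] with T hT
    refine hT.trans ?_
    have h2 : (1 : ℝ) ≤ c ^ M := one_le_pow₀ hc.le
    have h3 := mul_le_mul_of_nonneg_right h2 (boxIntegral_nonneg a b)
    linarith

end Pool.Agent.MP_67227b_nt
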