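import Pool.Agent.MP_67227b_nt.Decay67

set_option autoImplicit false
open Filter MeasureTheory Topology Set
open scoped Real CompactlySupported

namespace Pool.Agent.MP_67227b_nt

variable {m : ℕ}

/-- Convergence of the integrals of the continuous functions with compact support. -/
def VagueLim (ν : ℝ → Measure (Fin m → ℝ)) (U : Filter ℝ) (μ : Measure (Fin m → ℝ)) : Prop :=
  ∀ f : (Fin m → ℝ) → ℝ, Continuous f → HasCompactSupport f →
    Tendsto (fun T => ∫ u, f u ∂(ν T)) U (𝓝 (∫ u, f u ∂μ))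

lemma integrable_Cc {μ : Measure (Fin m → ℝ)} [IsLocallyFiniteMeasure μ] {f : (Fin m → ℝ) → ℝ}
    (hf : Continuous f) (hc : HasCompactSupport f) : Integrable f μ :=
  hf.integrable_of_hasCompactSupport hc

lemma bounded_Cc {f : (Fin m → ℝ) → ℝ} (hf : Continuous f) (hc : HasCompactSupport f) :
    ∃ C : ℝ, 0 ≤ C ∧ ∃ R : ℝ, ∀ u, |f u| ≤ (Metric.closedBall (0 : Fin m → ℝ) R).indicator
      (fun _ => C) u := by
  obtain ⟨C, hC⟩ := hf.bounded_above_of_compact_support hc
  obtain ⟨R, hR⟩ := hc.isCompact.isBounded.subset_closedBall (0 : Fin m → ℝ)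
  refine ⟨C, (norm_nonneg _).trans (hC 0), R, fun u => ?_⟩
  by_cases hu : u ∈ Metric.closedBall (0 : Fin m → ℝ) R
  · rw [indicator_of_mem hu]
    exact hC u
  · rw [indicator_of_notMem hu]
    have : f u = 0 := by
      by_contra h
      exact hu (hR (subset_tsupport _ h))
    simp [this]

lemma bounded_integral_Cc (ν : ℝ → Measure (Fin m → ℝ)) [∀ T, IsFiniteMeasure (ν T)]
    (U : Filter ℝ)
    (hbd : ∀ R : ℝ, ∃ C : ℝ, ∀ᶠ T in U, (ν T).real (Metric.closedBall 0 R) ≤ C)
    {f : (Fin m → ℝ) → ℝ} (hf : Continuous f) (hc : HasCompactSupport f) :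
    ∃ C : ℝ, ∀ᶠ T in U, |∫ u, f u ∂(ν T)| ≤ C := by
  obtain ⟨C, hC0, R, hR⟩ := bounded_Cc hf hc
  obtain ⟨D, hD⟩ := hbd R
  refine ⟨D * C, ?_⟩
  filter_upwards [hD] with T hT
  calc |∫ u, f u ∂(ν T)| ≤ ∫ u, |f u| ∂(ν T) := abs_integral_le_integral_abs
    _ ≤ ∫ u, (Metric.closedBall (0 : Fin m → ℝ) R).indicator (fun _ => C) u ∂(ν T) := by
        apply integral_mono (integrable_Cc hf hc).abs
        · exact (integrable_const C).indicator Metric.isClosed_closedBall.measurableSet
        · exact hR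
    _ = (ν T).real (Metric.closedBall 0 R) * C := by
        rw [integral_indicator_const _ Metric.isClosed_closedBall.measurableSet, smul_eq_mul]
    _ ≤ D * C := by gcongr

lemma exists_tendsto_of_bounded (U : Ultrafilter ℝ) {g : ℝ → ℝ} {C : ℝ}
    (h : ∀ᶠ T in (U : Filter ℝ), |g T| ≤ C) : ∃ L : ℝ, Tendsto g U (𝓝 L) := by
  have hc : IsCompact (Icc (-C) C) := isCompact_Icc
  have h2 : (U.map g : Filter ℝ) ≤ 𝓟 (Icc (-C) C) := by
    rw [le_principal_iff]
    change g ⁻¹' (Icc (-C) C) ∈ (U : Filter ℝ)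
    filter_upwards [h] with T hT
    exact abs_le.mp hT
  obtain ⟨L, _, hL⟩ := isCompact_iff_ultrafilter_le_nhds.mp hc (U.map g) h2
  exact ⟨L, hL⟩

theorem exists_limit_measure (ν : ℝ → Measure (Fin m → ℝ)) [∀ T, IsFiniteMeasure (ν T)]
    (U : Ultrafilter ℝ)
    (hbd : ∀ R : ℝ, ∃ C : ℝ, ∀ᶠ T in (U : Filter ℝ), (ν T).real (Metric.closedBall 0 R) ≤ C) :
    ∃ μ : Measure (Fin m → ℝ), IsLocallyFiniteMeasure μ ∧ VagueLim ν U μ := by
  classical
  have hex : ∀ f : C_c(Fin m → ℝ, ℝ), ∃ L : ℝ, Tendsto (fun T => ∫ u, f u ∂(ν T)) U (𝓝 L) := by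
    intro f
    obtain ⟨C, hC⟩ := bounded_integral_Cc ν U hbd f.continuous f.hasCompactSupport
    exact exists_tendsto_of_bounded U hC
  choose L hL using hex
  let Λ₀ : C_c(Fin m → ℝ, ℝ) →ₗ[ℝ] ℝ :=
    { toFun := L
      map_add' := by
        intro f g
        have h1 := (hL f).add (hL g)
        refine tendsto_nhds_unique (hL (f + g)) (h1.congr (fun T => ?_))
        exact (integral_add (integrable_Cc f.continuous f.hasCompactSupport)
          (integrable_Cc g.continuous g.hasCompactSupport)).symm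
      map_smul' := by
        intro c f
        have h1 := (hL f).const_mul c
        refine tendsto_nhds_unique (hL (c • f)) (h1.congr (fun T => ?_))
        rw [← integral_const_mul]
        rfl }
  let Λ : C_c(Fin m → ℝ, ℝ) →ₚ[ℝ] ℝ := PositiveLinearMap.mk₀ Λ₀ (by
    intro f hf
    refine ge_of_tendsto (hL f) (Eventually.of_forall fun T => ?_)
    exact integral_nonneg (fun u => hf u))
  refine ⟨RealRMK.rieszMeasure Λ, inferInstance, ?_⟩
  intro f hf hc
  let F : C_c(Fin m → ℝ, ℝ) := ⟨⟨f, hf⟩, hc⟩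
  have h1 := RealRMK.integral_rieszMeasure Λ F
  have h2 : (∫ u, f u ∂(RealRMK.rieszMeasure Λ)) = L F := h1
  rw [h2]
  exact hL F

/-- The distance cutoff. -/
noncomputable def cut (m : ℕ) (R : ℝ) (u : Fin m → ℝ) : ℝ := max 0 (min 1 (R + 1 - ‖u‖))

lemma continuous_cut (R : ℝ) : Continuous (cut m R) := by
  unfold cut
  fun_prop

lemma cut_nonneg (R : ℝ) (u : Fin m → ℝ) : 0 ≤ cut m R u := le_max_left _ _

lemma cut_le_one (R : ℝ) (u : Fin m → ℝ) : cut m R u ≤ 1 :=
  max_le zero_le_one (min_le_left _ _)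

lemma cut_eq_one {R : ℝ} {u : Fin m → ℝ} (h : ‖u‖ ≤ R) : cut m R u = 1 := by
  unfold cut
  rw [min_eq_left (by linarith), max_eq_right zero_le_one]

lemma cut_eq_zero {R : ℝ} {u : Fin m → ℝ} (h : R + 1 ≤ ‖u‖) : cut m R u = 0 := by
  unfold cut
  rw [max_eq_left]
  exact (min_le_right _ _).trans (by linarith)

lemma hasCompactSupport_cut (R : ℝ) : HasCompactSupport (cut m R) := by
  apply HasCompactSupport.intro (isCompact_closedBall (0 : Fin m → ℝ) (R + 1))
  intro u hu
  rw [mem_closedBall_zero_iff, not_le] at hu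
  exact cut_eq_zero hu.le

lemma cut_mono {R R' : ℝ} (h : R ≤ R') (u : Fin m → ℝ) : cut m R u ≤ cut m R' u := by
  unfold cut
  gcongr

section semicont

variable {ν : ℝ → Measure (Fin m → ℝ)} [∀ T, IsFiniteMeasure (ν T)] {U : Filter ℝ}
  {μ : Measure (Fin m → ℝ)} [IsLocallyFiniteMeasure μ]

/-- A continuous function between the indicators of a compact set and an open set. -/
lemma exists_between {K V : Set (Fin m → ℝ)} (hK : IsCompact K) (hV : IsOpen V) (hKV : K ⊆ V) :
    ∃ f : (Fin m → ℝ) → ℝ, Continuous f ∧ HasCompactSupport f ∧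
      (∀ u, K.indicator (fun _ => (1 : ℝ)) u ≤ f u) ∧
      (∀ u, f u ≤ V.indicator (fun _ => (1 : ℝ)) u) := by
  obtain ⟨f, h1, h2, h3, h4⟩ := exists_continuous_one_zero_of_isCompact hK hV.isClosed_compl
    (disjoint_compl_right_iff_subset.mpr hKV)
  refine ⟨f, f.continuous, h3, fun u => ?_, fun u => ?_⟩
  · by_cases hu : u ∈ K
    · rw [indicator_of_mem hu, h1 hu]
      exact le_rfl
    · rw [indicator_of_notMem hu]
      exact (h4 u).1
  · by_cases hu : u ∈ V
    · rw [indicator_of_mem hu]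
      exact (h4 u).2
    · rw [indicator_of_notMem hu, h2 hu]
      exact le_rfl

lemma vague_upper (h : VagueLim ν U μ) {K : Set (Fin m → ℝ)} (hK : IsCompact K) {δ : ℝ}
    (hδ : 0 < δ) : ∀ᶠ T in U, (ν T).real K ≤ μ.real K + δ := by
  obtain ⟨V, hKV, hV, hμV⟩ := K.exists_isOpen_lt_add hK.measure_lt_top.ne
    (μ := μ) (show ENNReal.ofReal (δ / 2) ≠ 0 by simpa using half_pos hδ)
  obtain ⟨f, hf, hc, h1, h2⟩ := exists_between hK hV hKV
  have hVfin : μ V ≠ ⊤ := (hμV.trans_le le_top).ne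
  have hKfin : μ K ≠ ⊤ := hK.measure_lt_top.ne
  have h3 : ∫ u, f u ∂μ ≤ μ.real K + δ / 2 := by
    calc ∫ u, f u ∂μ ≤ ∫ u, V.indicator (fun _ => (1 : ℝ)) u ∂μ := by
          apply integral_mono (integrable_Cc hf hc)
          · rw [integrable_indicator_iff hV.measurableSet]
            exact integrableOn_const hVfin
          · exact h2
      _ = μ.real V := by
          rw [integral_indicator_const _ hV.measurableSet, smul_eq_mul, mul_one]
      _ ≤ μ.real K + δ / 2 := by
          unfold Measure.real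
          have h4 := ENNReal.toReal_mono (ENNReal.add_ne_top.mpr ⟨hKfin, ENNReal.ofReal_ne_top⟩)
            hμV.le
          rwa [ENNReal.toReal_add hKfin ENNReal.ofReal_ne_top,
            ENNReal.toReal_ofReal (half_pos hδ).le] at h4
  have h4 := (h f hf hc).eventually (gt_mem_nhds (show ∫ u, f u ∂μ < ∫ u, f u ∂μ + δ / 2 by
    linarith))
  filter_upwards [h4] with T hT
  calc (ν T).real K = ∫ u, K.indicator (fun _ => (1 : ℝ)) u ∂(ν T) := by
        rw [integral_indicator_const _ hK.measurableSet, smul_eq_mul, mul_one]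
    _ ≤ ∫ u, f u ∂(ν T) := by
        apply integral_mono _ (integrable_Cc hf hc) h1
        exact (integrable_const 1).indicator hK.measurableSet
    _ ≤ μ.real K + δ := by linarith

lemma vague_lower (h : VagueLim ν U μ) {K V : Set (Fin m → ℝ)} (hK : IsCompact K)
    (hV : IsOpen V) (hKV : K ⊆ V) {δ : ℝ}
    (hδ : 0 < δ) : ∀ᶠ T in U, μ.real K ≤ (ν T).real V + δ := by
  obtain ⟨f, hf, hc, h1, h2⟩ := exists_between hK hV hKV
  have hKfin : μ K ≠ ⊤ := hK.measure_lt_top.ne
  have h3 : μ.real K ≤ ∫ u, f u ∂μ := by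
    calc μ.real K = ∫ u, K.indicator (fun _ => (1 : ℝ)) u ∂μ := by
          rw [integral_indicator_const _ hK.measurableSet, smul_eq_mul, mul_one]
      _ ≤ ∫ u, f u ∂μ := by
          apply integral_mono _ (integrable_Cc hf hc) h1
          rw [integrable_indicator_iff hK.measurableSet]
          exact integrableOn_const hKfin
  have h4 := (h f hf hc).eventually (lt_mem_nhds (show ∫ u, f u ∂μ - δ < ∫ u, f u ∂μ by
    linarith))
  filter_upwards [h4] with T hT
  have h5 : ∫ u, f u ∂(ν T) ≤ (ν T).real V := by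
    calc ∫ u, f u ∂(ν T) ≤ ∫ u, V.indicator (fun _ => (1 : ℝ)) u ∂(ν T) := by
          apply integral_mono (integrable_Cc hf hc) _ h2
          exact (integrable_const 1).indicator hV.measurableSet
      _ = (ν T).real V := by
          rw [integral_indicator_const _ hV.measurableSet, smul_eq_mul, mul_one]
  linarith

end semicont

end Pool.Agent.MP_67227b_nt
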