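import Pool.Agent.MP_67227b_nt.Bordered35

set_option autoImplicit false

open Filter MeasureTheory Topology Set
open scoped Real Nat

namespace Pool.Agent.MP_67227b_nt

section Var

variable {m : ℕ}

lemma continuous_Hk (w : Fin (m + 1) → ℝ) : Continuous fun p : ℝ × ℝ => Hk w p.1 p.2 := by
  unfold Hk
  apply Continuous.sub
  · exact continuous_const.mul (continuous_K.comp (by fun_prop))
  · apply continuous_finsetSum
    intro i _
    apply continuous_finsetSum
    intro l _
    exact continuous_const.mul ((continuous_K.comp (by fun_prop)).mul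
      (continuous_K.comp (by fun_prop)))

lemma continuous_Hk_self (w : Fin (m + 1) → ℝ) : Continuous fun v : ℝ => Hk w v v :=
  (continuous_Hk w).comp (by fun_prop : Continuous fun v : ℝ => ((v, v) : ℝ × ℝ))

lemma Hk_self_eq (w : Fin (m + 1) → ℝ) (v : ℝ) :
    Hk w v v = (sineMatrix w).det - defect m w v := by
  rw [Hk_self, defect]
  ring

lemma continuous_int_K (B : Set ℝ) (hB : IsCompact B) :
    Continuous fun v : ℝ => ∫ v' in B, K (v - v') ^ 2 :=
  continuous_parametric_integral_of_continuous
    (f := fun v v' : ℝ => K (v - v') ^ 2) ((continuous_K.comp (by fun_prop)).pow 2) hB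

lemma continuous_int_Hk (w : Fin (m + 1) → ℝ) (B : Set ℝ) (hB : IsCompact B) :
    Continuous fun v : ℝ => ∫ v' in B, Hk w v' v ^ 2 := by
  have h1 : Continuous fun p : ℝ × ℝ => Hk w p.2 p.1 :=
    (continuous_Hk w).comp (by fun_prop : Continuous fun p : ℝ × ℝ => ((p.2, p.1) : ℝ × ℝ))
  have h2 : Continuous fun p : ℝ × ℝ => Hk w p.2 p.1 ^ 2 := h1.pow 2
  exact continuous_parametric_integral_of_continuous (f := fun v v' : ℝ => Hk w v' v ^ 2) h2 hB

lemma integrable_K_sq' (v : ℝ) : Integrable fun v' : ℝ => K (v - v') ^ 2 := by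
  have := integrable_K_sq v
  refine this.congr (Eventually.of_forall fun v' => ?_)
  simp only
  rw [← K_neg, neg_sub]

lemma int_K_compl (v : ℝ) {B : Set ℝ} (hB : IsCompact B) :
    ∫ v' in Bᶜ, K (v - v') ^ 2 = 1 - ∫ v' in B, K (v - v') ^ 2 := by
  have h := integral_add_compl hB.measurableSet (integrable_K_sq' v)
  have h2 : ∫ v' : ℝ, K (v - v') ^ 2 = 1 := by
    rw [← integral_K_sq v]
    congr 1
    ext v'
    rw [← K_neg, neg_sub]
  linarith

lemma continuous_int_K_compl (B : Set ℝ) (hB : IsCompact B) :
    Continuous fun v : ℝ => ∫ v' in Bᶜ, K (v - v') ^ 2 := by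
  have : (fun v : ℝ => ∫ v' in Bᶜ, K (v - v') ^ 2) =
      fun v : ℝ => 1 - ∫ v' in B, K (v - v') ^ 2 := by
    ext v
    exact int_K_compl v hB
  rw [this]
  exact continuous_const.sub (continuous_int_K B hB)

lemma E_bound (w : Fin (m + 1) → ℝ) (hS : 0 < (sineMatrix w).det) {A B : Set ℝ}
    (hA : IsCompact A) (hB : IsCompact B) :
    (sineMatrix w).det * (∫ v in A, Hk w v v) - ∫ v' in A, ∫ v in B, Hk w v v' ^ 2 ≤
      2 * (sineMatrix w).det ^ 2 * (∫ v' in A, ∫ v in Bᶜ, K (v' - v) ^ 2) +
      2 * ((∫ v in A, defect m w v) * ∫ v in Bᶜ, defect m w v) := by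
  set S := (sineMatrix w).det with hSdef
  have hpt : ∀ v' : ℝ, S * Hk w v' v' - ∫ v in B, Hk w v v' ^ 2 ≤
      2 * S ^ 2 * (∫ v in Bᶜ, K (v' - v) ^ 2) +
        2 * (defect m w v' * ∫ v in Bᶜ, defect m w v) := by
    intro v'
    have h1 := integral_add_compl hB.measurableSet (integrable_Hk_sq w v')
    rw [integral_Hk_sq] at h1
    have h2 : ∫ v in B, Hk w v v' ^ 2 = ∫ v in B, Hk w v' v ^ 2 := by
      congr 1
      ext v
      rw [Hk_symm]
    rw [h2, ← hSdef] at *
    have h3 : S * Hk w v' v' - ∫ v in B, Hk w v' v ^ 2 = ∫ v in Bᶜ, Hk w v' v ^ 2 := by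
      linarith
    rw [h3]
    have h4 : ∫ v in Bᶜ, Hk w v' v ^ 2 ≤
        ∫ v in Bᶜ, (2 * S ^ 2 * K (v' - v) ^ 2 + 2 * (defect m w v' * defect m w v)) := by
      apply setIntegral_mono
      · exact (integrable_Hk_sq w v').integrableOn
      · exact (((integrable_K_sq' v').const_mul _).add
          (((integrable_defect m w).const_mul _).const_mul _)).integrableOn
      · intro v
        simp only
        have h5 := Bk_sq_le w hS v' v
        rw [Hk_eq, ← hSdef]
        nlinarith [sq_nonneg (S * K (v' - v) + Bk w v' v)]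
    refine h4.trans (le_of_eq ?_)
    rw [integral_add, integral_const_mul, integral_const_mul, integral_const_mul]
    · exact ((integrable_K_sq' v').const_mul _).integrableOn
    · exact (((integrable_defect m w).const_mul _).const_mul _).integrableOn
  have hc1 : Continuous fun v' : ℝ => S * Hk w v' v' :=
    continuous_const.mul (continuous_Hk_self w)
  have hc2 := continuous_int_Hk w B hB
  have hc3 := continuous_int_K_compl B hB
  have hc4 := continuous_defect w
  calc S * (∫ v in A, Hk w v v) - ∫ v' in A, ∫ v in B, Hk w v v' ^ 2 =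
      ∫ v' in A, (S * Hk w v' v' - ∫ v in B, Hk w v v' ^ 2) := by
        rw [integral_sub, integral_const_mul]
        · exact hc1.continuousOn.integrableOn_compact hA
        · exact hc2.continuousOn.integrableOn_compact hA
    _ ≤ ∫ v' in A, (2 * S ^ 2 * (∫ v in Bᶜ, K (v' - v) ^ 2) +
        2 * (defect m w v' * ∫ v in Bᶜ, defect m w v)) := by
        apply setIntegral_mono
        · exact (hc1.sub hc2).continuousOn.integrableOn_compact hA
        · exact ((continuous_const.mul hc3).add
            (continuous_const.mul (hc4.mul continuous_const))).continuousOn.integrableOn_compact hA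
        · exact hpt
    _ = _ := by
        rw [integral_add, integral_const_mul, integral_const_mul, integral_mul_const]
        · exact (continuous_const.mul hc3).continuousOn.integrableOn_compact hA
        · exact (continuous_const.mul (hc4.mul continuous_const)).continuousOn.integrableOn_compact hA

/-- The two-point integrals. -/
lemma T_eq (w : Fin (m + 1) → ℝ) (hS : 0 < (sineMatrix w).det) {A B : Set ℝ}
    (hA : IsCompact A) (hB : IsCompact B) :
    (sineMatrix w).det * (∫ v' in A, ∫ v in B,
      (sineMatrix (Fin.cons v (Fin.cons v' w : Fin (m + 2) → ℝ) : Fin (m + 3) → ℝ)).det) =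
      (∫ v in B, Hk w v v) * (∫ v in A, Hk w v v) - ∫ v' in A, ∫ v in B, Hk w v v' ^ 2 := by
  have hc1 := continuous_Hk_self w
  have hc2 := continuous_int_Hk w B hB
  have hpt : ∀ v' : ℝ, (sineMatrix w).det * (∫ v in B,
      (sineMatrix (Fin.cons v (Fin.cons v' w : Fin (m + 2) → ℝ) : Fin (m + 3) → ℝ)).det) =
      (∫ v in B, Hk w v v) * Hk w v' v' - ∫ v in B, Hk w v v' ^ 2 := by
    intro v'
    rw [← integral_const_mul]
    simp_rw [two_point w hS]
    rw [integral_sub, integral_mul_const]
    · exact (hc1.mul continuous_const).continuousOn.integrableOn_compact hB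
    · exact (((continuous_Hk w).comp (by fun_prop : Continuous fun v : ℝ =>
        ((v, v') : ℝ × ℝ))).pow 2).continuousOn.integrableOn_compact hB
  rw [← integral_const_mul]
  simp_rw [hpt]
  rw [integral_sub, integral_const_mul]
  · exact (continuous_const.mul hc1).continuousOn.integrableOn_compact hA
  · exact hc2.continuousOn.integrableOn_compact hA

end Var

end Pool.Agent.MP_67227b_nt
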