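import Pool.Agent.MP_67227b_nt.Pinch67

set_option autoImplicit false
open Filter MeasureTheory Topology Set
open scoped Real Pointwise ComplexConjugate

namespace Pool.Agent.MP_67227b_nt

variable {m : ℕ}

lemma trigSpan_conj {ε : ℝ} {F : (Fin m → ℝ) → ℂ}
    (hF : F ∈ trigSpan (Metric.closedBall (0 : Fin m → ℝ) ε)) :
    (fun u => (starRingEnd ℂ) (F u)) ∈ trigSpan (Metric.closedBall (0 : Fin m → ℝ) ε) := by
  refine Submodule.span_induction (p := fun F _ => (fun u => (starRingEnd ℂ) (F u)) ∈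
    trigSpan (Metric.closedBall (0 : Fin m → ℝ) ε)) ?_ ?_ ?_ ?_ hF
  · rintro _ ⟨ξ, hξ, rfl⟩
    have : (fun u => (starRingEnd ℂ) (ee ξ u)) = ee (-ξ) := by
      ext u
      rw [ee_neg_left]
    dsimp only
    rw [this]
    refine ee_mem_trigSpan ?_
    rw [mem_closedBall_zero_iff] at hξ ⊢
    rwa [norm_neg]
  · simp only [Pi.zero_apply, map_zero]
    exact Submodule.zero_mem _
  · intro F G _ _ h1 h2
    have : (fun u => (starRingEnd ℂ) ((F + G) u)) =
        (fun u => (starRingEnd ℂ) (F u)) + fun u => (starRingEnd ℂ) (G u) := by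
      ext u
      simp
    rw [this]
    exact Submodule.add_mem _ h1 h2
  · intro c F _ h1
    have : (fun u => (starRingEnd ℂ) ((c • F) u)) =
        (starRingEnd ℂ) c • (fun u => (starRingEnd ℂ) (F u)) := by
      ext u
      simp
    rw [this]
    exact Submodule.smul_mem _ _ h1

/-- The functions on a ball which can be approximated by trigonometric polynomials with
arbitrarily small frequencies. -/
def apx (m : ℕ) (R : ℝ) : StarSubalgebra ℂ C(Metric.closedBall (0 : Fin m → ℝ) R, ℂ) where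
  carrier := {f | ∀ ε : ℝ, 0 < ε → ∀ δ : ℝ, 0 < δ →
    ∃ G ∈ trigSpan (Metric.closedBall (0 : Fin m → ℝ) ε),
      ∀ x : Metric.closedBall (0 : Fin m → ℝ) R, ‖f x - G x‖ ≤ δ}
  add_mem' := by
    intro f g hf hg ε hε δ hδ
    obtain ⟨F, hF, hF2⟩ := hf ε hε (δ / 2) (half_pos hδ)
    obtain ⟨G, hG, hG2⟩ := hg ε hε (δ / 2) (half_pos hδ)
    refine ⟨F + G, Submodule.add_mem _ hF hG, fun x => ?_⟩
    have h1 : (f + g) x - (F + G) x = (f x - F x) + (g x - G x) := by
      simp only [ContinuousMap.add_apply, Pi.add_apply]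
      ring
    rw [h1]
    exact (norm_add_le _ _).trans (by linarith [hF2 x, hG2 x])
  mul_mem' := by
    intro f g hf hg ε hε δ hδ
    set M : ℝ := ‖f‖ + ‖g‖ + 1 with hM
    have hM1 : 1 ≤ M := by
      have := norm_nonneg f
      have := norm_nonneg g
      linarith
    set δ' : ℝ := min 1 (δ / (3 * M)) with hδ'
    have hδ'0 : 0 < δ' := lt_min one_pos (by positivity)
    obtain ⟨F, hF, hF2⟩ := hf (ε / 2) (half_pos hε) δ' hδ'0
    obtain ⟨G, hG, hG2⟩ := hg (ε / 2) (half_pos hε) δ' hδ'0
    refine ⟨F * G, ?_, fun x => ?_⟩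
    · have := trig_mul_ball hF hG
      rwa [add_halves] at this
    · have h1 : (f * g) x - (F * G) x = f x * (g x - G x) + (f x - F x) * g x -
          (f x - F x) * (g x - G x) := by
        simp only [ContinuousMap.mul_apply, Pi.mul_apply]
        ring
      have h2 := f.norm_coe_le_norm x
      have h3 := g.norm_coe_le_norm x
      have h4 := hF2 x
      have h5 := hG2 x
      have h6 : δ' ≤ 1 := min_le_left _ _
      have h7 : δ' ≤ δ / (3 * M) := min_le_right _ _
      have hf0 := norm_nonneg f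
      have hg0 := norm_nonneg g
      calc ‖(f * g) x - (F * G) x‖ ≤ ‖f x * (g x - G x)‖ + ‖(f x - F x) * g x‖ +
            ‖(f x - F x) * (g x - G x)‖ := by
            rw [h1]
            exact (norm_sub_le _ _).trans (by gcongr; exact norm_add_le _ _)
        _ ≤ M * δ' + δ' * M + δ' * 1 := by
            rw [norm_mul, norm_mul, norm_mul]
            gcongr
            · linarith
            · linarith
            · linarith
        _ ≤ 3 * M * δ' := by nlinarith
        _ ≤ 3 * M * (δ / (3 * M)) := by gcongr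
        _ = δ := by field_simp
  algebraMap_mem' := by
    intro c ε hε δ hδ
    refine ⟨c • 1, Submodule.smul_mem _ _ (one_mem_trig hε.le), fun x => ?_⟩
    simp [hδ.le]
  star_mem' := by
    intro f hf ε hε δ hδ
    obtain ⟨F, hF, hF2⟩ := hf ε hε δ hδ
    refine ⟨_, trigSpan_conj hF, fun x => ?_⟩
    have h1 : (star f) x - (starRingEnd ℂ) (F x) = (starRingEnd ℂ) (f x - F x) := by
      rw [map_sub]
      rfl
    rw [h1, Complex.norm_conj]
    exact hF2 x

lemma coord_mem_apx (R : ℝ) (i : Fin m) :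
    (⟨fun x : Metric.closedBall (0 : Fin m → ℝ) R => ((x.1 i : ℝ) : ℂ),
      Complex.continuous_ofReal.comp ((continuous_apply i).comp continuous_subtype_val)⟩ :
      C(Metric.closedBall (0 : Fin m → ℝ) R, ℂ)) ∈ apx m R := by
  classical
  intro ε hε δ hδ
  set D : ℝ := 2 * π * (|R| + 1) ^ 2 with hD
  have hD0 : 0 < D := by positivity
  set h : ℝ := min ε (min (1 / D) (δ / D)) with hh
  have h0 : 0 < h := lt_min hε (lt_min (by positivity) (by positivity))
  have h1 : h ≤ ε := min_le_left _ _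
  have h2 : h ≤ 1 / D := (min_le_right _ _).trans (min_le_left _ _)
  have h3 : h ≤ δ / D := (min_le_right _ _).trans (min_le_right _ _)
  refine ⟨(1 / (2 * π * Complex.I * h) : ℂ) • (ee (Pi.single i h) - ee (0 : Fin m → ℝ)),
    ?_, fun x => ?_⟩
  · apply Submodule.smul_mem
    apply Submodule.sub_mem
    · refine ee_mem_trigSpan ?_
      rw [mem_closedBall_zero_iff, Pi.norm_single, Real.norm_of_nonneg h0.le]
      exact h1
    · exact ee_mem_trigSpan (by simpa using hε.le)
  · have hx : ‖x.1‖ ≤ R := by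
      have := x.2
      rwa [mem_closedBall_zero_iff] at this
    have hxi : |x.1 i| ≤ |R| + 1 := by
      have h4 := norm_le_pi_norm x.1 i
      rw [Real.norm_eq_abs] at h4
      linarith [le_abs_self R]
    have e1 : ∑ j, (Pi.single i h : Fin m → ℝ) j * x.1 j = h * x.1 i := by
      rw [Finset.sum_eq_single i]
      · simp
      · intro j _ hj
        simp [hj]
      · simp
    set z : ℂ := 2 * π * Complex.I * ((h * x.1 i : ℝ) : ℂ) with hz
    have hzn : ‖z‖ = 2 * π * h * |x.1 i| := by
      rw [hz, norm_mul, norm_mul, norm_mul, Complex.norm_I, Complex.norm_real, Complex.norm_real,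
        Real.norm_eq_abs, Real.norm_eq_abs, abs_mul, abs_of_pos h0, abs_of_pos Real.pi_pos]
      norm_num
      ring
    have hz1 : ‖z‖ ≤ 1 := by
      rw [hzn]
      calc 2 * π * h * |x.1 i| ≤ 2 * π * (1 / D) * (|R| + 1) := by gcongr
        _ = 1 / (|R| + 1) := by
            rw [hD]
            field_simp
        _ ≤ 1 := by
            rw [div_le_one (by positivity)]
            linarith [abs_nonneg R]
    have hz2 := Complex.norm_exp_sub_one_sub_id_le hz1
    have hπ : (π : ℂ) ≠ 0 := by exact_mod_cast Real.pi_ne_zero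
    have hhc : (h : ℂ) ≠ 0 := by exact_mod_cast h0.ne'
    have e2 : ((x.1 i : ℝ) : ℂ) - ((1 / (2 * π * Complex.I * h) : ℂ) •
        (ee (Pi.single i h) - ee (0 : Fin m → ℝ))) x.1 =
        -(1 / (2 * π * Complex.I * h)) * (Complex.exp z - 1 - z) := by
      rw [Pi.smul_apply, Pi.sub_apply, ee_zero_left, smul_eq_mul]
      unfold ee
      rw [e1, ← hz]
      have : z = 2 * π * Complex.I * h * ((x.1 i : ℝ) : ℂ) := by
        rw [hz]
        push_cast
        ring
      generalize Complex.exp z = y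
      rw [this]
      field_simp
      ring
    change ‖((x.1 i : ℝ) : ℂ) - ((1 / (2 * π * Complex.I * h) : ℂ) •
        (ee (Pi.single i h) - ee (0 : Fin m → ℝ))) x.1‖ ≤ δ
    rw [e2, norm_mul, norm_neg, norm_div, norm_one, norm_mul, norm_mul, norm_mul,
      Complex.norm_I, Complex.norm_real, Complex.norm_real, Real.norm_eq_abs, Real.norm_eq_abs,
      abs_of_pos h0, abs_of_pos Real.pi_pos, Complex.norm_two]
    calc 1 / (2 * π * 1 * h) * ‖Complex.exp z - 1 - z‖ ≤ 1 / (2 * π * 1 * h) * ‖z‖ ^ 2 := by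
          gcongr
      _ = 2 * π * h * |x.1 i| ^ 2 := by
          rw [hzn]
          field_simp
      _ ≤ 2 * π * (δ / D) * (|R| + 1) ^ 2 := by gcongr
      _ = δ := by
          rw [hD]
          field_simp

lemma apx_eq_top (m : ℕ) (R : ℝ) : (apx m R).topologicalClosure = ⊤ := by
  apply ContinuousMap.starSubalgebra_topologicalClosure_eq_top_of_separatesPoints
  intro x y hxy
  have h1 : x.1 ≠ y.1 := fun h => hxy (Subtype.ext h)
  obtain ⟨i, hi⟩ := Function.ne_iff.mp h1
  refine ⟨_, ⟨_, coord_mem_apx R i, rfl⟩, ?_⟩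
  simpa using hi

/-- Trigonometric polynomials with small frequencies are dense on balls. -/
lemma approx_trig (R : ℝ) {ε : ℝ} (hε : 0 < ε) {F : (Fin m → ℝ) → ℂ} (hF : Continuous F)
    {δ : ℝ} (hδ : 0 < δ) : ∃ G ∈ trigSpan (Metric.closedBall (0 : Fin m → ℝ) ε),
      ∀ u : Fin m → ℝ, ‖u‖ ≤ R → ‖F u - G u‖ ≤ δ := by
  set f : C(Metric.closedBall (0 : Fin m → ℝ) R, ℂ) := ⟨fun x => F x.1, by fun_prop⟩ with hf
  have h1 : f ∈ (apx m R).topologicalClosure := by
    rw [apx_eq_top]
    exact StarSubalgebra.mem_top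
  have h2 : f ∈ closure ((apx m R : Set C(Metric.closedBall (0 : Fin m → ℝ) R, ℂ))) := h1
  obtain ⟨g, hg, hgf⟩ := Metric.mem_closure_iff.mp h2 (δ / 2) (half_pos hδ)
  obtain ⟨G, hG, hG2⟩ := hg ε hε (δ / 2) (half_pos hδ)
  refine ⟨G, hG, fun u hu => ?_⟩
  set x : Metric.closedBall (0 : Fin m → ℝ) R := ⟨u, by rwa [mem_closedBall_zero_iff]⟩ with hx
  have h3 : ‖f x - g x‖ ≤ δ / 2 := by
    rw [← dist_eq_norm]
    exact (ContinuousMap.dist_apply_le_dist x).trans hgf.le
  have h4 := hG2 x
  have h5 : F u - G u = (f x - g x) + (g x - G x) := by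
    simp [hf, hx]
  rw [h5]
  exact (norm_add_le _ _).trans (by linarith)

end Pool.Agent.MP_67227b_nt
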